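import Pool.Agent.MP_89edc2_al.R3.Spec2

/-!
# The action of `Gam` on the universal group
-/

namespace Pool.Agent.MP_89edc2_al.R3

namespace Act1x

/-- `g` carries the box `a` to a box -/
def Dm (g : Equiv.Perm X) (a : Box) : Prop := ∃ a', Ty a a' ∧ Car g a a'

open Classical in
/-- the image box -/
noncomputable def im (g : Equiv.Perm X) (a : Box) : Box := if h : Dm g a then h.choose else a

theorem im_spec {g : Equiv.Perm X} {a : Box} (h : Dm g a) : Ty a (im g a) ∧ Car g a (im g a) := by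
  rw [im, dif_pos h]
  exact h.choose_spec

theorem im_eq (hM : SemF) {g : Equiv.Perm X} {a a' : Box} (h : Ty a a') (h' : Car g a a') :
    im g a = a' :=
  hM.car_uniq g a _ _ (im_spec ⟨_, h, h'⟩).1 h (im_spec ⟨_, h, h'⟩).2 h'

theorem deep_mono {n k : ℕ} {σ : Shape} (h : Deep n σ) (hk : k ≤ n) : Deep k σ :=
  fun e he h' => hk.trans (h e he h')

theorem deep_pt (n : ℕ) : ∀ σ : Shape, ar σ = 0 → Deep n σ
  | [], _ => fun _ he => absurd he List.not_mem_nil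
  | (w, true) :: σ, h => fun e he h' => by
    rcases List.mem_cons.1 he with rfl | he
    · exact absurd h' (by simp)
    · exact deep_pt n σ h e he h'
  | (_, false) :: _, h => absurd h (Nat.succ_ne_zero _)

theorem ty3 (hS : ShapeF) {a b c a' b' c' : Box} (h : Tri a b c) (h' : Tri a' b' c')
    (t : Ty a a') : Ty b b' ∧ Ty c c' :=
  ⟨hS.ty_trans _ _ _ (hS.ty_symm _ _ h.1) (hS.ty_trans _ _ _ t h'.1),
    hS.ty_trans _ _ _ (hS.ty_symm _ _ h.2.1) (hS.ty_trans _ _ _ t h'.2.1)⟩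

theorem tri_car (hS : ShapeF) (hM : SemF) {g : Equiv.Perm X} {a b c a' b' c' : Box}
    (h : Tri a b c) (ha : Ty a a' ∧ Car g a a') (hb : Ty b b' ∧ Car g b b')
    (hc : Ty c c' ∧ Car g c c') : Tri a' b' c' :=
  ⟨hS.ty_trans _ _ _ (hS.ty_symm _ _ ha.1) (hS.ty_trans _ _ _ h.1 hb.1),
    hS.ty_trans _ _ _ (hS.ty_symm _ _ ha.1) (hS.ty_trans _ _ _ h.2.1 hc.1),
    hM.car_disj g _ _ _ _ ha.1 hb.1 ha.2 hb.2 h.2.2.1,
    hM.car_disj g _ _ _ _ ha.1 hc.1 ha.2 hc.2 h.2.2.2.1,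
    hM.car_disj g _ _ _ _ hb.1 hc.1 hb.2 hc.2 h.2.2.2.2⟩

/-- induction from deep triples -/
theorem ind3 (hS : ShapeF) (n : ℕ) (P : Box → Box → Box → Prop)
    (h0 : ∀ a b c, Tri a b c → Deep n a.2 → Deep n b.2 → Deep n c.2 → P a b c)
    (h1 : ∀ a b c i, Tri a b c → i < ar a.2 →
      (∀ o, P (kd a i o) (kd b i o) (kd c i o)) → P a b c) :
    ∀ a b c, Tri a b c → P a b c := fun a b c h =>
  hS.deep3 n (fun a b c => Tri a b c → P a b c)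
    (fun a b c _ _ ha hb hc t => h0 a b c t ha hb hc)
    (fun a b c i _ _ hi k t => h1 a b c i t hi fun o => k o (hS.tri_kd a b c i o t hi))
    a b c h.1 h.2.1 h

variable {G : Type} [Group G] {d : D3G G}

theorem gen_ext (hS : ShapeF) (hU : Univ d) {H : Type} [Group H] {φ ψ : G →* H}
    (h : ∀ a b c, Tri a b c → φ (d a b c) = ψ (d a b c)) : φ = ψ := by
  have := hU.gen (φ.eqLocus ψ) fun a b c t => h a b c (hS.dc_tri a b c t.1)
  ext x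
  have hx : x ∈ φ.eqLocus ψ := by
    rw [this]
    exact Subgroup.mem_top x
  exact hx

theorem hom_ext (hS : ShapeF) (hU : Univ d) {H : Type} [Group H] {φ ψ : G →* H} (n : ℕ)
    (h : ∀ a b c, Tri a b c → Deep n a.2 → Deep n b.2 → Deep n c.2 →
      φ (d a b c) = ψ (d a b c)) : φ = ψ := by
  refine gen_ext hS hU (ind3 hS n _ h fun a b c i t hi k => ?_)
  rw [hU.full.split a b c i t hi fun o => hS.tri_kd a b c i o t hi]
  simp only [map_mul, k]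

theorem sys_im (hS : ShapeF) (hM : SemF) (hd : Sys Tri d) (g : Equiv.Perm X) :
    Sys (fun a b c => Tri a b c ∧ Dm g a ∧ Dm g b ∧ Dm g c)
      fun a b c => d (im g a) (im g b) (im g c) := by
  have T : ∀ {a b c}, (Tri a b c ∧ Dm g a ∧ Dm g b ∧ Dm g c) → Tri (im g a) (im g b) (im g c) :=
    fun h => tri_car hS hM h.1 (im_spec h.2.1) (im_spec h.2.2.1) (im_spec h.2.2.2)
  refine ⟨fun a b c h => hd.cyc _ _ _ (T h), fun a b c h => hd.inv _ _ _ (T h),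
    fun a b e f h1 h2 h3 => hd.tri _ _ _ _ (T h1) (T h2) (T h3), fun a b c i h hi _ => ?_,
    fun g₁ g₂ g₃ a b c a' b' c' h1 h2 h3 ma mb mc => ?_⟩
  · have k : ∀ z o, Dm g z → i < ar z.2 → im g (kd z i o) = kd (im g z) i o := fun z o hz hi =>
      im_eq hM (hS.ty_kd _ _ i i o (im_spec hz).1 hi hi)
        (hM.car_kd g _ _ i o (im_spec hz).1 (im_spec hz).2)
    have hb : i < ar b.2 := h.1.1.2.2.1 ▸ hi
    have hc : i < ar c.2 := h.1.2.1.2.2.1 ▸ hi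
    have hi' : i < ar (im g a).2 := (im_spec h.2.1).1.2.2.1 ▸ hi
    simp only [k a _ h.2.1 hi, k b _ h.2.2.1 hb, k c _ h.2.2.2 hc]
    exact hd.split _ _ _ i (T h) hi' fun o => hS.tri_kd _ _ _ i o (T h) hi'
  · have k : ∀ z z', Dm g z → Dm g z' → Mv g₁ g₂ g₃ z z' →
        Mv (im g g₁) (im g g₂) (im g g₃) (im g z) (im g z') := fun z z' hz hz' =>
      hM.car_mv g _ _ _ _ _ _ _ _ _ _ h1.1 (im_spec h1.2.1).1 (im_spec h1.2.2.1).1
        (im_spec h1.2.2.2).1 (im_spec h1.2.1).2 (im_spec h1.2.2.1).2 (im_spec h1.2.2.2).2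
        (im_spec hz).1 (im_spec hz').1 (im_spec hz).2 (im_spec hz').2
    exact hd.conj _ _ _ _ _ _ _ _ _ (T h1) (T h2) (T h3) (k _ _ h2.2.1 h3.2.1 ma)
      (k _ _ h2.2.2.1 h3.2.2.1 mb) (k _ _ h2.2.2.2 h3.2.2.2 mc)

/-- `φ` is induced by `g` -/
def Ind (d : D3G G) (g : Equiv.Perm X) (φ : G →* G) : Prop :=
  ∀ a b c a' b' c', Tri a b c → Ty a a' ∧ Car g a a' → Ty b b' ∧ Car g b b' →
    Ty c c' ∧ Car g c c' → φ (d a b c) = d a' b' c'

theorem ind_ex (hS : ShapeF) (hM : SemF) (hE : Ext) (hU : Univ d) (g : Gam) :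
    ∃ φ, Ind d g φ := by
  obtain ⟨v, hv, hv'⟩ := hE G _ (Dm g) (hM.gam_fine g g.2)
    (fun b u ⟨b', h1, h2⟩ hu => ⟨_, hS.ty_sb b b' u h1 hu, hM.car_sb g b b' u h1 hu h2⟩)
    (sys_im hS hM hU.full g)
  obtain ⟨φ, hφ⟩ := hU.lift G v hv
  refine ⟨φ, fun a b c a' b' c' t ha hb hc => ?_⟩
  rw [hφ a b c t, hv' a b c t ⟨_, ha⟩ ⟨_, hb⟩ ⟨_, hc⟩, im_eq hM ha.1 ha.2, im_eq hM hb.1 hb.2,
    im_eq hM hc.1 hc.2]

/-- deep triples have images -/
theorem fine3 (hM : SemF) (g : Gam) : ∃ n, ∀ a b c, Tri a b c → Deep n a.2 → Deep n b.2 →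
    Deep n c.2 → ∃ a' b' c', (Ty a a' ∧ Car g a a') ∧ (Ty b b' ∧ Car g b b') ∧
      Ty c c' ∧ Car g c c' := by
  obtain ⟨n, hn⟩ := hM.gam_fine g g.2
  refine ⟨n, fun a b c t ha hb hc => ?_⟩
  obtain ⟨a', h1⟩ := hn a t.1.1 ha
  obtain ⟨b', h2⟩ := hn b t.1.2.1 hb
  obtain ⟨c', h3⟩ := hn c t.2.1.2.1 hc
  exact ⟨a', b', c', h1, h2, h3⟩

theorem ind_mul (hS : ShapeF) (hM : SemF) (hU : Univ d) {g h : Gam} {φ ψ χ : G →* G}
    (h1 : Ind d g φ) (h2 : Ind d h ψ) (h3 : Ind d (g * h : Gam) χ) : χ = φ.comp ψ := by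
  obtain ⟨n, hn⟩ := fine3 hM h
  obtain ⟨k, hk⟩ := fine3 hM (g * h)
  refine hom_ext hS hU (max n k) fun a b c t ha hb hc => ?_
  obtain ⟨a', b', c', e1, e2, e3⟩ := hn a b c t (deep_mono ha (le_max_left _ _))
    (deep_mono hb (le_max_left _ _)) (deep_mono hc (le_max_left _ _))
  obtain ⟨a'', b'', c'', f1, f2, f3⟩ := hk a b c t (deep_mono ha (le_max_right _ _))
    (deep_mono hb (le_max_right _ _)) (deep_mono hc (le_max_right _ _))
  have k : ∀ {z z' z'' : Box}, Ty z z' ∧ Car h z z' → Ty z z'' ∧ Car (g * h : Gam) z z'' →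
      Ty z' z'' ∧ Car g z' z'' := fun e f => by
    refine ⟨hS.ty_trans _ _ _ (hS.ty_symm _ _ e.1) f.1, ?_⟩
    have := hM.car_mul _ _ _ _ _ (hS.ty_symm _ _ e.1) (hM.car_inv _ _ _ e.1 e.2) f.2
    rwa [Subgroup.coe_mul, mul_inv_cancel_right] at this
  rw [MonoidHom.comp_apply, h2 _ _ _ _ _ _ t e1 e2 e3, h3 _ _ _ _ _ _ t f1 f2 f3,
    h1 _ _ _ _ _ _ (tri_car hS hM t e1 e2 e3) (k e1 f1) (k e2 f2) (k e3 f3)]

theorem ty_refl {a b : Box} (h : Ty a b) : Ty a a ∧ Ty b b :=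
  ⟨⟨h.1, h.1, rfl, rfl⟩, h.2.1, h.2.1, rfl, rfl⟩

theorem ind_one (hS : ShapeF) (hM : SemF) (hU : Univ d) {φ : G →* G}
    (h : Ind d (1 : Gam) φ) : φ = MonoidHom.id G :=
  gen_ext hS hU fun a b c t => h _ _ _ _ _ _ t ⟨(ty_refl t.1).1, (hM.car_one 0 a).1⟩
    ⟨(ty_refl t.1).2, (hM.car_one 0 b).1⟩ ⟨(ty_refl t.2.1).2, (hM.car_one 0 c).1⟩

theorem aut_ex (hS : ShapeF) (hM : SemF) (hE : Ext) (hU : Univ d) :
    ∃ α : Gam →* MulAut G, ∀ g : Gam, Ind d g (α g).toMonoidHom := by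
  choose A hA using ind_ex hS hM hE hU
  have m : ∀ g h x, A (g * h) x = A g (A h x) := fun g h x => by
    rw [ind_mul hS hM hU (hA g) (hA h) (hA (g * h))]
    rfl
  have o : ∀ x, A 1 x = x := fun x => by
    rw [ind_one hS hM hU (hA 1)]
    rfl
  refine ⟨MonoidHom.mk' (fun g => ⟨⟨A g, A g⁻¹, fun x => ?_, fun x => ?_⟩, (A g).map_mul⟩)
    fun g h => MulEquiv.ext fun x => m g h x, hA⟩
  · rw [← m, inv_mul_cancel, o]
  · rw [← m, mul_inv_cancel, o]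

theorem ind_cyc (hS : ShapeF) (hM : SemF) (hU : Univ d) {g₁ g₂ g₃ : Box} (t : Tri g₁ g₂ g₃)
    {φ : G →* G} (h : Ind d (cyc g₁ g₂ g₃) φ) : φ = (MulAut.conj (d g₁ g₂ g₃)).toMonoidHom := by
  obtain ⟨n, hn⟩ := hS.mv_ex g₁ g₂ g₃ t
  refine hom_ext hS hU n fun a b c s ha hb hc => ?_
  obtain ⟨a', h1⟩ := hn a s.1.1 ha
  obtain ⟨b', h2⟩ := hn b s.1.2.1 hb
  obtain ⟨c', h3⟩ := hn c s.2.1.2.1 hc
  have k : ∀ {z z' : Box}, z.2.length = 3 → Mv g₁ g₂ g₃ z z' →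
      Ty z z' ∧ Car (cyc g₁ g₂ g₃) z z' := fun hz hm =>
    ⟨hS.mv_ty _ _ _ _ _ t hz hm, hM.mv_car _ _ _ _ _ t hz hm⟩
  rw [h _ _ _ _ _ _ s (k s.1.1 h1) (k s.1.2.1 h2) (k s.2.1.2.1 h3)]
  exact eq_mul_inv_of_mul_eq (hU.full.conj _ _ _ _ _ _ _ _ _ t s
    (hS.mv_tri _ _ _ _ _ _ _ _ _ t s ⟨h1, h2, h3⟩) h1 h2 h3).symm

theorem ind_fk (hS : ShapeF) (hM : SemF) (g : Gam) {φ : G →* G} (h : Ind d g φ) (K : ℕ) :
    ∀ w ∈ FK d K, φ w ∈ FK d K := by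
  obtain ⟨n, hn⟩ := fine3 hM g
  refine fun w hw => (Subgroup.closure_le ((FK d K).comap φ)).2 ?_ hw
  rintro _ ⟨a, b, c, t, h0, hK, rfl⟩
  obtain ⟨a', b', c', e1, e2, e3⟩ := hn a b c t (deep_pt n _ h0)
    (deep_pt n _ (t.1.2.2.1 ▸ h0)) (deep_pt n _ (t.2.1.2.2.1 ▸ h0))
  exact Subgroup.subset_closure ⟨a', b', c', tri_car hS hM t e1 e2 e3, e1.1.2.2.1 ▸ h0,
    e1.1.2.2.2 ▸ hK, h _ _ _ _ _ _ t e1 e2 e3⟩

theorem ind_crk (hS : ShapeF) (hM : SemF) (hU : Univ d) (g : Gam) {φ : G →* G} (h : Ind d g φ)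
    (K : ℕ) [(FK d K).Normal] : ∀ a b c, Tri a b c → ∀ a' b' c', Tri a' b' c' → Ty a a' →
      CarK K g a a' → CarK K g b b' → CarK K g c c' →
      (d a' b' c' : G ⧸ FK d K) = (φ (d a b c) : G) := by
  obtain ⟨n, hn⟩ := fine3 hM g
  refine ind3 hS n _ (fun a b c t ha hb hc a' b' c' t' y ca cb cc => ?_)
    fun a b c i t hi k a' b' c' t' y ca cb cc => ?_
  · obtain ⟨yb, yc⟩ := ty3 hS t t' y
    rcases Nat.eq_zero_or_pos (ar a.2) with h0 | h0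
    · rcases lt_or_ge K (dg a.2) with hK | hK
      · rw [h _ _ _ _ _ _ t ⟨y, hM.carK_car K _ _ _ hK ca⟩
          ⟨yb, hM.carK_car K _ _ _ (t.1.2.2.2 ▸ hK) cb⟩
          ⟨yc, hM.carK_car K _ _ _ (t.2.1.2.2.2 ▸ hK) cc⟩]
      · refine QuotientGroup.eq.2 (mul_mem (inv_mem ?_) (ind_fk hS hM g h K _ ?_))
        · exact Subgroup.subset_closure ⟨a', b', c', t', y.2.2.1 ▸ h0, y.2.2.2 ▸ hK, rfl⟩
        · exact Subgroup.subset_closure ⟨a, b, c, t, h0, hK, rfl⟩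
    · obtain ⟨a'', b'', c'', e1, e2, e3⟩ := hn a b c t ha hb hc
      rw [h _ _ _ _ _ _ t e1 e2 e3,
        hM.carK_uniq K _ _ _ _ y e1.1 h0 ca (hM.car_K K _ _ _ e1.2),
        hM.carK_uniq K _ _ _ _ yb e2.1 (t.1.2.2.1 ▸ h0) cb (hM.car_K K _ _ _ e2.2),
        hM.carK_uniq K _ _ _ _ yc e3.1 (t.2.1.2.2.1 ▸ h0) cc (hM.car_K K _ _ _ e3.2)]
  · obtain ⟨yb, yc⟩ := ty3 hS t t' y
    have hi' : i < ar a'.2 := y.2.2.1 ▸ hi
    have e := fun o => k o _ _ _ (hS.tri_kd a' b' c' i o t' hi') (hS.ty_kd _ _ i i o y hi hi)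
      (hM.carK_kd K _ _ _ i o y ca) (hM.carK_kd K _ _ _ i o yb cb) (hM.carK_kd K _ _ _ i o yc cc)
    rw [hU.full.split a b c i t hi fun o => hS.tri_kd a b c i o t hi,
      hU.full.split a' b' c' i t' hi' fun o => hS.tri_kd a' b' c' i o t' hi']
    simp only [map_mul, QuotientGroup.mk_mul, e]

end Act1x

open Act1x in
theorem act1_main : SpAct1 := by
  intro hS hM hE G _ d hU
  obtain ⟨π, hπ⟩ := hU.lift _ cyc hM.cyc_sys
  obtain ⟨α, hα⟩ := aut_ex hS hM hE hU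
  have mem : ∀ w, π w ∈ Gam := fun w => by
    have := hU.gen (Gam.comap π) fun a b c t => by
      rw [Subgroup.mem_comap, hπ a b c (hS.dc_tri a b c t.1)]
      exact hM.cyc_mem a b c (hS.dc_tri a b c t.1)
    have hw : w ∈ Gam.comap π := by
      rw [this]
      exact Subgroup.mem_top w
    exact hw
  have inn : ∀ w (h : π w ∈ Gam) x, α ⟨π w, h⟩ x = w * x * w⁻¹ := fun w h x => by
    have e : α.comp (π.codRestrict Gam mem) = MulAut.conj := gen_ext hS hU fun a b c t => by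
      have k := hα ⟨π (d a b c), mem _⟩
      simp only [hπ a b c t] at k
      refine MulEquiv.toMonoidHom_injective ?_
      simp only [MonoidHom.comp_apply, MonoidHom.codRestrict_apply, hπ a b c t]
      exact ind_cyc hS hM hU t k
    exact congrArg (fun f : G →* MulAut G => f w x) e
  have fk : ∀ K (g : Gam), ∀ w ∈ FK d K, α g w ∈ FK d K := fun K g => ind_fk hS hM g (hα g) K
  refine ⟨π, α, ⟨hπ, mem, fun w a b c a' b' c' t t' y ca cb cc => ?_⟩, inn, fun g w => ?_,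
    fun K g a b c a' b' c' t t' y ca cb cc => ?_, fk⟩
  · rw [← inn w (mem w)]
    exact hα ⟨π w, mem w⟩ _ _ _ _ _ _ t ⟨y, ca⟩ ⟨(ty3 hS t t' y).1, cb⟩ ⟨(ty3 hS t t' y).2, cc⟩
  · obtain ⟨n, hn⟩ := fine3 hM g
    have e : π.comp (α g).toMonoidHom = (MulAut.conj (g : Equiv.Perm X)).toMonoidHom.comp π :=
      hom_ext hS hU n fun a b c t ha hb hc => by
        obtain ⟨a', b', c', e1, e2, e3⟩ := hn a b c t ha hb hc
        have t' := tri_car hS hM t e1 e2 e3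
        rw [MonoidHom.comp_apply, MonoidHom.comp_apply, hα g _ _ _ _ _ _ t e1 e2 e3, hπ _ _ _ t,
          hπ _ _ _ t']
        exact (hM.cyc_nat _ _ _ _ _ _ _ t t' e1.1 e1.2 e2.2 e3.2).symm
    exact congrArg (fun f : G →* Equiv.Perm X => f w) e
  · have : (FK d K).Normal := ⟨fun x hx w => by
      rw [← inn w (mem w)]
      exact fk K _ x hx⟩
    exact QuotientGroup.eq.1 (ind_crk hS hM hU g (hα g) K a b c t a' b' c' t' y ca cb cc)

end Pool.Agent.MP_89edc2_al.R3
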