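import Pool.Agent.MP_89edc2_al.R3.Spec2

/-! The group in which the normal form is computed. -/

namespace Pool.Agent.MP_89edc2_al.R3

open SemidirectProduct

namespace Act2x

theorem exB {G Γ : Type} [Group G] [Group Γ] (N : Subgroup G) [N.Normal] (α : Γ →* MulAut G)
    (h : ∀ g, ∀ w ∈ N, α g w ∈ N) : ∃ β : Γ →* MulAut (G ⧸ N),
      ∀ g w, β g (QuotientGroup.mk' N w) = QuotientGroup.mk' N (α g w) := by
  obtain ⟨m, hm⟩ : ∃ m : Γ → G ⧸ N →* G ⧸ N,
      ∀ g w, m g (QuotientGroup.mk' N w) = QuotientGroup.mk' N (α g w) :=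
    ⟨fun g => QuotientGroup.map N N (α g).toMonoidHom fun w hw => h g w hw, fun _ _ => rfl⟩
  have mul : ∀ g g' x, m g (m g' x) = m (g * g') x := fun g g' x => by
    obtain ⟨w, rfl⟩ := QuotientGroup.mk'_surjective N x
    rw [hm, hm, hm, map_mul, MulAut.mul_apply]
  have one : ∀ x, m 1 x = x := fun x => by
    obtain ⟨w, rfl⟩ := QuotientGroup.mk'_surjective N x
    rw [hm, map_one, MulAut.one_apply]
  refine ⟨MonoidHom.mk' (fun g => MonoidHom.toMulEquiv (m g) (m g⁻¹)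
    (MonoidHom.ext fun x => ?_) (MonoidHom.ext fun x => ?_))
    fun g g' => MulEquiv.ext fun x => (mul g g' x).symm, fun g w => hm g w⟩
  · show m g⁻¹ (m g x) = x
    rw [mul, inv_mul_cancel, one]
  · show m g (m g⁻¹ x) = x
    rw [mul, mul_inv_cancel, one]

theorem sys_map {G H : Type} [Group G] [Group H] {A : Box → Box → Box → Prop} {d : D3G G}
    (h : Sys A d) (ι : G →* H) : Sys A fun a b c => ι (d a b c) where
  cyc a b c t := congrArg ι (h.cyc a b c t)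
  inv a b c t := by rw [← map_mul, h.inv a b c t, map_one]
  tri a b e f t₁ t₂ t₃ := by rw [← map_mul, h.tri a b e f t₁ t₂ t₃]
  split a b c i t hi ho := by rw [← map_mul, ← map_mul, ← h.split a b c i t hi ho]
  conj g₁ g₂ g₃ a b c a' b' c' t₁ t₂ t₃ m₁ m₂ m₃ := by
    rw [← map_mul, ← map_mul, h.conj g₁ g₂ g₃ a b c a' b' c' t₁ t₂ t₃ m₁ m₂ m₃]

theorem res_pt (hs : SemF) {K : ℕ} {a b c : Box} (t : Tri a b c) (h0 : ar a.2 = 0)
    (hK : dg a.2 ≤ K) : res K (cyc a b c) = 1 := by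
  refine Equiv.ext fun x => ?_
  rw [hs.res_spec K _ (hs.cyc_mem a b c t) x]
  split_ifs with hx
  · have k : ∀ z : Box, ar a.2 = ar z.2 → dg a.2 = dg z.2 → ¬ In z x := fun z e1 e2 hz => by
      have := (hs.in_lev z x hz).2 (e1 ▸ h0)
      omega
    exact (hs.cyc_spec a b c t).2.2.2 x (k a rfl rfl) (k b t.1.2.2.1 t.1.2.2.2)
      (k c t.2.1.2.2.1 t.2.1.2.2.2)
  · rfl

end Act2x

open Act2x in
theorem act2_main : SpAct2 := by
  intro hf hs G _ d π α hU hA K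
  haveI hN : (FK d K).Normal := ⟨fun x hx w => by
    rw [← hA.inn w (hA.act.mem w)]
    exact hA.fk K _ x hx⟩
  obtain ⟨β, hβ⟩ := exB (FK d K) α (hA.fk K)
  obtain ⟨π', hπ⟩ : ∃ π' : G →* Gam, ∀ w, π' w = ⟨π w, hA.act.mem w⟩ :=
    ⟨π.codRestrict Gam hA.act.mem, fun _ => rfl⟩
  obtain ⟨r, hr⟩ : ∃ r : Gam →* Equiv.Perm X, ∀ g, r g = res K g :=
    ⟨MonoidHom.mk' (fun g => res K g) fun g h => hs.res_mul K g g.2 h h.2, fun _ => rfl⟩
  have hk : FK d K ≤ (r.comp π').ker := by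
    refine (Subgroup.closure_le _).2 ?_
    rintro _ ⟨a, b, c, t, h0, hK, rfl⟩
    show r (π' (d a b c)) = 1
    rw [hr, hπ]
    show res K (π (d a b c)) = 1
    rw [hA.act.pd a b c t, res_pt hs t h0 hK]
  obtain ⟨q, hq⟩ : ∃ q : G ⧸ FK d K →* Equiv.Perm X,
      ∀ w, q (QuotientGroup.mk' _ w) = r (π' w) :=
    ⟨QuotientGroup.lift _ (r.comp π') hk, fun _ => rfl⟩
  have hc : ∀ g, q.comp (β g).toMonoidHom = (MulAut.conj (r g)).toMonoidHom.comp q := fun g => by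
    refine MonoidHom.ext fun x => ?_
    obtain ⟨w, rfl⟩ := QuotientGroup.mk'_surjective _ x
    show q (β g _) = r g * q _ * (r g)⁻¹
    have e : π' (α g w) = g * π' w * g⁻¹ := by
      rw [hπ, hπ]
      exact Subtype.ext (hA.nat g w)
    rw [hβ, hq, hq, e, map_mul, map_mul, map_inv]
  obtain ⟨p, hp1, hp2⟩ : ∃ p : (G ⧸ FK d K) ⋊[β] Gam →* Equiv.Perm X,
      (∀ n, p (inl n) = q n) ∧ ∀ g, p (inr g) = r g :=
    ⟨lift q r hc, fun n => lift_inl q r hc n, fun g => lift_inr q r hc g⟩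
  obtain ⟨ι, hι⟩ : ∃ ι : G →* (G ⧸ FK d K) ⋊[β] Gam, ∀ w, ι w = inl (QuotientGroup.mk' _ w) :=
    ⟨inl.comp (QuotientGroup.mk' _), fun _ => rfl⟩
  have pi : ∀ w, p (ι w) = res K (π w) := fun w => by rw [hι, hp1, hq, hr, hπ]
  have eq : ∀ w w', w⁻¹ * w' ∈ FK d K → ι w = ι w' := fun w w' h => by
    rw [hι, hι]
    exact congrArg inl (QuotientGroup.eq.2 h)
  have key : ∀ u, ∃ γ : Gam, p u = r γ ∧ ∀ w, u * ι w * u⁻¹ = ι (α γ w) := fun u => by
    obtain ⟨x, hx⟩ := QuotientGroup.mk'_surjective _ u.left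
    have e : u = ι x * inr u.right := by rw [hι, hx, inl_left_mul_inr_right]
    generalize u.right = g at e
    subst e
    refine ⟨π' x * g, by rw [map_mul, map_mul, hι, hp1, hq, hp2], fun w => ?_⟩
    have e1 : ι (α g w) = inr g * ι w * (inr g)⁻¹ := by rw [hι, hι, ← hβ, inl_aut, map_inv]
    rw [map_mul α, MulAut.mul_apply, hπ, hA.inn, map_mul, map_mul, map_inv, e1]
    group
  have triv : ∀ δ : Gam, r δ = 1 → ∀ w,
      QuotientGroup.mk' (FK d K) (α δ w) = QuotientGroup.mk' (FK d K) w := fun δ hδ w => by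
    have c : ∀ a, CarK K δ a a := fun a => (hs.res_carK K δ δ.2 a a).1 (by
      rw [← hr, hδ]
      exact (hs.car_one K a).2)
    have e := hU.gen (((QuotientGroup.mk' (FK d K)).comp (α δ).toMonoidHom).eqLocus
      (QuotientGroup.mk' (FK d K))) fun a b e t => by
        have t' := hf.dc_tri a b e t.1
        exact (QuotientGroup.eq.2 (hA.crk K δ a b e a b e t' t' ⟨t'.1.1, t'.1.1, rfl, rfl⟩
          (c a) (c b) (c e))).symm
    exact (Subgroup.eq_top_iff' _).1 e w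
  refine ⟨_, inferInstance, p, inr, rightHom, ι, ⟨sys_map hU.full ι, fun a b c t => ?_,
    fun a b c t h0 hK => ?_, fun u a b c a' b' c' t t' ty ca cb cc => ?_,
    fun g => (hp2 g).trans (hr g), rightHom_inr, fun a b c _ => ?_, fun u u' w e hw => ?_,
    fun u => ?_⟩, pi, fun w hw => ?_⟩
  · rw [pi, hA.act.pd a b c t]
  · rw [← map_one ι]
    refine (eq 1 _ ?_).symm
    rw [inv_one, one_mul]
    exact Subgroup.subset_closure ⟨a, b, c, t, h0, hK, rfl⟩
  · obtain ⟨γ, h1, h2⟩ := key u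
    rw [h1, hr, hs.res_carK K γ γ.2] at ca cb cc
    rw [h2]
    exact (eq _ _ (hA.crk K γ a b c a' b' c' t t' ty ca cb cc)).symm
  · rw [hι, rightHom_inl]
  · obtain ⟨γ, h1, h2⟩ := key u
    obtain ⟨γ', h1', h2'⟩ := key u'
    obtain ⟨x, hx⟩ := QuotientGroup.mk'_surjective _ w.left
    have e1 : w = ι x := by
      have e2 : w.right = 1 := hw
      rw [hι, hx, ← inl_left_mul_inr_right w, e2, map_one, mul_one, left_inl]
    have e3 : r (γ'⁻¹ * γ) = 1 := by rw [map_mul, map_inv, ← h1, ← h1', e, inv_mul_cancel]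
    have e4 : α γ x = α γ' (α (γ'⁻¹ * γ) x) := by
      rw [← MulAut.mul_apply, ← map_mul, mul_inv_cancel_left]
    rw [e1, h2, h2', hι, hι, e4, ← hβ, triv _ e3, hβ]
  · obtain ⟨γ, h1, -⟩ := key u
    exact ⟨γ, γ.2, h1.trans (hr γ)⟩
  · rw [hι, ← map_one inl, inl_inj] at hw
    exact (QuotientGroup.eq_one_iff w).1 hw

end Pool.Agent.MP_89edc2_al.R3
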