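import Pool.Agent.MP_89edc2_al.R3.Spec2

/-!
# Groups generated by cycles on pairwise disjoint boxes
-/

namespace Pool.Agent.MP_89edc2_al.R3

namespace Altx

variable {G : Type} [Group G] {d : D3G G} {J : Set Box}

theorem pd_sub {J' : Set Box} (h : PD J) (s : J' ⊆ J) : PD J' :=
  ⟨fun a ha => h.1 a (s ha), fun a ha b hb => h.2 a (s ha) b (s hb)⟩

theorem mk_tri (h : PD J) {a b c : Box} (ha : a ∈ J) (hb : b ∈ J) (hc : c ∈ J) (t1 : Ty a b)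
    (t2 : Ty a c) (n1 : a ≠ b) (n2 : a ≠ c) (n3 : b ≠ c) : Tri a b c :=
  ⟨t1, t2, h.2 a ha b hb n1, h.2 a ha c hc n2, h.2 b hb c hc n3⟩

theorem tri_ne (F : ShapeF) {a b c : Box} (h : Tri a b c) : a ≠ b ∧ a ≠ c ∧ b ≠ c :=
  ⟨fun e => F.disj_irrefl b (e ▸ h.2.2.1), fun e => F.disj_irrefl c (e ▸ h.2.2.2.1),
    fun e => F.disj_irrefl c (e ▸ h.2.2.2.2)⟩

theorem ty2 (F : ShapeF) {y a b : Box} (h1 : Ty y a) (h2 : Ty y b) : Ty a b :=
  F.ty_trans _ _ _ (F.ty_symm _ _ h1) h2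

theorem gen_mem {a b c : Box} (ha : a ∈ J) (hb : b ∈ J) (hc : c ∈ J) (h : Tri a b c) :
    d a b c ∈ HJ d J := Subgroup.subset_closure ⟨a, ha, b, hb, c, hc, h, rfl⟩

theorem mv1 {a b c : Box} (F : ShapeF) (h : Tri a b c) : Mv a b c a b :=
  .inl (F.mo_self a b h.1.2.2.1)

theorem mv2 {a b c : Box} (F : ShapeF) (h : Tri a b c) : Mv a b c b c :=
  .inr (.inl (F.mo_self b c (h.1.2.2.1.symm.trans h.2.1.2.2.1)))

theorem mv3 {a b c : Box} (F : ShapeF) (h : Tri a b c) : Mv a b c c a :=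
  .inr (.inr (.inl (F.mo_self c a h.2.1.2.2.1.symm)))

theorem mv0 (h : PD J) {a b c x : Box} (ha : a ∈ J) (hb : b ∈ J) (hc : c ∈ J) (hx : x ∈ J)
    (n1 : x ≠ a) (n2 : x ≠ b) (n3 : x ≠ c) : Mv a b c x x :=
  .inr (.inr (.inr ⟨rfl, h.2 x hx a ha n1, h.2 x hx b hb n2, h.2 x hx c hc n3⟩))

theorem mv_ex (F : ShapeF) (h : PD J) {a b c x : Box} (ha : a ∈ J) (hb : b ∈ J) (hc : c ∈ J)
    (t : Tri a b c) (hx : x ∈ J) : ∃ x' ∈ J, Mv a b c x x' := by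
  by_cases n1 : x = a
  · exact ⟨b, hb, n1 ▸ mv1 F (n1 ▸ t)⟩
  by_cases n2 : x = b
  · exact ⟨c, hc, n2 ▸ mv2 F (n2 ▸ t)⟩
  by_cases n3 : x = c
  · exact ⟨a, ha, n3 ▸ mv3 F (n3 ▸ t)⟩
  exact ⟨x, hx, mv0 h ha hb hc hx n1 n2 n3⟩

/-- the normal form -/
def NFm (d : D3G G) (J : Set Box) (y : Box) (g : G) : Prop := g ∈ HJ d (J \ {y}) ∨
  ∃ h ∈ HJ d (J \ {y}), ∃ k ∈ J, ∃ k' ∈ J, ∃ j : ℕ, Tri y k k' ∧ g = h * d y k k' ^ j

theorem NFm.left {y : Box} {g h : G} (hh : h ∈ HJ d (J \ {y})) (hg : NFm d J y g) :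
    NFm d J y (h * g) := by
  rcases hg with hg | ⟨h', h1, k, hk, k', hk', j, t, rfl⟩
  · exact .inl (mul_mem hh hg)
  · exact .inr ⟨h * h', mul_mem hh h1, k, hk, k', hk', j, t, (mul_assoc _ _ _).symm⟩

theorem NFm.pow {y k k' : Box} (hk : k ∈ J) (hk' : k' ∈ J) (t : Tri y k k') (j : ℕ) :
    NFm d J y (d y k k' ^ j) := .inr ⟨1, one_mem _, k, hk, k', hk', j, t, (one_mul _).symm⟩

/-- the coset does not depend on the middle box -/
theorem mid (F : ShapeF) (S : Sys Tri d) (h : PD J) {y m m₁ m' : Box} (hm : m ∈ J) (h1 : m₁ ∈ J)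
    (hm' : m' ∈ J) (t : Tri y m m') (t1 : Tri y m₁ m') :
    ∃ u ∈ HJ d (J \ {y}), d y m m' = u * d y m₁ m' := by
  by_cases e : m = m₁
  · exact ⟨1, one_mem _, by rw [e, one_mul]⟩
  obtain ⟨n1, n2, n3⟩ := tri_ne F t
  obtain ⟨n4, -, n5⟩ := tri_ne F t1
  have t2 : Tri m m' m₁ :=
    mk_tri h hm hm' h1 (ty2 F t.1 t.2.1) (ty2 F t.1 t1.1) n3 e n5.symm
  exact ⟨d m m' m₁, gen_mem ⟨hm, n1.symm⟩ ⟨hm', n2.symm⟩ ⟨h1, n4.symm⟩ t2,
    (S.tri y m m' m₁ t t2 t1).symm⟩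

theorem step (F : ShapeF) (B : BasF) (S : Sys Tri d) (h : PD J) {y m m' b c : Box} (hy : y ∈ J)
    (hm : m ∈ J) (hm' : m' ∈ J) (hb : b ∈ J) (hc : c ∈ J) (t : Tri y m m') (t1 : Tri y b c) :
    NFm d J y (d y m m' * d y b c) := by
  by_cases e1 : m' = b
  · subst e1
    obtain ⟨u, hu, e⟩ := mid F S h hm hc hm' t (F.sy_tri _ _ _ t1).2
    rw [e, mul_assoc, S.inv _ _ _ t1, mul_one]
    exact .inl hu
  by_cases e2 : m' = c
  · subst e2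
    obtain ⟨u, hu, e⟩ := mid F S h hm hb hm' t t1
    rw [e, mul_assoc, ← pow_two]
    exact (NFm.pow hb hm' t1 2).left hu
  obtain ⟨n1, n2, -⟩ := tri_ne F t1
  obtain ⟨-, n3, -⟩ := tri_ne F t
  have t2 : Tri y c m' := mk_tri h hy hc hm' t1.2.1 t.2.1 n2 n3 (Ne.symm e2)
  have t3 : Tri y b m' := mk_tri h hy hb hm' t1.1 t.2.1 n1 n3 (Ne.symm e1)
  have t4 : Tri m' y c := (F.sy_tri _ _ _ (F.sy_tri _ _ _ t2).1).1
  obtain ⟨u, hu, e⟩ := mid F S h hm hc hm' t t2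
  rw [e, mul_assoc, ← S.cyc _ _ _ t4, ← B.two G Tri d S F.sy_tri y b m' c t3 t4 t1,
    ← pow_one (d y b m')]
  exact (NFm.pow hb hm' t3 1).left hu

theorem pow_mul_gen (F : ShapeF) (B : BasF) (S : Sys Tri d) (h : PD J) {y k k' b c : Box}
    (hy : y ∈ J) (hk : k ∈ J) (hk' : k' ∈ J) (hb : b ∈ J) (hc : c ∈ J) (t : Tri y k k')
    (t1 : Tri y b c) (j : ℕ) : NFm d J y (d y k k' ^ j * d y b c) := by
  obtain ⟨n1, n2, n3⟩ := tri_ne F t
  obtain ⟨n4, n5, n6⟩ := tri_ne F t1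
  have hi := B.inv' G Tri d S y k k' t
  by_cases e1 : b = k ∧ c = k'
  · rw [e1.1, e1.2, ← pow_succ]
    exact NFm.pow hk hk' t _
  by_cases e2 : b = k' ∧ c = k
  · have e : (d y k k')⁻¹ = d y k k' ^ 5 := by
      rw [inv_eq_iff_mul_eq_one, ← pow_succ', B.six G d S y k k' t]
    rw [e2.1, e2.2, hi, e, ← pow_add]
    exact NFm.pow hk hk' t _
  obtain ⟨f, hf, tf, f1, f2, f3⟩ : ∃ f ∈ J, Ty y f ∧ f ≠ y ∧ f ≠ k ∧ f ≠ k' := by
    by_cases a1 : b ≠ k ∧ b ≠ k'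
    · exact ⟨b, hb, t1.1, n4.symm, a1⟩
    refine ⟨c, hc, t1.2.1, n5.symm, fun e => ?_, fun e => ?_⟩
    · exact a1 ⟨fun e' => n6 (e'.trans e.symm), fun e' => e2 ⟨e', e⟩⟩
    · exact a1 ⟨fun e' => e1 ⟨e', e⟩, fun e' => n6 (e'.trans e.symm)⟩
  have t2 : Tri k k' f := mk_tri h hk hk' hf (ty2 F t.1 t.2.1) (ty2 F t.1 tf) n3 f2.symm f3.symm
  have z : d y k k' ^ 3 ∈ HJ d (J \ {y}) := by
    rw [B.cube G d S y k k' k k' f t t2 t.1]
    exact pow_mem (gen_mem (J := J \ {y}) ⟨hk, n1.symm⟩ ⟨hk', n2.symm⟩ ⟨hf, f1⟩ t2) 3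
  rw [← Nat.div_add_mod j 3, pow_add, pow_mul, mul_assoc]
  refine NFm.left (pow_mem z _) ?_
  have r : j % 3 = 0 ∨ j % 3 = 1 ∨ j % 3 = 2 := by omega
  rcases r with r | r | r <;> rw [r]
  · rw [pow_zero, one_mul, ← pow_one (d y b c)]
    exact NFm.pow hb hc t1 1
  · rw [pow_one]
    exact step F B S h hy hk hk' hb hc t t1
  · have e : d y k k' ^ 2 = d y k k' ^ 3 * d y k' k := by
      rw [hi, pow_succ (d y k k') 2, mul_inv_cancel_right]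
    rw [e, mul_assoc]
    exact (step F B S h hy hk' hk hb hc (F.sy_tri _ _ _ t).2 t1).left z

theorem mul_y (F : ShapeF) (B : BasF) (S : Sys Tri d) (h : PD J) {y b c : Box} {g : G}
    (hy : y ∈ J) (hb : b ∈ J) (hc : c ∈ J) (t1 : Tri y b c) (hg : NFm d J y g) :
    NFm d J y (g * d y b c) := by
  rcases hg with hg | ⟨u, hu, k, hk, k', hk', j, t, rfl⟩
  · rw [← pow_one (d y b c)]
    exact (NFm.pow hb hc t1 1).left hg
  · rw [mul_assoc]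
    exact (pow_mul_gen F B S h hy hk hk' hb hc t t1 j).left hu

theorem mul_gen (F : ShapeF) (B : BasF) (S : Sys Tri d) (h : PD J) {y a b c : Box} {g : G}
    (hy : y ∈ J) (ha : a ∈ J) (hb : b ∈ J) (hc : c ∈ J) (t1 : Tri a b c) (hg : NFm d J y g) :
    NFm d J y (g * d a b c) := by
  have r1 := (F.sy_tri _ _ _ t1).1
  have r2 := (F.sy_tri _ _ _ r1).1
  by_cases e1 : y = a
  · subst e1
    exact mul_y F B S h hy hb hc t1 hg
  by_cases e2 : y = b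
  · subst e2
    rw [S.cyc _ _ _ t1]
    exact mul_y F B S h hy hc ha r1 hg
  by_cases e3 : y = c
  · subst e3
    rw [S.cyc _ _ _ t1, S.cyc _ _ _ r1]
    exact mul_y F B S h hy ha hb r2 hg
  have hm : d a b c ∈ HJ d (J \ {y}) :=
    gen_mem ⟨ha, Ne.symm e1⟩ ⟨hb, Ne.symm e2⟩ ⟨hc, Ne.symm e3⟩ t1
  rcases hg with hg | ⟨u, hu, k, hk, k', hk', j, t, rfl⟩
  · exact .inl (mul_mem hg hm)
  have t2 := (F.sy_tri _ _ _ t1).2
  obtain ⟨k₁, h1, m1⟩ := mv_ex F h ha hc hb t2 hk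
  obtain ⟨k₂, h2, m2⟩ := mv_ex F h ha hc hb t2 hk'
  have m0 := mv0 h ha hc hb hy e1 e3 e2
  have t3 := F.mv_tri _ _ _ _ _ _ _ _ _ t2 t ⟨m0, m1, m2⟩
  have e := S.conj _ _ _ _ _ _ _ _ _ t2 t t3 m0 m1 m2
  rw [B.inv' G Tri d S a b c t1] at e
  have e' : SemiconjBy (d a b c) (d y k₁ k₂) (d y k k') := by
    have := congrArg (fun w => d a b c * w * d a b c) e
    simpa [SemiconjBy, mul_assoc] using this.symm
  rw [mul_assoc, ← (e'.pow_right j).eq]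
  exact ((NFm.pow h1 h2 t3 j).left hm).left hu

theorem nfm (F : ShapeF) (B : BasF) (S : Sys Tri d) (h : PD J) {y : Box} (hy : y ∈ J) {g : G}
    (hg : g ∈ HJ d J) : NFm d J y g := by
  induction hg using Subgroup.closure_induction_right with
  | one => exact .inl (one_mem _)
  | mul_right x _ w hw ih =>
    obtain ⟨a, ha, b, hb, c, hc, t, rfl⟩ := hw
    exact mul_gen F B S h hy ha hb hc t ih
  | mul_inv_cancel x _ w hw ih =>
    obtain ⟨a, ha, b, hb, c, hc, t, rfl⟩ := hw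
    rw [← B.inv' G Tri d S a b c t]
    exact mul_gen F B S h hy ha hc hb (F.sy_tri _ _ _ t).2 ih

theorem rem (F : ShapeF) (B : BasF) (S : Sys Tri d) (y : Box) (h : PD J) {g : G}
    (hg : g ∈ HJ d J) : ∃ g' ∈ HJ d (J \ {y}), g = g' ∨ ∃ k ∈ J, ∃ k' ∈ J, ∃ j, j < 6 ∧ y ∈ J ∧
      Tri y k k' ∧ g = g' * d y k k' ^ j := by
  by_cases hy : y ∈ J
  · rcases nfm F B S h hy hg with h1 | ⟨u, hu, k, hk, k', hk', j, t, e⟩
    · exact ⟨g, h1, .inl rfl⟩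
    · refine ⟨u, hu, .inr ⟨k, hk, k', hk', j % 6, Nat.mod_lt _ (by norm_num), hy, t, ?_⟩⟩
      rw [e, ← pow_eq_pow_mod j (B.six G d S y k k' t)]
  · exact ⟨g, by rwa [Set.sdiff_singleton_eq_self hy], .inl rfl⟩

theorem fin (F : ShapeF) (B : BasF) (S : Sys Tri d) (h : PD J) (hJ : J.Finite) :
    (HJ d J : Set G).Finite := by
  induction J, hJ using Set.Finite.induction_on with
  | empty =>
    refine (Set.finite_singleton (1 : G)).subset fun g hg => ?_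
    have e : HJ d ∅ = ⊥ := by simp [HJ]
    simpa [e] using hg
  | @insert y J hy hJ ih =>
    have h1 := ih (pd_sub h (Set.subset_insert y J))
    have h2 := hJ.insert y
    have h3 := ((h2.prod (h2.prod (Set.finite_Iio (6 : ℕ)))).image
      fun q => d y q.1 q.2.1 ^ q.2.2).insert 1
    refine (Set.Finite.image2 (· * ·) h1 h3).subset fun g hg => ?_
    obtain ⟨g', h4, h5⟩ := rem F B S y h hg
    rw [Set.insert_sdiff_self_of_notMem hy] at h4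
    rcases h5 with e | ⟨k, hk, k', hk', j, hj, -, -, e⟩
    · exact ⟨g', h4, 1, .inl rfl, by simp [e]⟩
    · exact ⟨g', h4, _, .inr ⟨(k, k', j), ⟨hk, hk', hj⟩, rfl⟩, e.symm⟩

section Stab

variable {K : ℕ} {p : G →* Equiv.Perm X}

theorem off (M : SemF) (hp : ∀ a b c, Tri a b c → p (d a b c) = res K (cyc a b c)) (h : PD J)
    {y : Box} (hy : y ∈ J) {g : G} (hg : g ∈ HJ d (J \ {y})) : Off (p g) y := by
  intro x hx
  have n : ∀ a ∈ J \ {y}, ¬ In a x := fun a ha =>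
    (M.disj_iff y a ((h.1 y hy).trans (h.1 a ha.1).symm)).1 (h.2 y hy a ha.1 (Ne.symm ha.2)) x hx
  induction hg using Subgroup.closure_induction with
  | mem w hw =>
    obtain ⟨a, ha, b, hb, c, hc, t, rfl⟩ := hw
    rw [hp a b c t, M.res_spec K _ (M.cyc_mem a b c t),
      (M.cyc_spec a b c t).2.2.2 x (n a ha) (n b hb) (n c hc), ite_self]
  | one => rw [map_one]; rfl
  | mul u v _ _ hu hv => rw [map_mul, Equiv.Perm.mul_apply, hv, hu]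
  | inv u _ hu => rw [map_inv, Equiv.Perm.inv_eq_iff_eq, hu]

theorem notoff (M : SemF) (hp : ∀ a b c, Tri a b c → p (d a b c) = res K (cyc a b c)) (h : PD J)
    {y m m' : Box} (hy : y ∈ J) (h1 : 1 ≤ ar y.2) (t : Tri y m m') {g : G}
    (hg : g ∈ HJ d (J \ {y})) : ¬ Off (p (g * d y m m')) y := by
  intro ho
  obtain ⟨x, hx, hl⟩ := M.in_high K y h1
  have e1 := ho x hx
  rw [map_mul, Equiv.Perm.mul_apply, hp y m m' t, M.res_spec K _ (M.cyc_mem y m m' t),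
    if_pos hl] at e1
  have e2 := (p g).injective (e1.trans (off M hp h hy hg x hx).symm)
  have e3 := (M.car_in _ y m x t.1 (M.cyc_spec y m m' t).1).2 hx
  rw [e2] at e3
  exact (M.disj_iff y m (t.1.1.trans t.1.2.1.symm)).1 t.2.2.1 x hx e3

theorem drop (F : ShapeF) (M : SemF) (B : BasF) (S : Sys Tri d)
    (hp : ∀ a b c, Tri a b c → p (d a b c) = res K (cyc a b c)) (h : PD J)
    (h1 : ∀ a ∈ J, 1 ≤ ar a.2) (h3 : ∀ a ∈ J, ∀ b ∈ J, ∀ c ∈ J, Tri a b c → d a b c ^ 3 = 1)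
    {y : Box} {g : G} (hg : g ∈ HJ d J) (ho : Off (p g) y) : g ∈ HJ d (J \ {y}) := by
  obtain ⟨u, hu, e | ⟨k, hk, k', hk', j, -, hy, t, e⟩⟩ := rem F B S y h hg
  · exact e ▸ hu
  have c := h3 y hy k hk k' hk' t
  rw [pow_eq_pow_mod j c] at e
  have r : j % 3 = 0 ∨ j % 3 = 1 ∨ j % 3 = 2 := by omega
  rcases r with r | r | r <;> rw [r] at e
  · rw [e, pow_zero, mul_one]
    exact hu
  · rw [e, pow_one] at ho
    exact (notoff M hp h hy (h1 y hy) t hu ho).elim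
  · have e' : d y k k' ^ 2 = d y k' k := by
      rw [B.inv' G Tri d S y k k' t, eq_inv_iff_mul_eq_one, ← pow_succ, c]
    rw [e, e'] at ho
    exact (notoff M hp h hy (h1 y hy) (F.sy_tri _ _ _ t).2 hu ho).elim

theorem stab (F : ShapeF) (M : SemF) (B : BasF) (S : Sys Tri d)
    (hp : ∀ a b c, Tri a b c → p (d a b c) = res K (cyc a b c)) (h : PD J) (hJ : J.Finite)
    (h1 : ∀ a ∈ J, 1 ≤ ar a.2) (h3 : ∀ a ∈ J, ∀ b ∈ J, ∀ c ∈ J, Tri a b c → d a b c ^ 3 = 1)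
    {g : G} (hg : g ∈ HJ d J) : g ∈ HJ d {a | a ∈ J ∧ ¬ Off (p g) a} := by
  have key : ∀ Y : Set Box, Y.Finite → (∀ y ∈ Y, Off (p g) y) → g ∈ HJ d (J \ Y) := by
    intro Y hY
    induction Y, hY using Set.Finite.induction_on with
    | empty => intro _; rwa [Set.sdiff_empty]
    | @insert y Y _ _ ih =>
      intro ho
      have h4 := drop F M B S hp (pd_sub h Set.sdiff_subset) (fun a ha => h1 a ha.1)
        (fun a ha b hb c hc => h3 a ha.1 b hb.1 c hc.1)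
        (ih fun z hz => ho z (.inr hz)) (ho y (.inl rfl))
      rwa [Set.sdiff_sdiff, Set.union_singleton] at h4
  have h5 := key {a | a ∈ J ∧ Off (p g) a} (hJ.subset fun a ha => ha.1) fun y hy => hy.2
  have e : J \ {a | a ∈ J ∧ Off (p g) a} = {a | a ∈ J ∧ ¬ Off (p g) a} := by
    ext a
    exact ⟨fun ha => ⟨ha.1, fun o => ha.2 ⟨ha.1, o⟩⟩, fun ha => ⟨ha.1, fun o => ha.2 o.2⟩⟩
  rwa [e] at h5

end Stab

/-- the hypotheses on two commuting involutions -/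
def Two (J : Set Box) (σ τ : Box → Box) : Prop :=
  ∀ a ∈ J, σ a ∈ J ∧ τ a ∈ J ∧ Ty a (σ a) ∧ Ty a (τ a) ∧ σ (σ a) = a ∧ τ (τ a) = a ∧
    σ (τ a) = τ (σ a) ∧ τ a ≠ a ∧ τ a ≠ σ a

/-- a double transposition -/
theorem quad (F : ShapeF) (M : SemF) {π : G →* Equiv.Perm X}
    (hp : ∀ a b c, Tri a b c → π (d a b c) = cyc a b c) (h : PD J) {x y z w : Box} (hx : x ∈ J)
    (hy : y ∈ J) (hz : z ∈ J) (hw : w ∈ J) (t1 : Tri x y z) (t2 : Tri y z w) (n : x ≠ w) :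
    ∃ e ∈ HJ d J, Car (π e) x y ∧ Car (π e) y x ∧ Car (π e) z w ∧ Car (π e) w z ∧
      ∀ a ∈ J, a ≠ x → a ≠ y → a ≠ z → a ≠ w → Car (π e) a a := by
  obtain ⟨n1, n2, -⟩ := tri_ne F t1
  obtain ⟨-, n3, n4⟩ := tri_ne F t2
  have k : ∀ a ∈ J, ∀ b ∈ J, ∀ c, Mv y z w a b → Mv x y z b c →
      Car (π (d x y z * d y z w)) a c := fun a ha b hb c m1 m2 => by
    rw [map_mul, hp _ _ _ t1, hp _ _ _ t2]
    exact M.car_mul _ _ a b c (F.mv_ty _ _ _ _ _ t2 (h.1 a ha) m1)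
      (M.mv_car _ _ _ _ _ t2 (h.1 a ha) m1) (M.mv_car _ _ _ _ _ t1 (h.1 b hb) m2)
  exact ⟨_, mul_mem (gen_mem hx hy hz t1) (gen_mem hy hz hw t2),
    k x hx x hx y (mv0 h hy hz hw hx n1 n2 n) (mv1 F t1), k y hy z hz x (mv1 F t2) (mv3 F t1),
    k z hz w hw w (mv2 F t2) (mv0 h hx hy hz hw n.symm n3.symm n4.symm),
    k w hw y hy z (mv3 F t2) (mv2 F t1),
    fun a ha a1 a2 a3 a4 => k a ha a ha a (mv0 h hy hz hw ha a2 a3 a4) (mv0 h hx hy hz ha a1 a2 a3)⟩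

open Classical in
theorem dbl (F : ShapeF) (M : SemF) {π : G →* Equiv.Perm X}
    (hp : ∀ a b c, Tri a b c → π (d a b c) = cyc a b c) (h : PD J) (hJ : J.Finite)
    (τ : Box → Box) (n : ℕ) : ∀ σ : Box → Box, Two J σ τ → {a | a ∈ J ∧ σ a ≠ a}.ncard = n →
    ∃ b ∈ HJ d J, ∀ a ∈ J, Car (π b) a (σ a) := by
  induction n using Nat.strong_induction_on with
  | _ n ih =>
  intro σ T hn
  by_cases h0 : ∀ a ∈ J, σ a = a
  · refine ⟨1, one_mem _, fun a ha => ?_⟩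
    rw [map_one, h0 a ha]
    exact (M.car_one 0 a).1
  obtain ⟨x, hx, n1⟩ : ∃ x ∈ J, σ x ≠ x := by simpa using h0
  obtain ⟨hy, hz, ty, tz, sx, ux, cx, n2, n3⟩ := T x hx
  obtain ⟨hw, -, tw, -, sz, -⟩ := T (τ x) hz
  have uy := (T (σ x) hy).2.2.2.2.2.1
  have n4 : τ x ≠ σ (τ x) := fun e => n1 (by rw [← uy, ← cx, ← e, ux])
  have n5 : x ≠ σ (τ x) := fun e => n3 (by rw [← sz, ← e])
  have n6 : σ x ≠ σ (τ x) := fun e => n2 (by rw [← sz, ← e, sx])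
  have t1 : Tri x (σ x) (τ x) := mk_tri h hx hy hz ty tz n1.symm n2.symm n3.symm
  have t2 : Tri (σ x) (τ x) (σ (τ x)) :=
    mk_tri h hy hz hw (ty2 F ty tz) (ty2 F ty (F.ty_trans _ _ _ tz tw)) n3.symm n6 n4
  obtain ⟨e, he, c1, c2, c3, c4, c5⟩ := quad F M hp h hx hy hz hw t1 t2 n5
  obtain ⟨Q, hQ⟩ : ∃ Q : Box → Prop, ∀ a, Q a ↔ a = x ∨ a = σ x ∨ a = τ x ∨ a = σ (τ x) :=
    ⟨_, fun _ => Iff.rfl⟩
  have qs : ∀ a, Q a → Q (σ a) := fun a ha => by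
    rcases (hQ a).1 ha with r | r | r | r <;> rw [hQ, r] <;> simp [sx, sz]
  have qt : ∀ a, Q a → Q (τ a) := fun a ha => by
    rcases (hQ a).1 ha with r | r | r | r <;> rw [hQ, r] <;> simp [ux, uy, cx]
  have T' : Two J (fun a => if Q a then a else σ a) τ := fun a ha => by
    obtain ⟨a1, a2, a3, a4, a5, a6, a7, a8, a9⟩ := T a ha
    by_cases q : Q a
    · simp only [if_pos q, if_pos (qt a q)]
      exact ⟨ha, a2, ⟨a3.1, a3.1, rfl, rfl⟩, a4, trivial, a6, trivial, a8, a8⟩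
    · have q1 : ¬ Q (σ a) := fun r => q (a5 ▸ qs _ r)
      have q2 : ¬ Q (τ a) := fun r => q (a6 ▸ qt _ r)
      simp only [if_neg q, if_neg q1, if_neg q2]
      exact ⟨a1, a2, a3, a4, a5, a6, a7, a8, a9⟩
  have qx : Q x := (hQ x).2 (.inl rfl)
  have lt : {a | a ∈ J ∧ (if Q a then a else σ a) ≠ a}.ncard < n := by
    rw [← hn]
    refine Set.ncard_lt_ncard ⟨fun a ha => ⟨ha.1, fun r => ha.2 ?_⟩, fun r => ?_⟩
      (hJ.subset fun a ha => ha.1)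
    · rw [r, ite_self]
    · exact (r (a := x) ⟨hx, n1⟩).2 (if_pos qx)
  obtain ⟨b, hb, cb⟩ := ih _ lt _ T' rfl
  refine ⟨e * b, mul_mem he hb, fun a ha => ?_⟩
  have c0 := cb a ha
  obtain ⟨a1, -, a3, -, a5, -⟩ := T a ha
  rw [map_mul]
  by_cases q : Q a
  · simp only [if_pos q] at c0
    refine M.car_mul _ _ a a _ ⟨a3.1, a3.1, rfl, rfl⟩ c0 ?_
    rcases (hQ a).1 q with r | r | r | r <;> rw [r]
    · exact c1
    · rw [sx]
      exact c2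
    · exact c3
    · rw [sz]
      exact c4
  · simp only [if_neg q] at c0
    have q1 : ¬ Q (σ a) := fun r => q (a5 ▸ qs _ r)
    rw [hQ] at q1
    push Not at q1
    exact M.car_mul _ _ a _ _ a3 c0 (c5 _ a1 q1.1 q1.2.1 q1.2.2.1 q1.2.2.2)

end Altx

theorem alt_main : SpAlt := fun F M B =>
  ⟨fun _ _ _ S _ y h _ hg => Altx.rem F B S y h hg, fun _ _ _ S _ h hJ => Altx.fin F B S h hJ,
    fun _ _ _ _ _ S hp _ h hJ h1 h3 _ hg => Altx.stab F M B S hp h hJ h1 h3 hg,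
    fun _ _ _ _ hp _ σ τ h hJ T => Altx.dbl F M hp h hJ τ _ σ T rfl⟩

end Pool.Agent.MP_89edc2_al.R3
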