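import Pool.Agent.MP_89edc2_al.R3.Spec2

/-!
# First consequences of the relations
-/

namespace Pool.Agent.MP_89edc2_al.R3

namespace Basx

variable {G : Type} [Group G] {A : Box → Box → Box → Prop} {d : D3G G}

theorem inv' (h : Sys A d) {a b c : Box} (t : A a b c) : d a c b = (d a b c)⁻¹ :=
  eq_inv_of_mul_eq_one_left (h.inv a b c t)

theorem carm (h : Sys A d) (s : Sy A) {a b e f f' : Box} (h1 : A a b e) (h2 : A b e f)
    (h3 : A a e f) (h4 : A a f f') (h5 : A b f f') (h6 : A e f f') :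
    d a b e = d e f f' * d b f' f * d a f f' * d e f' f := by
  have k := (s _ _ _ h3).2
  have k' := (s _ _ _ (s _ _ _ k).1).1
  rw [h.tri b e f f' h2 h6 (s _ _ _ h5).2, mul_assoc, h.tri e a f f' k' h4 (s _ _ _ h6).2,
    h.cyc _ _ _ k', h.tri a b e f h1 h2 k]

theorem comm (h : Sys A d) {g₁ g₂ g₃ a b c : Box} (h1 : A g₁ g₂ g₃) (h2 : A a b c)
    (ha : D3 a g₁ g₂ g₃) (hb : D3 b g₁ g₂ g₃) (hc : D3 c g₁ g₂ g₃) :
    Commute (d g₁ g₂ g₃) (d a b c) :=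
  h.conj _ _ _ _ _ _ _ _ _ h1 h2 h2 (.inr (.inr (.inr ⟨rfl, ha⟩))) (.inr (.inr (.inr ⟨rfl, hb⟩)))
    (.inr (.inr (.inr ⟨rfl, hc⟩)))

theorem kids (F : ShapeF) (h : Sys A d) {a b c : Box} {i : ℕ} (t : Tri a b c) (hi : i < ar a.2)
    (hk : ∀ o, A (kd a i o) (kd b i o) (kd c i o)) {o o' : Option Bool} (n : o ≠ o') :
    Commute (d (kd a i o) (kd b i o) (kd c i o)) (d (kd a i o') (kd b i o') (kd c i o')) := by
  have k : ∀ x y, Disj x y → Disj (kd x i o') (kd y i o) := fun x y e =>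
    F.disj_kd _ _ _ _ (F.disj_symm _ _ (F.disj_kd _ _ _ _ (F.disj_symm _ _ e)))
  obtain ⟨t1, t2, d1, d2, d3⟩ := t
  exact comm h (hk o) (hk o') ⟨F.disj_kids _ _ _ _ hi n.symm, k _ _ d1, k _ _ d2⟩
    ⟨k _ _ (F.disj_symm _ _ d1), F.disj_kids _ _ _ _ (t1.2.2.1 ▸ hi) n.symm, k _ _ d3⟩
    ⟨k _ _ (F.disj_symm _ _ d2), k _ _ (F.disj_symm _ _ d3),
      F.disj_kids _ _ _ _ (t2.2.2.1 ▸ hi) n.symm⟩

theorem three (x : Option Bool → G) (c : ∀ o o', o ≠ o' → Commute (x o) (x o'))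
    (o : Option Bool) : ∃ r : G, x none * x (some false) * x (some true) = x o * r ∧
      Commute (x o) r ∧ ∀ y, (∀ o', o' ≠ o → Commute (x o') y) → Commute r y := by
  rcases o with _ | _ | _
  · exact ⟨_, mul_assoc _ _ _, (c _ _ (by simp)).mul_right (c _ _ (by simp)),
      fun y k => (k _ (by simp)).mul_left (k _ (by simp))⟩
  · exact ⟨x none * x (some true), by rw [(c none (some false) (by simp)).eq, mul_assoc],
      (c _ _ (by simp)).mul_right (c _ _ (by simp)),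
      fun y k => (k _ (by simp)).mul_left (k _ (by simp))⟩
  · have e : Commute (x (some true)) (x none * x (some false)) :=
      (c _ _ (by simp)).mul_right (c _ _ (by simp))
    exact ⟨_, e.eq.symm, e, fun y k => (k _ (by simp)).mul_left (k _ (by simp))⟩

theorem two (F : ShapeF) (L : List (Fin 40)) (h : L.length < 39) :
    ∃ i j, i ∉ L ∧ j ∉ L ∧ i ≠ j := by
  obtain ⟨i, hi⟩ := F.fresh L (by omega)
  obtain ⟨j, hj⟩ := F.fresh (i :: L) (by simp; omega)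
  rw [List.mem_cons, not_or] at hj
  exact ⟨i, j, hi, hj.2, fun e => hj.1 e.symm⟩

theorem ty_refl {a b : Box} (h : Ty a b) : Ty a a := ⟨h.1, h.1, rfl, rfl⟩

/-- Two fresh boxes. -/
theorem fr (F : ShapeF) {a b e : Box} (t1 : Ty a b) (t2 : Ty a e) (S : List (Fin 40))
    (hS : S.length ≤ 30) : ∃ f f' : Box, f.1 ∉ S ∧ f'.1 ∉ S ∧
      ∀ z, z = a ∨ z = b ∨ z = e → Dc z f f' ∧ Ty a z := by
  obtain ⟨i, j, hi, hj, n⟩ := two F (a.1 :: b.1 :: e.1 :: S) (by simp; omega)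
  simp only [List.mem_cons, not_or] at hi hj
  refine ⟨(i, a.2), (j, a.2), hi.2.2.2, hj.2.2.2, ?_⟩
  rintro z (rfl | rfl | rfl)
  · exact ⟨⟨ty_refl t1, ty_refl t1, Ne.symm hi.1, Ne.symm hj.1, n⟩, ty_refl t1⟩
  · exact ⟨⟨F.ty_symm _ _ t1, F.ty_symm _ _ t1, Ne.symm hi.2.1, Ne.symm hj.2.1, n⟩, t1⟩
  · exact ⟨⟨F.ty_symm _ _ t2, F.ty_symm _ _ t2, Ne.symm hi.2.2.1, Ne.symm hj.2.2.1, n⟩, t2⟩

theorem slot (F : ShapeF) (h : Sys Tri d) {a b c p g : Box} (t : Tri a b c) (k1 : Dc a p g)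
    (k2 : Dc b p g) (k3 : Dc c p g) : d a b c ^ 3 = d b c p ^ 3 := by
  have t' := t
  obtain ⟨t1, t2, d1, d2, d3⟩ := t'
  have bc := F.ty_trans _ _ _ (F.ty_symm _ _ t1) t2
  have fx : ∀ x : Box, x.1 ≠ a.1 → x.1 ≠ b.1 → x.1 ≠ c.1 → Mv a b c x x := fun x e1 e2 e3 =>
    .inr (.inr (.inr ⟨rfl, .inl e1, .inl e2, .inl e3⟩))
  have fp := fx p k1.2.2.1.symm k2.2.2.1.symm k3.2.2.1.symm
  have fg := fx g k1.2.2.2.1.symm k2.2.2.2.1.symm k3.2.2.2.1.symm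
  have u1 := F.dc_tri _ _ _ k1
  have u2 := F.dc_tri _ _ _ k2
  have u3 := F.dc_tri _ _ _ k3
  have e1 : SemiconjBy (d a b c) (d a p g) (d b p g) :=
    h.conj _ _ _ _ _ _ _ _ _ t u1 u2 (.inl (F.mo_self _ _ t1.2.2.1)) fp fg
  have e2 : SemiconjBy (d a b c) (d b p g) (d c p g) :=
    h.conj _ _ _ _ _ _ _ _ _ t u2 u3 (.inr (.inl (F.mo_self _ _ bc.2.2.1))) fp fg
  have e3 : SemiconjBy (d a b c) (d c p g) (d a p g) :=
    h.conj _ _ _ _ _ _ _ _ _ t u3 u1 (.inr (.inr (.inl (F.mo_self _ _ t2.2.2.1.symm)))) fp fg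
  have e4 : SemiconjBy (d a b c * (d a b c * d a b c)) (d a p g) (d a p g) :=
    e3.mul_left (e2.mul_left e1)
  have v : Tri p b c := ⟨F.ty_symm _ _ k2.1, F.ty_symm _ _ k3.1, .inl k2.2.2.1.symm,
    .inl k3.2.2.1.symm, d3⟩
  have e5 : SemiconjBy (d a p g) (d a b c) (d p b c) :=
    h.conj _ _ _ _ _ _ _ _ _ u1 t v (.inl (F.mo_self _ _ k1.1.2.2.1))
      (.inr (.inr (.inr ⟨rfl, F.disj_symm _ _ d1, .inl k2.2.2.1, .inl k2.2.2.2.1⟩)))
      (.inr (.inr (.inr ⟨rfl, F.disj_symm _ _ d2, .inl k3.2.2.1, .inl k3.2.2.2.1⟩)))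
  rw [← pow_three] at e4
  rw [← h.cyc _ _ _ v]
  exact mul_right_cancel (e4.eq.trans (e5.pow_right 3).eq)

theorem far (F : ShapeF) (h : Sys Tri d) {a b c z : Box} (t : Tri a b c) (y : Ty a z)
    {i j k g : Fin 40} (hi : i ∉ [a.1, b.1, c.1]) (hj : j ∉ [i, a.1, b.1, c.1])
    (hk : k ∉ [j, i, a.1, b.1, c.1]) (hg : g ∉ [k, j, i, a.1, b.1, c.1]) :
    d a b c ^ 3 = d (i, z.2) (j, z.2) (k, z.2) ^ 3 := by
  simp only [List.mem_cons, not_or, List.not_mem_nil, not_false_eq_true, and_true] at hi hj hk hg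
  obtain ⟨i1, i2, i3⟩ := hi
  obtain ⟨j0, j1, j2, j3⟩ := hj
  obtain ⟨k0, k1, k2, k3, k4⟩ := hk
  obtain ⟨g0, g1, g2, g3, g4, g5⟩ := hg
  have yb := F.ty_trans _ _ _ (F.ty_symm _ _ t.1) y
  have yc := F.ty_trans _ _ _ (F.ty_symm _ _ t.2.1) y
  have yz : Ty z z := ty_refl (F.ty_symm _ _ y)
  have D : ∀ (x : Box) (n : Fin 40), Ty x z → n ≠ x.1 → g ≠ x.1 → g ≠ n →
      Dc x (n, z.2) (g, z.2) := fun x n e1 e2 e3 e4 => ⟨e1, e1, e2.symm, e3.symm, e4.symm⟩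
  have t1 : Tri b c (i, z.2) := ⟨F.ty_trans _ _ _ (F.ty_symm _ _ t.1) t.2.1, yb, t.2.2.2.2,
    .inl (Ne.symm i2), .inl (Ne.symm i3)⟩
  have t2 : Tri c (i, z.2) (j, z.2) := F.dc_tri _ _ _ ⟨yc, yc, Ne.symm i3, Ne.symm j3, Ne.symm j0⟩
  rw [slot F h t (D a i y i1 g3 g2) (D b i yb i2 g4 g2) (D c i yc i3 g5 g2),
    slot F h t1 (D b j yb j2 g4 g1) (D c j yc j3 g5 g1) (D (i, z.2) j yz j0 g2 g1),
    slot F h t2 (D c k yc k4 g5 g0) (D (i, z.2) k yz k1 g2 g0) (D (j, z.2) k yz k0 g1 g0)]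

theorem cube (F : ShapeF) (h : Sys Tri d) {a b c a' b' c' : Box} (t : Tri a b c)
    (t' : Tri a' b' c') (y : Ty a a') : d a b c ^ 3 = d a' b' c' ^ 3 := by
  obtain ⟨i, hi⟩ := F.fresh [a.1, b.1, c.1, a'.1, b'.1, c'.1] (by simp)
  obtain ⟨j, hj⟩ := F.fresh [i, a.1, b.1, c.1, a'.1, b'.1, c'.1] (by simp)
  obtain ⟨k, hk⟩ := F.fresh [j, i, a.1, b.1, c.1, a'.1, b'.1, c'.1] (by simp)
  obtain ⟨g, hg⟩ := F.fresh [k, j, i, a.1, b.1, c.1, a'.1, b'.1, c'.1] (by simp)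
  simp only [List.mem_cons, not_or, List.not_mem_nil, not_false_eq_true, and_true] at hi hj hk hg
  rw [far F h t (ty_refl y) (i := i) (j := j) (k := k) (g := g) (by simp [hi]) (by simp [hj])
      (by simp [hk]) (by simp [hg]),
    far F h t' (F.ty_symm _ _ y) (i := i) (j := j) (k := k) (g := g) (by simp [hi])
      (by simp [hj]) (by simp [hk]) (by simp [hg])]

theorem six (F : ShapeF) (h : Sys Tri d) {a b c : Box} (t : Tri a b c) : d a b c ^ 6 = 1 := by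
  have e := cube F h t (F.sy_tri _ _ _ t).2 (ty_refl t.1)
  rw [inv' h t, inv_pow, eq_inv_iff_mul_eq_one, ← pow_add] at e
  exact e

end Basx

open Basx in
theorem bas_main : SpBas := fun F =>
  { inv' := fun _ _ _ _ h _ _ _ t => inv' h t
    third := fun _ _ _ _ h s a b f f' h1 h2 h3 => by
      have k := (s _ _ _ (s _ _ _ h2).1).1
      rw [h.tri f' a b f k h1 h3, h.cyc _ _ _ k]
    two := fun _ _ _ _ h s a f e g h1 h2 h3 => by
      rw [h.cyc _ _ _ h1, h.cyc _ _ _ h3, h.tri f e a g (s _ _ _ h1).1 h2 (s _ _ _ h3).1]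
    carm := fun _ _ _ _ h s _ _ _ _ _ h1 h2 h3 h4 h5 h6 => carm h s h1 h2 h3 h4 h5 h6
    comm := fun _ _ _ _ h _ _ _ _ _ _ h1 h2 ha hb hc => comm h h1 h2 ha hb hc
    split' := fun _ _ _ d h a b c i h1 t hi hk o => by
      rw [h.split a b c i h1 hi hk]
      exact three (fun o => d (kd a i o) (kd b i o) (kd c i o))
        (fun _ _ n => kids F h t hi hk n) o
    carmL := fun _ _ l d h a b e t S hS L hL => by
      obtain ⟨f, f', n, n', k⟩ := fr F t.1.1 t.1.2.1 S hS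
      have w : ∀ z, z = a ∨ z = b ∨ z = e → Lw l z f f' := fun z hz =>
        ⟨(k z hz).1, F.ty_wt _ _ (k z hz).2 ▸ t.2⟩
      have wa := w a (.inl rfl)
      have wb := w b (.inr (.inl rfl))
      have we := w e (.inr (.inr rfl))
      have s := F.sy_lw l
      rw [carm h s t (f := f) (f' := f') ⟨⟨(s _ _ _ t).1.1.1, wb.1.1, t.1.2.2.2.2, wb.1.2.2.1,
        we.1.2.2.1⟩, wb.2⟩ ⟨⟨t.1.2.1, wa.1.1, t.1.2.2.2.1, wa.1.2.2.1, we.1.2.2.1⟩, t.2⟩ wa wb we]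
      exact L.mul_mem (L.mul_mem (L.mul_mem (hL _ _ _ (.inr (.inr rfl)) we n n')
        (hL _ _ _ (.inr (.inl rfl)) (s _ _ _ wb).2 n' n)) (hL _ _ _ (.inl rfl) wa n n'))
        (hL _ _ _ (.inr (.inr rfl)) (s _ _ _ we).2 n' n)
    carmT := fun _ _ d h a b e t S hS L hL => by
      obtain ⟨f, f', n, n', k⟩ := fr F t.1 t.2.1 S hS
      have wa := (k a (.inl rfl)).1
      have wb := (k b (.inr (.inl rfl))).1
      have we := (k e (.inr (.inr rfl))).1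
      have s := F.sy_dc
      rw [carm h F.sy_tri t (f := f) (f' := f') ⟨(F.sy_tri _ _ _ t).1.1, wb.1, t.2.2.2.2,
        .inl wb.2.2.1, .inl we.2.2.1⟩ ⟨t.2.1, wa.1, t.2.2.2.1, .inl wa.2.2.1, .inl we.2.2.1⟩
        (F.dc_tri _ _ _ wa) (F.dc_tri _ _ _ wb) (F.dc_tri _ _ _ we)]
      exact L.mul_mem (L.mul_mem (L.mul_mem (hL _ _ _ (.inr (.inr rfl)) we n n')
        (hL _ _ _ (.inr (.inl rfl)) (s _ _ _ wb).2 n' n)) (hL _ _ _ (.inl rfl) wa n n'))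
        (hL _ _ _ (.inr (.inr rfl)) (s _ _ _ we).2 n' n)
    six := fun _ _ _ h _ _ _ t => six F h t
    cube := fun _ _ _ h _ _ _ _ _ _ t t' y => cube F h t t' y
    zkid := fun _ _ d h a b c t h0 => by
      have hk := fun o => F.tri_kd a b c 0 o t h0
      have c := fun o o' (n : o ≠ o') => kids F h t h0 hk n
      have y : Ty (kd a 0 (some false)) (kd a 0 (some true)) :=
        ⟨(hk _).1.1, (hk _).1.1, (F.kid_ar1 _ _ _).trans (F.kid_ar1 _ _ _).symm,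
          (F.kid_dg1 _ _ _ h0).trans (F.kid_dg1 _ _ _ h0).symm⟩
      rw [h.split _ _ _ 0 t h0 hk, mul_assoc,
        ((c none (some false) (by simp)).mul_right (c none (some true) (by simp))).mul_pow,
        (c (some false) (some true) (by simp)).mul_pow, cube F h (hk _) (hk _) y, ← pow_add,
        six F h (hk _), mul_one] }

end Pool.Agent.MP_89edc2_al.R3
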