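import Pool.Agent.MP_89edc2_al.R3.Spec2

/-!
# Lifts of the baker maps in the top degree
-/

namespace Pool.Agent.MP_89edc2_al.R3

namespace Bh1x

variable {H : Type} [Group H] {K m : ℕ} {p : H →* Equiv.Perm X} {e : D3G H} {s : Gam →* H}
  {pr : H →* Gam} {Λ : Subgroup H}

/-- all hypotheses -/
structure Hy (K m : ℕ) (p : H →* Equiv.Perm X) (e : D3G H) (s : Gam →* H) (pr : H →* Gam)
    (Λ : Subgroup H) : Prop where
  sh : ShapeF
  sm : SemF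
  lt : m < K
  nf : NF K p e s pr
  la : Lam K p e pr Λ

/-- a reference box in the copy `c` -/
def bx (m : ℕ) (c : Fin 40) : Box :=
  (c, [(List.replicate m false, false), ([], false), ([], false)])

theorem rt_bx (m : ℕ) (c : Fin 40) : RT m (bx m c) :=
  ⟨⟨rfl, rfl⟩, rfl, by simp [bx, dg]⟩

/-- the base box for the direction `i` -/
def bs (m i : ℕ) : Box := bx m (if i = 1 then 0 else 1)

theorem rt_bs (m i : ℕ) : RT m (bs m i) := rt_bx _ _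

theorem bs_ne (m : ℕ) : bs m 1 ≠ bs m 2 := fun h => by
  have := congrArg Prod.fst h
  simp [bs, bx] at this

theorem ty {ρ σ : Box} (a : RT m ρ) (b : RT m σ) : Ty ρ σ :=
  ⟨a.1.1, b.1.1, a.2.1.trans b.2.1.symm, a.2.2.trans b.2.2.symm⟩

theorem lt3 {ρ : Box} {i : ℕ} (a : RT m ρ) (hi : i = 1 ∨ i = 2) : i < ar ρ.2 := by
  rw [a.2.1]
  omega

open Classical in
/-- the section applied to a baker map -/
noncomputable def yy (s : Gam →* H) (ρ : Box) (i : ℕ) : H :=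
  if h : bak ρ i ∈ Gam then s ⟨_, h⟩ else 1

namespace Hy

variable (h : Hy K m p e s pr Λ) {ρ ρ' σ σ' τ : Box} {i j : ℕ}

include h

theorem disj (a : RT m ρ) (b : RT m σ) (n : ρ ≠ σ) : Disj ρ σ :=
  (h.sh.ref_tri _ _ a.1 b.1 (ty a b)).resolve_left n

theorem notin (a : RT m ρ) (b : RT m σ) (n : ρ ≠ σ) {x : X} (hx : In ρ x) : ¬ In σ x :=
  (h.sm.disj_iff _ _ (a.1.1.trans b.1.1.symm)).1 (h.disj a b n) x hx

theorem mem (a : RT m ρ) (hi : i = 1 ∨ i = 2) : bak ρ i ∈ Gam :=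
  h.sm.bak_mem _ _ a.1.1 (lt3 a hi)

theorem yy_eq (a : RT m ρ) (hi : i = 1 ∨ i = 2) : yy s ρ i = s ⟨_, h.mem a hi⟩ :=
  dif_pos (h.mem a hi)

theorem p_yy (a : RT m ρ) (hi : i = 1 ∨ i = 2) : p (yy s ρ i) = res K (bak ρ i) := by
  rw [h.yy_eq a hi, h.nf.ps]

theorem on_bak (a : RT m ρ) (hi : i = 1 ∨ i = 2) : On (bak ρ i) ρ :=
  (h.sm.bak_spec _ _ a.1.1 (lt3 a hi)).2

theorem on_res (a : RT m ρ) (hi : i = 1 ∨ i = 2) : On (res K (bak ρ i)) ρ :=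
  h.sm.res_on _ _ (h.mem a hi) _ (h.on_bak a hi)

theorem on_comm (a : RT m ρ) (b : RT m σ) (n : ρ ≠ σ) {g g' : Equiv.Perm X} (hg : On g ρ)
    (hg' : On g' σ) : Commute g g' :=
  h.sm.on_comm _ _ _ hg (h.sm.on_off _ _ _ (b.1.1.trans a.1.1.symm) hg' (h.disj b a n.symm))

theorem gam_comm (a : RT m ρ) (b : RT m σ) (n : ρ ≠ σ) (hi : i = 1 ∨ i = 2)
    (hj : j = 1 ∨ j = 2) : Commute (⟨_, h.mem a hi⟩ : Gam) ⟨_, h.mem b hj⟩ :=
  Subtype.ext (h.on_comm a b n (h.on_bak a hi) (h.on_bak b hj))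

theorem yy_comm (a : RT m ρ) (b : RT m σ) (n : ρ ≠ σ) (hi : i = 1 ∨ i = 2)
    (hj : j = 1 ∨ j = 2) : Commute (yy s ρ i) (yy s σ j) := by
  rw [h.yy_eq a hi, h.yy_eq b hj]
  exact (h.gam_comm a b n hi hj).map s

theorem e0 {a x : H} {b : Box} (ha : a ∈ Λ) (h1 : Off (p a) b) (h2 : On (p x) b) :
    Commute a x :=
  h.la.e0 a ha x fun y => (em (In b y)).imp (h1 y) (h2 y)

theorem off {a : H} (c : CarK K (p a) ρ ρ) : Off (p a) ρ := by
  obtain ⟨g, hg, q⟩ := h.nf.low a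
  rw [q] at c ⊢
  exact h.sm.carK_off _ _ hg _ c

open Classical in
theorem sw (a : RT m ρ) (b : RT m σ) : ∃ x ∈ Λ, (∀ y, ¬ In ρ y → ¬ In σ y → p x y = y) ∧
    ∀ τ, RT m τ → CarK K (p x) τ (Equiv.swap ρ σ τ) := by
  rcases eq_or_ne ρ σ with rfl | n
  · refine ⟨1, Λ.one_mem, fun y _ _ => by simp, fun τ _ => ?_⟩
    rw [Equiv.swap_self, map_one]
    exact (h.sm.car_one K τ).2
  obtain ⟨x, hx, h1, h2, h3⟩ := h.la.tr ρ σ a.1 b.1 (ty a b) (h.disj a b n)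
    (by rw [a.2.2]; exact h.lt)
  refine ⟨x, hx, h3, fun τ c => ?_⟩
  rcases eq_or_ne τ ρ with rfl | n1
  · rwa [Equiv.swap_apply_left]
  rcases eq_or_ne τ σ with rfl | n2
  · rwa [Equiv.swap_apply_right]
  rw [Equiv.swap_apply_of_ne_of_ne n1 n2]
  exact fun u hu _ => h3 _ (h.notin c a n1 ⟨u, hu, rfl⟩) (h.notin c b n2 ⟨u, hu, rfl⟩)

theorem one (a : RT m ρ) (b : RT m σ) : ∃ x ∈ Λ, CarK K (p x) ρ σ := by
  classical
  obtain ⟨x, hx, -, h1⟩ := h.sw a b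
  have := h1 ρ a
  rw [Equiv.swap_apply_left] at this
  exact ⟨x, hx, this⟩

theorem cmul {x y : H} (a : RT m ρ) (b : RT m σ) (h1 : CarK K (p x) ρ σ)
    (h2 : CarK K (p y) σ τ) : CarK K (p (y * x)) ρ τ := by
  rw [map_mul]
  exact h.sm.carK_mul _ _ _ _ _ _ (ty a b) h1 h2

theorem two (a : RT m ρ) (a' : RT m ρ') (b : RT m σ) (b' : RT m σ') (n : ρ ≠ ρ') (n' : σ ≠ σ') :
    ∃ x ∈ Λ, CarK K (p x) ρ σ ∧ CarK K (p x) ρ' σ' := by
  classical
  obtain ⟨x, hx, -, h1⟩ := h.sw a b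
  have c : RT m (Equiv.swap ρ σ ρ') := by
    rw [Equiv.swap_apply_def]
    split_ifs <;> assumption
  have c' : σ ≠ Equiv.swap ρ σ ρ' := fun q => n ((Equiv.swap ρ σ).injective
    ((Equiv.swap_apply_left ρ σ).trans q))
  obtain ⟨y, hy, -, h2⟩ := h.sw c b'
  have k1 := h1 ρ a
  have k2 := h2 σ b
  have k3 := h2 _ c
  rw [Equiv.swap_apply_left] at k1 k3
  rw [Equiv.swap_apply_of_ne_of_ne c' n'] at k2
  exact ⟨y * x, Λ.mul_mem hy hx, h.cmul a b k1 k2, h.cmul a' c (h1 ρ' a') k3⟩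

theorem ex_t : ∃ t : Box → ℕ → H, ∀ ρ i, RT m ρ → i = 1 ∨ i = 2 → ∀ x ∈ Λ,
    CarK K (p x) (bs m i) ρ → x * yy s (bs m i) i * x⁻¹ = t ρ i := by
  have : ∀ ρ i, ∃ x : H, RT m ρ → x ∈ Λ ∧ CarK K (p x) (bs m i) ρ := fun ρ i => by
    by_cases a : RT m ρ
    · obtain ⟨x, h1, h2⟩ := h.one (rt_bs m i) a
      exact ⟨x, fun _ => ⟨h1, h2⟩⟩
    · exact ⟨1, fun b => (a b).elim⟩
  choose f hf using this
  refine ⟨fun ρ i => f ρ i * yy s (bs m i) i * (f ρ i)⁻¹, fun ρ i a hi x hx c => ?_⟩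
  obtain ⟨h1, h2⟩ := hf ρ i a
  have h3 : CarK K (p (f ρ i)⁻¹) ρ (bs m i) := by
    rw [map_inv]
    exact h.sm.carK_inv _ _ _ _ (ty (rt_bs m i) a) h2
  have h4 := h.e0 (Λ.mul_mem (Λ.inv_mem h1) hx) (h.off (h.cmul (rt_bs m i) a c h3))
    (x := yy s (bs m i) i) (by rw [h.p_yy (rt_bs m i) hi]; exact h.on_res (rt_bs m i) hi)
  calc x * yy s (bs m i) i * x⁻¹
      = f ρ i * ((f ρ i)⁻¹ * x * yy s (bs m i) i) * x⁻¹ := by group
    _ = _ := by rw [h4.eq]; group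

end Hy

/-- the lifts -/
structure Tt (K m : ℕ) (p : H →* Equiv.Perm X) (e : D3G H) (s : Gam →* H) (pr : H →* Gam)
    (Λ : Subgroup H) (t : Box → ℕ → H) : Prop extends Hy K m p e s pr Λ where
  df : ∀ ρ i, RT m ρ → i = 1 ∨ i = 2 → ∀ x ∈ Λ,
    CarK K (p x) (bs m i) ρ → x * yy s (bs m i) i * x⁻¹ = t ρ i

namespace Tt

variable {t : Box → ℕ → H} (h : Tt K m p e s pr Λ t) {ρ ρ' σ σ' τ : Box} {i j : ℕ}

include h

theorem pt (a : RT m ρ) (hi : i = 1 ∨ i = 2) : p (t ρ i) = res K (bak ρ i) := by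
  obtain ⟨x, hx, c⟩ := h.one (rt_bs m i) a
  obtain ⟨g, hg, q⟩ := h.nf.low x
  rw [← h.df ρ i a hi x hx c, map_mul, map_mul, map_inv, h.p_yy (rt_bs m i) hi, q]
  exact h.sm.bak_nat _ _ hg _ _ _ (ty (rt_bs m i) a) (lt3 (rt_bs m i) hi) (q ▸ c)

theorem eqv {x : H} (hx : x ∈ Λ) (a : RT m ρ) (b : RT m σ) (hi : i = 1 ∨ i = 2)
    (c : CarK K (p x) ρ σ) : x * t ρ i * x⁻¹ = t σ i := by
  obtain ⟨y, hy, d⟩ := h.one (rt_bs m i) a
  rw [← h.df ρ i a hi y hy d, ← h.df σ i b hi _ (Λ.mul_mem hx hy) (h.cmul (rt_bs m i) a d c)]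
  group

theorem prt (a : RT m ρ) (hi : i = 1 ∨ i = 2) : pr (t ρ i) = ⟨_, h.mem (rt_bs m i) hi⟩ := by
  obtain ⟨x, hx, c⟩ := h.one (rt_bs m i) a
  rw [← h.df ρ i a hi x hx c, map_mul, map_mul, map_inv, h.la.ker x hx,
    h.yy_eq (rt_bs m i) hi, h.nf.prs, one_mul, inv_one, mul_one]

theorem prc (a : RT m ρ) (b : RT m σ) (hi : i = 1 ∨ i = 2) (hj : j = 1 ∨ j = 2) :
    Commute (pr (t ρ i)) (pr (t σ j)) := by
  rw [h.prt a hi, h.prt b hj]
  rcases hi with rfl | rfl <;> rcases hj with rfl | rfl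
  · exact .refl _
  · exact h.gam_comm (rt_bs _ _) (rt_bs _ _) (bs_ne m) (.inl rfl) (.inr rfl)
  · exact h.gam_comm (rt_bs _ _) (rt_bs _ _) (bs_ne m).symm (.inr rfl) (.inl rfl)
  · exact .refl _

theorem on_t (a : RT m ρ) (hi : i = 1 ∨ i = 2) : On (p (t ρ i)) ρ := by
  rw [h.pt a hi]
  exact h.on_res a hi

theorem cross (a : RT m ρ) (b : RT m σ) (n : ρ ≠ σ) : Commute (t ρ 1) (t σ 2) := by
  obtain ⟨x, hx, c, d⟩ := h.two (rt_bs m 1) (rt_bs m 2) a b (bs_ne m) n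
  rw [← h.df ρ 1 a (.inl rfl) x hx c, ← h.df σ 2 b (.inr rfl) x hx d]
  exact (h.yy_comm (rt_bs _ _) (rt_bs _ _) (bs_ne m) (.inl rfl) (.inr rfl)).conj x

theorem z_p (a : RT m ρ) (b : RT m σ) (n : ρ ≠ σ) (hi : i = 1 ∨ i = 2) :
    p (t ρ i * t σ i * (t ρ i)⁻¹ * (t σ i)⁻¹) = 1 := by
  simp only [map_mul, map_inv]
  rw [(h.on_comm a b n (h.on_t a hi) (h.on_t b hi)).eq]
  group

theorem z_pr (a : RT m ρ) (b : RT m σ) (hi : i = 1 ∨ i = 2) :
    pr (t ρ i * t σ i * (t ρ i)⁻¹ * (t σ i)⁻¹) = 1 := by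
  simp only [map_mul, map_inv]
  rw [(h.prc a b hi hi).eq]
  group

theorem z_eq (a : RT m ρ) (a' : RT m ρ') (b : RT m σ) (b' : RT m σ') (n : ρ ≠ ρ') (n' : σ ≠ σ')
    (hi : i = 1 ∨ i = 2) : t ρ i * t ρ' i * (t ρ i)⁻¹ * (t ρ' i)⁻¹ =
      t σ i * t σ' i * (t σ i)⁻¹ * (t σ' i)⁻¹ := by
  obtain ⟨x, hx, c, d⟩ := h.two a a' b b' n n'
  have k := h.nf.cw _ 1 x ((h.z_p a a' n hi).trans p.map_one.symm) (h.la.ker x hx)
  rw [one_mul, inv_one, mul_one, mul_inv_eq_iff_eq_mul] at k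
  rw [← h.eqv hx a b hi c, ← h.eqv hx a' b' hi d, ← mul_inv_cancel_right (_ * (t ρ' i)⁻¹) x, k]
  group

theorem z_far (a : RT m ρ) (b : RT m σ) (c : RT m τ) (n1 : τ ≠ ρ) (n2 : τ ≠ σ)
    (hi : i = 1 ∨ i = 2) : Commute (t τ i) (t ρ i * t σ i * (t ρ i)⁻¹ * (t σ i)⁻¹) := by
  classical
  obtain ⟨x, hx, su, ca⟩ := h.sw a b
  have c1 := ca ρ a
  rw [Equiv.swap_apply_left] at c1
  have py : ∀ {ρ}, RT m ρ → p (t ρ i) = p (yy s ρ i) := fun a => by rw [h.pt a hi, h.p_yy a hi]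
  have e1 := h.eqv hx a b hi c1
  have e2 := h.nf.cw _ _ x⁻¹ (py a) (by rw [map_inv, h.la.ker x hx, inv_one])
  have e3 : t σ i * (t ρ i)⁻¹ = x * (yy s ρ i * x⁻¹ * (yy s ρ i)⁻¹) := by
    rw [← e2, ← e1]
    group
  have e4 := h.nf.cw _ _ (t σ i * (t ρ i)⁻¹) (py a) (by
    rw [map_mul, map_inv, h.prt a hi, h.prt b hi, mul_inv_cancel])
  have e5 : t ρ i * t σ i * (t ρ i)⁻¹ * (t σ i)⁻¹ =
      yy s ρ i * (t σ i * (t ρ i)⁻¹) * (yy s ρ i)⁻¹ * (t σ i * (t ρ i)⁻¹)⁻¹ := by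
    rw [← e4]
    group
  have k1 : Commute (yy s τ i) (yy s ρ i) := h.yy_comm c a n1 hi hi
  have k2 : Commute (yy s τ i) x := (h.la.e0 x hx _ fun y => by
    by_cases q : In τ y
    · exact .inl (su y (h.notin c a n1 q) (h.notin c b n2 q))
    · exact .inr (by rw [h.p_yy c hi]; exact h.on_res c hi y q)).symm
  have k3 : Commute (yy s τ i) (t σ i * (t ρ i)⁻¹) := by
    rw [e3]
    exact k2.mul_right ((k1.mul_right k2.inv_right).mul_right k1.inv_right)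
  have k4 : Commute (yy s τ i) (t ρ i * t σ i * (t ρ i)⁻¹ * (t σ i)⁻¹) := by
    rw [e5]
    exact ((k1.mul_right k3).mul_right k1.inv_right).mul_right k3.inv_right
  have k5 := h.nf.cw _ _ _ (py c) (h.z_pr a b hi)
  rw [k4.eq, mul_inv_cancel_right, mul_inv_eq_iff_eq_mul] at k5
  exact k5

theorem z_all (a : RT m ρ) (b : RT m σ) (c : RT m τ) (n : ρ ≠ σ) (hi : i = 1 ∨ i = 2) :
    Commute (t τ i) (t ρ i * t σ i * (t ρ i)⁻¹ * (t σ i)⁻¹) := by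
  obtain ⟨u, hu⟩ := h.sh.fresh [τ.1] (by simp)
  obtain ⟨v, hv⟩ := h.sh.fresh [τ.1, u] (by simp)
  simp only [List.mem_cons, List.not_mem_nil, or_false, not_or] at hu hv
  have n0 : bx m u ≠ bx m v := fun q => hv.2 (congrArg Prod.fst q).symm
  rw [h.z_eq a b (rt_bx m u) (rt_bx m v) n n0 hi]
  exact h.z_far (rt_bx m u) (rt_bx m v) c (fun q => hu (congrArg Prod.fst q).symm)
    (fun q => hv.1 (congrArg Prod.fst q).symm) hi

theorem single (a : RT m ρ) (b : RT m σ) (b' : RT m σ') (n : ρ ≠ σ) (n' : ρ ≠ σ')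
    (hi : i = 1 ∨ i = 2) (hj : j = 1 ∨ j = 2) : Commute (t ρ i) (t σ j * t σ' j) := by
  have same : ∀ i, i = 1 ∨ i = 2 → Commute (t ρ i) (t σ i * t σ' i) := fun i hi => by
    have e1 := h.z_eq a b b' a n n'.symm hi
    have e2 := (h.z_all a b b' n hi).eq
    have e3 := (h.z_all a b a n hi).eq
    have e4 := (h.z_all a b b n hi).eq
    generalize t ρ i = x at *
    generalize t σ i = y at *
    generalize t σ' i = y' at *
    have f1 : x * y = x * y * x⁻¹ * y⁻¹ * y * x := by group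
    have f2 : y' * x = x * y * x⁻¹ * y⁻¹ * x * y' := by
      rw [e1]
      group
    generalize x * y * x⁻¹ * y⁻¹ = z at *
    show x * (y * y') = y * y' * x
    rw [← mul_assoc, f1, mul_assoc y, f2, ← e4]
    simp only [mul_assoc]
  rcases hi with rfl | rfl <;> rcases hj with rfl | rfl
  · exact same 1 (.inl rfl)
  · exact (h.cross a b n).mul_right (h.cross a b' n')
  · exact (h.cross b a n.symm).symm.mul_right (h.cross b' a n'.symm).symm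
  · exact same 2 (.inr rfl)

end Tt

/-- elements of the kernel attached to a box -/
def Nb (p : H →* Equiv.Perm X) (pr : H →* Gam) (b : Box) (w : H) : Prop :=
  pr w = 1 ∧ On (p w) b ∧ ∀ y, Off (p y) b → Commute w y

/-- products of two lifts inside a box -/
def Pb (m : ℕ) (t : Box → ℕ → H) (b : Box) (w : H) : Prop :=
  ∃ ρ ρ' i, RT m ρ ∧ RT m ρ' ∧ (i = 1 ∨ i = 2) ∧ (∀ x, In ρ x → In b x) ∧
    (∀ x, In ρ' x → In b x) ∧ w = t ρ i * t ρ' i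

theorem on_mono {g : Equiv.Perm X} {a b : Box} (h : ∀ x, In a x → In b x) (hg : On g a) :
    On g b := fun x hx => hg x fun q => hx (h x q)

theorem Tt.on_gen {t : Box → ℕ → H} (h : Tt K m p e s pr Λ t) {b : Box} {w : H}
    (hw : Nb p pr b w ∨ Pb m t b w) : On (p w) b := by
  rcases hw with hw | ⟨ρ, ρ', i, a, a', hi, c, c', rfl⟩
  · exact hw.2.1
  · rw [map_mul]
    exact h.sm.on_mul _ _ _ (on_mono c (h.on_t a hi)) (on_mono c' (h.on_t a' hi))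

theorem Tt.gen_comm {t : Box → ℕ → H} (h : Tt K m p e s pr Λ t) {b b' : Box} {w w' : H}
    (l : b.2.length = b'.2.length) (d : Disj b b') (hw : Nb p pr b w ∨ Pb m t b w)
    (hw' : Nb p pr b' w' ∨ Pb m t b' w') : Commute w w' := by
  rcases hw with k | k
  · exact k.2.2 _ (h.sm.on_off _ _ _ l.symm (h.on_gen hw') (h.sh.disj_symm _ _ d))
  rcases hw' with k' | k'
  · exact (k'.2.2 _ (h.sm.on_off _ _ _ l (h.on_gen (.inr k)) d)).symm
  obtain ⟨ρ, ρ', i, a, a', hi, c, c', rfl⟩ := k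
  obtain ⟨σ, σ', j, f, f', hj, g, g', rfl⟩ := k'
  have n : ∀ {ρ σ : Box}, RT m ρ → (∀ x, In ρ x → In b x) → (∀ x, In σ x → In b' x) → ρ ≠ σ := by
    rintro ρ _ a c g rfl
    obtain ⟨x, hx, -⟩ := h.sm.in_high 0 ρ (by rw [a.2.1]; omega)
    exact (h.sm.disj_iff _ _ l).1 d x (c x hx) (g x hx)
  exact (h.single a f f' (n a c g) (n a c g') hi hj).mul_left
    (h.single a' f f' (n a' c' g) (n a' c' g') hi hj)

end Bh1x

open Bh1x in
theorem bh1_main : SpBh1 := by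
  intro sh sm H _ K m p e s pr Λ lt nf la
  obtain ⟨t, ht⟩ := Hy.ex_t ⟨sh, sm, lt, nf, la⟩
  have h : Tt K m p e s pr Λ t := ⟨⟨sh, sm, lt, nf, la⟩, ht⟩
  refine ⟨t, fun b => Subgroup.closure {w | Nb p pr b w ∨ Pb m t b w},
    fun _ _ => h.pt, fun _ _ _ _ hx a b hi => h.eqv hx a b hi, fun _ _ _ _ => h.prc,
    fun b b' q => Subgroup.closure_mono fun w hw => ?_, fun b b' l l' d x hx y hy => ?_,
    fun b ρ ρ' i a a' hi c c' => Subgroup.subset_closure (.inr ⟨ρ, ρ', i, a, a', hi, c, c', rfl⟩),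
    fun b a ha x oa ox => Subgroup.subset_closure (.inl ⟨?_, ?_, fun y hy => ?_⟩)⟩
  · rcases hw with ⟨h1, h2, h3⟩ | ⟨ρ, ρ', i, a, a', hi, c, c', rfl⟩
    · exact .inl ⟨h1, on_mono q h2, fun y hy => h3 y fun x hx => hy x (q x hx)⟩
    · exact .inr ⟨ρ, ρ', i, a, a', hi, fun x k => q x (c x k), fun x k => q x (c' x k), rfl⟩
  · induction hx using Subgroup.closure_induction with
    | mem x hx =>
      induction hy using Subgroup.closure_induction with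
      | mem y hy => exact h.gen_comm (l.trans l'.symm) d hx hy
      | one => exact .one_right _
      | mul _ _ _ _ a b => exact a.mul_right b
      | inv _ _ a => exact a.inv_right
    | one => exact .one_left _
    | mul _ _ _ _ a b => exact a.mul_left b
    | inv _ _ a => exact a.inv_left
  · rw [map_mul, map_mul, la.ker a ha, mul_one, map_inv, mul_inv_cancel]
  · rw [map_mul, map_mul, map_inv]
    exact sm.on_mul _ _ _ (sm.on_mul _ _ _ ox oa) (sm.on_inv _ _ ox)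
  · have k := nf.cw (y * x) (x * y) a
      (by rw [map_mul, map_mul, (sm.on_comm _ _ _ ox hy).eq]) (la.ker a ha)
    have c : Commute a y := la.e0 a ha y fun z => ((em (In b z)).imp (hy z) (oa z)).symm
    have : y * (x * a * x⁻¹) * y⁻¹ = x * a * x⁻¹ :=
      calc y * (x * a * x⁻¹) * y⁻¹ = y * x * a * (y * x)⁻¹ := by group
        _ = x * (y * a) * (x * y)⁻¹ := by rw [k, mul_assoc x]
        _ = _ := by rw [← c.eq]; group
    exact (mul_inv_eq_iff_eq_mul.1 this).symm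

end Pool.Agent.MP_89edc2_al.R3
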