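import Pool.Agent.MP_89edc2_al.R3.Spec2

/-! Lifts of the baker maps of arity three, by downward recursion on the degree. -/

namespace Pool.Agent.MP_89edc2_al.R3

namespace Bh2x

section Rec

variable {H : Type} [Group H]

/-- the recursion -/
def Bq (t : Box → ℕ → H) (q y : Box → H) : ℕ → Box → H × H
  | 0, ρ => (t ρ 1, t ρ 2)
  | k + 1, ρ =>
    ((Bq t q y k (kd ρ 0 (some false))).1 * (Bq t q y k (kd ρ 0 (some true))).1 * q ρ,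
      (Bq t q y k (kd ρ 0 (some false))).1 * (Bq t q y k (kd ρ 0 (some true))).1 * q ρ *
        ((Bq t q y k (kd ρ 0 (some false))).2 * (Bq t q y k (kd ρ 0 (some true))).2) * y ρ *
        ((Bq t q y k (kd ρ 0 (some false))).1 * (Bq t q y k (kd ρ 0 (some true))).1)⁻¹)

/-- the lifts -/
def BB (M : ℕ) (t : Box → ℕ → H) (q y : Box → H) (ρ : Box) (i : ℕ) : H :=
  if i = 1 then (Bq t q y (M + 1 - dg ρ.2) ρ).1 else (Bq t q y (M + 1 - dg ρ.2) ρ).2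

theorem ex_B (F : ShapeF) (M : ℕ) (t : Box → ℕ → H) (q y : Box → H) : ∃ B : Box → ℕ → H,
    (∀ ρ i, dg ρ.2 = M + 1 → i = 1 ∨ i = 2 → B ρ i = t ρ i) ∧
    ∀ ρ : Box, dg ρ.2 ≤ M → ar ρ.2 = 3 → B ρ 1 = C2 B ρ 1 * q ρ ∧
      B ρ 2 = B ρ 1 * C2 B ρ 2 * y ρ * (C2 B ρ 1)⁻¹ := by
  refine ⟨BB M t q y, fun ρ i h hi => ?_, fun ρ h h3 => ?_⟩
  · rcases hi with rfl | rfl <;> simp [BB, h, Bq]
  · have e : ∀ b, M + 1 - dg (kd ρ 0 (some b)).2 = M - dg ρ.2 := fun b => by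
      have := F.kid_dg1 ρ.2 0 b (by omega)
      change M + 1 - dg (kid ρ.2 0 (some b)) = _
      omega
    have e' : M + 1 - dg ρ.2 = M - dg ρ.2 + 1 := by omega
    simp [BB, C2, e, e', Bq]

end Rec

theorem kid1 (F : ShapeF) {M : ℕ} {ρ : Box} (h : RM M ρ) (h3 : ar ρ.2 = 3) (b : Bool) :
    RM (M + 1) (kd ρ 0 (some b)) ∧ ar (kd ρ 0 (some b)).2 = 3 ∧
      dg (kd ρ 0 (some b)).2 = dg ρ.2 + 1 := by
  have e : dg (kd ρ 0 (some b)).2 = dg ρ.2 + 1 := F.kid_dg1 ρ.2 0 b (by omega)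
  exact ⟨⟨F.rb_kd ρ _ h.1, by have := h.2; omega⟩, (F.kid_ar1 ρ.2 0 b).trans h3, e⟩

theorem kid0 (F : ShapeF) {ρ : Box} (h : RB ρ) (h3 : ar ρ.2 = 3) :
    (kd ρ 0 none).2.length = 3 ∧ ar (kd ρ 0 none).2 = 2 := by
  have e : ar (kd ρ 0 none).2 + 1 = ar ρ.2 := F.kid_ar0 ρ.2 0 (by omega)
  exact ⟨(F.rb_kd ρ _ h).1, by omega⟩

theorem ind (F : ShapeF) (M : ℕ) (P : Box → Prop) (h0 : ∀ ρ, RT (M + 1) ρ → P ρ)
    (h1 : ∀ ρ, RM M ρ → ar ρ.2 = 3 → (∀ b, P (kd ρ 0 (some b))) → P ρ) :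
    ∀ ρ, RM (M + 1) ρ → ar ρ.2 = 3 → P ρ := by
  have : ∀ k ρ, RB ρ → ar ρ.2 = 3 → dg ρ.2 + k = M + 1 → P ρ := by
    intro k
    induction k with
    | zero => exact fun ρ h h3 e => h0 ρ ⟨h, h3, e⟩
    | succ k ih =>
      intro ρ h h3 e
      have hm : RM M ρ := ⟨h, by omega⟩
      refine h1 ρ hm h3 fun b => ?_
      obtain ⟨a1, a2, a3⟩ := kid1 F hm h3 b
      exact ih _ a1.1 a2 (by omega)
  exact fun ρ h h3 => this (M + 1 - dg ρ.2) ρ h.1 h3 (by have := h.2; omega)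

theorem on_bak (S : SemF) (K : ℕ) {σ : Box} {i : ℕ} (h : σ.2.length = 3) (hi : i < ar σ.2) :
    On (res K (bak σ i)) σ := S.res_on K _ (S.bak_mem σ i h hi) σ (S.bak_spec σ i h hi).2

/-- the two square relations between permutations -/
theorem perm (F : ShapeF) (S : SemF) (K : ℕ) {M : ℕ} {ρ : Box} (h : RM M ρ) (h3 : ar ρ.2 = 3)
    {g : Equiv.Perm X} (hg : g ∈ Gam) (hq : IsSq K (res K g) ρ) :
    res K (bak ρ 1) = res K (bak (kd ρ 0 (some false)) 1) * res K (bak (kd ρ 0 (some true)) 1) *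
      res K g ∧
    res K (bak ρ 2) = res K (bak ρ 1) *
      (res K (bak (kd ρ 0 (some false)) 2) * res K (bak (kd ρ 0 (some true)) 2)) *
      (res K (bak (kd ρ 0 none) 1) * res K g * (res K (bak (kd ρ 0 none) 1))⁻¹) *
      (res K (bak (kd ρ 0 (some false)) 1) * res K (bak (kd ρ 0 (some true)) 1))⁻¹ := by
  obtain ⟨l0, a0⟩ := kid0 F h.1 h3
  have k1 := kid1 F h h3
  have z0 : bak (kd ρ 0 none) 0 = 1 := S.bak_zero _ (by omega)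
  have z1 : ∀ b, bak (kd ρ 0 (some b)) 0 = 1 := fun b => S.bak_zero _ (by rw [(k1 b).2.1]; omega)
  have z2 : bak ρ 0 = 1 := S.bak_zero _ (by omega)
  have r1 := S.bak_sq K g hg ρ 1 0 h.1.1 (by omega) (by omega) (by omega) hq
  have r2 := S.bak_sq K g hg ρ 1 2 h.1.1 (by omega) (by omega) (by omega) hq
  simp only [p3, adj] at r1 r2
  simp only [z0, z1, z2, S.res_one, Nat.not_lt_zero, and_false, if_false, mul_one, one_mul,
    true_and, Nat.lt_one_iff, if_true, Nat.sub_self, reduceCtorEq, false_and] at r1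
  simp only [true_and, Nat.one_lt_ofNat, if_true, reduceCtorEq, false_and, if_false,
    Nat.not_ofNat_lt_one, and_false, Nat.add_one_sub_one] at r2
  refine ⟨r1, ?_⟩
  have cm : ∀ b i, i < 3 → Commute (res K (bak (kd ρ 0 none) 1))
      (res K (bak (kd ρ 0 (some b)) i)) := fun b i hi =>
    S.on_comm _ _ _ (on_bak S K l0 (by omega)) (S.on_off _ _ _ ((k1 b).1.1.1.trans l0.symm)
      (on_bak S K (k1 b).1.1.1 (by rw [(k1 b).2.1]; exact hi))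
      (F.disj_kids ρ 0 _ _ (by omega) (by simp)))
  have iv : (res K g)⁻¹ = res K g := by
    have := S.sq_inv K _ ρ h.1.1 (by omega) hq
    rw [← S.res_inv K g hg] at this ⊢
    exact S.sq_uniq K _ (inv_mem hg) g hg ρ (by omega) this hq
  have c1 := ((cm false 1 (by omega)).mul_right (cm true 1 (by omega))).eq
  have c2 := ((cm false 2 (by omega)).mul_right (cm true 2 (by omega))).eq
  rw [mul_assoc (res K (bak (kd ρ 0 none) 1)), mul_assoc (res K (bak (kd ρ 0 none) 1)), c1,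
    c2] at r2
  generalize res K (bak (kd ρ 0 (some false)) 1) * res K (bak (kd ρ 0 (some true)) 1) = C₁ at *
  generalize res K (bak (kd ρ 0 (some false)) 2) * res K (bak (kd ρ 0 (some true)) 2) = C₂ at *
  generalize res K (bak (kd ρ 0 none) 1) = D at *
  calc res K (bak ρ 2) = res K (bak ρ 2) * (C₁ * D) * res K g * (res K g)⁻¹ * D⁻¹ * C₁⁻¹ := by
        group
    _ = _ := by rw [← r2, iv]; group

end Bh2x

open Bh2x in
theorem bh2_main : SpBh2 := by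
  intro F S H _ K M p e s pr Λ t E hK N L T
  classical
  obtain ⟨q, qm⟩ : ∃ q : Box → H, ∀ ρ, RM M ρ → ar ρ.2 = 3 → q ρ ∈ Λ ∧ IsSq K (p (q ρ)) ρ :=
    ⟨fun ρ => if h : ∃ a ∈ Λ, IsSq K (p a) ρ then h.choose else 1, fun ρ h h3 => by
      have ex := L.sq ρ h.1 (by omega) (by have := h.2; omega)
      simp only [dif_pos ex]
      exact ex.choose_spec⟩
  obtain ⟨sD, hD⟩ : ∃ sD : Box → H, ∀ ρ (h : bak (kd ρ 0 none) 1 ∈ Gam), sD ρ = s ⟨_, h⟩ :=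
    ⟨fun ρ => if h : bak (kd ρ 0 none) 1 ∈ Gam then s ⟨_, h⟩ else 1, fun ρ h => dif_pos h⟩
  have pD : ∀ ρ, RB ρ → ar ρ.2 = 3 → p (sD ρ) = res K (bak (kd ρ 0 none) 1) := fun ρ h h3 => by
    obtain ⟨l0, a0⟩ := kid0 F h h3
    rw [hD ρ (S.bak_mem _ 1 l0 (by omega)), N.ps]
  obtain ⟨B, top, rc⟩ := ex_B F M t q fun ρ => sD ρ * q ρ * (sD ρ)⁻¹
  have ty : ∀ {m ρ ρ'}, RM m ρ → ar ρ.2 = 3 → RB ρ' → Ty ρ ρ' → RM m ρ' ∧ ar ρ'.2 = 3 :=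
    fun h h3 h' y => ⟨⟨h', y.2.2.2 ▸ h.2⟩, y.2.2.1 ▸ h3⟩
  have qe : ∀ ρ ρ', ∀ a ∈ Λ, RM M ρ → ar ρ.2 = 3 → RB ρ' → Ty ρ ρ' → CarK K (p a) ρ ρ' →
      a * q ρ * a⁻¹ = q ρ' := by
    intro ρ ρ' a ha h h3 h' y c
    obtain ⟨h1, h2⟩ := ty h h3 h' y
    obtain ⟨m1, s1⟩ := qm ρ h h3
    obtain ⟨m2, s2⟩ := qm ρ' h1 h2
    obtain ⟨g, hg, eg⟩ := N.low a
    obtain ⟨u, hu, eu⟩ := N.low (q ρ)
    obtain ⟨v, hv, ev⟩ := N.low (q ρ')
    rw [eg] at c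
    rw [eu] at s1
    rw [ev] at s2
    have s3 := S.sq_nat K g hg u hu ρ ρ' y (by omega) c s1
    have e1 : res K g * res K u * (res K g)⁻¹ = res K (g * u * g⁻¹) := by
      rw [S.res_mul K _ (mul_mem hg hu) _ (inv_mem hg), S.res_mul K g hg u hu, S.res_inv K g hg]
    rw [e1] at s3
    have e2 := S.sq_uniq K _ (mul_mem (mul_mem hg hu) (inv_mem hg)) v hv ρ' (by omega) s3 s2
    refine mul_inv_eq_one.1 (L.inj _ (mul_mem (mul_mem (mul_mem ha m1) (inv_mem ha))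
      (inv_mem m2)) ?_)
    rw [map_mul, map_mul, map_mul, map_inv, map_inv, eg, eu, ev, e1, e2, mul_inv_cancel]
  have pB : ∀ ρ, RM (M + 1) ρ → ar ρ.2 = 3 → ∀ i, i = 1 ∨ i = 2 →
      p (B ρ i) = res K (bak ρ i) := by
    refine ind F M _ (fun ρ h i hi => by rw [top ρ i h.2.2 hi, T.pt ρ i h hi]) ?_
    intro ρ h h3 ih
    obtain ⟨g, hg, eg⟩ := N.low (q ρ)
    obtain ⟨r1, r2⟩ := perm F S K h h3 hg (eg ▸ (qm ρ h h3).2)
    obtain ⟨b1, b2⟩ := rc ρ h.2 h3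
    have c : ∀ i, i = 1 ∨ i = 2 → p (C2 B ρ i) =
        res K (bak (kd ρ 0 (some false)) i) * res K (bak (kd ρ 0 (some true)) i) :=
      fun i hi => by rw [C2, map_mul, ih _ i hi, ih _ i hi]
    have p1 : p (B ρ 1) = res K (bak ρ 1) := by rw [b1, map_mul, c 1 (.inl rfl), eg, r1]
    rintro i (rfl | rfl)
    · exact p1
    · rw [b2, r2]
      simp only [map_mul, map_inv, p1, c 1 (.inl rfl), c 2 (.inr rfl), eg, pD ρ h.1 h3]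
  have eqv : ∀ ρ, RM (M + 1) ρ → ar ρ.2 = 3 → ∀ ρ' i, ∀ a ∈ Λ, RB ρ' → Ty ρ ρ' →
      i = 1 ∨ i = 2 → CarK K (p a) ρ ρ' → a * B ρ i * a⁻¹ = B ρ' i := by
    refine ind F M _ (fun ρ h ρ' i a ha h' y hi c => ?_) ?_
    · have h1 : RT (M + 1) ρ' := ⟨h', y.2.2.1 ▸ h.2.1, y.2.2.2 ▸ h.2.2⟩
      rw [top ρ i h.2.2 hi, top ρ' i h1.2.2 hi]
      exact T.eqv ρ ρ' i a ha h h1 hi c
    intro ρ h h3 ih ρ' i a ha h' y hi c
    obtain ⟨h1, h2⟩ := ty h h3 h' y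
    have yk : ∀ o, Ty (kd ρ 0 o) (kd ρ' 0 o) := fun o =>
      F.ty_kd ρ ρ' 0 0 o y (by omega) (by omega)
    have cc : ∀ i, i = 1 ∨ i = 2 → a * C2 B ρ i * a⁻¹ = C2 B ρ' i := fun i hi => by
      have k := fun b => ih b _ i a ha (F.rb_kd ρ' _ h') (yk (some b)) hi
        (S.carK_kd K _ ρ ρ' 0 _ y c)
      rw [C2, C2, ← k false, ← k true]
      group
    have e1 := qe ρ ρ' a ha h h3 h' y c
    obtain ⟨b1, b2⟩ := rc ρ h.2 h3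
    obtain ⟨b1', b2'⟩ := rc ρ' h1.2 h2
    have p1 : a * B ρ 1 * a⁻¹ = B ρ' 1 := by
      rw [b1, b1', ← cc 1 (.inl rfl), ← e1]
      group
    rcases hi with rfl | rfl
    · exact p1
    have e2 : a * sD ρ * a⁻¹ * q ρ' * (a * sD ρ * a⁻¹)⁻¹ = sD ρ' * q ρ' * (sD ρ')⁻¹ := by
      refine N.cw _ _ _ ?_ (L.ker _ (qm ρ' h1 h2).1)
      obtain ⟨g, hg, eg⟩ := N.low a
      rw [map_mul, map_mul, map_inv, pD ρ h.1 h3, pD ρ' h' h2, eg]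
      exact S.bak_nat K g hg _ _ 1 (yk none) (by rw [(kid0 F h.1 h3).2]; omega)
        (eg ▸ S.carK_kd K _ ρ ρ' 0 _ y c)
    rw [b2, b2', ← p1, ← e2, ← cc 1 (.inl rfl), ← cc 2 (.inr rfl), ← e1]
    group
  obtain ⟨Z, z1, z2⟩ : ∃ Z : Subgroup Gam, (∀ ρ i, RT (M + 1) ρ → i = 1 ∨ i = 2 →
      pr (t ρ i) ∈ Z) ∧ ∀ x ∈ Z, ∀ y ∈ Z, x * y = y * x := by
    obtain ⟨G₀, hG⟩ : ∃ G₀ : Set Gam, G₀ =
      {g | ∃ ρ i, RT (M + 1) ρ ∧ (i = 1 ∨ i = 2) ∧ g = pr (t ρ i)} := ⟨_, rfl⟩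
    refine ⟨Subgroup.centralizer G₀ ⊓ Subgroup.centralizer (Subgroup.centralizer G₀ : Set Gam),
      fun ρ i h hi => ⟨?_, ?_⟩, fun x hx y hy => hy.2 x hx.1⟩
    · intro g hg
      rw [hG] at hg
      obtain ⟨ρ', j, h', hj, rfl⟩ := hg
      exact (T.prc ρ' ρ j i h' h hj hi).eq
    · exact fun g hg => (hg _ (hG ▸ ⟨ρ, i, h, hi, rfl⟩)).symm
  have kq : ∀ ρ, RM M ρ → ar ρ.2 = 3 → pr (q ρ) = 1 := fun ρ h h3 => L.ker _ (qm ρ h h3).1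
  have zB : ∀ ρ, RM (M + 1) ρ → ar ρ.2 = 3 → ∀ i, i = 1 ∨ i = 2 → pr (B ρ i) ∈ Z := by
    refine ind F M _ (fun ρ h i hi => by rw [top ρ i h.2.2 hi]; exact z1 ρ i h hi) ?_
    intro ρ h h3 ih
    obtain ⟨b1, b2⟩ := rc ρ h.2 h3
    have c : ∀ i, i = 1 ∨ i = 2 → pr (C2 B ρ i) ∈ Z := fun i hi => by
      rw [C2, map_mul]
      exact mul_mem (ih _ i hi) (ih _ i hi)
    have p1 : pr (B ρ 1) ∈ Z := by
      rw [b1, map_mul, kq ρ h h3, mul_one]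
      exact c 1 (.inl rfl)
    rintro i (rfl | rfl)
    · exact p1
    · rw [b2]
      simp only [map_mul, map_inv, kq ρ h h3, mul_one, mul_inv_cancel]
      exact mul_mem (mul_mem p1 (c 2 (.inr rfl))) (inv_mem (c 1 (.inl rfl)))
  have zC : ∀ ρ, RM M ρ → ar ρ.2 = 3 → ∀ i, i = 1 ∨ i = 2 → pr (C2 B ρ i) ∈ Z :=
    fun ρ h h3 i hi => by
      rw [C2, map_mul]
      exact mul_mem (zB _ (kid1 F h h3 _).1 (kid1 F h h3 _).2.1 i hi)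
        (zB _ (kid1 F h h3 _).1 (kid1 F h h3 _).2.1 i hi)
  have mem : ∀ ρ, RM (M + 1) ρ → ar ρ.2 = 3 → dg ρ.2 ≤ M → ∀ i, i = 1 ∨ i = 2 →
      B ρ i ∈ E ρ ∧ C2 B ρ i ∈ E ρ := by
    refine ind F M _ (fun ρ h h' => absurd h.2.2 (by omega)) ?_
    intro ρ h h3 ih _
    have k1 := kid1 F h h3
    have c : ∀ i, i = 1 ∨ i = 2 → C2 B ρ i ∈ E ρ := fun i hi => by
      by_cases hm : dg ρ.2 = M
      · have r : ∀ b, RT (M + 1) (kd ρ 0 (some b)) := fun b =>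
          ⟨(k1 b).1.1, (k1 b).2.1, by rw [(k1 b).2.2, hm]⟩
        rw [C2, top _ i (r _).2.2 hi, top _ i (r _).2.2 hi]
        exact T.pair ρ _ _ i (r _) (r _) hi (S.in_kd ρ 0 _) (S.in_kd ρ 0 _)
      · have r : ∀ b, B (kd ρ 0 (some b)) i ∈ E ρ := fun b => T.mono _ _ (S.in_kd ρ 0 _)
          (ih b (by rw [(k1 b).2.2]; have := h.2; omega) i hi).1
        exact mul_mem (r _) (r _)
    obtain ⟨m1, s1⟩ := qm ρ h h3
    obtain ⟨b1, b2⟩ := rc ρ h.2 h3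
    have q1 : q ρ ∈ E ρ := by
      simpa using T.cj ρ _ m1 1 s1.2 (fun x _ => by rw [map_one]; rfl)
    have q2 : sD ρ * q ρ * (sD ρ)⁻¹ ∈ E ρ := by
      refine T.cj ρ _ m1 _ s1.2 fun x hx => ?_
      obtain ⟨l0, a0⟩ := kid0 F h.1 h3
      rw [pD ρ h.1 h3]
      exact on_bak S K l0 (by omega) x fun hx' => hx (S.in_kd ρ 0 _ x hx')
    have p1 : B ρ 1 ∈ E ρ := b1 ▸ mul_mem (c 1 (.inl rfl)) q1
    rintro i (rfl | rfl)
    · exact ⟨p1, c 1 (.inl rfl)⟩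
    · exact ⟨b2 ▸ mul_mem (mul_mem (mul_mem p1 (c 2 (.inr rfl))) q2) (inv_mem (c 1 (.inl rfl))),
        c 2 (.inr rfl)⟩
  have up : ∀ {ρ}, RM M ρ → RM (M + 1) ρ := fun h => ⟨h.1, h.2.trans (Nat.le_succ M)⟩
  refine ⟨B, q, qm, qe, fun ρ i h h3 => pB ρ h h3 i,
    fun ρ ρ' i a ha h h3 => eqv ρ h h3 ρ' i a ha, fun ρ i h h3 hi => (mem ρ (up h) h3 h.2 i hi).1,
    fun ρ i h h3 hi => (mem ρ (up h) h3 h.2 i hi).2, fun ρ h h3 => ?_,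
    fun ρ h h3 => (rc ρ h.2 h3).1, fun ρ hb h h3 => ?_⟩
  · obtain ⟨b1, b2⟩ := rc ρ h.2 h3
    rw [b2, b1]
    simp only [map_mul, map_inv, kq ρ h h3, mul_one, mul_inv_cancel]
    rw [z2 _ (zC ρ h h3 1 (.inl rfl)) _ (zC ρ h h3 2 (.inr rfl)), mul_inv_cancel_right]
  · rw [← hD ρ hb]
    exact (rc ρ h.2 h3).2

end Pool.Agent.MP_89edc2_al.R3
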