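import Pool.Agent.MP_89edc2_al.R3.Spec2

/-!
# Lifts of the baker maps of all arities, and the squares of arity three
-/

namespace Pool.Agent.MP_89edc2_al.R3

namespace Bh3x

variable {H : Type} [Group H]

/-- the hypotheses -/
structure Cx (K M : ℕ) (p : H →* Equiv.Perm X) (e : D3G H) (s : Gam →* H) (pr : H →* Gam)
    (Λ : Subgroup H) (t : Box → ℕ → H) (E : Box → Subgroup H) (B : Box → ℕ → H) (q : Box → H) :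
    Prop where
  S : ShapeF
  m : SemF
  hK : M + 3 ≤ K
  nf : NF K p e s pr
  lam : Lam K p e pr Λ
  t1 : T1 K (M + 1) p pr Λ t E
  t2 : T2 K M p s pr Λ E B q

/-- the lift on the first child -/
def D0 (B : Box → ℕ → H) (q : Box → H) (ρ : Box) : H := B ρ 2 * q ρ * (C2 B ρ 2)⁻¹

/-- the base box of arity three -/
def bs (c : Fin 40) (n : ℕ) : Box :=
  (c, [(List.replicate n false, false), ([], false), ([], false)])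

theorem bs_rb (c : Fin 40) (n : ℕ) : RB (bs c n) := ⟨rfl, rfl⟩

theorem bs_ar (c : Fin 40) (n : ℕ) : ar (bs c n).2 = 3 := rfl

theorem bs_dg (c : Fin 40) (n : ℕ) : dg (bs c n).2 = n := by simp [bs, dg]

theorem bs_kd (c : Fin 40) (n : ℕ) :
    ar (kd (bs c n) 0 none).2 = 2 ∧ dg (kd (bs c n) 0 none).2 = n :=
  ⟨rfl, by simp [bs, dg, kd, kid, push]⟩

open Classical in
/-- the lift in arity two -/
noncomputable def Dh (K : ℕ) (p : H →* Equiv.Perm X) (Λ : Subgroup H) (B : Box → ℕ → H)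
    (q : Box → H) (σ : Box) : H :=
  if h : ∃ a ∈ Λ, CarK K (p a) (kd (bs 0 (dg σ.2)) 0 none) σ then
    h.choose * D0 B q (bs 0 (dg σ.2)) * h.choose⁻¹ else 1

/-- all lifts -/
noncomputable def BB (K : ℕ) (p : H →* Equiv.Perm X) (Λ : Subgroup H) (B : Box → ℕ → H)
    (q : Box → H) (ρ : Box) (i : ℕ) : H :=
  if i = 0 then 1 else if ar ρ.2 = 3 then B ρ i else Dh K p Λ B q ρ

variable {K M : ℕ} {p : H →* Equiv.Perm X} {e : D3G H} {s : Gam →* H} {pr : H →* Gam}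
  {Λ : Subgroup H} {t : Box → ℕ → H} {E : Box → Subgroup H} {B : Box → ℕ → H} {q : Box → H}

theorem BB0 (ρ : Box) : BB K p Λ B q ρ 0 = 1 := if_pos rfl

theorem BB3 {ρ : Box} {i : ℕ} (hi : i ≠ 0) (h : ar ρ.2 = 3) : BB K p Λ B q ρ i = B ρ i := by
  rw [BB, if_neg hi, if_pos h]

theorem BB2 {ρ : Box} (h : ar ρ.2 = 2) : BB K p Λ B q ρ 1 = Dh K p Λ B q ρ := by
  rw [BB, if_neg one_ne_zero, if_neg (by omega)]

theorem rm_succ {ρ : Box} (h : RM M ρ) : RM (M + 1) ρ := ⟨h.1, h.2.trans (Nat.le_succ M)⟩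

namespace Cx

variable (c : Cx K M p e s pr Λ t E B q)
include c

theorem cases {ρ : Box} {i : ℕ} (h : RB ρ) (hi : i < ar ρ.2) :
    i = 0 ∨ (i ≠ 0 ∧ (i = 1 ∨ i = 2) ∧ ar ρ.2 = 3) ∨ (i = 1 ∧ ar ρ.2 = 2) := by
  have := c.S.ar_le ρ.2
  rw [h.1] at this
  omega

theorem kid1 {ρ : Box} (h : RB ρ) (h3 : ar ρ.2 = 3) (b : Bool) :
    RB (kd ρ 0 (some b)) ∧ ar (kd ρ 0 (some b)).2 = 3 ∧
      dg (kd ρ 0 (some b)).2 = dg ρ.2 + 1 :=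
  ⟨c.S.rb_kd ρ _ h, (c.S.kid_ar1 ρ.2 0 b).trans h3, c.S.kid_dg1 ρ.2 0 b (by omega)⟩

theorem kid0 {ρ : Box} (h : RB ρ) (h3 : ar ρ.2 = 3) :
    RB (kd ρ 0 none) ∧ ar (kd ρ 0 none).2 = 2 ∧ dg (kd ρ 0 none).2 = dg ρ.2 := by
  have := c.S.kid_ar0 ρ.2 0 (by omega)
  exact ⟨c.S.rb_kd ρ _ h, by change ar (kid ρ.2 0 none) = 2; omega, c.S.kid_dg0 ρ.2 0⟩

theorem rm1 {ρ : Box} (h : RM M ρ) (h3 : ar ρ.2 = 3) (b : Bool) :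
    RM (M + 1) (kd ρ 0 (some b)) :=
  ⟨(c.kid1 h.1 h3 b).1, by rw [(c.kid1 h.1 h3 b).2.2]; exact Nat.succ_le_succ h.2⟩

theorem D0_mem {ρ : Box} (h : RM M ρ) (h3 : ar ρ.2 = 3) : D0 B q ρ ∈ E ρ := by
  have k := c.t1.cj ρ _ (c.t2.qm ρ h h3).1 1 (c.t2.qm ρ h h3).2.2 fun x _ => by simp
  rw [one_mul, inv_one, mul_one] at k
  exact mul_mem (mul_mem (c.t2.memB ρ 2 h h3 (.inr rfl)) k)
    (inv_mem (c.t2.memC ρ 2 h h3 (.inr rfl)))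

theorem D0_pr {ρ : Box} (h : RM M ρ) (h3 : ar ρ.2 = 3) : pr (D0 B q ρ) = 1 := by
  rw [D0, map_mul, map_mul, map_inv, c.t2.prB ρ h h3, c.lam.ker _ (c.t2.qm ρ h h3).1, mul_one,
    mul_inv_cancel]

theorem q_inv {ρ : Box} (h : RM M ρ) (h3 : ar ρ.2 = 3) : IsSq K (p (q ρ)⁻¹) ρ := by
  rw [map_inv]
  exact c.m.sq_inv K _ ρ h.1.1 (by omega) (c.t2.qm ρ h h3).2

theorem D0_p {ρ : Box} (h : RM M ρ) (h3 : ar ρ.2 = 3) :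
    p (D0 B q ρ) = res K (bak (kd ρ 0 none) 1) := by
  obtain ⟨g, hg, eg⟩ := c.nf.low (q ρ)⁻¹
  have k := c.m.bak_sq K g hg ρ 2 0 h.1.1 (by omega) (by omega) (by omega) (eg ▸ c.q_inv h h3)
  have z0 := c.m.bak_zero (kd ρ 0 none) (by rw [(c.kid0 h.1 h3).2.1]; omega)
  have z1 := fun b => c.m.bak_zero (kd ρ 0 (some b)) (by rw [(c.kid1 h.1 h3 b).2.1]; omega)
  have pb := fun b => c.t2.pB _ 2 (c.rm1 h h3 b) (c.kid1 h.1 h3 b).2.1 (.inr rfl)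
  simp only [p3, adj, z0, z1, c.m.bak_zero ρ (by omega), c.m.res_one, mul_one, one_mul,
    ← eg, ← pb, ← c.t2.pB ρ 2 (rm_succ h) h3 (.inr rfl), map_inv, reduceCtorEq, false_and,
    true_and, if_false, not_lt_zero, Nat.ofNat_pos, if_true, Nat.add_one_sub_one] at k
  rw [D0, C2, map_mul, map_mul, map_inv, map_mul, k]
  group

theorem D0_eqv {ρ ρ' : Box} {a : H} (ha : a ∈ Λ) (h : RM M ρ) (h3 : ar ρ.2 = 3) (h' : RB ρ')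
    (ty : Ty ρ ρ') (ca : CarK K (p a) ρ ρ') : a * D0 B q ρ * a⁻¹ = D0 B q ρ' := by
  have k := fun b => c.t2.eqv _ _ 2 a ha (c.rm1 h h3 b) (c.kid1 h.1 h3 b).2.1
    (c.S.rb_kd ρ' (some b) h') (c.S.ty_kd ρ ρ' 0 0 _ ty (by omega) (by omega)) (.inr rfl)
    (c.m.carK_kd K _ ρ ρ' 0 _ ty ca)
  rw [D0, D0, C2, C2, ← k, ← k, ← c.t2.qe ρ ρ' a ha h h3 h' ty ca,
    ← c.t2.eqv ρ ρ' 2 a ha (rm_succ h) h3 h' ty (.inr rfl) ca]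
  group

theorem mv {ρ ρ' : Box} (h : RM M ρ) (h' : RB ρ') (ty : Ty ρ ρ') :
    ∃ a ∈ Λ, CarK K (p a) ρ ρ' := by
  rcases c.S.ref_tri ρ ρ' h.1 h' ty with rfl | d
  · exact ⟨1, one_mem _, by rw [map_one]; exact (c.m.car_one K ρ).2⟩
  · obtain ⟨a, ha, k⟩ := c.lam.tr ρ ρ' h.1 h' ty d (by have := h.2; have := c.hK; omega)
    exact ⟨a, ha, k.1⟩

theorem bs_rm (i : Fin 40) {σ : Box} (h : RM M σ) : RM M (bs i (dg σ.2)) :=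
  ⟨bs_rb _ _, by rw [bs_dg]; exact h.2⟩

theorem bs_ty (i : Fin 40) {σ : Box} (h : RM M σ) (h2 : ar σ.2 = 2) :
    RM M (kd (bs i (dg σ.2)) 0 none) ∧ Ty (kd (bs i (dg σ.2)) 0 none) σ :=
  ⟨⟨c.S.rb_kd _ _ (bs_rb _ _), by rw [(bs_kd _ _).2]; exact h.2⟩,
    rfl, h.1.1, (bs_kd _ _).1.trans h2.symm, (bs_kd _ _).2⟩

theorem Dh_eq {σ : Box} {a : H} (ha : a ∈ Λ) (h : RM M σ) (h2 : ar σ.2 = 2)
    (ca : CarK K (p a) (kd (bs 0 (dg σ.2)) 0 none) σ) :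
    Dh K p Λ B q σ = a * D0 B q (bs 0 (dg σ.2)) * a⁻¹ := by
  have ex : ∃ a ∈ Λ, CarK K (p a) (kd (bs 0 (dg σ.2)) 0 none) σ := ⟨a, ha, ca⟩
  obtain ⟨hb, cb⟩ := ex.choose_spec
  rw [Dh, dif_pos ex]
  generalize ex.choose = b at hb cb
  have ty := (c.bs_ty 0 h h2).2
  have k := c.m.carK_mul K _ _ _ _ _ ty cb (c.m.carK_inv K _ _ _ ty ca)
  rw [← map_inv, ← map_mul] at k
  obtain ⟨g, hg, eg⟩ := c.nf.low (a⁻¹ * b)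
  have off := c.m.carK_off K g hg _ (eg ▸ k)
  have on := c.m.res_on K _ (c.m.bak_mem _ 1 ty.1 (by rw [(bs_kd _ _).1]; omega)) _
    (c.m.bak_spec _ 1 ty.1 (by rw [(bs_kd _ _).1]; omega)).2
  rw [← c.D0_p (c.bs_rm 0 h) rfl] at on
  have co := c.lam.e0 _ (mul_mem (inv_mem ha) hb) (D0 B q (bs 0 (dg σ.2))) fun y => by
    by_cases hy : In (kd (bs 0 (dg σ.2)) 0 none) y
    · exact .inl (eg ▸ off y hy)
    · exact .inr (on y hy)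
  calc b * D0 B q (bs 0 (dg σ.2)) * b⁻¹ = a * (a⁻¹ * b * D0 B q (bs 0 (dg σ.2))) * b⁻¹ := by group
    _ = _ := by rw [co.eq]; group

theorem Dh_ex {σ : Box} (h : RM M σ) (h2 : ar σ.2 = 2) :
    ∃ a ∈ Λ, CarK K (p a) (kd (bs 0 (dg σ.2)) 0 none) σ ∧
      Dh K p Λ B q σ = a * D0 B q (bs 0 (dg σ.2)) * a⁻¹ := by
  obtain ⟨a, ha, ca⟩ := c.mv (c.bs_ty 0 h h2).1 h.1 (c.bs_ty 0 h h2).2
  exact ⟨a, ha, ca, c.Dh_eq ha h h2 ca⟩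

theorem Dh_eqv {σ σ' : Box} {a : H} (ha : a ∈ Λ) (h : RM M σ) (h2 : ar σ.2 = 2) (h' : RB σ')
    (ty : Ty σ σ') (ca : CarK K (p a) σ σ') : a * Dh K p Λ B q σ * a⁻¹ = Dh K p Λ B q σ' := by
  obtain ⟨b, hb, cb, eb⟩ := c.Dh_ex h h2
  have k := c.m.carK_mul K _ _ _ _ _ (c.bs_ty 0 h h2).2 cb ca
  rw [← map_mul, ty.2.2.2] at k
  rw [c.Dh_eq (mul_mem ha hb) ⟨h', ty.2.2.2 ▸ h.2⟩ (ty.2.2.1 ▸ h2) k, eb, ty.2.2.2]
  group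

theorem Dh_kd {ρ : Box} (h : RM M ρ) (h3 : ar ρ.2 = 3) :
    Dh K p Λ B q (kd ρ 0 none) = D0 B q ρ := by
  have ty : Ty (bs 0 (dg ρ.2)) ρ := ⟨rfl, h.1.1, h3.symm, bs_dg _ _⟩
  obtain ⟨a, ha, ca⟩ := c.mv (c.bs_rm 0 h) h.1 ty
  obtain ⟨k1, k2, k3⟩ := c.kid0 h.1 h3
  rw [c.Dh_eq ha ⟨k1, k3 ▸ h.2⟩ k2 (by rw [k3]; exact c.m.carK_kd K _ _ _ 0 _ ty ca), k3]
  exact c.D0_eqv ha (c.bs_rm 0 h) rfl h.1 ty ca

theorem Dh_p {σ : Box} (h : RM M σ) (h2 : ar σ.2 = 2) :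
    p (Dh K p Λ B q σ) = res K (bak σ 1) := by
  obtain ⟨b, -, cb, eb⟩ := c.Dh_ex h h2
  obtain ⟨g, hg, eg⟩ := c.nf.low b
  rw [eb, map_mul, map_mul, map_inv, c.D0_p (c.bs_rm 0 h) rfl, eg]
  exact c.m.bak_nat K g hg _ _ 1 (c.bs_ty 0 h h2).2 (by rw [(bs_kd _ _).1]; omega) (eg ▸ cb)

theorem Dh_pr {σ : Box} (h : RM M σ) (h2 : ar σ.2 = 2) : pr (Dh K p Λ B q σ) = 1 := by
  obtain ⟨b, -, -, eb⟩ := c.Dh_ex h h2
  rw [eb, map_mul, map_mul, map_inv, c.D0_pr (c.bs_rm 0 h) rfl, mul_one, mul_inv_cancel]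

theorem BB_p {ρ : Box} {i : ℕ} (h : RM M ρ) (hi : i < ar ρ.2) :
    p (BB K p Λ B q ρ i) = res K (bak ρ i) := by
  rcases c.cases h.1 hi with rfl | ⟨h0, h1, h3⟩ | ⟨rfl, h2⟩
  · rw [BB0, map_one, c.m.bak_zero ρ hi, c.m.res_one]
  · rw [BB3 h0 h3, c.t2.pB ρ i (rm_succ h) h3 h1]
  · rw [BB2 h2, c.Dh_p h h2]

theorem BB_eqv {ρ ρ' : Box} {i : ℕ} {a : H} (ha : a ∈ Λ) (h : RM M ρ) (h' : RB ρ')
    (ty : Ty ρ ρ') (hi : i < ar ρ.2) (ca : CarK K (p a) ρ ρ') :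
    a * BB K p Λ B q ρ i * a⁻¹ = BB K p Λ B q ρ' i := by
  rcases c.cases h.1 hi with rfl | ⟨h0, h1, h3⟩ | ⟨rfl, h2⟩
  · rw [BB0, BB0, mul_one, mul_inv_cancel]
  · rw [BB3 h0 h3, BB3 h0 (ty.2.2.1 ▸ h3), c.t2.eqv ρ ρ' i a ha (rm_succ h) h3 h' ty h1 ca]
  · rw [BB2 h2, BB2 (ty.2.2.1 ▸ h2), c.Dh_eqv ha h h2 h' ty ca]

/-- a good representative in every copy -/
theorem rep {ρ : Box} {i : ℕ} (h : RM M ρ) (hi : i < ar ρ.2) (k : Fin 40) :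
    ∃ ρ' β : Box, RM M ρ' ∧ Ty ρ ρ' ∧ ρ'.1 = k ∧ β.1 = k ∧ β.2.length = 3 ∧
      BB K p Λ B q ρ' i ∈ E β := by
  rcases c.cases h.1 hi with rfl | ⟨h0, h1, h3⟩ | ⟨rfl, h2⟩
  · exact ⟨(k, ρ.2), (k, ρ.2), h, ⟨h.1.1, h.1.1, rfl, rfl⟩, rfl, rfl, h.1.1,
      by rw [BB0]; exact one_mem _⟩
  · exact ⟨(k, ρ.2), (k, ρ.2), h, ⟨h.1.1, h.1.1, rfl, rfl⟩, rfl, rfl, h.1.1,
      by rw [BB3 (ρ := (k, ρ.2)) h0 h3]; exact c.t2.memB (k, ρ.2) i h h3 h1⟩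
  · refine ⟨_, bs k (dg ρ.2), (c.bs_ty k h h2).1, c.S.ty_symm _ _ (c.bs_ty k h h2).2, rfl, rfl,
      rfl, ?_⟩
    rw [BB2 (bs_kd _ _).1, c.Dh_kd (c.bs_rm k h) rfl]
    exact c.D0_mem (c.bs_rm k h) rfl

theorem step {ρ ρ' τ : Box} {i j : ℕ} (h : RM M ρ) (h' : RM M ρ') (hi : i < ar ρ.2)
    (hj : j < ar ρ'.2) (d : Disj ρ ρ') (hτ : RB τ) (ty : Ty ρ τ) (d1 : Disj ρ τ)
    (d2 : Disj ρ' τ) (co : Commute (BB K p Λ B q τ i) (BB K p Λ B q ρ' j)) :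
    Commute (BB K p Λ B q ρ i) (BB K p Λ B q ρ' j) := by
  obtain ⟨a, ha, k⟩ := c.lam.tr ρ τ h.1 hτ ty d1 (by have := h.2; have := c.hK; omega)
  have off : Off (p a) ρ' := fun x hx => k.2.2 x
    ((c.m.disj_iff ρ' ρ (h'.1.1.trans h.1.1.symm)).1 (c.S.disj_symm _ _ d) x hx)
    ((c.m.disj_iff ρ' τ (h'.1.1.trans hτ.1.symm)).1 d2 x hx)
  rw [← c.BB_eqv ha h hτ ty hi k.1, ← c.BB_eqv ha h' h'.1 ⟨h'.1.1, h'.1.1, rfl, rfl⟩ hj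
    (c.m.car_K K _ _ _ ((c.m.off_car _ _).1 off))] at co
  exact (Commute.conj_iff a).1 co

theorem BB_comm {ρ ρ' : Box} {i j : ℕ} (h : RM M ρ) (h' : RM M ρ') (hi : i < ar ρ.2)
    (hj : j < ar ρ'.2) (d : Disj ρ ρ') :
    Commute (BB K p Λ B q ρ i) (BB K p Λ B q ρ' j) := by
  obtain ⟨k, hk⟩ := c.S.fresh [ρ.1, ρ'.1] (by simp)
  obtain ⟨k', hk'⟩ := c.S.fresh [k, ρ'.1] (by simp)
  simp only [List.mem_cons, List.not_mem_nil, or_false, not_or] at hk hk'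
  obtain ⟨τ, β, a1, a2, a3, a4, a5, a6⟩ := c.rep h hi k
  obtain ⟨τ', β', b1, b2, b3, b4, b5, b6⟩ := c.rep h' hj k'
  refine c.step h h' hi hj d a1.1 a2 (.inl (a3 ▸ Ne.symm hk.1)) (.inl (a3 ▸ Ne.symm hk.2)) ?_
  refine (c.step h' a1 hj (a2.2.2.1 ▸ hi) (.inl (a3 ▸ Ne.symm hk.2)) b1.1 b2
    (.inl (b3 ▸ Ne.symm hk'.2)) (.inl (by rw [a3, b3]; exact Ne.symm hk'.1)) ?_).symm
  exact c.t1.comm β' β b5 a5 (.inl (by rw [a4, b4]; exact hk'.1)) _ b6 _ a6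

theorem sq_symm {ρ : Box} {i j : ℕ} (h : RB ρ) (h3 : ar ρ.2 = 3)
    (k : Sq K p Λ (BB K p Λ B q) ρ i j 1) : Sq K p Λ (BB K p Λ B q) ρ j i 1 := by
  obtain ⟨a, ha, k1, k2⟩ := k
  refine ⟨a⁻¹, inv_mem ha, by rw [map_inv]; exact c.m.sq_inv K _ ρ h.1 (by omega) k1, ?_⟩
  rw [k2]
  group

theorem sq3 : Sq3 K M p Λ (BB K p Λ B q) := by
  intro ρ i j h h3 hd hi hj hij
  have hr : RM M ρ := ⟨h, hd.le⟩
  have e1 : ∀ b, BB K p Λ B q (kd ρ 0 (some b)) 1 = B (kd ρ 0 (some b)) 1 :=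
    fun b => BB3 one_ne_zero (c.kid1 h h3 b).2.1
  have e2 : ∀ b, BB K p Λ B q (kd ρ 0 (some b)) 2 = B (kd ρ 0 (some b)) 2 :=
    fun b => BB3 two_ne_zero (c.kid1 h h3 b).2.1
  have e0 : BB K p Λ B q (kd ρ 0 none) 1 = D0 B q ρ := by
    rw [BB2 (c.kid0 h h3).2.1, c.Dh_kd hr h3]
  have f1 : BB K p Λ B q ρ 1 = B ρ 1 := BB3 one_ne_zero h3
  have f2 : BB K p Λ B q ρ 2 = B ρ 2 := BB3 two_ne_zero h3
  have qm := c.t2.qm ρ hr h3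
  have co : ∀ b k, k < 3 → Commute (D0 B q ρ) (BB K p Λ B q (kd ρ 0 (some b)) k) := by
    intro b k hk
    obtain ⟨k1, k2, k3⟩ := c.kid0 h h3
    obtain ⟨l1, l2, l3⟩ := c.kid1 h h3 b
    rw [← e0]
    exact c.BB_comm ⟨k1, by omega⟩ ⟨l1, by omega⟩ (by omega) (by omega)
      (c.S.disj_kids ρ 0 _ _ (by omega) (by simp))
  have c1 : Commute (D0 B q ρ) (C2 B ρ 1) := by
    rw [C2, ← e1, ← e1]; exact (co _ 1 (by omega)).mul_right (co _ 1 (by omega))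
  have c2 : Commute (D0 B q ρ) (C2 B ρ 2) := by
    rw [C2, ← e2, ← e2]; exact (co _ 2 (by omega)).mul_right (co _ 2 (by omega))
  have s10 : Sq K p Λ (BB K p Λ B q) ρ 1 0 1 := by
    refine ⟨q ρ, qm.1, qm.2, ?_⟩
    simp [p3, adj, BB0, e1, f1, c.t2.b1 ρ hr h3, C2]
  have s20 : Sq K p Λ (BB K p Λ B q) ρ 2 0 1 := by
    refine ⟨(q ρ)⁻¹, inv_mem qm.1, c.q_inv hr h3, ?_⟩
    simp [p3, adj, BB0, e0, e2, f2, D0, C2, mul_assoc]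
  have s12 : Sq K p Λ (BB K p Λ B q) ρ 1 2 1 := by
    refine ⟨(q ρ)⁻¹, inv_mem qm.1, c.q_inv hr h3, ?_⟩
    have hg := c.m.bak_mem (kd ρ 0 none) 1 (c.kid0 h h3).1.1 (by rw [(c.kid0 h h3).2.1]; omega)
    have w := c.nf.cw (s ⟨_, hg⟩) (D0 B q ρ) (q ρ) ((c.nf.ps _).trans (c.D0_p hr h3).symm)
      (c.lam.ker _ qm.1)
    have b2 := c.t2.b2 ρ hg hr h3
    rw [w] at b2
    have g1 : p3 (fun o => BB K p Λ B q (kd ρ 0 o) (adj 1 o 2)) = C2 B ρ 2 * D0 B q ρ := by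
      rw [← c2.eq]
      simp [p3, adj, e0, e2, C2, mul_assoc]
    have g2 : p3 (fun o => BB K p Λ B q (kd ρ 0 o) (adj 2 o 1)) = C2 B ρ 1 * D0 B q ρ := by
      rw [← c1.eq]
      simp [p3, adj, e0, e1, C2, mul_assoc]
    rw [g1, g2, f1, f2]
    generalize D0 B q ρ = D at b2
    rw [b2]
    group
  obtain rfl | rfl | rfl : i = 0 ∨ i = 1 ∨ i = 2 := by omega
  all_goals obtain rfl | rfl | rfl : j = 0 ∨ j = 1 ∨ j = 2 := by omega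
  · exact absurd rfl hij
  · exact c.sq_symm h h3 s10
  · exact c.sq_symm h h3 s20
  · exact s10
  · exact absurd rfl hij
  · exact s12
  · exact s20
  · exact c.sq_symm h h3 s12
  · exact absurd rfl hij

end Cx

end Bh3x

open Bh3x in
theorem bh3_main : SpBh3 := by
  intro hS hM H _ K M p e s pr Λ t E B q hK nf lam t1 t2
  have c : Cx K M p e s pr Λ t E B q := ⟨hS, hM, hK, nf, lam, t1, t2⟩
  refine ⟨BB K p Λ B q, ⟨BB0, fun ρ i h hi => c.BB_p h hi,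
    fun ρ ρ' i a ha h h' ty hi ca => c.BB_eqv ha h h' ty hi ca,
    fun ρ ρ' i j h h' hi hj d => c.BB_comm h h' hi hj d⟩, c.sq3, fun σ h h2 => ?_⟩
  rw [BB2 h2, c.Dh_pr h h2]

end Pool.Agent.MP_89edc2_al.R3
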