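import Pool.Agent.MP_89edc2_al.R3.Spec2

/-!
# Counting step: slow generating sets give small balls
-/

namespace Pool.Agent.MP_89edc2_al.R3

open scoped commutatorElement Pointwise
open Filter Topology

namespace Cntx

theorem exists_k (A : ℕ) : ∃ k : ℕ, 1 ≤ k ∧ A * (k + 1) ^ 3 + 1 < 2 ^ k := by
  have hε : (0 : ℝ) < 1 / (2 * (A + 1)) := by positivity
  have h := (tendsto_pow_const_div_const_pow_of_one_lt 3 (one_lt_two : (1 : ℝ) < 2)).eventually
    (gt_mem_nhds hε)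
  obtain ⟨n, h1, h2⟩ := (h.and (eventually_ge_atTop 2)).exists
  obtain ⟨k, rfl⟩ : ∃ k, n = k + 1 := ⟨n - 1, by omega⟩
  refine ⟨k, by omega, ?_⟩
  rw [div_lt_div_iff₀ (by positivity) (by positivity)] at h1
  have h3 : (k + 1) ^ 3 * (2 * (A + 1)) < 1 * 2 ^ (k + 1) := by exact_mod_cast h1
  have h4 : 0 < (k + 1) ^ 3 := by positivity
  rw [pow_succ 2] at h3
  nlinarith

theorem exists_N (C : ℕ) {c : ℝ} (hc : 1 < c) : ∃ k : ℕ, 1 ≤ k ∧
    (((2 ^ k + 1) * 2 ^ (C * (k + 1) ^ 3) + 1 : ℕ) : ℝ) ^ 2 < c ^ (2 ^ k - 1) := by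
  obtain ⟨m, hm⟩ := pow_unbounded_of_one_lt 2 hc
  obtain ⟨k, h1, hk⟩ := exists_k (m * ((C + 2) * 2))
  refine ⟨k, h1, ?_⟩
  have p1 : 0 < 2 ^ k := by positivity
  have p2 : 0 < 2 ^ (C * (k + 1) ^ 3) := by positivity
  have h2 : (2 ^ k + 1) * 2 ^ (C * (k + 1) ^ 3) + 1 ≤ 2 ^ ((C + 2) * (k + 1) ^ 3) := by
    have e : (2 ^ k + 1) * 2 ^ (C * (k + 1) ^ 3) + 1 ≤ 2 ^ (k + 2 + C * (k + 1) ^ 3) := by
      rw [pow_add, pow_add 2 k 2]
      nlinarith
    refine e.trans (Nat.pow_le_pow_right (by norm_num) ?_)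
    have : k + 1 ≤ (k + 1) ^ 3 := Nat.le_self_pow (by norm_num) _
    rw [add_mul]
    omega
  have h3 : (((2 ^ k + 1) * 2 ^ (C * (k + 1) ^ 3) + 1 : ℕ) : ℝ) ≤
      (c ^ m) ^ ((C + 2) * (k + 1) ^ 3) :=
    le_trans (by exact_mod_cast h2) (pow_le_pow_left₀ (by norm_num) hm.le _)
  refine (pow_le_pow_left₀ (by positivity) h3 2).trans_lt ?_
  rw [← pow_mul, ← pow_mul]
  refine pow_lt_pow_right₀ hc ?_
  have e : m * ((C + 2) * (k + 1) ^ 3 * 2) = m * ((C + 2) * 2) * (k + 1) ^ 3 := by ring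
  omega

theorem prod_mem_pow {G : Type} [Group G] [DecidableEq G] (E : Finset G) (l : List G)
    (hl : ∀ x ∈ l, x ∈ E) : l.prod ∈ E ^ l.length := by
  induction l with
  | nil => simp
  | cons x l ih =>
    rw [List.prod_cons, List.length_cons, pow_succ']
    exact Finset.mul_mem_mul (hl x (by simp)) (ih fun y hy => hl y (by simp [hy]))

end Cntx

open Cntx in
theorem cnt_main : SpCnt := by
  classical
  intro G _ C h c hc
  obtain ⟨k, hk, hP⟩ := exists_N C hc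
  obtain ⟨Q, hQ, F, E, h1, hE, hb⟩ := h k hk
  have h4 : 2 ≤ 2 ^ k := Nat.le_self_pow (by omega) 2
  generalize 2 ^ (C * (k + 1) ^ 3) = e at hP hE
  generalize 2 ^ k = N at hP hE hb h4
  refine ⟨Q, hQ, ?_⟩
  have he1 : (0 : ℝ) < E.card := by exact_mod_cast Finset.card_pos.2 ⟨1, h1⟩
  have he2 : (E.card : ℝ) ^ 2 < c ^ (N - 1) :=
    lt_of_le_of_lt (pow_le_pow_left₀ he1.le (by exact_mod_cast hE) 2) hP
  have hr : 1 < c ^ (N - 1) / (E.card : ℝ) ^ 2 := (one_lt_div (by positivity)).2 he2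
  obtain ⟨j, hj⟩ := pow_unbounded_of_one_lt ((F.card : ℝ) * (E.card : ℝ) ^ (N ^ 2)) hr
  refine ⟨(N - 1) * j, ?_⟩
  have hsub : K76.ball Q ((N - 1) * j) ⊆ ((F * E ^ (2 * j + N ^ 2) : Finset G) : Set G) := by
    intro g hg
    obtain ⟨f, hf, l, hl, hlen, rfl⟩ := hb _ g hg
    have hlen' : l.length ≤ 2 * j + N ^ 2 := by
      refine Nat.le_of_mul_le_mul_left (hlen.trans ?_) (show 0 < N - 1 by omega)
      have : N ^ 2 ≤ (N - 1) * N ^ 2 := Nat.le_mul_of_pos_left _ (by omega)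
      rw [mul_add, mul_left_comm (N - 1)]
      omega
    exact Finset.mem_coe.2
      (Finset.mul_mem_mul hf (Finset.pow_subset_pow_right h1 hlen' (prod_mem_pow E l hl)))
  have hcard : (K76.ball Q ((N - 1) * j)).ncard ≤ F.card * E.card ^ (2 * j + N ^ 2) := by
    refine (Set.ncard_le_ncard hsub (Finset.finite_toSet _)).trans ?_
    rw [Set.ncard_coe_finset]
    exact Finset.card_mul_le.trans (Nat.mul_le_mul_left _ Finset.card_pow_le)
  have hcard' : ((K76.ball Q ((N - 1) * j)).ncard : ℝ) ≤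
      F.card * (E.card : ℝ) ^ (2 * j + N ^ 2) := by
    exact_mod_cast hcard
  refine hcard'.trans_lt ?_
  rw [div_pow, lt_div_iff₀ (by positivity), ← pow_mul, ← pow_mul] at hj
  rw [pow_add, mul_comm ((E.card : ℝ) ^ (2 * j)), ← mul_assoc]
  exact hj

end Pool.Agent.MP_89edc2_al.R3
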