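import Pool.Agent.MP_89edc2_al.R3.Spec2

/-!
# Row CUBE: the squares of arity two have no holonomy
-/

namespace Pool.Agent.MP_89edc2_al.R3

namespace Cubex

/-- a reference box of arity three -/
def top (c : Fin 40) (n : ℕ) : Box :=
  (c, [(List.replicate n false, false), ([], false), ([], false)])

theorem top_rb (c : Fin 40) (n : ℕ) : RB (top c n) := ⟨rfl, rfl⟩

theorem top_ar (c : Fin 40) (n : ℕ) : ar (top c n).2 = 3 := rfl

theorem top_dg (c : Fin 40) (n : ℕ) : dg (top c n).2 = n := by simp [top, dg]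

theorem low_ty (c : Fin 40) (σ : Box) (h : RB σ) (h2 : ar σ.2 = 2) :
    Ty σ (kd (top c (dg σ.2)) 0 none) :=
  ⟨h.1, rfl, h2, by simp [top, kd, kid, push, dg]⟩

/-- three steps in the directions `i`, `j`, `k` -/
def ct (i j k : ℕ) : Tr := .node i fun o => fT (adj i o j) (adj i o k) fun _ _ => .leaf

theorem ct_ok (M : ℕ) (c : Fin 40) (n i j k : ℕ) (hn : n + 2 ≤ M) (hi : i < 3) (hj : j < 3)
    (hk : k < 3) (hij : i ≠ j) (hik : i ≠ k) (hjk : j ≠ k) : Ok M (top c n) (ct i j k) := by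
  refine ⟨hi, by rw [top_dg]; omega, fun o => ⟨?_, ?_, fun o' => ⟨?_, ?_, fun _ => trivial⟩⟩⟩
  · rcases o with _ | o <;> simp only [top, kd, kid, push, ar, adj] <;> split_ifs <;>
      simp_all <;> omega
  · rcases o with _ | o <;> simp [top, kd, kid, push, dg] <;> omega
  · rcases o with _ | o <;> rcases o' with _ | o' <;>
      simp only [top, kd, kid, push, ar, adj] <;> split_ifs <;> simp_all <;> omega
  · rcases o with _ | o <;> rcases o' with _ | o' <;> simp [top, kd, kid, push, dg] <;> omega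

theorem adj3 (i j k : ℕ) (o o' : Option Bool) (hij : i ≠ j) (hik : i ≠ k) (hjk : j ≠ k) :
    adj (adj i o j) o' (adj i o k) = adj (adj j o' i) o (adj j o' k) := by
  rcases o with _ | o <;> rcases o' with _ | o' <;>
    simp only [adj, true_and, reduceCtorEq, false_and, if_false]
  split_ifs <;> omega

theorem ct_fT (i j k : ℕ) : ct i j k =
    fT i j fun o o' => .node (adj (adj i o j) o' (adj i o k)) fun _ => .leaf := rfl

theorem ct_flip (i j k : ℕ) (hij : i ≠ j) (hik : i ≠ k) (hjk : j ≠ k) :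
    (fT j i fun o' o => Tr.node (adj (adj i o j) o' (adj i o k)) fun _ => .leaf) = ct j i k := by
  rw [ct_fT]
  have : (fun o' o => Tr.node (adj (adj i o j) o' (adj i o k)) fun _ => .leaf) =
      fun o' o => Tr.node (adj (adj j o' i) o (adj j o' k)) fun _ => .leaf := by
    funext o' o
    rw [adj3 i j k o o' hij hik hjk]
  rw [this]

section
variable {H : Type} [Group H] {K M : ℕ} {p : H →* Equiv.Perm X} {e : D3G H} {s : Gam →* H}
  {pr : H →* Gam} {Λ : Subgroup H} {B : Box → ℕ → H}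

/-- the square relation in arity two -/
def P (K : ℕ) (p : H →* Equiv.Perm X) (Λ : Subgroup H) (B : Box → ℕ → H) (σ : Box) (ε : H) :
    Prop :=
  ∃ a ∈ Λ, IsSq K (p a) σ ∧
    B σ 1 = B (kd σ 0 (some false)) 1 * B (kd σ 0 (some true)) 1 * a * ε

theorem sq10 (hB : BH K M p Λ B) {σ : Box} {ε : H} (h : P K p Λ B σ ε) :
    Sq K p Λ B σ 1 0 ε := by
  obtain ⟨a, ha, hs, he⟩ := h
  refine ⟨a, ha, hs, ?_⟩
  simp [p3, adj, hB.zero, he]

theorem sq01 (hE : SemF) (hB : BH K M p Λ B) {σ : Box} {ε : H} (hσ : RB σ) (h2 : ar σ.2 = 2)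
    (hc : ∀ a ∈ Λ, Commute ε a) (h : P K p Λ B σ ε) : Sq K p Λ B σ 0 1 ε⁻¹ := by
  obtain ⟨a, ha, hs, he⟩ := h
  refine ⟨a⁻¹, Λ.inv_mem ha, ?_, ?_⟩
  · rw [map_inv]
    exact hE.sq_inv K _ σ hσ.1 h2.ge hs
  · have h1 : a * ε * a⁻¹ * ε⁻¹ = 1 := by
      rw [← (hc a ha).eq]; group
    simp only [p3, adj, hB.zero, he]
    simp only [true_and, not_lt_zero, and_false, if_false, reduceCtorEq,
      false_and, one_mul, mul_one, zero_lt_one, if_true, Nat.sub_self, hB.zero]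
    calc B (kd σ 0 (some false)) 1 * B (kd σ 0 (some true)) 1
        = B (kd σ 0 (some false)) 1 * B (kd σ 0 (some true)) 1 * (a * ε * a⁻¹ * ε⁻¹) := by
          rw [h1, mul_one]
      _ = _ := by group

theorem kid_rm (hS : ShapeF) {σ : Box} (hσ : RB σ) (h2 : ar σ.2 = 2) (hd : dg σ.2 + 2 ≤ M)
    (b : Bool) : RM M (kd σ 0 (some b)) ∧ ar (kd σ 0 (some b)).2 = 2 := by
  refine ⟨⟨hS.rb_kd σ _ hσ, ?_⟩, ?_⟩
  · have := hS.kid_dg1 σ.2 0 b (by omega)
    change dg (kid σ.2 0 (some b)) ≤ M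
    omega
  · have := hS.kid_ar1 σ.2 0 b
    change ar (kid σ.2 0 (some b)) = 2
    omega

theorem ex (hS : ShapeF) (hE : SemF) (hK : M + 3 ≤ K) (hN : NF K p e s pr)
    (hL : Lam K p e pr Λ) (hB : BH K M p Λ B) {σ : Box} (hσ : RB σ) (h2 : ar σ.2 = 2)
    (hd : dg σ.2 + 2 ≤ M) :
    ∃ ε, P K p Λ B σ ε ∧ p ε = 1 ∧ ∀ a ∈ Λ, Commute ε a := by
  obtain ⟨a, ha, hs⟩ := hL.sq σ hσ h2.ge (by omega)
  obtain ⟨g, hg, hpg⟩ := hN.low a
  have h0 := kid_rm hS hσ h2 hd false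
  have h1 := kid_rm hS hσ h2 hd true
  have hσM : RM M σ := ⟨hσ, by omega⟩
  have hb := hE.bak_sq K g hg σ 1 0 hσ.1 (by omega) (by omega) (by omega) (hpg ▸ hs)
  have hn : 0 < ar (kd σ 0 none).2 := by
    have := hS.kid_ar0 σ.2 0 (by omega)
    change 0 < ar (kid σ.2 0 none)
    omega
  have z0 := hE.bak_zero σ (by omega)
  have z1 := hE.bak_zero _ hn
  have z2 := hE.bak_zero (kd σ 0 (some false)) (by omega)
  have z3 := hE.bak_zero (kd σ 0 (some true)) (by omega)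
  have hb' : res K (bak σ 1) = res K (bak (kd σ 0 (some false)) 1) *
      res K (bak (kd σ 0 (some true)) 1) * res K g := by
    simpa [p3, adj, z0, z1, z2, z3, hE.res_one] using hb
  have hpe : p ((B (kd σ 0 (some false)) 1 * B (kd σ 0 (some true)) 1 * a)⁻¹ * B σ 1) = 1 := by
    rw [map_mul, map_inv, map_mul, map_mul, hB.pB σ 1 hσM (by omega),
      hB.pB _ 1 h0.1 (by omega), hB.pB _ 1 h1.1 (by omega), hpg, hb', inv_mul_cancel]
  refine ⟨_, ⟨a, ha, hs, by group⟩, hpe, fun b hb => ?_⟩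
  have := hN.cw _ 1 b (hpe.trans (map_one p).symm) (hL.ker b hb)
  rw [one_mul, inv_one, mul_one, mul_inv_eq_iff_eq_mul] at this
  exact this

theorem move (hS : ShapeF) (hE : SemF) (hK : M + 3 ≤ K) (hN : NF K p e s pr)
    (hL : Lam K p e pr Λ) (hB : BH K M p Λ B) {σ σ' : Box} {ε : H} (hσ : RB σ)
    (h2 : ar σ.2 = 2) (hd : dg σ.2 + 2 ≤ M) (hσ' : RB σ') (ht : Ty σ σ') (hne : σ.1 ≠ σ'.1)
    (hc : ∀ a ∈ Λ, Commute ε a) (h : P K p Λ B σ ε) : P K p Λ B σ' ε := by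
  obtain ⟨a, ha, hs, he⟩ := h
  obtain ⟨b, hb, hcar, -, -⟩ := hL.tr σ σ' hσ hσ' ht (Or.inl hne) (by omega)
  obtain ⟨g, hg, hpg⟩ := hN.low b
  obtain ⟨k, hk, hpk⟩ := hN.low a
  have kk : ∀ x : Bool, b * B (kd σ 0 (some x)) 1 * b⁻¹ = B (kd σ' 0 (some x)) 1 := by
    intro x
    have h0 := kid_rm hS hσ h2 hd x
    exact hB.eqv _ _ 1 b hb h0.1 (hS.rb_kd σ' _ hσ')
      (hS.ty_kd σ σ' 0 0 _ ht (by omega) (by omega)) (by omega)
      (hE.carK_kd K _ σ σ' 0 _ ht hcar)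
  have k0 := hB.eqv σ σ' 1 b hb ⟨hσ, by omega⟩ hσ' ht (by omega) hcar
  refine ⟨b * a * b⁻¹, Λ.mul_mem (Λ.mul_mem hb ha) (Λ.inv_mem hb), ?_, ?_⟩
  · rw [map_mul, map_mul, map_inv, hpg, hpk]
    exact hE.sq_nat K g hg k hk σ σ' ht h2.ge (hpg ▸ hcar) (hpk ▸ hs)
  · have h1 : ε = b * ε * b⁻¹ := by
      rw [← (hc b hb).eq]; group
    rw [← k0, ← kk false, ← kk true, he]
    conv_rhs => rw [h1]
    group

theorem cen (hS : ShapeF) (hE : SemF) (hK : M + 3 ≤ K) (hN : NF K p e s pr)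
    (hL : Lam K p e pr Λ) (hB : BH K M p Λ B) {σ : Box} {ε : H} (hσ : RB σ)
    (h2 : ar σ.2 = 2) (hd : dg σ.2 + 2 ≤ M) (hc : ∀ a ∈ Λ, Commute ε a)
    (h : P K p Λ B σ ε) : Cen M Λ B ε := by
  refine ⟨hc, fun ρ i hρ hi => ?_⟩
  obtain ⟨c, hcn⟩ := hS.fresh [σ.1, ρ.1] (by simp)
  have c1 : σ.1 ≠ c := fun h => hcn (by simp [h])
  have c2 : c ≠ ρ.1 := fun h => hcn (by simp [h])
  have ht := low_ty c σ hσ h2
  have hσ' := hS.rb_kd _ none (top_rb c (dg σ.2))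
  have hcp : (kd (top c (dg σ.2)) 0 none).1 = c := rfl
  generalize kd (top c (dg σ.2)) 0 none = σ' at ht hσ' hcp
  obtain ⟨a, ha, hs, he⟩ := move hS hE hK hN hL hB hσ h2 hd hσ' ht (hcp ▸ c1) hc h
  have h2' : ar σ'.2 = 2 := ht.2.2.1 ▸ h2
  have hd' : dg σ'.2 + 2 ≤ M := ht.2.2.2 ▸ hd
  have kk : ∀ x : Bool, Commute (B (kd σ' 0 (some x)) 1) (B ρ i) := by
    intro x
    have h0 := kid_rm hS hσ' h2' hd' x
    exact hB.comm _ _ 1 i h0.1 hρ (by omega) hi (Or.inl (hcp ▸ c2 : σ'.1 ≠ ρ.1))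
  have k0 : Commute (B σ' 1) (B ρ i) :=
    hB.comm _ _ 1 i ⟨hσ', by omega⟩ hρ (by omega) hi (Or.inl (hcp ▸ c2 : σ'.1 ≠ ρ.1))
  have ka : Commute a (B ρ i) := by
    refine hL.e0 a ha _ fun y => ?_
    by_cases hy : In σ' y
    · right
      rw [hB.pB ρ i hρ hi]
      refine hE.res_on K _ (hE.bak_mem ρ i hρ.1.1 hi) ρ (hE.bak_spec ρ i hρ.1.1 hi).2 y
        fun hy' => c2 ?_
      rw [← hcp, ← (hE.in_copy _ _ hy).1, (hE.in_copy _ _ hy').1]
    · exact Or.inl (hs.2 y hy)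
  have : ε = (B (kd σ' 0 (some false)) 1 * B (kd σ' 0 (some true)) 1 * a)⁻¹ * B σ' 1 := by
    rw [he]; group
  rw [this]
  exact (((kk false).mul_left (kk true)).mul_left ka).inv_left.mul_left k0

theorem cen_one : Cen M Λ B 1 :=
  ⟨fun a _ => Commute.one_left a, fun _ _ _ _ => Commute.one_left _⟩

theorem cen_inv {ε : H} (h : Cen M Λ B ε) : Cen M Λ B ε⁻¹ :=
  ⟨fun a ha => (h.1 a ha).inv_left, fun ρ i h1 h2 => (h.2 ρ i h1 h2).inv_left⟩

theorem up (hT : TreeF K M p Λ B) (h3 : Sq3 K M p Λ B) (c : Fin 40) (n i j k : ℕ)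
    (hn : n + 2 ≤ M) (hi : i < 3) (hj : j < 3) (hk : k < 3) (hij : i ≠ j) (hik : i ≠ k)
    (hjk : j ≠ k) :
    ∃ a ∈ Λ, bh B (top c n) (ct i j k) = bh B (top c n) (ct j i k) * a := by
  obtain ⟨a, ha, h⟩ := hT.flip (top c n) i j _ 1 (top_rb c n) hj hij
    (h3 _ i j (top_rb c n) rfl (by rw [top_dg]; omega) hi hj hij) cen_one
    (ct_fT i j k ▸ ct_ok M c n i j k hn hi hj hk hij hik hjk)
  rw [ct_flip i j k hij hik hjk, mul_one] at h
  exact ⟨a, ha, h⟩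

theorem down (hS : ShapeF) (hT : TreeF K M p Λ B) (h3 : Sq3 K M p Λ B) (c : Fin 40)
    (n i j k : ℕ) (hn : n + 2 ≤ M) (hi : i < 3) (hj : j < 3) (hk : k < 3) (hij : i ≠ j)
    (hik : i ≠ k) (hjk : j ≠ k) {η : H} (hc : Cen M Λ B η)
    (hq : Sq K p Λ B (kd (top c n) 0 none) (adj i none j) (adj i none k) η) :
    ∃ a ∈ Λ, bh B (top c n) (ct i j k) = bh B (top c n) (ct i k j) * a * η := by
  have o1 := ct_ok M c n i j k hn hi hj hk hij hik hjk
  have o2 := ct_ok M c n i k j hn hi hk hj hik hij hjk.symm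
  obtain ⟨a, ha, h⟩ := hT.congr (top c n) i _ _ (fun o => o.elim η fun _ => 1) (top_rb c n)
    o1 o2 (fun o b hb => by
      rcases o with _ | o
      · exact hc.1 b hb
      · exact Commute.one_left b) (fun o => by
      have hr := hS.rb_kd _ o (top_rb c n)
      have hne : adj i o j ≠ adj i o k := by
        simp only [adj]
        split_ifs <;> simp_all <;> omega
      rcases o with _ | o
      · exact hT.flip _ _ _ _ η hr (o2.2.2 none).1 hne hq hc (o1.2.2 none)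
      · have ha : ar (kd (top c n) 0 (some o)).2 = 3 := rfl
        have hd : dg (kd (top c n) 0 (some o)).2 < M := by
          simp [top, kd, kid, push, dg]; omega
        exact hT.flip _ _ _ _ 1 hr (o2.2.2 (some o)).1 hne
          (h3 _ _ _ hr ha hd (o1.2.2 (some o)).1 (o2.2.2 (some o)).1 hne) cen_one
          (o1.2.2 (some o)))
  refine ⟨a, ha, ?_⟩
  have hp : p3 (fun o : Option Bool => o.elim η fun _ => (1 : H)) = η := by simp [p3]
  rw [hp] at h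
  exact h

theorem hex (hS : ShapeF) (hT : TreeF K M p Λ B) (h3 : Sq3 K M p Λ B) (c : Fin 40) (n : ℕ)
    (hn : n + 2 ≤ M) {ε : H} (hc : Cen M Λ B ε) (h10 : Sq K p Λ B (kd (top c n) 0 none) 1 0 ε)
    (h01 : Sq K p Λ B (kd (top c n) 0 none) 0 1 ε⁻¹) : ε ∈ Λ := by
  obtain ⟨a1, m1, e1⟩ := down hS hT h3 c n 0 1 2 hn (by omega) (by omega) (by omega) (by omega)
    (by omega) (by omega) (cen_inv hc) h01
  obtain ⟨a2, m2, e2⟩ := up hT h3 c n 0 2 1 hn (by omega) (by omega) (by omega) (by omega)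
    (by omega) (by omega)
  obtain ⟨a3, m3, e3⟩ := down hS hT h3 c n 2 0 1 hn (by omega) (by omega) (by omega) (by omega)
    (by omega) (by omega) (cen_inv hc) h01
  obtain ⟨a4, m4, e4⟩ := up hT h3 c n 2 1 0 hn (by omega) (by omega) (by omega) (by omega)
    (by omega) (by omega)
  obtain ⟨a5, m5, e5⟩ := down hS hT h3 c n 1 2 0 hn (by omega) (by omega) (by omega) (by omega)
    (by omega) (by omega) hc h10
  obtain ⟨a6, m6, e6⟩ := up hT h3 c n 1 0 2 hn (by omega) (by omega) (by omega) (by omega)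
    (by omega) (by omega)
  rw [e2, e3, e4, e5, e6] at e1
  generalize bh B (top c n) (ct 0 1 2) = x at e1
  have h1 : ε * (a4 * a3) * ε⁻¹ = a4 * a3 := by
    rw [(hc.1 _ (Λ.mul_mem m4 m3)).eq]; group
  have h2 : ε = a6 * a5 * (ε * (a4 * a3) * ε⁻¹) * a2 * a1 := by
    apply mul_left_cancel (a := x)
    calc x * ε = x * a6 * a5 * ε * a4 * a3 * ε⁻¹ * a2 * a1 * ε⁻¹ * ε := by rw [← e1]
      _ = _ := by group
  rw [h2, h1]
  exact Λ.mul_mem (Λ.mul_mem (Λ.mul_mem (Λ.mul_mem m6 m5) (Λ.mul_mem m4 m3)) m2) m1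

end

end Cubex

open Cubex in
theorem cube_main : SpCube := by
  intro hS hE _ H _ K M p e s pr Λ B hK hN hL hB hT h3 _ σ i j hσ hd hi hj hij
  have hle : ar σ.2 ≤ 3 := hσ.1 ▸ hS.ar_le σ.2
  by_cases ha : ar σ.2 = 3
  · exact h3 σ i j hσ ha (by omega) (by omega) (by omega) hij
  have h2 : ar σ.2 = 2 := by omega
  obtain ⟨ε, hP, hpe, hc⟩ := ex hS hE hK hN hL hB hσ h2 hd
  have hcen := cen hS hE hK hN hL hB hσ h2 hd hc hP
  obtain ⟨c, hcn⟩ := hS.fresh [σ.1] (by simp)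
  have c1 : σ.1 ≠ c := fun h => hcn (by simp [h])
  have ht := low_ty c σ hσ h2
  have hσ' := hS.rb_kd _ none (top_rb c (dg σ.2))
  have hP' := move hS hE hK hN hL hB hσ h2 hd hσ' ht c1 hc hP
  have hm := hex hS hT h3 c (dg σ.2) hd hcen (sq10 hB hP') (sq01 hE hB hσ' rfl hc hP')
  have h1 : ε = 1 := hL.inj ε hm hpe
  subst h1
  have : (i = 1 ∧ j = 0) ∨ (i = 0 ∧ j = 1) := by omega
  rcases this with ⟨rfl, rfl⟩ | ⟨rfl, rfl⟩
  · exact sq10 hB hP
  · have := sq01 hE hB hσ h2 hc hP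
    rwa [inv_one] at this

end Pool.Agent.MP_89edc2_al.R3
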