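import Pool.Agent.MP_89edc2_al.R3.Spec2

/-! Row CV: families on charts and the moves of flags satisfy the hypotheses of the nerve
argument. -/

namespace Pool.Agent.MP_89edc2_al.R3

namespace Cvx

/-- the data of the row -/
structure Cx {G : Type} [Group G] (l : ℕ) (d : D3G G) (S : Finset (Fin 40)) (O : Box → Prop) :
    Prop where
  sh : ShapeF
  bs : BasF
  hl : 3 ≤ l
  sy : Sys (Lw l) d
  hS : S.card ≤ 2
  hO : ∀ z : Box, z.1 ∉ S → O z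

variable {G : Type} [Group G] {l : ℕ} {d : D3G G} {S : Finset (Fin 40)} {O : Box → Prop}
  {t t' : Pat} {a a' : Fin 3} {y y' : Chart → G} {χ χ' : Chart} {g₁ g₂ g₃ z z' : Box} {u : G}

theorem lw_mk {i : Fin 40} (h : Ty g₁ g₂) (w : wt g₁.2 ≤ l) (n : g₁.1 ≠ g₂.1) (n₁ : g₁.1 ≠ i)
    (n₂ : g₂.1 ≠ i) : Lw l g₁ g₂ (i, g₁.2) := ⟨⟨h, ⟨h.1, h.1, rfl, rfl⟩, n, n₁, n₂⟩, w⟩

theorem Cx.fresh (c : Cx l d S O) (L : List (Fin 40)) (h : L.length ≤ 30) :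
    ∃ i, i ∉ S ∧ i ∉ L := c.sh.freshS S L (by have := c.hS; omega)

theorem Cx.chart (c : Cx l d S O) (L : List (Fin 40)) (h : L.length ≤ 30) :
    ∃ χ : Chart, cd χ + 2 = l ∧ χ.1 ∉ S ∧ χ.1 ∉ L := by
  obtain ⟨i, h1, h2⟩ := c.fresh L h
  obtain ⟨χ, rfl, e⟩ := c.sh.chart_ex l i (by have := c.hl; omega)
  exact ⟨χ, e, h1, h2⟩

/-- three boxes of the type of `z` -/
theorem Cx.lw (c : Cx l d S O) {b₁ b₂ b₃ : Box} (w : wt z.2 ≤ l) (h₁ : Ty z b₁) (h₂ : Ty z b₂)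
    (h₃ : Ty z b₃) (n₁ : b₁.1 ≠ b₂.1) (n₂ : b₁.1 ≠ b₃.1) (n₃ : b₂.1 ≠ b₃.1) : Lw l b₁ b₂ b₃ :=
  ⟨⟨c.sh.ty_trans _ _ _ (c.sh.ty_symm _ _ h₁) h₂, c.sh.ty_trans _ _ _ (c.sh.ty_symm _ _ h₁) h₃,
    n₁, n₂, n₃⟩, c.sh.ty_wt _ _ h₁ ▸ w⟩

theorem Cx.th0 (c : Cx l d S O) (F : Fam l d S O t y) (v : cd χ + 2 = l) (n : χ.1 ∉ S)
    (h : Lw l g₁ g₂ z) (h' : Lw l g₁ g₂ z') (e : g₁.1 = χ.1) (s₂ : g₂.1 ∉ S) (s : z.1 ∉ S)
    (s' : z'.1 ∉ S) (ne : z'.1 ≠ z.1) (r : d g₁ g₂ z * y χ = u * d g₁ g₂ z) :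
    d g₁ g₂ z' * y χ = u * d g₁ g₂ z' := by
  have k : Lw l z' z g₂ := c.lw h.2 h'.1.2.1 h.1.2.1 h.1.1 ne h'.1.2.2.2.2.symm h.1.2.2.2.2.symm
  have m := F.cm χ z' z g₂ v n k ⟨Or.inl (e ▸ h'.1.2.2.2.1), Or.inl (e ▸ h.1.2.2.2.1),
    Or.inl (e ▸ h.1.2.2.1)⟩ (c.hO _ s') (c.hO _ s) (c.hO _ s₂)
  rw [c.bs.third G _ d c.sy (c.sh.sy_lw l) _ _ _ _ h h' k, mul_assoc, m.eq, ← mul_assoc, r,
    mul_assoc]

/-- the third slot does not matter -/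
theorem Cx.th (c : Cx l d S O) (F : Fam l d S O t y) (v : cd χ + 2 = l) (n : χ.1 ∉ S)
    (h : Lw l g₁ g₂ z) (h' : Lw l g₁ g₂ z') (e : g₁.1 = χ.1) (s₂ : g₂.1 ∉ S) (s : z.1 ∉ S)
    (s' : z'.1 ∉ S) (r : d g₁ g₂ z * y χ = u * d g₁ g₂ z) :
    d g₁ g₂ z' * y χ = u * d g₁ g₂ z' := by
  obtain ⟨i, i0, hi⟩ := c.fresh [g₁.1, g₂.1, z.1, z'.1] (by simp)
  simp only [List.mem_cons, List.not_mem_nil, or_false, not_or] at hi
  have k : Lw l g₁ g₂ (i, g₁.2) := lw_mk h.1.1 h.2 h.1.2.2.1 (Ne.symm hi.1) (Ne.symm hi.2.1)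
  exact c.th0 F v n k h' e s₂ i0 s' (Ne.symm hi.2.2.2) (c.th0 F v n h k e s₂ s i0 hi.2.2.1 r)

theorem Cx.kid (c : Cx l d S O) {i : ℕ} (h : Lw l g₁ g₂ g₃) (hi : i < ar g₁.2)
    (w : wt g₁.2 + 1 ≤ l) (o : Option Bool) : Lw l (kd g₁ i o) (kd g₂ i o) (kd g₃ i o) :=
  ⟨⟨c.sh.ty_kd _ _ _ _ o h.1.1 hi hi, c.sh.ty_kd _ _ _ _ o h.1.2.1 hi hi, h.1.2.2⟩,
    (c.sh.kid_wt g₁.2 i o hi).le.trans w⟩

/-- a move acts as the move of one child -/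
theorem Cx.sp (c : Cx l d S O) (F : Fam l d S O t y) (v : cd χ + 2 = l) (n : χ.1 ∉ S) {i : ℕ}
    {o : Option Bool} (h : Lw l g₁ g₂ z) (h' : Lw l (kd g₁ i o) (kd g₂ i o) z')
    (hi : i < ar g₁.2) (w : wt g₁.2 + 1 ≤ l) (e : g₁.1 = χ.1) (s₂ : g₂.1 ∉ S) (s : z.1 ∉ S)
    (s' : z'.1 ∉ S) {B : Fin 3 → Bool} (hB : kd g₁ i o = ap χ t B) :
    d g₁ g₂ z * y χ = u * d g₁ g₂ z ↔
      d (kd g₁ i o) (kd g₂ i o) z' * y χ = u * d (kd g₁ i o) (kd g₂ i o) z' := by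
  obtain ⟨r, e1, -, e2⟩ := c.bs.split' G _ d c.sy g₁ g₂ z i h (c.sh.dc_tri _ _ _ h.1) hi
    (c.kid h hi w) o
  obtain ⟨p, hp, ep⟩ := c.sh.ap_in χ t B (fun _ => true) fun _ _ => rfl
  have m : Commute r (y χ) := e2 _ fun o' ho => F.cm χ _ _ _ v n (c.kid h hi w o')
    ⟨by
      rw [gd, ep]
      exact c.sh.disj_sb _ _ _ hp (hB ▸ c.sh.disj_kids g₁ i o o' hi ho.symm),
    Or.inl (e ▸ h.1.2.2.1), Or.inl (e ▸ h.1.2.2.2.1)⟩ (c.hO _ (e ▸ n)) (c.hO _ s₂) (c.hO _ s)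
  rw [e1, mul_assoc, m.eq, ← mul_assoc, ← mul_assoc, mul_left_inj]
  exact ⟨c.th F v n (c.kid h hi w o) h' e s₂ s s', c.th F v n h' (c.kid h hi w o) e s₂ s' s⟩

/-- the move of a part of the pattern acts as the move of charts -/
def Ap (l : ℕ) (d : D3G G) (S : Finset (Fin 40)) (t : Pat) (y : Chart → G) (χ χ' : Chart)
    (A : Fin 3 → Bool) : Prop := ∀ z, Lw l (ap χ t A) (ap χ' t A) z → z.1 ∉ S →
  d (ap χ t A) (ap χ' t A) z * y χ = y χ' * d (ap χ t A) (ap χ' t A) z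

theorem Cx.step (c : Cx l d S O) (F : Fam l d S O t y) (v : cd χ + 2 = l) (n : χ.1 ∉ S)
    (v' : cd χ' + 2 = l) (n' : χ'.1 ∉ S) {A : Fin 3 → Bool} (hA : A a = false)
    (w : wt (ap χ t A).2 + 1 ≤ l) (h : Ap l d S t y χ χ' A) :
    Ap l d S t y χ χ' (Function.update A a true) := by
  intro z hz s
  have e1 := (c.sh.ap_kd χ t A a hA).2 (t a)
  have e2 := (c.sh.ap_kd χ' t A a hA).2 (t a)
  rw [Function.update_eq_self] at e1 e2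
  have k : Lw l (ap χ t A) (ap χ' t A) (z.1, (ap χ t A).2) :=
    lw_mk (c.sh.ap_ty _ _ _ _ (by omega)) (by omega) hz.1.2.2.1 hz.1.2.2.2.1 hz.1.2.2.2.2
  rw [← e1, ← e2] at hz ⊢
  exact (c.sp F v n k hz (c.sh.ap_kd χ t A a hA).1 w rfl n' s s e1).1 (h _ k s)

theorem one_eq : ∀ a : Fin 3, one a = Function.update (fun _ => false) a true := by
  unfold one
  decide

theorem fl_eq : ∀ a : Fin 3, (fun a' => decide (a' ≠ a)) =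
    Function.update (one (a.succAbove 0)) (a.succAbove 1) true ∧
      one (a.succAbove 0) (a.succAbove 1) = false := by
  unfold one
  decide

theorem Cx.ap1 (c : Cx l d S O) (F : Fam l d S O t y) (v : cd χ + 2 = l) (n : χ.1 ∉ S)
    (v' : cd χ' + 2 = l) (n' : χ'.1 ∉ S) (a : Fin 3) : Ap l d S t y χ χ' (one a) := by
  rw [one_eq]
  refine c.step F v n v' n' rfl ?_ fun z hz s => ?_
  · rw [← c.sh.ch_eq, (c.sh.ch_wt χ).1]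
    omega
  · rw [← c.sh.ch_eq, ← c.sh.ch_eq] at hz ⊢
    exact F.mv χ χ' z v v' hz n n' s

theorem Cx.refl (c : Cx l d S O) (F : Fam l d S O t y) (a : Fin 3) : Cv l d S t a y t a y := by
  intro χ χ' z v v' hz n n' s
  have := c.step F v n v' n' (fl_eq a).2 (by rw [c.sh.one_wt]; omega) (c.ap1 F v n v' n' _)
  rw [← (fl_eq a).1] at this
  exact this z hz s

theorem Cx.symm (c : Cx l d S O) (h : Cv l d S t a y t' a' y') : Cv l d S t' a' y' t a y := by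
  intro χ' χ z v' v hz n' n s
  have k := (c.sh.sy_lw l _ _ _ (c.sh.sy_lw l _ _ _ hz).1).2
  rw [c.sy.cyc _ _ _ hz, c.bs.inv' G _ d c.sy _ _ _ k, inv_mul_eq_iff_eq_mul, ← mul_assoc,
    h χ χ' z v v' k n n' s, mul_inv_cancel_right]

/-- composition of moves -/
theorem Cx.comp (c : Cx l d S O) {x x' x'' : G} (h₁ : Lw l g₁ g₂ z) (h₂ : Lw l g₂ g₃ z)
    (h₃ : Lw l g₁ g₃ z) (r₁ : d g₁ g₂ z * x = x' * d g₁ g₂ z)
    (r₂ : d g₂ g₃ z * x' = x'' * d g₂ g₃ z) : d g₁ g₃ z * x = x'' * d g₁ g₃ z := by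
  rw [← c.sy.tri g₁ g₃ z g₂ h₃ (c.sh.sy_lw l _ _ _ h₂).1 h₁, ← c.sy.cyc _ _ _ h₂, mul_assoc, r₁,
    ← mul_assoc, r₂, mul_assoc]

theorem Cx.trans (c : Cx l d S O) {t'' a'' y''} (hc : cnt t = cnt t') (ht : t a = t' a')
    (h : Cv l d S t a y t' a' y') (h' : Cv l d S t' a' y' t'' a'' y'') :
    Cv l d S t a y t'' a'' y'' := by
  intro χ χ'' z v v'' hz n n'' s
  obtain ⟨χ', v', n', hi⟩ := c.chart [χ.1, χ''.1, z.1] (by simp)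
  simp only [List.mem_cons, List.not_mem_nil, or_false, not_or] at hi
  have ty := c.sh.lab_ty χ χ' t t' a a' (by omega) hc ht
  have k₁ : Lw l (fl χ t a) (fl χ' t' a') z := ⟨⟨ty, hz.1.2.1, Ne.symm hi.1, hz.1.2.2.2.1,
    hi.2.2⟩, hz.2⟩
  have k₂ : Lw l (fl χ' t' a') (fl χ'' t'' a'') z :=
    c.lw hz.2 ty hz.1.1 hz.1.2.1 hi.2.1 hi.2.2 hz.1.2.2.2.2
  exact c.comp k₁ k₂ hz (h χ χ' z v v' k₁ n n' s) (h' χ' χ'' z v' v'' k₂ n' n'' s)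

/-- correspondence under joint moves -/
def Jt (l : ℕ) (d : D3G G) (S : Finset (Fin 40)) (t : Pat) (a : Fin 3) (y : Chart → G)
    (b : Box) (u : G) (χ : Chart) : Prop := ∀ z, Lw l (ap χ t (one a)) b z → z.1 ∉ S →
  d (ap χ t (one a)) b z * y χ = u * d (ap χ t (one a)) b z

theorem Cx.jt (c : Cx l d S O) (F : Fam l d S O t y) (E : EM t a t' a') (k : Fin 2) :
    Cv l d S t (a.succAbove k) y t' (a'.succAbove k) y' ↔
      ∀ χ χ', cd χ + 2 = l → cd χ' + 2 = l → χ.1 ∉ S → χ'.1 ∉ S →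
        Jt l d S t a y (ap χ' t' (one a')) (y' χ') χ := by
  obtain ⟨i, o, h⟩ := c.sh.em_fl t a t' a' k E
  have w : ∀ χ, cd χ + 2 = l → wt (ap χ t (one a)).2 + 1 ≤ l := fun χ v => by
    rw [c.sh.one_wt]
    omega
  refine ⟨fun H χ χ' v v' n n' z hz s => ?_, fun H χ χ' z v v' hz n n' s => ?_⟩
  · have q := c.kid hz (h χ).1 (w χ v) o
    refine (c.sp F v n hz q (h χ).1 (w χ v) rfl n' s s (h χ).2.1.symm).2 ?_
    rw [← (h χ).2.1, ← (h χ').2.2] at q ⊢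
    exact H χ χ' _ v v' q n n' s
  · have q : Lw l (ap χ t (one a)) (ap χ' t' (one a')) (z.1, (ap χ t (one a)).2) :=
      lw_mk (c.sh.em_ty _ _ _ _ _ _ E (by omega)) (by have := w χ v; omega) hz.1.2.2.1
        hz.1.2.2.2.1 hz.1.2.2.2.2
    rw [(h χ).2.1, (h χ').2.2] at hz ⊢
    exact (c.sp F v n q hz (h χ).1 (w χ v) rfl n' s s (h χ).2.1.symm).1 (H χ χ' v v' n n' _ q s)

theorem Cx.jmv (c : Cx l d S O) (F : Fam l d S O t y) {b : Box} (v : cd χ + 2 = l) (n : χ.1 ∉ S)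
    (v' : cd χ' + 2 = l) (n' : χ'.1 ∉ S) (nb : b.1 ∉ S) (e : χ.1 ≠ χ'.1) (eb : χ.1 ≠ b.1)
    (h : Jt l d S t a y b u χ) : Jt l d S t a y b u χ' := by
  intro z hz s
  obtain ⟨i, i0, hi⟩ := c.fresh [χ.1, χ'.1, b.1] (by simp)
  simp only [List.mem_cons, List.not_mem_nil, or_false, not_or] at hi
  have ty := c.sh.ap_ty χ' χ t (one a) (by omega)
  have k₃ := lw_mk hz.1.1 hz.2 hz.1.2.2.1 (Ne.symm hi.2.1) (Ne.symm hi.2.2)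
  have k₁ := lw_mk ty hz.2 e.symm (Ne.symm hi.2.1) (Ne.symm hi.1)
  have k₂ := c.lw hz.2 ty hz.1.1 k₃.1.2.1 eb (Ne.symm hi.1) (Ne.symm hi.2.2)
  exact c.th F v' n' k₃ hz rfl nb i0 s
    (c.comp k₁ k₂ k₃ (c.ap1 F v' n' v n a _ k₁ i0) (h _ k₂ i0))

theorem Cx.jex (c : Cx l d S O) (F : Fam l d S O t y) (E : EM t a t' a') (χ' : Chart) :
    ∃ u : G, cd χ' + 2 = l → χ'.1 ∉ S → ∀ χ, cd χ + 2 = l → χ.1 ∉ S →
      Jt l d S t a y (ap χ' t' (one a')) u χ := by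
  obtain ⟨χ₀, v₀, n₀, h₀⟩ := c.chart [χ'.1] (by simp)
  obtain ⟨i, i0, hi⟩ := c.fresh [χ₀.1, χ'.1] (by simp)
  simp only [List.mem_cons, List.not_mem_nil, or_false, not_or] at h₀ hi
  refine ⟨d (ap χ₀ t (one a)) (ap χ' t' (one a')) (i, (ap χ₀ t (one a)).2) * y χ₀ *
    (d (ap χ₀ t (one a)) (ap χ' t' (one a')) (i, (ap χ₀ t (one a)).2))⁻¹,
    fun v' n' χ v n z hz s => ?_⟩
  obtain ⟨χ₁, v₁, n₁, h₁⟩ := c.chart [χ'.1, χ₀.1, χ.1] (by simp)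
  simp only [List.mem_cons, List.not_mem_nil, or_false, not_or] at h₁
  have k : Lw l (ap χ₀ t (one a)) (ap χ' t' (one a')) (i, (ap χ₀ t (one a)).2) :=
    lw_mk (c.sh.em_ty _ _ _ _ _ _ E (by omega)) (by rw [c.sh.one_wt]; omega) h₀ (Ne.symm hi.1)
      (Ne.symm hi.2)
  refine c.jmv F v₁ n₁ v n n' h₁.2.2 h₁.1 (c.jmv F v₀ n₀ v₁ n₁ n' (Ne.symm h₁.2.1) h₀ ?_) z hz s
  exact fun w hw sw => c.th F v₀ n₀ k hw rfl n' i0 sw (inv_mul_cancel_right _ _).symm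

theorem conj_aux {g j₁ j₂ x x₁ x₂ : G} (h : g * j₁ = j₂ * g) (m : Commute g x)
    (r₁ : j₁ * x = x₁ * j₁) (r₂ : j₂ * x = x₂ * j₂) : g * x₁ = x₂ * g := by
  rw [← mul_left_inj j₁, mul_assoc, ← r₁, ← mul_assoc, h, mul_assoc, m.eq, ← mul_assoc, r₂,
    mul_assoc, mul_assoc, h]

theorem stack : ∀ s a : Fin 3, one a s = true ∨
    ∃ k : Fin 2, decide (s ≠ a.succAbove k) = true := by
  unfold one
  decide

theorem Cx.fam (c : Cx l d S O) (F : Fam l d S O t y) (E : EM t a t' a')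
    (H : ∀ χ χ', cd χ + 2 = l → cd χ' + 2 = l → χ.1 ∉ S → χ'.1 ∉ S →
      Jt l d S t a y (ap χ' t' (one a')) (y' χ') χ) : Fam l d S O t' y' := by
  have w : ∀ χ, cd χ + 2 = l → wt (ap χ t (one a)).2 ≤ l := fun χ v => by
    rw [c.sh.one_wt]
    omega
  constructor
  · intro χ' g₁ g₂ g₃ v' n' hg D o₁ o₂ o₃
    have hL : (χ'.1 :: S.toList).length ≤ 30 := by
      have := c.hS
      rw [List.length_cons, Finset.length_toList]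
      omega
    refine (Subgroup.mem_centralizer_singleton_iff.1 (c.bs.carmL G l d c.sy g₁ g₂ g₃ hg _ hL
      (Subgroup.centralizer {y' χ'}) fun z f f' hz k nf nf' => ?_))
    simp only [List.mem_cons, Finset.mem_toList, not_or] at nf nf'
    have oz : O z := by rcases hz with rfl | rfl | rfl <;> assumption
    have dz : Disj (gd χ' t') z := by
      rcases hz with rfl | rfl | rfl
      exacts [D.1, D.2.1, D.2.2]
    obtain ⟨s, hs⟩ := c.sh.gd_disj χ' t' z (c.sh.disj_symm _ _ dz)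
    obtain ⟨χ, v, n, h₀⟩ := c.chart [χ'.1, z.1, f.1, f'.1] (by simp)
    obtain ⟨i, i0, hi⟩ := c.fresh [χ.1, χ'.1, z.1, f.1, f'.1] (by simp)
    simp only [List.mem_cons, List.not_mem_nil, or_false, not_or] at h₀ hi
    have m := F.cm χ z f f' v n k ⟨Or.inl h₀.2.1, Or.inl h₀.2.2.1, Or.inl h₀.2.2.2⟩ oz
      (c.hO _ nf.2) (c.hO _ nf'.2)
    have key : ∀ A A', A' s = true → ∀ q : Lw l (ap χ t A) (ap χ' t' A') (i, (ap χ t A).2),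
        d (ap χ t A) (ap χ' t' A') (i, (ap χ t A).2) * y χ =
          y' χ' * d (ap χ t A) (ap χ' t' A') (i, (ap χ t A).2) →
        d z f f' ∈ Subgroup.centralizer {y' χ'} := fun A A' hA q r =>
      Subgroup.mem_centralizer_singleton_iff.2 (conj_aux (c.bs.comm G _ d c.sy _ _ _ _ _ _ k q
        ⟨Or.inl h₀.2.1, Or.inl h₀.2.2.1, Or.inl h₀.2.2.2⟩
        ⟨c.sh.disj_symm _ _ (hs A' hA), Or.inl (Ne.symm nf.1), Or.inl (Ne.symm nf'.1)⟩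
        ⟨Or.inl hi.2.2.1, Or.inl hi.2.2.2.1, Or.inl hi.2.2.2.2⟩).eq m r r)
    rcases stack s a' with h | ⟨j, h⟩
    · have q := lw_mk (c.sh.em_ty χ χ' _ _ _ _ E (by omega)) (w χ v) h₀.1 (Ne.symm hi.1)
        (Ne.symm hi.2.1)
      exact key _ _ h q (H χ χ' v v' n n' _ q i0)
    · have q := lw_mk (l := l) (c.sh.lab_ty χ χ' t t' _ _ (by omega) (c.sh.em_cnt _ _ _ _ E)
        (E.1 j)) (by rw [c.sh.fl_wt]; omega) h₀.1 (Ne.symm hi.1) (Ne.symm hi.2.1)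
      exact key _ _ h q ((c.jt F E j).2 H χ χ' _ v v' q n n' i0)
  · intro χ₁ χ₂ z v₁ v₂ hz n₁ n₂ s
    obtain ⟨χ, v, n, h₀⟩ := c.chart [χ₁.1, χ₂.1, z.1] (by simp)
    obtain ⟨i, i0, hi⟩ := c.fresh [χ.1, χ₁.1, χ₂.1, z.1] (by simp)
    simp only [List.mem_cons, List.not_mem_nil, or_false, not_or] at h₀ hi
    have q₁ := lw_mk (c.sh.em_ty χ χ₁ _ _ _ _ E (by omega)) (w χ v) h₀.1 (Ne.symm hi.1)
      (Ne.symm hi.2.1)
    have q₂ := lw_mk (c.sh.em_ty χ χ₂ _ _ _ _ E (by omega)) (w χ v) h₀.2.1 (Ne.symm hi.1)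
      (Ne.symm hi.2.2.1)
    refine conj_aux (c.sy.conj _ _ _ _ _ _ _ _ _ hz q₁ q₂
      (Or.inr (Or.inr (Or.inr ⟨rfl, Or.inl h₀.1, Or.inl h₀.2.1, Or.inl h₀.2.2⟩))) (Or.inl ?_)
      (Or.inr (Or.inr (Or.inr ⟨rfl, Or.inl hi.2.1, Or.inl hi.2.2.1, Or.inl hi.2.2.2⟩))))
      (F.cm χ _ _ _ v n hz ⟨Or.inl h₀.1, Or.inl h₀.2.1, Or.inl h₀.2.2⟩ (c.hO _ n₁) (c.hO _ n₂)
        (c.hO _ s)) (H χ χ₁ v v₁ n n₁ _ q₁ i0) (H χ χ₂ v v₂ n n₂ _ q₂ i0)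
    rw [c.sh.ch_eq χ₁ t', c.sh.ch_eq χ₂ t']
    exact c.sh.ap_mo _ _ _ _ _ fun _ h => absurd h (by simp)

end Cvx

theorem cv_main : SpCv := by
  intro sh bs G _ l d S O hl sy hS hO
  have c : Cvx.Cx l d S O := ⟨sh, bs, hl, sy, hS, hO⟩
  refine ⟨fun t a y F => c.refl F a, fun _ _ _ _ _ _ h => c.symm h,
    fun _ _ _ _ _ _ _ _ _ h1 h2 h3 h4 => c.trans h1 h2 h3 h4,
    fun t a y t' a' y' F _ E => (c.jt F E 0).trans (c.jt F E 1).symm, fun t a y t' a' F E => ?_⟩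
  choose y' hy using c.jex F E
  have H := fun χ χ' v v' n n' => hy χ' v' n' χ v n
  exact ⟨y', c.fam F E H, (c.jt F E 0).2 H⟩

end Pool.Agent.MP_89edc2_al.R3
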