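import Pool.Agent.MP_89edc2_al.R3.Spec2

/-!
# Row DBL: from different copies to disjoint boxes
-/

namespace Pool.Agent.MP_89edc2_al.R3

namespace Dblx

theorem ty_rfl {a b : Box} (h : Ty a b) : Ty a a := ⟨h.1, h.1, rfl, rfl⟩

theorem ty_sy {a b : Box} (h : Ty a b) : Ty b a := ⟨h.2.1, h.1, h.2.2.1.symm, h.2.2.2.symm⟩

theorem ty_tr {a b c : Box} (h : Ty a b) (h' : Ty b c) : Ty a c :=
  ⟨h.1, h'.2.1, h.2.2.1.trans h'.2.2.1, h.2.2.2.trans h'.2.2.2⟩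

theorem dc_mk {a x y z : Box} (hx : Ty a x) (hy : Ty a y) (hz : Ty a z) (h1 : x.1 ≠ y.1)
    (h2 : x.1 ≠ z.1) (h3 : y.1 ≠ z.1) : Dc x y z :=
  ⟨ty_tr (ty_sy hx) hy, ty_tr (ty_sy hx) hz, h1, h2, h3⟩

theorem dc_sw {a b c : Box} (h : Dc a b c) : Dc a c b :=
  ⟨h.2.1, h.1, h.2.2.2.1, h.2.2.1, h.2.2.2.2.symm⟩

theorem dc_rot {a b c : Box} (h : Dc a b c) : Dc b c a :=
  ⟨ty_tr (ty_sy h.1) h.2.1, ty_sy h.1, h.2.2.2.2, h.2.2.1.symm, h.2.2.2.1.symm⟩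

theorem dj {a b : Box} (h : a.1 ≠ b.1) : Disj a b := Or.inl h

theorem mv_fix {g₁ g₂ g₃ z : Box} (h1 : Disj z g₁) (h2 : Disj z g₂) (h3 : Disj z g₃) :
    Mv g₁ g₂ g₃ z z := Or.inr (Or.inr (Or.inr ⟨rfl, h1, h2, h3⟩))

/-- a fresh box of the type of `a` -/
theorem fresh1 (H : ShapeF) {a b : Box} (h : Ty a b) (L : List (Fin 40)) (hL : L.length < 40) :
    ∃ f : Box, Ty a f ∧ f.1 ∉ L := by
  obtain ⟨i, hi⟩ := H.fresh L hL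
  exact ⟨(i, a.2), ⟨h.1, h.1, rfl, rfl⟩, hi⟩

/-- fresh pairs -/
def Fr (a b e f f' : Box) : Prop := Dc a f f' ∧ Dc b f f' ∧ Dc e f f'

theorem fresh2 (H : ShapeF) {a b e : Box} (hb : Ty a b) (he : Ty a e) (L : List (Fin 40))
    (hL : L.length ≤ 30) : ∃ f f' : Box, Fr a b e f f' ∧ f.1 ∉ L ∧ f'.1 ∉ L := by
  obtain ⟨f, hf, hf'⟩ := fresh1 H hb (a.1 :: b.1 :: e.1 :: L) (by simp; omega)
  obtain ⟨g, hg, hg'⟩ := fresh1 H hb (f.1 :: a.1 :: b.1 :: e.1 :: L) (by simp; omega)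
  simp only [List.mem_cons, not_or] at hf' hg'
  obtain ⟨f1, f2, f3, f4⟩ := hf'
  obtain ⟨g0, g1, g2, g3, g4⟩ := hg'
  exact ⟨f, g, ⟨dc_mk (ty_rfl hb) hf hg (Ne.symm f1) (Ne.symm g1) (Ne.symm g0),
    dc_mk hb hf hg (Ne.symm f2) (Ne.symm g2) (Ne.symm g0),
    dc_mk he hf hg (Ne.symm f3) (Ne.symm g3) (Ne.symm g0)⟩, f4, g4⟩

variable {G : Type} [Group G]

/-- the element written with two fresh boxes -/
def W (d : D3G G) (a b e f f' : Box) : G := d e f f' * d b f' f * d a f f' * d e f' f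

theorem d2_ind (H : ShapeF) (B : BasF) {d : D3G G} (S : Sys Dc d) {a b f g f' : Box}
    (h1 : Dc a f f') (h2 : Dc b f f') (h3 : Dc a g f') (h4 : Dc b g f') (h : g.1 ≠ f.1) :
    d b f' g * d a g f' = d b f' f * d a f f' := by
  have k : Dc g f f' := dc_mk h3.1 h1.1 h1.2.1 h h3.2.2.2.2 h1.2.2.2.2
  have e1 := B.third G Dc d S H.sy_dc b f' f g (dc_sw h2) (dc_sw h4) k
  have e2 := S.tri a g f' f h3 (dc_sw k) h1
  have e3 := S.inv g f' f (dc_sw k)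
  rw [e1, ← e2, mul_assoc, ← mul_assoc (d g f f'), e3, one_mul]

theorem w_eq (B : BasF) {d : D3G G} (S : Sys Dc d) {a b e f f' : Box} (h : Dc e f f') :
    W d a b e f f' = d e f f' * (d b f' f * d a f f') * (d e f f')⁻¹ := by
  rw [W, B.inv' G Dc d S e f f' h]
  simp only [mul_assoc]

theorem w_fst (H : ShapeF) (B : BasF) {d : D3G G} (S : Sys Dc d) {a b e f g f' : Box}
    (ha : Disj a e) (hb : Disj b e) (h1 : Fr a b e f f') (h2 : Fr a b e g f') (h : g.1 ≠ f.1) :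
    W d a b e g f' = W d a b e f f' := by
  obtain ⟨a1, b1, e1⟩ := h1
  obtain ⟨a2, b2, e2⟩ := h2
  obtain ⟨k, hk, hk'⟩ := fresh1 H a1.1 [a.1, b.1, e.1, f.1, g.1, f'.1] (by simp)
  simp only [List.mem_cons, not_or, List.not_mem_nil, not_false_eq_true, and_true] at hk'
  obtain ⟨k1, k2, k3, k4, k5, k6⟩ := hk'
  have tb : Ty a b := ty_tr a1.1 (ty_sy b1.1)
  have te : Ty a e := ty_tr a1.1 (ty_sy e1.1)
  have a3 : Dc a k f' := dc_mk (ty_rfl hk) hk a1.2.1 (Ne.symm k1) a1.2.2.2.1 k6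
  have b3 : Dc b k f' := dc_mk tb hk a1.2.1 (Ne.symm k2) b1.2.2.2.1 k6
  have q : Dc g f e := dc_mk a2.1 a1.1 te h e2.2.2.1.symm e1.2.2.1.symm
  have x1 := B.third G Dc d S H.sy_dc f' e f g (dc_rot (dc_rot e1)) (dc_rot (dc_rot e2)) q
  rw [S.cyc _ _ _ (dc_rot (dc_rot e1)), S.cyc _ _ _ (dc_rot (dc_rot e2))] at x1
  have df : D3 f' g f e := ⟨dj a2.2.2.2.2.symm, dj a1.2.2.2.2.symm, dj e1.2.2.2.1.symm⟩
  have dk : D3 k g f e := ⟨dj k5, dj k4, dj k3⟩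
  have c1 := B.comm G Dc d S g f e b f' k q (dc_sw b3) ⟨dj b2.2.2.1, dj b1.2.2.1, hb⟩ df dk
  have c2 := B.comm G Dc d S g f e a k f' q a3 ⟨dj a2.2.2.1, dj a1.2.2.1, ha⟩ dk df
  have c := (c1.mul_right c2).eq
  rw [w_eq B S e1, w_eq B S e2, ← d2_ind H B S a2 b2 a3 b3 k5, ← d2_ind H B S a1 b1 a3 b3 k4, x1,
    mul_assoc (d e f f'), c]
  group

theorem w_snd (H : ShapeF) (B : BasF) {d : D3G G} (S : Sys Dc d) {a b e f f' g : Box}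
    (h1 : Fr a b e f f') (h2 : Fr a b e f g) (h : f'.1 ≠ g.1) :
    W d a b e f f' = W d a b e f g := by
  obtain ⟨a1, b1, e1⟩ := h1
  obtain ⟨a2, b2, e2⟩ := h2
  obtain ⟨k, hk, hk'⟩ := fresh1 H a1.1 [a.1, b.1, f.1, g.1, f'.1] (by simp)
  simp only [List.mem_cons, not_or, List.not_mem_nil, not_false_eq_true, and_true] at hk'
  obtain ⟨k1, k2, k4, k5, k6⟩ := hk'
  have tb : Ty a b := ty_tr a1.1 (ty_sy b1.1)
  have a3 : Dc a k f' := dc_mk (ty_rfl hk) hk a1.2.1 (Ne.symm k1) a1.2.2.2.1 k6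
  have b3 : Dc b k f' := dc_mk tb hk a1.2.1 (Ne.symm k2) b1.2.2.2.1 k6
  have a4 : Dc a k g := dc_mk (ty_rfl hk) hk a2.2.1 (Ne.symm k1) a2.2.2.2.1 k5
  have b4 : Dc b k g := dc_mk tb hk a2.2.1 (Ne.symm k2) b2.2.2.2.1 k5
  have q : Dc f' g f := dc_mk a1.2.1 a2.2.1 a1.1 h a1.2.2.2.2.symm a2.2.2.2.2.symm
  have x1 := B.third G Dc d S H.sy_dc e f g f' e2 e1 q
  have mf : Mv f' g f f' g := Or.inl (H.mo_self _ _ q.1.2.2.1)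
  have mk : Mv f' g f k k := mv_fix (dj k6) (dj k5) (dj k4)
  have c1 := S.conj f' g f b f' k b g k q (dc_sw b3) (dc_sw b4)
    (mv_fix (dj b1.2.2.2.1) (dj b2.2.2.2.1) (dj b1.2.2.1)) mf mk
  have c2 := S.conj f' g f a k f' a k g q a3 a4
    (mv_fix (dj a1.2.2.2.1) (dj a2.2.2.2.1) (dj a1.2.2.1)) mk mf
  have c : d f' g f * (d b f' k * d a k f') = d b g k * d a k g * d f' g f := by
    rw [← mul_assoc, c1, mul_assoc, c2, mul_assoc]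
  rw [w_eq B S e1, w_eq B S e2, ← d2_ind H B S a2 b2 a4 b4 k4, ← d2_ind H B S a1 b1 a3 b3 k4, x1,
    mul_assoc (d e f g), c]
  group

theorem w_ind (H : ShapeF) (B : BasF) {d : D3G G} (S : Sys Dc d) {a b e f f' g g' : Box}
    (t : Tri a b e) (h1 : Fr a b e f f') (h2 : Fr a b e g g') :
    W d a b e f f' = W d a b e g g' := by
  obtain ⟨k, k', hk, k1, k2⟩ := fresh2 H t.1 t.2.1 [f.1, f'.1, g.1, g'.1] (by simp)
  simp only [List.mem_cons, not_or, List.not_mem_nil, not_false_eq_true, and_true] at k1 k2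
  have mix : ∀ {z x x' : Box}, Dc z x x' → Dc z k k' → k.1 ≠ x'.1 → Dc z k x' :=
    fun u v w => ⟨v.1, u.2.1, v.2.2.1, u.2.2.2.1, w⟩
  have m1 : Fr a b e k f' :=
    ⟨mix h1.1 hk.1 k1.2.1, mix h1.2.1 hk.2.1 k1.2.1, mix h1.2.2 hk.2.2 k1.2.1⟩
  have m2 : Fr a b e k g' :=
    ⟨mix h2.1 hk.1 k1.2.2.2, mix h2.2.1 hk.2.1 k1.2.2.2, mix h2.2.2 hk.2.2 k1.2.2.2⟩
  rw [← w_fst H B S t.2.2.2.1 t.2.2.2.2 h1 m1 k1.1,
    ← w_fst H B S t.2.2.2.1 t.2.2.2.2 h2 m2 k1.2.2.1,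
    w_snd H B S m1 hk (Ne.symm k2.2.1), w_snd H B S m2 hk (Ne.symm k2.2.2.2)]

/-- `x` is given by `W` -/
def Is (d x : D3G G) : Prop :=
  ∀ a b e f f', Tri a b e → Fr a b e f f' → x a b e = W d a b e f f'

theorem ex_is (H : ShapeF) (B : BasF) {d : D3G G} (S : Sys Dc d) : ∃ x, Is d x := by
  have h : ∀ a b e : Box, ∃ x : G, ∀ f f', Tri a b e → Fr a b e f f' → x = W d a b e f f' := by
    intro a b e
    by_cases t : Tri a b e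
    · obtain ⟨k, k', hk, -⟩ := fresh2 H t.1 t.2.1 [] (by simp)
      exact ⟨W d a b e k k', fun f f' _ h => w_ind H B S t hk h⟩
    · exact ⟨1, fun f f' h => absurd h t⟩
  choose x hx using h
  exact ⟨x, fun a b e f f' t h => hx a b e f f' t h⟩

theorem is_eq (H : ShapeF) (B : BasF) {d x : D3G G} (S : Sys Dc d) (I : Is d x) {a b e : Box}
    (t : Dc a b e) : x a b e = d a b e := by
  obtain ⟨f, f', hf, -⟩ := fresh2 H t.1 t.2.1 [] (by simp)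
  have tf : Ty a f := hf.1.1
  rw [I a b e f f' (H.dc_tri _ _ _ t) hf, W]
  exact (B.carm G Dc d S H.sy_dc a b e f f' t
    (dc_mk t.1 t.2.1 tf t.2.2.2.2 hf.2.1.2.2.1 hf.2.2.2.2.1)
    (dc_mk (ty_rfl tf) t.2.1 tf t.2.2.2.1 hf.1.2.2.1 hf.2.2.2.2.1) hf.1 hf.2.1 hf.2.2).symm

/-- conjugation by `h` follows the relation `R` -/
def Cj (x : D3G G) (h : G) (R : Box → Box → Prop) : Prop :=
  ∀ a b c a' b' c', Tri a b c → R a a' → R b b' → R c c' →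
    Tri a' b' c' ∧ h * x a b c = x a' b' c' * h

theorem cj_mul {x : D3G G} {h h' : G} {R R' : Box → Box → Prop} (k : Cj x h R)
    (k' : Cj x h' R') : Cj x (h' * h) (Relation.Comp R R') := by
  rintro a b c a' b' c' t ⟨a₁, a1, a2⟩ ⟨b₁, b1, b2⟩ ⟨c₁, c1, c2⟩
  obtain ⟨t1, e1⟩ := k a b c a₁ b₁ c₁ t a1 b1 c1
  obtain ⟨t2, e2⟩ := k' a₁ b₁ c₁ a' b' c' t1 a2 b2 c2
  exact ⟨t2, by rw [mul_assoc, e1, ← mul_assoc, e2, mul_assoc]⟩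

theorem cj_dc (H : ShapeF) {d x : D3G G} (S : Sys Dc d) (I : Is d x) {g₁ g₂ g₃ : Box}
    (q : Dc g₁ g₂ g₃) : Cj x (d g₁ g₂ g₃) (Mv g₁ g₂ g₃) := by
  intro a b c a' b' c' t ma mb mc
  have qt := H.dc_tri _ _ _ q
  have t' := H.mv_tri _ _ _ _ _ _ _ _ _ qt t ⟨ma, mb, mc⟩
  refine ⟨t', ?_⟩
  obtain ⟨f, f', hf, k1, k2⟩ :=
    fresh2 H t.1 t.2.1 [g₁.1, g₂.1, g₃.1, a'.1, b'.1, c'.1] (by simp)
  simp only [List.mem_cons, not_or, List.not_mem_nil, not_false_eq_true, and_true] at k1 k2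
  have mf : Mv g₁ g₂ g₃ f f := mv_fix (dj k1.1) (dj k1.2.1) (dj k1.2.2.1)
  have mf' : Mv g₁ g₂ g₃ f' f' := mv_fix (dj k2.1) (dj k2.2.1) (dj k2.2.2.1)
  have nw : ∀ {z z' : Box}, Dc z f f' → Mv g₁ g₂ g₃ z z' → f.1 ≠ z'.1 → f'.1 ≠ z'.1 →
      Dc z' f f' := fun u m v w =>
    dc_mk (H.mv_ty _ _ _ _ _ qt u.1.1 m) u.1 u.2.1 v.symm w.symm u.2.2.2.2
  have a2 := nw hf.1 ma k1.2.2.2.1 k2.2.2.2.1
  have b2 := nw hf.2.1 mb k1.2.2.2.2.1 k2.2.2.2.2.1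
  have c2 := nw hf.2.2 mc k1.2.2.2.2.2 k2.2.2.2.2.2
  have e1 := S.conj _ _ _ c f f' c' f f' q hf.2.2 c2 mc mf mf'
  have e2 := S.conj _ _ _ b f' f b' f' f q (dc_sw hf.2.1) (dc_sw b2) mb mf' mf
  have e3 := S.conj _ _ _ a f f' a' f f' q hf.1 a2 ma mf mf'
  have e4 := S.conj _ _ _ c f' f c' f' f q (dc_sw hf.2.2) (dc_sw c2) mc mf' mf
  rw [I a b c f f' t hf, I a' b' c' f f' t' ⟨a2, b2, c2⟩, W, W]
  simp only [← mul_assoc]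
  rw [e1, mul_assoc (d c' f f'), e2, ← mul_assoc, mul_assoc (d c' f f' * d b' f' f), e3,
    ← mul_assoc, mul_assoc (d c' f f' * d b' f' f * d a' f f'), e4, ← mul_assoc]

theorem chain (H : ShapeF) {g₁ g₂ g₃ f f' a a' : Box} (t : Tri g₁ g₂ g₃) (hf : Fr g₁ g₂ g₃ f f')
    (k1 : f.1 ≠ a.1) (k2 : f'.1 ≠ a.1) (m : Mv g₁ g₂ g₃ a a') :
    Relation.Comp (Relation.Comp (Relation.Comp (Mv g₃ f' f) (Mv g₁ f f')) (Mv g₂ f' f))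
      (Mv g₃ f f') a a' := by
  obtain ⟨t2, t3, d12, d13, d23⟩ := t
  obtain ⟨f1, f2, f3⟩ := hf
  have r2 : ar g₂.2 = ar g₁.2 := t2.2.2.1.symm
  have r3 : ar g₃.2 = ar g₁.2 := t3.2.2.1.symm
  have rf : ar f.2 = ar g₁.2 := f1.1.2.2.1.symm
  have rf' : ar f'.2 = ar g₁.2 := f1.2.1.2.2.1.symm
  rcases m with ⟨u, hu, rfl, rfl⟩ | ⟨u, hu, rfl, rfl⟩ | ⟨u, hu, rfl, rfl⟩ | ⟨rfl, n1, n2, n3⟩
  · refine ⟨sb g₂ u, ⟨sb f u, ⟨sb g₁ u, ?_, ?_⟩, ?_⟩, ?_⟩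
    · exact mv_fix (H.disj_sb _ _ _ hu d13) (dj f1.2.2.2.1) (dj f1.2.2.1)
    · exact Or.inl ⟨u, hu, rfl, rfl⟩
    · exact Or.inr (Or.inr (Or.inl ⟨u, hu.trans rf.symm, rfl, rfl⟩))
    · exact mv_fix (H.disj_sb _ _ _ (hu.trans r2.symm) d23) (dj f2.2.2.1) (dj f2.2.2.2.1)
  · refine ⟨sb f' u, ⟨sb g₂ u, ⟨sb g₂ u, ?_, ?_⟩, ?_⟩, ?_⟩
    · exact mv_fix (H.disj_sb _ _ _ hu d23) (dj f2.2.2.2.1) (dj f2.2.2.1)
    · exact mv_fix (H.disj_sb _ _ _ hu (H.disj_symm _ _ d12)) (dj f2.2.2.1) (dj f2.2.2.2.1)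
    · exact Or.inl ⟨u, hu, rfl, rfl⟩
    · exact Or.inr (Or.inr (Or.inl ⟨u, (hu.trans r2).trans rf'.symm, rfl, rfl⟩))
  · refine ⟨sb g₁ u, ⟨sb g₁ u, ⟨sb f' u, ?_, ?_⟩, ?_⟩, ?_⟩
    · exact Or.inl ⟨u, hu, rfl, rfl⟩
    · exact Or.inr (Or.inr (Or.inl ⟨u, (hu.trans r3).trans rf'.symm, rfl, rfl⟩))
    · exact mv_fix (H.disj_sb _ _ _ (hu.trans r3) d12) (dj f1.2.2.2.1) (dj f1.2.2.1)
    · exact mv_fix (H.disj_sb _ _ _ (hu.trans r3) d13) (dj f1.2.2.1) (dj f1.2.2.2.1)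
  · refine ⟨a', ⟨a', ⟨a', ?_, ?_⟩, ?_⟩, ?_⟩
    · exact mv_fix n3 (dj k2.symm) (dj k1.symm)
    · exact mv_fix n1 (dj k1.symm) (dj k2.symm)
    · exact mv_fix n2 (dj k2.symm) (dj k1.symm)
    · exact mv_fix n3 (dj k1.symm) (dj k2.symm)

theorem cj_tri (H : ShapeF) {d x : D3G G} (S : Sys Dc d) (I : Is d x) {g₁ g₂ g₃ : Box}
    (q : Tri g₁ g₂ g₃) : Cj x (x g₁ g₂ g₃) (Mv g₁ g₂ g₃) := by
  intro a b c a' b' c' t ma mb mc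
  obtain ⟨f, f', hf, k1, k2⟩ := fresh2 H q.1 q.2.1 [a.1, b.1, c.1] (by simp)
  simp only [List.mem_cons, not_or, List.not_mem_nil, not_false_eq_true, and_true] at k1 k2
  have k := cj_mul (cj_mul (cj_mul (cj_dc H S I (dc_sw hf.2.2)) (cj_dc H S I hf.1))
    (cj_dc H S I (dc_sw hf.2.1))) (cj_dc H S I hf.2.2) a b c a' b' c' t
    (chain H q hf k1.1 k2.1 ma) (chain H q hf k1.2.1 k2.2.1 mb) (chain H q hf k1.2.2 k2.2.2 mc)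
  rw [I g₁ g₂ g₃ f f' q hf, W]
  simpa only [mul_assoc] using k

/-- three slots are moved to fresh copies -/
theorem spread (H : ShapeF) {d x : D3G G} (S : Sys Dc d) (I : Is d x) {a b e : Box}
    (t : Tri a b e) (i : Fin 40) : ∃ (h : G) (R : Box → Box → Prop) (a' b' e' : Box),
      Cj x h R ∧ Dc a' b' e' ∧ Ty a a' ∧ a'.1 ≠ i ∧ b'.1 ≠ i ∧ e'.1 ≠ i ∧
      (∀ z z', Mo a a' z z' → R z z') ∧ (∀ z z', Mo b b' z z' → R z z') ∧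
      (∀ z z', Mo e e' z z' → R z z') ∧ ∀ z, z.1 = i → D3 z a b e → R z z := by
  obtain ⟨t2, t3, d12, d13, d23⟩ := t
  obtain ⟨k, hk, k0⟩ := fresh1 H t2 [i, a.1, b.1, e.1] (by simp)
  obtain ⟨a', ha, a0⟩ := fresh1 H t2 [i, a.1, b.1, e.1, k.1] (by simp)
  obtain ⟨b', hb, b0⟩ := fresh1 H t2 [i, a.1, b.1, e.1, k.1, a'.1] (by simp)
  obtain ⟨e', he, e0⟩ := fresh1 H t2 [i, a.1, b.1, e.1, k.1, a'.1, b'.1] (by simp)
  simp only [List.mem_cons, not_or, List.not_mem_nil, not_false_eq_true, and_true] at k0 a0 b0 e0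
  obtain ⟨k1, k2, k3, k4⟩ := k0
  obtain ⟨a1, a2, a3, a4, a5⟩ := a0
  obtain ⟨b1, b2, b3, b4, b5, b6⟩ := b0
  obtain ⟨e1, e2, e3, e4, e5, e6, e7⟩ := e0
  have qa : Dc a a' k := dc_mk (ty_rfl ha) ha hk (Ne.symm a2) (Ne.symm k2) a5
  have qb : Dc b b' k := dc_mk t2 hb hk (Ne.symm b3) (Ne.symm k3) b5
  have qe : Dc e e' k := dc_mk t3 he hk (Ne.symm e4) (Ne.symm k4) e5
  refine ⟨_, _, a', b', e', cj_mul (cj_mul (cj_dc H S I qa) (cj_dc H S I qb)) (cj_dc H S I qe),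
    dc_mk ha hb he (Ne.symm b6) (Ne.symm e6) (Ne.symm e7), ha, a1, b1, e1, ?_, ?_, ?_, ?_⟩
  · rintro _ _ ⟨u, hu, rfl, rfl⟩
    exact ⟨sb a' u, ⟨sb a' u, Or.inl ⟨u, hu, rfl, rfl⟩,
      mv_fix (dj a3) (dj (Ne.symm b6)) (dj a5)⟩, mv_fix (dj a4) (dj (Ne.symm e6)) (dj a5)⟩
  · rintro _ _ ⟨u, hu, rfl, rfl⟩
    exact ⟨sb b' u, ⟨sb b u, mv_fix (H.disj_sb _ _ _ hu (H.disj_symm _ _ d12))
      (dj (Ne.symm a3)) (dj (Ne.symm k3)), Or.inl ⟨u, hu, rfl, rfl⟩⟩,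
      mv_fix (dj b4) (dj (Ne.symm e7)) (dj b5)⟩
  · rintro _ _ ⟨u, hu, rfl, rfl⟩
    exact ⟨sb e u, ⟨sb e u, mv_fix (H.disj_sb _ _ _ hu (H.disj_symm _ _ d13))
      (dj (Ne.symm a4)) (dj (Ne.symm k4)), mv_fix (H.disj_sb _ _ _ hu (H.disj_symm _ _ d23))
      (dj (Ne.symm b4)) (dj (Ne.symm k4))⟩, Or.inl ⟨u, hu, rfl, rfl⟩⟩
  · rintro z rfl ⟨n1, n2, n3⟩
    exact ⟨z, ⟨z, mv_fix n1 (dj (Ne.symm a1)) (dj (Ne.symm k1)),
      mv_fix n2 (dj (Ne.symm b1)) (dj (Ne.symm k1))⟩,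
      mv_fix n3 (dj (Ne.symm e1)) (dj (Ne.symm k1))⟩

theorem sys_tri (H : ShapeF) (B : BasF) {d x : D3G G} (S : Sys Dc d) (I : Is d x) :
    Sys Tri x where
  cyc := by
    intro a b c t
    have r2 : ar a.2 = ar b.2 := t.1.2.2.1
    have r3 : ar a.2 = ar c.2 := t.2.1.2.2.1
    exact mul_right_cancel (cj_tri H S I t a b c b c a t (Or.inl (H.mo_self _ _ r2))
      (Or.inr (Or.inl (H.mo_self _ _ (r2.symm.trans r3))))
      (Or.inr (Or.inr (Or.inl (H.mo_self _ _ r3.symm))))).2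
  inv := by
    intro a b c t
    obtain ⟨h, R, a', b', c', k, q, ta, -, -, -, ra, rb, rc, -⟩ := spread H S I t a.1
    have ma := ra _ _ (H.mo_self _ _ ta.2.2.1)
    have mb := rb _ _ (H.mo_self _ _ (ty_tr (ty_tr (ty_sy t.1) ta) q.1).2.2.1)
    have mc := rc _ _ (H.mo_self _ _ (ty_tr (ty_tr (ty_sy t.2.1) ta) q.2.1).2.2.1)
    have e1 := (k _ _ _ _ _ _ t ma mb mc).2
    have e2 := (k _ _ _ _ _ _ (H.sy_tri _ _ _ t).2 ma mc mb).2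
    rw [is_eq H B S I q] at e1
    rw [is_eq H B S I (dc_sw q)] at e2
    refine mul_left_cancel (a := h) ?_
    rw [← mul_assoc, e2, mul_assoc, e1, ← mul_assoc, S.inv _ _ _ q, one_mul, mul_one]
  tri := by
    intro a b e f t t1 t2
    obtain ⟨h, R, a', b', e', k, q, ta, n1, n2, n3, ra, rb, re, rf⟩ := spread H S I t f.1
    have ma := ra _ _ (H.mo_self _ _ ta.2.2.1)
    have mb := rb _ _ (H.mo_self _ _ (ty_tr (ty_tr (ty_sy t.1) ta) q.1).2.2.1)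
    have me := re _ _ (H.mo_self _ _ (ty_tr (ty_tr (ty_sy t.2.1) ta) q.2.1).2.2.1)
    have mf := rf f rfl ⟨H.disj_symm _ _ t2.2.2.1, H.disj_symm _ _ t1.2.2.2.1, t2.2.2.2.2⟩
    have tf : Ty a' f := ty_tr (ty_sy ta) t2.1
    have q1 : Dc b' e' f := dc_mk q.1 q.2.1 tf q.2.2.2.2 n2 n3
    have q2 : Dc a' f e' := dc_mk (ty_rfl tf) tf q.2.1 n1 q.2.2.2.1 n3.symm
    have e0 := (k _ _ _ _ _ _ t ma mb me).2
    have e1 := (k _ _ _ _ _ _ t1 mb me mf).2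
    have e2 := (k _ _ _ _ _ _ t2 ma mf me).2
    rw [is_eq H B S I q] at e0
    rw [is_eq H B S I q1] at e1
    rw [is_eq H B S I q2] at e2
    refine mul_left_cancel (a := h) ?_
    rw [← mul_assoc, e1, mul_assoc, e2, ← mul_assoc, S.tri _ _ _ _ q q1 q2, e0]
  split := by
    intro a b c i t hi tk
    obtain ⟨h, R, a', b', c', k, q, ta, -, -, -, ra, rb, rc, -⟩ := spread H S I t a.1
    have pa := ta.2.2.1
    have pb := (ty_tr (ty_tr (ty_sy t.1) ta) q.1).2.2.1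
    have pc := (ty_tr (ty_tr (ty_sy t.2.1) ta) q.2.1).2.2.1
    have hi' : i < ar a'.2 := pa ▸ hi
    have qk : ∀ o, Dc (kd a' i o) (kd b' i o) (kd c' i o) := fun o =>
      ⟨H.ty_kd _ _ _ _ _ q.1 hi' hi', H.ty_kd _ _ _ _ _ q.2.1 hi' hi', q.2.2.1, q.2.2.2.1,
        q.2.2.2.2⟩
    have e0 := (k _ _ _ _ _ _ t (ra _ _ (H.mo_self _ _ pa)) (rb _ _ (H.mo_self _ _ pb))
      (rc _ _ (H.mo_self _ _ pc))).2
    have ek : ∀ o, h * x (kd a i o) (kd b i o) (kd c i o) =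
        d (kd a' i o) (kd b' i o) (kd c' i o) * h := fun o => by
      rw [← is_eq H B S I (qk o)]
      exact (k _ _ _ _ _ _ (tk o) (ra _ _ (H.mo_kd _ _ _ _ i o pa (H.mo_self _ _ pa)))
        (rb _ _ (H.mo_kd _ _ _ _ i o pb (H.mo_self _ _ pb)))
        (rc _ _ (H.mo_kd _ _ _ _ i o pc (H.mo_self _ _ pc)))).2
    rw [is_eq H B S I q, S.split _ _ _ i q hi' qk] at e0
    refine mul_left_cancel (a := h) ?_
    rw [e0, ← mul_assoc, ← mul_assoc, ek, mul_assoc _ h, ek, ← mul_assoc, mul_assoc _ h, ek,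
      ← mul_assoc]
  conj := fun g₁ g₂ g₃ a b c a' b' c' q t _ ma mb mc =>
    (cj_tri H S I q a b c a' b' c' t ma mb mc).2

end Dblx

/-- Row DBL. -/
theorem dbl_main : SpDbl := by
  intro H B G _ d S
  obtain ⟨x, I⟩ := Dblx.ex_is H B S
  exact ⟨x, Dblx.sys_tri H B S I, fun a b c t => Dblx.is_eq H B S I t⟩

end Pool.Agent.MP_89edc2_al.R3
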