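import Pool.Agent.MP_89edc2_al.K76.Spec

/-!
# A finitely presented residually finite group of non-uniform exponential growth: the model

Cells are three binary stacks in one of forty copies.  A box prescribes on every stack an initial
word, and says whether the stack is exactly this word or continues freely.
-/

namespace Pool.Agent.MP_89edc2_al.R3

open scoped commutatorElement

/-- a word, and the flag `true` if the stack is exactly this word -/
abbrev Ent : Type := List Bool × Bool
abbrev Shape : Type := List Ent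
abbrev Box : Type := Fin 40 × Shape
/-- the cells -/
abbrev X : Type := Fin 40 × List (List Bool)

/-- arity: the number of free stacks -/
def ar : Shape → ℕ
  | [] => 0
  | (_, true) :: σ => ar σ
  | (_, false) :: σ => ar σ + 1

/-- degree: the number of letters -/
def dg : Shape → ℕ
  | [] => 0
  | e :: σ => e.1.length + dg σ

/-- weight: letters and end marks -/
def wt : Shape → ℕ
  | [] => 0
  | (w, true) :: σ => w.length + 1 + wt σ
  | (w, false) :: σ => w.length + wt σ

/-- composition of shapes -/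
def comp : Shape → Shape → Shape
  | [], _ => []
  | (w, true) :: σ, τ => (w, true) :: comp σ τ
  | (_, false) :: _, [] => []
  | (w, false) :: σ, e :: τ => (w ++ e.1, e.2) :: comp σ τ

/-- append a letter or the end mark -/
def push (w : List Bool) : Option Bool → Ent
  | none => (w, true)
  | some e => (w ++ [e], false)

/-- the child in the free direction `i` -/
def kid : Shape → ℕ → Option Bool → Shape
  | [], _, _ => []
  | (w, true) :: σ, i, o => (w, true) :: kid σ i o
  | (w, false) :: σ, 0, o => push w o :: σ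
  | (w, false) :: σ, i + 1, o => (w, false) :: kid σ i o

/-- the identity shape -/
def idS (c : ℕ) : Shape := List.replicate c ([], false)

/-- the index of direction `j` after the step `(i, o)` -/
def adj (i : ℕ) (o : Option Bool) (j : ℕ) : ℕ := if o = none ∧ i < j then j - 1 else j

/-- the word with its end mark -/
def wd (e : Ent) : List (Option Bool) := e.1.map some ++ (if e.2 then [none] else [])

/-- incomparable entries -/
def Inc (e e' : Ent) : Prop := ¬ wd e <+: wd e' ∧ ¬ wd e' <+: wd e

/-- incomparable on some stack -/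
def DisjS : Shape → Shape → Prop
  | e :: σ, e' :: σ' => Inc e e' ∨ DisjS σ σ'
  | _, _ => False

/-- all free words have length at least `M` -/
def Deep (M : ℕ) (σ : Shape) : Prop := ∀ e ∈ σ, e.2 = false → M ≤ e.1.length

/-- all words have length at most `n` -/
def Le (n : ℕ) (σ : Shape) : Prop := ∀ e ∈ σ, e.1.length ≤ n

/-- the length of the free word number `i` -/
def fw : Shape → ℕ → ℕ
  | [], _ => 0
  | (_, true) :: σ, i => fw σ i
  | (w, false) :: _, 0 => w.length
  | (_, false) :: σ, i + 1 => fw σ i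

/-- the product over the three children -/
def p3 {G : Type} [Mul G] (f : Option Bool → G) : G := f none * f (some false) * f (some true)

/-- evaluation of a shape -/
def ev : Shape → List (List Bool) → List (List Bool)
  | [], _ => []
  | (w, true) :: σ, u => w :: ev σ u
  | (_, false) :: _, [] => []
  | (w, false) :: σ, s :: u => (w ++ s) :: ev σ u

/-- reference shapes: reached by steps in direction zero -/
def Ref : Shape → Prop
  | [] => True
  | (_, true) :: σ => Ref σ
  | (_, false) :: σ => σ = idS σ.length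

/-- reference shapes whose last step is a letter -/
def Mx : Shape → Prop
  | [] => False
  | (_, true) :: σ => Mx σ
  | (w, false) :: σ => w ≠ [] ∧ σ = idS σ.length

/-- child of a box -/
def kd (b : Box) (i : ℕ) (o : Option Bool) : Box := (b.1, kid b.2 i o)

/-- sub-box -/
def sb (b : Box) (u : Shape) : Box := (b.1, comp b.2 u)

/-- the whole copy -/
def root (i : Fin 40) : Box := (i, idS 3)

/-- disjoint boxes -/
def Disj (b b' : Box) : Prop := b.1 ≠ b'.1 ∨ DisjS b.2 b'.2

/-- boxes of the same type -/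
def Ty (b b' : Box) : Prop :=
  b.2.length = 3 ∧ b'.2.length = 3 ∧ ar b.2 = ar b'.2 ∧ dg b.2 = dg b'.2

/-- three disjoint boxes of one type -/
def Tri (a b c : Box) : Prop := Ty a b ∧ Ty a c ∧ Disj a b ∧ Disj a c ∧ Disj b c

/-- three boxes of one type in different copies -/
def Dc (a b c : Box) : Prop := Ty a b ∧ Ty a c ∧ a.1 ≠ b.1 ∧ a.1 ≠ c.1 ∧ b.1 ≠ c.1

/-- the same, of weight at most `l` -/
def Lw (l : ℕ) (a b c : Box) : Prop := Dc a b c ∧ wt a.2 ≤ l

/-- the same, of weight `l + 1` -/
def Hi (l : ℕ) (a b c : Box) : Prop := Dc a b c ∧ wt a.2 = l + 1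

/-- reference boxes -/
def RB (b : Box) : Prop := b.2.length = 3 ∧ Ref b.2

/-- the reference partition of degree `K` -/
def Pi (K : ℕ) (b : Box) : Prop := b.2.length = 3 ∧ Mx b.2 ∧ dg b.2 = K

/-- `b` lies in `g` and goes to the same place in `g'` -/
def Mo (g g' b b' : Box) : Prop := ∃ u : Shape, u.length = ar g.2 ∧ b = sb g u ∧ b' = sb g' u

/-- the cycle `g₁ → g₂ → g₃ → g₁` moves `b` to `b'` -/
def Mv (g₁ g₂ g₃ b b' : Box) : Prop :=
  Mo g₁ g₂ b b' ∨ Mo g₂ g₃ b b' ∨ Mo g₃ g₁ b b' ∨ (b' = b ∧ Disj b g₁ ∧ Disj b g₂ ∧ Disj b g₃)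

/-- the cycle moves a triple -/
def Mv3 (g₁ g₂ g₃ a b c a' b' c' : Box) : Prop :=
  Mv g₁ g₂ g₃ a a' ∧ Mv g₁ g₂ g₃ b b' ∧ Mv g₁ g₂ g₃ c c'

/-- `z` is disjoint from three boxes -/
def D3 (z a b c : Box) : Prop := Disj z a ∧ Disj z b ∧ Disj z c

/-- boxes of arity `c` and weight `l + 1` -/
def HT (l c : ℕ) (b : Box) : Prop := b.2.length = 3 ∧ ar b.2 = c ∧ wt b.2 = l + 1

/-- reference boxes of degree at most `M` -/
def RM (M : ℕ) (b : Box) : Prop := RB b ∧ dg b.2 ≤ M

/-- reference boxes of arity three and degree `m` -/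
def RT (m : ℕ) (b : Box) : Prop := RB b ∧ ar b.2 = 3 ∧ dg b.2 = m

/-- sets of pairwise disjoint boxes -/
def PD (J : Set Box) : Prop :=
  (∀ a ∈ J, a.2.length = 3) ∧ ∀ a ∈ J, ∀ b ∈ J, a ≠ b → Disj a b

/-- symmetric admissibility -/
def Sy (A : Box → Box → Box → Prop) : Prop := ∀ a b c, A a b c → A b c a ∧ A a c b

/-- templates -/
def Tp (u₁ u₂ u₃ : Shape) : Prop :=
  (∀ u ∈ [u₁, u₂, u₃], 1 ≤ u.length ∧ u.length ≤ 3 ∧ wt u ≤ 3) ∧
    ar u₁ = ar u₂ ∧ ar u₁ = ar u₃ ∧ dg u₁ = dg u₂ ∧ dg u₁ = dg u₃

/-- the relations, for the admissible triples `A` -/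
structure Sys {G : Type} [Group G] (A : Box → Box → Box → Prop) (d : Box → Box → Box → G) :
    Prop where
  cyc : ∀ a b c, A a b c → d a b c = d b c a
  inv : ∀ a b c, A a b c → d a c b * d a b c = 1
  tri : ∀ a b e f, A a b e → A b e f → A a f e → d b e f * d a f e = d a b e
  split : ∀ a b c i, A a b c → i < ar a.2 → (∀ o, A (kd a i o) (kd b i o) (kd c i o)) →
    d a b c = d (kd a i none) (kd b i none) (kd c i none) *
      d (kd a i (some false)) (kd b i (some false)) (kd c i (some false)) *
      d (kd a i (some true)) (kd b i (some true)) (kd c i (some true))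
  conj : ∀ g₁ g₂ g₃ a b c a' b' c', A g₁ g₂ g₃ → A a b c → A a' b' c' → Mv g₁ g₂ g₃ a a' →
    Mv g₁ g₂ g₃ b b' → Mv g₁ g₂ g₃ c c' → d g₁ g₂ g₃ * d a b c = d a' b' c' * d g₁ g₂ g₃

/-- the universal system -/
structure Univ {G : Type} [Group G] (d : Box → Box → Box → G) : Prop where
  full : Sys Tri d
  gen : ∀ L : Subgroup G, (∀ a b c, Lw 3 a b c → d a b c ∈ L) → L = ⊤
  lift : ∀ (H : Type) [Group H] (d' : Box → Box → Box → H), Sys Tri d' →
    ∃ φ : G →* H, ∀ a b c, Tri a b c → φ (d a b c) = d' a b c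

/-! ## Charts and patterns -/

abbrev Chart : Type := Fin 40 × (Fin 3 → List Bool)
abbrev Pat : Type := Fin 3 → Option Bool

/-- the degree of a chart -/
def cd (χ : Chart) : ℕ := (χ.2 0).length + (χ.2 1).length + (χ.2 2).length

/-- one entry of `ap` -/
def apE (w : List Bool) (o : Option Bool) (on : Bool) : Ent := if on then push w o else (w, false)

/-- the chart with the letters of `t` on the stacks of `A` -/
def ap (χ : Chart) (t : Pat) (A : Fin 3 → Bool) : Box :=
  (χ.1, [apE (χ.2 0) (t 0) (A 0), apE (χ.2 1) (t 1) (A 1), apE (χ.2 2) (t 2) (A 2)])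

/-- all three letters -/
def gd (χ : Chart) (t : Pat) : Box := ap χ t fun _ => true

/-- no letter -/
def ch (χ : Chart) : Box := ap χ (fun _ => none) fun _ => false

/-- all letters but the one on stack `a` -/
def fl (χ : Chart) (t : Pat) (a : Fin 3) : Box := ap χ t fun a' => decide (a' ≠ a)

/-- the number of free stacks of a pattern -/
def cnt (t : Pat) : ℕ := (Finset.univ.filter fun a => (t a).isSome = true).card

/-- the free direction of stack `a` -/
def dir (t : Pat) (a : Fin 3) : ℕ :=
  (Finset.univ.filter fun a' => a' < a ∧ (t a').isSome = true).card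

/-- the free direction of stack `a` in `ap χ t A` -/
def idx (t : Pat) (A : Fin 3 → Bool) (a : Fin 3) : ℕ :=
  (Finset.univ.filter fun a' => a' < a ∧ ¬ (A a' = true ∧ t a' = none)).card

/-- the set with the single stack `a` -/
def one (a : Fin 3) : Fin 3 → Bool := fun a' => decide (a' = a)

/-- three charts of degree `l - 2` in different copies -/
def V3 (l : ℕ) (χ₁ χ₂ χ₃ : Chart) : Prop :=
  cd χ₁ + 2 = l ∧ cd χ₂ + 2 = l ∧ cd χ₃ + 2 = l ∧ χ₁.1 ≠ χ₂.1 ∧ χ₁.1 ≠ χ₃.1 ∧ χ₂.1 ≠ χ₃.1

/-- the base pattern with `c` free stacks -/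
def base (c : ℕ) : Pat := fun a => if a.val + c < 3 then none else some false

/-- the patterns share the edge opposite to `a`, `a'` -/
def EM (t : Pat) (a : Fin 3) (t' : Pat) (a' : Fin 3) : Prop :=
  (∀ k : Fin 2, t (a.succAbove k) = t' (a'.succAbove k)) ∧
    ((t a = none ∧ t' a' = none) ∨ (a = a' ∧ t a ≠ none ∧ t' a' ≠ none))

/-! ## Permutations of the cells -/

/-- the cell of the box `b` with coordinates `u` -/
def cell (b : Box) (u : List (List Bool)) : X := (b.1, ev b.2 u)

/-- the level of a cell -/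
def lev (x : X) : ℕ := (x.2.map List.length).sum

def In (b : Box) (x : X) : Prop := ∃ u : List (List Bool), u.length = ar b.2 ∧ x = cell b u

/-- `g` carries `b` to `b'` -/
def Car (g : Equiv.Perm X) (b b' : Box) : Prop :=
  ∀ u : List (List Bool), u.length = ar b.2 → g (cell b u) = cell b' u

/-- the same above level `K` -/
def CarK (K : ℕ) (g : Equiv.Perm X) (b b' : Box) : Prop :=
  ∀ u : List (List Bool), u.length = ar b.2 → K < lev (cell b u) → g (cell b u) = cell b' u

/-- supported in `b` -/
def On (g : Equiv.Perm X) (b : Box) : Prop := ∀ x, ¬ In b x → g x = x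

/-- supported outside `b` -/
def Off (g : Equiv.Perm X) (b : Box) : Prop := ∀ x, In b x → g x = x

def IsCyc (g : Equiv.Perm X) (a b c : Box) : Prop :=
  Car g a b ∧ Car g b c ∧ Car g c a ∧ ∀ x, ¬ In a x → ¬ In b x → ¬ In c x → g x = x

def IsBak (g : Equiv.Perm X) (ρ : Box) (i : ℕ) : Prop :=
  (∀ o, Car g (kd ρ 0 o) (kd ρ i o)) ∧ On g ρ

def IsRes (K : ℕ) (g g' : Equiv.Perm X) : Prop := ∀ x, g' x = if K < lev x then g x else x

/-- a transposition of two boxes above level `K` -/
def IsTr (K : ℕ) (g : Equiv.Perm X) (a b : Box) : Prop :=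
  CarK K g a b ∧ CarK K g b a ∧ ∀ x, ¬ In a x → ¬ In b x → g x = x

/-- the exchange of the first two letters above level `K` -/
def IsSq (K : ℕ) (g : Equiv.Perm X) (ρ : Box) : Prop :=
  (∀ o o', CarK K g (kd (kd ρ 0 o) 0 o') (kd (kd ρ 0 o') 0 o)) ∧ On g ρ

open Classical in
/-- the cycle of three boxes -/
noncomputable def cyc (a b c : Box) : Equiv.Perm X :=
  if h : ∃ g, IsCyc g a b c then h.choose else 1

open Classical in
/-- the baker map from direction zero to direction `i` -/
noncomputable def bak (ρ : Box) (i : ℕ) : Equiv.Perm X :=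
  if h : ∃ g, IsBak g ρ i then h.choose else 1

open Classical in
/-- the part above level `K` -/
noncomputable def res (K : ℕ) (g : Equiv.Perm X) : Equiv.Perm X :=
  if h : ∃ g', IsRes K g g' then h.choose else 1

/-- the group generated by cycles and baker maps -/
def Gam : Subgroup (Equiv.Perm X) :=
  Subgroup.closure {g | (∃ a b c, Tri a b c ∧ g = cyc a b c) ∨
    ∃ ρ i, ρ.2.length = 3 ∧ i < ar ρ.2 ∧ g = bak ρ i}

/-- the group generated by the cycles of points of degree at most `K` -/
def FK {G : Type} [Group G] (d : Box → Box → Box → G) (K : ℕ) : Subgroup G :=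
  Subgroup.closure {g | ∃ a b c, Tri a b c ∧ ar a.2 = 0 ∧ dg a.2 ≤ K ∧ g = d a b c}

/-- the group generated by the cycles of boxes in `J` -/
def HJ {G : Type} [Group G] (d : Box → Box → Box → G) (J : Set Box) : Subgroup G :=
  Subgroup.closure {g | ∃ a ∈ J, ∃ b ∈ J, ∃ c ∈ J, Tri a b c ∧ g = d a b c}

/-- the action on the cells -/
structure Act {G : Type} [Group G] (d : Box → Box → Box → G) (π : G →* Equiv.Perm X) : Prop where
  pd : ∀ a b c, Tri a b c → π (d a b c) = cyc a b c
  mem : ∀ w, π w ∈ Gam
  cr : ∀ w a b c a' b' c', Tri a b c → Tri a' b' c' → Ty a a' → Car (π w) a a' →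
    Car (π w) b b' → Car (π w) c c' → w * d a b c * w⁻¹ = d a' b' c'

/-! ## Trees -/

/-- trees of subdivisions -/
inductive Tr : Type
  | leaf : Tr
  | node : ℕ → (Option Bool → Tr) → Tr

/-- the element of a tree -/
def bh {H : Type} [Group H] (B : Box → ℕ → H) : Box → Tr → H
  | _, .leaf => 1
  | ρ, .node i T => B ρ i * (bh B (kd ρ 0 none) (T none) *
      bh B (kd ρ 0 (some false)) (T (some false)) * bh B (kd ρ 0 (some true)) (T (some true)))

/-- valid trees with nodes of degree at most `M` -/
def Ok (M : ℕ) : Box → Tr → Prop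
  | _, .leaf => True
  | ρ, .node i T => i < ar ρ.2 ∧ dg ρ.2 ≤ M ∧ ∀ o, Ok M (kd ρ 0 o) (T o)

/-- `r` is a reference leaf and `l` the actual leaf -/
def Lv : Tr → Box → Box → Box → Box → Prop
  | .leaf, ρ, b, r, l => r = ρ ∧ l = b
  | .node i T, ρ, b, r, l => ∃ o, Lv (T o) (kd ρ 0 o) (kd b i o) r l

/-- grafting trees on the actual leaves -/
def gr : Tr → Box → (Box → Tr) → Tr
  | .leaf, b, f => f b
  | .node i T, b, f => .node i fun o => gr (T o) (kd b i o) f

/-- trees of the grid of depth `n` -/
def Grid (n : ℕ) : Box → Tr → Prop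
  | b, .leaf => Deep n b.2
  | b, .node i T => i < ar b.2 ∧ fw b.2 i < n ∧ ∀ o, Grid n (kd b i o) (T o)

/-- two steps, first in direction `i`, then in direction `j` -/
def fT (i j : ℕ) (U : Option Bool → Option Bool → Tr) : Tr :=
  .node i fun o => .node (adj i o j) fun o' => U o o'

/-- the element of a forest -/
def bf {H : Type} [Group H] (B : Box → ℕ → H) (F : Fin 40 → Tr) : H :=
  (List.ofFn fun i => bh B (root i) (F i)).prod

/-- leaves of a forest -/
def LF (F : Fin 40 → Tr) (r l : Box) : Prop := ∃ i, Lv (F i) (root i) (root i) r l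

/-- grafting on a forest -/
def grF (F : Fin 40 → Tr) (f : Box → Tr) : Fin 40 → Tr := fun i => gr (F i) (root i) f

/-- valid forests -/
def OkF (M : ℕ) (F : Fin 40 → Tr) : Prop := ∀ i, Ok M (root i) (F i)

end Pool.Agent.MP_89edc2_al.R3
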