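import Pool.Agent.MP_89edc2_al.R3.Spec2

/-! Exponential growth: two elements that write arbitrary words. -/

namespace Pool.Agent.MP_89edc2_al.R3

namespace Expox

/-- a zero on the last stack -/
def bz (i : Fin 40) : Box := (i, [([], false), ([], false), ([false], false)])

/-- the letter `e` on the middle stack -/
def be (e : Bool) : Box := (1, [([], false), ([e], false), ([], false)])

theorem tri1 (e : Bool) : Tri (bz 0) (be e) (bz 2) :=
  ⟨⟨rfl, rfl, rfl, rfl⟩, ⟨rfl, rfl, rfl, rfl⟩, Or.inl (by simp [bz, be]),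
    Or.inl (by simp [bz]), Or.inl (by simp [bz, be])⟩

theorem tri2 : Tri (root 1) (root 0) (root 2) :=
  ⟨⟨rfl, rfl, rfl, rfl⟩, ⟨rfl, rfl, rfl, rfl⟩, Or.inl (by simp [root]),
    Or.inl (by simp [root]), Or.inl (by simp [root])⟩

end Expox

open Expox

theorem exp_main : SpExp := by
  intro _ S G _ d π A
  let g : Bool → G := fun e => d (root 1) (root 0) (root 2) * d (bz 0) (be e) (bz 2)
  have h1 : ∀ (e : Bool) (a b c : List Bool),
      π (g e) ((0 : Fin 40), [a, b, false :: c]) = ((0 : Fin 40), [a, e :: b, c]) := by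
    intro e a b c
    have e1 : cyc (bz 0) (be e) (bz 2) ((0 : Fin 40), [a, b, false :: c]) =
        ((1 : Fin 40), [a, e :: b, c]) := (S.cyc_spec _ _ _ (tri1 e)).1 [a, b, c] rfl
    have e2 : cyc (root 1) (root 0) (root 2) ((1 : Fin 40), [a, e :: b, c]) =
        ((0 : Fin 40), [a, e :: b, c]) := (S.cyc_spec _ _ _ tri2).1 [a, e :: b, c] rfl
    rw [map_mul, A.pd _ _ _ (tri1 e), A.pd _ _ _ tri2, Equiv.Perm.mul_apply, e1, e2]
  have h2 : ∀ l s : List Bool, π (l.map g).prod
      ((0 : Fin 40), [[], [], List.replicate l.length false ++ s]) =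
        ((0 : Fin 40), [[], l, s]) := by
    intro l
    induction l with
    | nil => intro s; simp
    | cons e l ih =>
      intro s
      rw [List.map_cons, List.prod_cons, map_mul, Equiv.Perm.mul_apply, List.length_cons,
        List.replicate_succ', List.append_assoc, ih, List.singleton_append, h1]
  refine ⟨g, fun l l' hl e => ?_⟩
  have h3 := h2 l []
  rw [e, hl, h2] at h3
  simpa using h3.symm

end Pool.Agent.MP_89edc2_al.R3
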