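import Pool.Agent.MP_89edc2_al.R3.Spec2

/-!
# Extension of a system from deep boxes
-/

namespace Pool.Agent.MP_89edc2_al.R3

namespace Extx

variable {G : Type} [Group G]

theorem p3_mul {x y : Option Bool → G} (h : ∀ o o', o ≠ o' → Commute (x o) (y o')) :
    p3 x * p3 y = p3 fun o => x o * y o := by
  have h1 := h (some false) none (by simp)
  have h2 := h (some true) none (by simp)
  have h3 := h (some true) (some false) (by simp)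
  simp only [p3]
  rw [(h2.mul_right h3).mul_mul_mul_comm, h1.mul_mul_mul_comm]

theorem p3_swap {y : Option Bool → Option Bool → G}
    (h : ∀ o p o' p', o ≠ p → Commute (y o o') (y p p')) :
    p3 (fun o => p3 (y o)) = p3 fun o' => p3 fun o => y o o' := by
  show p3 (y none) * p3 (y (some false)) * p3 (y (some true)) = _
  rw [p3_mul fun _ _ _ => h _ _ _ _ (by simp),
    p3_mul fun _ _ _ => (h _ _ _ _ (by simp)).mul_left (h _ _ _ _ (by simp))]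
  rfl

theorem p3_comm {x : Option Bool → G} {y : G} (h : ∀ o, Commute (x o) y) : Commute (p3 x) y :=
  ((h _).mul_left (h _)).mul_left (h _)

/-- two triples with disjoint boxes -/
def D9 (a b c g₁ g₂ g₃ : Box) : Prop := D3 a g₁ g₂ g₃ ∧ D3 b g₁ g₂ g₃ ∧ D3 c g₁ g₂ g₃

theorem d9l (F : ShapeF) {a b c g₁ g₂ g₃ : Box} (h : D9 a b c g₁ g₂ g₃) (i o) :
    D9 (kd a i o) (kd b i o) (kd c i o) g₁ g₂ g₃ :=
  ⟨⟨F.disj_kd _ _ _ _ h.1.1, F.disj_kd _ _ _ _ h.1.2.1, F.disj_kd _ _ _ _ h.1.2.2⟩,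
    ⟨F.disj_kd _ _ _ _ h.2.1.1, F.disj_kd _ _ _ _ h.2.1.2.1, F.disj_kd _ _ _ _ h.2.1.2.2⟩,
    F.disj_kd _ _ _ _ h.2.2.1, F.disj_kd _ _ _ _ h.2.2.2.1, F.disj_kd _ _ _ _ h.2.2.2.2⟩

theorem d9s (F : ShapeF) {a b c g₁ g₂ g₃ : Box} (h : D9 a b c g₁ g₂ g₃) : D9 g₁ g₂ g₃ a b c :=
  ⟨⟨F.disj_symm _ _ h.1.1, F.disj_symm _ _ h.2.1.1, F.disj_symm _ _ h.2.2.1⟩,
    ⟨F.disj_symm _ _ h.1.2.1, F.disj_symm _ _ h.2.1.2.1, F.disj_symm _ _ h.2.2.2.1⟩,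
    F.disj_symm _ _ h.1.2.2, F.disj_symm _ _ h.2.1.2.2, F.disj_symm _ _ h.2.2.2.2⟩

theorem d9r (F : ShapeF) {a b c g₁ g₂ g₃ : Box} (h : D9 a b c g₁ g₂ g₃) (i o) :
    D9 a b c (kd g₁ i o) (kd g₂ i o) (kd g₃ i o) := d9s F (d9l F (d9s F h) i o)

theorem dk (F : ShapeF) {a b : Box} (h : Disj a b) (i o o') : Disj (kd a i o) (kd b i o') :=
  F.disj_kd _ _ _ _ (F.disj_symm _ _ (F.disj_kd _ _ _ _ (F.disj_symm _ _ h)))

theorem dk' (F : ShapeF) {a b : Box} (h : Disj a b) (i o o') : Disj (kd b i o) (kd a i o') :=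
  dk F (F.disj_symm _ _ h) i o o'

theorem arb {a b c : Box} (h : Tri a b c) {i : ℕ} (hi : i < ar a.2) : i < ar b.2 :=
  h.1.2.2.1 ▸ hi

theorem arc {a b c : Box} (h : Tri a b c) {i : ℕ} (hi : i < ar a.2) : i < ar c.2 :=
  h.2.1.2.2.1 ▸ hi

theorem d9k (F : ShapeF) {a b c : Box} (h : Tri a b c) {i : ℕ} (hi : i < ar a.2) {o o'}
    (ho : o ≠ o') : D9 (kd a i o) (kd b i o) (kd c i o) (kd a i o') (kd b i o') (kd c i o') :=
  ⟨⟨F.disj_kids _ _ _ _ hi ho, dk F h.2.2.1 _ _ _, dk F h.2.2.2.1 _ _ _⟩,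
    ⟨dk' F h.2.2.1 _ _ _, F.disj_kids _ _ _ _ (arb h hi) ho, dk F h.2.2.2.2 _ _ _⟩,
    dk' F h.2.2.2.1 _ _ _, dk' F h.2.2.2.2 _ _ _, F.disj_kids _ _ _ _ (arc h hi) ho⟩

theorem sq (F : ShapeF) {a : Box} {i j : ℕ} (hi : i < ar a.2) (hj : j < ar a.2) (h : i ≠ j)
    (o o') : kd (kd a j o') (adj j o' i) o = kd (kd a i o) (adj i o j) o' :=
  Prod.ext rfl (F.kid_sq a.2 i j o o' hi hj h).symm

/-- the values of a triple -/
inductive Val (f : D3G G) (D : Box → Prop) : Box → Box → Box → G → Prop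
  | leaf (a b c : Box) : D a → D b → D c → Val f D a b c (f a b c)
  | node (a b c : Box) (i : ℕ) (x : Option Bool → G) : i < ar a.2 →
      (∀ o, Val f D (kd a i o) (kd b i o) (kd c i o) (x o)) → Val f D a b c (p3 x)

/-- the hypotheses -/
structure Hy (f : D3G G) (D : Box → Prop) (n : ℕ) : Prop where
  F : ShapeF
  dp : ∀ b : Box, b.2.length = 3 → Deep n b.2 → D b
  sb : ∀ b (u : Shape), D b → u.length = ar b.2 → D (sb b u)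
  S : Sys (fun a b c => Tri a b c ∧ D a ∧ D b ∧ D c) f

namespace Hy

variable {f : D3G G} {D : Box → Prop} {n : ℕ} (H : Hy f D n)
include H

theorem kdD {b : Box} (h : D b) (i o) : D (kd b i o) := by
  have h1 := H.sb b (kid (idS (ar b.2)) i o) h (by rw [H.F.kid_len, H.F.id_len])
  have h2 : kd b i o = R3.sb b (kid (idS (ar b.2)) i o) := Prod.ext rfl (H.F.kid_eq b.2 i o)
  rwa [h2]

theorem spl {a b c : Box} (h : Tri a b c) (ha : D a) (hb : D b) (hc : D c) {i : ℕ}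
    (hi : i < ar a.2) : f a b c = p3 fun o => f (kd a i o) (kd b i o) (kd c i o) :=
  H.S.split a b c i ⟨h, ha, hb, hc⟩ hi fun o =>
    ⟨H.F.tri_kd _ _ _ _ _ h hi, H.kdD ha i o, H.kdD hb i o, H.kdD hc i o⟩

theorem comm0 {a b c : Box} {x : G} (v : Val f D a b c x) {g₁ g₂ g₃ : Box} (hg : Tri g₁ g₂ g₃)
    (h₁ : D g₁) (h₂ : D g₂) (h₃ : D g₃) (h : Tri a b c) (h9 : D9 a b c g₁ g₂ g₃) :
    Commute x (f g₁ g₂ g₃) := by
  induction v with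
  | leaf a b c ha hb hc =>
    exact (H.S.conj g₁ g₂ g₃ a b c a b c ⟨hg, h₁, h₂, h₃⟩ ⟨h, ha, hb, hc⟩ ⟨h, ha, hb, hc⟩
      (.inr (.inr (.inr ⟨rfl, h9.1⟩))) (.inr (.inr (.inr ⟨rfl, h9.2.1⟩)))
      (.inr (.inr (.inr ⟨rfl, h9.2.2⟩)))).symm
  | node a b c i x hi _ ih =>
    exact p3_comm fun o => ih o (H.F.tri_kd _ _ _ _ _ h hi) (d9l H.F h9 i o)

theorem comm {g₁ g₂ g₃ : Box} {y : G} (w : Val f D g₁ g₂ g₃ y) {a b c : Box} {x : G}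
    (v : Val f D a b c x) (hg : Tri g₁ g₂ g₃) (h : Tri a b c) (h9 : D9 a b c g₁ g₂ g₃) :
    Commute y x := by
  induction w with
  | leaf g₁ g₂ g₃ h₁ h₂ h₃ => exact (H.comm0 v hg h₁ h₂ h₃ h h9).symm
  | node g₁ g₂ g₃ i y hi _ ih =>
    exact p3_comm fun o => ih o (H.F.tri_kd _ _ _ _ _ hg hi) (d9r H.F h9 i o)

theorem pull {a b c : Box} {x : G} (v : Val f D a b c x) (h : Tri a b c) (j : ℕ)
    (hj : j < ar a.2) :
    ∃ y, (∀ o, Val f D (kd a j o) (kd b j o) (kd c j o) (y o)) ∧ x = p3 y := by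
  induction v generalizing j with
  | leaf a b c ha hb hc =>
    exact ⟨_, fun o => .leaf _ _ _ (H.kdD ha j o) (H.kdD hb j o) (H.kdD hc j o),
      H.spl h ha hb hc hj⟩
  | node a b c i x hi v ih =>
    by_cases hij : i = j
    · subst hij
      exact ⟨x, v, rfl⟩
    have hl := fun o => H.F.adj_lt a.2 i j o hi hj hij
    choose y hy hx using fun o => ih o (H.F.tri_kd _ _ _ _ _ h hi) (adj i o j) (hl o)
    refine ⟨fun o' => p3 fun o => y o o', fun o' => .node _ _ _ (adj j o' i) _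
      (H.F.adj_lt a.2 j i o' hj hi (Ne.symm hij)) fun o => ?_, ?_⟩
    · rw [sq H.F hi hj hij, sq H.F (arb h hi) (arb h hj) hij, sq H.F (arc h hi) (arc h hj) hij]
      exact hy o o'
    · rw [← p3_swap, funext hx]
      intro o p o' p' hop
      exact H.comm (hy o o') (hy p p')
        (H.F.tri_kd _ _ _ _ _ (H.F.tri_kd _ _ _ _ _ h hi) (hl o))
        (H.F.tri_kd _ _ _ _ _ (H.F.tri_kd _ _ _ _ _ h hi) (hl p))
        (d9l H.F (d9r H.F (d9k H.F h hi hop.symm) _ _) _ _)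

theorem lf {a b c : Box} {x : G} (v : Val f D a b c x) (h : Tri a b c) (ha : D a) (hb : D b)
    (hc : D c) : x = f a b c := by
  induction v with
  | leaf => rfl
  | node a b c i x hi _ ih =>
    rw [H.spl h ha hb hc hi, funext fun o =>
      ih o (H.F.tri_kd _ _ _ _ _ h hi) (H.kdD ha i o) (H.kdD hb i o) (H.kdD hc i o)]

theorem uq {a b c : Box} {x : G} (v : Val f D a b c x) (h : Tri a b c) (x' : G)
    (w : Val f D a b c x') : x' = x := by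
  induction v generalizing x' with
  | leaf a b c ha hb hc => exact H.lf w h ha hb hc
  | node a b c i x hi _ ih =>
    obtain ⟨y, hy, rfl⟩ := H.pull w h i hi
    rw [funext fun o => ih o (H.F.tri_kd _ _ _ _ _ h hi) _ (hy o)]

theorem ex (a b c : Box) (h : Ty a b) (h' : Ty a c) : ∃ x, Val f D a b c x := by
  refine H.F.deep3 n (fun a b c => ∃ x, Val f D a b c x) ?_ ?_ a b c h h'
  · intro a b c h h' ha hb hc
    exact ⟨_, .leaf _ _ _ (H.dp _ h.1 ha) (H.dp _ h.2.1 hb) (H.dp _ h'.2.1 hc)⟩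
  · intro a b c i _ _ hi ih
    choose x hx using ih
    exact ⟨_, .node _ _ _ i x hi hx⟩

end Hy

/-- the extension -/
structure Ex (f : D3G G) (D : Box → Prop) (n : ℕ) (e : D3G G) : Prop extends Hy f D n where
  eq : ∀ {a b c}, Tri a b c → D a → D b → D c → e a b c = f a b c
  sp : ∀ {a b c i}, Tri a b c → i < ar a.2 →
    e a b c = p3 fun o => e (kd a i o) (kd b i o) (kd c i o)
  cm : ∀ {a b c g₁ g₂ g₃}, Tri a b c → Tri g₁ g₂ g₃ → D9 a b c g₁ g₂ g₃ →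
    Commute (e a b c) (e g₁ g₂ g₃)

theorem Hy.exx {f : D3G G} {D : Box → Prop} {n : ℕ} (H : Hy f D n) : ∃ e, Ex f D n e := by
  have h0 : ∀ a b c, ∃ x, Tri a b c → Val f D a b c x := fun a b c => by
    by_cases h : Tri a b c
    · obtain ⟨x, hx⟩ := H.ex a b c h.1 h.2.1
      exact ⟨x, fun _ => hx⟩
    · exact ⟨1, fun h' => absurd h' h⟩
  choose e he using h0
  exact ⟨e, H, fun h ha hb hc => H.lf (he _ _ _ h) h ha hb hc,
    fun h hi => H.uq (.node _ _ _ _ _ hi fun o => he _ _ _ (H.F.tri_kd _ _ _ _ _ h hi)) h _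
      (he _ _ _ h),
    fun h hg h9 => (H.comm (he _ _ _ hg) (he _ _ _ h) hg h h9).symm⟩

namespace Ex

variable {f e : D3G G} {D : Box → Prop} {n : ℕ} (E : Ex f D n e)
include E

theorem cyc (a b c : Box) (h : Tri a b c) : e a b c = e b c a := by
  refine E.F.deep3 n (fun a b c => Tri a b c → e a b c = e b c a) ?_ ?_ a b c h.1 h.2.1 h
  · intro a b c h h' ha hb hc t
    have ha := E.dp _ h.1 ha
    have hb := E.dp _ h.2.1 hb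
    have hc := E.dp _ h'.2.1 hc
    rw [E.eq t ha hb hc, E.eq (E.F.sy_tri _ _ _ t).1 hb hc ha]
    exact E.S.cyc _ _ _ ⟨t, ha, hb, hc⟩
  · intro a b c i _ _ hi ih t
    rw [E.sp t hi, E.sp (E.F.sy_tri _ _ _ t).1 (arb t hi),
      funext fun o => ih o (E.F.tri_kd _ _ _ _ _ t hi)]

theorem inv (a b c : Box) (h : Tri a b c) : e a c b * e a b c = 1 := by
  refine E.F.deep3 n (fun a b c => Tri a b c → e a c b * e a b c = 1) ?_ ?_ a b c h.1 h.2.1 h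
  · intro a b c h h' ha hb hc t
    have ha := E.dp _ h.1 ha
    have hb := E.dp _ h.2.1 hb
    have hc := E.dp _ h'.2.1 hc
    rw [E.eq t ha hb hc, E.eq (E.F.sy_tri _ _ _ t).2 ha hc hb]
    exact E.S.inv _ _ _ ⟨t, ha, hb, hc⟩
  · intro a b c i _ _ hi ih t
    have t' := (E.F.sy_tri _ _ _ t).2
    rw [E.sp t hi, E.sp t' hi, p3_mul, funext fun o => ih o (E.F.tri_kd _ _ _ _ _ t hi)]
    · simp [p3]
    · intro o o' ho
      have h9 := d9k E.F t hi ho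
      exact E.cm (E.F.tri_kd _ _ _ _ _ t' hi) (E.F.tri_kd _ _ _ _ _ t hi)
        ⟨h9.1, h9.2.2, h9.2.1⟩

omit E in
/-- the triangle relation -/
def T (e : D3G G) (a b c g : Box) : Prop :=
  Tri a b c → Tri b c g → Tri a g c → e b c g * e a g c = e a b c

theorem st {a b c g : Box} {i : ℕ} (hi : i < ar a.2)
    (ih : ∀ o, T e (kd a i o) (kd b i o) (kd c i o) (kd g i o)) : T e a b c g := by
  intro t₁ t₂ t₃
  have hb := arb t₁ hi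
  rw [E.sp t₁ hi, E.sp t₂ hb, E.sp t₃ hi, p3_mul, funext fun o => ih o
    (E.F.tri_kd _ _ _ _ _ t₁ hi) (E.F.tri_kd _ _ _ _ _ t₂ hb) (E.F.tri_kd _ _ _ _ _ t₃ hi)]
  intro o o' ho
  have h9 := d9k E.F t₃ hi ho
  exact E.cm (E.F.tri_kd _ _ _ _ _ t₂ hb) (E.F.tri_kd _ _ _ _ _ t₃ hi)
    ⟨⟨dk' E.F t₁.2.2.1 _ _ _, dk E.F t₂.2.2.2.1 _ _ _, dk E.F t₂.2.2.1 _ _ _⟩, h9.2.2, h9.2.1⟩

theorem tri0 (g a b : Box) (h : Ty g a) (h' : Ty g b) : ∀ c, D c → T e a b c g := by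
  refine E.F.deep3 n (fun g a b => ∀ c, D c → T e a b c g) ?_ ?_ g a b h h'
  · intro g a b h h' hg ha hb c hc t₁ t₂ t₃
    have hg := E.dp _ h.1 hg
    have ha := E.dp _ h.2.1 ha
    have hb := E.dp _ h'.2.1 hb
    rw [E.eq t₁ ha hb hc, E.eq t₂ hb hc hg, E.eq t₃ ha hg hc]
    exact E.S.tri _ _ _ _ ⟨t₁, ha, hb, hc⟩ ⟨t₂, hb, hc, hg⟩ ⟨t₃, ha, hg, hc⟩
  · intro g a b i h _ hi ih c hc
    exact E.st (h.2.2.1 ▸ hi) fun o => ih o _ (E.toHy.kdD hc i o)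

theorem tri (a b c g : Box) (t₁ : Tri a b c) (t₂ : Tri b c g) (t₃ : Tri a g c) :
    e b c g * e a g c = e a b c := by
  refine E.F.deep3 n (fun a b c => ∀ g, T e a b c g) ?_ ?_ a b c t₁.1 t₁.2.1 g t₁ t₂ t₃
  · intro a b c _ h' _ _ hc g t₁ t₂ t₃
    exact E.tri0 g a b (E.F.ty_symm _ _ t₃.1) (E.F.ty_symm _ _ t₂.2.1) c (E.dp _ h'.2.1 hc)
      t₁ t₂ t₃
  · intro a b c i _ _ hi ih g
    exact E.st hi fun o => ih o _

omit E in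
/-- the conjugation relation -/
def Cj (e : D3G G) (g₁ g₂ g₃ a b c : Box) : Prop := Tri a b c → ∀ a' b' c',
  Mv3 g₁ g₂ g₃ a b c a' b' c' → SemiconjBy (e g₁ g₂ g₃) (e a b c) (e a' b' c')

theorem red {g₁ g₂ g₃ : Box} (hg : Tri g₁ g₂ g₃) (N : ℕ)
    (h0 : ∀ a b c, Deep N a.2 → Deep N b.2 → Deep N c.2 → Cj e g₁ g₂ g₃ a b c) (a b c : Box) :
    Cj e g₁ g₂ g₃ a b c := by
  intro t
  refine E.F.deep3 N (Cj e g₁ g₂ g₃) (fun a b c _ _ => h0 a b c) ?_ a b c t.1 t.2.1 t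
  intro a b c i _ _ hi ih t a' b' c' m
  have t' := E.F.mv_tri _ _ _ _ _ _ _ _ _ hg t m
  have hi' : i < ar a'.2 := (E.F.mv_ty _ _ _ _ _ hg t.1.1 m.1).2.2.1 ▸ hi
  have h1 := fun o => ih o (E.F.tri_kd _ _ _ _ _ t hi) _ _ _ ⟨E.F.mv_kd _ _ _ _ _ i o hg m.1,
    E.F.mv_kd _ _ _ _ _ i o hg m.2.1, E.F.mv_kd _ _ _ _ _ i o hg m.2.2⟩
  rw [E.sp t hi, E.sp t' hi']
  exact ((h1 _).mul_right (h1 _)).mul_right (h1 _)

theorem mvD {g₁ g₂ g₃ a a' : Box} (hg : Tri g₁ g₂ g₃) (h₁ : D g₁) (h₂ : D g₂) (h₃ : D g₃)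
    (ha : D a) (m : Mv g₁ g₂ g₃ a a') : D a' := by
  rcases m with ⟨u, hu, -, rfl⟩ | ⟨u, hu, -, rfl⟩ | ⟨u, hu, -, rfl⟩ | ⟨rfl, -⟩
  · exact E.sb _ _ h₂ (hu.trans hg.1.2.2.1)
  · exact E.sb _ _ h₃ (hu.trans (hg.1.2.2.1.symm.trans hg.2.1.2.2.1))
  · exact E.sb _ _ h₁ (hu.trans hg.2.1.2.2.1.symm)
  · exact ha

theorem conj (g₁ g₂ g₃ : Box) (hg : Tri g₁ g₂ g₃) : ∀ a b c, Cj e g₁ g₂ g₃ a b c := by
  refine E.F.deep3 n (fun g₁ g₂ g₃ => Tri g₁ g₂ g₃ → ∀ a b c, Cj e g₁ g₂ g₃ a b c) ?_ ?_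
    g₁ g₂ g₃ hg.1 hg.2.1 hg
  · intro g₁ g₂ g₃ h h' h₁ h₂ h₃ hg
    have h₁ := E.dp _ h.1 h₁
    have h₂ := E.dp _ h.2.1 h₂
    have h₃ := E.dp _ h'.2.1 h₃
    refine E.red hg n fun a b c ha hb hc t a' b' c' m => ?_
    have ha := E.dp _ t.1.1 ha
    have hb := E.dp _ t.1.2.1 hb
    have hc := E.dp _ t.2.1.2.1 hc
    have t' := E.F.mv_tri _ _ _ _ _ _ _ _ _ hg t m
    have ha' := E.mvD hg h₁ h₂ h₃ ha m.1
    have hb' := E.mvD hg h₁ h₂ h₃ hb m.2.1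
    have hc' := E.mvD hg h₁ h₂ h₃ hc m.2.2
    rw [E.eq hg h₁ h₂ h₃, E.eq t ha hb hc, E.eq t' ha' hb' hc']
    exact E.S.conj _ _ _ _ _ _ _ _ _ ⟨hg, h₁, h₂, h₃⟩ ⟨t, ha, hb, hc⟩ ⟨t', ha', hb', hc'⟩
      m.1 m.2.1 m.2.2
  · intro g₁ g₂ g₃ i _ _ hi ih hg
    obtain ⟨N, hN⟩ := E.F.mv_kid _ _ _ i hg hi
    refine E.red hg N fun a b c ha hb hc t a' b' c' m => ?_
    obtain ⟨a₁, a₂, p₁, p₂, p₃⟩ := hN _ _ t.1.1 ha m.1
    obtain ⟨b₁, b₂, q₁, q₂, q₃⟩ := hN _ _ t.1.2.1 hb m.2.1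
    obtain ⟨c₁, c₂, r₁, r₂, r₃⟩ := hN _ _ t.2.1.2.1 hc m.2.2
    have tk := fun o => E.F.tri_kd _ _ _ i o hg hi
    have t₁ := E.F.mv_tri _ _ _ _ _ _ _ _ _ (tk _) t ⟨p₁, q₁, r₁⟩
    have t₂ := E.F.mv_tri _ _ _ _ _ _ _ _ _ (tk _) t₁ ⟨p₂, q₂, r₂⟩
    rw [E.sp hg hi]
    exact ((ih _ (tk _) _ _ _ t₂ _ _ _ ⟨p₃, q₃, r₃⟩).mul_left
      (ih _ (tk _) _ _ _ t₁ _ _ _ ⟨p₂, q₂, r₂⟩)).mul_left (ih _ (tk _) _ _ _ t _ _ _ ⟨p₁, q₁, r₁⟩)

end Ex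

end Extx

theorem ext_main : SpExt := by
  intro F _ G _ f D ⟨n, hn⟩ hs S
  obtain ⟨e, E⟩ := Extx.Hy.exx ⟨F, hn, hs, S⟩
  exact ⟨e, ⟨E.cyc, E.inv, E.tri, fun _ _ _ _ h hi _ => E.sp h hi,
    fun _ _ _ _ _ _ _ _ _ hg t _ m₁ m₂ m₃ => E.conj _ _ _ hg _ _ _ t _ _ _ ⟨m₁, m₂, m₃⟩⟩,
    fun _ _ _ => E.eq⟩

end Pool.Agent.MP_89edc2_al.R3
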