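import Pool.Agent.MP_89edc2_al.R3.Spec2
import Pool.Agent.MP_89edc2_al.K76.Emb

/-! Assembly of the steps. -/

namespace Pool.Agent.MP_89edc2_al.R3

namespace Finx

theorem oneSlot (hS : ShapeF) (hB : BasF) (hN : SpNerve) (hC : SpCv) (hX : SpFpx) : OneSlot := by
  intro G _ l d S O c y hl hd hc hO h3 hy
  obtain ⟨Yf, h0, hY⟩ := hN _ _ _ (hC hS hB G l d S O hl hd hc hO) c h3 y hy
  obtain ⟨x, hx, hb⟩ := hX hS hB G l d S O c Yf hl hd hc hO hY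
  exact ⟨x, hx, fun χ h1 h2 => by rw [hb _ χ (hS.base_cnt c h3) h1 h2, h0]⟩

theorem up (hS : ShapeF) (hB : BasF) (h1 : OneSlot) (hF : SpFpb) (hR : SpRnd) (hM : SpM3)
    (hD : SpXd) (hH : SpHh) (h0 : SpR0) (hT : SpStep) : Up := by
  intro G _ l d hl hd
  obtain ⟨D, hDs⟩ := hF hS hB G l d hl hd
  obtain ⟨x, hx⟩ := hR hS hB h1 G l d D hl hd hDs
  have hm : HM l d x := ⟨hM hS hB G l d D x hl hd hx, hD hS hB G l d D x hl hd hDs hx⟩
  have hh := hH hS hB G l d x hl hd hm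
  exact ⟨_, hT hS hB G l d x hl hd hm (h0 hS hB G l d x hl hd hm hh),
    fun a b c h => if_pos h.2⟩

theorem dat (hS : ShapeF) (hM : SemF) (hB : BasF) (hA : AltF) (hT : TrF) (a2 : SpAct2)
    (lam : SpLam) (b1 : SpBh1) (b2 : SpBh2) (b3 : SpBh3) (tr : SpTree) (cu : SpCube)
    (sa : SpSame) (fo : SpFor) {G : Type} [Group G] {d : D3G G} {π : G →* Equiv.Perm X}
    {α : Gam →* MulAut G} (hu : Univ d) (ha : Aut1 d π α) (n : ℕ) :
    ∃ (H : Type) (_ : Group H) (K M : ℕ) (p : H →* Equiv.Perm X)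
      (Λ : Subgroup H) (B : Box → ℕ → H) (ι : G →* H), n ≤ M ∧ Dat d π K M p Λ B ι := by
  obtain ⟨H, _, p, s, pr, ι, hN, hp, hk⟩ := a2 hS hM G d π α hu ha (n + 3)
  obtain ⟨Λ, hL⟩ := lam hS hM hB hA H (n + 3) p _ s pr (by omega) hN
  obtain ⟨t, E, h1⟩ := b1 hS hM H (n + 3) (n + 1) p _ s pr Λ (by omega) hN hL
  obtain ⟨B₀, q, h2⟩ := b2 hS hM H (n + 3) n p _ s pr Λ t E le_rfl hN hL h1
  obtain ⟨B, hb, hq, hw⟩ := b3 hS hM H (n + 3) n p _ s pr Λ t E B₀ q le_rfl hN hL h1 h2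
  have ht := tr hS hM hT H (n + 3) n p Λ B hb
  have hs := cu hS hM hT H (n + 3) n p _ s pr Λ B le_rfl hN hL hb ht hq hw
  have hf := fo hS hM hT H (n + 3) n p Λ B ht (sa hS hT H (n + 3) n p Λ B ht hs)
  refine ⟨H, inferInstance, n + 3, n, p, Λ, B, ι, le_rfl, hf, hL.inj, hp, ?_, hk⟩
  intro x a b c a' b' c' h h' hb' hc' h'' ty ca cb cc
  have e := hN.cr x a b c a' b' c' h h'' ty ca cb cc
  have e' : x⁻¹ * ι (d a' b' c') * x = ι (d a b c) := by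
    rw [← e]
    group
  rw [e']
  exact hL.mem a b c h h'.1 hb' hc' (by have := h'.2; omega)

end Finx

open Finx in
theorem fin_main (sA : SpShA) (sB : SpShB) (sC : SpShC) (mA : SpSmA) (mB : SpSmB) (mC : SpSmC)
    (trc : SpTrc) (bas : SpBas) (alt : SpAlt) (fpb : SpFpb) (nerve : SpNerve) (cv : SpCv)
    (fpx : SpFpx) (rnd : SpRnd) (m3 : SpM3) (xd : SpXd) (hh : SpHh) (r0 : SpR0) (step : SpStep)
    (dbl : SpDbl) (gen : SpGen) (pres : SpPres) (ext : SpExt) (a1 : SpAct1) (a2 : SpAct2)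
    (lam : SpLam) (b1 : SpBh1) (b2 : SpBh2) (b3 : SpBh3) (tree : SpTree) (cube : SpCube)
    (same : SpSame) (fo : SpFor) (rep : SpRep) (rf : SpRf) (inv : SpInv) (cnt : SpCnt)
    (lay : SpLay) (top : SpTop) (mec : SpMec) (exp : SpExp) :
    ∃ (G : Type) (_ : Group G), Group.IsFinitelyPresented G ∧ Group.ResiduallyFinite G ∧
      (∃ S : Finset G, Subgroup.closure (S : Set G) = ⊤ ∧ ∃ c : ℝ, 1 < c ∧ ∀ k : ℕ,
        c ^ k ≤ ((K76.ball S k).ncard : ℝ)) ∧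
      ∀ c : ℝ, 1 < c → ∃ S : Finset G, Subgroup.closure (S : Set G) = ⊤ ∧ ∃ k : ℕ,
        ((K76.ball S k).ncard : ℝ) < c ^ k := by
  have hS : ShapeF := ⟨sA, sB sA, sC sA (sB sA)⟩
  have hM : SemF := ⟨mA hS, mB hS (mA hS), mC hS (mA hS) (mB hS (mA hS))⟩
  have hB := bas hS
  have hA := alt hS hM hB
  have hT := trc hS
  have hE := ext hS hB
  have hG := gen hS hB
  have hU := up hS hB (oneSlot hS hB nerve cv fpx) fpb rnd m3 xd hh r0 step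
  obtain ⟨G, _, d, fp, hu⟩ := pres hS hU (dbl hS hB) hG
  obtain ⟨π, α, ha⟩ := a1 hS hM hE G d hu
  have nf := rep hS hM hT G d π hu ha.act
    (dat hS hM hB hA hT a2 lam b1 b2 b3 tree cube same fo hu ha)
  obtain ⟨g, hg⟩ := exp hS hM G d π ha.act
  obtain ⟨C, hC⟩ := mec hS hM hB hA (lay hS) (top hS hB hG) G d π hu ha.act
  refine ⟨G, inferInstance, fp, rf hS hM hA hE G d π hu ha.act nf,
    K76.exp_main G G (MonoidHom.id G) g fp Function.surjective_id hg, cnt G C fun k hk => ?_⟩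
  obtain ⟨K, A, F, T, b, hm⟩ := hC k
  refine inv G _ _ K A F T b ?_ hm
  calc 2 = 2 ^ 1 := rfl
    _ ≤ 2 ^ k := Nat.pow_le_pow_right (by norm_num) hk

end Pool.Agent.MP_89edc2_al.R3
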