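import Pool.Agent.MP_89edc2_al.R3.Spec2

/-!
# The elements of forests
-/

namespace Pool.Agent.MP_89edc2_al.R3

namespace Forx

section Lists
variable {ι H : Type} [DecidableEq ι] [Group H]

theorem prod_apply {Y : Type} (g : ι → Equiv.Perm Y) (i : ι) (x y : Y)
    (hx : ∀ j, j ≠ i → g j x = x) (hy : ∀ j, j ≠ i → g j y = y) (hi : g i x = y) :
    ∀ L : List ι, L.Nodup → (L.map g).prod x = if i ∈ L then y else x
  | [], _ => by simp
  | j :: L, h => by
    have h' := List.nodup_cons.1 h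
    have ih := prod_apply g i x y hx hy hi L h'.2
    rw [List.map_cons, List.prod_cons, Equiv.Perm.mul_apply, ih]
    by_cases hj : j = i
    · subst hj
      rw [if_neg h'.1, if_pos (List.mem_cons_self ..), hi]
    · by_cases hL : i ∈ L
      · rw [if_pos hL, if_pos (List.mem_cons_of_mem _ hL), hy j hj]
      · have : i ∉ j :: L := by
          intro hm
          rcases List.mem_cons.1 hm with hm | hm
          · exact hj hm.symm
          · exact hL hm
        rw [if_neg hL, if_neg this, hx j hj]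

theorem prod_one (A A' : ι → H) (i : ι) (c : H) (h1 : ∀ j, j ≠ i → A' j = A j)
    (h2 : A' i = A i * c) (h3 : ∀ j, j ≠ i → Commute c (A j)) :
    ∀ L : List ι, L.Nodup → (L.map A').prod = (L.map A).prod * if i ∈ L then c else 1
  | [], _ => by simp
  | j :: L, h => by
    have h' := List.nodup_cons.1 h
    have ih := prod_one A A' i c h1 h2 h3 L h'.2
    rw [List.map_cons, List.prod_cons, List.map_cons, List.prod_cons, ih]
    by_cases hj : j = i
    · subst hj
      have hc : Commute c (L.map A).prod := by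
        refine Commute.list_prod_right _ _ fun z hz => ?_
        obtain ⟨k, hk, rfl⟩ := List.mem_map.1 hz
        exact h3 k fun e => h'.1 (e ▸ hk)
      rw [if_neg h'.1, if_pos (List.mem_cons_self ..), h2, mul_one, mul_assoc, hc.eq, mul_assoc]
    · by_cases hL : i ∈ L
      · rw [if_pos hL, if_pos (List.mem_cons_of_mem _ hL), h1 j hj, mul_assoc]
      · have : i ∉ j :: L := by
          intro hm
          rcases List.mem_cons.1 hm with hm | hm
          · exact hj hm.symm
          · exact hL hm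
        rw [if_neg hL, if_neg this, h1 j hj, mul_assoc]

omit [DecidableEq ι] in
theorem prod_same (Λ : Subgroup H) (A A' : ι → H) (h1 : ∀ j, (A' j)⁻¹ * A j ∈ Λ)
    (h2 : ∀ j k, j ≠ k → Commute (A j) (A' k)) (h3 : ∀ j k, j ≠ k → Commute (A' j) (A' k)) :
    ∀ L : List ι, L.Nodup → ((L.map A').prod)⁻¹ * (L.map A).prod ∈ Λ
  | [], _ => by simp
  | j :: L, h => by
    have h' := List.nodup_cons.1 h
    have ih := prod_same Λ A A' h1 h2 h3 L h'.2
    have hc : Commute ((A' j)⁻¹ * A j) (L.map A').prod := by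
      refine Commute.list_prod_right _ _ fun z hz => ?_
      obtain ⟨k, hk, rfl⟩ := List.mem_map.1 hz
      have hjk : j ≠ k := fun e => h'.1 (e ▸ hk)
      exact Commute.mul_left (h3 j k hjk).inv_left (h2 j k hjk)
    have e : ((List.map A' (j :: L)).prod)⁻¹ * (List.map A (j :: L)).prod =
        (A' j)⁻¹ * A j * (((L.map A').prod)⁻¹ * (L.map A).prod) := by
      rw [List.map_cons, List.prod_cons, List.map_cons, List.prod_cons, mul_inv_rev,
        ← mul_assoc ((A' j)⁻¹ * A j), hc.inv_right.eq]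
      simp only [mul_assoc]
    rw [e]
    exact Λ.mul_mem (h1 j) ih

end Lists

theorem bf_eq {H : Type} [Group H] (B : Box → ℕ → H) (F : Fin 40 → Tr) :
    bf B F = ((List.finRange 40).map fun i => bh B (root i) (F i)).prod := by
  unfold bf
  rw [List.ofFn_eq_map]

theorem ty_root (hS : ShapeF) (i : Fin 40) : Ty (root i) (root i) :=
  ⟨hS.id_len 3, hS.id_len 3, rfl, rfl⟩

theorem disj_root {i j : Fin 40} (h : i ≠ j) : Disj (root i) (root j) := Or.inl h

/-- leaves lie in the boxes of the tree -/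
theorem lv_copy (hT : TrF) {M : ℕ} {T : Tr} {ρ b r l : Box} (ty : Ty ρ b) (ok : Ok M ρ T)
    (h : Lv T ρ b r l) : r.1 = ρ.1 ∧ l.1 = b.1 := by
  obtain ⟨u, v, -, -, -, -, hr, hl, -⟩ := hT.lv_par M T ρ b r l ty ok h
  exact ⟨by rw [hr]; rfl, by rw [hl]; rfl⟩

theorem lv_out (hS : ShapeF) (hT : TrF) {M : ℕ} {T : Tr} {ρ b r l : Box} (ty : Ty ρ b)
    (ok : Ok M ρ T) (h : Lv T ρ b r l) :
    (∀ z, Disj ρ z → Disj r z) ∧ ∀ z, Disj b z → Disj l z := by
  obtain ⟨u, v, hu, hv, -, -, hr, hl, -⟩ := hT.lv_par M T ρ b r l ty ok h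
  refine ⟨fun z hz => ?_, fun z hz => ?_⟩
  · rw [hr]
    exact hS.disj_sb ρ z u hu hz
  · rw [hl]
    exact hS.disj_sb b z v (hv.trans ty.2.2.1) hz

section Main
variable {H : Type} [Group H] {K M : ℕ} {p : H →* Equiv.Perm X} {Λ : Subgroup H}
  {B : Box → ℕ → H}

theorem ok_less (hT : TrF) {T : Tr} {ρ b : Box} {g g' : Box → Tr}
    (h : ∀ l, g l = g' l ∨ g l = Tr.leaf) (ok : Ok M ρ (gr T b g')) : Ok M ρ (gr T b g) := by
  obtain ⟨h1, h2⟩ := (hT.gr_ok M T ρ b g').1 ok
  refine (hT.gr_ok M T ρ b g).2 ⟨h1, fun r l hl => ?_⟩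
  rcases h l with e | e
  · rw [e]
    exact h2 r l hl
  · rw [e]
    trivial

/-- grafting on one leaf of a tree -/
theorem graft (hS : ShapeF) (hT : TrF) (hF : TreeF K M p Λ B) (g g' : Box → Tr) (r l : Box)
    (h0 : g l = Tr.leaf) (h1 : ∀ l₂, l₂ ≠ l → g l₂ = g' l₂) :
    ∀ (T : Tr) (ρ b : Box), RB ρ → Ty ρ b → Ok M ρ (gr T b g') → Lv T ρ b r l →
      bh B ρ (gr T b g') = bh B ρ (gr T b g) * bh B r (g' l) := by
  have hle : ∀ l₂, g l₂ = g' l₂ ∨ g l₂ = Tr.leaf := fun l₂ => by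
    by_cases e : l₂ = l
    · exact Or.inr (e ▸ h0)
    · exact Or.inl (h1 l₂ e)
  intro T
  induction T with
  | leaf =>
    rintro ρ b - - - ⟨rfl, rfl⟩
    show bh B r (g' l) = bh B r (g l) * bh B r (g' l)
    rw [h0]
    exact (one_mul _).symm
  | node i T ih =>
    rintro ρ b rb ty ok ⟨o, hlv⟩
    obtain ⟨hi, -, okk⟩ : i < ar ρ.2 ∧ dg ρ.2 ≤ M ∧
      ∀ o, Ok M (kd ρ 0 o) (gr (T o) (kd b i o) g') := ok
    have h00 : 0 < ar ρ.2 := lt_of_le_of_lt (Nat.zero_le _) hi
    have tk : ∀ o, Ty (kd ρ 0 o) (kd b i o) := fun o => hS.ty_kd ρ b 0 i o ty h00 hi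
    have okT : ∀ o, Ok M (kd ρ 0 o) (T o) := fun o => ((hT.gr_ok M _ _ _ g').1 (okk o)).1
    have okU : Ok M r (g' l) := ((hT.gr_ok M _ _ _ g').1 (okk o)).2 r l hlv
    have out := lv_out hS hT (tk o) (okT o) hlv
    have rbr : RB r := hT.lv_rb _ _ _ r l (hS.rb_kd ρ o rb) hlv
    have e1 : ∀ o', o' ≠ o → gr (T o') (kd b i o') g' = gr (T o') (kd b i o') g := by
      intro o' ho
      refine hT.gr_congr (T o') (kd ρ 0 o') (kd b i o') g' g fun r₂ l₂ h₂ => ?_
      refine (h1 l₂ fun e => ?_).symm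
      have d1 : Disj l (kd b i o') :=
        out.2 _ (hS.disj_kids b i o o' (ty.2.2.1 ▸ hi) ho.symm)
      have d2 := (lv_out hS hT (tk o') (okT o') h₂).2 l (hS.disj_symm _ _ d1)
      rw [e] at d2
      exact hS.disj_irrefl l d2
    have e2 := ih o (kd ρ 0 o) (kd b i o) (hS.rb_kd ρ o rb) (tk o) (okk o) hlv
    have e3 : ∀ o', o' ≠ o →
        Commute (bh B r (g' l)) (bh B (kd ρ 0 o') (gr (T o') (kd b i o') g)) := fun o' ho =>
      hF.comm r _ _ _ rbr (hS.rb_kd ρ o' rb) okU (ok_less hT hle (okk o'))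
        (out.1 _ (hS.disj_kids ρ 0 o o' h00 ho.symm))
    show B ρ i * (bh B (kd ρ 0 none) (gr (T none) (kd b i none) g') *
        bh B (kd ρ 0 (some false)) (gr (T (some false)) (kd b i (some false)) g') *
        bh B (kd ρ 0 (some true)) (gr (T (some true)) (kd b i (some true)) g')) =
      B ρ i * (bh B (kd ρ 0 none) (gr (T none) (kd b i none) g) *
        bh B (kd ρ 0 (some false)) (gr (T (some false)) (kd b i (some false)) g) *
        bh B (kd ρ 0 (some true)) (gr (T (some true)) (kd b i (some true)) g)) * bh B r (g' l)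
    rcases o with _ | _ | _
    · rw [e2, e1 (some false) (by simp), e1 (some true) (by simp)]
      have c := (e3 (some false) (by simp)).mul_right (e3 (some true) (by simp))
      simp only [mul_assoc]
      rw [c.eq]
      simp only [mul_assoc]
    · rw [e2, e1 none (by simp), e1 (some true) (by simp)]
      simp only [mul_assoc]
      rw [(e3 (some true) (by simp)).eq]
    · rw [e2, e1 none (by simp), e1 (some false) (by simp)]
      simp only [mul_assoc]

/-- grafting on one leaf of a forest -/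
theorem graftF (hS : ShapeF) (hT : TrF) (hF : TreeF K M p Λ B) (g g' : Box → Tr) (r l : Box)
    (h0 : g l = Tr.leaf) (h1 : ∀ l₂, l₂ ≠ l → g l₂ = g' l₂) (F : Fin 40 → Tr)
    (ok : OkF M (grF F g')) (h : LF F r l) :
    bf B (grF F g') = bf B (grF F g) * bh B r (g' l) := by
  have hle : ∀ l₂, g l₂ = g' l₂ ∨ g l₂ = Tr.leaf := fun l₂ => by
    by_cases e : l₂ = l
    · exact Or.inr (e ▸ h0)
    · exact Or.inl (h1 l₂ e)
  obtain ⟨i, hi⟩ := h
  have okT : ∀ j, Ok M (root j) (F j) := fun j => ((hT.gr_ok M _ _ _ g').1 (ok j)).1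
  have cp := lv_copy hT (ty_root hS i) (okT i) hi
  have okU : Ok M r (g' l) := ((hT.gr_ok M _ _ _ g').1 (ok i)).2 r l hi
  have rbr : RB r := hT.lv_rb _ _ _ r l (hS.rb_root i) hi
  have key := prod_one (fun j => bh B (root j) (grF F g j)) (fun j => bh B (root j) (grF F g' j))
    i (bh B r (g' l)) (fun j hj => ?_)
    (graft hS hT hF g g' r l h0 h1 (F i) _ _ (hS.rb_root i) (ty_root hS i) (ok i) hi)
    (fun j hj => ?_) (List.finRange 40) (List.nodup_finRange 40)
  · rw [bf_eq, bf_eq, key, if_pos (List.mem_finRange i)]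
  · have : grF F g' j = grF F g j := by
      refine hT.gr_congr (F j) (root j) (root j) g' g fun r₂ l₂ h₂ => ?_
      refine (h1 l₂ fun e => hj ?_).symm
      have c2 := (lv_copy hT (ty_root hS j) (okT j) h₂).2
      rw [e] at c2
      exact c2.symm.trans cp.2
    show bh B (root j) (grF F g' j) = bh B (root j) (grF F g j)
    rw [this]
  · refine hF.comm r _ _ _ rbr (hS.rb_root j) okU (ok_less hT hle (ok j)) (Or.inl ?_)
    rw [cp.1]
    exact fun e => hj e.symm

theorem carry (hS : ShapeF) (hE : SemF) (hT : TrF) (hF : TreeF K M p Λ B) (F : Fin 40 → Tr)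
    (r l : Box) (ok : OkF M F) (h : LF F r l) : CarK K (p (bf B F)) r l := by
  obtain ⟨i, hi⟩ := h
  intro u hu hK
  have cp := lv_copy hT (ty_root hS i) (ok i) hi
  have fix : ∀ (j : Fin 40) (x : X), j ≠ i → x.1 = i → p (bh B (root j) (F j)) x = x := by
    intro j x hj hx
    refine hF.on _ _ (hS.rb_root j) (ok j) x fun hin => hj ?_
    exact (hE.in_copy _ _ hin).1.symm.trans hx
  have key := prod_apply (fun j => p (bh B (root j) (F j))) i (cell r u) (cell l u)
    (fun j hj => fix j _ hj cp.1) (fun j hj => fix j _ hj cp.2)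
    (hF.carry _ _ r l (hS.rb_root i) (ok i) hi u hu hK) (List.finRange 40)
    (List.nodup_finRange 40)
  rw [if_pos (List.mem_finRange i)] at key
  rw [bf_eq]
  generalize List.finRange 40 = L at key
  rw [map_list_prod, List.map_map]
  exact key

theorem same (hS : ShapeF) (hT : TrF) (hF : TreeF K M p Λ B) (hM : Same M Λ B) (n : ℕ)
    (F F' : Fin 40 → Tr) (hn : 3 * n + 2 ≤ M) (h : ∀ i, Grid n (root i) (F i))
    (h' : ∀ i, Grid n (root i) (F' i)) : (bf B F')⁻¹ * bf B F ∈ Λ := by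
  have le : ∀ i, Le n (root i).2 := fun i =>
    hS.dg_le n _ (le_of_eq_of_le (hS.id_dg 3) (Nat.zero_le n))
  have ok : ∀ i, Ok M (root i) (F i) := fun i =>
    hT.grid_ok n M _ _ _ (ty_root hS i) (le i) (by omega) (h i)
  have ok' : ∀ i, Ok M (root i) (F' i) := fun i =>
    hT.grid_ok n M _ _ _ (ty_root hS i) (le i) (by omega) (h' i)
  rw [bf_eq, bf_eq]
  exact prod_same Λ (fun i => bh B (root i) (F i)) (fun i => bh B (root i) (F' i))
    (fun i => hM n _ _ _ _ hn (hS.rb_root i) (ty_root hS i) (le i) (h i) (h' i))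
    (fun j k e => hF.comm _ _ _ _ (hS.rb_root j) (hS.rb_root k) (ok j) (ok' k) (disj_root e))
    (fun j k e => hF.comm _ _ _ _ (hS.rb_root j) (hS.rb_root k) (ok' j) (ok' k) (disj_root e))
    (List.finRange 40) (List.nodup_finRange 40)

open Classical in
theorem expand (hS : ShapeF) (hT : TrF) (hF : TreeF K M p Λ B) (F F' : Fin 40 → Tr)
    (f f' : Box → Tr) (R : Box → Box → Prop) (a : H) (ha : a ∈ Λ) (ok : OkF M (grF F f))
    (ok' : OkF M (grF F' f')) (tot : ∀ r l, LF F r l → ∃ r' l', LF F' r' l' ∧ R l l')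
    (sur : ∀ r' l', LF F' r' l' → ∃ r l, LF F r l ∧ R l l')
    (fn : ∀ l l₁ l₂, R l l₁ → R l l₂ → l₁ = l₂) (inj : ∀ l₁ l₂ l', R l₁ l' → R l₂ l' → l₁ = l₂)
    (mt : ∀ r l r' l', LF F r l → LF F' r' l' → R l l' →
      Ty r r' ∧ CarK K (p a) r r' ∧ f l = f' l') :
    ∃ x x', bf B (grF F f) = bf B F * x ∧ bf B (grF F' f') = bf B F' * x' ∧
      a * x = x' * a := by
  have main : ∀ S : Finset Box, (∀ l ∈ S, ∃ r, LF F r l) → ∃ x x',
      bf B (grF F fun l => if l ∈ S then f l else Tr.leaf) = bf B F * x ∧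
      bf B (grF F' fun l' => if ∃ l ∈ S, R l l' then f' l' else Tr.leaf) = bf B F' * x' ∧
      a * x = x' * a := by
    intro S
    induction S using Finset.induction_on with
    | empty =>
      intro _
      refine ⟨1, 1, ?_, ?_, by rw [mul_one, one_mul]⟩
      · have : (grF F fun l => if l ∈ (∅ : Finset Box) then f l else Tr.leaf) = F := by
          funext i
          refine Eq.trans ?_ (hT.gr_leaf (F i) (root i))
          exact hT.gr_congr (F i) (root i) (root i) _ _ fun r l _ => by simp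
        rw [this, mul_one]
      · have : (grF F' fun l' => if ∃ l ∈ (∅ : Finset Box), R l l' then f' l' else Tr.leaf) =
            F' := by
          funext i
          refine Eq.trans ?_ (hT.gr_leaf (F' i) (root i))
          exact hT.gr_congr (F' i) (root i) (root i) _ _ fun r l _ => by simp
        rw [this, mul_one]
    | insert l S hl ih =>
      intro hS'
      obtain ⟨x, x', e, e', hx⟩ := ih fun l₂ h₂ => hS' l₂ (Finset.mem_insert_of_mem h₂)
      obtain ⟨r, hr⟩ := hS' l (Finset.mem_insert_self l S)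
      obtain ⟨r', l', hr', hR⟩ := tot r l hr
      obtain ⟨ty, car, ef⟩ := mt r l r' l' hr hr' hR
      have o1 : OkF M (grF F fun l₂ => if l₂ ∈ insert l S then f l₂ else Tr.leaf) := fun i =>
        ok_less hT (fun l₂ => by
          by_cases c : l₂ ∈ insert l S
          · exact Or.inl (if_pos c)
          · exact Or.inr (if_neg c)) (ok i)
      have o2 : OkF M (grF F' fun l₂ => if ∃ l₃ ∈ insert l S, R l₃ l₂ then f' l₂ else Tr.leaf) :=
        fun i => ok_less hT (fun l₂ => by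
          by_cases c : ∃ l₃ ∈ insert l S, R l₃ l₂
          · exact Or.inl (if_pos c)
          · exact Or.inr (if_neg c)) (ok' i)
      have g1 := graftF hS hT hF (fun l₂ => if l₂ ∈ S then f l₂ else Tr.leaf)
        (fun l₂ => if l₂ ∈ insert l S then f l₂ else Tr.leaf) r l (if_neg hl)
        (fun l₂ h₂ => if_congr (by simp [h₂]) rfl rfl) F o1 hr
      have n2 : ¬ ∃ l₃ ∈ S, R l₃ l' := by
        rintro ⟨l₃, h₃, hR₃⟩
        exact hl (inj l₃ l l' hR₃ hR ▸ h₃)
      have g2 := graftF hS hT hF (fun l₂ => if ∃ l₃ ∈ S, R l₃ l₂ then f' l₂ else Tr.leaf)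
        (fun l₂ => if ∃ l₃ ∈ insert l S, R l₃ l₂ then f' l₂ else Tr.leaf) r' l' (if_neg n2)
        (fun l₂ h₂ => if_congr ⟨fun ⟨l₃, h₃, hR₃⟩ => ⟨l₃, Finset.mem_insert_of_mem h₃, hR₃⟩,
          fun ⟨l₃, h₃, hR₃⟩ => ⟨l₃, (Finset.mem_insert.1 h₃).resolve_left fun c =>
            h₂ (fn l l₂ l' (c ▸ hR₃) hR), hR₃⟩⟩ rfl rfl) F' o2 hr'
      rw [if_pos (Finset.mem_insert_self l S), e] at g1
      rw [if_pos ⟨l, Finset.mem_insert_self l S, hR⟩, e'] at g2
      obtain ⟨i, hi⟩ := hr
      obtain ⟨i', hi'⟩ := hr'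
      have tr := hF.transp r r' (f l) a ha (hT.lv_rb _ _ _ r l (hS.rb_root i) hi)
        (hT.lv_rb _ _ _ r' l' (hS.rb_root i') hi') ty
        (((hT.gr_ok M _ _ _ f).1 (ok i)).2 r l hi) car
      refine ⟨x * bh B r (f l), x' * bh B r' (f' l'), by rw [g1, mul_assoc],
        by rw [g2, mul_assoc], ?_⟩
      rw [← ef, ← tr, ← mul_assoc, hx]
      simp only [mul_assoc, inv_mul_cancel, mul_one]
  have fin : {l | ∃ r, LF F r l}.Finite := by
    refine (Set.finite_iUnion fun i => hT.lv_fin (F i) (root i) (root i)).subset ?_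
    rintro l ⟨r, i, hi⟩
    exact Set.mem_iUnion.2 ⟨i, r, hi⟩
  obtain ⟨x, x', e, e', hx⟩ := main fin.toFinset fun l hl => fin.mem_toFinset.1 hl
  refine ⟨x, x', ?_, ?_, hx⟩
  · rw [← e]
    refine congrArg (bf B) (funext fun i => ?_)
    exact hT.gr_congr (F i) (root i) (root i) _ _ fun r l hl =>
      (if_pos (fin.mem_toFinset.2 ⟨r, i, hl⟩)).symm
  · rw [← e']
    refine congrArg (bf B) (funext fun i => ?_)
    refine hT.gr_congr (F' i) (root i) (root i) _ _ fun r' l' hl => (if_pos ?_).symm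
    obtain ⟨r, l, h1, h2⟩ := sur r' l' ⟨i, hl⟩
    exact ⟨l, fin.mem_toFinset.2 ⟨r, h1⟩, h2⟩

end Main

end Forx

theorem for_main : SpFor := fun hS hE hT _ _ _ _ _ _ _ hF hM =>
  ⟨Forx.carry hS hE hT hF, Forx.same hS hT hF hM,
    fun F F' f f' R a ha => Forx.expand hS hT hF F F' f f' R a ha⟩

end Pool.Agent.MP_89edc2_al.R3
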