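import Pool.Agent.MP_89edc2_al.R3.Spec2

/-!
# The elements attached to three charts
-/

namespace Pool.Agent.MP_89edc2_al.R3

open scoped commutatorElement

namespace Fpbx

variable {G : Type} [Group G] {l : ℕ} {d : D3G G} {t : Pat} {χ₁ χ₂ χ₃ : Chart}
  {A B : Fin 3 → Bool} {P Q : Box}

/-- the size of a set of stacks -/
def sz (A : Fin 3 → Bool) : ℕ := (Finset.univ.filter fun a => A a = true).card

/-- all stacks but one -/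
def ms (x : Fin 3) : Fin 3 → Bool := fun a => decide (a ≠ x)

/-- admissible data -/
structure Ad (l : ℕ) (t : Pat) (χ₁ χ₂ χ₃ : Chart) (A B : Fin 3 → Bool) (P Q : Box) : Prop where
  v : V3 l χ₁ χ₂ χ₃
  u : ∀ a, A a = true ∨ B a = true
  p : Lw l (ap χ₁ t A) (ap χ₂ t A) P
  q : Lw l (ap χ₁ t B) (ap χ₃ t B) Q
  p3 : P.1 ≠ χ₃.1
  pq : P.1 ≠ Q.1
  q2 : Q.1 ≠ χ₂.1

/-- the commutator -/
def C (d : D3G G) (t : Pat) (χ₁ χ₂ χ₃ : Chart) (A B : Fin 3 → Bool) (P Q : Box) : G :=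
  ⁅d (ap χ₁ t A) (ap χ₂ t A) P, d (ap χ₁ t B) (ap χ₃ t B) Q⁆

theorem v_sw (h : V3 l χ₁ χ₂ χ₃) : V3 l χ₁ χ₃ χ₂ :=
  ⟨h.1, h.2.2.1, h.2.1, h.2.2.2.2.1, h.2.2.2.1, h.2.2.2.2.2.symm⟩

theorem Ad.sw (h : Ad l t χ₁ χ₂ χ₃ A B P Q) : Ad l t χ₁ χ₃ χ₂ B A Q P :=
  ⟨v_sw h.v, fun a => (h.u a).symm, h.q, h.p, h.q2, h.pq.symm, h.p3⟩

theorem C_sw : C d t χ₁ χ₂ χ₃ A B P Q = (C d t χ₁ χ₃ χ₂ B A Q P)⁻¹ := by
  rw [C, C, commutatorElement_inv]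

theorem cm_mul {x r y : G} (h : Commute r y) : ⁅x * r, y⁆ = ⁅x, y⁆ := by
  rw [commutatorElement_def, commutatorElement_def, mul_assoc x r y, h.eq]
  group

theorem cm_conj {g x y x' y' : G} (h : g * x = x' * g) (h' : g * y = y' * g) :
    g * ⁅x, y⁆ = ⁅x', y'⁆ * g := by
  rw [← mul_inv_eq_iff_eq_mul] at h h'
  rw [← h, ← h', commutatorElement_def, commutatorElement_def]
  group

theorem lw_ap (S : ShapeF) (h : V3 l χ₁ χ₂ χ₃) (hA : sz A ≤ 2) :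
    Lw l (ap χ₁ t A) (ap χ₂ t A) (ap χ₃ t A) := by
  obtain ⟨h1, h2, h3, h4, h5, h6⟩ := h
  refine ⟨⟨S.ap_ty _ _ _ _ (by omega), S.ap_ty _ _ _ _ (by omega), h4, h5, h6⟩, ?_⟩
  rw [S.ap_wt]
  unfold sz at hA
  omega

theorem Ad.szA (S : ShapeF) (h : Ad l t χ₁ χ₂ χ₃ A B P Q) : sz A ≤ 2 := by
  have e := h.p.2
  have e' := h.v.1
  rw [S.ap_wt] at e
  unfold sz
  omega

theorem Ad.p1 (h : Ad l t χ₁ χ₂ χ₃ A B P Q) : P.1 ≠ χ₁.1 := h.p.1.2.2.2.1.symm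

theorem Ad.p2 (h : Ad l t χ₁ χ₂ χ₃ A B P Q) : P.1 ≠ χ₂.1 := h.p.1.2.2.2.2.symm

theorem v_new (h : V3 l χ₁ χ₂ χ₃) {i : Fin 40} (h1 : i ≠ χ₁.1) (h2 : i ≠ χ₂.1) :
    V3 l χ₁ χ₂ (i, χ₁.2) := ⟨h.1, h.2.1, h.1, h.2.2.2.1, h1.symm, h2.symm⟩

/-- a new first box -/
theorem Ad.newP (S : ShapeF) (h : Ad l t χ₁ χ₂ χ₃ A B P Q) {A' : Fin 3 → Bool} (hA : sz A' ≤ 2)
    (hu : ∀ a, A' a = true ∨ B a = true) {i : Fin 40} (hi : i ∉ [χ₁.1, χ₂.1, χ₃.1, Q.1]) :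
    Ad l t χ₁ χ₂ χ₃ A' B (ap (i, χ₁.2) t A') Q := by
  simp only [List.mem_cons, List.not_mem_nil, or_false, not_or] at hi
  exact ⟨h.v, hu, lw_ap S (v_new h.v hi.1 hi.2.1) hA, h.q, hi.2.2.1, hi.2.2.2, h.q2⟩

/-- admissible data in given copies -/
theorem ad_new (S : ShapeF) (h : V3 l χ₁ χ₂ χ₃) (hA : sz A ≤ 2) (hB : sz B ≤ 2)
    (hu : ∀ a, A a = true ∨ B a = true) (χ : Chart) (hχ : cd χ + 2 = l) {i j : Fin 40}
    (hi : i ∉ [χ₁.1, χ₂.1, χ₃.1]) (hj : j ∉ [χ₁.1, χ₂.1, χ₃.1]) (hij : i ≠ j) :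
    Ad l t χ₁ χ₂ χ₃ A B (ap (i, χ.2) t A) (ap (j, χ.2) t B) := by
  simp only [List.mem_cons, List.not_mem_nil, or_false, not_or] at hi hj
  exact ⟨h, hu, lw_ap S ⟨h.1, h.2.1, hχ, h.2.2.2.1, Ne.symm hi.1, Ne.symm hi.2.1⟩ hA,
    lw_ap S ⟨h.1, h.2.2.1, hχ, h.2.2.2.2.1, Ne.symm hj.1, Ne.symm hj.2.2⟩ hB, hi.2.2, hij, hj.2.1⟩

theorem two_new (S : ShapeF) (L : List (Fin 40)) (hL : L.length < 39) :
    ∃ i j, i ∉ L ∧ j ∉ L ∧ i ≠ j := by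
  obtain ⟨j, hj⟩ := S.fresh L (by omega)
  obtain ⟨i, hi⟩ := S.fresh (j :: L) (by rw [List.length_cons]; omega)
  rw [List.mem_cons, not_or] at hi
  exact ⟨i, j, hi.2, hj, hi.1⟩

section
variable (S : ShapeF) (F : BasF) (hd : Sys (Lw l) d)
include S F hd

theorem indP0 {P' : Box} (h : Ad l t χ₁ χ₂ χ₃ A B P Q) (h' : Ad l t χ₁ χ₂ χ₃ A B P' Q)
    (ne : P'.1 ≠ P.1) : C d t χ₁ χ₂ χ₃ A B P' Q = C d t χ₁ χ₂ χ₃ A B P Q := by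
  have ty := S.ty_symm _ _ h'.p.1.2.1
  have w : Lw l P' P (ap χ₂ t A) :=
    ⟨⟨S.ty_trans _ _ _ ty h.p.1.2.1, S.ty_trans _ _ _ ty h.p.1.1, ne, h'.p2, h.p2⟩,
      (S.ty_wt _ _ ty).trans_le h.p.2⟩
  rw [C, C, F.third G _ d hd (S.sy_lw l) _ _ P P' h.p h'.p w]
  refine cm_mul (F.comm G _ d hd _ _ _ _ _ _ w h.q ?_ ?_ ?_)
  · exact ⟨.inl h'.p1.symm, .inl h.p1.symm, .inl h.v.2.2.2.1⟩
  · exact ⟨.inl h'.p3.symm, .inl h.p3.symm, .inl h.v.2.2.2.2.2.symm⟩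
  · exact ⟨.inl h'.pq.symm, .inl h.pq.symm, .inl h.q2⟩

theorem indP {P' : Box} (h : Ad l t χ₁ χ₂ χ₃ A B P Q) (h' : Ad l t χ₁ χ₂ χ₃ A B P' Q) :
    C d t χ₁ χ₂ χ₃ A B P' Q = C d t χ₁ χ₂ χ₃ A B P Q := by
  obtain ⟨i, hi⟩ := S.fresh [P.1, P'.1, χ₁.1, χ₂.1, χ₃.1, Q.1] (by simp)
  rw [List.mem_cons, List.mem_cons, not_or, not_or] at hi
  have k := h.newP S (h.szA S) h.u hi.2.2
  exact (indP0 S F hd h' k hi.2.1).symm.trans (indP0 S F hd h k hi.1)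

theorem ind {P' Q' : Box} (h : Ad l t χ₁ χ₂ χ₃ A B P Q) (h' : Ad l t χ₁ χ₂ χ₃ A B P' Q') :
    C d t χ₁ χ₂ χ₃ A B P' Q' = C d t χ₁ χ₂ χ₃ A B P Q := by
  obtain ⟨i, hi⟩ := S.fresh [χ₁.1, χ₂.1, χ₃.1, Q.1, Q'.1] (by simp)
  have k := h.newP S (h.szA S) h.u (i := i) fun e => hi (by simp at e ⊢; tauto)
  have k' := h'.newP S (h.szA S) h.u (i := i) fun e => hi (by simp at e ⊢; tauto)
  rw [indP S F hd k' h', ← indP S F hd h k, C_sw, indP S F hd k.sw k'.sw, ← C_sw]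

/-- one more letter in the first entry -/
theorem enl {P' Q' : Box} {a : Fin 3} (h : Ad l t χ₁ χ₂ χ₃ A B P Q)
    (h' : Ad l t χ₁ χ₂ χ₃ (Function.update A a true) B P' Q') (hA : A a = false)
    (hB : B a = true) :
    C d t χ₁ χ₂ χ₃ A B P Q = C d t χ₁ χ₂ χ₃ (Function.update A a true) B P' Q' := by
  obtain ⟨i, hi⟩ := S.fresh [χ₁.1, χ₂.1, χ₃.1, Q.1] (by simp)
  have k := h.newP S (h.szA S) h.u hi
  have k' := h.newP S (h'.szA S) h'.u hi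
  rw [ind S F hd k h, ind S F hd k' h']
  have v := v_new h.v k.p1 k.p2
  have e := fun χ => (S.ap_kd χ t A a hA).2
  have w : ∀ o, Lw l (kd (ap χ₁ t A) (idx t A a) o) (kd (ap χ₂ t A) (idx t A a) o)
      (kd (ap (i, χ₁.2) t A) (idx t A a) o) := fun o => by
    rw [e, e, e]
    exact lw_ap S v (h'.szA S)
  obtain ⟨r, h1, -, h3⟩ := F.split' G _ d hd _ _ _ (idx t A a) k.p (S.dc_tri _ _ _ k.p.1)
    (S.ap_kd χ₁ t A a hA).1 w (t a)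
  rw [e, e, e, Function.update_eq_self] at h1
  rw [C, C, h1]
  refine cm_mul (h3 _ fun o ho => F.comm G _ d hd _ _ _ _ _ _ (w o) k.q ?_ ?_ ?_)
  · refine ⟨?_, .inl h.v.2.2.2.1, .inl k.p1.symm⟩
    rw [e]
    exact S.ap_disj χ₁ t _ B _ a hB (Function.update_self ..)
      (by rw [Function.update_self]; exact ho.symm)
  · exact ⟨.inl h.v.2.2.2.2.1.symm, .inl h.v.2.2.2.2.2.symm, .inl k.p3.symm⟩
  · exact ⟨.inl h.sw.p1, .inl h.q2, .inl k.pq.symm⟩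

theorem stepL {x y : Fin 3} (ne : x ≠ y) {P' Q' : Box}
    (h : Ad l t χ₁ χ₂ χ₃ (one y) (ms y) P Q) (h' : Ad l t χ₁ χ₂ χ₃ (ms x) (ms y) P' Q') :
    C d t χ₁ χ₂ χ₃ (one y) (ms y) P Q = C d t χ₁ χ₂ χ₃ (ms x) (ms y) P' Q' := by
  obtain ⟨z, h1, h2, h3⟩ : ∃ z, one y z = false ∧ ms y z = true ∧
      ms x = Function.update (one y) z true := by
    clear h h'
    revert x y
    decide
  rw [h3] at h' ⊢
  exact enl S F hd h h' h1 h2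

/-- all the commutators agree -/
theorem all (v : V3 l χ₁ χ₂ χ₃) : ∃ g, ∀ A B P Q, Ad l t χ₁ χ₂ χ₃ A B P Q →
    g = C d t χ₁ χ₂ χ₃ A B P Q := by
  obtain ⟨i, j, hi, hj, ij⟩ := two_new S [χ₁.1, χ₂.1, χ₃.1] (by simp)
  have s1 : ∀ x, sz (one x) ≤ 2 := by decide
  have s2 : ∀ x, sz (ms x) ≤ 2 := by decide
  have u1 : ∀ x a, one x a = true ∨ ms x a = true := by decide
  have u2 : ∀ x y, x ≠ y → ∀ a, ms x a = true ∨ ms y a = true := by decide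
  let c := fun A B => C d t χ₁ χ₂ χ₃ A B (ap (i, χ₁.2) t A) (ap (j, χ₁.2) t B)
  have L : ∀ x y, x ≠ y → c (one y) (ms y) = c (ms x) (ms y) := fun x y ne =>
    stepL S F hd ne (ad_new S v (s1 y) (s2 y) (u1 y) χ₁ v.1 hi hj ij)
      (ad_new S v (s2 x) (s2 y) (u2 x y ne) χ₁ v.1 hi hj ij)
  have R : ∀ x y, x ≠ y → c (ms x) (one x) = c (ms x) (ms y) := fun x y ne => by
    have e := stepL S F hd (t := t) ne.symm
      (ad_new S v (s2 x) (s1 x) (fun a => (u1 x a).symm) χ₁ v.1 hi hj ij).sw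
      (ad_new S v (s2 x) (s2 y) (u2 x y ne) χ₁ v.1 hi hj ij).sw
    exact C_sw.trans ((congrArg _ e).trans C_sw.symm)
  have e02 : c (ms 0) (ms 2) = c (ms 0) (ms 1) :=
    (R 0 2 (by decide)).symm.trans (R 0 1 (by decide))
  have e21 : c (ms 2) (ms 1) = c (ms 0) (ms 1) :=
    (L 2 1 (by decide)).symm.trans (L 0 1 (by decide))
  have e12 : c (ms 1) (ms 2) = c (ms 0) (ms 1) :=
    ((L 1 2 (by decide)).symm.trans (L 0 2 (by decide))).trans e02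
  have e20 : c (ms 2) (ms 0) = c (ms 0) (ms 1) :=
    ((R 2 0 (by decide)).symm.trans (R 2 1 (by decide))).trans e21
  have e10 : c (ms 1) (ms 0) = c (ms 0) (ms 1) :=
    ((R 1 0 (by decide)).symm.trans (R 1 2 (by decide))).trans e12
  have W : ∀ x y, x ≠ y → c (ms x) (ms y) = c (ms 0) (ms 1) := fun x y ne =>
    match x, y, ne with
    | 0, 0, ne => absurd rfl ne
    | 0, 1, _ => rfl
    | 0, 2, _ => e02
    | 1, 0, _ => e10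
    | 1, 1, ne => absurd rfl ne
    | 1, 2, _ => e12
    | 2, 0, _ => e20
    | 2, 1, _ => e21
    | 2, 2, ne => absurd rfl ne
  refine ⟨c (ms 0) (ms 1), fun A B P Q h => ?_⟩
  have k : ∀ A B : Fin 3 → Bool, sz A ≤ 2 → sz B ≤ 2 → (∀ a, A a = true ∨ B a = true) →
      ∃ x y, x ≠ y ∧
        (A = ms x ∧ B = ms y ∨ A = one y ∧ B = ms y ∨ A = ms x ∧ B = one x) := by decide
  rw [ind S F hd (ad_new S v (h.szA S) (h.sw.szA S) h.u χ₁ v.1 hi hj ij) h]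
  obtain ⟨x, y, ne, ⟨rfl, rfl⟩ | ⟨rfl, rfl⟩ | ⟨rfl, rfl⟩⟩ := k A B (h.szA S) (h.sw.szA S) h.u
  · exact (W x y ne).symm
  · exact ((L x y ne).trans (W x y ne)).symm
  · exact ((R x y ne).trans (W x y ne)).symm

end

/-- a common stack of incomparability -/
theorem stack (S : ShapeF) (v : V3 l χ₁ χ₂ χ₃) {z : Box}
    (h : D3 z (gd χ₁ t) (gd χ₂ t) (gd χ₃ t)) : ∃ a, ∀ A : Fin 3 → Bool, A a = true →
      Disj z (ap χ₁ t A) ∧ Disj z (ap χ₂ t A) ∧ Disj z (ap χ₃ t A) := by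
  obtain ⟨-, -, -, h4, h5, h6⟩ := v
  by_cases e1 : z.1 = χ₁.1
  · obtain ⟨a, ha⟩ := S.gd_disj _ _ _ h.1
    exact ⟨a, fun A hA => ⟨ha A hA, .inl (e1 ▸ h4), .inl (e1 ▸ h5)⟩⟩
  by_cases e2 : z.1 = χ₂.1
  · obtain ⟨a, ha⟩ := S.gd_disj _ _ _ h.2.1
    exact ⟨a, fun A hA => ⟨.inl e1, ha A hA, .inl (e2 ▸ h6)⟩⟩
  · obtain ⟨a, ha⟩ := S.gd_disj _ _ _ h.2.2
    exact ⟨a, fun A hA => ⟨.inl e1, .inl e2, ha A hA⟩⟩

theorem mv_ap (S : ShapeF) {g₁ g₂ g₃ : Box} (hg : Lw l g₁ g₂ g₃) {χ χ' : Chart}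
    (h : Mv g₁ g₂ g₃ (ch χ) (ch χ')) : Mv g₁ g₂ g₃ (ap χ t A) (ap χ' t A) := by
  obtain ⟨u, hu, e, e'⟩ := S.ap_mo χ χ' t (fun _ => false) A fun _ h => absurd h (by simp)
  rw [S.ch_eq χ t, S.ch_eq χ' t] at h
  rw [e, e']
  exact S.mv_sb _ _ _ _ _ u (S.dc_tri _ _ _ hg.1) h hu

end Fpbx

open Fpbx in
theorem fpb_main : SpFpb := by
  intro S F G _ l d _ hd
  have key : ∀ t χ₁ χ₂ χ₃, ∃ g, ∀ A B P Q, Ad l t χ₁ χ₂ χ₃ A B P Q →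
      g = C d t χ₁ χ₂ χ₃ A B P Q := fun t χ₁ χ₂ χ₃ => by
    by_cases v : V3 l χ₁ χ₂ χ₃
    · exact all S F hd v
    · exact ⟨1, fun A B P Q h => absurd h.v v⟩
  choose D hD using key
  have s2 : ∀ x, sz (ms x) ≤ 2 := by decide
  have u2 : ∀ x y, x ≠ y → ∀ a, ms x a = true ∨ ms y a = true := by decide
  refine ⟨D, fun t χ₁ χ₂ χ₃ A B P Q v u p q h1 h2 h3 => hD _ _ _ _ _ _ _ _ ⟨v, u, p, q, h1, h2, h3⟩,
    fun t χ₁ χ₂ χ₃ g₁ g₂ g₃ v hg d1 d2 d3 => ?_,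
    fun t χ₁ χ₂ χ₃ χ₁' χ₂' χ₃' g₁ g₂ g₃ v v' hg hm => ?_⟩
  · have k := F.carmL G l d hd g₁ g₂ g₃ hg [χ₁.1, χ₂.1, χ₃.1] (by simp)
      (Subgroup.centralizer {D t χ₁ χ₂ χ₃}) fun z f f' hz w hf hf' => ?_
    · exact Subgroup.mem_centralizer_singleton_iff.1 k
    obtain ⟨a, ha⟩ := stack S v (z := z) (t := t) (by rcases hz with rfl | rfl | rfl <;> assumption)
    obtain ⟨x, y, ne, hx, hy⟩ : ∃ x y, x ≠ y ∧ ms x a = true ∧ ms y a = true := by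
      clear ha
      revert a
      decide
    obtain ⟨i, j, hi, hj, ij⟩ := two_new S [χ₁.1, χ₂.1, χ₃.1, z.1, f.1, f'.1] (by simp)
    have h := ad_new S (t := t) v (s2 x) (s2 y) (u2 x y ne) χ₁ v.1 (i := i) (j := j)
      (fun e => hi (by simp at e ⊢; tauto)) (fun e => hj (by simp at e ⊢; tauto)) ij
    simp only [List.mem_cons, List.not_mem_nil, or_false, not_or] at hi hj hf hf'
    have c1 := F.comm G _ d hd _ _ _ _ _ _ w h.p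
      ⟨S.disj_symm _ _ (ha _ hx).1, .inl (Ne.symm hf.1), .inl (Ne.symm hf'.1)⟩
      ⟨S.disj_symm _ _ (ha _ hx).2.1, .inl (Ne.symm hf.2.1), .inl (Ne.symm hf'.2.1)⟩
      ⟨.inl hi.2.2.2.1, .inl hi.2.2.2.2.1, .inl hi.2.2.2.2.2⟩
    have c2 := F.comm G _ d hd _ _ _ _ _ _ w h.q
      ⟨S.disj_symm _ _ (ha _ hy).1, .inl (Ne.symm hf.1), .inl (Ne.symm hf'.1)⟩
      ⟨S.disj_symm _ _ (ha _ hy).2.2, .inl (Ne.symm hf.2.2), .inl (Ne.symm hf'.2.2)⟩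
      ⟨.inl hj.2.2.2.1, .inl hj.2.2.2.2.1, .inl hj.2.2.2.2.2⟩
    rw [Subgroup.mem_centralizer_singleton_iff, hD _ _ _ _ _ _ _ _ h]
    exact cm_conj c1.eq c2.eq
  · obtain ⟨i, j, hi, hj, ij⟩ :=
      two_new S [χ₁.1, χ₂.1, χ₃.1, χ₁'.1, χ₂'.1, χ₃'.1, g₁.1, g₂.1, g₃.1] (by simp)
    have h := ad_new S (t := t) v (s2 0) (s2 1) (u2 0 1 (by decide)) χ₁ v.1 (i := i) (j := j)
      (fun e => hi (by simp at e ⊢; tauto)) (fun e => hj (by simp at e ⊢; tauto)) ij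
    have h' := ad_new S (t := t) v' (s2 0) (s2 1) (u2 0 1 (by decide)) χ₁ v.1 (i := i) (j := j)
      (fun e => hi (by simp at e ⊢; tauto)) (fun e => hj (by simp at e ⊢; tauto)) ij
    simp only [List.mem_cons, List.not_mem_nil, or_false, not_or] at hi hj
    rw [hD _ _ _ _ _ _ _ _ h, hD _ _ _ _ _ _ _ _ h']
    refine cm_conj ?_ ?_
    · exact hd.conj _ _ _ _ _ _ _ _ _ hg h.p h'.p (mv_ap S hg hm.1) (mv_ap S hg hm.2.1)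
        (.inr (.inr (.inr ⟨rfl, .inl hi.2.2.2.2.2.2.1, .inl hi.2.2.2.2.2.2.2.1,
          .inl hi.2.2.2.2.2.2.2.2⟩)))
    · exact hd.conj _ _ _ _ _ _ _ _ _ hg h.q h'.q (mv_ap S hg hm.1) (mv_ap S hg hm.2.2)
        (.inr (.inr (.inr ⟨rfl, .inl hj.2.2.2.2.2.2.1, .inl hj.2.2.2.2.2.2.2.1,
          .inl hj.2.2.2.2.2.2.2.2⟩)))

end Pool.Agent.MP_89edc2_al.R3
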