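import Pool.Agent.MP_89edc2_al.R3.Spec2

/-!
# The extension of the families on charts to all boxes in one slot
-/

namespace Pool.Agent.MP_89edc2_al.R3

namespace Fpxx

variable {G : Type} [Group G] {l : ℕ} {d : D3G G} {S : Finset (Fin 40)} {O : Box → Prop} {c : ℕ}
  {Yf : Pat → Chart → G}

/-- the hypotheses -/
structure Ctx (l : ℕ) (d : D3G G) (S : Finset (Fin 40)) (O : Box → Prop) (c : ℕ)
    (Yf : Pat → Chart → G) : Prop where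
  sh : ShapeF
  bs : BasF
  l3 : 3 ≤ l
  sys : Sys (Lw l) d
  card : S.card ≤ 2
  out : ∀ z : Box, z.1 ∉ S → O z
  nv : NvOut (Fam l d S O) (Cv l d S) c Yf

/-- a flag with a chart of the same label -/
structure Val (l : ℕ) (S : Finset (Fin 40)) (c : ℕ) (η : Box) (j : ℕ) (o : Option Bool) (t : Pat)
    (a : Fin 3) (χ : Chart) (z : Box) : Prop where
  lt : j < ar η.2
  cn : cnt t = c
  dr : dir t a = j
  ta : t a = o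
  dc : cd χ + 2 = l
  lw : Lw l (fl χ t a) η z
  s1 : χ.1 ∉ S
  s2 : η.1 ∉ S
  s3 : z.1 ∉ S

/-- the transported value -/
def vl (d : D3G G) (Yf : Pat → Chart → G) (η : Box) (t : Pat) (a : Fin 3) (χ : Chart) (z : Box) :
    G := d (fl χ t a) η z * Yf t χ * (d (fl χ t a) η z)⁻¹

theorem fresh2 (h : Ctx l d S O c Yf) (L : List (Fin 40)) (hL : L.length ≤ 30) :
    ∃ i k, i ∉ S ∧ k ∉ S ∧ i ∉ L ∧ k ∉ L ∧ i ≠ k := by
  have hc := h.card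
  obtain ⟨i, i1, i2⟩ := h.sh.freshS S L (by omega)
  obtain ⟨k, k1, k2⟩ := h.sh.freshS S (i :: L) (by rw [List.length_cons]; omega)
  rw [List.mem_cons, not_or] at k2
  exact ⟨i, k, i1, k1, i2, k2.2, fun e => k2.1 e.symm⟩

/-- cycles in other copies commute with the family -/
theorem cmF (h : Ctx l d S O c Yf) {t : Pat} {χ : Chart} {g₁ g₂ g₃ : Box} (ht : cnt t = c)
    (hc : cd χ + 2 = l) (hs : χ.1 ∉ S) (hg : Lw l g₁ g₂ g₃) (h1 : Disj (gd χ t) g₁)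
    (h2 : χ.1 ≠ g₂.1) (h3 : χ.1 ≠ g₃.1) (o1 : O g₁) (o2 : g₂.1 ∉ S) (o3 : g₃.1 ∉ S) :
    Commute (d g₁ g₂ g₃) (Yf t χ) :=
  (h.nv.1 t ht).cm χ g₁ g₂ g₃ hc hs hg ⟨h1, .inl h2, .inl h3⟩ o1 (h.out _ o2) (h.out _ o3)

theorem cj {x r y : G} (h : Commute r y) : x * r * y * (x * r)⁻¹ = x * y * x⁻¹ := by
  rw [mul_assoc x r y, h.eq]; group

variable {η : Box} {j : ℕ} {o : Option Bool} {t t' : Pat} {a a' : Fin 3} {χ χ' : Chart}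
  {z z' : Box}

/-- the third slot does not matter -/
theorem slot (h : Ctx l d S O c Yf) (v : Val l S c η j o t a χ z) (v' : Val l S c η j o t a χ z')
    (n : z'.1 ≠ z.1) : vl d Yf η t a χ z' = vl d Yf η t a χ z := by
  obtain ⟨⟨p1, p2, p3, p4, p5⟩, p6⟩ := v.lw
  obtain ⟨⟨q1, q2, q3, q4, q5⟩, -⟩ := v'.lw
  have s := h.sh.ty_symm _ _ q2
  have w : Lw l z' z η := ⟨⟨h.sh.ty_trans _ _ _ s p2, h.sh.ty_trans _ _ _ s p1, n, q5.symm,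
    p5.symm⟩, by rw [h.sh.ty_wt _ _ s]; exact p6⟩
  rw [vl, vl, h.bs.third G _ d h.sys (h.sh.sy_lw l) _ _ z z' v.lw v'.lw w]
  exact cj (cmF h v.cn v.dc v.s1 w (.inl q4) p4 p3 (h.out _ v'.s3) v.s3 v.s2)

/-- the chart does not matter -/
theorem chart (h : Ctx l d S O c Yf) (v : Val l S c η j o t a χ z)
    (v' : Val l S c η j o t' a' χ' z) (n : χ.1 ≠ χ'.1) :
    vl d Yf η t a χ z = vl d Yf η t' a' χ' z := by
  obtain ⟨⟨p1, p2, p3, p4, p5⟩, p6⟩ := v.lw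
  obtain ⟨⟨q1, q2, q3, q4, q5⟩, -⟩ := v'.lw
  have w : Lw l (fl χ t a) (fl χ' t' a') z :=
    ⟨⟨h.sh.ty_trans _ _ _ p1 (h.sh.ty_symm _ _ q1), p2, n, p4, q4⟩, p6⟩
  have e := h.sys.tri _ η z _ v.lw (h.sh.sy_lw l _ _ _ v'.lw).1 w
  rw [← h.sys.cyc _ _ _ v'.lw] at e
  have k := h.nv.2 t a t' a' v.cn v'.cn (v.dr.trans v'.dr.symm) (v.ta.trans v'.ta.symm) χ χ' z
    v.dc v'.dc w v.s1 v'.s1 v.s3
  rw [vl, vl, ← e, mul_assoc (d _ η z), k]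
  group

theorem Val.slot (v : Val l S c η j o t a χ z) {k : Fin 40} (k1 : k ∉ S) (k2 : χ.1 ≠ k)
    (k3 : η.1 ≠ k) : Val l S c η j o t a χ (k, η.2) :=
  ⟨v.lt, v.cn, v.dr, v.ta, v.dc, ⟨⟨v.lw.1.1, v.lw.1.1, v.lw.1.2.2.1, k2, k3⟩, v.lw.2⟩, v.s1, v.s2,
    k1⟩

theorem Val.chart (v : Val l S c η j o t a χ z) {i : Fin 40} (i1 : i ∉ S) (i2 : i ≠ η.1)
    (i3 : i ≠ z.1) : Val l S c η j o t a (i, χ.2) z :=
  ⟨v.lt, v.cn, v.dr, v.ta, v.dc, ⟨⟨v.lw.1.1, v.lw.1.2.1, i2, i3, v.lw.1.2.2.2.2⟩, v.lw.2⟩, i1,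
    v.s2, v.s3⟩

/-- one flag -/
theorem same (h : Ctx l d S O c Yf) (v : Val l S c η j o t a χ z)
    (v' : Val l S c η j o t' a' χ' z') : vl d Yf η t a χ z = vl d Yf η t' a' χ' z' := by
  obtain ⟨i, k, i1, k1, i2, k2, n⟩ := fresh2 h [η.1, χ.1, χ'.1, z.1, z'.1] (by simp)
  simp only [List.mem_cons, List.not_mem_nil, or_false, not_or] at i2 k2
  have w := v.slot k1 (Ne.symm k2.2.1) (Ne.symm k2.1)
  have w' := v'.slot k1 (Ne.symm k2.2.2.1) (Ne.symm k2.1)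
  have u := w.chart i1 i2.1 n
  rw [← slot h v w k2.2.2.2.1, ← slot h v' w' k2.2.2.2.2, chart h w u (Ne.symm i2.2.1),
    chart h u w' i2.2.2.1]

theorem Val.wt (h : Ctx l d S O c Yf) (v : Val l S c η j o t a χ z) : wt η.2 = l := by
  rw [← h.sh.ty_wt _ _ v.lw.1.1, h.sh.fl_wt, v.dc]

theorem Val.ar (h : Ctx l d S O c Yf) (v : Val l S c η j o t a χ z) : ar (kd η j o).2 = c := by
  obtain ⟨g1, g2, -⟩ := h.sh.gd_kd χ t a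
  have e := h.sh.ty_kd _ _ (dir t a) j o v.lw.1.1 g1 (v.dr ▸ g1)
  rw [← e.2.2.1, ← v.ta, ← g2, (h.sh.gd_wt χ t).2, v.cn]

/-- the joint move acts as one of its pieces -/
theorem piece (h : Ctx l d S O c Yf) {g ζ w : Box} {i : ℕ} {s : Fin 3} (ht : cnt t = c)
    (hc : cd χ + 2 = l) (hs : χ.1 ∉ S) (hd : Dc g ζ w) (hw : wt g.2 + 1 = l) (hi : i < ar g.2)
    (e : fl χ t s = kd g i o) (s2 : ζ.1 ∉ S) (s3 : w.1 ∉ S) :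
    Lw l (fl χ t s) (kd ζ i o) (kd w i o) ∧
      vl d Yf (kd ζ i o) t s χ (kd w i o) = d g ζ w * Yf t χ * (d g ζ w)⁻¹ := by
  have e1 : χ.1 = g.1 := congrArg Prod.fst e
  have lw : ∀ o', Lw l (kd g i o') (kd ζ i o') (kd w i o') := fun o' =>
    ⟨⟨h.sh.ty_kd _ _ i i o' hd.1 hi hi, h.sh.ty_kd _ _ i i o' hd.2.1 hi hi, hd.2.2⟩,
      ((h.sh.kid_wt g.2 i o' hi).trans hw).le⟩
  obtain ⟨r, r1, -, r2⟩ := h.bs.split' G _ d h.sys g ζ w i ⟨hd, by omega⟩ (h.sh.dc_tri _ _ _ hd)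
    hi lw o
  refine ⟨e ▸ lw o, ?_⟩
  rw [vl, r1, e]
  refine (cj (r2 _ fun o' n => cmF h ht hc hs (lw o') ?_ (e1 ▸ hd.2.2.1) (e1 ▸ hd.2.2.2.1)
    (h.out _ (e1 ▸ hs)) s2 s3)).symm
  rw [(h.sh.gd_kd χ t s).2.1, e]
  exact h.sh.disj_kd _ _ _ _ (h.sh.disj_kids g i o o' hi n.symm)

/-- all flags -/
theorem uniq (h : Ctx l d S O c Yf) {η' : Box} {j' : ℕ} {o' : Option Bool}
    (v : Val l S c η j o t a χ z) (v' : Val l S c η' j' o' t' a' χ' z')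
    (e : kd η j o = kd η' j' o') : vl d Yf η t a χ z = vl d Yf η' t' a' χ' z' := by
  rcases h.sh.flags η η' j j' o o' v.lt v'.lt e with ⟨rfl, rfl, rfl⟩ |
    ⟨ζ, i₁, i₂, l1, l2, n, rfl, rfl, rfl, rfl⟩
  · exact same h v v'
  have hl : ζ.2.length = 3 := (h.sh.kid_len ζ.2 i₂ o').symm.trans v.lw.1.1.2.1
  have hw : wt ζ.2 + 1 = l := (h.sh.kid_wt ζ.2 i₂ o' l2).symm.trans (v.wt h)
  obtain ⟨t₀, a₀, s₁, s₂, e1, e2, d1, d2, c0, hχ⟩ := h.sh.joint_ex l ζ i₁ i₂ o o' hl hw l1 l2 n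
  obtain ⟨i, k, i1, k1, i2, k2, m⟩ := fresh2 h [ζ.1] (by simp)
  rw [List.mem_singleton] at i2 k2
  obtain ⟨y, f1, f2⟩ := hχ (i, χ.2) v.dc
  have ht : cnt t₀ = c := c0.trans (v.ar h)
  have hd : Dc (ap (i, χ.2) t₀ (one a₀)) ζ (k, ζ.2) := ⟨y, y, i2, m, Ne.symm k2⟩
  have hw' : wt (ap (i, χ.2) t₀ (one a₀)).2 + 1 = l := by rw [h.sh.ty_wt _ _ y, hw]
  obtain ⟨p1, p2⟩ := piece h (χ := (i, χ.2)) ht v.dc i1 hd hw' (y.2.2.1 ▸ l2) f1 v.s2 k1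
  obtain ⟨q1, q2⟩ := piece h (χ := (i, χ.2)) ht v.dc i1 hd hw' (y.2.2.1 ▸ l1) f2 v.s2 k1
  rw [same h (χ' := (i, χ.2)) v ⟨v.lt, ht, d1, e1, v.dc, p1, i1, v.s2, k1⟩,
    same h (χ' := (i, χ.2)) v' ⟨v'.lt, ht, d2, e2, v.dc, q1, i1, v'.s2, k1⟩, p2, q2]

/-- a chart for a flag, in fresh copies -/
theorem lab (h : Ctx l d S O c Yf) (hl : η.2.length = 3) (hw : wt η.2 = l) (hj : j < ar η.2)
    (hc : ar (kd η j o).2 = c) (hs : η.1 ∉ S) (L : List (Fin 40)) (hL : L.length ≤ 20) :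
    ∃ t a χ z, Val l S c η j o t a χ z ∧ χ.1 ∉ L ∧ z.1 ∉ L := by
  obtain ⟨t, a, e1, e2, e3, e4⟩ := h.sh.lab_ex l η j o hl hw hj
  obtain ⟨i, k, i1, k1, i2, k2, m⟩ := fresh2 h (η.1 :: L) (by rw [List.length_cons]; omega)
  rw [List.mem_cons, not_or] at i2 k2
  have l3 := h.l3
  obtain ⟨χ, rfl, hχ⟩ := h.sh.chart_ex l i (by omega)
  have y := e4 χ hχ
  exact ⟨t, a, χ, (k, η.2), ⟨hj, e3.trans hc, e1, e2, hχ,
    ⟨⟨y, y, i2.1, m, Ne.symm k2.1⟩, by rw [h.sh.ty_wt _ _ y, hw]⟩, i1, hs, k1⟩, i2.2, k2.2⟩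

theorem ex (h : Ctx l d S O c Yf) : ∃ x : Box → G, ∀ η j o t a χ z, Val l S c η j o t a χ z →
    x (kd η j o) = vl d Yf η t a χ z := by
  have k : ∀ b : Box, ∃ y : G, ∀ η j o t a χ z, Val l S c η j o t a χ z → b = kd η j o →
      y = vl d Yf η t a χ z := fun b => by
    by_cases e : ∃ η j o t a χ z, Val l S c η j o t a χ z ∧ b = kd η j o
    · obtain ⟨η, j, o, t, a, χ, z, v, e⟩ := e
      exact ⟨_, fun _ _ _ _ _ _ _ v' e' => uniq h v v' (e.symm.trans e')⟩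
    · exact ⟨1, fun η j o t a χ z v e' => (e ⟨η, j, o, t, a, χ, z, v, e'⟩).elim⟩
  choose x hx using k
  exact ⟨x, fun η j o t a χ z v => hx _ η j o t a χ z v rfl⟩

variable {x : Box → G}

theorem onGd (h : Ctx l d S O c Yf)
    (hx : ∀ η j o t a χ z, Val l S c η j o t a χ z → x (kd η j o) = vl d Yf η t a χ z)
    (ht : cnt t = c) (hc : cd χ + 2 = l) (hs : χ.1 ∉ S) : x (gd χ t) = Yf t χ := by
  obtain ⟨g1, g2, -⟩ := h.sh.gd_kd χ t 0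
  obtain ⟨i, k, i1, k1, i2, k2, m⟩ := fresh2 h [χ.1] (by simp)
  rw [List.mem_singleton] at i2 k2
  have y : Ty (fl (i, χ.2) t 0) (fl χ t 0) := h.sh.ap_ty _ _ t _ rfl
  have w : Lw l (fl (i, χ.2) t 0) (fl χ t 0) (k, (fl χ t 0).2) :=
    ⟨⟨y, y, i2, m, Ne.symm k2⟩, ((h.sh.fl_wt _ t 0).trans hc).le⟩
  rw [g2, hx _ _ _ t 0 (i, χ.2) _ ⟨g1, ht, rfl, rfl, hc, w, i1, hs, k1⟩, vl,
    h.nv.2 t 0 t 0 ht ht rfl rfl (i, χ.2) χ _ hc hc w i1 hs k1, mul_inv_cancel_right]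

theorem mv (h : Ctx l d S O c Yf)
    (hx : ∀ η j o t a χ z, Val l S c η j o t a χ z → x (kd η j o) = vl d Yf η t a χ z)
    {b b' g₁ g₂ g₃ : Box} (hb : HT l c b) (hg : Lw l g₁ g₂ g₃) (s1 : g₁.1 ∉ S) (s2 : g₂.1 ∉ S)
    (s3 : g₃.1 ∉ S) (hm : Mo g₁ g₂ b b') : d g₁ g₂ g₃ * x b = x b' * d g₁ g₂ g₃ := by
  obtain ⟨u, hu, rfl, rfl⟩ := hm
  have w1 : wt g₁.2 + wt u = l + 1 := (h.sh.comp_wt g₁.2 u hu).symm.trans hb.2.2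
  have w2 := hg.2
  obtain ⟨u₀, j, o, hj, rfl⟩ := h.sh.parent u (by omega)
  rw [h.sh.kid_len] at hu
  rw [h.sh.kid_wt _ _ _ hj] at w1
  have hu' : u₀.length = ar g₂.2 := hu.trans hg.1.1.2.2.1
  have e1 : sb g₁ (kid u₀ j o) = kd (sb g₁ u₀) j o := Prod.ext rfl (h.sh.comp_kid _ _ j o hu)
  have e2 : sb g₂ (kid u₀ j o) = kd (sb g₂ u₀) j o := Prod.ext rfl (h.sh.comp_kid _ _ j o hu')
  have y := h.sh.ty_sb _ _ u₀ hg.1.1 hu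
  rw [e1] at hb
  obtain ⟨t, a, χ, z, v, c1, c2⟩ := lab h (η := sb g₁ u₀) (j := j) (o := o) y.1
    ((h.sh.comp_wt g₁.2 u₀ hu).trans (by omega)) ((h.sh.comp_ar g₁.2 u₀ hu).symm ▸ hj) hb.2.1 s1
    [g₁.1, g₂.1, g₃.1] (by simp)
  simp only [List.mem_cons, List.not_mem_nil, or_false, not_or] at c1 c2
  have v' : Val l S c (sb g₂ u₀) j o t a χ z := ⟨y.2.2.1 ▸ v.lt, v.cn, v.dr, v.ta, v.dc,
    ⟨⟨h.sh.ty_trans _ _ _ v.lw.1.1 y, v.lw.1.2.1, c1.2.1, v.lw.1.2.2.2.1, Ne.symm c2.2.1⟩,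
      v.lw.2⟩, v.s1, s2, v.s3⟩
  have k1 := h.sys.conj _ _ _ _ _ _ _ _ _ hg v.lw v'.lw
    (.inr (.inr (.inr ⟨rfl, .inl c1.1, .inl c1.2.1, .inl c1.2.2⟩))) (.inl ⟨u₀, hu, rfl, rfl⟩)
    (.inr (.inr (.inr ⟨rfl, .inl c2.1, .inl c2.2.1, .inl c2.2.2⟩)))
  have k2 := cmF h v.cn v.dc v.s1 hg (.inl c1.1) c1.2.1 c1.2.2 (h.out _ s1) s2 s3
  rw [e1, e2, hx _ _ _ _ _ _ _ v, hx _ _ _ _ _ _ _ v', vl, vl, ← mul_assoc, ← mul_assoc, k1,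
    mul_assoc _ (d g₁ g₂ g₃), k2.eq, mul_assoc, mul_assoc, mul_assoc, mul_assoc,
    mul_right_inj, mul_right_inj, mul_inv_eq_iff_eq_mul, mul_assoc, k1, inv_mul_cancel_left]

theorem cm (h : Ctx l d S O c Yf)
    (hx : ∀ η j o t a χ z, Val l S c η j o t a χ z → x (kd η j o) = vl d Yf η t a χ z)
    {b g₁ g₂ g₃ : Box} (hb : HT l c b) (hs : b.1 ∉ S) (hg : Lw l g₁ g₂ g₃) (hd : D3 b g₁ g₂ g₃)
    (o1 : O g₁) (o2 : O g₂) (o3 : O g₃) : Commute (d g₁ g₂ g₃) (x b) := by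
  have hc := h.card
  refine Subgroup.mem_centralizer_singleton_iff.1 (h.bs.carmL G l d h.sys _ _ _ hg
    (b.1 :: S.toList) (by rw [List.length_cons, Finset.length_toList]; omega)
    (Subgroup.centralizer {x b}) fun z f f' hz hw f1 f2 => ?_)
  rw [List.mem_cons, Finset.mem_toList, not_or] at f1 f2
  have p : Disj b z ∧ O z := by
    rcases hz with rfl | rfl | rfl
    exacts [⟨hd.1, o1⟩, ⟨hd.2.1, o2⟩, ⟨hd.2.2, o3⟩]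
  have w1 := hw.2
  have w2 := hb.2.2
  obtain ⟨η, j, o, hj, rfl, q⟩ := h.sh.flag1 b z hb.1 hw.1.1.1 (by omega) p.1
  have w3 : wt η.2 + 1 = l + 1 := (h.sh.kid_wt η.2 j o hj).symm.trans w2
  obtain ⟨t, a, χ, w, v, c1, c2⟩ := lab h (η := η) (j := j) (o := o)
    ((h.sh.kid_len η.2 j o).symm.trans hb.1) (by omega) hj hb.2.1 hs [z.1, f.1, f'.1] (by simp)
  simp only [List.mem_cons, List.not_mem_nil, or_false, not_or] at c1 c2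
  have k1 := h.bs.comm G _ d h.sys _ _ _ _ _ _ hw v.lw ⟨.inl c1.1, .inl c1.2.1, .inl c1.2.2⟩
    ⟨q, .inl (Ne.symm f1.1), .inl (Ne.symm f2.1)⟩ ⟨.inl c2.1, .inl c2.2.1, .inl c2.2.2⟩
  have k2 := cmF h v.cn v.dc v.s1 hw (.inl c1.1) c1.2.1 c1.2.2 p.2 f1.2 f2.2
  rw [Subgroup.mem_centralizer_singleton_iff, hx _ _ _ _ _ _ _ v]
  exact (k1.mul_right k2).mul_right k1.inv_right

end Fpxx

open Fpxx in
theorem fpx_main : SpFpx := by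
  intro hs hb G _ l d S O c Yf l3 sys card out nv
  have h : Ctx l d S O c Yf := ⟨hs, hb, l3, sys, card, out, nv⟩
  obtain ⟨x, hx⟩ := ex h
  exact ⟨x, ⟨fun _ _ _ _ p1 p2 p3 p4 o1 o2 o3 => cm h hx p1 p2 p3 p4 o1 o2 o3,
    fun _ _ _ _ _ p1 p2 p3 p4 p5 p6 => mv h hx p1 p2 p3 p4 p5 p6⟩,
    fun _ _ p1 p2 p3 => onGd h hx p1 p2 p3⟩

end Pool.Agent.MP_89edc2_al.R3
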