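import Pool.Agent.MP_89edc2_al.R3.Spec2

/-!
# Generation by the cycles of weight at most three
-/

namespace Pool.Agent.MP_89edc2_al.R3

namespace Genx

variable {G : Type} [Group G] {d : D3G G} {L : Subgroup G}

theorem dj {a b : Box} (h : a.1 ≠ b.1) : Disj a b := Or.inl h

theorem fix {g₁ g₂ g₃ b : Box} (h1 : b.1 ≠ g₁.1) (h2 : b.1 ≠ g₂.1) (h3 : b.1 ≠ g₃.1) :
    Mv g₁ g₂ g₃ b b := Or.inr (Or.inr (Or.inr ⟨rfl, dj h1, dj h2, dj h3⟩))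

theorem dcA (sh : ShapeF) (t : Pat) (A : Fin 3 → Bool) {χ χ' χ'' : Chart} (e1 : cd χ = cd χ')
    (e2 : cd χ = cd χ'') (n1 : χ.1 ≠ χ'.1) (n2 : χ.1 ≠ χ''.1) (n3 : χ'.1 ≠ χ''.1) :
    Dc (ap χ t A) (ap χ' t A) (ap χ'' t A) :=
  ⟨sh.ap_ty _ _ t A e1, sh.ap_ty _ _ t A e2, n1, n2, n3⟩

theorem alg {P Q x r y : G} (hP : P = x * r) (hr : Commute r Q) (hy : Q * x⁻¹ = y * Q) :
    P * Q * P⁻¹ * Q⁻¹ = x * y := by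
  have h1 : r * Q * r⁻¹ = Q := by rw [hr.eq, mul_inv_cancel_right]
  have h2 : y = Q * x⁻¹ * Q⁻¹ := by rw [hy, mul_inv_cancel_right]
  calc P * Q * P⁻¹ * Q⁻¹ = x * (r * Q * r⁻¹) * x⁻¹ * Q⁻¹ := by rw [hP]; group
    _ = x * y := by rw [h1, h2]; group

theorem base3 (sh : ShapeF) (bs : BasF) (hS : Sys Tri d) (l : ℕ)
    (hL : ∀ a b c, Lw l a b c → d a b c ∈ L) (t : Pat) (χ₁ χ₂ χ₃ : Chart)
    (hV : V3 l χ₁ χ₂ χ₃) : d (gd χ₁ t) (gd χ₂ t) (gd χ₃ t) ∈ L := by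
  obtain ⟨c1, c2, c3, n12, n13, n23⟩ := hV
  obtain ⟨p, hp⟩ := sh.fresh [χ₁.1, χ₂.1, χ₃.1] (by simp)
  obtain ⟨q, hq⟩ := sh.fresh [χ₁.1, χ₂.1, χ₃.1, p] (by simp)
  simp only [List.mem_cons, List.not_mem_nil, or_false, not_or] at hp hq
  obtain ⟨p1, p2, p3⟩ := hp
  obtain ⟨q1, q2, q3, qp⟩ := hq
  obtain ⟨χp, hp1, hp2⟩ : ∃ χ : Chart, χ.1 = p ∧ cd χ = cd χ₁ := ⟨(p, χ₁.2), rfl, rfl⟩
  obtain ⟨χq, hq1, hq2⟩ : ∃ χ : Chart, χ.1 = q ∧ cd χ = cd χ₁ := ⟨(q, χ₁.2), rfl, rfl⟩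
  subst hp1 hq1
  have e12 : cd χ₁ = cd χ₂ := by omega
  have e13 : cd χ₁ = cd χ₃ := by omega
  have dP : Dc (fl χ₁ t 0) (fl χ₂ t 0) (fl χp t 0) :=
    dcA sh t _ e12 hp2.symm n12 (Ne.symm p1) (Ne.symm p2)
  have dQ : Dc (ap χ₁ t (one 0)) (ap χ₃ t (one 0)) (ap χq t (one 0)) :=
    dcA sh t _ e13 hq2.symm n13 (Ne.symm q1) (Ne.symm q3)
  have tP := sh.dc_tri _ _ _ dP
  have tQ := sh.dc_tri _ _ _ dQ
  have mP := hL _ _ _ ⟨dP, by rw [sh.fl_wt]; omega⟩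
  have mQ := hL _ _ _ ⟨dQ, by rw [sh.one_wt]; omega⟩
  obtain ⟨i1, k1, u1⟩ := sh.gd_kd χ₁ t 0
  obtain ⟨-, k2, u2⟩ := sh.gd_kd χ₂ t 0
  obtain ⟨-, kp, up⟩ := sh.gd_kd χp t 0
  obtain ⟨r, hr, -, hc⟩ := bs.split' G Tri d hS _ _ _ (dir t 0) tP tP i1
    (fun o => sh.tri_kd _ _ _ _ o tP i1) (t 0)
  rw [← k1, ← k2, ← kp] at hr
  have cr : Commute r (d (ap χ₁ t (one 0)) (ap χ₃ t (one 0)) (ap χq t (one 0))) := by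
    refine hc _ fun o' ho => ?_
    have tk := sh.tri_kd _ _ _ _ o' tP i1
    rw [u1, u2, up] at tk ⊢
    refine bs.comm G Tri d hS _ _ _ _ _ _ tk tQ ⟨?_, dj n12, dj (Ne.symm p1)⟩
      ⟨dj (Ne.symm n13), dj (Ne.symm n23), dj (Ne.symm p3)⟩ ⟨dj q1, dj q2, dj qp⟩
    refine sh.ap_disj χ₁ t _ _ _ 0 (by simp [one]) rfl ?_
    rw [Function.update_self]
    exact Ne.symm ho
  have t12p : Tri (gd χ₁ t) (gd χ₂ t) (gd χp t) :=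
    sh.dc_tri _ _ _ (dcA sh t _ e12 hp2.symm n12 (Ne.symm p1) (Ne.symm p2))
  have t1p2 : Tri (gd χ₁ t) (gd χp t) (gd χ₂ t) := (sh.sy_tri _ _ _ t12p).2
  have t3p2 : Tri (gd χ₃ t) (gd χp t) (gd χ₂ t) :=
    sh.dc_tri _ _ _ (dcA sh t _ (by omega) (by omega) (Ne.symm p3) (Ne.symm n23) p2)
  have t312 : Tri (gd χ₃ t) (gd χ₁ t) (gd χ₂ t) :=
    sh.dc_tri _ _ _ (dcA sh t _ (by omega) (by omega) (Ne.symm n13) (Ne.symm n23) n12)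
  have hy := hS.conj _ _ _ _ _ _ _ _ _ tQ t1p2 t3p2
    (Or.inl (sh.ap_mo χ₁ χ₃ t (one 0) (fun _ => true) fun _ _ => rfl))
    (fix p1 p3 (Ne.symm qp)) (fix (Ne.symm n12) n23 (Ne.symm q2))
  rw [bs.inv' G Tri d hS _ _ _ t12p] at hy
  have h := alg hr cr hy
  rw [hS.tri _ _ _ _ t312 t12p t3p2, hS.cyc _ _ _ t312] at h
  rw [← h]
  exact L.mul_mem (L.mul_mem (L.mul_mem mP mQ) (L.inv_mem mP)) (L.inv_mem mQ)

theorem ty_ht (sh : ShapeF) {l c : ℕ} {a b : Box} (ha : HT l c a) (hb : HT l c b) : Ty a b := by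
  obtain ⟨a1, a2, a3⟩ := ha
  obtain ⟨b1, b2, b3⟩ := hb
  have h1 := sh.wt_ar a.2
  have h2 := sh.wt_ar b.2
  exact ⟨a1, b1, by omega, by omega⟩

theorem ht_gd (sh : ShapeF) {l c : ℕ} (hc : c ≤ 3) {χ : Chart} (h : cd χ + 2 = l) :
    HT l c (gd χ (base c)) := by
  obtain ⟨h1, h2⟩ := sh.gd_wt χ (base c)
  exact ⟨sh.ap_len _ _ _, by rw [h2, sh.base_cnt c hc], by omega⟩

theorem one1 (sh : ShapeF) (bs : BasF) (hS : Sys Tri d) (l : ℕ) (hl : 3 ≤ l)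
    (hL : ∀ a b c, Lw l a b c → d a b c ∈ L) (c : ℕ) (hc : c ≤ 3) (χ χ' : Chart)
    (h1 : cd χ + 2 = l) (h2 : cd χ' + 2 = l) (hn : χ.1 ≠ χ'.1) (z : Box) (hz : HT l c z)
    (z1 : z.1 ≠ χ.1) (z2 : z.1 ≠ χ'.1) : d z (gd χ (base c)) (gd χ' (base c)) ∈ L := by
  have hm : ∀ i : Fin 40, i ∉ ({χ.1, χ'.1} : Finset (Fin 40)) ↔ i ≠ χ.1 ∧ i ≠ χ'.1 := by
    intro i
    simp only [Finset.mem_insert, Finset.mem_singleton, not_or, ne_eq]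
  have tr : ∀ b : Box, HT l c b → b.1 ≠ χ.1 → b.1 ≠ χ'.1 →
      Tri b (gd χ (base c)) (gd χ' (base c)) := fun b hb b1 b2 =>
    sh.dc_tri _ _ _ ⟨ty_ht sh hb (ht_gd sh hc h1), ty_ht sh hb (ht_gd sh hc h2), b1, b2, hn⟩
  refine sh.reach l c {χ.1, χ'.1} (fun b => d b (gd χ (base c)) (gd χ' (base c)) ∈ L) hl
    (Finset.card_le_two.trans (by norm_num)) ?_ ?_ z hz ((hm _).2 ⟨z1, z2⟩)
  · intro χ₀ h0 hS0
    obtain ⟨m1, m2⟩ := (hm _).1 hS0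
    exact base3 sh bs hS l hL _ _ _ _ ⟨h0, h1, h2, m1, m2, hn⟩
  · intro g₁ g₂ g₃ b b' hg s1 s2 s3 hmo hb hb' hQ
    obtain ⟨a1, a2⟩ := (hm _).1 s1
    obtain ⟨b1, b2⟩ := (hm _).1 s2
    obtain ⟨c1, c2⟩ := (hm _).1 s3
    have e1 : b.1 = g₁.1 := by obtain ⟨u, -, rfl, -⟩ := hmo; rfl
    have e2 : b'.1 = g₂.1 := by obtain ⟨u, -, -, rfl⟩ := hmo; rfl
    have h := hS.conj _ _ _ _ _ _ _ _ _ (sh.dc_tri _ _ _ hg.1)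
      (tr b hb (e1 ▸ a1) (e1 ▸ a2)) (tr b' hb' (e2 ▸ b1) (e2 ▸ b2)) (Or.inl hmo)
      (fix (Ne.symm a1) (Ne.symm b1) (Ne.symm c1)) (fix (Ne.symm a2) (Ne.symm b2) (Ne.symm c2))
    have mg := hL _ _ _ hg
    rw [← mul_inv_eq_iff_eq_mul] at h
    rw [← h]
    exact L.mul_mem (L.mul_mem mg hQ) (L.inv_mem mg)

theorem hi (sh : ShapeF) (bs : BasF) (hS : Sys Tri d) (l : ℕ) (hl : 3 ≤ l)
    (hL : ∀ a b c, Lw l a b c → d a b c ∈ L) (a b e : Box) (h : Hi l a b e) : d a b e ∈ L := by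
  obtain ⟨⟨tb, te, n1, n2, n3⟩, hw⟩ := h
  have hc : ar a.2 ≤ 3 := tb.1 ▸ sh.ar_le a.2
  have ha : HT l (ar a.2) a := ⟨tb.1, rfl, hw⟩
  have hb : HT l (ar a.2) b := ⟨tb.2.1, tb.2.2.1.symm, sh.ty_wt _ _ tb ▸ hw⟩
  have he : HT l (ar a.2) e := ⟨te.2.1, te.2.2.1.symm, sh.ty_wt _ _ te ▸ hw⟩
  obtain ⟨p, hp⟩ := sh.fresh [a.1, b.1, e.1] (by simp)
  obtain ⟨q, hq⟩ := sh.fresh [a.1, b.1, e.1, p] (by simp)
  simp only [List.mem_cons, List.not_mem_nil, or_false, not_or] at hp hq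
  obtain ⟨p1, p2, p3⟩ := hp
  obtain ⟨q1, q2, q3, qp⟩ := hq
  obtain ⟨χ, rfl, h1⟩ := sh.chart_ex l p (by omega)
  obtain ⟨χ', rfl, h2⟩ := sh.chart_ex l q (by omega)
  have f1 := ht_gd sh hc h1
  have f2 := ht_gd sh hc h2
  have tr : ∀ x y z : Box, HT l (ar a.2) x → HT l (ar a.2) y → HT l (ar a.2) z → x.1 ≠ y.1 →
      x.1 ≠ z.1 → y.1 ≠ z.1 → Tri x y z := fun x y z hx hy hz m1 m2 m3 =>
    sh.dc_tri _ _ _ ⟨ty_ht sh hx hy, ty_ht sh hx hz, m1, m2, m3⟩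
  have o1 := one1 sh bs hS l hl hL _ hc χ χ' h1 h2 (Ne.symm qp)
  have o2 := one1 sh bs hS l hl hL _ hc χ' χ h2 h1 qp
  rw [bs.carm G Tri d hS sh.sy_tri a b e (gd χ (base (ar a.2))) (gd χ' (base (ar a.2)))
    (tr _ _ _ ha hb he n1 n2 n3) (tr _ _ _ hb he f1 n3 (Ne.symm p2) (Ne.symm p3))
    (tr _ _ _ ha he f1 n2 (Ne.symm p1) (Ne.symm p3))
    (tr _ _ _ ha f1 f2 (Ne.symm p1) (Ne.symm q1) (Ne.symm qp))
    (tr _ _ _ hb f1 f2 (Ne.symm p2) (Ne.symm q2) (Ne.symm qp))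
    (tr _ _ _ he f1 f2 (Ne.symm p3) (Ne.symm q3) (Ne.symm qp))]
  exact L.mul_mem (L.mul_mem (L.mul_mem (o1 e he (Ne.symm p3) (Ne.symm q3))
    (o2 b hb (Ne.symm q2) (Ne.symm p2))) (o1 a ha (Ne.symm p1) (Ne.symm q1)))
    (o2 e he (Ne.symm q3) (Ne.symm p3))

theorem low (sh : ShapeF) (bs : BasF) (hS : Sys Tri d)
    (hL : ∀ a b c, Lw 3 a b c → d a b c ∈ L) (n : ℕ) :
    ∀ a b c, Lw (3 + n) a b c → d a b c ∈ L := by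
  induction n with
  | zero => exact hL
  | succ n ih =>
    intro a b c h
    by_cases hw : wt a.2 ≤ 3 + n
    · exact ih a b c ⟨h.1, hw⟩
    · have h2 := h.2
      exact hi sh bs hS (3 + n) (by omega) ih a b c ⟨h.1, by omega⟩

end Genx

theorem gen_main : SpGen := by
  intro sh bs G _ d L hS hL a b c h
  refine bs.carmT G d hS a b c h [] (by simp) L fun z f f' _ hd _ _ => ?_
  exact Genx.low sh bs hS hL (wt z.2) z f f' ⟨hd, by omega⟩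

end Pool.Agent.MP_89edc2_al.R3
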