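import Pool.Agent.MP_89edc2_al.R3.Spec2

/-! Row HH: the new elements act on each other. -/

namespace Pool.Agent.MP_89edc2_al.R3

open scoped commutatorElement

namespace Hhx

open Function

/-- triples of boxes -/
abbrev T3 : Type := Fin 3 → Box

/-- high triples -/
structure HF (l : ℕ) (β : T3) : Prop where
  ty : ∀ i j, Ty (β i) (β j)
  inj : Injective fun i => (β i).1
  wt : ∀ i, wt (β i).2 = l + 1

variable {l : ℕ} {β β' g : T3} {G : Type} [Group G] {d x : D3G G} {h₀ h₁ h₂ u u' : Box}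

theorem HF.ne (h : HF l β) {i j : Fin 3} (n : i ≠ j) : (β i).1 ≠ (β j).1 := fun e => n (h.inj e)

theorem HF.len (h : HF l β) (i : Fin 3) : (β i).2.length = 3 := (h.ty i i).1

theorem HF.hi (h : HF l β) : Hi l (β 0) (β 1) (β 2) :=
  ⟨⟨h.ty 0 1, h.ty 0 2, h.ne (by decide), h.ne (by decide), h.ne (by decide)⟩, h.wt 0⟩

theorem hf_of (S : ShapeF) {a b c : Box} (h : Hi l a b c) : HF l ![a, b, c] := by
  obtain ⟨⟨t1, t2, n1, n2, n3⟩, w⟩ := h
  have t0 : ∀ i, Ty a (![a, b, c] i) := fun i => by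
    fin_cases i
    exacts [S.ty_trans _ _ _ t1 (S.ty_symm _ _ t1), t1, t2]
  refine ⟨fun i j => S.ty_trans _ _ _ (S.ty_symm _ _ (t0 i)) (t0 j), fun i j e => ?_,
    fun i => (S.ty_wt _ _ (t0 i)).symm.trans w⟩
  fin_cases i <;> fin_cases j
  exacts [rfl, absurd e n1, absurd e n2, absurd e n1.symm, rfl, absurd e n3, absurd e n2.symm,
    absurd e n3.symm, rfl]

/-- the element of a triple -/
def XX (x : D3G G) (β : T3) : G := x (β 0) (β 1) (β 2)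

theorem mv (hm : M3 l d x) (hl : Lw l h₀ h₁ h₂) (a : HF l β) (b : HF l β')
    (m : ∀ i, Mv h₀ h₁ h₂ (β i) (β' i)) : d h₀ h₁ h₂ * XX x β = XX x β' * d h₀ h₁ h₂ :=
  hm _ _ _ _ _ _ _ _ _ hl a.hi b.hi ⟨m 0, m 1, m 2⟩

theorem cj {D a b c a' b' c' : G} (h1 : D * a = a' * D) (h2 : D * b = b' * D)
    (h3 : D * c = c' * D) : a * b = c * a ↔ a' * b' = c' * a' := by
  rw [← mul_inv_eq_iff_eq_mul] at h1 h2 h3
  rw [← h1, ← h2, ← h3]
  simp only [mul_assoc, inv_mul_cancel_left, mul_right_inj]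
  simp only [← mul_assoc, mul_left_inj]

/-- the cycle of three copies -/
def sg (a b c : Fin 40) : Equiv.Perm (Fin 40) := Equiv.swap a c * Equiv.swap a b

/-- a move that follows the cycle of the copies -/
def Ms (h₀ h₁ h₂ u u' : Box) : Prop := Mv h₀ h₁ h₂ u u' ∧ u'.1 = sg h₀.1 h₁.1 h₂.1 u.1

theorem mo_cp (m : Mo h₀ h₁ u u') : u.1 = h₀.1 ∧ u'.1 = h₁.1 := by
  obtain ⟨_, -, rfl, rfl⟩ := m
  exact ⟨rfl, rfl⟩

theorem mv_out (n0 : Disj u h₀) (n1 : u.1 ≠ h₁.1) (n2 : u.1 ≠ h₂.1) : Mv h₀ h₁ h₂ u u :=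
  Or.inr (Or.inr (Or.inr ⟨rfl, n0, Or.inl n1, Or.inl n2⟩))

theorem ms_out (n0 : u.1 ≠ h₀.1) (n1 : u.1 ≠ h₁.1) (n2 : u.1 ≠ h₂.1) : Ms h₀ h₁ h₂ u u :=
  ⟨mv_out (Or.inl n0) n1 n2, by simp [sg, Equiv.swap_apply_of_ne_of_ne, n0, n1, n2]⟩

theorem ms1 (hl : Lw l h₀ h₁ h₂) (m : Mo h₀ h₁ u u') : Ms h₀ h₁ h₂ u u' := by
  obtain ⟨⟨-, -, n1, -, n3⟩, -⟩ := hl
  refine ⟨Or.inl m, ?_⟩
  rw [(mo_cp m).1, (mo_cp m).2]
  simp [sg, Equiv.swap_apply_of_ne_of_ne n1.symm n3]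

theorem ms2 (m : Mo h₁ h₂ u u') : Ms h₀ h₁ h₂ u u' := by
  refine ⟨Or.inr (Or.inl m), ?_⟩
  rw [(mo_cp m).1, (mo_cp m).2]
  simp [sg]

theorem ms3 (hl : Lw l h₀ h₁ h₂) (m : Mo h₂ h₀ u u') : Ms h₀ h₁ h₂ u u' := by
  obtain ⟨⟨-, -, -, n2, n3⟩, -⟩ := hl
  refine ⟨Or.inr (Or.inr (Or.inl m)), ?_⟩
  rw [(mo_cp m).1, (mo_cp m).2]
  simp [sg, Equiv.swap_apply_of_ne_of_ne n2.symm n3.symm]

theorem hf_ty (S : ShapeF) (a : HF l β) (t : ∀ i, Ty (β i) (β' i))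
    (j : Injective fun i => (β' i).1) : HF l β' :=
  ⟨fun i k => S.ty_trans _ _ _ (S.ty_symm _ _ (t i)) (S.ty_trans _ _ _ (a.ty i k) (t k)), j,
    fun i => (S.ty_wt _ _ (t i)).symm.trans (a.wt i)⟩

theorem hf_fw (S : ShapeF) (hl : Lw l h₀ h₁ h₂) (a : HF l β)
    (m : ∀ i, Ms h₀ h₁ h₂ (β i) (β' i)) : HF l β' :=
  hf_ty S a (fun i => S.mv_ty _ _ _ _ _ (S.dc_tri _ _ _ hl.1) (a.len i) (m i).1) fun i k e =>
    a.inj ((sg h₀.1 h₁.1 h₂.1).injective ((m i).2.symm.trans (e.trans (m k).2)))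

theorem hf_bw (S : ShapeF) (hl : Lw l h₀ h₁ h₂) (a : HF l β') (n : ∀ i, (β i).2.length = 3)
    (m : ∀ i, Ms h₀ h₁ h₂ (β i) (β' i)) : HF l β :=
  hf_ty S a (fun i => S.ty_symm _ _ (S.mv_ty _ _ _ _ _ (S.dc_tri _ _ _ hl.1) (n i) (m i).1))
    fun i k e => a.inj ((m i).2.trans ((congrArg _ e).trans (m k).2.symm))

theorem lw_fl (S : ShapeF) {a b c : Chart} (t : Pat) (s : Fin 3) (h : V3 l a b c) :
    Lw l (fl a t s) (fl b t s) (fl c t s) := by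
  obtain ⟨h1, h2, h3, n1, n2, n3⟩ := h
  exact ⟨⟨S.ap_ty _ _ _ _ (by omega), S.ap_ty _ _ _ _ (by omega), n1, n2, n3⟩,
    by rw [S.fl_wt]; omega⟩

theorem mo_fl (S : ShapeF) (a b : Chart) (t : Pat) (s : Fin 3) :
    Mo (fl a t s) (fl b t s) (gd a t) (gd b t) := S.ap_mo a b t _ _ fun _ _ => rfl

/-- the slot is moved by the cycle -/
def Cy (g : T3) (u u' : Box) : Prop := ∃ j, u = g j ∧ u' = g (j + 1)

theorem stepA (S : ShapeF) (B : BasF) (sy : Sys (Lw l) d) (hm : HM l d x) {χ : Fin 3 → Chart}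
    {t : Pat} (v : V3 l (χ 0) (χ 1) (χ 2)) (a : HF l β) (b : HF l β')
    (r : ∀ i, Cy (fun j => gd (χ j) t) (β i) (β' i) ∨ (β' i = β i ∧ ∀ j, (β i).1 ≠ (χ j).1)) :
    XX x (fun j => gd (χ j) t) * XX x β = XX x β' * XX x fun j => gd (χ j) t := by
  obtain ⟨p, hp⟩ := S.fresh [(χ 0).1, (χ 1).1, (χ 2).1, (β 0).1, (β 1).1, (β 2).1] (by simp)
  obtain ⟨q, hq⟩ := S.fresh [p, (χ 0).1, (χ 1).1, (χ 2).1, (β 0).1, (β 1).1, (β 2).1] (by simp)
  simp only [List.mem_cons, List.not_mem_nil, or_false, not_or] at hp hq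
  obtain ⟨p0, p1, p2, p3, p4, p5⟩ := hp
  obtain ⟨qp, q0, q1, q2, q3, q4, q5⟩ := hq
  obtain ⟨c0, c1, c2, n1, n2, n3⟩ := v
  have bp : ∀ i, (β i).1 ≠ p ∧ (β i).1 ≠ q := fun i => by
    fin_cases i
    exacts [⟨Ne.symm p3, Ne.symm q3⟩, ⟨Ne.symm p4, Ne.symm q4⟩, ⟨Ne.symm p5, Ne.symm q5⟩]
  set P : Chart := (p, (χ 0).2) with hP
  set Q : Chart := (q, (χ 0).2) with hQ
  have l1 := lw_fl S t 0 (a := χ 0) (b := χ 1) (c := P) ⟨c0, c1, c0, n1, Ne.symm p0, Ne.symm p1⟩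
  have l2 := lw_fl S t 1 (a := χ 0) (b := χ 2) (c := Q) ⟨c0, c2, c0, n2, Ne.symm q0, Ne.symm q2⟩
  have l3 := ((S.sy_lw l) _ _ _ l1).2
  have l4 := ((S.sy_lw l) _ _ _ l2).2
  have e := hm.xd t (χ 0) (χ 1) (χ 2) _ _ _ _ ⟨c0, c1, c2, n1, n2, n3⟩ (by decide) l1 l2 p2
    (Ne.symm qp) q1
  have k : ∀ i, ∃ u₁ u₂ u₃, Ms (fl (χ 0) t 1) (fl Q t 1) (fl (χ 2) t 1) (β i) u₁ ∧
      Ms (fl (χ 0) t 0) (fl P t 0) (fl (χ 1) t 0) u₁ u₂ ∧
      Ms (fl (χ 0) t 1) (fl (χ 2) t 1) (fl Q t 1) u₂ u₃ ∧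
      Ms (fl (χ 0) t 0) (fl (χ 1) t 0) (fl P t 0) u₃ (β' i) := fun i => by
    rcases r i with ⟨j, e1, e2⟩ | ⟨e1, e2⟩
    · rw [e1, e2]
      fin_cases j
      · exact ⟨_, _, _, ms1 l4 (mo_fl S _ _ _ _), ms_out q0 qp q1, ms3 l2 (mo_fl S _ _ _ _),
          ms1 l1 (mo_fl S _ _ _ _)⟩
      · exact ⟨_, _, _, ms_out n1.symm (Ne.symm q1) n3, ms3 l3 (mo_fl S _ _ _ _),
          ms1 l2 (mo_fl S _ _ _ _), ms_out n2.symm n3.symm (Ne.symm p2)⟩
      · exact ⟨_, _, _, ms3 l4 (mo_fl S _ _ _ _), ms1 l3 (mo_fl S _ _ _ _),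
          ms_out p0 p2 (Ne.symm qp), ms3 l1 (mo_fl S _ _ _ _)⟩
    · rw [e1]
      exact ⟨_, _, _, ms_out (e2 0) (bp i).2 (e2 2), ms_out (e2 0) (bp i).1 (e2 1),
        ms_out (e2 0) (e2 2) (bp i).2, ms_out (e2 0) (e2 1) (bp i).1⟩
  choose u₁ u₂ u₃ k1 k2 k3 k4 using k
  have a1 := hf_fw S l4 a k1
  have a2 := hf_fw S l3 a1 k2
  have a3 := hf_fw S l2 a2 k3
  have m1 := mv hm.m3 l4 a a1 fun i => (k1 i).1
  have m2 := mv hm.m3 l3 a1 a2 fun i => (k2 i).1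
  have m3 := mv hm.m3 l2 a2 a3 fun i => (k3 i).1
  have m4 := mv hm.m3 l1 a3 b fun i => (k4 i).1
  rw [B.inv' G _ d sy _ _ _ l2] at m1
  rw [B.inv' G _ d sy _ _ _ l1] at m2
  have e' : XX x (fun j => gd (χ j) t) = ⁅d (fl (χ 0) t 0) (fl (χ 1) t 0) (fl P t 0),
      d (fl (χ 0) t 1) (fl (χ 2) t 1) (fl Q t 1)⁆ := e
  rw [e', commutatorElement_def, mul_assoc, m1, ← mul_assoc, mul_assoc _ _ (XX x u₁), m2,
    ← mul_assoc, mul_assoc _ _ (XX x u₂), m3, ← mul_assoc, m4]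
  simp only [mul_assoc]

/-- the statement for three triples -/
def St (x : D3G G) (g β β' : T3) : Prop := XX x g * XX x β = XX x β' * XX x g

theorem tr (hm : HM l d x) (hl : Lw l h₀ h₁ h₂) {g₁ β₁ β₁' : T3} (a : HF l g) (b : HF l β)
    (c : HF l β') (a₁ : HF l g₁) (b₁ : HF l β₁) (c₁ : HF l β₁')
    (m1 : ∀ i, Mv h₀ h₁ h₂ (g i) (g₁ i)) (m2 : ∀ i, Ms h₀ h₁ h₂ (β i) (β₁ i))
    (m3 : ∀ i, Ms h₀ h₁ h₂ (β' i) (β₁' i)) : St x g β β' ↔ St x g₁ β₁ β₁' :=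
  cj (mv hm.m3 hl a a₁ m1) (mv hm.m3 hl b b₁ fun i => (m2 i).1)
    (mv hm.m3 hl c c₁ fun i => (m3 i).1)

/-- the statement for all triples with slots in the cycle or in the copies `O` -/
def QB (l : ℕ) (x : D3G G) (O : Finset (Fin 40)) (g : T3) : Prop :=
  ∀ β β', HF l β → HF l β' → (∀ i, Cy g (β i) (β' i) ∨ (β' i = β i ∧ (β i).1 ∈ O)) →
    St x g β β'

variable {O : Finset (Fin 40)} {c : ℕ} {n : Fin 3} {s : Finset (Fin 3)}

theorem pull (S : ShapeF) (hm : HM l d x) (hl : Lw l h₀ h₁ h₂) (o0 : h₀.1 ∉ O) (o1 : h₁.1 ∉ O)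
    (o2 : h₂.1 ∉ O) {g' : T3} (a : HF l g) (m : ∀ j, Ms h₀ h₁ h₂ (g j) (g' j))
    (q : QB l x O g) : QB l x O g' := by
  intro β₁ β₁' b₁ c₁ r
  have k : ∀ i, ∃ u u', (Cy g u u' ∨ (u' = u ∧ u.1 ∈ O)) ∧ u.2.length = 3 ∧ u'.2.length = 3 ∧
      Ms h₀ h₁ h₂ u (β₁ i) ∧ Ms h₀ h₁ h₂ u' (β₁' i) := fun i => by
    rcases r i with ⟨j, e1, e2⟩ | ⟨e1, e2⟩
    · rw [e1, e2]
      exact ⟨_, _, Or.inl ⟨j, rfl, rfl⟩, a.len _, a.len _, m _, m _⟩
    · have f : Ms h₀ h₁ h₂ (β₁ i) (β₁ i) :=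
        ms_out (fun e => o0 (e ▸ e2)) (fun e => o1 (e ▸ e2)) fun e => o2 (e ▸ e2)
      rw [e1]
      exact ⟨_, _, Or.inr ⟨rfl, e2⟩, b₁.len _, b₁.len _, f, f⟩
  choose β β' r n n' m1 m2 using k
  have b := hf_bw S hl b₁ n m1
  have c := hf_bw S hl c₁ n' m2
  exact (tr hm hl a b c (hf_fw S hl a m) b₁ c₁ (fun i => (m i).1) m1 m2).1 (q β β' b c r)

/-- triples of arity `c` outside the copies `O` -/
structure GB (l c : ℕ) (O : Finset (Fin 40)) (g : T3) : Prop where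
  ht : ∀ j, HT l c (g j)
  inj : Injective fun i => (g i).1
  out : ∀ j, (g j).1 ∉ O

theorem GB.hf (S : ShapeF) (h : GB l c O g) : HF l g := by
  refine ⟨fun i j => ?_, h.inj, fun i => (h.ht i).2.2⟩
  obtain ⟨a1, a2, a3⟩ := h.ht i
  obtain ⟨b1, b2, b3⟩ := h.ht j
  have e1 := S.wt_ar (g i).2
  have e2 := S.wt_ar (g j).2
  exact ⟨a1, b1, by omega, by omega⟩

/-- the forbidden copies for the slot `n` -/
def SS (O : Finset (Fin 40)) (g : T3) (n : Fin 3) : Finset (Fin 40) :=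
  O ∪ (Finset.univ.erase n).image fun j => (g j).1

theorem ss_iff {p : Fin 40} : p ∉ SS O g n ↔ p ∉ O ∧ ∀ j, j ≠ n → (g j).1 ≠ p := by
  simp [SS]

theorem ss_card (h : O.card ≤ 3) : (SS O g n).card ≤ 30 := by
  have h1 : ((Finset.univ.erase n).image fun j => (g j).1).card ≤ 3 :=
    Finset.card_image_le.trans ((Finset.card_le_univ _).trans (by simp))
  exact (Finset.card_union_le _ _).trans (by omega)

theorem GB.up (h : GB l c O g) (hb : HT l c u) (nb : u.1 ∉ SS O g n) :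
    GB l c O (update g n u) := by
  obtain ⟨n1, n2⟩ := ss_iff.1 nb
  refine ⟨fun j => ?_, fun i j e => ?_, fun j => ?_⟩
  · rcases eq_or_ne j n with rfl | hj
    · rwa [update_self]
    · rw [update_of_ne hj]
      exact h.ht j
  · by_cases hi : i = n <;> by_cases hj : j = n
    · exact hi.trans hj.symm
    · simp only [hi, update_self, update_of_ne hj] at e
      exact absurd e.symm (n2 j hj)
    · simp only [hj, update_self, update_of_ne hi] at e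
      exact absurd e (n2 i hi)
    · simp only [update_of_ne hi, update_of_ne hj] at e
      exact h.inj e
  · rcases eq_or_ne j n with rfl | hj
    · rwa [update_self]
    · rw [update_of_ne hj]
      exact h.out j

theorem stepB (S : ShapeF) (B : BasF) (h3 : 3 ≤ l) (sy : Sys (Lw l) d) (hm : HM l d x)
    (hc : c ≤ 3) (hO : O.card ≤ 3) (s : Finset (Fin 3)) : ∀ g, GB l c O g →
    (∀ j, j ∉ s → ∃ χ, cd χ + 2 = l ∧ g j = gd χ (base c)) → QB l x O g := by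
  induction s using Finset.induction_on with
  | empty =>
    intro g a k β β' b b' r
    choose χ k1 k2 using fun j => k j (Finset.notMem_empty j)
    obtain rfl : g = fun j => gd (χ j) (base c) := funext k2
    have f := a.hf S
    refine stepA S B sy hm ⟨k1 0, k1 1, k1 2, f.ne (i := 0) (j := 1) (by decide),
      f.ne (i := 0) (j := 2) (by decide), f.ne (i := 1) (j := 2) (by decide)⟩ b b' fun i => ?_
    exact (r i).imp id fun ⟨e1, e2⟩ => ⟨e1, fun j e => a.out j (show (χ j).1 ∈ O from e ▸ e2)⟩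
  | insert n s _ ih =>
    intro g a k
    have r := S.reach l c (SS O g n) (fun b => QB l x O (update g n b)) h3 (ss_card hO)
      (fun χ c1 c2 => ?_) (fun h₀ h₁ h₂ b b' hl o0 o1 o2 m t t' q => ?_) (g n) (a.ht n)
      (ss_iff.2 ⟨a.out n, fun j hj e => hj (a.inj e)⟩)
    · rwa [update_eq_self] at r
    · have w := S.gd_wt χ (base c)
      refine ih _ (a.up ⟨S.ap_len _ _ _, w.2.trans (S.base_cnt c hc), by omega⟩ c2) fun j hj => ?_
      rcases eq_or_ne j n with rfl | h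
      · exact ⟨χ, c1, update_self ..⟩
      · rw [update_of_ne h]
        exact k j (by simp [h, hj])
    · refine pull S hm hl (ss_iff.1 o0).1 (ss_iff.1 o1).1 (ss_iff.1 o2).1
        ((a.up t ((mo_cp m).1 ▸ o0)).hf S) (fun j => ?_) q
      rcases eq_or_ne j n with rfl | h
      · simp only [update_self]
        exact ms1 hl m
      · simp only [update_of_ne h]
        exact ms_out ((ss_iff.1 o0).2 j h) ((ss_iff.1 o1).2 j h) ((ss_iff.1 o2).2 j h)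

/-- the relation in the slot `i`; only slots in `s` may share a copy with the cycle -/
def Rl (s : Finset (Fin 3)) (g : T3) (i : Fin 3) (u u' : Box) : Prop :=
  Cy g u u' ∨ (u' = u ∧ ∀ j, u.1 ≠ (g j).1 ∨ (i ∈ s ∧ Disj u (g j)))

/-- the statement with bad slots in `s` -/
def CC (l : ℕ) (x : D3G G) (s : Finset (Fin 3)) : Prop :=
  ∀ g β β', HF l g → HF l β → HF l β' → (∀ i, Rl s g i (β i) (β' i)) → St x g β β'

theorem cc0 (S : ShapeF) (B : BasF) (h3 : 3 ≤ l) (sy : Sys (Lw l) d) (hm : HM l d x) :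
    CC l x ∅ := by
  intro g β β' a b b' r
  have hc : ar (g 0).2 ≤ 3 := (S.ar_le _).trans (a.len 0).le
  refine stepB S B h3 sy hm hc (O := (Finset.univ.image fun i => (β i).1) \
    Finset.univ.image fun j => (g j).1) ?_ Finset.univ g
    ⟨fun j => ⟨a.len j, (a.ty j 0).2.2.1, a.wt j⟩, a.inj, fun j => by simp⟩
    (fun j hj => absurd (Finset.mem_univ j) hj) β β' b b' fun i => (r i).imp id ?_
  · exact (Finset.card_le_card Finset.sdiff_subset).trans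
      (Finset.card_image_le.trans (by simp))
  · rintro ⟨e1, e2⟩
    refine ⟨e1, Finset.mem_sdiff.2 ⟨Finset.mem_image_of_mem _ (Finset.mem_univ i), fun h => ?_⟩⟩
    obtain ⟨j, -, e⟩ := Finset.mem_image.1 h
    exact (e2 j).elim (fun n => n e.symm) fun n => Finset.notMem_empty _ n.1

theorem ms_up {v : Box} (a : HF l β) (e : (β n).1 = h₀.1) (f1 : ∀ i, (β i).1 ≠ h₁.1)
    (f2 : ∀ i, (β i).1 ≠ h₂.1) (m : Ms h₀ h₁ h₂ (β n) v) (i : Fin 3) :
    Ms h₀ h₁ h₂ (β i) (update β n v i) := by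
  rcases eq_or_ne i n with rfl | h
  · rwa [update_self]
  · rw [update_of_ne h]
    exact ms_out (e ▸ a.ne h) (f1 i) (f2 i)

/-- copies not used by three triples -/
def Fr (g β β' : T3) (p : Fin 40) : Prop := ∀ i, (g i).1 ≠ p ∧ (β i).1 ≠ p ∧ (β' i).1 ≠ p

theorem fr2 (S : ShapeF) (g β β' : T3) : ∃ p q, p ≠ q ∧ Fr g β β' p ∧ Fr g β β' q := by
  have k : ∀ p, p ∉ List.ofFn (fun i => (g i).1) ++ List.ofFn (fun i => (β i).1) ++
      List.ofFn (fun i => (β' i).1) → Fr g β β' p := fun p h i => by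
    simp only [List.mem_append, List.mem_ofFn, not_or, not_exists] at h
    exact ⟨h.1.1 i, h.1.2 i, h.2 i⟩
  obtain ⟨p, hp⟩ := S.fresh (List.ofFn (fun i => (g i).1) ++ List.ofFn (fun i => (β i).1) ++
    List.ofFn (fun i => (β' i).1)) (by simp)
  obtain ⟨q, hq⟩ := S.fresh (p :: (List.ofFn (fun i => (g i).1) ++ List.ofFn (fun i => (β i).1) ++
    List.ofFn (fun i => (β' i).1))) (by simp)
  rw [List.mem_cons, not_or] at hq
  exact ⟨p, q, Ne.symm hq.1, k p hp, k q hq.2⟩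

theorem caseA (S : ShapeF) (hm : HM l d x) (ih : CC l x s) (a : HF l g) (b : HF l β)
    (b' : HF l β') (r : ∀ i, i ≠ n → Rl s g i (β i) (β' i)) (e : β' n = β n) {η : Box} {k : ℕ}
    {o : Option Bool} (hk : k < ar η.2) (e1 : β n = kd η k o) (dj : ∀ j, Disj (g j) η) :
    St x g β β' := by
  obtain ⟨p, q, pq, fp, fq⟩ := fr2 S g β β'
  have c1 : (β n).1 = η.1 := by rw [e1]; rfl
  have ln : η.2.length = 3 := by
    have := b.len n
    rw [e1] at this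
    exact (S.kid_len η.2 k o).symm.trans this
  have w : wt (kid η.2 k o) = l + 1 := by
    have := b.wt n
    rwa [e1] at this
  rw [S.kid_wt _ _ _ hk] at w
  have hl : Lw l η (p, η.2) (q, η.2) := ⟨⟨⟨ln, ln, rfl, rfl⟩, ⟨ln, ln, rfl, rfl⟩,
    c1 ▸ (fp n).2.1, c1 ▸ (fq n).2.1, pq⟩, by omega⟩
  have m : Ms η (p, η.2) (q, η.2) (β n) (kd (p, η.2) k o) := by
    rw [e1]
    exact ms1 hl (S.mo_kd _ _ _ _ _ _ rfl (S.mo_self _ _ rfl))
  have m2 := ms_up b c1 (fun i => (fp i).2.1) (fun i => (fq i).2.1) m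
  have m3 := ms_up b' (e ▸ c1) (fun i => (fp i).2.2) (fun i => (fq i).2.2) (e ▸ m)
  have b₁ := hf_fw S hl b m2
  have c₁ := hf_fw S hl b' m3
  refine (tr hm hl a b b' a b₁ c₁ (fun j => mv_out (dj j) (fp j).1 (fq j).1) m2 m3).2
    (ih _ _ _ a b₁ c₁ fun i => ?_)
  rcases eq_or_ne i n with rfl | h
  · simp only [update_self]
    exact Or.inr ⟨rfl, fun j => Or.inl (fp j).1.symm⟩
  · simp only [update_of_ne h]
    exact r i h

theorem rl_up {i j : Fin 3} {w : Box} (r : Rl s g i u u') (n1 : u.1 ≠ (g j).1)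
    (n2 : u'.1 ≠ (g j).1) (n3 : u.1 ≠ w.1) : Rl s (update g j w) i u u' := by
  rcases r with ⟨k, e1, e2⟩ | ⟨e1, e2⟩
  · have k1 : k ≠ j := fun e => n1 (by rw [e1, e])
    have k2 : k + 1 ≠ j := fun e => n2 (by rw [e2, e])
    exact Or.inl ⟨k, by rw [update_of_ne k1, e1], by rw [update_of_ne k2, e2]⟩
  · refine Or.inr ⟨e1, fun k => ?_⟩
    rcases eq_or_ne k j with rfl | h
    · rw [update_self]
      exact Or.inl n3
    · rw [update_of_ne h]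
      exact e2 k

theorem caseB (S : ShapeF) (h3 : 3 ≤ l) (hm : HM l d x) (ih : CC l x s) (a : HF l g)
    (b : HF l β) (b' : HF l β') (r : ∀ i, i ≠ n → Rl s g i (β i) (β' i)) (e : β' n = β n)
    {η : Box} {k : ℕ} {o o' : Option Bool} {j : Fin 3} (ha : ar η.2 = 3) (hk : k < 3)
    (oo : o ≠ o') (e1 : β n = kd η k o) (e2 : g j = kd η k o') : St x g β β' := by
  obtain ⟨p, q, pq, fp, fq⟩ := fr2 S g β β'
  obtain ⟨ζ, rfl, z1, z2, z3, z4⟩ := S.sib l p h3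
  obtain ⟨θ, k', o'', t1, t2, t3⟩ := z4 k o o' hk oo
  have c1 : (β n).1 = η.1 := by rw [e1]; rfl
  have c2 : (g j).1 = η.1 := by rw [e2]; rfl
  have ln : η.2.length = 3 := by
    have := b.len n
    rw [e1] at this
    exact (S.kid_len η.2 k o).symm.trans this
  have w : wt (kid η.2 k o) = l + 1 := by
    have := b.wt n
    rwa [e1] at this
  rw [S.kid_wt _ _ _ (by omega)] at w
  have w2 := S.wt_ar η.2
  have hl : Lw l η ζ (q, η.2) := ⟨⟨⟨ln, z1, by omega, by omega⟩, ⟨ln, ln, rfl, rfl⟩,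
    c1 ▸ (fp n).2.1, c1 ▸ (fq n).2.1, pq⟩, by omega⟩
  have m : ∀ o, Ms η ζ (q, η.2) (kd η k o) (kd ζ k o) := fun o =>
    ms1 hl (S.mo_kd _ _ _ _ _ _ (by omega) (S.mo_self _ _ (by omega)))
  have m1 := ms_up a c2 (fun i => (fp i).1) (fun i => (fq i).1) (e2 ▸ m o')
  have m2 := ms_up b c1 (fun i => (fp i).2.1) (fun i => (fq i).2.1) (e1 ▸ m o)
  have m3 := ms_up b' (e ▸ c1) (fun i => (fp i).2.2) (fun i => (fq i).2.2) (e ▸ e1 ▸ m o)
  have a₁ := hf_fw S hl a m1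
  have b₁ := hf_fw S hl b m2
  have c₁ := hf_fw S hl b' m3
  refine (tr hm hl a b b' a₁ b₁ c₁ (fun j => (m1 j).1) m2 m3).2
    (caseA S hm ih a₁ b₁ c₁ (n := n) (fun i h => ?_) (by simp only [update_self]) t1
      (by rw [update_self, t2]) fun i => ?_)
  · simp only [update_of_ne h]
    exact rl_up (r i h) (c2 ▸ c1 ▸ b.ne h) (c2 ▸ c1 ▸ e ▸ b'.ne h) (fp i).2.1
  · rcases eq_or_ne i j with rfl | h
    · rw [update_self]
      exact S.disj_symm _ _ t3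
    · rw [update_of_ne h]
      have c3 : ζ.1 = θ.1 := (Prod.ext_iff.1 t2).1
      exact Or.inl (c3 ▸ (fp i).1)

theorem stepC (S : ShapeF) (B : BasF) (h3 : 3 ≤ l) (sy : Sys (Lw l) d) (hm : HM l d x)
    (s : Finset (Fin 3)) : CC l x s := by
  induction s using Finset.induction_on with
  | empty => exact cc0 S B h3 sy hm
  | insert n s _ ih =>
    intro g β β' a b b' r
    have r' : ∀ i, i ≠ n → Rl s g i (β i) (β' i) := fun i h => (r i).imp id fun ⟨e1, e2⟩ =>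
      ⟨e1, fun j => (e2 j).imp id fun ⟨e3, e4⟩ => ⟨(Finset.mem_insert.1 e3).resolve_left h, e4⟩⟩
    by_cases hn : Rl s g n (β n) (β' n)
    · exact ih g β β' a b b' fun i => if h : i = n then h ▸ hn else r' i h
    · obtain ⟨e, f⟩ := (r n).resolve_left fun h => hn (Or.inl h)
      obtain ⟨j, hj⟩ : ∃ j, (β n).1 = (g j).1 := by
        by_contra h
        exact hn (Or.inr ⟨e, fun j => Or.inl fun h' => h ⟨j, h'⟩⟩)
      have dj := ((f j).resolve_left fun h => h hj).2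
      rcases S.flag2 _ _ (b.len n) (a.len j) ((a.wt j).trans (b.wt n).symm)
        (by rw [b.wt n]; omega) dj with ⟨η, k, o, hk, e1, t⟩ | ⟨η, k, o, o', ha, hk, oo, e1, e2⟩
      · refine caseA S hm ih a b b' r' e hk e1 fun i => ?_
        rcases eq_or_ne i j with rfl | h
        · exact S.disj_symm _ _ t
        · have c1 : (β n).1 = η.1 := by rw [e1]; rfl
          exact Or.inl (c1 ▸ hj ▸ a.ne h)
      · exact caseB S h3 hm ih a b b' r' e ha hk oo e1 e2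

theorem rl_of (S : ShapeF) {i : Fin 3} (a : HF l g) (w : wt u.2 = l + 1)
    (m : Mv (g 0) (g 1) (g 2) u u') : Rl Finset.univ g i u u' := by
  have k : ∀ j, Mo (g j) (g (j + 1)) u u' → Cy g u u' := fun j h =>
    ⟨j, (S.mo_wt _ _ _ _ (a.ty _ _).2.2.1 h).2.2 (w.trans (a.wt j).symm)⟩
  rcases m with h | h | h | ⟨e, h0, h1, h2⟩
  · exact Or.inl (k 0 h)
  · exact Or.inl (k 1 h)
  · exact Or.inl (k 2 h)
  · refine Or.inr ⟨e, fun j => Or.inr ⟨Finset.mem_univ _, ?_⟩⟩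
    fin_cases j
    exacts [h0, h1, h2]

end Hhx

open Hhx in
theorem hh_main : SpHh := by
  intro S B G _ l d x h3 sy hm g₁ g₂ g₃ a b c a' b' c' hg h h' m
  have f := hf_of S hg
  have f1 := hf_of S h
  refine stepC S B h3 sy hm Finset.univ _ _ _ f f1 (hf_of S h') fun i => ?_
  refine rl_of S f (f1.wt i) ?_
  fin_cases i
  exacts [m.1, m.2.1, m.2.2]

end Pool.Agent.MP_89edc2_al.R3
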