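import Pool.Agent.MP_89edc2_al.R3.Spec2
import Pool.Agent.MP_89edc2_al.K76.Inv

/-!
# Row INV: the mechanism of slow growth
-/

namespace Pool.Agent.MP_89edc2_al.R3

open scoped Pointwise

namespace Invx

open K76.Invx (pot pot_le pot_insert pot_swap)

variable {G : Type} [Group G] {N e : ℕ} {K A : Set (Fin N) → Subgroup G} {F : Subgroup G}
  {T : Finset G} {b : Fin N → Fin N → G}

variable (K A F b) in
/-- The generators. -/
def gens : Set G :=
  {g | (∃ i j : Fin N, j.val = i.val + 1 ∧ g = b i j) ∨ (∃ i : Fin N, i.val = 0 ∧ g ∈ K {i}) ∨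
    (∃ i : Fin N, i.val + 1 = N ∧ g ∈ A {i}) ∨ g ∈ F}

variable (A T) in
/-- The committed letters. -/
def EE : Set G := {g | g = 1 ∨ g ∈ T ∨ ∃ x, g ∈ A {x}}

theorem gens_fin (w : Mech N e K A F T b) : (gens K A F b).Finite := by
  refine ((((Set.finite_range fun x : Fin N × Fin N => b x.1 x.2).union w.finK).union
    w.finA).union w.finF).subset ?_
  rintro g (⟨i, j, -, rfl⟩ | ⟨i, -, h⟩ | ⟨i, -, h⟩ | h)
  · exact Or.inl (Or.inl (Or.inl ⟨(i, j), rfl⟩))
  · exact Or.inl (Or.inl (Or.inr (w.monoK (Set.subset_univ _) h)))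
  · exact Or.inl (Or.inr (w.monoA (Set.subset_univ _) h))
  · exact Or.inr h

theorem A_fin (w : Mech N e K A F T b) (x : Fin N) : (A {x} : Set G).Finite :=
  w.finA.subset (w.monoA (Set.subset_univ _))

theorem EE_ex (w : Mech N e K A F T b) :
    ∃ E : Finset G, E.card ≤ (N + 1) * e + 1 ∧ ∀ g ∈ EE A T, g ∈ E := by
  classical
  refine ⟨insert 1 (T ∪ Finset.univ.biUnion fun x => (A_fin w x).toFinset), ?_, ?_⟩
  · refine (Finset.card_insert_le _ _).trans (Nat.add_le_add_right ?_ 1)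
    refine (Finset.card_union_le _ _).trans ?_
    have h2 : (Finset.univ.biUnion fun x => (A_fin w x).toFinset).card ≤ N * e := by
      refine Finset.card_biUnion_le.trans ?_
      refine (Finset.sum_le_card_nsmul _ _ e fun x _ => ?_).trans (by simp)
      rw [← Set.ncard_eq_toFinset_card _ (A_fin w x)]
      exact w.cardA x
    have h1 := w.cardT
    rw [add_mul, one_mul]
    omega
  · rintro g (rfl | h | ⟨x, h⟩)
    · exact Finset.mem_insert_self _ _
    · exact Finset.mem_insert_of_mem (Finset.mem_union_left _ h)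
    · exact Finset.mem_insert_of_mem (Finset.mem_union_right _
        (Finset.mem_biUnion.2 ⟨x, Finset.mem_univ _, (A_fin w x).mem_toFinset.2 h⟩))

theorem back {L : Subgroup G} {s g : G} (hs : s ∈ L) (h : s⁻¹ * g * s ∈ L) : g ∈ L := by
  have := mul_mem (mul_mem hs h) (inv_mem hs)
  rwa [← mul_assoc, ← mul_assoc, mul_inv_cancel, one_mul, mul_inv_cancel_right] at this

theorem b_mem {i j : Fin N} (h : j.val = i.val + 1) :
    b i j ∈ Subgroup.closure (gens K A F b) :=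
  Subgroup.subset_closure (Or.inl ⟨i, j, h, rfl⟩)

theorem K_le (w : Mech N e K A F T b) (n : ℕ) : ∀ i : Fin N, i.val = n →
    K {i} ≤ Subgroup.closure (gens K A F b) := by
  induction n with
  | zero => exact fun i hi g hg => Subgroup.subset_closure (Or.inr (Or.inl ⟨i, hi, hg⟩))
  | succ n ih =>
    intro j hj g hg
    let i : Fin N := ⟨n, by omega⟩
    have h := (w.bK i j _ g hg).2
    rw [Set.image_singleton, Equiv.swap_apply_right] at h
    exact back (b_mem (i := i) hj) (ih i rfl h)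

theorem A_le (w : Mech N e K A F T b) (n : ℕ) : ∀ i : Fin N, i.val + n + 1 = N →
    A {i} ≤ Subgroup.closure (gens K A F b) := by
  induction n with
  | zero => exact fun i hi g hg => Subgroup.subset_closure (Or.inr (Or.inr (Or.inl ⟨i, hi, hg⟩)))
  | succ n ih =>
    intro i hi g hg
    let j : Fin N := ⟨i.val + 1, by omega⟩
    have h := (w.bA i j _ g hg).2
    rw [Set.image_singleton, Equiv.swap_apply_left] at h
    exact back (b_mem (j := j) rfl) (ih j (by simp only [j]; omega) h)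

theorem gens_top (w : Mech N e K A F T b) : Subgroup.closure (gens K A F b) = ⊤ := by
  refine w.top _ (fun x => K_le w _ x rfl) (fun x => A_le w (N - 1 - x.val) x ?_)
    fun g hg => Subgroup.subset_closure (Or.inr (Or.inr (Or.inr hg)))
  have := x.isLt
  omega

variable (K A) in
/-- `β` acts on the system through the permutation `π` of the labels. -/
def Tr (β : G) (π : Equiv.Perm (Fin N)) : Prop :=
  β ∈ K Set.univ ∧ (∀ x, ∀ g ∈ K {π x}, β⁻¹ * g * β ∈ K {x}) ∧
    ∀ x, ∀ g ∈ A {π x}, β⁻¹ * g * β ∈ A {x}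

variable (K A F T) in
/-- The state of the reading of a word. -/
def Sta (β : G) (π : Equiv.Perm (Fin N)) (J : Finset (Fin N)) (B : ℕ) (g : G) : Prop :=
  ∃ κ ∈ K (J : Set (Fin N)), ∃ a ∈ A (J : Set (Fin N))ᶜ, ∃ φ ∈ F, ∃ l : List G,
    (∀ x ∈ l, x ∈ EE A T) ∧ g = β * κ * a * φ * l.prod ∧ pot π J + (N - 1) * l.length ≤ B

variable {β g : G} {π : Equiv.Perm (Fin N)} {J : Finset (Fin N)} {B : ℕ}

theorem Sta.mono (h : Sta K A F T β π J B g) {B' : ℕ} (hB : B ≤ B') :
    Sta K A F T β π J B' g := by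
  obtain ⟨κ, h1, a, h2, φ, h0, l, h3, h4, h5⟩ := h
  exact ⟨κ, h1, a, h2, φ, h0, l, h3, h4, h5.trans hB⟩

theorem Sta.moveIn (w : Mech N e K A F T b) (h : Sta K A F T β π J B g) {x : Fin N}
    (hx : (π x).val = 0) : Sta K A F T β π (insert x J) B g := by
  by_cases hJ : x ∈ J
  · rwa [Finset.insert_eq_of_mem hJ]
  obtain ⟨κ, h1, a, h2, φ, h0, l, h3, h4, h5⟩ := h
  obtain ⟨a', ha', t, ht, rfl⟩ := w.remA _ x a h2
  have s1 : (J : Set (Fin N)) ⊆ ((insert x J : Finset (Fin N)) : Set (Fin N)) := fun c hc =>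
    Finset.mem_insert_of_mem (s := J) hc
  have s2 : (J : Set (Fin N))ᶜ \ {x} ⊆ ((insert x J : Finset (Fin N)) : Set (Fin N))ᶜ := by
    rintro y ⟨y1, y2⟩ y3
    exact (Finset.mem_insert.1 y3).elim y2 y1
  have s3 : ∀ z ∈ t :: l, z ∈ EE A T := by
    intro z hz
    rcases List.mem_cons.1 hz with rfl | hz
    · exact Or.inr (Or.inr ⟨x, ht⟩)
    · exact h3 z hz
  have s4 : g = β * κ * a' * φ * (t :: l).prod := by
    have c := (w.cFA φ h0 t (w.monoA (Set.subset_univ _) ht)).eq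
    rw [h4, List.prod_cons, ← mul_assoc _ t, mul_assoc _ φ t, c]
    simp only [mul_assoc]
  have s5 : pot π (insert x J) + (N - 1) * (t :: l).length ≤ B := by
    have := pot_insert π hJ
    rw [List.length_cons, mul_add]
    generalize (N - 1) * l.length = M at *
    generalize pot π (insert x J) = P at *
    generalize pot π J = P' at *
    omega
  exact ⟨κ, w.monoK s1 h1, a', w.monoA s2 ha', φ, h0, t :: l, s3, s4, s5⟩

theorem Sta.moveOut (w : Mech N e K A F T b) (h : Sta K A F T β π J B g) {x : Fin N}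
    (hx : (π x).val + 1 = N) : Sta K A F T β π (J.erase x) B g := by
  by_cases hJ : x ∈ J
  swap
  · rwa [Finset.erase_eq_of_notMem hJ]
  obtain ⟨κ, h1, a, h2, φ, h0, l, h3, h4, h5⟩ := h
  obtain ⟨κ', k1, t, ht, rfl⟩ := w.remK _ x κ h1
  have s0 : (J : Set (Fin N)) \ {x} ⊆ ((J.erase x : Finset (Fin N)) : Set (Fin N)) := by
    rintro y ⟨y1, y2⟩
    exact Finset.mem_erase.2 ⟨y2, y1⟩
  have s2 : (J : Set (Fin N))ᶜ ⊆ ((J.erase x : Finset (Fin N)) : Set (Fin N))ᶜ :=
    fun y hy hy' => hy (Finset.mem_of_mem_erase hy')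
  have k4 : t ∈ K (J : Set (Fin N)) := by
    have := mul_mem (inv_mem (w.monoK Set.sdiff_subset k1)) h1
    rwa [inv_mul_cancel_left] at this
  have s3 : ∀ z ∈ t :: l, z ∈ EE A T := by
    intro z hz
    rcases List.mem_cons.1 hz with rfl | hz
    · exact Or.inr (Or.inl ht)
    · exact h3 z hz
  have s4 : g = β * κ' * a * φ * (t :: l).prod := by
    have c := (w.cFK φ h0 t (w.monoK (Set.subset_univ _) k4)).eq
    have c' := (w.cKA _ _ disjoint_compl_right t k4 a h2).eq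
    rw [h4, List.prod_cons, ← mul_assoc _ t, mul_assoc _ φ t, c, ← mul_assoc _ t,
      mul_assoc _ a t, ← c']
    simp only [mul_assoc]
  have s5 : pot π (J.erase x) + (N - 1) * (t :: l).length ≤ B := by
    have := pot_insert π (Finset.notMem_erase x J)
    rw [Finset.insert_erase hJ] at this
    rw [List.length_cons, mul_add]
    generalize (N - 1) * l.length = M at *
    generalize pot π (J.erase x) = P at *
    generalize pot π J = P' at *
    omega
  exact ⟨κ', w.monoK s0 k1, a, w.monoA s2 h2, φ, h0, t :: l, s3, s4, s5⟩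

theorem Sta.mulK (w : Mech N e K A F T b) (t : Tr K A β π) (h : Sta K A F T β π J B g)
    {x : Fin N} (hx : x ∈ J) {s : G} (hs : s ∈ K {π x}) : Sta K A F T β π J B (s * g) := by
  obtain ⟨κ, h1, a, h2, φ, h0, l, h3, h4, h5⟩ := h
  refine ⟨β⁻¹ * s * β * κ, mul_mem (w.monoK (Set.singleton_subset_iff.2 hx) (t.2.1 x s hs)) h1,
    a, h2, φ, h0, l, h3, ?_, h5⟩
  rw [h4]
  simp only [mul_assoc, mul_inv_cancel_left]

theorem Sta.mulA (w : Mech N e K A F T b) (t : Tr K A β π) (h : Sta K A F T β π J B g)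
    {x : Fin N} (hx : x ∉ J) {s : G} (hs : s ∈ A {π x}) : Sta K A F T β π J B (s * g) := by
  obtain ⟨κ, h1, a, h2, φ, h0, l, h3, h4, h5⟩ := h
  have m : β⁻¹ * s * β ∈ A (J : Set (Fin N))ᶜ :=
    w.monoA (Set.singleton_subset_iff.2 hx) (t.2.2 x s hs)
  refine ⟨κ, h1, β⁻¹ * s * β * a, mul_mem m h2, φ, h0, l, h3, ?_, h5⟩
  have c := (w.cKA _ _ disjoint_compl_right κ h1 _ m).eq
  rw [h4, ← mul_assoc _ _ a, mul_assoc β κ (β⁻¹ * s * β), c]
  simp only [mul_assoc, mul_inv_cancel_left]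

theorem Sta.mulF (w : Mech N e K A F T b) (t : Tr K A β π) (h : Sta K A F T β π J B g)
    {s : G} (hs : s ∈ F) : Sta K A F T β π J B (s * g) := by
  obtain ⟨κ, h1, a, h2, φ, h0, l, h3, h4, h5⟩ := h
  refine ⟨κ, h1, a, h2, s * φ, mul_mem hs h0, l, h3, ?_, h5⟩
  have c := (((w.cFK s hs β t.1).mul_right
    (w.cFK s hs κ (w.monoK (Set.subset_univ _) h1))).mul_right
    (w.cFA s hs a (w.monoA (Set.subset_univ _) h2))).eq
  rw [h4, ← mul_assoc _ s, ← c]
  simp only [mul_assoc]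

theorem Sta.mulB (h : Sta K A F T β π J B g) {i j : Fin N} (hij : j.val = i.val + 1) (s : G) :
    Sta K A F T (s * β) (Equiv.swap i j * π) J (B + 2) (s * g) := by
  obtain ⟨κ, h1, a, h2, φ, h0, l, h3, h4, h5⟩ := h
  refine ⟨κ, h1, a, h2, φ, h0, l, h3, by rw [h4]; simp only [mul_assoc], ?_⟩
  have := pot_swap π J hij
  omega

theorem Tr.mul (t : Tr K A β π) {i j : Fin N} {s : G} (hs : s ∈ K Set.univ)
    (hK : ∀ J, ∀ g ∈ K J, s⁻¹ * g * s ∈ K (Equiv.swap i j '' J))
    (hA : ∀ J, ∀ g ∈ A J, s⁻¹ * g * s ∈ A (Equiv.swap i j '' J)) :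
    Tr K A (s * β) (Equiv.swap i j * π) := by
  have q : ∀ g : G, (s * β)⁻¹ * g * (s * β) = β⁻¹ * (s⁻¹ * g * s) * β := fun g => by
    simp only [mul_inv_rev, mul_assoc]
  refine ⟨mul_mem hs t.1, fun x g hg => ?_, fun x g hg => ?_⟩
  · have h := hK _ g hg
    rw [Set.image_singleton, Equiv.Perm.mul_apply, Equiv.swap_apply_self] at h
    rw [q]
    exact t.2.1 x _ h
  · have h := hA _ g hg
    rw [Set.image_singleton, Equiv.Perm.mul_apply, Equiv.swap_apply_self] at h
    rw [q]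
    exact t.2.2 x _ h

theorem step (w : Mech N e K A F T b) (t : Tr K A β π) (h : Sta K A F T β π J B g) {s : G}
    (hs : s ∈ gens K A F b ∨ s⁻¹ ∈ gens K A F b) :
    ∃ β' π' J', Tr K A β' π' ∧ Sta K A F T β' π' J' (B + 2) (s * g) := by
  have kK : ∀ i : Fin N, i.val = 0 → s ∈ K {i} →
      ∃ β' π' J', Tr K A β' π' ∧ Sta K A F T β' π' J' (B + 2) (s * g) := fun i hi hs => by
    obtain ⟨x, rfl⟩ := π.surjective i
    exact ⟨β, π, _, t, ((h.moveIn w hi).mulK w t (Finset.mem_insert_self _ _) hs).mono (by omega)⟩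
  have kA : ∀ i : Fin N, i.val + 1 = N → s ∈ A {i} →
      ∃ β' π' J', Tr K A β' π' ∧ Sta K A F T β' π' J' (B + 2) (s * g) := fun i hi hs => by
    obtain ⟨x, rfl⟩ := π.surjective i
    exact ⟨β, π, _, t, ((h.moveOut w hi).mulA w t (Finset.notMem_erase x J) hs).mono (by omega)⟩
  have kF : s ∈ F → ∃ β' π' J', Tr K A β' π' ∧ Sta K A F T β' π' J' (B + 2) (s * g) :=
    fun hs => ⟨β, π, J, t, (h.mulF w t hs).mono (by omega)⟩
  rcases hs with (⟨i, j, hij, rfl⟩ | ⟨i, hi, hs⟩ | ⟨i, hi, hs⟩ | hs) |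
    (⟨i, j, hij, hs⟩ | ⟨i, hi, hs⟩ | ⟨i, hi, hs⟩ | hs)
  · exact ⟨_, _, J, t.mul (w.bm i j) (fun J g hg => (w.bK i j J g hg).2)
      (fun J g hg => (w.bA i j J g hg).2), h.mulB hij _⟩
  · exact kK i hi hs
  · exact kA i hi hs
  · exact kF hs
  · obtain rfl : s = (b i j)⁻¹ := by rw [← hs, inv_inv]
    refine ⟨_, _, J, t.mul (inv_mem (w.bm i j)) (fun J g hg => ?_) (fun J g hg => ?_),
      h.mulB hij _⟩
    · rw [inv_inv]
      exact (w.bK i j J g hg).1
    · rw [inv_inv]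
      exact (w.bA i j J g hg).1
  · exact kK i hi (inv_mem_iff.1 hs)
  · exact kA i hi (inv_mem_iff.1 hs)
  · exact kF (inv_mem_iff.1 hs)

theorem word (w : Mech N e K A F T b) (l : List G)
    (hl : ∀ x ∈ l, x ∈ gens K A F b ∨ x⁻¹ ∈ gens K A F b) :
    ∃ β π J, Tr K A β π ∧ Sta K A F T β π J (2 * l.length + N ^ 2) l.prod := by
  induction l with
  | nil =>
    refine ⟨1, 1, ∅, ⟨one_mem _, fun x g hg => by simpa using hg, fun x g hg => by simpa using hg⟩,
      1, one_mem _, 1, one_mem _, 1, one_mem _, [], by simp, by simp, ?_⟩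
    simpa using pot_le 1 ∅
  | cons s l ih =>
    obtain ⟨β, π, J, t, h⟩ := ih fun x hx => hl x (List.mem_cons_of_mem _ hx)
    obtain ⟨β', π', J', t', h'⟩ := step w t h (hl s List.mem_cons_self)
    exact ⟨β', π', J', t', by
      rw [List.prod_cons]
      exact h'.mono (by rw [List.length_cons]; omega)⟩

end Invx

open Invx in
theorem inv_main : SpInv := by
  intro G _ N e K A F T b _ w
  have hF := ((w.finK.mul w.finK).mul w.finA).mul w.finF
  obtain ⟨E, hE, hE'⟩ := EE_ex w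
  refine ⟨(gens_fin w).toFinset, by rw [Set.Finite.coe_toFinset]; exact gens_top w,
    hF.toFinset, E, hE' 1 (Or.inl rfl), hE, ?_⟩
  rintro k _ ⟨l, hk, hl, rfl⟩
  obtain ⟨β, π, J, t, κ, h1, a, h2, φ, h0, l', h3, h4, h5⟩ := word w l fun x hx =>
    (hl x hx).imp (gens_fin w).mem_toFinset.1 (gens_fin w).mem_toFinset.1
  exact ⟨β * κ * a * φ, hF.mem_toFinset.2 (Set.mul_mem_mul (Set.mul_mem_mul (Set.mul_mem_mul t.1
    (w.monoK (Set.subset_univ _) h1)) (w.monoA (Set.subset_univ _) h2)) h0), l',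
    fun x hx => hE' x (h3 x hx), by omega, h4⟩

end Pool.Agent.MP_89edc2_al.R3
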