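import Pool.Agent.MP_89edc2_al.R3.Spec2

/-!
# Row LAM: the finite group of the reference partition
-/

namespace Pool.Agent.MP_89edc2_al.R3

namespace Lamx

/-- `g` exchanges the pairs of `R` above level `K` and fixes everything else -/
def MT (K : ℕ) (g : Equiv.Perm X) (R : Box → Box → Prop) : Prop :=
  (∀ a b, R a b → Ty a b ∧ CarK K g a b ∧ R b a) ∧ ∀ x, (∀ a b, R a b → ¬ In a x) → g x = x

/-- reference boxes above or in the reference partition -/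
def Good (K : ℕ) (b : Box) : Prop := RB b ∧ (dg b.2 < K ∨ Pi K b)

theorem fixK {K : ℕ} {g : Equiv.Perm X} {z : Box} (h : ∀ x, In z x → g x = x) : CarK K g z z :=
  fun u hu _ => h _ ⟨u, hu, rfl⟩

theorem ty_refl {a : Box} (h : a.2.length = 3) : Ty a a := ⟨h, h, rfl, rfl⟩

theorem nin (M : SemF) {a b : Box} (ha : a.2.length = 3) (hb : b.2.length = 3) (h : Disj a b)
    {x : X} (hx : In a x) : ¬ In b x := (M.disj_iff a b (ha.trans hb.symm)).1 h x hx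

theorem MT.fix (M : SemF) {K g R} (h : MT K g R) {z : Box} (hz : z.2.length = 3)
    (hd : ∀ a b, R a b → Disj z a) : CarK K g z z :=
  fixK fun x hx => h.2 x fun a b hab => nin M hz (h.1 a b hab).1.1 (hd a b hab) hx

theorem MT.mul (S : ShapeF) (M : SemF) {K g h R R'} (hg : MT K g R) (hh : MT K h R')
    (hd : ∀ a b a' b', R a b → R' a' b' → Disj a a') :
    MT K (g * h) fun a b => R a b ∨ R' a b := by
  refine ⟨?_, fun x hx => ?_⟩
  · rintro a b (hab | hab)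
    · obtain ⟨t, c, r⟩ := hg.1 a b hab
      exact ⟨t, M.carK_mul K h g a a b (ty_refl t.1)
        (hh.fix M t.1 fun a' b' h' => hd a b a' b' hab h') c, Or.inl r⟩
    · obtain ⟨t, c, r⟩ := hh.1 a b hab
      exact ⟨t, M.carK_mul K h g a b b t c
        (hg.fix M t.2.1 fun a' b' h' => S.disj_symm _ _ (hd a' b' b a h' r)), Or.inr r⟩
  · rw [Equiv.Perm.mul_apply, hh.2 x fun a b h' => hx a b (Or.inr h'),
      hg.2 x fun a b h' => hx a b (Or.inl h')]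

/-- the relation of one pair -/
def P2 (a b : Box) (x y : Box) : Prop := (x = a ∧ y = b) ∨ (x = b ∧ y = a)

theorem mt_of_tr (S : ShapeF) {K g a b} (t : Ty a b) (h : IsTr K g a b) : MT K g (P2 a b) := by
  refine ⟨?_, fun x hx => h.2.2 x (hx a b (Or.inl ⟨rfl, rfl⟩)) (hx b a (Or.inr ⟨rfl, rfl⟩))⟩
  rintro x y (⟨rfl, rfl⟩ | ⟨rfl, rfl⟩)
  · exact ⟨t, h.1, Or.inr ⟨rfl, rfl⟩⟩
  · exact ⟨S.ty_symm _ _ t, h.2.1, Or.inl ⟨rfl, rfl⟩⟩

theorem cycK (M : SemF) (K : ℕ) {a b c : Box} (t : Tri a b c) :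
    CarK K (res K (cyc a b c)) a b ∧ CarK K (res K (cyc a b c)) b c ∧
      CarK K (res K (cyc a b c)) c a ∧
      ∀ x, ¬ In a x → ¬ In b x → ¬ In c x → res K (cyc a b c) x = x := by
  obtain ⟨h1, h2, h3, h4⟩ := M.cyc_spec a b c t
  have hm := M.cyc_mem a b c t
  refine ⟨(M.res_carK K _ hm _ _).2 (M.car_K K _ _ _ h1),
    (M.res_carK K _ hm _ _).2 (M.car_K K _ _ _ h2),
    (M.res_carK K _ hm _ _).2 (M.car_K K _ _ _ h3), fun x ha hb hc => ?_⟩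
  rw [M.res_spec K _ hm x, h4 x ha hb hc, ite_self]

theorem kd_len (S : ShapeF) (b : Box) (i o) : (kd b i o).2.length = b.2.length :=
  S.kid_len b.2 i o

theorem kd_disj (S : ShapeF) {a b : Box} (h : Disj a b) (i j o o') :
    Disj (kd a i o) (kd b j o') :=
  S.disj_kd _ _ _ _ (S.disj_symm _ _ (S.disj_kd _ _ _ _ (S.disj_symm _ _ h)))

theorem good_kd (S : ShapeF) {K : ℕ} {ρ : Box} (h : RB ρ) (h0 : 0 < ar ρ.2) (hd : dg ρ.2 < K)
    (c : Bool) : Good K (kd ρ 0 (some c)) := by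
  refine ⟨S.rb_kd ρ _ h, ?_⟩
  have e1 : dg (kd ρ 0 (some c)).2 = dg ρ.2 + 1 := S.kid_dg1 ρ.2 0 c h0
  by_cases hk : dg ρ.2 + 1 < K
  · exact Or.inl (by omega)
  · have e2 : dg ρ.2 + 1 = K := by omega
    exact Or.inr (e2 ▸ S.pi_kd ρ c h h0)

section
variable {H : Type} [Group H] {K : ℕ} {p : H →* Equiv.Perm X} {e : D3G H} {s : Gam →* H}
  {pr : H →* Gam}

theorem gen_mem {J : Set Box} {a b c : Box} (ha : a ∈ J) (hb : b ∈ J) (hc : c ∈ J)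
    (t : Tri a b c) : e a b c ∈ HJ e J :=
  Subgroup.subset_closure ⟨a, ha, b, hb, c, hc, t, rfl⟩

theorem cubes (S : ShapeF) (Bf : BasF) (N : NF K p e s pr) (n : ℕ) :
    ∀ a b c, Tri a b c → ar a.2 = n → dg a.2 ≤ K → e a b c ^ 3 = 1 := by
  induction n with
  | zero => intro a b c t h0 hd; rw [N.kill a b c t h0 hd, one_pow]
  | succ n ih =>
    intro a b c t h0 hd
    have hp : 0 < ar a.2 := by omega
    rw [Bf.zkid H e N.full a b c t hp]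
    have e1 : ar (kd a 0 none).2 + 1 = ar a.2 := S.kid_ar0 a.2 0 hp
    have e2 : dg (kd a 0 none).2 = dg a.2 := S.kid_dg0 a.2 0
    exact ih _ _ _ (S.tri_kd a b c 0 none t hp) (by omega) (by omega)

theorem stab (S : ShapeF) (Bf : BasF) (Af : AltF) (N : NF K p e s pr) (g : H)
    (hg : g ∈ HJ e {P | Pi K P}) : g ∈ HJ e {a | a ∈ {P | Pi K P} ∧ ¬ Off (p g) a} :=
  Af.stab H e K p N.full N.pd _ (S.pi_pd K)
    ((S.fin_box K).subset fun _ h => ⟨h.1, h.2.2.le⟩) (fun a ha => (S.pi_rb K a ha).2)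
    (fun a ha b _ c _ t => cubes S Bf N _ a b c t rfl ha.2.2.le) g hg

theorem mem_aux (S : ShapeF) (N : NF K p e s pr) (m : ℕ) :
    ∀ a b c, Tri a b c → Good K a → Good K b → Good K c → 4 * (K - dg a.2) + ar a.2 < m →
      e a b c ∈ HJ e {P | Pi K P} := by
  induction m with
  | zero => intro a b c _ _ _ _ h; omega
  | succ m ih =>
    intro a b c t ha hb hc hm
    have db : dg a.2 = dg b.2 := t.1.2.2.2
    have dc : dg a.2 = dg c.2 := t.2.1.2.2.2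
    have ab : ar a.2 = ar b.2 := t.1.2.2.1
    have ac : ar a.2 = ar c.2 := t.2.1.2.2.1
    by_cases hd : dg a.2 < K
    · by_cases h0 : ar a.2 = 0
      · rw [N.kill a b c t h0 hd.le]; exact one_mem _
      · have hp : 0 < ar a.2 := by omega
        have tk := fun o => S.tri_kd a b c 0 o t hp
        rw [N.full.split a b c 0 t hp tk]
        have e1 : ar (kd a 0 none).2 + 1 = ar a.2 := S.kid_ar0 a.2 0 hp
        have e2 : ∀ z : Box, dg (kd z 0 none).2 = dg z.2 := fun z => S.kid_dg0 z.2 0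
        have hl : ∀ l : Bool, e (kd a 0 (some l)) (kd b 0 (some l)) (kd c 0 (some l)) ∈
            HJ e {P | Pi K P} := by
          intro l
          have e3 : dg (kd a 0 (some l)).2 = dg a.2 + 1 := S.kid_dg1 a.2 0 l hp
          have e4 : ar (kd a 0 (some l)).2 = ar a.2 := S.kid_ar1 a.2 0 l
          exact ih _ _ _ (tk _) (good_kd S ha.1 hp hd l) (good_kd S hb.1 (by omega) (by omega) l)
            (good_kd S hc.1 (by omega) (by omega) l) (by omega)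
        refine mul_mem (mul_mem ?_ (hl false)) (hl true)
        have := e2 a
        exact ih _ _ _ (tk _) ⟨S.rb_kd _ _ ha.1, Or.inl (by omega)⟩
          ⟨S.rb_kd _ _ hb.1, Or.inl (by rw [e2]; omega)⟩
          ⟨S.rb_kd _ _ hc.1, Or.inl (by rw [e2]; omega)⟩ (by omega)
    · exact gen_mem (ha.2.resolve_left hd) (hb.2.resolve_left (by omega))
        (hc.2.resolve_left (by omega)) t

theorem mem_good (S : ShapeF) (N : NF K p e s pr) {a b c : Box} (t : Tri a b c) (ha : Good K a)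
    (hb : Good K b) (hc : Good K c) : e a b c ∈ HJ e {P | Pi K P} :=
  mem_aux S N _ a b c t ha hb hc (Nat.lt_succ_self _)

theorem gen_car (S : ShapeF) (M : SemF) (N : NF K p e s pr) {a b c : Box} (ha : Pi K a)
    (hb : Pi K b) (hc : Pi K c) (t : Tri a b c) (P : Box) (hP : Pi K P) :
    ∃ P', Pi K P' ∧ Ty P P' ∧ CarK K (p (e a b c)) P P' := by
  obtain ⟨h1, h2, h3, h4⟩ := cycK M K t
  rw [N.pd a b c t]
  by_cases ea : P = a
  · exact ⟨b, hb, ea ▸ t.1, ea ▸ h1⟩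
  by_cases eb : P = b
  · exact ⟨c, hc, eb ▸ S.ty_trans _ _ _ (S.ty_symm _ _ t.1) t.2.1, eb ▸ h2⟩
  by_cases ec : P = c
  · exact ⟨a, ha, ec ▸ S.ty_symm _ _ t.2.1, ec ▸ h3⟩
  have pd := (S.pi_pd K).2
  exact ⟨P, hP, ty_refl hP.1, fixK fun x hx => h4 x (nin M hP.1 ha.1 (pd P hP a ha ea) hx)
    (nin M hP.1 hb.1 (pd P hP b hb eb) hx) (nin M hP.1 hc.1 (pd P hP c hc ec) hx)⟩

theorem all_car (S : ShapeF) (M : SemF) (Bf : BasF) (N : NF K p e s pr) (g : H)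
    (hg : g ∈ HJ e {P | Pi K P}) :
    ∀ P, Pi K P → ∃ P', Pi K P' ∧ Ty P P' ∧ CarK K (p g) P P' := by
  induction hg using Subgroup.closure_induction'' with
  | mem x hx =>
    obtain ⟨a, ha, b, hb, c, hc, t, rfl⟩ := hx
    exact gen_car S M N ha hb hc t
  | inv_mem x hx =>
    obtain ⟨a, ha, b, hb, c, hc, t, rfl⟩ := hx
    rw [← Bf.inv' H Tri e N.full a b c t]
    exact gen_car S M N ha hc hb (S.sy_tri a b c t).2
  | one => exact fun P hP => ⟨P, hP, ty_refl hP.1, by rw [map_one]; exact (M.car_one K P).2⟩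
  | mul x y _ _ hx hy =>
    intro P hP
    obtain ⟨P₁, h1, t1, c1⟩ := hy P hP
    obtain ⟨P₂, h2, t2, c2⟩ := hx P₁ h1
    exact ⟨P₂, h2, S.ty_trans _ _ _ t1 t2, by
      rw [map_mul]; exact M.carK_mul K _ _ _ _ _ t1 c1 c2⟩

theorem e0 (S : ShapeF) (M : SemF) (Bf : BasF) (Af : AltF) (N : NF K p e s pr) (g : H)
    (hg : g ∈ HJ e {P | Pi K P}) (x : H) (hx : ∀ y, p g y = y ∨ p x y = y) : Commute g x := by
  have key : ∀ P, Pi K P → ¬ Off (p g) P → CarK K (p x) P P := by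
    intro P hP hO u hu hl
    obtain ⟨P', hP', t, c⟩ := all_car S M Bf N g hg P hP
    have hne : P ≠ P' := by
      rintro rfl
      obtain ⟨γ, hγ, eγ⟩ := N.low g
      rw [eγ] at c hO
      exact hO (M.carK_off K γ hγ P c)
    refine (hx _).resolve_left fun h => ?_
    rw [c u hu hl] at h
    exact nin M hP.1 hP'.1 ((S.pi_pd K).2 P hP P' hP' hne) ⟨u, hu, rfl⟩
      ⟨u, hu.trans t.2.2.1, h.symm⟩
  have h2 := stab S Bf Af N g hg
  have h3 : ∀ y ∈ HJ e {a | a ∈ {P | Pi K P} ∧ ¬ Off (p g) a}, Commute y x := by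
    intro y hy
    induction hy using Subgroup.closure_induction with
    | mem z hz =>
      obtain ⟨a, ha, b, hb, c, hc, t, rfl⟩ := hz
      have := N.cr x a b c a b c t t (ty_refl t.1.1) (key a ha.1 ha.2) (key b hb.1 hb.2)
        (key c hc.1 hc.2)
      exact (mul_inv_eq_iff_eq_mul.1 this).symm
    | one => exact Commute.one_left _
    | mul y z _ _ h1 h2 => exact h1.mul_left h2
    | inv y _ h1 => exact h1.inv_left
  exact h3 g h2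

theorem dbl (S : ShapeF) (M : SemF) (N : NF K p e s pr) {x y z w : Box} (t1 : Tri x y z)
    (t2 : Tri y z w) (dxw : Disj x w) (hx : Good K x) (hy : Good K y) (hz : Good K z)
    (hw : Good K w) :
    ∃ a ∈ HJ e {P | Pi K P}, MT K (p a) fun a b => P2 x y a b ∨ P2 z w a b := by
  refine ⟨e x y z * e y z w, mul_mem (mem_good S N t1 hx hy hz) (mem_good S N t2 hy hz hw), ?_⟩
  rw [map_mul, N.pd _ _ _ t1, N.pd _ _ _ t2]
  obtain ⟨a1, a2, a3, a4⟩ := cycK M K t1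
  obtain ⟨b1, b2, b3, b4⟩ := cycK M K t2
  have lx := hx.1.1
  have ly := hy.1.1
  have lz := hz.1.1
  have lw := hw.1.1
  have tzw : Ty z w := S.ty_trans _ _ _ (S.ty_symm _ _ t2.1) t2.2.1
  have fx : CarK K (res K (cyc y z w)) x x := fixK fun q hq =>
    b4 q (nin M lx ly t1.2.2.1 hq) (nin M lx lz t1.2.2.2.1 hq) (nin M lx lw dxw hq)
  have fw' : CarK K (res K (cyc x y z)) w w := fixK fun q hq =>
    a4 q (nin M lw lx (S.disj_symm _ _ dxw) hq) (nin M lw ly (S.disj_symm _ _ t2.2.2.2.1) hq)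
      (nin M lw lz (S.disj_symm _ _ t2.2.2.2.2) hq)
  refine ⟨?_, fun q hq => ?_⟩
  · rintro a b ((⟨rfl, rfl⟩ | ⟨rfl, rfl⟩) | (⟨rfl, rfl⟩ | ⟨rfl, rfl⟩))
    · exact ⟨t1.1, M.carK_mul K _ _ _ _ _ (ty_refl lx) fx a1, Or.inl (Or.inr ⟨rfl, rfl⟩)⟩
    · exact ⟨S.ty_symm _ _ t1.1, M.carK_mul K _ _ _ _ _ t2.1 b1 a3, Or.inl (Or.inl ⟨rfl, rfl⟩)⟩
    · exact ⟨tzw, M.carK_mul K _ _ _ _ _ tzw b2 fw', Or.inr (Or.inr ⟨rfl, rfl⟩)⟩
    · exact ⟨S.ty_symm _ _ tzw, M.carK_mul K _ _ _ _ _ (S.ty_symm _ _ t2.2.1) b3 a2,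
        Or.inr (Or.inl ⟨rfl, rfl⟩)⟩
  · have nx := hq x y (Or.inl (Or.inl ⟨rfl, rfl⟩))
    have ny := hq y x (Or.inl (Or.inr ⟨rfl, rfl⟩))
    have nz := hq z w (Or.inr (Or.inl ⟨rfl, rfl⟩))
    have nw := hq w z (Or.inr (Or.inr ⟨rfl, rfl⟩))
    rw [Equiv.Perm.mul_apply, b4 q ny nz nw, a4 q nx ny nz]

theorem ty_let (S : ShapeF) {a b : Box} (t : Ty a b) (h0 : 0 < ar a.2) (c c' : Bool) :
    Ty (kd a 0 (some c)) (kd b 0 (some c')) := by
  have h1 : 0 < ar b.2 := t.2.2.1 ▸ h0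
  refine ⟨(kd_len S _ _ _).trans t.1, (kd_len S _ _ _).trans t.2.1, ?_, ?_⟩
  · exact (S.kid_ar1 a.2 0 c).trans (t.2.2.1.trans (S.kid_ar1 b.2 0 c').symm)
  · exact (S.kid_dg1 a.2 0 c h0).trans
      ((congrArg (· + 1) t.2.2.2).trans (S.kid_dg1 b.2 0 c' h1).symm)

theorem tr (S : ShapeF) (M : SemF) (N : NF K p e s pr) (n : ℕ) :
    ∀ ρ ρ', RB ρ → RB ρ' → Ty ρ ρ' → Disj ρ ρ' → dg ρ.2 < K → ar ρ.2 = n →
      ∃ a ∈ HJ e {P | Pi K P}, IsTr K (p a) ρ ρ' := by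
  induction n with
  | zero =>
    intro ρ ρ' _ _ t _ hd h0
    refine ⟨1, one_mem _, fun u hu hl => ?_, fun u hu hl => ?_, fun x _ _ => by rw [map_one]; rfl⟩
    · have := (M.in_lev ρ _ ⟨u, hu, rfl⟩).2 h0
      omega
    · have := (M.in_lev ρ' _ ⟨u, hu, rfl⟩).2 (t.2.2.1 ▸ h0)
      have := t.2.2.2
      omega
  | succ n ih =>
    intro ρ ρ' r r' t d hd h0
    have hp : 0 < ar ρ.2 := by omega
    have hp' : 0 < ar ρ'.2 := t.2.2.1 ▸ hp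
    have hd' : dg ρ'.2 < K := t.2.2.2 ▸ hd
    have ts := S.ty_symm _ _ t
    have ds := S.disj_symm _ _ d
    have e1 : ar (kd ρ 0 none).2 + 1 = ar ρ.2 := S.kid_ar0 ρ.2 0 hp
    have e2 : dg (kd ρ 0 none).2 = dg ρ.2 := S.kid_dg0 ρ.2 0
    have tn := S.ty_kd ρ ρ' 0 0 none t hp hp
    obtain ⟨a₀, m₀, h₀⟩ := ih _ _ (S.rb_kd ρ none r) (S.rb_kd ρ' none r') tn
      (kd_disj S d _ _ _ _) (by omega) (by omega)
    obtain ⟨a₁, m₁, h₁⟩ := dbl S M N (x := kd ρ 0 (some false)) (y := kd ρ' 0 (some false))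
      (z := kd ρ 0 (some true)) (w := kd ρ' 0 (some true))
      ⟨ty_let S t hp _ _, ty_let S (ty_refl t.1) hp _ _, kd_disj S d _ _ _ _,
        S.disj_kids _ _ _ _ hp (by decide), kd_disj S ds _ _ _ _⟩
      ⟨ty_let S ts hp' _ _, ty_let S (ty_refl t.2.1) hp' _ _, kd_disj S ds _ _ _ _,
        S.disj_kids _ _ _ _ hp' (by decide), kd_disj S d _ _ _ _⟩
      (kd_disj S d _ _ _ _) (good_kd S r hp hd _) (good_kd S r' hp' hd' _) (good_kd S r hp hd _)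
      (good_kd S r' hp' hd' _)
    have hm := (mt_of_tr S tn h₀).mul S M h₁ (by
      rintro a b a' b' (⟨rfl, -⟩ | ⟨rfl, -⟩) ((⟨rfl, -⟩ | ⟨rfl, -⟩) | (⟨rfl, -⟩ | ⟨rfl, -⟩))
      all_goals first
        | exact S.disj_kids _ _ _ _ hp (by decide)
        | exact S.disj_kids _ _ _ _ hp' (by decide)
        | exact kd_disj S d _ _ _ _
        | exact kd_disj S ds _ _ _ _)
    rw [← map_mul] at hm
    have hR : ∀ o, P2 (kd ρ 0 none) (kd ρ' 0 none) (kd ρ 0 o) (kd ρ' 0 o) ∨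
        P2 (kd ρ 0 (some false)) (kd ρ' 0 (some false)) (kd ρ 0 o) (kd ρ' 0 o) ∨
        P2 (kd ρ 0 (some true)) (kd ρ' 0 (some true)) (kd ρ 0 o) (kd ρ' 0 o) := by
      rintro (_ | _ | _)
      · exact Or.inl (Or.inl ⟨rfl, rfl⟩)
      · exact Or.inr (Or.inl (Or.inl ⟨rfl, rfl⟩))
      · exact Or.inr (Or.inr (Or.inl ⟨rfl, rfl⟩))
    refine ⟨a₀ * a₁, mul_mem m₀ m₁,
      M.carK_kids K _ _ _ 0 t hp fun o => (hm.1 _ _ (hR o)).2.1,
      M.carK_kids K _ _ _ 0 ts hp' fun o => (hm.1 _ _ (hm.1 _ _ (hR o)).2.2).2.1,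
      fun x h1 h2 => hm.2 x ?_⟩
    rintro a b ((⟨rfl, -⟩ | ⟨rfl, -⟩) | (⟨rfl, -⟩ | ⟨rfl, -⟩) | (⟨rfl, -⟩ | ⟨rfl, -⟩))
    all_goals first
      | exact fun h => h1 (M.in_kd _ _ _ _ h)
      | exact fun h => h2 (M.in_kd _ _ _ _ h)

theorem ar_pos (S : ShapeF) {ρ : Box} (h2 : 2 ≤ ar ρ.2) (o) : 0 < ar (kd ρ 0 o).2 := by
  cases o with
  | none =>
    have e1 : ar (kd ρ 0 none).2 + 1 = ar ρ.2 := S.kid_ar0 ρ.2 0 (by omega)
    omega
  | some c =>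
    have e1 : ar (kd ρ 0 (some c)).2 = ar ρ.2 := S.kid_ar1 ρ.2 0 c
    omega

theorem kk_disj (S : ShapeF) {ρ : Box} (h2 : 2 ≤ ar ρ.2) {o₁ o₂ o₁' o₂' : Option Bool}
    (h : o₁ ≠ o₁' ∨ o₂ ≠ o₂') : Disj (kd (kd ρ 0 o₁) 0 o₂) (kd (kd ρ 0 o₁') 0 o₂') := by
  by_cases h1 : o₁ = o₁'
  · subst h1
    exact S.disj_kids _ _ _ _ (ar_pos S h2 _) (h.resolve_left fun h => h rfl)
  · exact kd_disj S (S.disj_kids _ _ _ _ (by omega) h1) _ _ _ _

theorem kd_ad (S : ShapeF) {ρ : Box} (h0 : 0 < ar ρ.2) (o : Option Bool) :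
    ar (kd ρ 0 o).2 + (if o = none then 1 else 0) = ar ρ.2 ∧
      dg (kd ρ 0 o).2 + (if o = none then 1 else 0) = dg ρ.2 + 1 := by
  cases o with
  | none => exact ⟨S.kid_ar0 ρ.2 0 h0, congrArg (· + 1) (S.kid_dg0 ρ.2 0)⟩
  | some c => exact ⟨S.kid_ar1 ρ.2 0 c, S.kid_dg1 ρ.2 0 c h0⟩

theorem sq (S : ShapeF) (M : SemF) (N : NF K p e s pr) (ρ : Box) (r : RB ρ) (h2 : 2 ≤ ar ρ.2)
    (hd : dg ρ.2 + 2 < K) : ∃ a ∈ HJ e {P | Pi K P}, IsSq K (p a) ρ := by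
  have len : ∀ o o', (kd (kd ρ 0 o) 0 o').2.length = 3 := fun o o' =>
    (kd_len S _ _ _).trans ((kd_len S _ _ _).trans r.1)
  have one : ∀ o o' : Option Bool, o ≠ o' → ∃ a ∈ HJ e {P | Pi K P},
      MT K (p a) (P2 (kd (kd ρ 0 o) 0 o') (kd (kd ρ 0 o') 0 o)) := by
    intro o o' hne
    have a1 := kd_ad S (ρ := ρ) (by omega) o
    have a2 := kd_ad S (ρ := ρ) (by omega) o'
    have a3 := kd_ad S (ar_pos S h2 o) o'
    have a4 := kd_ad S (ar_pos S h2 o') o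
    have t : Ty (kd (kd ρ 0 o) 0 o') (kd (kd ρ 0 o') 0 o) :=
      ⟨len _ _, len _ _, by omega, by omega⟩
    obtain ⟨a, m, h⟩ := tr S M N _ _ _ (S.rb_kd _ _ (S.rb_kd _ _ r)) (S.rb_kd _ _ (S.rb_kd _ _ r))
      t (kk_disj S h2 (Or.inl hne)) (by omega) rfl
    exact ⟨a, m, mt_of_tr S t h⟩
  obtain ⟨a₁, m₁, h₁⟩ := one (some false) (some true) (by decide)
  obtain ⟨a₂, m₂, h₂⟩ := one none (some false) (by decide)
  obtain ⟨a₃, m₃, h₃⟩ := one none (some true) (by decide)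
  have h12 := h₁.mul S M h₂ (by
    rintro a b a' b' (⟨rfl, -⟩ | ⟨rfl, -⟩) (⟨rfl, -⟩ | ⟨rfl, -⟩)
    all_goals exact kk_disj S h2 (by decide))
  have hm := h12.mul S M h₃ (by
    rintro a b a' b' ((⟨rfl, -⟩ | ⟨rfl, -⟩) | (⟨rfl, -⟩ | ⟨rfl, -⟩)) (⟨rfl, -⟩ | ⟨rfl, -⟩)
    all_goals exact kk_disj S h2 (by decide))
  rw [← map_mul, ← map_mul] at hm
  have dia : ∀ o, CarK K (p (a₁ * a₂ * a₃)) (kd (kd ρ 0 o) 0 o) (kd (kd ρ 0 o) 0 o) := by
    intro o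
    refine hm.fix M (len _ _) ?_
    rintro a b (((⟨rfl, -⟩ | ⟨rfl, -⟩) | (⟨rfl, -⟩ | ⟨rfl, -⟩)) | (⟨rfl, -⟩ | ⟨rfl, -⟩))
    all_goals exact kk_disj S h2 (by rcases o with _ | _ | _ <;> decide)
  refine ⟨a₁ * a₂ * a₃, mul_mem (mul_mem m₁ m₂) m₃, ?_, fun x hx => hm.2 x ?_⟩
  · rintro (_ | _ | _) (_ | _ | _)
    · exact dia _
    · exact (hm.1 _ _ (Or.inl (Or.inr (Or.inl ⟨rfl, rfl⟩)))).2.1
    · exact (hm.1 _ _ (Or.inr (Or.inl ⟨rfl, rfl⟩))).2.1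
    · exact (hm.1 _ _ (Or.inl (Or.inr (Or.inr ⟨rfl, rfl⟩)))).2.1
    · exact dia _
    · exact (hm.1 _ _ (Or.inl (Or.inl (Or.inl ⟨rfl, rfl⟩)))).2.1
    · exact (hm.1 _ _ (Or.inr (Or.inr ⟨rfl, rfl⟩))).2.1
    · exact (hm.1 _ _ (Or.inl (Or.inl (Or.inr ⟨rfl, rfl⟩)))).2.1
    · exact dia _
  · rintro a b (((⟨rfl, -⟩ | ⟨rfl, -⟩) | (⟨rfl, -⟩ | ⟨rfl, -⟩)) | (⟨rfl, -⟩ | ⟨rfl, -⟩))
    all_goals exact fun h => hx (M.in_kd _ _ _ _ (M.in_kd _ _ _ _ h))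

end

end Lamx

/-- Row LAM. -/
theorem lam_main : SpLam := by
  intro S M Bf Af H _ K p e s pr _ N
  refine ⟨HJ e {P | Pi K P}, fun a ha h1 => ?_, fun a ha => ?_, fun a b c t ra rb rc hd => ?_,
    fun ρ ρ' r r' t d hd => Lamx.tr S M N _ ρ ρ' r r' t d hd rfl,
    fun a ha x hx => Lamx.e0 S M Bf Af N a ha x hx,
    fun ρ r h2 hd => Lamx.sq S M N ρ r h2 hd⟩
  · have h2 := Lamx.stab S Bf Af N a ha
    rw [h1] at h2
    have h3 : HJ e {a | a ∈ {P | Pi K P} ∧ ¬ Off 1 a} ≤ ⊥ := by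
      refine (Subgroup.closure_le _).2 ?_
      rintro g ⟨b, hb, -⟩
      exact (hb.2 fun _ _ => rfl).elim
    exact Subgroup.mem_bot.1 (h3 h2)
  · have h3 : HJ e {P | Pi K P} ≤ pr.ker := by
      refine (Subgroup.closure_le _).2 ?_
      rintro g ⟨a, -, b, -, c, -, t, rfl⟩
      exact N.pre a b c t
    exact h3 ha
  · have db : dg a.2 = dg b.2 := t.1.2.2.2
    have dc : dg a.2 = dg c.2 := t.2.1.2.2.2
    exact Lamx.mem_good S N t ⟨ra, Or.inl hd⟩ ⟨rb, Or.inl (by omega)⟩ ⟨rc, Or.inl (by omega)⟩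

end Pool.Agent.MP_89edc2_al.R3
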