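import Pool.Agent.MP_89edc2_al.R3.Spec2

/-! Labels on the reference partition. -/

namespace Pool.Agent.MP_89edc2_al.R3

namespace Layx

/-- all letters of a shape -/
def wrd : Shape → List Bool
  | [] => []
  | e :: σ => e.1 ++ wrd σ

/-- rewrite the letters of a shape -/
def rew : Shape → List Bool → Shape
  | [], _ => []
  | e :: σ, v => (v.take e.1.length, e.2) :: rew σ (v.drop e.1.length)

theorem wrd_len : ∀ σ : Shape, (wrd σ).length = dg σ
  | [] => rfl
  | e :: σ => by simp [wrd, dg, wrd_len σ]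

theorem rew_wrd : ∀ σ : Shape, rew σ (wrd σ) = σ
  | [] => rfl
  | e :: σ => by simp [wrd, rew, rew_wrd σ]

theorem wrd_rew : ∀ (σ : Shape) (v : List Bool), v.length = dg σ → wrd (rew σ v) = v
  | [], v, h => (List.length_eq_zero_iff.1 h).symm
  | e :: σ, v, h => by
    have h' : (v.drop e.1.length).length = dg σ := by simp [dg] at h ⊢; omega
    simp [wrd, rew, wrd_rew σ _ h']

theorem rew_rew : ∀ (σ : Shape) (v v' : List Bool), v.length = dg σ →
    rew (rew σ v) v' = rew σ v'
  | [], _, _, _ => rfl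
  | e :: σ, v, v', h => by
    have h' : (v.drop e.1.length).length = dg σ := by simp [dg] at h ⊢; omega
    have h1 : (v.take e.1.length).length = e.1.length := by simp [dg] at h ⊢; omega
    simp only [rew, h1, rew_rew σ _ _ h']

theorem rew_len : ∀ (σ : Shape) (v : List Bool), (rew σ v).length = σ.length
  | [], _ => rfl
  | e :: σ, v => by simp [rew, rew_len σ]

theorem rew_ar : ∀ (σ : Shape) (v : List Bool), ar (rew σ v) = ar σ
  | [], _ => rfl
  | (_, true) :: σ, v => by simp [rew, ar, rew_ar σ]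
  | (_, false) :: σ, v => by simp [rew, ar, rew_ar σ]

theorem rew_dg (σ : Shape) (v : List Bool) (h : v.length = dg σ) : dg (rew σ v) = dg σ := by
  rw [← wrd_len, wrd_rew σ v h, h]

theorem rew_id : ∀ (c : ℕ) (v : List Bool), rew (idS c) v = idS c
  | 0, _ => rfl
  | c + 1, v => by
    have := rew_id c v
    simp only [idS, List.replicate_succ, rew, List.length_nil, List.take_zero,
      List.drop_zero] at this ⊢
    rw [this]

theorem rew_mx : ∀ (σ : Shape) (v : List Bool), v.length = dg σ → Mx σ → Mx (rew σ v)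
  | [], _, _, h => h
  | (w, true) :: σ, v, h, hm => by
    have h' : (v.drop w.length).length = dg σ := by simp [dg] at h ⊢; omega
    exact rew_mx σ _ h' hm
  | (w, false) :: σ, v, h, hm => by
    have h1 : (v.take w.length).length = w.length := by simp [dg] at h ⊢; omega
    refine ⟨fun h0 => hm.1 (List.length_eq_zero_iff.1 (h1.symm.trans (by rw [h0]; rfl))), ?_⟩
    rw [rew_len]
    conv_lhs => rw [hm.2, rew_id]

theorem pi_rew {K : ℕ} {P : Box} (h : Pi K P) (i : Fin 40) {v : List Bool} (hv : v.length = K) :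
    Pi K (i, rew P.2 v) ∧ Ty P (i, rew P.2 v) ∧ wrd (rew P.2 v) = v := by
  have h1 : v.length = dg P.2 := hv.trans h.2.2.symm
  have h2 := (rew_len P.2 v).trans h.1
  exact ⟨⟨h2, rew_mx _ _ h1 h.2.1, (rew_dg _ _ h1).trans h.2.2⟩,
    ⟨h.1, h2, (rew_ar _ _).symm, (rew_dg _ _ h1).symm⟩, wrd_rew _ _ h1⟩

theorem pi_len {K : ℕ} {P : Box} (h : Pi K P) : (wrd P.2).length = K := (wrd_len _).trans h.2.2

/-- a map on words acts on boxes -/
def app (f : List Bool → List Bool) (P : Box) : Box := (P.1, rew P.2 (f (wrd P.2)))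

theorem app_app {K : ℕ} {P : Box} (h : Pi K P) (f g : List Bool → List Bool)
    (hf : (f (wrd P.2)).length = K) : app g (app f P) = app (fun v => g (f v)) P := by
  have h1 := hf.trans h.2.2.symm
  simp only [app, wrd_rew _ _ h1, rew_rew _ _ _ h1]

theorem app_id (f : List Bool → List Bool) (P : Box) (h : f (wrd P.2) = wrd P.2) :
    app f P = P := by
  simp only [app, h, rew_wrd]

theorem words (n : ℕ) : ∃ W : Finset (List Bool), W.card ≤ 2 ^ n ∧ ∀ v, v.length = n → v ∈ W := by
  refine ⟨Finset.univ.image fun v : List.Vector Bool n => v.toList, ?_, fun v h => ?_⟩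
  · exact Finset.card_image_le.trans (by simp [card_vector])
  · exact Finset.mem_image.2 ⟨⟨v, h⟩, Finset.mem_univ _, rfl⟩

theorem codes (α : Type) [Fintype α] (n : ℕ) (h : Fintype.card α ≤ 2 ^ n) :
    ∃ f : α → List Bool, Function.Injective f ∧ ∀ a, (f a).length = n := by
  obtain ⟨e⟩ := Function.Embedding.nonempty_of_card_le (α := α) (β := List.Vector Bool n)
    (by simpa [card_vector] using h)
  exact ⟨fun a => (e a).toList, List.Vector.toList_injective.comp e.injective,
    fun a => (e a).toList_length⟩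

theorem count (K : ℕ) (W : Finset (List Bool)) (S : Set Box)
    (h : ∀ P ∈ S, Pi K P ∧ wrd P.2 ∈ W) : S.ncard ≤ 320 * (K + 1) ^ 2 * W.card := by
  classical
  let T := (Finset.univ : Finset (Fin 40 × Bool × Bool × Bool)) ×ˢ Finset.range (K + 1) ×ˢ
    Finset.range (K + 1) ×ˢ W
  let f : (Fin 40 × Bool × Bool × Bool) × ℕ × ℕ × List Bool → Box := fun q =>
    (q.1.1, [(q.2.2.2.take q.2.1, q.1.2.1), ((q.2.2.2.drop q.2.1).take q.2.2.1, q.1.2.2.1),
      ((q.2.2.2.drop q.2.1).drop q.2.2.1, q.1.2.2.2)])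
  have h1 : S ⊆ ↑(T.image f) := by
    rintro ⟨i, σ⟩ hP
    obtain ⟨⟨h2, -, h3⟩, h4⟩ := h _ hP
    obtain ⟨a, b, c, rfl⟩ := List.length_eq_three.1 h2
    simp only [dg] at h3
    refine Finset.mem_coe.2 (Finset.mem_image.2
      ⟨((i, a.2, b.2, c.2), a.1.length, b.1.length, wrd [a, b, c]), ?_, ?_⟩)
    · simp only [T, Finset.mem_product, Finset.mem_univ, Finset.mem_range, true_and]
      exact ⟨by omega, by omega, h4⟩
    · simp [f, wrd]
  refine (Set.ncard_le_ncard h1 (Finset.finite_toSet _)).trans ?_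
  rw [Set.ncard_coe_finset]
  refine Finset.card_image_le.trans (le_of_eq ?_)
  simp only [T, Finset.card_product, Finset.card_univ, Fintype.card_prod, Fintype.card_fin,
    Fintype.card_bool, Finset.card_range]
  ring

/-- the template of arity `c` -/
def tmp (K c : ℕ) : Shape :=
  List.replicate (3 - c) ([], true) ++ (List.replicate K false, false) :: idS (c - 1)

theorem tmp_pi {K c : ℕ} (hK : 1 ≤ K) (h1 : 1 ≤ c) (h3 : c ≤ 3) :
    Pi K (0, tmp K c) ∧ ar (tmp K c) = c := by
  have h0 : K ≠ 0 := by omega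
  interval_cases c <;> simp [Pi, tmp, idS, Mx, dg, ar, List.replicate_succ, h0]

theorem bound {k κ p : ℕ} (hp : p ≤ 320 * (k + 1 + κ + 1) ^ 2 * 2 ^ (k + 1 + κ)) :
    (6 * p ^ 3 + 1) ^ (320 * (k + 1 + κ + 1) ^ 2 * 2 ^ κ) ≤
      2 ^ (9600 * 2 ^ κ * (κ + 2) ^ 3 * (k + 1) ^ 3) := by
  have h0 : k + 1 + κ + 1 ≤ (κ + 2) * (k + 1) := by nlinarith [Nat.zero_le (κ * k)]
  generalize k + 1 + κ = K at hp h0 ⊢
  have h1 : K + 1 ≤ 2 ^ K := Nat.lt_two_pow_self
  have h2 : p ≤ 2 ^ (3 * K + 9) := by
    calc p ≤ 320 * (K + 1) ^ 2 * 2 ^ K := hp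
      _ ≤ 512 * (2 ^ K) ^ 2 * 2 ^ K := by gcongr; norm_num
      _ = 2 ^ (3 * K + 9) := by ring
  have h3 : 6 * p ^ 3 + 1 ≤ 2 ^ (30 * (K + 1)) := by
    have h4 : 1 ≤ (2 ^ (3 * K + 9)) ^ 3 := Nat.one_le_pow _ _ (by positivity)
    calc 6 * p ^ 3 + 1 ≤ 6 * (2 ^ (3 * K + 9)) ^ 3 + 2 * (2 ^ (3 * K + 9)) ^ 3 := by
          have := Nat.pow_le_pow_left h2 3
          omega
      _ = 2 ^ (9 * K + 30) := by ring
      _ ≤ _ := Nat.pow_le_pow_right two_pos (by omega)
  refine (Nat.pow_le_pow_left h3 _).trans ?_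
  rw [← pow_mul]
  refine Nat.pow_le_pow_right two_pos ?_
  calc 30 * (K + 1) * (320 * (K + 1) ^ 2 * 2 ^ κ) = 9600 * 2 ^ κ * (K + 1) ^ 3 := by ring
    _ ≤ 9600 * 2 ^ κ * ((κ + 2) * (k + 1)) ^ 3 := by gcongr
    _ = _ := by ring

section

variable {N : ℕ} (enc : Fin N → List Bool) (r : ℕ)

open Classical in
/-- the label of a word -/
noncomputable def dec (v : List Bool) : Option (Fin N) :=
  if h : ∃ x, enc x = v.take r then some h.choose else none

/-- the exchange of two labels -/
noncomputable def swp (i j : Fin N) (v : List Bool) : List Bool :=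
  (dec enc r v).elim (v.take r) (fun x => enc (Equiv.swap i j x)) ++ v.drop r

/-- the change of the tail -/
def flp (v : List Bool) : List Bool := v.take r ++ (v.drop r).map not

variable {enc r}

theorem dec_iff (hi : Function.Injective enc) {v : List Bool} {x : Fin N} :
    dec enc r v = some x ↔ enc x = v.take r := by
  unfold dec
  split_ifs with h
  · rw [Option.some_inj]
    exact ⟨fun e => e ▸ h.choose_spec, fun e => hi (h.choose_spec.trans e.symm)⟩
  · exact ⟨fun e => absurd e (by simp), fun e => absurd ⟨x, e⟩ h⟩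

theorem dec_congr {v v' : List Bool} (h : v.take r = v'.take r) :
    dec enc r v = dec enc r v' := by
  unfold dec
  rw [h]

theorem flp_parts {v : List Bool} (hv : r ≤ v.length) : (flp r v).take r = v.take r ∧
    (flp r v).drop r = (v.drop r).map not ∧ (flp r v).length = v.length := by
  have h : (v.take r).length = r := by simpa using hv
  refine ⟨List.take_left' h, List.drop_left' h, ?_⟩
  simp [flp]
  omega

theorem swp_parts (hl : ∀ x, (enc x).length = r) (i j : Fin N) {v : List Bool}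
    (hv : r ≤ v.length) :
    (swp enc r i j v).take r = (dec enc r v).elim (v.take r) (fun x => enc (Equiv.swap i j x)) ∧
    (swp enc r i j v).drop r = v.drop r ∧ (swp enc r i j v).length = v.length := by
  have h : ((dec enc r v).elim (v.take r) fun x => enc (Equiv.swap i j x)).length = r := by
    cases dec enc r v with
    | none => simpa using hv
    | some x => exact hl _
  refine ⟨List.take_left' h, List.drop_left' h, ?_⟩
  rw [swp, List.length_append, h, List.length_drop]
  omega

theorem dec_swp (hi : Function.Injective enc) (hl : ∀ x, (enc x).length = r) (i j : Fin N)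
    {v : List Bool} (hv : r ≤ v.length) :
    dec enc r (swp enc r i j v) = (dec enc r v).map (Equiv.swap i j) := by
  have h := (swp_parts hl i j hv).1
  cases e : dec enc r v with
  | none =>
    rw [e] at h
    exact (dec_congr h).trans e
  | some x =>
    rw [e] at h
    exact (dec_iff hi).2 h.symm

theorem swp_swp (hi : Function.Injective enc) (hl : ∀ x, (enc x).length = r) (i j : Fin N)
    {v : List Bool} (hv : r ≤ v.length) : swp enc r i j (swp enc r i j v) = v := by
  obtain ⟨h1, h2, -⟩ := swp_parts hl i j hv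
  rw [swp, dec_swp hi hl i j hv, h1, h2]
  cases e : dec enc r v with
  | none => exact List.take_append_drop r v
  | some x =>
    simp only [Option.map_some, Option.elim_some, Equiv.swap_apply_self]
    rw [(dec_iff hi).1 e, List.take_append_drop]

theorem flp_flp {v : List Bool} (hv : r ≤ v.length) : flp r (flp r v) = v := by
  obtain ⟨h1, h2, -⟩ := flp_parts hv
  rw [flp, h1, h2, List.map_map]
  simp [Function.comp_def]

theorem swp_flp (hl : ∀ x, (enc x).length = r) (i j : Fin N) {v : List Bool}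
    (hv : r ≤ v.length) : swp enc r i j (flp r v) = flp r (swp enc r i j v) := by
  obtain ⟨h1, h2, -⟩ := flp_parts hv
  obtain ⟨h3, h4, -⟩ := swp_parts hl i j hv
  rw [swp, dec_congr h1, h1, h2, flp, h3, h4]

theorem flp_ne {v v' : List Bool} (hv : r < v.length) (h : v'.drop r = v.drop r) :
    flp r v ≠ v' := fun e => by
  have h1 := (flp_parts hv.le).2.1
  rw [e, h] at h1
  cases h2 : v.drop r with
  | nil => simp at h2; omega
  | cons a t =>
    rw [h2] at h1
    simp at h1

end

end Layx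

open Layx in
theorem lay_main : SpLay := by
  intro _ ι _
  classical
  have := Fintype.ofFinite ι
  obtain ⟨κ, hκ, hc⟩ : ∃ κ, 1 ≤ κ ∧ Fintype.card ι ≤ 2 ^ κ :=
    ⟨Fintype.card ι + 1, by omega, (Nat.le_succ _).trans Nat.lt_two_pow_self.le⟩
  obtain ⟨code, ci, cl⟩ := codes ι κ hc
  refine ⟨9600 * 2 ^ κ * (κ + 2) ^ 3, fun k => ?_⟩
  obtain ⟨lb, li, ll⟩ := codes (Fin (2 ^ k)) k (by simp)
  obtain ⟨enc, hi, hl, h0⟩ : ∃ enc : Fin (2 ^ k) → List Bool, Function.Injective enc ∧
      (∀ x, (enc x).length = k + 1) ∧ ∀ x, enc x ≠ List.replicate (k + 1) false :=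
    ⟨fun x => true :: lb x, fun x y h => li (List.tail_eq_of_cons_eq h), fun x => by simp [ll],
      fun x => by simp [List.replicate_succ]⟩
  obtain ⟨W, w1, w2⟩ := words κ
  obtain ⟨W', w3, w4⟩ := words (k + 1 + κ)
  have hK : 1 ≤ k + 1 + κ := by omega
  have hr : ∀ {P}, Pi (k + 1 + κ) P → k + 1 < (wrd P.2).length := fun h => by
    rw [pi_len h]
    omega
  have hs : ∀ i j {P}, Pi (k + 1 + κ) P →
      (swp enc (k + 1) i j (wrd P.2)).length = k + 1 + κ := fun i j _ h =>
    (swp_parts hl i j (hr h).le).2.2.trans (pi_len h)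
  have hf : ∀ {P}, Pi (k + 1 + κ) P → (flp (k + 1) (wrd P.2)).length = k + 1 + κ := fun h =>
    (flp_parts (hr h).le).2.2.trans (pi_len h)
  have hp : ∀ x n, (enc x ++ code n).length = k + 1 + κ := fun x n => by
    rw [List.length_append, hl, cl]
  refine ⟨k + 1 + κ, 320 * (k + 1 + κ + 1) ^ 2 * 2 ^ κ, fun P => dec enc (k + 1) (wrd P.2),
    fun i j => app (swp enc (k + 1) i j), app (flp (k + 1)),
    fun x n c => (0, rew (tmp (k + 1 + κ) c) (enc x ++ code n)),
    ⟨hK, fun x => ?_, fun P h i => ?_, fun i j P h => ?_, fun P h => ?_, fun x n c c1 c3 => ?_,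
      fun x n c x' n' c' c1 c3 c1' c3' e => ?_⟩, bound ?_⟩
  · refine (count (k + 1 + κ) (W.image fun t => enc x ++ t) _ fun P hP => ⟨hP.1, ?_⟩).trans
      (Nat.mul_le_mul_left _ (Finset.card_image_le.trans w1))
    refine Finset.mem_image.2 ⟨(wrd P.2).drop (k + 1), w2 _ ?_, ?_⟩
    · rw [List.length_drop, pi_len hP.1]
      omega
    · rw [(dec_iff hi).1 hP.2, List.take_append_drop]
  · obtain ⟨a1, a2, a3⟩ := pi_rew h i (List.length_replicate (n := k + 1 + κ) (a := false))
    refine ⟨_, a1, rfl, a2, ?_⟩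
    simp only [a3]
    refine Option.eq_none_iff_forall_ne_some.2 fun x e => h0 x (((dec_iff hi).1 e).trans ?_)
    rw [List.take_replicate, Nat.min_eq_left (by omega)]
  · obtain ⟨a1, a2, a3⟩ := pi_rew h P.1 (hs i j h)
    refine ⟨a1, a2, ?_, ?_, ?_, fun e => ?_⟩
    · rw [app_app h _ _ (hs i j h)]
      exact app_id _ _ (swp_swp hi hl i j (hr h).le)
    · simp only [app, a3]
      exact dec_swp hi hl i j (hr h).le
    · rw [app_app h _ _ (hs i j h), app_app h _ _ (hf h)]
      simp only [app, swp_flp hl i j (hr h).le]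
    · have e' := congrArg (fun Q : Box => wrd Q.2) e
      simp only [app, a3, (pi_rew h P.1 (hf h)).2.2] at e'
      exact flp_ne (hr h) (swp_parts hl i j (hr h).le).2.1 e'
  · obtain ⟨a1, a2, a3⟩ := pi_rew h P.1 (hf h)
    refine ⟨a1, a2, ?_, fun e => ?_⟩
    · rw [app_app h _ _ (hf h)]
      exact app_id _ _ (flp_flp (hr h).le)
    · have e' := congrArg (fun Q : Box => wrd Q.2) e
      simp only [app, a3] at e'
      exact flp_ne (hr h) rfl e'
  · obtain ⟨b1, b2⟩ := tmp_pi hK c1 c3
    obtain ⟨a1, -, a3⟩ := pi_rew b1 0 (hp x n)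
    have hd : dec enc (k + 1) (enc x ++ code n) = some x :=
      (dec_iff hi).2 (List.take_left' (hl x)).symm
    refine ⟨a1, (rew_ar _ _).trans b2, by simpa only [a3] using hd, fun i j => ?_⟩
    simp only [app] at a3 ⊢
    rw [a3, rew_rew _ _ _ ((hp x n).trans b1.2.2.symm), swp, hd, List.drop_left' (hl x)]
    rfl
  · have e' := congrArg (fun Q : Box => wrd Q.2) e
    have a1 := (pi_rew (tmp_pi hK c1 c3).1 0 (hp x n)).2.2
    have a2 := (pi_rew (tmp_pi hK c1' c3').1 0 (hp x' n')).2.2
    simp only at e' a1 a2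
    rw [a1, a2] at e'
    obtain ⟨b1, b2⟩ := List.append_inj e' ((hl x).trans (hl x').symm)
    exact ⟨hi b1, ci b2⟩
  · exact (count (k + 1 + κ) W' _ fun P hP => ⟨hP, w4 _ (pi_len hP)⟩).trans
      (Nat.mul_le_mul_left _ w3)

end Pool.Agent.MP_89edc2_al.R3
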