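import Pool.Agent.MP_89edc2_al.R3.Mec0

/-!
# The mechanism of slow growth in the universal group
-/

namespace Pool.Agent.MP_89edc2_al.R3

open scoped Pointwise

namespace Mecx

variable {G : Type} [Group G] {K N m : ℕ} {lab : Box → Option (Fin N)}
  {sw : Fin N → Fin N → Box → Box} {τ : Box → Box} {pv : Fin N → Tm × Fin 3 → ℕ → Box}

/-- The private box of a slot. -/
def Pv (pv : Fin N → Tm × Fin 3 → ℕ → Box) (x : Fin N) (q : Tm × Fin 3) : Box :=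
  pv x q (Us q).length

/-- The part of the private box given by the template. -/
def Zb (pv : Fin N → Tm × Fin 3 → ℕ → Box) (x : Fin N) (q : Tm × Fin 3) : Box :=
  sb (Pv pv x q) (Us q)

/-- The private cycles. -/
def Yc (d : D3G G) (pv : Fin N → Tm × Fin 3 → ℕ → Box) (x : Fin N) (n : Tm) : G :=
  d (Zb pv x (n, 0)) (Zb pv x (n, 1)) (Zb pv x (n, 2))

/-- The boxes with a label in `J` or without label. -/
def Sj (K : ℕ) (lab : Box → Option (Fin N)) (J : Set (Fin N)) : Set Box :=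
  {P | Pi K P ∧ (lab P = none ∨ ∃ x ∈ J, lab P = some x)}

/-- The private cycles with a label in `J`. -/
def Aj (d : D3G G) (pv : Fin N → Tm × Fin 3 → ℕ → Box) (J : Set (Fin N)) : Set G :=
  {g | ∃ x ∈ J, ∃ n, g = Yc d pv x n}

theorem pv_ok (L : Lay (Tm × Fin 3) K N m lab sw τ pv) (x : Fin N) (q : Tm × Fin 3) :
    Pi K (Pv pv x q) ∧ ar (Pv pv x q).2 = (Us q).length ∧ lab (Pv pv x q) = some x ∧
      ∀ i j, sw i j (Pv pv x q) = Pv pv (Equiv.swap i j x) q :=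
  L.pvP x q _ (us_len q).1 (us_len q).2

theorem pv_inj (L : Lay (Tm × Fin 3) K N m lab sw τ pv) {x x' : Fin N} {q q' : Tm × Fin 3}
    (e : Pv pv x q = Pv pv x' q') : x = x' ∧ q = q' :=
  L.pvI x q _ x' q' _ (us_len q).1 (us_len q).2 (us_len q').1 (us_len q').2 e

theorem zb_dat (sh : ShapeF) (L : Lay (Tm × Fin 3) K N m lab sw τ pv) (x : Fin N)
    (q : Tm × Fin 3) : (Zb pv x q).2.length = 3 ∧ ar (Zb pv x q).2 = ar (Us q) ∧
      dg (Zb pv x q).2 = K + dg (Us q) := by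
  obtain ⟨⟨a, -, b⟩, c, -⟩ := pv_ok L x q
  exact ⟨(sh.comp_len _ _ c.symm).trans a, sh.comp_ar _ _ c.symm,
    (sh.comp_dg _ _ c.symm).trans (by rw [b])⟩

theorem zb_pi (sh : ShapeF) (L : Lay (Tm × Fin 3) K N m lab sw τ pv) {x : Fin N}
    {q : Tm × Fin 3} {P : Box} (hP : Pi K P) (h : Pv pv x q ≠ P) : Disj (Zb pv x q) P :=
  sh.disj_sb _ _ _ (pv_ok L x q).2.1.symm ((sh.pi_pd K).2 _ (pv_ok L x q).1 _ hP h)

theorem zb_zb (sh : ShapeF) (L : Lay (Tm × Fin 3) K N m lab sw τ pv) {x x' : Fin N}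
    {q q' : Tm × Fin 3} (h : ¬ (x = x' ∧ q = q')) : Disj (Zb pv x q) (Zb pv x' q') :=
  sh.disj_symm _ _ (sh.disj_sb _ _ _ (pv_ok L x' q').2.1.symm
    (sh.disj_symm _ _ (zb_pi sh L (pv_ok L x' q').1 fun e => h (pv_inj L e))))

theorem zb_tri (sh : ShapeF) (L : Lay (Tm × Fin 3) K N m lab sw τ pv) (x : Fin N) (n : Tm) :
    Tri (Zb pv x (n, 0)) (Zb pv x (n, 1)) (Zb pv x (n, 2)) := by
  have t : ∀ i, Ty (Zb pv x (n, 0)) (Zb pv x (n, i)) := fun i => by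
    obtain ⟨a, b, c⟩ := zb_dat sh L x (n, 0)
    obtain ⟨a', b', c'⟩ := zb_dat sh L x (n, i)
    exact ⟨a, a', by rw [b, b', (us_ty n i).1], by rw [c, c', (us_ty n i).2]⟩
  exact ⟨t 1, t 2, zb_zb sh L (by simp), zb_zb sh L (by simp), zb_zb sh L (by simp)⟩

theorem yc_comm (sh : ShapeF) (ba : BasF) {d : D3G G} (sy : Sys Tri d)
    (L : Lay (Tm × Fin 3) K N m lab sw τ pv) (x x' : Fin N) (n n' : Tm) :
    Commute (Yc d pv x n) (Yc d pv x' n') := by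
  by_cases e : x' = x ∧ n' = n
  · rw [e.1, e.2]
  have h : ∀ i j, Disj (Zb pv x' (n', i)) (Zb pv x (n, j)) := fun i j =>
    zb_zb sh L fun a => e ⟨a.1, congrArg Prod.fst a.2⟩
  exact ba.comm G Tri d sy _ _ _ _ _ _ (zb_tri sh L x n) (zb_tri sh L x' n')
    ⟨h _ _, h _ _, h _ _⟩ ⟨h _ _, h _ _, h _ _⟩ ⟨h _ _, h _ _, h _ _⟩

theorem aj_comm (sh : ShapeF) (ba : BasF) {d : D3G G} (sy : Sys Tri d)
    (L : Lay (Tm × Fin 3) K N m lab sw τ pv) (J J' : Set (Fin N)) :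
    ∀ g ∈ Aj d pv J, ∀ g' ∈ Aj d pv J', Commute g g' := by
  rintro _ ⟨x, -, n, rfl⟩ _ ⟨x', -, n', rfl⟩
  exact yc_comm sh ba sy L x x' n n'

/-- Conjugation by an element that realises a transposition of labels. -/
theorem conj (sh : ShapeF) (sm : SemF) {d : D3G G} {π : G →* Equiv.Perm X} (ac : Act d π)
    (L : Lay (Tm × Fin 3) K N m lab sw τ pv) {i j : Fin N} {w : G}
    (hw : ∀ a, Pi K a → Car (π w) a (sw i j a)) (J : Set (Fin N)) :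
    (∀ g ∈ HJ d (Sj K lab J), w * g * w⁻¹ ∈ HJ d (Sj K lab (Equiv.swap i j '' J))) ∧
    ∀ g ∈ Subgroup.closure (Aj d pv J),
      w * g * w⁻¹ ∈ Subgroup.closure (Aj d pv (Equiv.swap i j '' J)) := by
  have s : ∀ a ∈ Sj K lab J, sw i j a ∈ Sj K lab (Equiv.swap i j '' J) := fun a ha => by
    obtain ⟨p, -, -, e, -⟩ := L.swP i j a ha.1
    refine ⟨p, ?_⟩
    rcases ha.2 with h | ⟨x, hx, h⟩
    · exact Or.inl (by rw [e, h]; rfl)
    · exact Or.inr ⟨_, ⟨x, hx, rfl⟩, by rw [e, h]; rfl⟩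
  have z : ∀ x q, Ty (Zb pv x q) (Zb pv (Equiv.swap i j x) q) ∧
      Car (π w) (Zb pv x q) (Zb pv (Equiv.swap i j x) q) := fun x q => by
    obtain ⟨p, a, -, e⟩ := pv_ok L x q
    have t := (L.swP i j _ p).2.1
    have c := hw _ p
    rw [e] at t c
    exact ⟨sh.ty_sb _ _ _ t a.symm, sm.car_sb _ _ _ _ t a.symm c⟩
  refine ⟨cj ?_, cj ?_⟩
  · rintro _ ⟨a, ha, b, hb, c, hc, t, rfl⟩
    obtain ⟨t', e⟩ := car sh sm ac t (L.swP i j a ha.1).2.1 (L.swP i j b hb.1).2.1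
      (L.swP i j c hc.1).2.1 (hw a ha.1) (hw b hb.1) (hw c hc.1)
    exact Subgroup.subset_closure ⟨_, s a ha, _, s b hb, _, s c hc, t', e⟩
  · rintro _ ⟨x, hx, n, rfl⟩
    exact Subgroup.subset_closure ⟨_, ⟨x, hx, rfl⟩, n, (car sh sm ac (zb_tri sh L x n) (z x _).1
      (z x _).1 (z x _).1 (z x _).2 (z x _).2 (z x _).2).2⟩

/-- The groups of single labels generate the group of the partition. -/
theorem gen (sh : ShapeF) (ba : BasF) {d : D3G G} (sy : Sys Tri d)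
    (L : Lay (Tm × Fin 3) K N m lab sw τ pv) (x₀ : Fin N) {H : Subgroup G}
    (h : ∀ x, HJ d (Sj K lab {x}) ≤ H) : HJ d {P | Pi K P} ≤ H := by
  refine (Subgroup.closure_le H).2 ?_
  rintro _ ⟨a, ha, b, hb, e, he, t, rfl⟩
  obtain ⟨i, hi⟩ := sh.fresh [a.1, b.1, e.1] (by simp)
  obtain ⟨i', hi'⟩ := sh.fresh [a.1, b.1, e.1, i] (by simp)
  obtain ⟨f, f1, rfl, f3, f4⟩ := L.rsv a ha i
  obtain ⟨f', g1, rfl, g3, g4⟩ := L.rsv a ha i'
  simp only [List.mem_cons, List.not_mem_nil, or_false, not_or] at hi hi'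
  have tr : ∀ z k : Box, Ty a z → Ty a k → Ty z k := fun z k p q =>
    sh.ty_trans _ _ _ (sh.ty_symm _ _ p) q
  have taa : Ty a a := sh.ty_trans _ _ _ t.1 (sh.ty_symm _ _ t.1)
  have k : ∀ z, Ty a z → f.1 ≠ z.1 → f'.1 ≠ z.1 → Tri z f f' := fun z p q r =>
    ⟨tr _ _ p f3, tr _ _ p g3, Or.inl q.symm, Or.inl r.symm, Or.inl (Ne.symm hi'.2.2.2)⟩
  have ka := k a taa hi.1 hi'.1
  have kb := k b t.1 hi.2.1 hi'.2.1
  have ke := k e t.2.1 hi.2.2 hi'.2.2.1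
  have mem : ∀ z k k', Pi K z → Pi K k → Pi K k' → lab k = none → lab k' = none → Tri z k k' →
      d z k k' ∈ H := fun z k k' p q r s u v => by
    refine h ((lab z).getD x₀) (Subgroup.subset_closure
      ⟨z, ⟨p, ?_⟩, k, ⟨q, Or.inl s⟩, k', ⟨r, Or.inl u⟩, v, rfl⟩)
    cases lab z with
    | none => exact Or.inl rfl
    | some x => exact Or.inr ⟨x, rfl, rfl⟩
  rw [SetLike.mem_coe, ba.carm G Tri d sy sh.sy_tri a b e f f' t
    ⟨tr _ _ t.1 t.2.1, kb.1, t.2.2.2.2, kb.2.2.1, ke.2.2.1⟩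
    ⟨t.2.1, f3, t.2.2.2.1, ka.2.2.1, ke.2.2.1⟩ ka kb ke]
  exact mul_mem (mul_mem (mul_mem (mem _ _ _ he f1 g1 f4 g4 ke)
    (mem _ _ _ hb g1 f1 g4 f4 (sh.sy_tri _ _ _ kb).2)) (mem _ _ _ ha f1 g1 f4 g4 ka))
    (mem _ _ _ he g1 f1 g4 f4 (sh.sy_tri _ _ _ ke).2)

/-- Cycles of low points commute with cycles of high boxes. -/
theorem low (sh : ShapeF) (ba : BasF) {d : D3G G} (sy : Sys Tri d) (hK : 1 ≤ K) {s : Set G}
    (hs : ∀ g ∈ s, ∃ a b c, Tri a b c ∧ K ≤ dg a.2 ∧ g = d a b c) :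
    ∀ f ∈ FK d (K - 1), ∀ g ∈ Subgroup.closure s, Commute f g := by
  refine cc ?_
  rintro _ ⟨a, b, c, t, h0, h1, rfl⟩ g hg
  obtain ⟨a', b', c', t', h2, rfl⟩ := hs g hg
  have k : ∀ z y : Box, Ty a z → Ty a' y → Disj z y := fun z y p q =>
    sh.pt_disj z y (p.2.1.trans q.2.1.symm) (p.2.2.1 ▸ h0) (by
      rw [← p.2.2.2, ← q.2.2.2]
      omega)
  have u := sh.ty_trans _ _ _ t.1 (sh.ty_symm _ _ t.1)
  have u' := sh.ty_trans _ _ _ t'.1 (sh.ty_symm _ _ t'.1)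
  exact (ba.comm G Tri d sy _ _ _ _ _ _ t' t ⟨k _ _ u u', k _ _ u t'.1, k _ _ u t'.2.1⟩
    ⟨k _ _ t.1 u', k _ _ t.1 t'.1, k _ _ t.1 t'.2.1⟩
    ⟨k _ _ t.2.1 u', k _ _ t.2.1 t'.1, k _ _ t.2.1 t'.2.1⟩).symm

theorem aj_fin (sh : ShapeF) (ba : BasF) {d : D3G G} (sy : Sys Tri d)
    (L : Lay (Tm × Fin 3) K N m lab sw τ pv) (J : Finset (Fin N)) :
    (Subgroup.closure (Aj d pv J) : Set G).Finite ∧
      (Subgroup.closure (Aj d pv J) : Set G).ncard ≤ 6 ^ (J.card * Nat.card Tm) := by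
  classical
  have := tm_fin sh
  have := Fintype.ofFinite Tm
  have e : Aj d pv J = ((J ×ˢ Finset.univ).image fun p : Fin N × Tm => Yc d pv p.1 p.2 :
      Finset G) := by
    ext g
    simp only [Aj, Set.mem_ofPred_eq, Finset.coe_image, Set.mem_image, Finset.mem_coe,
      Finset.mem_product, Finset.mem_univ, and_true, Prod.exists]
    exact ⟨fun ⟨x, hx, n, h⟩ => ⟨x, n, hx, h.symm⟩, fun ⟨x, n, hx, h⟩ => ⟨x, hx, n, h.symm⟩⟩
  obtain ⟨f, c⟩ := clo ((J ×ˢ Finset.univ).image fun p : Fin N × Tm => Yc d pv p.1 p.2)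
    (fun x hx y hy => aj_comm sh ba sy L J J x (e ▸ hx) y (e ▸ hy)) fun x hx => by
      obtain ⟨p, -, rfl⟩ := Finset.mem_image.1 hx
      exact ba.six G d sy _ _ _ (zb_tri sh L _ _)
  rw [e]
  refine ⟨f, c.trans (Nat.pow_le_pow_right (by norm_num) (Finset.card_image_le.trans ?_))⟩
  rw [Finset.card_product, Finset.card_univ, Nat.card_eq_fintype_card]

end Mecx

open Mecx in
theorem mec_main : SpMec := by
  classical
  intro sh sm ba al lay top G _ d π un ac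
  have := tm_fin sh
  have sy := un.full
  obtain ⟨C, hC⟩ := lay (Tm × Fin 3)
  refine ⟨C + 3 * Nat.card Tm, fun k => ?_⟩
  obtain ⟨K, m, lab, sw, τ, pv, L, hm⟩ := hC k
  have pd := sh.pi_pd K
  have fin : {P | Pi K P}.Finite := (sh.fin_box K).subset fun P hP => ⟨hP.1, hP.2.2.le⟩
  have sub : ∀ J, Sj K lab J ⊆ {P | Pi K P} := fun J P hP => hP.1
  have x₀ : Fin (2 ^ k) := ⟨0, by positivity⟩
  obtain ⟨T, T1, T2, T3⟩ : ∃ T : Finset G, 1 ∈ T ∧ T.card ≤ 6 * {P | Pi K P}.ncard ^ 3 + 1 ∧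
      ∀ a, Pi K a → ∀ b, Pi K b → ∀ c, Pi K c → ∀ j, j < 6 → d a b c ^ j ∈ T := by
    refine ⟨insert 1 ((fin.toFinset ×ˢ fin.toFinset ×ˢ fin.toFinset ×ˢ Finset.range 6).image
      fun p => d p.1 p.2.1 p.2.2.1 ^ p.2.2.2), by simp, (Finset.card_insert_le _ _).trans
      (Nat.succ_le_succ (Finset.card_image_le.trans_eq ?_)), fun a ha b hb c hc j hj =>
      Finset.mem_insert_of_mem (Finset.mem_image.2 ⟨(a, b, c, j), by simp [ha, hb, hc, hj], rfl⟩)⟩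
    simp only [Finset.card_product, Finset.card_range, Set.ncard_eq_toFinset_card _ fin]
    ring
  have db := fun i j => al.dbl G d π ac.pd {P | Pi K P} (sw i j) τ pd fin fun a ha => by
    obtain ⟨a1, a2, a3, -, a5, a6⟩ := L.swP i j a ha
    obtain ⟨b1, b2, b3, b4⟩ := L.tau a ha
    exact ⟨a1, b1, a2, b2, a3, b3, a5, b4, a6⟩
  choose b b1 b2 using db
  have b3 : ∀ i j a, Pi K a → Car (π (b i j)⁻¹) a (sw i j a) := fun i j a ha => by
    obtain ⟨a1, a2, a3, -⟩ := L.swP i j a ha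
    have c := b2 i j _ a1
    rw [a3] at c
    rw [map_inv]
    exact sm.car_inv _ _ _ (sh.ty_symm _ _ a2) c
  have p1 : 1 ≤ (k + 1) ^ 3 := Nat.one_le_pow _ _ (Nat.succ_pos k)
  have su : {P | Pi K P} ⊆ Sj K lab Set.univ := fun P hP => ⟨hP, by
    cases lab P with
    | none => exact Or.inl rfl
    | some x => exact Or.inr ⟨x, trivial, rfl⟩⟩
  refine ⟨fun J => HJ d (Sj K lab J), fun J => Subgroup.closure (Aj d pv J), FK d (K - 1), T ^ m,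
    b, fun J J' h => hj_mono d fun P hP => ⟨hP.1, hP.2.imp id fun ⟨x, hx, e⟩ => ⟨x, h hx, e⟩⟩,
    fun J J' h => Subgroup.closure_mono fun _ ⟨x, hx, e⟩ => ⟨x, h hx, e⟩,
    al.fin G d sy _ (pd_mono (sub _) pd) (fin.subset (sub _)), ?_, ?_, ?_, fun x => ?_,
    fun J x g hg => ?_, fun J x => spl (aj_comm sh ba sy L _ _) ?_, fun J J' h => cc ?_,
    low sh ba sy L.pos ?_, low sh ba sy L.pos ?_, fun i j => hj_mono d su (b1 i j),
    fun i j J g hg => ⟨(conj sh sm ac L (b2 i j) J).1 g hg, ?_⟩,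
    fun i j J g hg => ⟨(conj sh sm ac L (b2 i j) J).2 g hg, ?_⟩, fun H h1 h2 h3 => ?_⟩
  · simpa using (aj_fin sh ba sy L Finset.univ).1
  · refine (al.fin G d sy {z | z.2.length = 3 ∧ ar z.2 = 0 ∧ dg z.2 ≤ K - 1}
      ⟨fun a ha => ha.1, fun a ha c hc => sh.pts a c (ha.1.trans hc.1.symm) ha.2.1 hc.2.1⟩
      ((sh.fin_box (K - 1)).subset fun z hz => ⟨hz.1, hz.2.2⟩)).subset
      (Subgroup.closure_mono ?_)
    rintro _ ⟨a, c, e, t, h0, h1, rfl⟩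
    exact ⟨a, ⟨t.1.1, h0, h1⟩, c, ⟨t.1.2.1, t.1.2.2.1 ▸ h0, t.1.2.2.2 ▸ h1⟩, e,
      ⟨t.2.1.2.1, t.2.1.2.2.1 ▸ h0, t.2.1.2.2.2 ▸ h1⟩, t, rfl⟩
  · refine Finset.card_pow_le.trans ((Nat.pow_le_pow_left T2 m).trans (hm.trans ?_))
    exact Nat.pow_le_pow_right two_pos (Nat.mul_le_mul_right _ (Nat.le_add_right _ _))
  · have c := (aj_fin sh ba sy L {x}).2
    rw [Finset.coe_singleton, Finset.card_singleton, one_mul] at c
    refine c.trans ((Nat.pow_le_pow_left (by norm_num : 6 ≤ 2 ^ 3) _).trans ?_)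
    rw [← pow_mul]
    exact Nat.pow_le_pow_right two_pos ((Nat.le_add_left _ C).trans (Nat.le_mul_of_pos_right _ p1))
  · have fb : {P | Pi K P ∧ lab P = some x}.Finite := fin.subset fun P hP => hP.1
    obtain ⟨g', a1, t, a2, e⟩ := remS al sy (pd_mono (sub J) pd) T1
      (fun a ha c hc e he => T3 a ha.1 c hc.1 e he.1) fb.toFinset g hg
    have su' : Sj K lab J \ (fb.toFinset : Set _) ⊆ Sj K lab (J \ {x}) := fun P hP =>
      ⟨hP.1.1, hP.1.2.imp id fun ⟨y, hy, h⟩ => ⟨y, ⟨hy, fun h' => hP.2 (by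
        rw [Set.Finite.coe_toFinset]
        exact ⟨hP.1.1, (Set.mem_singleton_iff.1 h') ▸ h⟩)⟩, h⟩⟩
    refine ⟨g', hj_mono d su' a1, t, Finset.pow_subset_pow_right T1 ?_ a2, e⟩
    rw [← Set.ncard_eq_toFinset_card _ fb]
    exact L.bun x
  · rintro _ ⟨y, hy, n, rfl⟩
    by_cases e : y = x
    · exact Or.inr ⟨y, e, n, rfl⟩
    · exact Or.inl ⟨y, ⟨hy, e⟩, n, rfl⟩
  · rintro _ ⟨a, ha, c, hc, e, he, t, rfl⟩ _ ⟨x, hx, n, rfl⟩
    have z : ∀ q, ∀ P ∈ Sj K lab J, Disj (Zb pv x q) P := fun q P hP =>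
      zb_pi sh L hP.1 fun u => by
        have l := (pv_ok L x q).2.2.1
        rw [u] at l
        rcases hP.2 with v | ⟨y, hy, v⟩
        · simp [v] at l
        · exact Set.disjoint_left.1 h hy ((Option.some.inj (v.symm.trans l)) ▸ hx)
    exact ba.comm G Tri d sy _ _ _ _ _ _ t (zb_tri sh L x n) ⟨z _ a ha, z _ c hc, z _ e he⟩
      ⟨z _ a ha, z _ c hc, z _ e he⟩ ⟨z _ a ha, z _ c hc, z _ e he⟩
  · rintro _ ⟨a, ha, c, -, e, -, t, rfl⟩
    exact ⟨a, c, e, t, ha.1.2.2.ge, rfl⟩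
  · rintro _ ⟨x, -, n, rfl⟩
    exact ⟨_, _, _, zb_tri sh L x n, (zb_dat sh L x _).2.2 ▸ Nat.le_add_right _ _, rfl⟩
  · simpa only [inv_inv] using (conj sh sm ac L (b3 i j) J).1 g hg
  · simpa only [inv_inv] using (conj sh sm ac L (b3 i j) J).2 g hg
  · refine top G d K H un L.pos h3 (gen sh ba sy L x₀ h1) fun u₁ u₂ u₃ h => ?_
    have o := fun i => pv_ok L x₀ (⟨(u₁, u₂, u₃), h⟩, i)
    exact ⟨_, _, _, (o 0).1, (o 1).1, (o 2).1, fun e => by simpa using (pv_inj L e).2,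
      fun e => by simpa using (pv_inj L e).2, fun e => by simpa using (pv_inj L e).2,
      (o 0).2.1, (o 1).2.1, (o 2).2.1,
      h2 x₀ (Subgroup.subset_closure ⟨x₀, rfl, ⟨(u₁, u₂, u₃), h⟩, rfl⟩)⟩

end Pool.Agent.MP_89edc2_al.R3
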