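import Pool.Agent.MP_89edc2_al.R3.Spec2

/-!
# The mechanism of slow growth: lemmas on subgroups
-/

namespace Pool.Agent.MP_89edc2_al.R3

open scoped Pointwise

namespace Mecx

variable {G : Type} [Group G]

theorem cc {s t : Set G} (h : ∀ x ∈ s, ∀ y ∈ t, Commute x y) :
    ∀ g ∈ Subgroup.closure s, ∀ g' ∈ Subgroup.closure t, Commute g g' := by
  have h1 : ∀ x ∈ s, ∀ g' ∈ Subgroup.closure t, Commute x g' := fun x hx g' hg =>
    Subgroup.closure_induction (p := fun g' _ => Commute x g') (h x hx) (Commute.one_right x)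
      (fun _ _ _ _ a b => a.mul_right b) (fun _ _ a => a.inv_right) hg
  intro g hg g' hg'
  exact Subgroup.closure_induction (p := fun g _ => Commute g g') (fun x hx => h1 x hx g' hg')
    (Commute.one_left g') (fun _ _ _ _ a b => a.mul_left b) (fun _ _ a => a.inv_left) hg

theorem spl {r s t : Set G} (h : ∀ x ∈ s, ∀ y ∈ t, Commute x y) (hr : r ⊆ s ∪ t) :
    ∀ g ∈ Subgroup.closure r, ∃ g' ∈ Subgroup.closure s, ∃ u ∈ Subgroup.closure t,
      g = g' * u := by
  intro g hg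
  refine Subgroup.closure_induction (p := fun g _ => ∃ g' ∈ Subgroup.closure s,
    ∃ u ∈ Subgroup.closure t, g = g' * u) (fun x hx => ?_) ⟨1, one_mem _, 1, one_mem _, by simp⟩
    ?_ ?_ hg
  · rcases hr hx with a | a
    · exact ⟨x, Subgroup.subset_closure a, 1, one_mem _, by simp⟩
    · exact ⟨1, one_mem _, x, Subgroup.subset_closure a, by simp⟩
  · rintro _ _ _ _ ⟨a, ha, b, hb, rfl⟩ ⟨a', ha', b', hb', rfl⟩
    refine ⟨a * a', mul_mem ha ha', b * b', mul_mem hb hb', ?_⟩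
    exact ((cc h a' ha' b hb).symm.mul_mul_mul_comm a b')
  · rintro _ _ ⟨a, ha, b, hb, rfl⟩
    refine ⟨a⁻¹, inv_mem ha, b⁻¹, inv_mem hb, ?_⟩
    rw [mul_inv_rev, (cc h a ha b hb).inv_inv.eq]

theorem clo (s : Finset G) : (∀ x ∈ s, ∀ y ∈ s, Commute x y) → (∀ x ∈ s, x ^ 6 = 1) →
    (Subgroup.closure (s : Set G) : Set G).Finite ∧
      (Subgroup.closure (s : Set G) : Set G).ncard ≤ 6 ^ s.card := by
  classical
  induction s using Finset.induction_on with
  | empty => intro _ _; simp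
  | insert a s ha ih =>
    intro hc h6
    obtain ⟨f1, c1⟩ := ih (fun x hx y hy => hc x (by simp [hx]) y (by simp [hy]))
      fun x hx => h6 x (by simp [hx])
    have a6 := h6 a (by simp)
    have f2 : (Subgroup.zpowers a : Set G).Finite :=
      finite_zpowers.2 (isOfFinOrder_iff_pow_eq_one.2 ⟨6, by norm_num, a6⟩)
    have c2 : (Subgroup.zpowers a : Set G).ncard ≤ 6 := by
      have := Nat.card_zpowers a
      change (Subgroup.zpowers a : Set G).ncard = _ at this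
      exact this.trans_le (orderOf_le_of_pow_eq_one (by norm_num) a6)
    have sub : (Subgroup.closure ((insert a s : Finset G) : Set G) : Set G) ⊆
        (Subgroup.closure (s : Set G) : Set G) * (Subgroup.zpowers a : Set G) := fun g hg => by
      obtain ⟨g', h1, u, h2, rfl⟩ := spl (s := s) (t := {a}) (fun x hx y hy => hc x
        (by simp [Finset.mem_coe.1 hx]) y (by simp [Set.mem_singleton_iff.1 hy]))
        (by simp) g hg
      exact Set.mul_mem_mul h1 (by rwa [Subgroup.zpowers_eq_closure])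
    refine ⟨(f1.mul f2).subset sub, (Set.ncard_le_ncard sub (f1.mul f2)).trans ?_⟩
    rw [Finset.card_insert_of_notMem ha, pow_succ]
    exact Set.natCard_mul_le.trans (Nat.mul_le_mul c1 c2)

theorem cj {s : Set G} {L : Subgroup G} {w : G} (h : ∀ x ∈ s, w * x * w⁻¹ ∈ L) :
    ∀ g ∈ Subgroup.closure s, w * g * w⁻¹ ∈ L := fun _ hg =>
  (Subgroup.closure_le (L.comap (MulAut.conj w).toMonoidHom)).2 h hg

theorem hj_mono (d : D3G G) {J J' : Set Box} (h : J ⊆ J') : HJ d J ≤ HJ d J' :=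
  Subgroup.closure_mono fun _ ⟨a, ha, b, hb, c, hc, e⟩ => ⟨a, h ha, b, h hb, c, h hc, e⟩

theorem pd_mono {J J' : Set Box} (h : J ⊆ J') (p : PD J') : PD J :=
  ⟨fun a ha => p.1 a (h ha), fun a ha b hb => p.2 a (h ha) b (h hb)⟩

/-- Removing a finite set of boxes. -/
theorem remS [DecidableEq G] (al : AltF) {d : D3G G} (sy : Sys Tri d) {J : Set Box} (p : PD J)
    {T : Finset G} (h1 : 1 ∈ T)
    (hT : ∀ a ∈ J, ∀ b ∈ J, ∀ c ∈ J, ∀ j, j < 6 → d a b c ^ j ∈ T) (B : Finset Box) :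
    ∀ g ∈ HJ d J, ∃ g' ∈ HJ d (J \ B), ∃ t ∈ T ^ B.card, g = g' * t := by
  classical
  induction B using Finset.induction_on with
  | empty => exact fun g hg => ⟨g, by simpa using hg, 1, by simp, by simp⟩
  | insert y B hy ih =>
    intro g hg
    obtain ⟨g₁, a1, t, a2, rfl⟩ := ih g hg
    obtain ⟨g₂, b1, b2⟩ := al.rem G d sy (J \ B) y (pd_mono Set.sdiff_subset p) g₁ a1
    have e : (J \ B) \ {y} = J \ (insert y B : Finset Box) := by
      ext z
      simp only [Set.mem_sdiff, Finset.coe_insert, Set.mem_insert_iff, Set.mem_singleton_iff]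
      tauto
    rw [e] at b1
    rw [Finset.card_insert_of_notMem hy, pow_succ']
    rcases b2 with rfl | ⟨k, hk, k', hk', j, hj, hy', -, rfl⟩
    · exact ⟨g₁, b1, 1 * t, Finset.mul_mem_mul h1 a2, by simp⟩
    · exact ⟨g₂, b1, _, Finset.mul_mem_mul (hT y hy'.1 k hk.1 k' hk'.1 j hj) a2, mul_assoc _ _ _⟩

/-- Transport of a cycle. -/
theorem car (sh : ShapeF) (sm : SemF) {d : D3G G} {π : G →* Equiv.Perm X} (ac : Act d π)
    {w : G} {a b c a' b' c' : Box} (t : Tri a b c) (ta : Ty a a') (tb : Ty b b') (tc : Ty c c')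
    (ca : Car (π w) a a') (cb : Car (π w) b b') (cc : Car (π w) c c') :
    Tri a' b' c' ∧ w * d a b c * w⁻¹ = d a' b' c' := by
  have t' : Tri a' b' c' :=
    ⟨sh.ty_trans _ _ _ (sh.ty_symm _ _ ta) (sh.ty_trans _ _ _ t.1 tb),
      sh.ty_trans _ _ _ (sh.ty_symm _ _ ta) (sh.ty_trans _ _ _ t.2.1 tc),
      sm.car_disj _ _ _ _ _ ta tb ca cb t.2.2.1, sm.car_disj _ _ _ _ _ ta tc ca cc t.2.2.2.1,
      sm.car_disj _ _ _ _ _ tb tc cb cc t.2.2.2.2⟩
  exact ⟨t', ac.cr w a b c a' b' c' t t' ta ca cb cc⟩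

/-- The templates. -/
abbrev Tm : Type := {u : Shape × Shape × Shape // Tp u.1 u.2.1 u.2.2}

theorem tm_fin (sh : ShapeF) : Finite Tm := by
  have f := sh.fin_sh 3 3
  refine Set.Finite.to_subtype (s := {u : Shape × Shape × Shape | Tp u.1 u.2.1 u.2.2})
    ((f.prod (f.prod f)).subset fun u hu => ?_)
  have h := hu.1
  exact ⟨(h _ (by simp)).2, (h _ (by simp)).2, (h _ (by simp)).2⟩

/-- The shape in a slot of a template. -/
def Us (q : Tm × Fin 3) : Shape := ![q.1.1.1, q.1.1.2.1, q.1.1.2.2] q.2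

theorem us_len (q : Tm × Fin 3) : 1 ≤ (Us q).length ∧ (Us q).length ≤ 3 := by
  obtain ⟨n, i⟩ := q
  have h := n.2.1 (Us (n, i)) (by fin_cases i <;> simp [Us])
  exact ⟨h.1, h.2.1⟩

theorem us_ty (n : Tm) (i : Fin 3) :
    ar (Us (n, 0)) = ar (Us (n, i)) ∧ dg (Us (n, 0)) = dg (Us (n, i)) := by
  obtain ⟨-, a, b, c, e⟩ := n.2
  fin_cases i
  · exact ⟨rfl, rfl⟩
  · exact ⟨a, c⟩
  · exact ⟨b, e⟩

end Mecx

end Pool.Agent.MP_89edc2_al.R3
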