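import Pool.Agent.MP_89edc2_al.R3.Spec2

/-!
# Low cycles act on the new elements

From moves of one slot between fresh copies to all moves by a low cycle.
-/

namespace Pool.Agent.MP_89edc2_al.R3

namespace Mthx

variable {G : Type} [Group G] {l : ℕ} {d x : D3G G}

/-- the part of `HX` that is symmetric in the three slots -/
structure HY (l : ℕ) (d x : D3G G) : Prop where
  cm : ∀ a b c g₁ g₂ g₃, Hi l a b c → Lw l g₁ g₂ g₃ → D3 a g₁ g₂ g₃ → D3 b g₁ g₂ g₃ →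
    D3 c g₁ g₂ g₃ → Commute (d g₁ g₂ g₃) (x a b c)
  m1 : ∀ a a' b c g₁ g₂ g₃, Hi l a b c → Lw l g₁ g₂ g₃ → Mo g₁ g₂ a a' →
    b.1 ∉ [g₁.1, g₂.1, g₃.1] → c.1 ∉ [g₁.1, g₂.1, g₃.1] →
    d g₁ g₂ g₃ * x a b c = x a' b c * d g₁ g₂ g₃
  m2 : ∀ a b b' c g₁ g₂ g₃, Hi l a b c → Lw l g₁ g₂ g₃ → Mo g₁ g₂ b b' →
    a.1 ∉ [g₁.1, g₂.1, g₃.1] → c.1 ∉ [g₁.1, g₂.1, g₃.1] →
    d g₁ g₂ g₃ * x a b c = x a b' c * d g₁ g₂ g₃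
  m3 : ∀ a b c c' g₁ g₂ g₃, Hi l a b c → Lw l g₁ g₂ g₃ → Mo g₁ g₂ c c' →
    a.1 ∉ [g₁.1, g₂.1, g₃.1] → b.1 ∉ [g₁.1, g₂.1, g₃.1] →
    d g₁ g₂ g₃ * x a b c = x a b c' * d g₁ g₂ g₃

theorem hi23 (hs : ShapeF) {a b c : Box} (h : Hi l a b c) : Hi l a c b :=
  (hs.sy_hi l a b c h).2

theorem hi12 (hs : ShapeF) {a b c : Box} (h : Hi l a b c) : Hi l b a c :=
  (hs.sy_hi l b c a (hs.sy_hi l a b c h).1).2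

theorem HY.sw23 (hs : ShapeF) (h : HY l d x) : HY l d fun a b c => x a c b where
  cm a b c g₁ g₂ g₃ hh hg da db dc := h.cm a c b g₁ g₂ g₃ (hi23 hs hh) hg da dc db
  m1 a a' b c g₁ g₂ g₃ hh hg hm nb nc := h.m1 a a' c b g₁ g₂ g₃ (hi23 hs hh) hg hm nc nb
  m2 a b b' c g₁ g₂ g₃ hh hg hm na nc := h.m3 a c b b' g₁ g₂ g₃ (hi23 hs hh) hg hm na nc
  m3 a b c c' g₁ g₂ g₃ hh hg hm na nb := h.m2 a c c' b g₁ g₂ g₃ (hi23 hs hh) hg hm na nb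

theorem HY.sw12 (hs : ShapeF) (h : HY l d x) : HY l d fun a b c => x b a c where
  cm a b c g₁ g₂ g₃ hh hg da db dc := h.cm b a c g₁ g₂ g₃ (hi12 hs hh) hg db da dc
  m1 a a' b c g₁ g₂ g₃ hh hg hm nb nc := h.m2 b a a' c g₁ g₂ g₃ (hi12 hs hh) hg hm nb nc
  m2 a b b' c g₁ g₂ g₃ hh hg hm na nc := h.m1 b b' a c g₁ g₂ g₃ (hi12 hs hh) hg hm na nc
  m3 a b c c' g₁ g₂ g₃ hh hg hm na nb := h.m3 b a c c' g₁ g₂ g₃ (hi12 hs hh) hg hm nb na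

theorem mo_fst {g g' a a' : Box} (h : Mo g g' a a') : a.1 = g.1 ∧ a'.1 = g'.1 := by
  obtain ⟨u, -, rfl, rfl⟩ := h
  exact ⟨rfl, rfl⟩

theorem mkDc (hs : ShapeF) {r p q s : Box} (hp : Ty r p) (hq : Ty r q) (ht : Ty r s)
    (h₁ : p.1 ≠ q.1) (h₂ : p.1 ≠ s.1) (h₃ : q.1 ≠ s.1) : Dc p q s :=
  ⟨hs.ty_trans _ _ _ (hs.ty_symm _ _ hp) hq, hs.ty_trans _ _ _ (hs.ty_symm _ _ hp) ht,
    h₁, h₂, h₃⟩

theorem mkLw (hs : ShapeF) {r p q s : Box} (hw : wt r.2 ≤ l) (hp : Ty r p) (hq : Ty r q)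
    (ht : Ty r s) (h₁ : p.1 ≠ q.1) (h₂ : p.1 ≠ s.1) (h₃ : q.1 ≠ s.1) : Lw l p q s :=
  ⟨mkDc hs hp hq ht h₁ h₂ h₃, hs.ty_wt _ _ hp ▸ hw⟩

theorem mkHi (hs : ShapeF) {r p q s : Box} (hw : wt r.2 = l + 1) (hp : Ty r p) (hq : Ty r q)
    (ht : Ty r s) (h₁ : p.1 ≠ q.1) (h₂ : p.1 ≠ s.1) (h₃ : q.1 ≠ s.1) : Hi l p q s :=
  ⟨mkDc hs hp hq ht h₁ h₂ h₃, hs.ty_wt _ _ hp ▸ hw⟩

theorem ty_self (hs : ShapeF) {a b : Box} (h : Ty a b) : Ty a a :=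
  hs.ty_trans _ _ _ h (hs.ty_symm _ _ h)

theorem nm3 {i j k m : Fin 40} (h₁ : i ≠ j) (h₂ : i ≠ k) (h₃ : i ≠ m) : i ∉ [j, k, m] := by
  simp [h₁, h₂, h₃]

theorem fresh5 (hs : ShapeF) (j₁ j₂ j₃ j₄ j₅ : Fin 40) :
    ∃ i, i ≠ j₁ ∧ i ≠ j₂ ∧ i ≠ j₃ ∧ i ≠ j₄ ∧ i ≠ j₅ := by
  obtain ⟨i, hi⟩ := hs.fresh [j₁, j₂, j₃, j₄, j₅] (by simp)
  refine ⟨i, ?_⟩
  simpa [not_or] using hi

theorem comp2 {u v y y' y'' : G} (h₁ : v * y = y' * v) (h₂ : u * y' = y'' * u) :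
    u * v * y = y'' * (u * v) := by
  rw [mul_assoc, h₁, ← mul_assoc, h₂, mul_assoc]

/-- one mover -/
theorem one (hs : ShapeF) (hb : BasF) (hd : Sys (Lw l) d) (h : HY l d x)
    {g₁ g₂ g₃ a b c a' : Box} (hg : Lw l g₁ g₂ g₃) (hh : Hi l a b c) (hm : Mo g₁ g₂ a a')
    (nb : a'.1 ≠ b.1) (nc : a'.1 ≠ c.1) (db : D3 b g₁ g₂ g₃) (dc : D3 c g₁ g₂ g₃) :
    d g₁ g₂ g₃ * x a b c = x a' b c * d g₁ g₂ g₃ := by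
  obtain ⟨e₁, e₂⟩ := mo_fst hm
  obtain ⟨⟨t₂, t₃, n₁₂, n₁₃, n₂₃⟩, hw⟩ := id hg
  obtain ⟨⟨-, -, nab, nac, -⟩, -⟩ := id hh
  obtain ⟨i, i₁, i₂, i₃, ib, ic⟩ := fresh5 hs g₁.1 g₂.1 g₃.1 b.1 c.1
  have t₁ : Ty g₁ g₁ := ty_self hs t₂
  have tF : Ty g₁ (i, g₁.2) := t₁
  have l₁ : Lw l g₁ g₂ (i, g₁.2) := mkLw hs hw t₁ t₂ tF n₁₂ i₁.symm i₂.symm
  have l₂ : Lw l g₃ (i, g₁.2) g₂ := mkLw hs hw t₃ tF t₂ i₃.symm n₂₃.symm i₂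
  rw [e₁] at nab nac
  rw [e₂] at nb nc
  rw [hb.third G _ d hd (hs.sy_lw l) g₁ g₂ (i, g₁.2) g₃ l₁ hg l₂]
  refine comp2 (y' := x a b c) ?_ ?_
  · refine (h.cm a b c _ _ _ hh l₂ ⟨Or.inl ?_, Or.inl ?_, Or.inl ?_⟩
      ⟨db.2.2, Or.inl ib.symm, db.2.1⟩ ⟨dc.2.2, Or.inl ic.symm, dc.2.1⟩).eq
    · rw [e₁]; exact n₁₃
    · rw [e₁]; exact i₁.symm
    · rw [e₁]; exact n₁₂
  · exact h.m1 a a' b c _ _ _ hh l₁ hm (nm3 nab.symm nb.symm ib.symm)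
      (nm3 nac.symm nc.symm ic.symm)

/-- two movers -/
theorem two (hs : ShapeF) (hb : BasF) (hd : Sys (Lw l) d) (h : HY l d x)
    {g₁ g₂ g₃ a b c a' b' : Box} (hg : Lw l g₁ g₂ g₃) (hh : Hi l a b c) (hm : Mo g₁ g₂ a a')
    (hm' : Mo g₃ g₁ b b') (nc : a'.1 ≠ c.1) :
    d g₁ g₂ g₃ * x a b c = x a' b' c * d g₁ g₂ g₃ := by
  obtain ⟨e₁, e₂⟩ := mo_fst hm
  obtain ⟨e₃, -⟩ := mo_fst hm'
  obtain ⟨⟨t₂, t₃, n₁₂, n₁₃, n₂₃⟩, hw⟩ := id hg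
  obtain ⟨⟨tb, tc, -, nac, nbc⟩, hw'⟩ := id hh
  obtain ⟨i, i₁, i₂, i₃, ic, -⟩ := fresh5 hs g₁.1 g₂.1 g₃.1 c.1 c.1
  have t₁ : Ty g₁ g₁ := ty_self hs t₂
  have tF : Ty g₁ (i, g₁.2) := t₁
  have l₁ : Lw l g₁ g₂ (i, g₁.2) := mkLw hs hw t₁ t₂ tF n₁₂ i₁.symm i₂.symm
  have l₂ : Lw l g₃ g₁ (i, g₁.2) := mkLw hs hw t₃ t₁ tF n₁₃.symm i₃.symm i₁.symm
  have hh' : Hi l a' b c := by
    refine mkHi hs hw' (hs.mo_ty _ _ _ _ t₂ hm) tb tc ?_ nc nbc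
    rw [e₂, e₃]; exact n₂₃
  rw [e₁] at nac
  rw [e₂] at nc
  rw [e₃] at nbc
  rw [hb.two G _ d hd (hs.sy_lw l) g₁ g₂ g₃ (i, g₁.2) hg l₂ l₁]
  refine comp2 (y' := x a' b c) ?_ ?_
  · refine h.m1 a a' b c _ _ _ hh l₁ hm ?_ (nm3 nac.symm nc.symm ic.symm)
    rw [e₃]; exact nm3 n₁₃.symm n₂₃.symm i₃.symm
  · refine h.m2 a' b b' c _ _ _ hh' l₂ hm' ?_ (nm3 nbc.symm nac.symm ic.symm)
    rw [e₂]; exact nm3 n₂₃ n₁₂.symm i₂.symm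

/-- three movers -/
theorem three (hs : ShapeF) (hb : BasF) (hd : Sys (Lw l) d) (h : HY l d x)
    {g₁ g₂ g₃ a b c a' b' c' : Box} (hg : Lw l g₁ g₂ g₃) (hh : Hi l a b c) (hm : Mo g₁ g₂ a a')
    (hm' : Mo g₂ g₃ b b') (hm'' : Mo g₃ g₁ c c') :
    d g₁ g₂ g₃ * x a b c = x a' b' c' * d g₁ g₂ g₃ := by
  obtain ⟨e₂, e₃⟩ := mo_fst hm'
  obtain ⟨-, e₁⟩ := mo_fst hm''
  obtain ⟨⟨t₂, t₃, n₁₂, n₁₃, n₂₃⟩, hw⟩ := id hg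
  obtain ⟨⟨tb, tc, -, -, -⟩, hw'⟩ := id hh
  obtain ⟨i, i₁, i₂, i₃, -, -⟩ := fresh5 hs g₁.1 g₂.1 g₃.1 g₃.1 g₃.1
  have t₁ : Ty g₁ g₁ := ty_self hs t₂
  have tF : Ty g₁ (i, g₁.2) := t₁
  have l₁ : Lw l g₁ (i, g₁.2) g₃ := mkLw hs hw t₁ tF t₃ i₁.symm n₁₃ i₃
  have l₂ : Lw l g₂ g₃ (i, g₁.2) := mkLw hs hw t₂ t₃ tF n₂₃ i₂.symm i₃.symm
  obtain ⟨u, hu, ha, ha'⟩ := hm
  have m₁ : Mo g₁ (i, g₁.2) a (sb (i, g₁.2) u) := ⟨u, hu, ha, rfl⟩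
  have m₂ : Mo (i, g₁.2) g₂ (sb (i, g₁.2) u) a' := ⟨u, hu, rfl, ha'⟩
  have f₁ : (sb (i, g₁.2) u).1 = i := rfl
  have tc' : Ty a c' := hs.ty_trans _ _ _ tc
    (hs.mo_ty _ _ _ _ (hs.ty_symm _ _ t₃) hm'')
  have hh' : Hi l b (sb (i, g₁.2) u) c' := by
    refine mkHi hs hw' tb (hs.mo_ty _ _ _ _ tF m₁) tc' ?_ ?_ ?_
    · rw [e₂, f₁]; exact i₂.symm
    · rw [e₂, e₁]; exact n₁₂.symm
    · rw [f₁, e₁]; exact i₁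
  rw [← hd.tri g₁ g₂ g₃ (i, g₁.2) hg l₂ l₁]
  refine comp2 (y' := x (sb (i, g₁.2) u) b c') ?_ ?_
  · refine two hs hb hd (h.sw23 hs) l₁ (hi23 hs hh) m₁ hm'' ?_
    rw [e₂, f₁]; exact i₂
  · refine two hs hb hd (h.sw12 hs) l₂ hh' hm' m₂ ?_
    rw [e₃, e₁]; exact n₁₃.symm

theorem same {g g' a a' b b' : Box} (h : Mo g g' a a') (h' : Mo g g' b b') : a.1 = b.1 :=
  (mo_fst h).1.trans (mo_fst h').1.symm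

/-- the first slot goes from the first box to the second one -/
theorem fstA (hs : ShapeF) (hb : BasF) (hd : Sys (Lw l) d) (h : HY l d x)
    {g₁ g₂ g₃ a b c a' b' c' : Box} (hg : Lw l g₁ g₂ g₃) (hh : Hi l a b c) (hh' : Hi l a' b' c')
    (hm : Mo g₁ g₂ a a') (mb : Mv g₁ g₂ g₃ b b') (mc : Mv g₁ g₂ g₃ c c') :
    d g₁ g₂ g₃ * x a b c = x a' b' c' * d g₁ g₂ g₃ := by
  obtain ⟨⟨-, -, nab, nac, nbc⟩, -⟩ := id hh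
  obtain ⟨⟨-, -, nab', nac', nbc'⟩, -⟩ := id hh'
  have hg' : Lw l g₂ g₃ g₁ := (hs.sy_lw l _ _ _ hg).1
  rcases mb with mb | mb | mb | ⟨rfl, db⟩
  · exact absurd (same hm mb) nab
  · rcases mc with mc | mc | mc | ⟨rfl, -⟩
    · exact absurd (same hm mc) nac
    · exact absurd (same mb mc) nbc
    · exact three hs hb hd h hg hh hm mb mc
    · rw [hd.cyc _ _ _ hg]
      exact two hs hb hd (h.sw12 hs) hg' (hi12 hs hh) mb hm nbc'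
  · rcases mc with mc | mc | mc | ⟨rfl, -⟩
    · exact absurd (same hm mc) nac
    · exact three hs hb hd (h.sw23 hs) hg (hi23 hs hh) hm mc mb
    · exact absurd (same mb mc) nbc
    · exact two hs hb hd h hg hh hm mb nac'
  · rcases mc with mc | mc | mc | ⟨rfl, dc⟩
    · exact absurd (same hm mc) nac
    · rw [hd.cyc _ _ _ hg]
      exact two hs hb hd ((h.sw23 hs).sw12 hs) hg' (hi12 hs (hi23 hs hh)) mc hm nbc'.symm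
    · exact two hs hb hd (h.sw23 hs) hg (hi23 hs hh) hm mc nab'
    · exact one hs hb hd h hg hh hm nab' nac' db dc

/-- the first slot moves -/
theorem fstB (hs : ShapeF) (hb : BasF) (hd : Sys (Lw l) d) (h : HY l d x)
    {g₁ g₂ g₃ a b c a' b' c' : Box} (hg : Lw l g₁ g₂ g₃) (hh : Hi l a b c) (hh' : Hi l a' b' c')
    (hm : Mo g₁ g₂ a a' ∨ Mo g₂ g₃ a a' ∨ Mo g₃ g₁ a a') (mb : Mv g₁ g₂ g₃ b b')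
    (mc : Mv g₁ g₂ g₃ c c') : d g₁ g₂ g₃ * x a b c = x a' b' c' * d g₁ g₂ g₃ := by
  have hg' : Lw l g₂ g₃ g₁ := (hs.sy_lw l _ _ _ hg).1
  have hg'' : Lw l g₃ g₁ g₂ := (hs.sy_lw l _ _ _ hg').1
  have mb' := hs.mv_rot _ _ _ _ _ mb
  have mc' := hs.mv_rot _ _ _ _ _ mc
  rcases hm with hm | hm | hm
  · exact fstA hs hb hd h hg hh hh' hm mb mc
  · rw [hd.cyc _ _ _ hg]
    exact fstA hs hb hd h hg' hh hh' hm mb' mc'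
  · rw [hd.cyc _ _ _ hg, hd.cyc _ _ _ hg']
    exact fstA hs hb hd h hg'' hh hh' hm (hs.mv_rot _ _ _ _ _ mb') (hs.mv_rot _ _ _ _ _ mc')

theorem mv_or {g₁ g₂ g₃ a a' : Box} (h : Mv g₁ g₂ g₃ a a') :
    (Mo g₁ g₂ a a' ∨ Mo g₂ g₃ a a' ∨ Mo g₃ g₁ a a') ∨ (a' = a ∧ D3 a g₁ g₂ g₃) := by
  rcases h with h | h | h | h
  · exact Or.inl (Or.inl h)
  · exact Or.inl (Or.inr (Or.inl h))
  · exact Or.inl (Or.inr (Or.inr h))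
  · exact Or.inr h

theorem all (hs : ShapeF) (hb : BasF) (hd : Sys (Lw l) d) (h : HY l d x) : M3 l d x := by
  rintro g₁ g₂ g₃ a b c a' b' c' hg hh hh' ⟨ma, mb, mc⟩
  rcases mv_or ma with hm | ⟨ea, da⟩
  · exact fstB hs hb hd h hg hh hh' hm mb mc
  rcases mv_or mb with hm | ⟨eb, db⟩
  · exact fstB hs hb hd (h.sw12 hs) hg (hi12 hs hh) (hi12 hs hh') hm ma mc
  rcases mv_or mc with hm | ⟨ec, dc⟩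
  · exact fstB hs hb hd ((h.sw23 hs).sw12 hs) hg (hi12 hs (hi23 hs hh))
      (hi12 hs (hi23 hs hh')) hm ma mb
  rw [ea, eb, ec]
  exact (h.cm a b c g₁ g₂ g₃ hh hg da db dc).eq

end Mthx

/-- Row M3. -/
theorem m3_main : SpM3 := fun hs hb _ _ _ _ _ _ _ hd h =>
  Mthx.all hs hb hd ⟨h.cm, h.m1, h.m2, h.m3⟩

end Pool.Agent.MP_89edc2_al.R3
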