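import Pool.Agent.MP_89edc2_al.R3.Spec2

/-! The nerve argument: the complex of flags is simply connected. -/

namespace Pool.Agent.MP_89edc2_al.R3

namespace Nervex

/-- a flag -/
abbrev Fl : Type := Pat × Fin 3

/-- a digit -/
def dg (k : ℕ) : Option Bool := if k = 0 then none else if k = 1 then some false else some true

/-- the pattern with code `k` -/
def pt (k : ℕ) : Pat := ![dg (k / 9), dg (k / 3 % 3), dg (k % 3)]

instance (t : Pat) (a : Fin 3) (t' : Pat) (a' : Fin 3) : Decidable (EM t a t' a') := by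
  unfold EM; infer_instance

/-- the first flags of a common edge -/
def E1 (p q : Fl) : Prop :=
  ∃ a a', EM p.1 a q.1 a' ∧ p.2 = a.succAbove 0 ∧ q.2 = a'.succAbove 0

/-- the two pairs of flags of a common edge -/
def E2 (c : ℕ) (p q p' q' : Fl) : Prop :=
  cnt p.1 = c ∧ cnt q.1 = c ∧ p'.1 = p.1 ∧ q'.1 = q.1 ∧ ∃ a a', EM p.1 a q.1 a' ∧
    p.2 = a.succAbove 0 ∧ q.2 = a'.succAbove 0 ∧ p'.2 = a.succAbove 1 ∧ q'.2 = a'.succAbove 1

instance (p q : Fl) : Decidable (E1 p q) := by unfold E1; infer_instance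

instance (c : ℕ) (p q p' q' : Fl) : Decidable (E2 c p q p' q') := by unfold E2; infer_instance

/-- the rules for a relation on flags -/
structure Cl (c : ℕ) (R : Fl → Fl → Prop) : Prop where
  rf : ∀ p, cnt p.1 = c → R p p
  sy : ∀ {p q}, R p q → R q p
  tr : ∀ {p q r}, R p q → R q r → R p r
  e2 : ∀ {p q p' q'}, E2 c p q p' q' → (R p q ↔ R p' q')

/-- each move goes from a visited pattern to a new one -/
def chk : List Pat → List (Fl × Fl) → Bool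
  | _, [] => true
  | S, m :: L => decide (m.1.1 ∈ S ∧ m.2.1 ∉ S ∧ E1 m.1 m.2) && chk (m.2.1 :: S) L

variable {Y : Type} {F : Pat → Y → Prop} {C : Pat → Fin 3 → Y → Pat → Fin 3 → Y → Prop}

theorem grow (hN : Nv F C) (L : List (Fl × Fl)) : ∀ (S : List Pat) (Yf : Pat → Y),
    (∀ t ∈ S, F t (Yf t)) → chk S L = true → ∃ Z : Pat → Y, (∀ t ∈ S, Z t = Yf t) ∧
      ∀ m ∈ L, F m.2.1 (Z m.2.1) ∧ C m.1.1 m.1.2 (Z m.1.1) m.2.1 m.2.2 (Z m.2.1) := by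
  induction L with
  | nil => exact fun S Yf _ _ => ⟨Yf, fun _ _ => rfl, by simp⟩
  | cons m L ih =>
    intro S Yf hF hk
    rw [chk, Bool.and_eq_true, decide_eq_true_eq] at hk
    obtain ⟨⟨h1, h2, a, a', hE, e1, e2⟩, hk⟩ := hk
    obtain ⟨y', hy, hc⟩ := hN.exe _ a _ _ a' (hF _ h1) hE
    have ne : ∀ t ∈ S, Function.update Yf m.2.1 y' t = Yf t := fun t ht =>
      Function.update_of_ne (fun e : t = m.2.1 => h2 (e ▸ ht)) _ _
    obtain ⟨Z, z1, z2⟩ := ih (m.2.1 :: S) (Function.update Yf m.2.1 y') (fun t ht => by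
      rcases List.mem_cons.1 ht with rfl | ht
      · rwa [Function.update_self]
      · rw [ne t ht]; exact hF t ht) hk
    have k1 : ∀ t ∈ S, Z t = Yf t := fun t ht => (z1 t (List.mem_cons_of_mem _ ht)).trans (ne t ht)
    have k2 : Z m.2.1 = y' := (z1 _ List.mem_cons_self).trans (Function.update_self ..)
    refine ⟨Z, k1, List.forall_mem_cons.2 ⟨?_, z2⟩⟩
    rw [k2, k1 _ h1, e1, e2]
    exact ⟨hy, hc⟩

theorem ex3 (t : Pat) : ∃ x y z, t = ![x, y, z] :=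
  ⟨t 0, t 1, t 2, by funext a; fin_cases a <;> rfl⟩

/-- the finite checks -/
def Fin1 (c : ℕ) (L K : List (Fl × Fl)) : Prop :=
  chk [base c] L = true ∧
  (L.all fun m => decide (cnt m.1.1 = cnt m.2.1 ∧ m.1.1 m.1.2 = m.2.1 m.2.2)) = true ∧
  (∀ x y z, cnt ![x, y, z] = c → ![x, y, z] = base c ∨ ∃ m ∈ L, m.2.1 = ![x, y, z]) ∧
  (∀ x y z a, cnt ![x, y, z] = c → ∃ k ∈ K, k.1 = (![x, y, z], a)) ∧
  ∀ x ∈ K, ∀ y ∈ K, dir x.1.1 x.1.2 = dir y.1.1 y.1.2 → x.1.1 x.1.2 = y.1.1 y.1.2 → x.2 = y.2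

theorem asm (hN : Nv F C) {c : ℕ} {L K : List (Fl × Fl)} (hf : Fin1 c L K)
    (hcl : ∀ {R : Fl → Fl → Prop}, Cl c R → (∀ m ∈ L, R m.1 m.2) → ∀ x ∈ K, R x.1 x.2) (y₀ : Y)
    (h₀ : F (base c) y₀) : ∃ Yf : Pat → Y, Yf (base c) = y₀ ∧ NvOut F C c Yf := by
  obtain ⟨f1, f2, f3, f4, f5⟩ := hf
  simp only [List.all_eq_true, decide_eq_true_eq] at f2
  obtain ⟨Z, z1, z2⟩ := grow hN L [base c] (fun _ => y₀) (by simpa using h₀) f1
  have zb : Z (base c) = y₀ := z1 _ List.mem_cons_self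
  have hF : ∀ t, cnt t = c → F t (Z t) := fun t ht => by
    obtain ⟨x, y, z, rfl⟩ := ex3 t
    rcases f3 x y z ht with e | ⟨m, hm, e⟩
    · rw [e, zb]; exact h₀
    · rw [← e]; exact (z2 m hm).1
  have hC : Cl c fun p q => cnt p.1 = cnt q.1 ∧ p.1 p.2 = q.1 q.2 ∧
      C p.1 p.2 (Z p.1) q.1 q.2 (Z q.1) := by
    refine ⟨fun p hp => ⟨rfl, rfl, hN.refl _ _ _ (hF _ hp)⟩,
      fun h => ⟨h.1.symm, h.2.1.symm, hN.symm _ _ _ _ _ _ h.2.2⟩,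
      fun h h' => ⟨h.1.trans h'.1, h.2.1.trans h'.2.1,
        hN.trans _ _ _ _ _ _ _ _ _ h.1 h.2.1 h.2.2 h'.2.2⟩, ?_⟩
    rintro p q p' q' ⟨c1, c2, e1, e2, a, a', hE, e3, e4, e5, e6⟩
    rw [e1, e2, e3, e4, e5, e6, hN.e2 _ a _ _ a' _ (hF _ c1) (hF _ c2) hE]
    simp only [hE.1]
  have hK := hcl hC fun m hm => ⟨(f2 m hm).1, (f2 m hm).2, (z2 m hm).2⟩
  refine ⟨Z, zb, hF, fun t a t' a' c1 c2 e1 e2 => ?_⟩
  obtain ⟨x, y, z, rfl⟩ := ex3 t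
  obtain ⟨x', y', z', rfl⟩ := ex3 t'
  obtain ⟨k, hk, e⟩ := f4 x y z a c1
  obtain ⟨k', hk', e'⟩ := f4 x' y' z' a' c2
  have h1 := hK k hk
  have h2 := hK k' hk'
  rw [← f5 k hk k' hk' (by rw [e, e']; exact e1) (by rw [e, e']; exact e2)] at h2
  have h3 := (hC.tr h1 (hC.sy h2)).2.2
  rwa [e, e'] at h3

/-- the tree of moves for `c = 0` -/
def L0 : List (Fl × Fl) :=
  []

/-- flags with their representatives for `c = 0` -/
def K0 : List (Fl × Fl) :=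
  [((pt 0, 0), (pt 0, 1)), ((pt 0, 1), (pt 0, 1)), ((pt 0, 2), (pt 0, 1))]

theorem cl0 {R : Fl → Fl → Prop} (hC : Cl 0 R) (_ : ∀ m ∈ L0, R m.1 m.2) :
    ∀ x ∈ K0, R x.1 x.2 := by
  obtain ⟨r, s, t, e⟩ := hC
  have h0 : R (pt 0, 1) (pt 0, 0) := (e (p' := (pt 0, 2)) (q' := (pt 0, 2)) (by decide)).2
    (r _ (by decide))
  have h1 : R (pt 0, 2) (pt 0, 1) := (e (p := (pt 0, 0)) (q := (pt 0, 0)) (by decide)).1
    (r _ (by decide))
  simp only [K0, List.forall_mem_cons]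
  exact ⟨(s h0), (r _ (by decide)), h1, by simp⟩

/-- the tree of moves for `c = 1` -/
def L1 : List (Fl × Fl) :=
  [((pt 1, 0), (pt 2, 0)), ((pt 2, 0), (pt 6, 0)), ((pt 6, 1), (pt 18, 0)),
   ((pt 6, 0), (pt 3, 0)), ((pt 3, 1), (pt 9, 0))]

/-- flags with their representatives for `c = 1` -/
def K1 : List (Fl × Fl) :=
  [((pt 1, 0), (pt 2, 0)), ((pt 1, 1), (pt 2, 0)), ((pt 2, 0), (pt 2, 0)),
   ((pt 2, 1), (pt 2, 0)), ((pt 3, 0), (pt 2, 0)), ((pt 6, 0), (pt 2, 0)),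
   ((pt 1, 2), (pt 3, 1)), ((pt 3, 1), (pt 3, 1)), ((pt 9, 0), (pt 3, 1)),
   ((pt 2, 2), (pt 6, 1)), ((pt 6, 1), (pt 6, 1)), ((pt 18, 0), (pt 6, 1)),
   ((pt 3, 2), (pt 3, 2)), ((pt 6, 2), (pt 3, 2)), ((pt 9, 1), (pt 3, 2)),
   ((pt 9, 2), (pt 3, 2)), ((pt 18, 1), (pt 3, 2)), ((pt 18, 2), (pt 3, 2))]

theorem cl1 {R : Fl → Fl → Prop} (hC : Cl 1 R) (h : ∀ m ∈ L1, R m.1 m.2) :
    ∀ x ∈ K1, R x.1 x.2 := by
  obtain ⟨r, s, t, e⟩ := hC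
  simp only [L1, List.forall_mem_cons] at h
  obtain ⟨g0, g1, g2, g3, g4, -⟩ := h
  have h0 : R (pt 1, 1) (pt 1, 0) := (e (p' := (pt 1, 2)) (q' := (pt 1, 2)) (by decide)).2
    (r _ (by decide))
  have h1 : R (pt 2, 1) (pt 2, 0) := (e (p' := (pt 2, 2)) (q' := (pt 2, 2)) (by decide)).2
    (r _ (by decide))
  have h2 : R (pt 9, 2) (pt 9, 1) := (e (p := (pt 9, 0)) (q := (pt 9, 0)) (by decide)).1
    (r _ (by decide))
  have h3 : R (pt 18, 2) (pt 18, 1) := (e (p := (pt 18, 0)) (q := (pt 18, 0)) (by decide)).1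
    (r _ (by decide))
  have h4 : R (pt 2, 2) (pt 6, 1) := (e (p := (pt 2, 0)) (q := (pt 6, 0)) (by decide)).1
    g1
  have h5 : R (pt 3, 2) (pt 9, 2) := (e (p := (pt 3, 1)) (q := (pt 9, 0)) (by decide)).1
    g4
  have h6 : R (pt 3, 2) (pt 6, 2) := (e (p := (pt 3, 0)) (q := (pt 6, 0)) (by decide)).1
    (s g3)
  have h7 : R (pt 6, 2) (pt 18, 2) := (e (p := (pt 6, 1)) (q := (pt 18, 0)) (by decide)).1
    g2
  have h8 : R (pt 1, 2) (pt 3, 1) := (e (p := (pt 1, 0)) (q := (pt 3, 0)) (by decide)).1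
    (t g0 (t g1 g3))
  simp only [K1, List.forall_mem_cons]
  exact ⟨g0, (t h0 g0), (r _ (by decide)), h1, (t (s g3) (s g1)), (s g1), h8, (r _ (by decide)),
    (s g4), h4, (r _ (by decide)), (s g2), (r _ (by decide)), (s h6), (t (s h2) (s h5)), (s h5),
    (t (s h3) (t (s h7) (s h6))), (t (s h7) (s h6)), by simp⟩

/-- the tree of moves for `c = 2` -/
def L2 : List (Fl × Fl) :=
  [((pt 4, 0), (pt 5, 0)), ((pt 5, 1), (pt 15, 0)), ((pt 4, 1), (pt 10, 0)),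
   ((pt 5, 0), (pt 8, 0)), ((pt 8, 1), (pt 24, 0)), ((pt 24, 0), (pt 21, 0)),
   ((pt 21, 1), (pt 12, 1)), ((pt 8, 0), (pt 7, 0)), ((pt 8, 1), (pt 20, 0)),
   ((pt 20, 1), (pt 11, 1)), ((pt 20, 0), (pt 19, 0))]

/-- flags with their representatives for `c = 2` -/
def K2 : List (Fl × Fl) :=
  [((pt 4, 0), (pt 5, 0)), ((pt 5, 0), (pt 5, 0)), ((pt 7, 0), (pt 5, 0)),
   ((pt 8, 0), (pt 5, 0)), ((pt 4, 1), (pt 4, 1)), ((pt 5, 1), (pt 4, 1)),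
   ((pt 10, 0), (pt 4, 1)), ((pt 11, 0), (pt 4, 1)), ((pt 12, 0), (pt 4, 1)),
   ((pt 15, 0), (pt 4, 1)), ((pt 4, 2), (pt 7, 2)), ((pt 7, 2), (pt 7, 2)),
   ((pt 10, 2), (pt 7, 2)), ((pt 12, 1), (pt 7, 2)), ((pt 19, 2), (pt 7, 2)),
   ((pt 21, 1), (pt 7, 2)), ((pt 5, 2), (pt 8, 2)), ((pt 8, 2), (pt 8, 2)),
   ((pt 11, 2), (pt 8, 2)), ((pt 15, 1), (pt 8, 2)), ((pt 20, 2), (pt 8, 2)),
   ((pt 24, 1), (pt 8, 2)), ((pt 7, 1), (pt 8, 1)), ((pt 8, 1), (pt 8, 1)),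
   ((pt 19, 0), (pt 8, 1)), ((pt 20, 0), (pt 8, 1)), ((pt 21, 0), (pt 8, 1)),
   ((pt 24, 0), (pt 8, 1)), ((pt 10, 1), (pt 19, 1)), ((pt 11, 1), (pt 19, 1)),
   ((pt 19, 1), (pt 19, 1)), ((pt 20, 1), (pt 19, 1)), ((pt 12, 2), (pt 12, 2)),
   ((pt 15, 2), (pt 12, 2)), ((pt 21, 2), (pt 12, 2)), ((pt 24, 2), (pt 12, 2))]

theorem cl2 {R : Fl → Fl → Prop} (hC : Cl 2 R) (h : ∀ m ∈ L2, R m.1 m.2) :
    ∀ x ∈ K2, R x.1 x.2 := by
  obtain ⟨r, s, t, e⟩ := hC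
  simp only [L2, List.forall_mem_cons] at h
  obtain ⟨g0, g1, g2, g3, g4, g5, g6, g7, g8, g9, g10, -⟩ := h
  have h0 : R (pt 4, 2) (pt 10, 2) := (e (p := (pt 4, 1)) (q := (pt 10, 0)) (by decide)).1
    g2
  have h1 : R (pt 4, 1) (pt 5, 1) := (e (p := (pt 4, 0)) (q := (pt 5, 0)) (by decide)).1
    g0
  have h2 : R (pt 5, 2) (pt 15, 1) := (e (p := (pt 5, 1)) (q := (pt 15, 0)) (by decide)).1
    g1
  have h3 : R (pt 5, 2) (pt 8, 2) := (e (p := (pt 5, 0)) (q := (pt 8, 0)) (by decide)).1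
    g3
  have h4 : R (pt 7, 1) (pt 8, 1) := (e (p := (pt 7, 0)) (q := (pt 8, 0)) (by decide)).1
    (s g7)
  have h5 : R (pt 8, 2) (pt 20, 2) := (e (p := (pt 8, 1)) (q := (pt 20, 0)) (by decide)).1
    g8
  have h6 : R (pt 8, 2) (pt 24, 1) := (e (p := (pt 8, 1)) (q := (pt 24, 0)) (by decide)).1
    g4
  have h7 : R (pt 11, 2) (pt 20, 2) := (e (p := (pt 11, 1)) (q := (pt 20, 1)) (by decide)).1
    (s g9)
  have h8 : R (pt 12, 2) (pt 21, 2) := (e (p := (pt 12, 1)) (q := (pt 21, 1)) (by decide)).1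
    (s g6)
  have h9 : R (pt 19, 1) (pt 20, 1) := (e (p := (pt 19, 0)) (q := (pt 20, 0)) (by decide)).1
    (s g10)
  have h10 : R (pt 21, 2) (pt 24, 2) := (e (p := (pt 21, 0)) (q := (pt 24, 0)) (by decide)).1
    (s g5)
  have h11 : R (pt 4, 2) (pt 7, 2) := (e (p := (pt 4, 0)) (q := (pt 7, 0)) (by decide)).1
    (t g0 (t g3 g7))
  have h12 : R (pt 5, 1) (pt 11, 0) := (e (p' := (pt 5, 2)) (q' := (pt 11, 2)) (by decide)).2
    (t h3 (t h5 (s h7)))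
  have h13 : R (pt 7, 2) (pt 19, 2) := (e (p := (pt 7, 1)) (q := (pt 19, 0)) (by decide)).1
    (t h4 (t g8 g10))
  have h14 : R (pt 7, 2) (pt 21, 1) := (e (p := (pt 7, 1)) (q := (pt 21, 0)) (by decide)).1
    (t h4 (t g4 g5))
  have h15 : R (pt 4, 1) (pt 12, 0) := (e (p' := (pt 4, 2)) (q' := (pt 12, 1)) (by decide)).2
    (t h11 (t h14 g6))
  have h16 : R (pt 10, 1) (pt 19, 1) := (e (p' := (pt 10, 2)) (q' := (pt 19, 2)) (by decide)).2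
    (t (s h0) (t h11 h13))
  have h17 : R (pt 12, 2) (pt 15, 2) := (e (p := (pt 12, 0)) (q := (pt 15, 0)) (by decide)).1
    (t (s h15) (t h1 g1))
  simp only [K2, List.forall_mem_cons]
  exact ⟨g0, (r _ (by decide)), (t (s g7) (s g3)), (s g3), (r _ (by decide)), (s h1), (s g2),
    (t (s h12) (s h1)), (s h15), (t (s g1) (s h1)), h11, (r _ (by decide)), (t (s h0) h11),
    (t (s g6) (s h14)), (s h13), (s h14), h3, (r _ (by decide)), (t h7 (s h5)), (t (s h2) h3),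
    (s h5), (s h6), h4, (r _ (by decide)), (t (s g10) (s g8)), (s g8), (t (s g5) (s g4)), (s g4),
    h16, (t (s g9) (s h9)), (r _ (by decide)), (s h9), (r _ (by decide)), (s h17), (s h8),
    (t (s h10) (s h8)), by simp⟩

/-- the tree of moves for `c = 3` -/
def L3 : List (Fl × Fl) :=
  [((pt 13, 0), (pt 16, 0)), ((pt 16, 0), (pt 17, 0)), ((pt 17, 1), (pt 26, 1)),
   ((pt 26, 0), (pt 23, 0)), ((pt 26, 0), (pt 25, 0)), ((pt 23, 0), (pt 22, 0)),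
   ((pt 13, 0), (pt 14, 0))]

/-- flags with their representatives for `c = 3` -/
def K3 : List (Fl × Fl) :=
  [((pt 13, 0), (pt 13, 0)), ((pt 14, 0), (pt 13, 0)), ((pt 16, 0), (pt 13, 0)),
   ((pt 17, 0), (pt 13, 0)), ((pt 13, 1), (pt 14, 1)), ((pt 14, 1), (pt 14, 1)),
   ((pt 22, 1), (pt 14, 1)), ((pt 23, 1), (pt 14, 1)), ((pt 13, 2), (pt 13, 2)),
   ((pt 16, 2), (pt 13, 2)), ((pt 22, 2), (pt 13, 2)), ((pt 25, 2), (pt 13, 2)),
   ((pt 14, 2), (pt 17, 2)), ((pt 17, 2), (pt 17, 2)), ((pt 23, 2), (pt 17, 2)),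
   ((pt 26, 2), (pt 17, 2)), ((pt 16, 1), (pt 17, 1)), ((pt 17, 1), (pt 17, 1)),
   ((pt 25, 1), (pt 17, 1)), ((pt 26, 1), (pt 17, 1)), ((pt 22, 0), (pt 23, 0)),
   ((pt 23, 0), (pt 23, 0)), ((pt 25, 0), (pt 23, 0)), ((pt 26, 0), (pt 23, 0))]

theorem cl3 {R : Fl → Fl → Prop} (hC : Cl 3 R) (h : ∀ m ∈ L3, R m.1 m.2) :
    ∀ x ∈ K3, R x.1 x.2 := by
  obtain ⟨r, s, t, e⟩ := hC
  simp only [L3, List.forall_mem_cons] at h
  obtain ⟨g0, g1, g2, g3, g4, g5, g6, -⟩ := h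
  have h0 : R (pt 13, 2) (pt 16, 2) := (e (p := (pt 13, 0)) (q := (pt 16, 0)) (by decide)).1
    g0
  have h1 : R (pt 13, 1) (pt 14, 1) := (e (p := (pt 13, 0)) (q := (pt 14, 0)) (by decide)).1
    g6
  have h2 : R (pt 16, 1) (pt 17, 1) := (e (p := (pt 16, 0)) (q := (pt 17, 0)) (by decide)).1
    g1
  have h3 : R (pt 17, 2) (pt 26, 2) := (e (p := (pt 17, 1)) (q := (pt 26, 1)) (by decide)).1
    g2
  have h4 : R (pt 22, 1) (pt 23, 1) := (e (p := (pt 22, 0)) (q := (pt 23, 0)) (by decide)).1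
    (s g5)
  have h5 : R (pt 23, 2) (pt 26, 2) := (e (p := (pt 23, 0)) (q := (pt 26, 0)) (by decide)).1
    (s g3)
  have h6 : R (pt 25, 1) (pt 26, 1) := (e (p := (pt 25, 0)) (q := (pt 26, 0)) (by decide)).1
    (s g4)
  have h7 : R (pt 14, 2) (pt 17, 2) := (e (p := (pt 14, 0)) (q := (pt 17, 0)) (by decide)).1
    (t (s g6) (t g0 g1))
  have h8 : R (pt 14, 1) (pt 23, 1) := (e (p' := (pt 14, 2)) (q' := (pt 23, 2)) (by decide)).2
    (t h7 (t h3 (s h5)))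
  have h9 : R (pt 13, 2) (pt 22, 2) := (e (p := (pt 13, 1)) (q := (pt 22, 1)) (by decide)).1
    (t h1 (t h8 (s h4)))
  have h10 : R (pt 16, 2) (pt 25, 2) := (e (p := (pt 16, 1)) (q := (pt 25, 1)) (by decide)).1
    (t h2 (t g2 (s h6)))
  simp only [K3, List.forall_mem_cons]
  exact ⟨(r _ (by decide)), (s g6), (s g0), (t (s g1) (s g0)), h1, (r _ (by decide)),
    (t h4 (s h8)), (s h8), (r _ (by decide)), (s h0), (s h9), (t (s h10) (s h0)), h7,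
    (r _ (by decide)), (t h5 (s h3)), (s h3), h2, (r _ (by decide)), (t h6 (s g2)), (s g2),
    (s g5), (r _ (by decide)), (t (s g4) g3), g3, by simp⟩

theorem f0 : Fin1 0 L0 K0 := by
  refine ⟨?_, ?_, ?_, ?_, ?_⟩ <;> decide +kernel

theorem f1 : Fin1 1 L1 K1 := by
  refine ⟨?_, ?_, ?_, ?_, ?_⟩ <;> decide +kernel

theorem f2 : Fin1 2 L2 K2 := by
  refine ⟨?_, ?_, ?_, ?_, ?_⟩ <;> decide +kernel

theorem f3 : Fin1 3 L3 K3 := by
  refine ⟨?_, ?_, ?_, ?_, ?_⟩ <;> decide +kernel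

end Nervex

theorem nerve_main : SpNerve := by
  intro Y F C hN c hc y₀ h₀
  interval_cases c
  · exact Nervex.asm hN Nervex.f0 Nervex.cl0 y₀ h₀
  · exact Nervex.asm hN Nervex.f1 Nervex.cl1 y₀ h₀
  · exact Nervex.asm hN Nervex.f2 Nervex.cl2 y₀ h₀
  · exact Nervex.asm hN Nervex.f3 Nervex.cl3 y₀ h₀

end Pool.Agent.MP_89edc2_al.R3
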