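import Pool.Agent.MP_89edc2_al.R3.Spec2

/-!
# Row PRES: the universal system lives in a finitely presented group
-/

namespace Pool.Agent.MP_89edc2_al.R3

namespace Presx

/-- the labels of the generators -/
abbrev A : Type := {p : Box × Box × Box // Lw 3 p.1 p.2.1 p.2.2}

noncomputable instance decA : DecidableEq A := Classical.decEq A

theorem A_fin (hS : ShapeF) : Finite A := by
  have hb : ∀ b : Box, b.2.length = 3 → wt b.2 ≤ 3 →
      b ∈ {b : Box | b.2.length = 3 ∧ dg b.2 ≤ 3} := by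
    intro b h1 h2
    refine ⟨h1, ?_⟩
    have h3 := hS.wt_ar b.2
    have h4 := hS.ar_le b.2
    omega
  have hf : {p : Box × Box × Box | Lw 3 p.1 p.2.1 p.2.2}.Finite := by
    refine ((hS.fin_box 3).prod ((hS.fin_box 3).prod (hS.fin_box 3))).subset ?_
    rintro ⟨a, b, c⟩ ⟨⟨h1, h2, -⟩, h3⟩
    have h4 := hS.ty_wt a b h1
    have h5 := hS.ty_wt a c h2
    change wt a.2 ≤ 3 at h3
    exact ⟨hb a h1.1 h3, hb b h1.2.1 (h4 ▸ h3), hb c h2.2.1 (h5 ▸ h3)⟩
  exact hf.to_subtype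

/-- the values of the generators in a system -/
def val {H : Type} (e : D3G H) (a : A) : H := e a.1.1 a.1.2.1 a.1.2.2

/-- the short relations -/
def R : Set (FreeGroup A) :=
  {r | r.norm ≤ 4 ∧ ∀ (H : Type) [Group H] (e : D3G H), Sys (Lw 3) e →
    FreeGroup.lift (val e) r = 1}

theorem R_fin (hS : ShapeF) : R.Finite := by
  have := A_fin hS
  refine Set.Finite.of_finite_image (f := FreeGroup.toWord) ?_ FreeGroup.toWord_injective.injOn
  refine (List.finite_length_le (A × Bool) 4).subset ?_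
  rintro _ ⟨r, hr, rfl⟩
  exact hr.1

open Classical in
/-- the generators of the free group -/
noncomputable def F (a b c : Box) : FreeGroup A :=
  if h : Lw 3 a b c then FreeGroup.of ⟨(a, b, c), h⟩ else 1

theorem F_norm (a b c : Box) : (F a b c).norm ≤ 1 := by
  unfold F
  split_ifs
  · rw [FreeGroup.norm_of]
  · rw [FreeGroup.norm_one]; exact zero_le_one

theorem F_of {a b c : Box} (h : Lw 3 a b c) : F a b c = FreeGroup.of ⟨(a, b, c), h⟩ := by
  rw [F, dif_pos h]

theorem F_ev {H : Type} [Group H] (e : D3G H) {a b c : Box} (h : Lw 3 a b c) :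
    FreeGroup.lift (val e) (F a b c) = e a b c := by
  rw [F_of h, FreeGroup.lift_apply_of]
  rfl

theorem key {u v : FreeGroup A} (hn : u.norm + v.norm ≤ 4)
    (he : ∀ (H : Type) [Group H] (e : D3G H), Sys (Lw 3) e →
      FreeGroup.lift (val e) u = FreeGroup.lift (val e) v) :
    PresentedGroup.mk R u = PresentedGroup.mk R v := by
  refine PresentedGroup.mk_eq_mk_of_mul_inv_mem ⟨?_, fun H _ e h => ?_⟩
  · refine (FreeGroup.norm_mul_le _ _).trans ?_
    rwa [FreeGroup.norm_inv_eq]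
  · rw [map_mul, map_inv, he H e h, mul_inv_cancel]

theorem norm2 (a b c a' b' c' : Box) : (F a b c * F a' b' c').norm ≤ 2 :=
  (FreeGroup.norm_mul_le _ _).trans (add_le_add (F_norm _ _ _) (F_norm _ _ _))

theorem norm3 (a b c a' b' c' a'' b'' c'' : Box) :
    (F a b c * F a' b' c' * F a'' b'' c'').norm ≤ 3 :=
  (FreeGroup.norm_mul_le _ _).trans (add_le_add (norm2 _ _ _ _ _ _) (F_norm _ _ _))

theorem sys3 (hS : ShapeF) : Sys (Lw 3) (fun a b c => PresentedGroup.mk R (F a b c)) := by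
  refine ⟨fun a b c h => ?_, fun a b c h => ?_, fun a b e f h1 h2 h3 => ?_,
    fun a b c i h hi hk => ?_, fun g₁ g₂ g₃ a b c a' b' c' h1 h2 h3 m1 m2 m3 => ?_⟩
  · refine key ?_ fun H _ e he => ?_
    · have h1 := F_norm a b c
      have h2 := F_norm b c a
      omega
    · rw [F_ev e h, F_ev e (hS.sy_lw 3 a b c h).1]
      exact he.cyc a b c h
  · rw [← map_mul, ← map_one (PresentedGroup.mk R)]
    refine key ?_ fun H _ e he => ?_
    · have h1 := norm2 a c b a b c
      rw [FreeGroup.norm_one]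
      omega
    · rw [map_mul, F_ev e h, F_ev e (hS.sy_lw 3 a b c h).2, map_one]
      exact he.inv a b c h
  · rw [← map_mul]
    refine key ?_ fun H _ d hd => ?_
    · have h4 := norm2 b e f a f e
      have h5 := F_norm a b e
      omega
    · rw [map_mul, F_ev d h1, F_ev d h2, F_ev d h3]
      exact hd.tri a b e f h1 h2 h3
  · rw [← map_mul, ← map_mul]
    refine key ?_ fun H _ d hd => ?_
    · have h4 := norm3 (kd a i none) (kd b i none) (kd c i none)
        (kd a i (some false)) (kd b i (some false)) (kd c i (some false))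
        (kd a i (some true)) (kd b i (some true)) (kd c i (some true))
      have h5 := F_norm a b c
      omega
    · rw [map_mul, map_mul, F_ev d h, F_ev d (hk none), F_ev d (hk (some false)),
        F_ev d (hk (some true))]
      exact hd.split a b c i h hi hk
  · rw [← map_mul, ← map_mul]
    refine key ?_ fun H _ d hd => ?_
    · have h4 := norm2 g₁ g₂ g₃ a b c
      have h5 := norm2 a' b' c' g₁ g₂ g₃
      omega
    · rw [map_mul, map_mul, F_ev d h1, F_ev d h2, F_ev d h3]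
      exact hd.conj g₁ g₂ g₃ a b c a' b' c' h1 h2 h3 m1 m2 m3

theorem sys_mono {G : Type} [Group G] {P Q : Box → Box → Box → Prop} {d : D3G G}
    (h : ∀ a b c, P a b c → Q a b c) (hd : Sys Q d) : Sys P d :=
  ⟨fun a b c h1 => hd.cyc a b c (h _ _ _ h1), fun a b c h1 => hd.inv a b c (h _ _ _ h1),
    fun a b e f h1 h2 h3 => hd.tri a b e f (h _ _ _ h1) (h _ _ _ h2) (h _ _ _ h3),
    fun a b c i h1 hi hk => hd.split a b c i (h _ _ _ h1) hi fun o => h _ _ _ (hk o),
    fun g₁ g₂ g₃ a b c a' b' c' h1 h2 h3 m1 m2 m3 =>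
      hd.conj g₁ g₂ g₃ a b c a' b' c' (h _ _ _ h1) (h _ _ _ h2) (h _ _ _ h3) m1 m2 m3⟩

theorem sys_pair {G H : Type} [Group G] [Group H] (φ : G →* H) {P : Box → Box → Box → Prop}
    {d : D3G G} {e : D3G H} (hd : Sys P d) (he : Sys P e) :
    Sys P (fun a b c => (φ (d a b c), e a b c)) := by
  refine ⟨fun a b c h => ?_, fun a b c h => ?_, fun a b x f h1 h2 h3 => ?_,
    fun a b c i h hi hk => ?_, fun g₁ g₂ g₃ a b c a' b' c' h1 h2 h3 m1 m2 m3 => ?_⟩
  · rw [hd.cyc a b c h, he.cyc a b c h]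
  · rw [Prod.mk_mul_mk, ← map_mul, hd.inv a b c h, he.inv a b c h, map_one]
    rfl
  · rw [Prod.mk_mul_mk, ← map_mul, hd.tri a b x f h1 h2 h3, he.tri a b x f h1 h2 h3]
  · rw [Prod.mk_mul_mk, Prod.mk_mul_mk, ← map_mul, ← map_mul, ← hd.split a b c i h hi hk,
      ← he.split a b c i h hi hk]
  · rw [Prod.mk_mul_mk, Prod.mk_mul_mk, ← map_mul, ← map_mul,
      hd.conj g₁ g₂ g₃ a b c a' b' c' h1 h2 h3 m1 m2 m3,
      he.conj g₁ g₂ g₃ a b c a' b' c' h1 h2 h3 m1 m2 m3]

theorem iter (hU : Up) {G : Type} [Group G] (d : D3G G) (hd : Sys (Lw 3) d) :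
    ∃ s : ℕ → D3G G, s 0 = d ∧ (∀ n, Sys (Lw (n + 3)) (s n)) ∧
      ∀ n a b c, Lw (n + 3) a b c → s (n + 1) a b c = s n a b c := by
  have h : ∀ (n : ℕ) (e : {e : D3G G // Sys (Lw (n + 3)) e}),
      ∃ e' : {e : D3G G // Sys (Lw (n + 1 + 3)) e},
        ∀ a b c, Lw (n + 3) a b c → e'.1 a b c = e.1 a b c := by
    intro n e
    obtain ⟨e', h1, h2⟩ := hU G (n + 3) e.1 (by omega) e.2
    exact ⟨⟨e', h1⟩, h2⟩
  choose f hf using h
  let s : ∀ n : ℕ, {e : D3G G // Sys (Lw (n + 3)) e} := fun n =>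
    Nat.rec (motive := fun n => {e : D3G G // Sys (Lw (n + 3)) e}) ⟨d, hd⟩ f n
  exact ⟨fun n => (s n).1, rfl, fun n => (s n).2, fun n a b c h => hf n (s n) a b c h⟩

theorem agree {G : Type} {s : ℕ → D3G G}
    (hs : ∀ n a b c, Lw (n + 3) a b c → s (n + 1) a b c = s n a b c) {n m : ℕ} (hnm : n ≤ m)
    {a b c : Box} (h : Lw (n + 3) a b c) : s m a b c = s n a b c := by
  induction m, hnm using Nat.le_induction with
  | base => rfl
  | succ m hm ih =>
    rw [hs m a b c ⟨h.1, h.2.trans (by omega)⟩, ih]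

theorem limit (hU : Up) {G : Type} [Group G] (d : D3G G) (hd : Sys (Lw 3) d) :
    ∃ e : D3G G, Sys Dc e ∧ ∀ a b c, Lw 3 a b c → e a b c = d a b c := by
  obtain ⟨s, h0, h1, h2⟩ := iter hU d hd
  have ev : ∀ {N : ℕ} {a b c : Box}, Dc a b c → wt a.2 ≤ N →
      s (wt a.2) a b c = s N a b c := fun {N a b c} h hN =>
    (agree h2 hN ⟨h, by omega⟩).symm
  have lw : ∀ {N : ℕ} {a b c : Box}, Dc a b c → wt a.2 ≤ N → Lw (N + 3) a b c :=
    fun {N a b c} h hN => ⟨h, by omega⟩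
  refine ⟨fun a b c => s (wt a.2) a b c, ?_, fun a b c h => ?_⟩
  swap
  · rw [← h0]
    exact agree h2 (Nat.zero_le _) h
  have rot : ∀ a b c, Dc a b c → Dc b c a ∧ Dc a c b := by
    rintro a b c ⟨⟨t1, t2, t3, t4⟩, ⟨-, u2, u3, u4⟩, v1, v2, v3⟩
    exact ⟨⟨⟨t2, u2, t3.symm.trans u3, t4.symm.trans u4⟩, ⟨t2, t1, t3.symm, t4.symm⟩, v3,
      v1.symm, v2.symm⟩, ⟨t1, u2, u3, u4⟩, ⟨t1, t2, t3, t4⟩, v2, v1, v3.symm⟩
  refine ⟨fun a b c h => ?_, fun a b c h => ?_, fun a b e f k1 k2 k3 => ?_,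
    fun a b c i h hi hk => ?_, fun g₁ g₂ g₃ a b c a' b' c' k1 k2 k3 m1 m2 m3 => ?_⟩
  · rw [ev (N := wt a.2 + wt b.2) h (by omega),
      ev (N := wt a.2 + wt b.2) (rot a b c h).1 (by omega)]
    exact (h1 _).cyc a b c (lw h (by omega))
  · exact (h1 _).inv a b c (lw h le_rfl)
  · rw [ev (N := wt a.2 + wt b.2) k1 (by omega), ev (N := wt a.2 + wt b.2) k2 (by omega),
      ev (N := wt a.2 + wt b.2) k3 (by omega)]
    exact (h1 _).tri a b e f (lw k1 (by omega)) (lw k2 (by omega)) (lw k3 (by omega))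
  · obtain ⟨N, n0, n1, n2, n3⟩ : ∃ N, wt a.2 ≤ N ∧ wt (kd a i none).2 ≤ N ∧
        wt (kd a i (some false)).2 ≤ N ∧ wt (kd a i (some true)).2 ≤ N :=
      ⟨wt a.2 + wt (kd a i none).2 + wt (kd a i (some false)).2 + wt (kd a i (some true)).2,
        by omega, by omega, by omega, by omega⟩
    rw [ev h n0, ev (hk none) n1, ev (hk (some false)) n2, ev (hk (some true)) n3]
    refine (h1 _).split a b c i (lw h n0) hi fun o => ?_
    rcases o with _ | _ | _
    · exact lw (hk none) n1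
    · exact lw (hk (some false)) n2
    · exact lw (hk (some true)) n3
  · obtain ⟨N, n0, n1, n2⟩ : ∃ N, wt g₁.2 ≤ N ∧ wt a.2 ≤ N ∧ wt a'.2 ≤ N :=
      ⟨wt g₁.2 + wt a.2 + wt a'.2, by omega, by omega, by omega⟩
    rw [ev k1 n0, ev k2 n1, ev k3 n2]
    exact (h1 _).conj g₁ g₂ g₃ a b c a' b' c' (lw k1 n0) (lw k2 n1) (lw k3 n2) m1 m2 m3

end Presx

open Presx in
theorem pres_main : SpPres := by
  intro hS hU hD hG
  obtain ⟨e, he, he3⟩ := limit hU _ (sys3 hS)
  obtain ⟨d, hd, hde⟩ := hD (PresentedGroup R) e he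
  have hd3 : ∀ a b c, Lw 3 a b c → d a b c = PresentedGroup.mk R (F a b c) := fun a b c h => by
    rw [hde a b c h.1, he3 a b c h]
  have := A_fin hS
  have : Finite R := R_fin hS
  refine ⟨PresentedGroup R, inferInstance, d, inferInstance, hd, fun L hL => ?_,
    fun H _ d' hd' => ?_⟩
  · refine eq_top_iff.2 fun g _ => PresentedGroup.generated_by R _ (fun a => ?_) g
    have h := hL a.1.1 a.1.2.1 a.1.2.2 a.2
    rw [hd3 _ _ _ a.2, F_of a.2] at h
    exact h
  · have h3 : Sys (Lw 3) d' := sys_mono (fun a b c h => hS.dc_tri a b c h.1) hd'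
    let φ : PresentedGroup R →* H :=
      PresentedGroup.toGroup (f := val d') (rels := R) fun r hr => hr.2 H d' h3
    refine ⟨φ, fun a b c h => ?_⟩
    refine hG (H × H) _ (MonoidHom.eqLocus (MonoidHom.fst _ _) (MonoidHom.snd _ _))
      (sys_pair φ hd hd') (fun a b c h => ?_) a b c h
    change φ (d a b c) = d' a b c
    rw [hd3 a b c h, ← F_ev d' h]
    rfl

end Pool.Agent.MP_89edc2_al.R3
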