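import Pool.Agent.MP_89edc2_al.R3.Spec2

/-!
# Row REP: an element acting trivially on the cells lies in a finite stage
-/

namespace Pool.Agent.MP_89edc2_al.R3

namespace Repx

/-- the leaves of two forests are matched by `g` -/
def Mt (g : Equiv.Perm X) (F₁ F₂ : Fin 40 → Tr) : Prop :=
  (∀ r l, LF F₁ r l → ∃ r' l', LF F₂ r' l' ∧ Ty l l' ∧ Car g l l') ∧
    ∀ r' l', LF F₂ r' l' → ∃ r l, LF F₁ r l ∧ Ty l l' ∧ Car g l l'

/-- a pair of forests represents `w` -/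
def RD {G : Type} [Group G] (d : D3G G) (π : G →* Equiv.Perm X) (w : G) (F₁ F₂ : Fin 40 → Tr)
    (M₀ : ℕ) : Prop :=
  OkF M₀ F₁ ∧ OkF M₀ F₂ ∧ Mt (π w) F₁ F₂ ∧
    ∀ (H : Type) (_ : Group H) (K M : ℕ) (p : H →* Equiv.Perm X) (Λ : Subgroup H)
      (B : Box → ℕ → H) (ι : G →* H), M₀ ≤ M → Dat d π K M p Λ B ι →
      (bf B F₂)⁻¹ * ι w * bf B F₁ ∈ Λ

theorem ty_self {a b : Box} (h : Ty a b) : Ty a a := ⟨h.1, h.1, rfl, rfl⟩

theorem ty_root (S : ShapeF) (i : Fin 40) : Ty (root i) (root i) :=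
  ⟨S.id_len 3, S.id_len 3, rfl, rfl⟩

theorem okF_mono (T : TrF) {M M' : ℕ} {F : Fin 40 → Tr} (h : M ≤ M') (hF : OkF M F) :
    OkF M' F := fun i => T.ok_mono M M' _ _ h (hF i)

theorem lf_ty (S : ShapeF) (T : TrF) {M : ℕ} {F : Fin 40 → Tr} (hF : OkF M F) {r l : Box}
    (h : LF F r l) : Ty r l := by
  obtain ⟨i, h⟩ := h
  exact T.lv_ty M _ _ _ _ _ (ty_root S i) (hF i) h

theorem lv_copy (S : ShapeF) (T : TrF) {M : ℕ} {U : Tr} {i : Fin 40} (hU : Ok M (root i) U)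
    {r l : Box} (h : Lv U (root i) (root i) r l) : r.1 = i ∧ l.1 = i := by
  obtain ⟨u, v, -, -, -, -, rfl, rfl, -⟩ := T.lv_par M _ _ _ _ _ (ty_root S i) hU h
  exact ⟨rfl, rfl⟩

theorem lf_disj (S : ShapeF) (T : TrF) {M : ℕ} {F : Fin 40 → Tr} (hF : OkF M F)
    {r l r' l' : Box} (h : LF F r l) (h' : LF F r' l') : l = l' ∨ Disj l l' := by
  obtain ⟨i, h⟩ := h
  obtain ⟨j, h'⟩ := h'
  by_cases hij : i = j
  · subst hij
    rcases T.lv_disj M _ _ _ _ _ _ _ (ty_root S i) (hF i) h h' with e | e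
    · exact Or.inl e.2
    · exact Or.inr e.2
  · refine Or.inr (Or.inl ?_)
    rw [(lv_copy S T (hF i) h).2, (lv_copy S T (hF j) h').2]
    exact hij

theorem okF_gr (T : TrF) {M : ℕ} {F : Fin 40 → Tr} {f : Box → Tr} (hF : OkF M F)
    (hf : ∀ r l, LF F r l → Ok M r (f l)) : OkF M (grF F f) := fun i =>
  (T.gr_ok M _ _ _ f).2 ⟨hF i, fun r l h => hf r l ⟨i, h⟩⟩

/-- one half of the matching after grafting -/
theorem half (S : ShapeF) (T : TrF) {M : ℕ} {F₁ F₂ : Fin 40 → Tr} {f f' : Box → Tr}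
    (Q : Box → Box → Prop) (h₁ : OkF M F₁) (h₂ : OkF M F₂)
    (hf : ∀ r l, LF F₁ r l → Ok M r (f l))
    (hQ : ∀ l l', Q l l' → Ty l l' ∧ f l = f' l' ∧
      ∀ v : Shape, v.length = ar l.2 → Q (sb l v) (sb l' v))
    (hm : ∀ r l, LF F₁ r l → ∃ r' l', LF F₂ r' l' ∧ Q l l') :
    ∀ r l, LF (grF F₁ f) r l → ∃ r' l', LF (grF F₂ f') r' l' ∧ Q l l' := by
  rintro r l ⟨i, h⟩
  obtain ⟨r₀, l₀, h₀, h⟩ := (T.lv_gr _ _ _ _ _ _).1 h
  obtain ⟨r₁, l₁, ⟨j, hj⟩, hq⟩ := hm r₀ l₀ ⟨i, h₀⟩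
  obtain ⟨ht, he, hs⟩ := hQ _ _ hq
  have t₀ : Ty r₀ l₀ := lf_ty S T h₁ ⟨i, h₀⟩
  have t₁ : Ty r₁ l₁ := lf_ty S T h₂ ⟨j, hj⟩
  have t₂ : Ty r₀ l₁ := S.ty_trans _ _ _ t₀ ht
  have t₃ : Ty r₀ r₁ := S.ty_trans _ _ _ t₂ (S.ty_symm _ _ t₁)
  obtain ⟨u, v, -, hv, -, -, rfl, rfl, hp⟩ := T.lv_par M _ _ _ _ _ t₀ (hf _ _ ⟨i, h₀⟩) h
  refine ⟨sb r₁ u, sb l₁ v, ⟨j, (T.lv_gr _ _ _ _ _ _).2 ⟨r₁, l₁, hj, ?_⟩⟩,
    hs v (hv.trans t₀.2.2.1)⟩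
  rw [← he]
  exact hp _ _ t₃ t₂

variable {G : Type} [Group G] {d : D3G G} {π : G →* Equiv.Perm X}

theorem rd_mono (T : TrF) {w : G} {F₁ F₂ : Fin 40 → Tr} {M₀ M₁ : ℕ} (h : RD d π w F₁ F₂ M₀)
    (hM : M₀ ≤ M₁) : RD d π w F₁ F₂ M₁ :=
  ⟨okF_mono T hM h.1, okF_mono T hM h.2.1, h.2.2.1,
    fun H _ K M p Λ B ι hh hD => h.2.2.2 H _ K M p Λ B ι (hM.trans hh) hD⟩

/-- expansion of a pair of forests -/
theorem rd_exp (S : ShapeF) (E : SemF) (T : TrF) (hA : Act d π) {w : G} {F₁ F₂ : Fin 40 → Tr}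
    {M₀ : ℕ} (h : RD d π w F₁ F₂ M₀) {f f' : Box → Tr}
    (hf' : ∀ r l, LF F₂ r l → Ok M₀ r (f' l))
    (he : ∀ l l', Ty l l' → Car (π w) l l' → f l = f' l') :
    RD d π w (grF F₁ f) (grF F₂ f') M₀ := by
  obtain ⟨h₁, h₂, ⟨m₁, m₂⟩, hl⟩ := h
  have tr : ∀ r l r' l', LF F₁ r l → LF F₂ r' l' → Ty l l' → Ty r r' := fun r l r' l' a b c =>
    S.ty_trans _ _ _ (S.ty_trans _ _ _ (lf_ty S T h₁ a) c) (S.ty_symm _ _ (lf_ty S T h₂ b))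
  have hf : ∀ r l, LF F₁ r l → Ok M₀ r (f l) := by
    intro r l a
    obtain ⟨r', l', b, c, e⟩ := m₁ r l a
    rw [he l l' c e]
    exact T.ok_ty _ _ _ _ (S.ty_symm _ _ (tr _ _ _ _ a b c)) (hf' _ _ b)
  have o₁ := okF_gr T h₁ hf
  have o₂ := okF_gr T h₂ hf'
  refine ⟨o₁, o₂, ⟨?_, ?_⟩, ?_⟩
  · refine half S T (fun l l' => Ty l l' ∧ Car (π w) l l') h₁ h₂ hf ?_ m₁
    rintro l l' ⟨a, b⟩
    exact ⟨a, he _ _ a b, fun v hv => ⟨S.ty_sb _ _ v a hv, E.car_sb _ _ _ v a hv b⟩⟩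
  · refine half S T (fun l' l => Ty l l' ∧ Car (π w) l l') h₂ h₁ hf' ?_ m₂
    rintro l' l ⟨a, b⟩
    refine ⟨S.ty_symm _ _ a, (he _ _ a b).symm, fun v hv => ?_⟩
    have hv' : v.length = ar l.2 := hv.trans a.2.2.1.symm
    exact ⟨S.ty_sb _ _ v a hv', E.car_sb _ _ _ v a hv' b⟩
  · intro H _ K M p Λ B ι hM hD
    have hm := hl H _ K M p Λ B ι hM hD
    obtain ⟨x, x', e₁, e₂, e₃⟩ := hD.fo.expand F₁ F₂ f f'
      (fun l l' => Ty l l' ∧ Car (π w) l l') _ hm (okF_mono T hM o₁) (okF_mono T hM o₂) m₁ m₂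
      (fun l l₁ l₂ a b => E.car_uniq _ _ _ _ a.1 b.1 a.2 b.2)
      (fun l₁ l₂ l' a b => E.car_uniq _ _ _ _ (S.ty_symm _ _ a.1) (S.ty_symm _ _ b.1)
        (E.car_inv _ _ _ a.1 a.2) (E.car_inv _ _ _ b.1 b.2))
      (by
        rintro r l r' l' a b ⟨c, e⟩
        refine ⟨tr _ _ _ _ a b c, ?_, he _ _ c e⟩
        have c₁ := hD.fo.carry F₁ r l (okF_mono T hM h₁) a
        have c₂ := E.carK_inv _ _ _ _ (lf_ty S T h₂ b)
          (hD.fo.carry F₂ r' l' (okF_mono T hM h₂) b)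
        have c₃ : CarK K (p (ι w)) l l' := by
          rw [hD.pi]
          exact (E.res_carK K _ (hA.mem w) _ _).2 (E.car_K K _ _ _ e)
        have c₄ := E.carK_mul _ _ _ _ _ _ (lf_ty S T h₁ a) c₁
          (E.carK_mul _ _ _ _ _ _ c c₃ c₂)
        rw [map_mul, map_mul, map_inv]
        exact c₄)
    have : (bf B (grF F₂ f'))⁻¹ * ι w * bf B (grF F₁ f) =
        (bf B F₂)⁻¹ * ι w * bf B F₁ := by
      calc _ = x'⁻¹ * (((bf B F₂)⁻¹ * ι w * bf B F₁) * x) := by rw [e₁, e₂]; group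
        _ = _ := by rw [e₃, inv_mul_cancel_left]
    rw [this]
    exact hm

theorem rd_exp₂ (S : ShapeF) (E : SemF) (T : TrF) (hA : Act d π) {w : G} {F₁ F₂ : Fin 40 → Tr}
    {M₀ : ℕ} (h : RD d π w F₁ F₂ M₀) {f' : Box → Tr}
    (hf' : ∀ r l, LF F₂ r l → Ok M₀ r (f' l)) : ∃ F, RD d π w F (grF F₂ f') M₀ := by
  classical
  refine ⟨_, rd_exp S E T hA h hf'
    (f := fun l => if h : ∃ l', Ty l l' ∧ Car (π w) l l' then f' h.choose else Tr.leaf) ?_⟩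
  intro l l' a b
  have hx : ∃ l', Ty l l' ∧ Car (π w) l l' := ⟨l', a, b⟩
  rw [dif_pos hx, E.car_uniq _ _ _ _ hx.choose_spec.1 a hx.choose_spec.2 b]

theorem rd_inv (S : ShapeF) (E : SemF) {w : G} {F₁ F₂ : Fin 40 → Tr} {M₀ : ℕ}
    (h : RD d π w F₁ F₂ M₀) : RD d π w⁻¹ F₂ F₁ M₀ := by
  obtain ⟨h₁, h₂, ⟨m₁, m₂⟩, hl⟩ := h
  refine ⟨h₂, h₁, ⟨?_, ?_⟩, ?_⟩
  · intro r l a
    obtain ⟨r', l', b, c, e⟩ := m₂ r l a
    exact ⟨r', l', b, S.ty_symm _ _ c, by rw [map_inv]; exact E.car_inv _ _ _ c e⟩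
  · intro r l a
    obtain ⟨r', l', b, c, e⟩ := m₁ r l a
    exact ⟨r', l', b, S.ty_symm _ _ c, by rw [map_inv]; exact E.car_inv _ _ _ c e⟩
  · intro H _ K M p Λ B ι hM hD
    have hm := Λ.inv_mem (hl H _ K M p Λ B ι hM hD)
    have : (bf B F₁)⁻¹ * ι w⁻¹ * bf B F₂ = ((bf B F₂)⁻¹ * ι w * bf B F₁)⁻¹ := by
      rw [map_inv]; group
    rw [this]
    exact hm

theorem rd_exp₁ (S : ShapeF) (E : SemF) (T : TrF) (hA : Act d π) {w : G} {F₁ F₂ : Fin 40 → Tr}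
    {M₀ : ℕ} (h : RD d π w F₁ F₂ M₀) {f : Box → Tr}
    (hf : ∀ r l, LF F₁ r l → Ok M₀ r (f l)) : ∃ F, RD d π w (grF F₁ f) F M₀ := by
  obtain ⟨F, hF⟩ := rd_exp₂ S E T hA (rd_inv S E h) hf
  have := rd_inv S E hF
  rw [inv_inv] at this
  exact ⟨F, this⟩

/-- grafting a forest up to the grid -/
theorem to_grid (S : ShapeF) (T : TrF) {M n : ℕ} {F : Fin 40 → Tr} {f : Box → Tr}
    (hF : OkF M F) (hn : M < n) (hf : ∀ l, Grid n l (f l)) :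
    (∀ r l, LF F r l → Ok (3 * n) r (f l)) ∧ ∀ i, Grid n (root i) (grF F f i) := by
  refine ⟨fun r l h => ?_, fun i => T.gr_grid n M _ _ _ f (ty_root S i) (hF i) hn hf⟩
  have t := lf_ty S T hF h
  refine T.grid_ok n _ _ _ _ t (S.dg_le _ _ ?_) le_rfl (hf l)
  obtain ⟨i, h⟩ := h
  have h0 : dg (root i).2 = 0 := S.id_dg 3
  have := T.lv_dg M _ _ _ _ _ (by omega) (hF i) h
  have := t.2.2.2
  omega

theorem grid_lf (T : TrF) {n : ℕ} {F F' : Fin 40 → Tr} (h : ∀ i, Grid n (root i) (F i))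
    (h' : ∀ i, Grid n (root i) (F' i)) {r l : Box} (a : LF F r l) : ∃ r', LF F' r' l := by
  obtain ⟨i, a⟩ := a
  obtain ⟨r', b⟩ := T.grid_lv n _ _ _ _ _ _ (h i) (h' i) a
  exact ⟨r', i, b⟩

theorem rd_mul (S : ShapeF) (E : SemF) (T : TrF) (hA : Act d π) {w w' : G}
    {F₁ F₂ F₃ F₄ : Fin 40 → Tr} {M₁ M₂ : ℕ} (h : RD d π w F₁ F₂ M₁) (h' : RD d π w' F₃ F₄ M₂) :
    ∃ F F' M, RD d π (w' * w) F F' M := by
  choose f hf using T.grid_ex (M₁ + M₂ + 1)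
  obtain ⟨a₁, a₂⟩ := to_grid S T h.2.1 (by omega) hf
  obtain ⟨b₁, b₂⟩ := to_grid S T h'.1 (by omega) hf
  obtain ⟨F, h₁, -, ⟨m₁, m₂⟩, hl⟩ := rd_exp₂ S E T hA (rd_mono T h (by omega)) a₁
  obtain ⟨F', -, h₄, ⟨m₃, m₄⟩, hl'⟩ := rd_exp₁ S E T hA (rd_mono T h' (by omega)) b₁
  refine ⟨F, F', 3 * (M₁ + M₂ + 1) + 2, okF_mono T (by omega) h₁, okF_mono T (by omega) h₄,
    ⟨?_, ?_⟩, ?_⟩
  · intro r l a
    obtain ⟨r₂, l₂, b, c, e⟩ := m₁ r l a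
    obtain ⟨r₃, b'⟩ := grid_lf T a₂ b₂ b
    obtain ⟨r₄, l₄, b'', c', e'⟩ := m₃ r₃ l₂ b'
    exact ⟨r₄, l₄, b'', S.ty_trans _ _ _ c c', by
      rw [map_mul]; exact E.car_mul _ _ _ _ _ c e e'⟩
  · intro r₄ l₄ a
    obtain ⟨r₃, l₂, b, c', e'⟩ := m₄ r₄ l₄ a
    obtain ⟨r₂, b'⟩ := grid_lf T b₂ a₂ b
    obtain ⟨r, l, b'', c, e⟩ := m₂ r₂ l₂ b'
    exact ⟨r, l, b'', S.ty_trans _ _ _ c c', by
      rw [map_mul]; exact E.car_mul _ _ _ _ _ c e e'⟩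
  · intro H _ K M p Λ B ι hM hD
    have q₁ := hl H _ K M p Λ B ι (by omega) hD
    have q₂ := hl' H _ K M p Λ B ι (by omega) hD
    have q₃ := hD.fo.same _ _ _ hM a₂ b₂
    have : (bf B F')⁻¹ * ι (w' * w) * bf B F = ((bf B F')⁻¹ * ι w' * bf B (grF F₃ f)) *
        ((bf B (grF F₃ f))⁻¹ * bf B (grF F₂ f)) * ((bf B (grF F₂ f))⁻¹ * ι w * bf B F) := by
      rw [map_mul]; group
    rw [this]
    exact Λ.mul_mem (Λ.mul_mem q₂ q₃) q₁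

theorem rd_one (S : ShapeF) (E : SemF) (T : TrF) :
    RD d π 1 (fun _ => Tr.leaf) (fun _ => Tr.leaf) 0 := by
  have ho : OkF 0 fun _ => Tr.leaf := fun _ => trivial
  have hc : ∀ l, Car (π 1) l l := fun l => by rw [map_one]; exact (E.car_one 0 l).1
  refine ⟨ho, ho, ⟨fun r l a => ⟨r, l, a, ty_self (S.ty_symm _ _ (lf_ty S T ho a)), hc l⟩,
    fun r l a => ⟨r, l, a, ty_self (S.ty_symm _ _ (lf_ty S T ho a)), hc l⟩⟩, ?_⟩
  intro H _ K M p Λ B ι _ _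
  rw [map_one, mul_one, inv_mul_cancel]
  exact Λ.one_mem

/-- a forest with three given leaves in different copies -/
theorem forest_ex (T : TrF) {a b c : Box} (h : Dc a b c) :
    ∃ F ra rb rc, OkF (dg a.2) F ∧ LF F ra a ∧ LF F rb b ∧ LF F rc c := by
  obtain ⟨hab, hac, n₁, n₂, n₃⟩ := h
  obtain ⟨Ta, ra, oa, la⟩ := T.leaf_ex a hab.1
  obtain ⟨Tb, rb, ob, lb⟩ := T.leaf_ex b hab.2.1
  obtain ⟨Tc, rc, oc, lc⟩ := T.leaf_ex c hac.2.1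
  rw [← hab.2.2.2] at ob
  rw [← hac.2.2.2] at oc
  refine ⟨fun i => if i = a.1 then Ta else if i = b.1 then Tb else if i = c.1 then Tc
    else Tr.leaf, ra, rb, rc, fun i => ?_, ⟨a.1, ?_⟩, ⟨b.1, ?_⟩, ⟨c.1, ?_⟩⟩
  · by_cases h₁ : i = a.1
    · simp only [if_pos h₁]
      rw [h₁]
      exact oa
    · by_cases h₂ : i = b.1
      · simp only [if_neg h₁, if_pos h₂]
        rw [h₂]
        exact ob
      · by_cases h₃ : i = c.1
        · simp only [if_neg h₁, if_neg h₂, if_pos h₃]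
          rw [h₃]
          exact oc
        · simp only [if_neg h₁, if_neg h₂, if_neg h₃]
          trivial
  · simp only [if_true]
    exact la
  · simp only [if_neg n₁.symm, if_true]
    exact lb
  · simp only [if_neg n₂.symm, if_neg n₃.symm, if_true]
    exact lc

theorem lf_ref (S : ShapeF) (T : TrF) {M : ℕ} {F : Fin 40 → Tr} (hF : OkF M F) {r l : Box}
    (h : LF F r l) : RB r ∧ r.1 = l.1 := by
  obtain ⟨i, h⟩ := h
  have := lv_copy S T (hF i) h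
  exact ⟨T.lv_rb _ _ _ _ _ (S.rb_root i) h, this.1.trans this.2.symm⟩

theorem rd_gen (S : ShapeF) (E : SemF) (T : TrF) (hA : Act d π) {a b c : Box} (h : Dc a b c) :
    ∃ F F' M, RD d π (d a b c) F F' M := by
  obtain ⟨F, ra, rb, rc, hF, la, lb, lc⟩ := forest_ex T h
  have ht := S.dc_tri _ _ _ h
  obtain ⟨c₁, c₂, c₃, -⟩ := E.cyc_spec _ _ _ ht
  obtain ⟨hab, hac, n₁, n₂, n₃⟩ := h
  have hbc : Ty b c := S.ty_trans _ _ _ (S.ty_symm _ _ hab) hac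
  have hca : Ty c a := S.ty_symm _ _ hac
  have key : ∀ r l, LF F r l → l = a ∨ l = b ∨ l = c ∨ (Ty l l ∧ Car (cyc a b c) l l) := by
    intro r l hl
    rcases lf_disj S T hF hl la with e₁ | e₁
    · exact Or.inl e₁
    rcases lf_disj S T hF hl lb with e₂ | e₂
    · exact Or.inr (Or.inl e₂)
    rcases lf_disj S T hF hl lc with e₃ | e₃
    · exact Or.inr (Or.inr (Or.inl e₃))
    have t := S.ty_symm _ _ (lf_ty S T hF hl)
    exact Or.inr (Or.inr (Or.inr ⟨ty_self t, E.mv_car _ _ _ _ _ ht t.1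
      (Or.inr (Or.inr (Or.inr ⟨rfl, e₁, e₂, e₃⟩)))⟩))
  refine ⟨F, F, dg a.2, hF, hF, ?_, ?_⟩
  · rw [hA.pd _ _ _ ht]
    constructor
    · intro r l hl
      rcases key r l hl with rfl | rfl | rfl | e
      · exact ⟨rb, b, lb, hab, c₁⟩
      · exact ⟨rc, c, lc, hbc, c₂⟩
      · exact ⟨ra, a, la, hca, c₃⟩
      · exact ⟨r, l, hl, e⟩
    · intro r l hl
      rcases key r l hl with rfl | rfl | rfl | e
      · exact ⟨rc, c, lc, hca, c₃⟩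
      · exact ⟨ra, a, la, hab, c₁⟩
      · exact ⟨rb, b, lb, hbc, c₂⟩
      · exact ⟨r, l, hl, e⟩
  · intro H _ K M p Λ B ι hM hD
    have hF' := okF_mono T hM hF
    have ta := lf_ty S T hF la
    have tb := lf_ty S T hF lb
    have tc := lf_ty S T hF lc
    obtain ⟨ba, ea⟩ := lf_ref S T hF la
    obtain ⟨bb, eb⟩ := lf_ref S T hF lb
    obtain ⟨bc, ec⟩ := lf_ref S T hF lc
    refine hD.rep _ ra rb rc a b c
      ⟨S.ty_trans _ _ _ (S.ty_trans _ _ _ ta hab) (S.ty_symm _ _ tb),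
        S.ty_trans _ _ _ (S.ty_trans _ _ _ ta hac) (S.ty_symm _ _ tc),
        Or.inl ?_, Or.inl ?_, Or.inl ?_⟩ ⟨ba, ta.2.2.2.trans_le hM⟩ bb bc ht ta
      (hD.fo.carry F _ _ hF' la) (hD.fo.carry F _ _ hF' lb) (hD.fo.carry F _ _ hF' lc)
    · rw [ea, eb]; exact n₁
    · rw [ea, ec]; exact n₂
    · rw [eb, ec]; exact n₃

/-- every element is represented -/
theorem rd_all (S : ShapeF) (E : SemF) (T : TrF) (hU : Univ d) (hA : Act d π) (w : G) :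
    ∃ F F' M, RD d π w F F' M := by
  let L : Subgroup G :=
    { carrier := {w | ∃ F F' M, RD d π w F F' M}
      one_mem' := ⟨_, _, _, rd_one S E T⟩
      mul_mem' := by
        rintro x y ⟨F₃, F₄, M₂, h'⟩ ⟨F₁, F₂, M₁, h⟩
        exact rd_mul S E T hA h h'
      inv_mem' := by
        rintro x ⟨F₁, F₂, M, h⟩
        exact ⟨_, _, _, rd_inv S E h⟩ }
  have hL : L = ⊤ := hU.gen L fun a b c h => rd_gen S E T hA h.1
  have : w ∈ L := by rw [hL]; exact Subgroup.mem_top w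
  exact this

end Repx

open Repx in
/-- Row REP. -/
theorem rep_main : SpRep := by
  intro S E T G _ d π hU hA hD w hw
  obtain ⟨F₁, F₂, M₀, h⟩ := rd_all S E T hU hA w
  choose f hf using T.grid_ex (M₀ + 1)
  obtain ⟨-, a₂⟩ := to_grid S T h.1 (Nat.lt_succ_self M₀) hf
  obtain ⟨b₁, b₂⟩ := to_grid S T h.2.1 (Nat.lt_succ_self M₀) hf
  have h' : RD d π w (grF F₁ f) (grF F₂ f) (3 * (M₀ + 1)) := by
    refine rd_exp S E T hA (rd_mono T h (by omega)) b₁ fun l l' a b => ?_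
    rw [hw] at b
    rw [E.car_uniq _ _ _ _ (ty_self a) a (E.car_one 0 l).1 b]
  obtain ⟨H, _, K, M, p, Λ, B, ι, hM, D⟩ := hD (3 * (M₀ + 1) + 2)
  have q₁ := h'.2.2.2 H _ K M p Λ B ι (by omega) D
  have q₂ := D.fo.same _ _ _ hM b₂ a₂
  have q₃ := Λ.mul_mem q₂ q₁
  have e : (bf B (grF F₁ f))⁻¹ * bf B (grF F₂ f) *
      ((bf B (grF F₂ f))⁻¹ * ι w * bf B (grF F₁ f)) =
      (bf B (grF F₁ f))⁻¹ * ι w * bf B (grF F₁ f) := by group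
  rw [e] at q₃
  have q₄ := D.inj _ q₃ (by
    rw [map_mul, map_mul, D.pi, hw, E.res_one, mul_one, ← map_mul, inv_mul_cancel, map_one])
  refine ⟨K, D.ker w ?_⟩
  calc ι w = bf B (grF F₁ f) * ((bf B (grF F₁ f))⁻¹ * ι w * bf B (grF F₁ f)) *
      (bf B (grF F₁ f))⁻¹ := by group
    _ = 1 := by rw [q₄, mul_one, mul_inv_cancel]

end Pool.Agent.MP_89edc2_al.R3
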