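import Pool.Agent.MP_89edc2_al.R3.Spec2

/-!
# Residual finiteness from the normal form
-/

namespace Pool.Agent.MP_89edc2_al.R3

namespace Rfx

/-- boxes of large degree, and points -/
def D (K : ℕ) (b : Box) : Prop := K < dg b.2 ∨ ar b.2 = 0

/-- agreement on low levels -/
def E (K : ℕ) (g h : Equiv.Perm X) : Prop := ∀ x, lev x ≤ K → g x = h x

variable {G : Type} [Group G]

/-- the cycles of large degree are killed -/
def cut (K : ℕ) (d : D3G G) : D3G G := fun a b c => if K < dg a.2 then 1 else d a b c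

theorem cut_hi {K : ℕ} (d : D3G G) {a : Box} (b c : Box) (h : K < dg a.2) : cut K d a b c = 1 :=
  if_pos h

theorem cut_lo {K : ℕ} (d : D3G G) {a : Box} (b c : Box) (h : ¬ K < dg a.2) :
    cut K d a b c = d a b c := if_neg h

theorem deep_D (S : ShapeF) {K : ℕ} {b : Box} (h : Deep (K + 1) b.2) : D K b := by
  rcases Nat.eq_zero_or_pos (ar b.2) with h0 | h0
  · exact Or.inr h0
  · exact Or.inl (S.deep_dg _ _ h h0)

theorem D_sb (S : ShapeF) {K : ℕ} (b : Box) (u : Shape) (h : D K b) (hu : u.length = ar b.2) :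
    D K (sb b u) := by
  rcases h with h | h
  · have e : dg (sb b u).2 = dg b.2 + dg u := S.comp_dg _ _ hu
    exact Or.inl (by omega)
  · have e : ar (sb b u).2 = ar u := S.comp_ar _ _ hu
    have h1 := S.ar_le u
    exact Or.inr (by omega)

theorem kd_dg (S : ShapeF) {a : Box} {i : ℕ} (hi : i < ar a.2) (o : Option Bool) :
    dg a.2 ≤ dg (kd a i o).2 := by
  cases o with
  | none => exact (S.kid_dg0 _ _).ge
  | some e => exact (Nat.le_succ _).trans (S.kid_dg1 _ _ e hi).ge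

/-- a cycle of larger degree does not move a box -/
theorem mv_eq (S : ShapeF) {g₁ g₂ g₃ a a' : Box} (hg : Tri g₁ g₂ g₃) (h : Mv g₁ g₂ g₃ a a')
    (hl : dg a.2 < dg g₁.2) : a' = a := by
  obtain ⟨⟨-, -, a12, d12⟩, ⟨-, -, a13, d13⟩, -⟩ := hg
  rcases h with h | h | h | h
  · have := (S.mo_wt _ _ _ _ a12 h).2.1
    omega
  · have := (S.mo_wt _ _ _ _ (a12.symm.trans a13) h).2.1
    omega
  · have := (S.mo_wt _ _ _ _ a13.symm h).2.1
    omega
  · exact h.1

theorem cut_sys (S : ShapeF) (K : ℕ) {d : D3G G} (hd : Sys Tri d) :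
    Sys (fun a b c => Tri a b c ∧ D K a ∧ D K b ∧ D K c) (cut K d) where
  cyc a b c h := by
    have e : dg a.2 = dg b.2 := h.1.1.2.2.2
    by_cases hK : K < dg a.2
    · rw [cut_hi d _ _ hK, cut_hi d _ _ (e ▸ hK)]
    · rw [cut_lo d _ _ hK, cut_lo d _ _ (e ▸ hK), hd.cyc _ _ _ h.1]
  inv a b c h := by
    by_cases hK : K < dg a.2
    · rw [cut_hi d _ _ hK, cut_hi d _ _ hK, mul_one]
    · rw [cut_lo d _ _ hK, cut_lo d _ _ hK, hd.inv _ _ _ h.1]
  tri a b e f h h1 h2 := by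
    have e1 : dg a.2 = dg b.2 := h.1.1.2.2.2
    by_cases hK : K < dg a.2
    · rw [cut_hi d _ _ hK, cut_hi d _ _ hK, cut_hi d _ _ (e1 ▸ hK), mul_one]
    · rw [cut_lo d _ _ hK, cut_lo d _ _ hK, cut_lo d _ _ (e1 ▸ hK), hd.tri _ _ _ _ h.1 h1.1 h2.1]
  split a b c i h hi _ := by
    have hK : K < dg a.2 := h.2.1.resolve_right (by omega)
    rw [cut_hi d _ _ hK, cut_hi d _ _ (hK.trans_le (kd_dg S hi _)),
      cut_hi d _ _ (hK.trans_le (kd_dg S hi _)), cut_hi d _ _ (hK.trans_le (kd_dg S hi _)),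
      mul_one, mul_one]
  conj g₁ g₂ g₃ a b c a' b' c' hg h h' ha hb hc := by
    have e : dg a.2 = dg a'.2 := (S.mv_ty _ _ _ _ _ hg.1 h.1.1.1 ha).2.2.2
    by_cases hK : K < dg a.2
    · rw [cut_hi d _ _ hK, cut_hi d b' c' (e ▸ hK), mul_one, one_mul]
    · rw [cut_lo d _ _ hK, cut_lo d b' c' (e ▸ hK)]
      by_cases hG : K < dg g₁.2
      · have e1 : dg a.2 = dg b.2 := h.1.1.2.2.2
        have e2 : dg a.2 = dg c.2 := h.1.2.1.2.2.2
        rw [cut_hi d _ _ hG, mul_one, one_mul, mv_eq S hg.1 ha (by omega),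
          mv_eq S hg.1 hb (by omega), mv_eq S hg.1 hc (by omega)]
      · rw [cut_lo d _ _ hG]
        exact hd.conj _ _ _ _ _ _ _ _ _ hg.1 h.1 h'.1 ha hb hc

theorem E_mul (M : SemF) {K : ℕ} {g g' h h' : Equiv.Perm X} (h1 : E K g h) (h2 : E K g' h')
    (hm : h' ∈ Gam) : E K (g * g') (h * h') := fun x hx => by
  rw [Equiv.Perm.mul_apply, Equiv.Perm.mul_apply, h2 x hx]
  exact h1 _ ((M.gam_lev _ hm x).trans_le hx)

theorem E_inv (M : SemF) {K : ℕ} {g h : Equiv.Perm X} (h1 : E K g h) (hm : h ∈ Gam) :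
    E K g⁻¹ h⁻¹ := fun x hx => by
  have h2 := h1 (h⁻¹ x) ((M.gam_lev _ (inv_mem hm) x).trans_le hx)
  rw [Equiv.Perm.inv_eq_iff_eq, h2]
  simp

theorem fk_fin (S : ShapeF) (A : AltF) (K : ℕ) {d : D3G G} (hd : Sys Tri d) :
    (FK d K : Set G).Finite := by
  have h1 : PD {b : Box | b.2.length = 3 ∧ ar b.2 = 0 ∧ dg b.2 ≤ K} :=
    ⟨fun _ ha => ha.1, fun a ha b hb h => S.pts a b (ha.1.trans hb.1.symm) ha.2.1 hb.2.1 h⟩
  refine (A.fin G d hd _ h1 ((S.fin_box K).subset fun b hb => ⟨hb.1, hb.2.2⟩)).subset ?_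
  refine Subgroup.closure_mono ?_
  rintro g ⟨a, b, c, h, h0, hK, rfl⟩
  exact ⟨a, ⟨h.1.1, h0, hK⟩, b, ⟨h.1.2.1, h.1.2.2.1 ▸ h0, h.1.2.2.2 ▸ hK⟩, c,
    ⟨h.2.1.2.1, h.2.1.2.2.1 ▸ h0, h.2.1.2.2.2 ▸ hK⟩, h, rfl⟩

/-- the retraction on the finite group of the low points -/
theorem retr (S : ShapeF) (M : SemF) (hE : Ext) {d : D3G G} {π : G →* Equiv.Perm X} (hU : Univ d)
    (hπ : Act d π) (K : ℕ) : ∃ r : G →* G, (∀ w, r w ∈ FK d K) ∧ (∀ w ∈ FK d K, r w = w) ∧
      ∀ w, E K (π (r w)) (π w) := by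
  obtain ⟨f, hf, hfe⟩ := hE G (cut K d) (D K) ⟨K + 1, fun _ _ h => deep_D S h⟩ (D_sb S)
    (cut_sys S K hU.full)
  obtain ⟨r, hr⟩ := hU.lift G f hf
  have h1 : ∀ a b c, Ty a b → Ty a c → Tri a b c →
      f a b c ∈ FK d K ∧ E K (π (f a b c)) (cyc a b c) := by
    refine S.deep3 (K + 1) (fun a b c => Tri a b c →
      f a b c ∈ FK d K ∧ E K (π (f a b c)) (cyc a b c)) ?_ ?_
    · intro a b c hab hac da db dc h
      rw [hfe a b c h (deep_D S da) (deep_D S db) (deep_D S dc)]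
      by_cases hK : K < dg a.2
      · rw [cut_hi d _ _ hK, map_one]
        refine ⟨one_mem _, fun x hx => ((M.cyc_spec a b c h).2.2.2 x ?_ ?_ ?_).symm⟩ <;>
        · intro hi
          have h2 := (M.in_lev _ x hi).1
          have e1 := hab.2.2.2
          have e2 := hac.2.2.2
          omega
      · rw [cut_lo d _ _ hK, hπ.pd a b c h]
        exact ⟨Subgroup.subset_closure ⟨a, b, c, h, (deep_D S da).resolve_left hK,
          Nat.le_of_not_lt hK, rfl⟩, fun _ _ => rfl⟩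
    · intro a b c i _ _ hi ih h
      have hk := fun o => S.tri_kd a b c i o h hi
      rw [hf.split a b c i h hi hk, M.cyc_sys.split a b c i h hi hk, map_mul, map_mul]
      exact ⟨mul_mem (mul_mem (ih _ (hk _)).1 (ih _ (hk _)).1) (ih _ (hk _)).1,
        E_mul M (E_mul M (ih _ (hk _)).2 (ih _ (hk _)).2 (M.cyc_mem _ _ _ (hk _)))
          (ih _ (hk _)).2 (M.cyc_mem _ _ _ (hk _))⟩
  let L : Subgroup G :=
    { carrier := {w | r w ∈ FK d K ∧ E K (π (r w)) (π w)}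
      one_mem' := ⟨by rw [map_one]; exact one_mem _, fun _ _ => by rw [map_one]⟩
      mul_mem' := fun {v w} hv hw => ⟨by rw [map_mul]; exact mul_mem hv.1 hw.1, by
        rw [map_mul, map_mul, map_mul]
        exact E_mul M hv.2 hw.2 (hπ.mem w)⟩
      inv_mem' := fun {w} hw => ⟨by rw [map_inv]; exact inv_mem hw.1, by
        rw [map_inv, map_inv, map_inv]
        exact E_inv M hw.2 (hπ.mem w)⟩ }
  have hL : L = ⊤ := hU.gen L fun a b c h => by
    have ht := S.dc_tri a b c h.1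
    have h2 := h1 a b c ht.1 ht.2.1 ht
    rw [← hr a b c ht, ← hπ.pd a b c ht] at h2
    exact h2
  have h3 : ∀ w, w ∈ L := fun w => hL ▸ Subgroup.mem_top w
  refine ⟨r, fun w => (h3 w).1, fun w hw => ?_, fun w => (h3 w).2⟩
  have h4 : FK d K ≤ r.eqLocus (MonoidHom.id G) := by
    refine (Subgroup.closure_le _).2 ?_
    rintro g ⟨a, b, c, h, h0, hK, rfl⟩
    change r (d a b c) = d a b c
    rw [hr a b c h, hfe a b c h (Or.inr h0) (Or.inr (h.1.2.2.1 ▸ h0))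
      (Or.inr (h.2.1.2.2.1 ▸ h0)), cut_lo d _ _ (Nat.not_lt.2 hK)]
  exact h4 hw

end Rfx

theorem rf_main : SpRf := by
  intro S M A hE G _ d π hU hπ hN
  rw [Group.residuallyFinite_iff_forall_finiteIndex]
  intro g hg
  have h1 : ∀ K, (g ∈ FK d K → g = 1) ∧ Rfx.E K 1 (π g) := fun K => by
    obtain ⟨r, r1, r2, r3⟩ := Rfx.retr S M hE hU hπ K
    have hf : (r.range : Set G).Finite := (Rfx.fk_fin S A K hU.full).subset (by
      rintro _ ⟨w, rfl⟩
      exact r1 w)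
    have : Finite r.range := hf.to_subtype
    have h2 : r g = 1 := hg r.ker
    refine ⟨fun h => (r2 g h).symm.trans h2, ?_⟩
    have h3 := r3 g
    rwa [h2, map_one] at h3
  obtain ⟨K, hK⟩ := hN g (Equiv.ext fun x => ((h1 (lev x)).2 x le_rfl).symm)
  exact (h1 K).1 hK

end Pool.Agent.MP_89edc2_al.R3
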