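import Pool.Agent.MP_89edc2_al.R3.Spec2

/-!
# The extension in three slots
-/

namespace Pool.Agent.MP_89edc2_al.R3

namespace Rndx

variable {G : Type} [Group G] {l c : ℕ} {d : D3G G} {D : Pat → Chart → Chart → Chart → G}

/-- disjoint from two boxes -/
def O2 (p q z : Box) : Prop := Disj p z ∧ Disj q z

theorem o2 (p q z : Box) (h : z.1 ∉ ({p.1, q.1} : Finset (Fin 40))) : O2 p q z := by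
  simp only [Finset.mem_insert, Finset.mem_singleton, not_or] at h
  exact ⟨Or.inl fun e => h.1 e.symm, Or.inl fun e => h.2 e.symm⟩

theorem nm2 {i j k : Fin 40} (h1 : i ≠ j) (h2 : i ≠ k) : i ∉ ({j, k} : Finset (Fin 40)) := by
  simp [h1, h2]

theorem nm2' {i j k : Fin 40} (h : i ∉ ({j, k} : Finset (Fin 40))) : i ≠ j ∧ i ≠ k := by
  simpa [not_or] using h

theorem nm4' {i a b e f : Fin 40} (h : i ∉ ({a, b, e, f} : Finset (Fin 40))) :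
    i ≠ a ∧ i ≠ b ∧ i ≠ e ∧ i ≠ f := by
  simpa [not_or] using h

theorem nm4 {i a b e f : Fin 40} (h1 : i ≠ a) (h2 : i ≠ b) (h3 : i ≠ e) (h4 : i ≠ f) :
    i ∉ ({a, b, e, f} : Finset (Fin 40)) := by
  simp [h1, h2, h3, h4]

theorem nl3 {i a b e : Fin 40} (h : i ∉ [a, b, e]) : i ≠ a ∧ i ≠ b ∧ i ≠ e := by
  simpa [not_or] using h

theorem mo1 {g g' a a' : Box} (h : Mo g g' a a') : a.1 = g.1 ∧ a'.1 = g'.1 := by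
  obtain ⟨u, -, rfl, rfl⟩ := h
  exact ⟨rfl, rfl⟩

theorem moT (sh : ShapeF) {g₁ g₂ g₃ a a' : Box} (hg : Lw l g₁ g₂ g₃) (h : Mo g₁ g₂ a a')
    (ha : HT l c a) : HT l c a' := by
  have ty := sh.mo_ty _ _ _ _ hg.1.1 h
  exact ⟨ty.2.1, ty.2.2.1.symm.trans ha.2.1, (sh.ty_wt _ _ ty).symm.trans ha.2.2⟩

theorem gdT (sh : ShapeF) (hc : c ≤ 3) {χ : Chart} (h : cd χ + 2 = l) :
    HT l c (gd χ (base c)) :=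
  ⟨sh.ap_len _ _ _, (sh.gd_wt χ _).2.trans (sh.base_cnt c hc), by
    rw [(sh.gd_wt χ _).1]; omega⟩

theorem stay {g₁ g₂ g₃ b : Box} (h1 : b.1 ≠ g₁.1) (h2 : b.1 ≠ g₂.1) (h3 : b.1 ≠ g₃.1) :
    Mv g₁ g₂ g₃ b b :=
  Or.inr (Or.inr (Or.inr ⟨rfl, Or.inl h1, Or.inl h2, Or.inl h3⟩))

theorem go (sh : ShapeF) {g₁ g₂ g₃ : Box} (hg : Lw l g₁ g₂ g₃) : Mv g₁ g₂ g₃ g₁ g₂ :=
  Or.inl (sh.mo_self _ _ hg.1.1.2.2.1)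

/-- Transport of an intertwining relation from the base boxes to all boxes. -/
theorem gl (sh : ShapeF) (bf : BasF) (h3 : 3 ≤ l) (sys : Sys (Lw l) d) {k₁ k₂ k₃ : Box}
    (hk : Lw l k₁ k₂ k₃) (i : Fin 40) {p q p' q' : Fin 40} {O O' : Box → Prop} {x x' : Box → G}
    (hx : X1 l d {p, q} O c x) (hx' : X1 l d {p', q'} O' c x')
    (s : ∀ j, j ≠ k₁.1 → j ≠ k₂.1 → j ≠ k₃.1 → j ≠ i → j ≠ p ∧ j ≠ q ∧ j ≠ p' ∧ j ≠ q')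
    (hb : ∀ χ : Chart, cd χ + 2 = l → χ.1 ≠ k₁.1 → χ.1 ≠ k₂.1 → χ.1 ≠ k₃.1 → χ.1 ≠ i →
      d k₁ k₂ k₃ * x (gd χ (base c)) = x' (gd χ (base c)) * d k₁ k₂ k₃)
    (b : Box) (hT : HT l c b) (n1 : b.1 ≠ k₁.1) (n2 : b.1 ≠ k₂.1) (n3 : b.1 ≠ k₃.1)
    (n4 : b.1 ≠ i) : d k₁ k₂ k₃ * x b = x' b * d k₁ k₂ k₃ := by
  refine sh.reach l c {k₁.1, k₂.1, k₃.1, i} (fun b => d k₁ k₂ k₃ * x b = x' b * d k₁ k₂ k₃) h3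
    (Finset.card_le_four.trans (by norm_num)) (fun χ h hn => ?_) ?_ b hT (nm4 n1 n2 n3 n4)
  · obtain ⟨a1, a2, a3, a4⟩ := nm4' hn
    exact hb χ h a1 a2 a3 a4
  · intro g₁ g₂ g₃ b b' hg m1 m2 m3 mo hb1 _ hQ
    obtain ⟨a1, a2, a3, a4⟩ := nm4' m1
    obtain ⟨b1, b2, b3, b4⟩ := nm4' m2
    obtain ⟨c1, c2, c3, c4⟩ := nm4' m3
    obtain ⟨e1, e2, e3, e4⟩ := s _ a1 a2 a3 a4
    obtain ⟨f1, f2, f3, f4⟩ := s _ b1 b2 b3 b4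
    obtain ⟨r1, r2, r3, r4⟩ := s _ c1 c2 c3 c4
    have u := hx.mv b b' g₁ g₂ g₃ hb1 hg (nm2 e1 e2) (nm2 f1 f2) (nm2 r1 r2) mo
    have u' := hx'.mv b b' g₁ g₂ g₃ hb1 hg (nm2 e3 e4) (nm2 f3 f4) (nm2 r3 r4) mo
    have cm : d k₁ k₂ k₃ * d g₁ g₂ g₃ = d g₁ g₂ g₃ * d k₁ k₂ k₃ :=
      bf.comm G _ d sys k₁ k₂ k₃ g₁ g₂ g₃ hk hg ⟨Or.inl a1, Or.inl a2, Or.inl a3⟩
        ⟨Or.inl b1, Or.inl b2, Or.inl b3⟩ ⟨Or.inl c1, Or.inl c2, Or.inl c3⟩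
    refine mul_right_cancel (b := d g₁ g₂ g₃) ?_
    calc d k₁ k₂ k₃ * x b' * d g₁ g₂ g₃ = d k₁ k₂ k₃ * d g₁ g₂ g₃ * x b := by
          rw [mul_assoc, ← u, mul_assoc]
      _ = d g₁ g₂ g₃ * (x' b * d k₁ k₂ k₃) := by rw [cm, mul_assoc, hQ]
      _ = x' b' * d k₁ k₂ k₃ * d g₁ g₂ g₃ := by
          rw [← mul_assoc, u', mul_assoc, ← cm, mul_assoc]

/-- the result of the first round -/
def R1 (l c : ℕ) (d : D3G G) (D : Pat → Chart → Chart → Chart → G)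
    (u : Chart → Chart → Box → G) : Prop :=
  ∀ χ₂ χ₃ : Chart, cd χ₂ + 2 = l → cd χ₃ + 2 = l → χ₂.1 ≠ χ₃.1 →
    X1 l d {χ₂.1, χ₃.1} (O2 (gd χ₂ (base c)) (gd χ₃ (base c))) c (u χ₂ χ₃) ∧
    ∀ χ : Chart, cd χ + 2 = l → χ.1 ∉ ({χ₂.1, χ₃.1} : Finset (Fin 40)) →
      u χ₂ χ₃ (gd χ (base c)) = D (base c) χ χ₂ χ₃

/-- the result of the second round -/
def R2 (l c : ℕ) (d : D3G G) (u : Chart → Chart → Box → G) (w : Box → Chart → Box → G) : Prop :=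
  ∀ (a : Box) (χ₃ : Chart), HT l c a → cd χ₃ + 2 = l → a.1 ≠ χ₃.1 →
    X1 l d {a.1, χ₃.1} (O2 a (gd χ₃ (base c))) c (w a χ₃) ∧
    ∀ χ : Chart, cd χ + 2 = l → χ.1 ∉ ({a.1, χ₃.1} : Finset (Fin 40)) →
      w a χ₃ (gd χ (base c)) = u χ χ₃ a

/-- the result of the third round -/
def R3' (l c : ℕ) (d : D3G G) (w : Box → Chart → Box → G) (v : D3G G) : Prop :=
  ∀ a b : Box, HT l c a → HT l c b → a.1 ≠ b.1 →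
    X1 l d {a.1, b.1} (O2 a b) c (v a b) ∧
    ∀ χ : Chart, cd χ + 2 = l → χ.1 ∉ ({a.1, b.1} : Finset (Fin 40)) →
      v a b (gd χ (base c)) = w a χ b

theorem round1 (sh : ShapeF) (os : OneSlot) (h3 : 3 ≤ l) (sys : Sys (Lw l) d) (ds : Dsys l d D)
    (hc : c ≤ 3) : ∃ u, R1 l c d D u := by
  have key : ∀ χ₂ χ₃ : Chart, ∃ x : Box → G, cd χ₂ + 2 = l → cd χ₃ + 2 = l → χ₂.1 ≠ χ₃.1 →
      X1 l d {χ₂.1, χ₃.1} (O2 (gd χ₂ (base c)) (gd χ₃ (base c))) c x ∧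
      ∀ χ : Chart, cd χ + 2 = l → χ.1 ∉ ({χ₂.1, χ₃.1} : Finset (Fin 40)) →
        x (gd χ (base c)) = D (base c) χ χ₂ χ₃ := by
    intro χ₂ χ₃
    by_cases h : cd χ₂ + 2 = l ∧ cd χ₃ + 2 = l ∧ χ₂.1 ≠ χ₃.1
    · obtain ⟨x, hx⟩ := os G l d {χ₂.1, χ₃.1} (O2 (gd χ₂ (base c)) (gd χ₃ (base c))) c
        (fun χ => D (base c) χ χ₂ χ₃) h3 sys Finset.card_le_two
        (o2 (gd χ₂ (base c)) (gd χ₃ (base c))) hc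
        ⟨fun χ g₁ g₂ g₃ h1 hn hg d0 o1 o2 o3 =>
          ds.cm _ χ χ₂ χ₃ g₁ g₂ g₃ ⟨h1, h.1, h.2.1, (nm2' hn).1, (nm2' hn).2, h.2.2⟩ hg
            ⟨sh.disj_symm _ _ d0.1, sh.disj_symm _ _ o1.1, sh.disj_symm _ _ o1.2⟩
            ⟨sh.disj_symm _ _ d0.2.1, sh.disj_symm _ _ o2.1, sh.disj_symm _ _ o2.2⟩
            ⟨sh.disj_symm _ _ d0.2.2, sh.disj_symm _ _ o3.1, sh.disj_symm _ _ o3.2⟩,
        fun χ χ' z h1 h1' hg hn hn' hz =>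
          ds.mv _ χ χ₂ χ₃ χ' χ₂ χ₃ _ _ _ ⟨h1, h.1, h.2.1, (nm2' hn).1, (nm2' hn).2, h.2.2⟩
            ⟨h1', h.1, h.2.1, (nm2' hn').1, (nm2' hn').2, h.2.2⟩ hg
            ⟨go sh hg, stay (nm2' hn).1.symm (nm2' hn').1.symm (nm2' hz).1.symm,
              stay (nm2' hn).2.symm (nm2' hn').2.symm (nm2' hz).2.symm⟩⟩
      exact ⟨x, fun _ _ _ => hx⟩
    · exact ⟨fun _ => 1, fun h1 h2 h4 => absurd ⟨h1, h2, h4⟩ h⟩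
  choose u hu using key
  exact ⟨u, hu⟩

variable {u : Chart → Chart → Box → G} {w : Box → Chart → Box → G} {v : D3G G}

/-- chart moves in the second slot -/
theorem um2 (sh : ShapeF) (bf : BasF) (h3 : 3 ≤ l) (sys : Sys (Lw l) d) (ds : Dsys l d D)
    (r1 : R1 l c d D u) {χ χ' χ₃ : Chart} {z a : Box} (h : cd χ + 2 = l) (h' : cd χ' + 2 = l)
    (h₃ : cd χ₃ + 2 = l) (hg : Lw l (ch χ) (ch χ') z) (e1 : χ₃.1 ≠ χ.1) (e2 : χ₃.1 ≠ χ'.1)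
    (e3 : χ₃.1 ≠ z.1) (ha : HT l c a) (n1 : a.1 ≠ χ.1) (n2 : a.1 ≠ χ'.1) (n3 : a.1 ≠ z.1)
    (n4 : a.1 ≠ χ₃.1) : d (ch χ) (ch χ') z * u χ χ₃ a = u χ' χ₃ a * d (ch χ) (ch χ') z := by
  refine gl sh bf h3 sys hg χ₃.1 (r1 χ χ₃ h h₃ e1.symm).1 (r1 χ' χ₃ h' h₃ e2.symm).1
    (fun j a1 a2 _ a4 => ⟨a1, a4, a2, a4⟩) (fun χ₁ h₁ a1 a2 a3 a4 => ?_) a ha n1 n2 n3 n4
  rw [(r1 χ χ₃ h h₃ e1.symm).2 χ₁ h₁ (nm2 a1 a4), (r1 χ' χ₃ h' h₃ e2.symm).2 χ₁ h₁ (nm2 a2 a4)]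
  exact ds.mv _ χ₁ χ χ₃ χ₁ χ' χ₃ _ _ _ ⟨h₁, h, h₃, a1, a4, e1.symm⟩ ⟨h₁, h', h₃, a2, a4, e2.symm⟩
    hg ⟨stay a1 a2 a3, go sh hg, stay e1 e2 e3⟩

/-- chart moves in the third slot -/
theorem um3 (sh : ShapeF) (bf : BasF) (h3 : 3 ≤ l) (sys : Sys (Lw l) d) (ds : Dsys l d D)
    (r1 : R1 l c d D u) {χ χ' χ₂ : Chart} {z a : Box} (h : cd χ + 2 = l) (h' : cd χ' + 2 = l)
    (h₂ : cd χ₂ + 2 = l) (hg : Lw l (ch χ) (ch χ') z) (e1 : χ₂.1 ≠ χ.1) (e2 : χ₂.1 ≠ χ'.1)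
    (e3 : χ₂.1 ≠ z.1) (ha : HT l c a) (n1 : a.1 ≠ χ.1) (n2 : a.1 ≠ χ'.1) (n3 : a.1 ≠ z.1)
    (n4 : a.1 ≠ χ₂.1) : d (ch χ) (ch χ') z * u χ₂ χ a = u χ₂ χ' a * d (ch χ) (ch χ') z := by
  refine gl sh bf h3 sys hg χ₂.1 (r1 χ₂ χ h₂ h e1).1 (r1 χ₂ χ' h₂ h' e2).1
    (fun j a1 a2 _ a4 => ⟨a4, a1, a4, a2⟩) (fun χ₁ h₁ a1 a2 a3 a4 => ?_) a ha n1 n2 n3 n4
  rw [(r1 χ₂ χ h₂ h e1).2 χ₁ h₁ (nm2 a4 a1), (r1 χ₂ χ' h₂ h' e2).2 χ₁ h₁ (nm2 a4 a2)]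
  exact ds.mv _ χ₁ χ₂ χ χ₁ χ₂ χ' _ _ _ ⟨h₁, h₂, h, a4, a1, e1⟩ ⟨h₁, h₂, h', a4, a2, e2⟩
    hg ⟨stay a1 a2 a3, stay e1 e2 e3, go sh hg⟩

theorem round2 (sh : ShapeF) (bf : BasF) (os : OneSlot) (h3 : 3 ≤ l) (sys : Sys (Lw l) d)
    (ds : Dsys l d D) (hc : c ≤ 3) (r1 : R1 l c d D u) : ∃ w, R2 l c d u w := by
  have key : ∀ (a : Box) (χ₃ : Chart), ∃ x : Box → G, HT l c a → cd χ₃ + 2 = l → a.1 ≠ χ₃.1 →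
      X1 l d {a.1, χ₃.1} (O2 a (gd χ₃ (base c))) c x ∧
      ∀ χ : Chart, cd χ + 2 = l → χ.1 ∉ ({a.1, χ₃.1} : Finset (Fin 40)) →
        x (gd χ (base c)) = u χ χ₃ a := by
    intro a χ₃
    by_cases h : HT l c a ∧ cd χ₃ + 2 = l ∧ a.1 ≠ χ₃.1
    · obtain ⟨x, hx⟩ := os G l d {a.1, χ₃.1} (O2 a (gd χ₃ (base c))) c
        (fun χ => u χ χ₃ a) h3 sys Finset.card_le_two (o2 a (gd χ₃ (base c))) hc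
        ⟨fun χ g₁ g₂ g₃ h1 hn hg d0 o1 o2 o3 =>
          (r1 χ χ₃ h1 h.2.1 (nm2' hn).2).1.cm a g₁ g₂ g₃ h.1 (nm2 (nm2' hn).1.symm h.2.2) hg
            ⟨o1.1, o2.1, o3.1⟩ ⟨d0.1, o1.2⟩ ⟨d0.2.1, o2.2⟩ ⟨d0.2.2, o3.2⟩,
        fun χ χ' z h1 h1' hg hn hn' hz =>
          um2 sh bf h3 sys ds r1 h1 h1' h.2.1 hg (nm2' hn).2.symm (nm2' hn').2.symm
            (nm2' hz).2.symm h.1 (nm2' hn).1.symm (nm2' hn').1.symm (nm2' hz).1.symm h.2.2⟩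
      exact ⟨x, fun _ _ _ => hx⟩
    · exact ⟨fun _ => 1, fun h1 h2 h4 => absurd ⟨h1, h2, h4⟩ h⟩
  choose w hw using key
  exact ⟨w, hw⟩

/-- low moves in the first slot -/
theorem wm1 (sh : ShapeF) (bf : BasF) (h3 : 3 ≤ l) (sys : Sys (Lw l) d) (r1 : R1 l c d D u)
    (r2 : R2 l c d u w) {g₁ g₂ g₃ a a' b : Box} {χ₃ : Chart} (hg : Lw l g₁ g₂ g₃)
    (mo : Mo g₁ g₂ a a') (ha : HT l c a) (h₃ : cd χ₃ + 2 = l) (e1 : χ₃.1 ≠ g₁.1)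
    (e2 : χ₃.1 ≠ g₂.1) (e3 : χ₃.1 ≠ g₃.1) (hb : HT l c b) (n1 : b.1 ≠ g₁.1) (n2 : b.1 ≠ g₂.1)
    (n3 : b.1 ≠ g₃.1) (n4 : b.1 ≠ χ₃.1) :
    d g₁ g₂ g₃ * w a χ₃ b = w a' χ₃ b * d g₁ g₂ g₃ := by
  obtain ⟨p1, p2⟩ := mo1 mo
  have q := r2 a χ₃ ha h₃ (p1 ▸ e1.symm)
  have q' := r2 a' χ₃ (moT sh hg mo ha) h₃ (p2 ▸ e2.symm)
  refine gl sh bf h3 sys hg χ₃.1 q.1 q'.1
    (fun j a1 a2 _ a4 => ⟨p1 ▸ a1, a4, p2 ▸ a2, a4⟩) (fun χ h a1 a2 a3 a4 => ?_) b hb n1 n2 n3 n4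
  rw [q.2 χ h (nm2 (p1 ▸ a1) a4), q'.2 χ h (nm2 (p2 ▸ a2) a4)]
  exact (r1 χ χ₃ h h₃ a4).1.mv a a' g₁ g₂ g₃ ha hg (nm2 a1.symm e1.symm) (nm2 a2.symm e2.symm)
    (nm2 a3.symm e3.symm) mo

/-- chart moves in the third slot -/
theorem wm3 (sh : ShapeF) (bf : BasF) (h3 : 3 ≤ l) (sys : Sys (Lw l) d) (ds : Dsys l d D)
    (r1 : R1 l c d D u) (r2 : R2 l c d u w) {χ χ' : Chart} {z a b : Box} (h : cd χ + 2 = l)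
    (h' : cd χ' + 2 = l) (hg : Lw l (ch χ) (ch χ') z) (ha : HT l c a) (e1 : a.1 ≠ χ.1)
    (e2 : a.1 ≠ χ'.1) (e3 : a.1 ≠ z.1) (hb : HT l c b) (n1 : b.1 ≠ χ.1) (n2 : b.1 ≠ χ'.1)
    (n3 : b.1 ≠ z.1) (n4 : b.1 ≠ a.1) :
    d (ch χ) (ch χ') z * w a χ b = w a χ' b * d (ch χ) (ch χ') z := by
  refine gl sh bf h3 sys hg a.1 (r2 a χ ha h e1).1 (r2 a χ' ha h' e2).1
    (fun j a1 a2 _ a4 => ⟨a4, a1, a4, a2⟩) (fun χ₂ h₂ a1 a2 a3 a4 => ?_) b hb n1 n2 n3 n4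
  rw [(r2 a χ ha h e1).2 χ₂ h₂ (nm2 a4 a1), (r2 a χ' ha h' e2).2 χ₂ h₂ (nm2 a4 a2)]
  exact um3 sh bf h3 sys ds r1 h h' h₂ hg a1 a2 a3 ha e1 e2 e3 a4.symm

theorem round3 (sh : ShapeF) (bf : BasF) (os : OneSlot) (h3 : 3 ≤ l) (sys : Sys (Lw l) d)
    (ds : Dsys l d D) (hc : c ≤ 3) (r1 : R1 l c d D u) (r2 : R2 l c d u w) :
    ∃ v, R3' l c d w v := by
  have key : ∀ a b : Box, ∃ x : Box → G, HT l c a → HT l c b → a.1 ≠ b.1 →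
      X1 l d {a.1, b.1} (O2 a b) c x ∧
      ∀ χ : Chart, cd χ + 2 = l → χ.1 ∉ ({a.1, b.1} : Finset (Fin 40)) →
        x (gd χ (base c)) = w a χ b := by
    intro a b
    by_cases h : HT l c a ∧ HT l c b ∧ a.1 ≠ b.1
    · obtain ⟨x, hx⟩ := os G l d {a.1, b.1} (O2 a b) c
        (fun χ => w a χ b) h3 sys Finset.card_le_two (o2 a b) hc
        ⟨fun χ g₁ g₂ g₃ h1 hn hg d0 o1 o2 o3 =>
          (r2 a χ h.1 h1 (nm2' hn).1.symm).1.cm b g₁ g₂ g₃ h.2.1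
            (nm2 h.2.2.symm (nm2' hn).2.symm) hg
            ⟨o1.2, o2.2, o3.2⟩ ⟨o1.1, d0.1⟩ ⟨o2.1, d0.2.1⟩ ⟨o3.1, d0.2.2⟩,
        fun χ χ' z h1 h1' hg hn hn' hz =>
          wm3 sh bf h3 sys ds r1 r2 h1 h1' hg h.1 (nm2' hn).1.symm (nm2' hn').1.symm
            (nm2' hz).1.symm h.2.1 (nm2' hn).2.symm (nm2' hn').2.symm (nm2' hz).2.symm
            h.2.2.symm⟩
      exact ⟨x, fun _ _ _ => hx⟩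
    · exact ⟨fun _ => 1, fun h1 h2 h4 => absurd ⟨h1, h2, h4⟩ h⟩
  choose v hv using key
  exact ⟨v, hv⟩

theorem vm1 (sh : ShapeF) (bf : BasF) (h3 : 3 ≤ l) (sys : Sys (Lw l) d) (r1 : R1 l c d D u)
    (r2 : R2 l c d u w) (r3 : R3' l c d w v) {g₁ g₂ g₃ a a' b e : Box} (hg : Lw l g₁ g₂ g₃)
    (mo : Mo g₁ g₂ a a') (ha : HT l c a) (hb : HT l c b) (e1 : b.1 ≠ g₁.1) (e2 : b.1 ≠ g₂.1)
    (e3 : b.1 ≠ g₃.1) (he : HT l c e) (n1 : e.1 ≠ g₁.1) (n2 : e.1 ≠ g₂.1) (n3 : e.1 ≠ g₃.1)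
    (n4 : e.1 ≠ b.1) : d g₁ g₂ g₃ * v a b e = v a' b e * d g₁ g₂ g₃ := by
  obtain ⟨p1, p2⟩ := mo1 mo
  have q := r3 a b ha hb (p1 ▸ e1.symm)
  have q' := r3 a' b (moT sh hg mo ha) hb (p2 ▸ e2.symm)
  refine gl sh bf h3 sys hg b.1 q.1 q'.1
    (fun j a1 a2 _ a4 => ⟨p1 ▸ a1, a4, p2 ▸ a2, a4⟩) (fun χ h a1 a2 a3 a4 => ?_) e he n1 n2 n3 n4
  rw [q.2 χ h (nm2 (p1 ▸ a1) a4), q'.2 χ h (nm2 (p2 ▸ a2) a4)]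
  exact wm1 sh bf h3 sys r1 r2 hg mo ha h a1 a2 a3 hb e1 e2 e3 a4.symm

theorem vm2 (sh : ShapeF) (bf : BasF) (h3 : 3 ≤ l) (sys : Sys (Lw l) d)
    (r2 : R2 l c d u w) (r3 : R3' l c d w v) {g₁ g₂ g₃ a b b' e : Box} (hg : Lw l g₁ g₂ g₃)
    (mo : Mo g₁ g₂ b b') (ha : HT l c a) (hb : HT l c b) (e1 : a.1 ≠ g₁.1) (e2 : a.1 ≠ g₂.1)
    (e3 : a.1 ≠ g₃.1) (he : HT l c e) (n1 : e.1 ≠ g₁.1) (n2 : e.1 ≠ g₂.1) (n3 : e.1 ≠ g₃.1)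
    (n4 : e.1 ≠ a.1) : d g₁ g₂ g₃ * v a b e = v a b' e * d g₁ g₂ g₃ := by
  obtain ⟨p1, p2⟩ := mo1 mo
  have q := r3 a b ha hb (p1 ▸ e1)
  have q' := r3 a b' ha (moT sh hg mo hb) (p2 ▸ e2)
  refine gl sh bf h3 sys hg a.1 q.1 q'.1
    (fun j a1 a2 _ a4 => ⟨a4, p1 ▸ a1, a4, p2 ▸ a2⟩) (fun χ h a1 a2 a3 a4 => ?_) e he n1 n2 n3 n4
  rw [q.2 χ h (nm2 a4 (p1 ▸ a1)), q'.2 χ h (nm2 a4 (p2 ▸ a2))]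
  exact (r2 a χ ha h a4.symm).1.mv b b' g₁ g₂ g₃ hb hg (nm2 e1.symm a1.symm)
    (nm2 e2.symm a2.symm) (nm2 e3.symm a3.symm) mo

theorem hi (sh : ShapeF) {a b e : Box} (h : Hi l a b e) :
    ar a.2 ≤ 3 ∧ HT l (ar a.2) a ∧ HT l (ar a.2) b ∧ HT l (ar a.2) e :=
  ⟨(sh.ar_le _).trans h.1.1.1.le, ⟨h.1.1.1, rfl, h.2⟩,
    ⟨h.1.1.2.1, h.1.1.2.2.1.symm, (sh.ty_wt _ _ h.1.1).symm.trans h.2⟩,
    ⟨h.1.2.1.2.1, h.1.2.1.2.2.1.symm, (sh.ty_wt _ _ h.1.2.1).symm.trans h.2⟩⟩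

end Rndx

open Rndx in
theorem rnd_main : SpRnd := by
  intro sh bf os G _ l d D h3 sys ds
  have key : ∀ c : ℕ, ∃ (u : Chart → Chart → Box → G) (w : Box → Chart → Box → G) (v : D3G G),
      c ≤ 3 → R1 l c d D u ∧ R2 l c d u w ∧ R3' l c d w v := by
    intro c
    by_cases hc : c ≤ 3
    · obtain ⟨u, r1⟩ := round1 sh os h3 sys ds hc
      obtain ⟨w, r2⟩ := round2 sh bf os h3 sys ds hc r1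
      obtain ⟨v, r3⟩ := round3 sh bf os h3 sys ds hc r1 r2
      exact ⟨u, w, v, fun _ => ⟨r1, r2, r3⟩⟩
    · exact ⟨fun _ _ _ => 1, fun _ _ _ => 1, fun _ _ _ => 1, fun h => absurd h hc⟩
  choose u w v hr using key
  refine ⟨fun a b e => v (ar a.2) a b e, ?_, ?_, ?_, ?_, ?_⟩
  · intro a b e g₁ g₂ g₃ h hg da db de
    obtain ⟨hc, ha, hb, he⟩ := hi sh h
    exact ((hr _ hc).2.2 a b ha hb h.1.2.2.1).1.cm e g₁ g₂ g₃ he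
      (nm2 h.1.2.2.2.1.symm h.1.2.2.2.2.symm) hg de ⟨da.1, db.1⟩ ⟨da.2.1, db.2.1⟩
      ⟨da.2.2, db.2.2⟩
  · intro a a' b e g₁ g₂ g₃ h hg mo nb ne
    obtain ⟨hc, ha, hb, he⟩ := hi sh h
    have e0 : ar a'.2 = ar a.2 := (moT sh hg mo ha).2.1
    show d g₁ g₂ g₃ * v (ar a.2) a b e = v (ar a'.2) a' b e * d g₁ g₂ g₃
    rw [e0]
    exact vm1 sh bf h3 sys (hr _ hc).1 (hr _ hc).2.1 (hr _ hc).2.2 hg mo ha hb (nl3 nb).1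
      (nl3 nb).2.1 (nl3 nb).2.2 he (nl3 ne).1 (nl3 ne).2.1 (nl3 ne).2.2 h.1.2.2.2.2.symm
  · intro a b b' e g₁ g₂ g₃ h hg mo na ne
    obtain ⟨hc, ha, hb, he⟩ := hi sh h
    exact vm2 sh bf h3 sys (hr _ hc).2.1 (hr _ hc).2.2 hg mo ha hb (nl3 na).1
      (nl3 na).2.1 (nl3 na).2.2 he (nl3 ne).1 (nl3 ne).2.1 (nl3 ne).2.2 h.1.2.2.2.1.symm
  · intro a b e e' g₁ g₂ g₃ h hg mo na nb
    obtain ⟨hc, ha, hb, he⟩ := hi sh h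
    exact ((hr _ hc).2.2 a b ha hb h.1.2.2.1).1.mv e e' g₁ g₂ g₃ he hg
      (nm2 (nl3 na).1.symm (nl3 nb).1.symm) (nm2 (nl3 na).2.1.symm (nl3 nb).2.1.symm)
      (nm2 (nl3 na).2.2.symm (nl3 nb).2.2.symm) mo
  · intro c χ₁ χ₂ χ₃ hc ⟨h1, h2, h4, n12, n13, n23⟩
    have t1 := gdT sh hc h1
    have t2 := gdT sh hc h2
    show v (ar (gd χ₁ (base c)).2) _ _ _ = _
    rw [t1.2.1, ((hr c hc).2.2 _ _ t1 t2 n12).2 χ₃ h4 (nm2 n13.symm n23.symm),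
      ((hr c hc).2.1 _ χ₃ t1 h4 n13).2 χ₂ h2 (nm2 n12.symm n23),
      ((hr c hc).1 χ₂ χ₃ h2 h4 n23).2 χ₁ h1 (nm2 n12 n13)]

end Pool.Agent.MP_89edc2_al.R3
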