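import Pool.Agent.MP_89edc2_al.R3.Spec2

/-!
# The relations among the new elements
-/

namespace Pool.Agent.MP_89edc2_al.R3

open scoped commutatorElement
open Function

namespace Rzx

variable {l c n : ℕ} {G : Type} [Group G] {d x : D3G G}

/-- boxes of one type in different copies -/
def Val (l c : ℕ) {n : ℕ} (v : Fin n → Box) : Prop :=
  (∀ i, HT l c (v i)) ∧ Injective fun i => (v i).1

theorem ty_of (F : ShapeF) {a b : Box} (ha : HT l c a) (hb : HT l c b) : Ty a b := by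
  have e1 := F.wt_ar a.2
  have e2 := F.wt_ar b.2
  obtain ⟨a1, a2, a3⟩ := ha
  obtain ⟨b1, b2, b3⟩ := hb
  exact ⟨a1, b1, by omega, by omega⟩

theorem ht_of (F : ShapeF) {a b : Box} (h : Ty a b) (ha : HT l c a) : HT l c b :=
  ⟨h.2.1, h.2.2.1.symm.trans ha.2.1, (F.ty_wt a b h).symm.trans ha.2.2⟩

theorem hi_of (F : ShapeF) {v : Fin n → Box} (h : Val l c v) {i j k : Fin n} (h1 : i ≠ j)
    (h2 : i ≠ k) (h3 : j ≠ k) : Hi l (v i) (v j) (v k) :=
  ⟨⟨ty_of F (h.1 i) (h.1 j), ty_of F (h.1 i) (h.1 k), h.2.ne h1, h.2.ne h2, h.2.ne h3⟩,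
    (h.1 i).2.2⟩

theorem ht_gd (F : ShapeF) {χ : Chart} (h : cd χ + 2 = l) (t : Pat) : HT l (cnt t) (gd χ t) :=
  ⟨F.ap_len _ _ _, (F.gd_wt χ t).2, by rw [(F.gd_wt χ t).1]; omega⟩

theorem val_up {v : Fin n → Box} (h : Val l c v) (j : Fin n) {b : Box} (hb : HT l c b)
    (hn : ∀ i, i ≠ j → (v i).1 ≠ b.1) : Val l c (update v j b) := by
  refine ⟨fun i => ?_, fun i k e => ?_⟩
  · by_cases e : i = j
    · rwa [e, update_self]
    · rw [update_of_ne e]
      exact h.1 i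
  · by_cases e1 : i = j <;> by_cases e2 : k = j
    · rw [e1, e2]
    · subst e1
      simp only [update_self, update_of_ne e2] at e
      exact absurd e.symm (hn k e2)
    · subst e2
      simp only [update_self, update_of_ne e1] at e
      exact absurd e (hn i e1)
    · simp only [update_of_ne e1, update_of_ne e2] at e
      exact h.2 e

/-- every tuple is reached from the base tuples -/
theorem reachN (F : ShapeF) (hl : 3 ≤ l) (hn : n ≤ 30) (Q : (Fin n → Box) → Prop)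
    (h0 : ∀ χ : Fin n → Chart, (∀ i, cd (χ i) + 2 = l) → (Injective fun i => (χ i).1) →
      Q fun i => gd (χ i) (base c))
    (h1 : ∀ g₁ g₂ g₃ v v', Lw l g₁ g₂ g₃ → Val l c v → Val l c v' →
      (∀ i, Mv g₁ g₂ g₃ (v i) (v' i)) → Q v → Q v') (v : Fin n → Box) (hv : Val l c v) : Q v := by
  have key : ∀ k, ∀ v : Fin n → Box, Val l c v →
      (∀ i : Fin n, k ≤ i.1 → ∃ χ, cd χ + 2 = l ∧ v i = gd χ (base c)) → Q v := by
    intro k
    induction k with
    | zero =>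
      intro v hv hb
      choose χ e1 e2 using fun i => hb i (Nat.zero_le _)
      have e : v = fun i => gd (χ i) (base c) := funext e2
      rw [e] at hv ⊢
      exact h0 χ e1 hv.2
    | succ k ih =>
      intro v hv hb
      by_cases hk : k < n
      swap
      · exact ih v hv fun i hi => absurd (hi.trans_lt i.2) hk
      let j : Fin n := ⟨k, hk⟩
      let S : Finset (Fin 40) := (Finset.univ.erase j).image fun i => (v i).1
      have mem : ∀ i, i ≠ j → (v i).1 ∈ S := fun i hi =>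
        Finset.mem_image_of_mem _ (Finset.mem_erase.2 ⟨hi, Finset.mem_univ _⟩)
      have out : ∀ y, y ∉ S → ∀ i, i ≠ j → (v i).1 ≠ y := fun y hy i hi e => hy (e ▸ mem i hi)
      have c3 : c ≤ 3 := by
        have := F.ar_le (v j).2
        rwa [(hv.1 j).1, (hv.1 j).2.1] at this
      have card : S.card ≤ 30 := Finset.card_image_le.trans
        ((Finset.card_le_univ _).trans ((Fintype.card_fin n).trans_le hn))
      have := F.reach l c S (fun b => Q (update v j b)) hl card (fun χ e1 e2 => ?_)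
        (fun g₁ g₂ g₃ b b' hg o1 o2 o3 hm hb hb' q => ?_) (v j) (hv.1 j) ?_
      · rwa [update_eq_self] at this
      · have ht := ht_gd F e1 (base c)
        rw [F.base_cnt c c3] at ht
        refine ih _ (val_up hv j ht (out _ e2)) fun i hi => ?_
        by_cases e : i = j
        · exact ⟨χ, e1, by rw [e, update_self]⟩
        · rw [update_of_ne e]
          exact hb i (lt_of_le_of_ne hi fun e' => e (Fin.ext e'.symm))
      · have m := hm
        obtain ⟨u, -, rfl, rfl⟩ := m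
        refine h1 g₁ g₂ g₃ _ _ hg (val_up hv j hb (out _ o1)) (val_up hv j hb' (out _ o2))
          (fun i => ?_) q
        by_cases e : i = j
        · rw [e, update_self, update_self]
          exact .inl hm
        · rw [update_of_ne e, update_of_ne e]
          exact .inr (.inr (.inr ⟨rfl, .inl (out _ o1 i e), .inl (out _ o2 i e),
            .inl (out _ o3 i e)⟩))
      · intro e
        obtain ⟨i, hi, e⟩ := Finset.mem_image.1 e
        exact (Finset.mem_erase.1 hi).1 (hv.2 e)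
  exact key n v hv fun i hi => absurd i.2 (not_lt.2 hi)

theorem mvx (F : ShapeF) (H : HM l d x) {g₁ g₂ g₃ : Box} {v v' : Fin n → Box}
    (hg : Lw l g₁ g₂ g₃) (h : Val l c v) (h' : Val l c v') (m : ∀ i, Mv g₁ g₂ g₃ (v i) (v' i))
    {i j k : Fin n} (h1 : i ≠ j) (h2 : i ≠ k) (h3 : j ≠ k) :
    x (v' i) (v' j) (v' k) = d g₁ g₂ g₃ * x (v i) (v j) (v k) * (d g₁ g₂ g₃)⁻¹ :=
  eq_mul_inv_of_mul_eq
    (H.m3 _ _ _ _ _ _ _ _ _ hg (hi_of F h h1 h2 h3) (hi_of F h' h1 h2 h3) ⟨m i, m j, m k⟩).symm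

/-- at most two stacks -/
def Sm (t : Pat) (A : Fin 3 → Bool) : Prop := ∀ χ, wt (ap χ t A).2 ≤ cd χ + 2

theorem lw (F : ShapeF) {t : Pat} {A : Fin 3 → Bool} (s : Sm t A) {α β γ : Chart}
    (h : V3 l α β γ) : Lw l (ap α t A) (ap β t A) (ap γ t A) := by
  obtain ⟨a, b, c, h⟩ := h
  exact ⟨⟨F.ap_ty _ _ _ _ (by omega), F.ap_ty _ _ _ _ (by omega), h⟩, (s α).trans a.le⟩

theorem smA (F : ShapeF) (t : Pat) : Sm t (one 0) := fun χ => by
  rw [F.one_wt]
  omega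

theorem smB (F : ShapeF) (t : Pat) : Sm t fun a => decide (a ≠ 0) := fun χ => (F.fl_wt χ t 0).le

theorem hi_gd (F : ShapeF) (t : Pat) {α β γ : Chart} (h : V3 l α β γ) :
    Hi l (gd α t) (gd β t) (gd γ t) :=
  ⟨⟨ty_of F (ht_gd F h.1 t) (ht_gd F h.2.1 t), ty_of F (ht_gd F h.1 t) (ht_gd F h.2.2.1 t),
    h.2.2.2⟩, (ht_gd F h.1 t).2.2⟩

theorem inv0 (F : ShapeF) (H : HM l d x) (t : Pat) {α β γ : Chart} (h : V3 l α β γ) :
    x (gd α t) (gd γ t) (gd β t) * x (gd α t) (gd β t) (gd γ t) = 1 := by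
  obtain ⟨p, hp⟩ := F.fresh [α.1, β.1, γ.1] (by simp)
  obtain ⟨q, hq⟩ := F.fresh [α.1, β.1, γ.1, p] (by simp)
  simp only [List.mem_cons, List.not_mem_nil, or_false, not_or] at hp hq
  obtain ⟨a, b, c, h1, h2, h3⟩ := h
  have P := lw F (smA F t) (γ := (p, α.2)) ⟨a, b, a, h1, Ne.symm hp.1, Ne.symm hp.2.1⟩
  have Q := lw F (smB F t) (γ := (q, α.2)) ⟨a, c, a, h2, Ne.symm hq.1, Ne.symm hq.2.2.1⟩
  have e1 := H.xd t α β γ _ _ _ _ ⟨a, b, c, h1, h2, h3⟩ (by decide) P Q hp.2.2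
    (Ne.symm hq.2.2.2) hq.2.1
  have e2 := H.xd t α γ β _ _ _ _ ⟨a, c, b, h2, h1, h3.symm⟩ (by decide) Q P hq.2.1
    hq.2.2.2 hp.2.2
  beta_reduce at e1 e2
  rw [e1, e2, ← commutatorElement_inv, inv_mul_cancel]

theorem tri0 (F : ShapeF) (B : BasF) (S : Sys (Lw l) d) (H : HM l d x) (t : Pat)
    {α β γ δ : Chart} (h : V3 l α β γ) (e : cd δ + 2 = l) (h4 : α.1 ≠ δ.1) (h5 : β.1 ≠ δ.1)
    (h6 : γ.1 ≠ δ.1) : x (gd δ t) (gd β t) (gd γ t) * x (gd α t) (gd δ t) (gd γ t) =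
      x (gd α t) (gd β t) (gd γ t) := by
  obtain ⟨p, hp⟩ := F.fresh [α.1, β.1, γ.1, δ.1] (by simp)
  obtain ⟨q, hq⟩ := F.fresh [α.1, β.1, γ.1, δ.1, p] (by simp)
  simp only [List.mem_cons, List.not_mem_nil, or_false, not_or] at hp hq
  obtain ⟨a, b, c, h1, h2, h3⟩ := h
  obtain ⟨p1, p2, p3, p4⟩ := hp
  obtain ⟨q1, q2, q3, q4, q5⟩ := hq
  have P := lw F (smA F t) (γ := (p, α.2)) ⟨a, b, a, h1, Ne.symm p1, Ne.symm p2⟩
  have X := lw F (smA F t) (γ := (p, α.2)) ⟨a, e, a, h4, Ne.symm p1, Ne.symm p4⟩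
  have X' := lw F (smA F t) (α := (p, α.2)) ⟨a, a, e, p1, p4, h4⟩
  have Y := lw F (smA F t) ⟨a, b, e, h1, h4, h5⟩
  have Q := lw F (smB F t) (γ := (q, α.2)) ⟨a, c, a, h2, Ne.symm q1, Ne.symm q3⟩
  have e1 := H.xd t α β γ _ _ _ _ ⟨a, b, c, h1, h2, h3⟩ (by decide) P Q p3 (Ne.symm q5) q2
  have e2 := H.xd t α β γ _ _ _ _ ⟨a, b, c, h1, h2, h3⟩ (by decide) Y Q h6.symm (Ne.symm q4) q2
  have e3 := H.xd t α δ γ _ _ _ _ ⟨a, e, c, h4, h2, h6.symm⟩ (by decide) X Q p3 (Ne.symm q5) q4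
  have e4 := B.two G _ d S (F.sy_lw l) _ _ _ _ P X' Y
  have e5 := H.m3 _ _ _ _ _ _ _ _ _ X (hi_gd F t ⟨a, b, c, h1, h2, h3⟩)
    (hi_gd F t ⟨e, b, c, h5.symm, h6.symm, h3⟩)
    ⟨.inl (F.ap_mo _ _ _ _ _ fun _ _ => rfl),
      .inr (.inr (.inr ⟨rfl, .inl h1.symm, .inl h5, .inl (Ne.symm p2)⟩)),
      .inr (.inr (.inr ⟨rfl, .inl h2.symm, .inl h6, .inl (Ne.symm p3)⟩))⟩
  beta_reduce at e1 e2 e3
  rw [S.cyc _ _ _ X'] at e4
  rw [← eq_mul_inv_of_mul_eq e5.symm |>.symm, e3]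
  conv_lhs => rw [e2]
  rw [e1, e4]
  simp only [commutatorElement_def]
  group

theorem cyc (F : ShapeF) (K : Hh l x) {a b c : Box} (h : Hi l a b c) : x a b c = x b c a := by
  have e1 := h.1.1.2.2.1
  have e2 := h.1.2.1.2.2.1
  exact mul_right_cancel (K _ _ _ _ _ _ _ _ _ h h (F.sy_hi l _ _ _ h).1
    ⟨.inl (F.mo_self _ _ e1), .inr (.inl (F.mo_self _ _ (e1.symm.trans e2))),
      .inr (.inr (.inl (F.mo_self _ _ e2.symm)))⟩)

end Rzx

open Rzx in
theorem r0_main : SpR0 := by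
  intro F B G _ l d x hl S H K
  refine ⟨fun a b c h => Rzx.cyc F K h, fun a b c h => ?_, fun a b e f h1 h2 h3 => ?_,
    fun a b c i h hi hk => ?_,
    fun _ _ _ _ _ _ _ _ _ h1 h2 h3 m1 m2 m3 => K _ _ _ _ _ _ _ _ _ h1 h2 h3 ⟨m1, m2, m3⟩⟩
  · have ta : HT l (ar a.2) a := ⟨h.1.1.1, rfl, h.2⟩
    obtain ⟨⟨t1, t2, n1, n2, n3⟩, -⟩ := h
    refine reachN (c := ar a.2) F hl (by norm_num)
      (fun v : Fin 3 → Box => x (v 0) (v 2) (v 1) * x (v 0) (v 1) (v 2) = 1)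
      (fun χ e i => inv0 F H _ ⟨e 0, e 1, e 2, i.ne (by decide), i.ne (by decide),
        i.ne (by decide)⟩) (fun g₁ g₂ g₃ v v' hg hv hv' m q => ?_) ![a, b, c] ⟨?_, ?_⟩
    · rw [mvx F H hg hv hv' m (i := 0) (j := 2) (k := 1) (by decide) (by decide) (by decide),
        mvx F H hg hv hv' m (i := 0) (j := 1) (k := 2) (by decide) (by decide) (by decide),
        conj_mul, q, mul_one, mul_inv_cancel]
    · intro i
      fin_cases i
      exacts [ta, ht_of F t1 ta, ht_of F t2 ta]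
    · intro i j e
      fin_cases i <;> fin_cases j <;> simp_all
  · have ta : HT l (ar a.2) a := ⟨h1.1.1.1, rfl, h1.2⟩
    rw [Rzx.cyc F K h2, Rzx.cyc F K (F.sy_hi l _ _ _ h2).1]
    obtain ⟨⟨t1, t2, n1, n2, n3⟩, -⟩ := h1
    obtain ⟨⟨-, -, -, n4, n5⟩, -⟩ := h2
    obtain ⟨⟨t3, -, n6, -⟩, -⟩ := h3
    refine reachN (c := ar a.2) F hl (by norm_num)
      (fun v : Fin 4 → Box => x (v 3) (v 1) (v 2) * x (v 0) (v 3) (v 2) = x (v 0) (v 1) (v 2))
      (fun χ e i => tri0 F B S H _ ⟨e 0, e 1, e 2, i.ne (by decide), i.ne (by decide),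
        i.ne (by decide)⟩ (e 3) (i.ne (by decide)) (i.ne (by decide)) (i.ne (by decide)))
      (fun g₁ g₂ g₃ v v' hg hv hv' m q => ?_) ![a, b, e, f] ⟨?_, ?_⟩
    · rw [mvx F H hg hv hv' m (i := 3) (j := 1) (k := 2) (by decide) (by decide) (by decide),
        mvx F H hg hv hv' m (i := 0) (j := 3) (k := 2) (by decide) (by decide) (by decide),
        mvx F H hg hv hv' m (i := 0) (j := 1) (k := 2) (by decide) (by decide) (by decide),
        conj_mul, q]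
    · intro i
      fin_cases i
      exacts [ta, ht_of F t1 ta, ht_of F t2 ta, ht_of F t3 ta]
    · intro i j e
      fin_cases i <;> fin_cases j <;> simp_all
  · have e1 : wt (kid a.2 i none) = l + 1 := (hk none).2
    have e2 := h.2
    rw [F.kid_wt _ _ _ hi] at e1
    omega

end Pool.Agent.MP_89edc2_al.R3
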