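import Pool.Agent.MP_89edc2_al.R3.Spec2

/-!
# Row SAME: trees of one grid agree modulo the finite group
-/

namespace Pool.Agent.MP_89edc2_al.R3

namespace Samex

variable {H : Type} [Group H]

/-- two grid trees with the same first step -/
theorem step (S : ShapeF) (R : TrF) {K M : ℕ} {p : H →* Equiv.Perm X} {Λ : Subgroup H}
    {B : Box → ℕ → H} (hT : TreeF K M p Λ B) {n : ℕ} (hM : 3 * n + 2 ≤ M) {ρ b : Box}
    (hρ : RB ρ) (hty : Ty ρ b) (hle : Le n b.2) {i : ℕ}
    (ih : ∀ o ρ' T T', RB ρ' → Ty ρ' (kd b i o) → Le n (kd b i o).2 → Grid n (kd b i o) T →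
      Grid n (kd b i o) T' → (bh B ρ' T')⁻¹ * bh B ρ' T ∈ Λ)
    {T T' : Option Bool → Tr} (h : Grid n b (.node i T)) (h' : Grid n b (.node i T')) :
    (bh B ρ (.node i T'))⁻¹ * bh B ρ (.node i T) ∈ Λ := by
  have ok : Ok M ρ (.node i T) := R.grid_ok n M ρ b _ hty hle (by omega) h
  have ok' : Ok M ρ (.node i T') := R.grid_ok n M ρ b _ hty hle (by omega) h'
  obtain ⟨hi, hf, hg⟩ := h
  obtain ⟨-, -, hg'⟩ := h'
  have hi' : i < ar ρ.2 := by rw [hty.2.2.1]; exact hi
  obtain ⟨a, ha, e⟩ := hT.congr ρ i T T' (fun _ => 1) hρ ok ok'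
    (fun _ a _ => Commute.one_left a) (fun o =>
      ⟨(bh B (kd ρ 0 o) (T' o))⁻¹ * bh B (kd ρ 0 o) (T o),
        ih o _ _ _ (S.rb_kd ρ o hρ) (S.ty_kd ρ b 0 i o hty (by omega) hi')
          (S.le_kid n b.2 i o hle hi hf) (hg o) (hg' o), by
        rw [mul_one, mul_inv_cancel_left]⟩)
  have e1 : p3 (fun _ : Option Bool => (1 : H)) = 1 := by simp only [p3, mul_one]
  rw [e, e1, mul_one, inv_mul_cancel_left]
  exact ha

/-- the two step grid trees -/
theorem grid2 (S : ShapeF) {n : ℕ} {b : Box} {i j : ℕ} (hi : i < ar b.2) (hj : j < ar b.2)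
    (hij : i ≠ j) (fi : fw b.2 i < n) (fj : fw b.2 j < n)
    {U : Option Bool → Option Bool → Tr}
    (hU : ∀ o o', Grid n (kd (kd b i o) (adj i o j) o') (U o o')) : Grid n b (fT i j U) := by
  refine ⟨hi, fi, fun o => ⟨S.adj_lt b.2 i j o hi hj hij, ?_, fun o' => hU o o'⟩⟩
  have := S.fw_kid b.2 i j o hi hj hij
  change fw (kid b.2 i o) (adj i o j) < n
  omega

end Samex

open Samex in
theorem same_main : SpSame := by
  intro S R H _ K M p Λ B hT hS n ρ b T T' hM hρ hty hle h h'
  have key : ∀ σ : Shape, ∀ (c : Fin 40) (ρ : Box) (T T' : Tr), RB ρ → Ty ρ (c, σ) → Le n σ →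
      Grid n (c, σ) T → Grid n (c, σ) T' → (bh B ρ T')⁻¹ * bh B ρ T ∈ Λ := by
    refine S.wf n _ ?_
    intro σ ih c ρ T T' hρ hty hle h h'
    cases T with
    | leaf =>
      cases T' with
      | leaf => rw [inv_mul_cancel]; exact Λ.one_mem
      | node j T' =>
        exfalso
        have h1 := (S.deep_iff n σ).1 h j h'.1
        have h2 : fw σ j < n := h'.2.1
        omega
    | node i T =>
      cases T' with
      | leaf =>
        exfalso
        have h1 := (S.deep_iff n σ).1 h' i h.1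
        have h2 : fw σ i < n := h.2.1
        omega
      | node j T' =>
        have hi : i < ar σ := h.1
        have hj : j < ar σ := h'.1
        have fi : fw σ i < n := h.2.1
        have fj : fw σ j < n := h'.2.1
        have ihi : ∀ o ρ' T T', RB ρ' → Ty ρ' (kd (c, σ) i o) → Le n (kd (c, σ) i o).2 →
            Grid n (kd (c, σ) i o) T → Grid n (kd (c, σ) i o) T' →
            (bh B ρ' T')⁻¹ * bh B ρ' T ∈ Λ :=
          fun o ρ' T T' a1 a2 a3 a4 a5 => ih i o hi fi c ρ' T T' a1 a2 a3 a4 a5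
        have ihj : ∀ o ρ' T T', RB ρ' → Ty ρ' (kd (c, σ) j o) → Le n (kd (c, σ) j o).2 →
            Grid n (kd (c, σ) j o) T → Grid n (kd (c, σ) j o) T' →
            (bh B ρ' T')⁻¹ * bh B ρ' T ∈ Λ :=
          fun o ρ' T T' a1 a2 a3 a4 a5 => ih j o hj fj c ρ' T T' a1 a2 a3 a4 a5
        by_cases hij : i = j
        · subst hij
          exact step S R hT hM hρ hty hle ihi h h'
        · choose U hU using fun o o' =>
            R.grid_ex n (kd (kd (c, σ) i o) (adj i o j) o')
          have g1 : Grid n (c, σ) (fT i j U) := grid2 S hi hj hij fi fj hU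
          have g2 : Grid n (c, σ) (fT j i fun o' o => U o o') := by
            refine grid2 S hj hi (Ne.symm hij) fj fi fun o' o => ?_
            have e : kd (kd (c, σ) j o') (adj j o' i) o = kd (kd (c, σ) i o) (adj i o j) o' := by
              change (c, kid (kid σ j o') (adj j o' i) o) = (c, kid (kid σ i o) (adj i o j) o')
              rw [S.kid_sq σ i j o o' hi hj hij]
            rw [e]
            exact hU o o'
          have ea : ar ρ.2 = ar σ := hty.2.2.1
          have ed : dg ρ.2 = dg σ := hty.2.2.2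
          have el : σ.length = 3 := hty.2.1
          have hd := S.le_dg n σ hle
          rw [el] at hd
          have sq : Sq K p Λ B ρ i j 1 := hS ρ i j hρ (by omega) (by omega) (by omega) hij
          have cen : Cen M Λ B 1 :=
            ⟨fun a _ => Commute.one_left a, fun _ _ _ _ => Commute.one_left _⟩
          obtain ⟨a, ha, e⟩ := hT.flip ρ i j U 1 hρ (by omega) hij sq cen
            (R.grid_ok n M ρ (c, σ) _ hty hle (by omega) g1)
          have m1 : (bh B ρ (fT i j U))⁻¹ * bh B ρ (.node i T) ∈ Λ :=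
            step S R hT hM hρ hty hle ihi h g1
          have m2 : (bh B ρ (.node j T'))⁻¹ * bh B ρ (fT j i fun o' o => U o o') ∈ Λ :=
            step S R hT hM hρ hty hle ihj g2 h'
          have m3 := Λ.mul_mem (Λ.mul_mem m2 ha) m1
          have e2 : (bh B ρ (.node j T'))⁻¹ * bh B ρ (fT j i fun o' o => U o o') * a *
              ((bh B ρ (fT i j U))⁻¹ * bh B ρ (.node i T)) =
              (bh B ρ (.node j T'))⁻¹ * bh B ρ (.node i T) := by
            rw [e]
            group
          rwa [e2] at m3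
  exact key b.2 b.1 ρ T T' hρ hty hle h h'

end Pool.Agent.MP_89edc2_al.R3
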