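import Pool.Agent.MP_89edc2_al.R3.Spec

/-! Elementary facts on shapes. -/

namespace Pool.Agent.MP_89edc2_al.R3

namespace ShAx

theorem id_succ (c : ℕ) : idS (c + 1) = ([], false) :: idS c := rfl

theorem id_len (c : ℕ) : (idS c).length = c := by simp [idS]

theorem id_ar (c : ℕ) : ar (idS c) = c := by
  induction c with
  | zero => rfl
  | succ c ih => simp [id_succ, ar, ih]

theorem id_dg (c : ℕ) : dg (idS c) = 0 := by
  induction c with
  | zero => rfl
  | succ c ih => simp [id_succ, dg, ih]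

theorem id_wt (c : ℕ) : wt (idS c) = 0 := by
  induction c with
  | zero => rfl
  | succ c ih => simp [id_succ, wt, ih]

theorem comp_id (σ : Shape) : comp σ (idS (ar σ)) = σ := by
  induction σ with
  | nil => rfl
  | cons e σ ih => rcases e with ⟨w, _ | _⟩ <;> simp [ar, id_succ, comp, ih]

theorem id_comp (τ : Shape) : comp (idS τ.length) τ = τ := by
  induction τ with
  | nil => rfl
  | cons e σ ih => simp [id_succ, comp, ih]

/-- Induction on a shape together with a list of matching length. -/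
theorem ind2 {P : ∀ σ u : Shape, u.length = ar σ → Prop} (h0 : P [] [] rfl)
    (h1 : ∀ w σ u h, P σ u h → P ((w, true) :: σ) u h)
    (h2 : ∀ w σ e u h, P σ u h → P ((w, false) :: σ) (e :: u) (congrArg (· + 1) h))
    (σ u : Shape) (h : u.length = ar σ) : P σ u h := by
  induction σ generalizing u with
  | nil => obtain rfl : u = [] := List.length_eq_zero_iff.1 h; exact h0
  | cons e σ ih =>
    rcases e with ⟨w, _ | _⟩
    · rcases u with _ | ⟨e, u⟩
      · simp [ar] at h
      · have h' : u.length = ar σ := by simpa [ar] using h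
        exact h2 w σ e u h' (ih u h')
    · exact h1 w σ u h (ih u h)

theorem comp_assoc (σ u v : Shape) (h : u.length = ar σ) (h' : v.length = ar u) :
    comp (comp σ u) v = comp σ (comp u v) := by
  induction σ, u, h using ind2 generalizing v with
  | h0 => rfl
  | h1 w σ u _ ih => simp [comp, ih v h']
  | h2 w σ e u _ ih =>
    rcases e with ⟨x, _ | _⟩
    · rcases v with _ | ⟨f, v⟩
      · simp [ar] at h'
      · simp [comp, ih v (by simpa [ar] using h')]
    · simp [comp, ih v h']

theorem comp_len (σ u : Shape) (h : u.length = ar σ) : (comp σ u).length = σ.length := by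
  induction σ, u, h using ind2 with
  | h0 => rfl
  | h1 w σ u _ ih => simp [comp, ih]
  | h2 w σ e u _ ih => simp [comp, ih]

theorem comp_ar (σ u : Shape) (h : u.length = ar σ) : ar (comp σ u) = ar u := by
  induction σ, u, h using ind2 with
  | h0 => rfl
  | h1 w σ u _ ih => simp [comp, ar, ih]
  | h2 w σ e u _ ih => rcases e with ⟨x, _ | _⟩ <;> simp [comp, ar, ih]

theorem comp_dg (σ u : Shape) (h : u.length = ar σ) : dg (comp σ u) = dg σ + dg u := by
  induction σ, u, h using ind2 with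
  | h0 => rfl
  | h1 w σ u _ ih => simp [comp, dg, ih]; omega
  | h2 w σ e u _ ih => simp [comp, dg, ih]; omega

theorem comp_wt (σ u : Shape) (h : u.length = ar σ) : wt (comp σ u) = wt σ + wt u := by
  induction σ, u, h using ind2 with
  | h0 => rfl
  | h1 w σ u _ ih => simp [comp, wt, ih]; omega
  | h2 w σ e u _ ih => rcases e with ⟨x, _ | _⟩ <;> simp [comp, wt, ih] <;> omega

theorem comp_inj (σ u u' : Shape) (h : u.length = ar σ) (h' : u'.length = ar σ)
    (e : comp σ u = comp σ u') : u = u' := by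
  induction σ, u, h using ind2 generalizing u' with
  | h0 => exact (List.length_eq_zero_iff.1 h').symm
  | h1 w σ u _ ih => exact ih u' h' (by simpa [comp] using e)
  | h2 w σ f u _ ih =>
    rcases u' with _ | ⟨f', u'⟩
    · simp [ar] at h'
    · simp only [comp, List.cons.injEq, Prod.mk.injEq, List.append_cancel_left_eq] at e
      rw [ih u' (by simpa [ar] using h') e.2, Prod.ext e.1.1 e.1.2]

theorem comp_kid (σ u : Shape) (i : ℕ) (o : Option Bool) (h : u.length = ar σ) :
    comp σ (kid u i o) = kid (comp σ u) i o := by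
  induction σ, u, h using ind2 generalizing i with
  | h0 => rfl
  | h1 w σ u _ ih => simp [comp, kid, ih]
  | h2 w σ e u _ ih =>
    rcases e with ⟨x, _ | _⟩
    · rcases i with _ | i
      · cases o <;> simp [comp, kid, push]
      · simp [comp, kid, ih]
    · simp [comp, kid, ih]

theorem kid_eq (σ : Shape) (i : ℕ) (o : Option Bool) :
    kid σ i o = comp σ (kid (idS (ar σ)) i o) := by
  rw [comp_kid _ _ _ _ (id_len _), comp_id]

theorem kid_len (σ : Shape) (i : ℕ) (o : Option Bool) : (kid σ i o).length = σ.length := by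
  induction σ generalizing i with
  | nil => rfl
  | cons e σ ih => rcases e with ⟨w, _ | _⟩ <;> cases i <;> simp [kid, ih]

theorem kid_ar0 (σ : Shape) (i : ℕ) (h : i < ar σ) : ar (kid σ i none) + 1 = ar σ := by
  induction σ generalizing i with
  | nil => simp [ar] at h
  | cons e σ ih =>
    rcases e with ⟨w, _ | _⟩
    · rcases i with _ | i
      · simp [kid, push, ar]
      · simp [kid, ar, ih i (by simpa [ar] using h)]
    · simpa [kid, ar] using ih i h

theorem kid_ar1 (σ : Shape) (i : ℕ) (e : Bool) : ar (kid σ i (some e)) = ar σ := by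
  induction σ generalizing i with
  | nil => rfl
  | cons f σ ih => rcases f with ⟨w, _ | _⟩ <;> cases i <;> simp [kid, push, ar, ih]

theorem kid_dg0 (σ : Shape) (i : ℕ) : dg (kid σ i none) = dg σ := by
  induction σ generalizing i with
  | nil => rfl
  | cons f σ ih => rcases f with ⟨w, _ | _⟩ <;> cases i <;> simp [kid, push, dg, ih]

theorem kid_dg1 (σ : Shape) (i : ℕ) (e : Bool) (h : i < ar σ) :
    dg (kid σ i (some e)) = dg σ + 1 := by
  induction σ generalizing i with
  | nil => simp [ar] at h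
  | cons f σ ih =>
    rcases f with ⟨w, _ | _⟩
    · rcases i with _ | i
      · simp [kid, push, dg]; omega
      · simp [kid, dg, ih i (by simpa [ar] using h)]; omega
    · simp [kid, dg, ih i h]; omega

theorem wt_ar (σ : Shape) : wt σ + ar σ = dg σ + σ.length := by
  induction σ with
  | nil => rfl
  | cons f σ ih => rcases f with ⟨w, _ | _⟩ <;> simp [wt, ar, dg] <;> omega

theorem ar_le (σ : Shape) : ar σ ≤ σ.length := by
  induction σ with
  | nil => rfl
  | cons f σ ih => rcases f with ⟨w, _ | _⟩ <;> simp [ar] <;> omega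

theorem kid_wt (σ : Shape) (i : ℕ) (o : Option Bool) (h : i < ar σ) :
    wt (kid σ i o) = wt σ + 1 := by
  have h1 := wt_ar (kid σ i o)
  have h2 := wt_ar σ
  rw [kid_len] at h1
  rcases o with _ | e
  · have := kid_ar0 σ i h
    have := kid_dg0 σ i
    omega
  · have := kid_ar1 σ i e
    have := kid_dg1 σ i e h
    omega

theorem adj_succ {i j : ℕ} (o : Option Bool) (h : i ≠ j) :
    adj (i + 1) o (j + 1) = adj i o j + 1 := by
  unfold adj
  split_ifs with h1 h2 h2
  · omega
  · exact absurd ⟨h1.1, by omega⟩ h2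
  · exact absurd ⟨h2.1, by omega⟩ h1
  · rfl

theorem adj_zero (i : ℕ) (o : Option Bool) : adj i o 0 = 0 := by simp [adj]

theorem kid_sq (σ : Shape) (i j : ℕ) (o o' : Option Bool) (hi : i < ar σ) (hj : j < ar σ)
    (h : i ≠ j) : kid (kid σ i o) (adj i o j) o' = kid (kid σ j o') (adj j o' i) o := by
  induction σ generalizing i j with
  | nil => rfl
  | cons f σ ih =>
    rcases f with ⟨w, _ | _⟩
    · rcases i with _ | i <;> rcases j with _ | j
      · exact absurd rfl h
      · rw [adj_zero]; cases o <;> simp [kid, push, adj]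
      · rw [adj_zero]; cases o' <;> simp [kid, push, adj]
      · have h' : i ≠ j := by omega
        rw [adj_succ o h', adj_succ o' h'.symm]
        simp [kid, ih i j (by simpa [ar] using hi) (by simpa [ar] using hj) h']
    · simp [kid, ih i j hi hj h]

theorem adj_lt (σ : Shape) (i j : ℕ) (o : Option Bool) (hi : i < ar σ) (hj : j < ar σ)
    (h : i ≠ j) : adj i o j < ar (kid σ i o) := by
  rcases o with _ | e
  · have := kid_ar0 σ i hi
    unfold adj
    split_ifs with h1
    · omega
    · have : ¬ i < j := fun k => h1 ⟨rfl, k⟩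
      omega
  · simpa [adj, kid_ar1] using hj

theorem wt_zero (σ : Shape) (h : wt σ = 0) : σ = idS σ.length := by
  induction σ with
  | nil => rfl
  | cons f σ ih =>
    rcases f with ⟨w, _ | _⟩
    · simp only [wt, Nat.add_eq_zero_iff, List.length_eq_zero_iff] at h
      rw [List.length_cons, id_succ, h.1, ← ih h.2]
    · simp [wt] at h

theorem parent (σ : Shape) (h : wt σ ≠ 0) : ∃ τ i o, i < ar τ ∧ σ = kid τ i o := by
  induction σ with
  | nil => exact absurd rfl h
  | cons f σ ih =>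
    rcases f with ⟨w, _ | _⟩
    · rcases List.eq_nil_or_concat w with rfl | ⟨x, e, rfl⟩
      · obtain ⟨τ, i, o, h1, rfl⟩ := ih (by simpa [wt] using h)
        exact ⟨([], false) :: τ, i + 1, o, by simpa [ar] using h1, rfl⟩
      · exact ⟨(x, false) :: σ, 0, some e, by simp [ar], by simp [kid, push]⟩
    · exact ⟨(w, false) :: σ, 0, none, by simp [ar], rfl⟩

theorem ty0 (n c : ℕ) (h : c ≤ n) : ∃ σ : Shape, σ.length = n ∧ ar σ = c ∧ dg σ = 0 := by
  induction n, h using Nat.le_induction with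
  | base => exact ⟨idS c, id_len c, id_ar c, id_dg c⟩
  | succ n _ ih =>
    obtain ⟨σ, h1, h2, h3⟩ := ih
    exact ⟨([], true) :: σ, by simp [h1], h2, by simp [dg, h3]⟩

theorem ty_ex (n c m : ℕ) (h : c ≤ n) (h' : 1 ≤ n) :
    ∃ σ : Shape, σ.length = n ∧ ar σ = c ∧ dg σ = m := by
  obtain ⟨σ, h1, h2, h3⟩ := ty0 n c h
  rcases σ with _ | ⟨⟨w, b⟩, σ⟩
  · simp at h1; omega
  · refine ⟨(List.replicate m false, b) :: σ, h1, ?_, ?_⟩
    · cases b <;> exact h2
    · simp only [dg, List.length_replicate] at h3 ⊢; omega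

theorem fw_kid (σ : Shape) (i j : ℕ) (o : Option Bool) (hi : i < ar σ) (hj : j < ar σ)
    (h : i ≠ j) : fw (kid σ i o) (adj i o j) = fw σ j := by
  induction σ generalizing i j with
  | nil => rfl
  | cons f σ ih =>
    rcases f with ⟨w, _ | _⟩
    · rcases i with _ | i <;> rcases j with _ | j
      · exact absurd rfl h
      · cases o <;> simp [kid, push, adj, fw]
      · rw [adj_zero]; simp [kid, fw]
      · have h' : i ≠ j := by omega
        rw [adj_succ o h']
        simp [kid, fw, ih i j (by simpa [ar] using hi) (by simpa [ar] using hj) h']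
    · simp [kid, fw, ih i j hi hj h]

theorem fw_le (σ : Shape) (i : ℕ) : fw σ i ≤ dg σ := by
  induction σ generalizing i with
  | nil => rfl
  | cons f σ ih =>
    rcases f with ⟨w, _ | _⟩
    · rcases i with _ | i
      · simp [fw, dg]
      · exact (ih i).trans (Nat.le_add_left _ _)
    · exact (ih i).trans (Nat.le_add_left _ _)

theorem deep_t (n : ℕ) (w : List Bool) (σ : Shape) : Deep n ((w, true) :: σ) ↔ Deep n σ := by
  simp [Deep]

theorem deep_c (n : ℕ) (e : Ent) (σ : Shape) :
    Deep n (e :: σ) ↔ (e.2 = false → n ≤ e.1.length) ∧ Deep n σ := by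
  simp only [Deep, List.forall_mem_cons]

theorem deep_iff (n : ℕ) (σ : Shape) : Deep n σ ↔ ∀ i, i < ar σ → n ≤ fw σ i := by
  induction σ with
  | nil => simp [Deep, ar]
  | cons f σ ih =>
    rcases f with ⟨w, _ | _⟩
    · rw [deep_c, ih, ar, Nat.forall_lt_succ_left]
      simp [fw]
    · rw [deep_t, ih]; rfl

theorem deep_comp (n : ℕ) (σ u : Shape) (h : u.length = ar σ) (d : Deep n u) :
    Deep n (comp σ u) := by
  induction σ, u, h using ind2 with
  | h0 => exact d
  | h1 w σ u _ ih => exact (deep_t _ _ _).2 (ih d)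
  | h2 w σ e u _ ih =>
    rw [deep_c] at d
    exact (deep_c _ _ _).2 ⟨fun k => (d.1 k).trans (by simp), ih d.2⟩

theorem deep_sub (n : ℕ) (σ u : Shape) (h : u.length = ar σ) (d : Deep n σ) :
    Deep n (comp σ u) := by
  induction σ, u, h using ind2 with
  | h0 => exact d
  | h1 w σ u _ ih => exact (deep_t _ _ _).2 (ih ((deep_t _ _ _).1 d))
  | h2 w σ e u _ ih =>
    rw [deep_c] at d
    exact (deep_c _ _ _).2 ⟨fun _ => (d.1 rfl).trans (by simp), ih d.2⟩

theorem deep_dg (n : ℕ) (σ : Shape) (d : Deep n σ) (h : 1 ≤ ar σ) : n ≤ dg σ :=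
  ((deep_iff n σ).1 d 0 h).trans (fw_le σ 0)

theorem deep_split (n m : ℕ) (σ : Shape) (d : Deep (n + m) σ) : ∃ τ u : Shape,
    u.length = ar τ ∧ τ.length = σ.length ∧ Deep n τ ∧ Deep m u ∧ σ = comp τ u := by
  induction σ with
  | nil => exact ⟨[], [], rfl, rfl, by simp [Deep], by simp [Deep], rfl⟩
  | cons f σ ih =>
    obtain ⟨τ, u, h1, h2, h3, h4, rfl⟩ := ih ((deep_c _ _ _).1 d).2
    rcases f with ⟨w, _ | _⟩
    · have k : n + m ≤ w.length := ((deep_c _ _ _).1 d).1 rfl
      refine ⟨(w.take n, false) :: τ, (w.drop n, false) :: u, by simp [ar, h1], by simp [h2],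
        (deep_c _ _ _).2 ⟨fun _ => ?_, h3⟩, (deep_c _ _ _).2 ⟨fun _ => ?_, h4⟩, by simp [comp]⟩
      · simp; omega
      · simp; omega
    · exact ⟨(w, true) :: τ, u, h1, by simp [h2], (deep_t _ _ _).2 h3, h4, rfl⟩

/-- The measure of the distance to depth `n`. -/
def ms (n : ℕ) : Shape → ℕ
  | [] => 0
  | (_, true) :: σ => ms n σ
  | (w, false) :: σ => n - w.length + 1 + ms n σ

theorem ms_kid (n : ℕ) (σ : Shape) (i : ℕ) (o : Option Bool) (hi : i < ar σ) (h : fw σ i < n) :
    ms n (kid σ i o) < ms n σ := by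
  induction σ generalizing i with
  | nil => simp [ar] at hi
  | cons f σ ih =>
    rcases f with ⟨w, _ | _⟩
    · rcases i with _ | i
      · rw [fw] at h
        cases o <;> simp [kid, push, ms]
        omega
      · simpa [kid, ms] using ih i (by simpa [ar] using hi) h
    · exact ih i hi h

theorem wf (n : ℕ) (P : Shape → Prop)
    (h : ∀ σ, (∀ i o, i < ar σ → fw σ i < n → P (kid σ i o)) → P σ) (σ : Shape) : P σ := by
  induction hk : ms n σ using Nat.strong_induction_on generalizing σ with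
  | _ k ih => exact h σ fun i o hi hf => ih _ (hk ▸ ms_kid n σ i o hi hf) _ rfl

theorem deep_ind (n : ℕ) (P : Shape → Prop) (h0 : ∀ σ, Deep n σ → P σ)
    (h1 : ∀ σ i, i < ar σ → (∀ o, P (kid σ i o)) → P σ) : ∀ σ, P σ := by
  refine wf n P fun σ ih => ?_
  by_cases d : Deep n σ
  · exact h0 σ d
  · rw [deep_iff] at d
    push Not at d
    obtain ⟨i, hi, hf⟩ := d
    exact h1 σ i hi fun o => ih i o hi hf

theorem ty_symm (a b : Box) (h : Ty a b) : Ty b a := ⟨h.2.1, h.1, h.2.2.1.symm, h.2.2.2.symm⟩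

theorem ty_trans (a b c : Box) (h : Ty a b) (h' : Ty b c) : Ty a c :=
  ⟨h.1, h'.2.1, h.2.2.1.trans h'.2.2.1, h.2.2.2.trans h'.2.2.2⟩

theorem ty_wt (a b : Box) (h : Ty a b) : wt a.2 = wt b.2 := by
  have := wt_ar a.2
  have := wt_ar b.2
  obtain ⟨h1, h2, h3, h4⟩ := h
  omega

theorem ty_kd (a b : Box) (i j : ℕ) (o : Option Bool) (h : Ty a b) (hi : i < ar a.2)
    (hj : j < ar a.2) : Ty (kd a i o) (kd b j o) := by
  obtain ⟨h1, h2, h3, h4⟩ := h
  refine ⟨(kid_len _ _ _).trans h1, (kid_len _ _ _).trans h2, ?_⟩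
  simp only [kd]
  rcases o with _ | e
  · have := kid_ar0 a.2 i hi
    have := kid_ar0 b.2 j (h3 ▸ hj)
    rw [kid_dg0, kid_dg0]
    omega
  · rw [kid_ar1, kid_ar1, kid_dg1 _ _ _ hi, kid_dg1 _ _ _ (h3 ▸ hj)]
    omega

theorem ty_sb (a b : Box) (u : Shape) (h : Ty a b) (hu : u.length = ar a.2) :
    Ty (sb a u) (sb b u) := by
  obtain ⟨h1, h2, h3, h4⟩ := h
  have hb := hu.trans h3
  exact ⟨(comp_len _ _ hu).trans h1, (comp_len _ _ hb).trans h2,
    (comp_ar _ _ hu).trans (comp_ar _ _ hb).symm,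
    by simp only [sb]; rw [comp_dg _ _ hu, comp_dg _ _ hb, h4]⟩

theorem deep3 (n : ℕ) (P : Box → Box → Box → Prop)
    (h0 : ∀ a b c, Ty a b → Ty a c → Deep n a.2 → Deep n b.2 → Deep n c.2 → P a b c)
    (h1 : ∀ a b c i, Ty a b → Ty a c → i < ar a.2 →
      (∀ o, P (kd a i o) (kd b i o) (kd c i o)) → P a b c)
    (a b c : Box) (hb : Ty a b) (hc : Ty a c) : P a b c := by
  have k : ∀ u : Shape, u.length = ar a.2 → P (sb a u) (sb b u) (sb c u) := by
    refine deep_ind n _ (fun u d hu => ?_) fun u i hi ih hu => ?_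
    · exact h0 _ _ _ (ty_sb _ _ _ hb hu) (ty_sb _ _ _ hc hu) (deep_comp _ _ _ hu d)
        (deep_comp _ _ _ (hu.trans hb.2.2.1) d) (deep_comp _ _ _ (hu.trans hc.2.2.1) d)
    · refine h1 _ _ _ i (ty_sb _ _ _ hb hu) (ty_sb _ _ _ hc hu) ((comp_ar _ _ hu).symm ▸ hi)
        fun o => ?_
      have := ih o ((kid_len _ _ _).trans hu)
      simp only [sb, kd] at this ⊢
      rwa [comp_kid _ _ _ _ hu, comp_kid _ _ _ _ (hu.trans hb.2.2.1),
        comp_kid _ _ _ _ (hu.trans hc.2.2.1)] at this
  have := k (idS (ar a.2)) (id_len _)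
  simp only [sb] at this
  rw [comp_id] at this
  rw [hb.2.2.1, comp_id, ← hb.2.2.1, hc.2.2.1, comp_id] at this
  exact this

theorem le_c (n : ℕ) (e : Ent) (σ : Shape) : Le n (e :: σ) ↔ e.1.length ≤ n ∧ Le n σ := by
  simp only [Le, List.forall_mem_cons]

theorem le_kid (n : ℕ) (σ : Shape) (i : ℕ) (o : Option Bool) (l : Le n σ) (hi : i < ar σ)
    (h : fw σ i < n) : Le n (kid σ i o) := by
  induction σ generalizing i with
  | nil => exact l
  | cons f σ ih =>
    rw [le_c] at l
    rcases f with ⟨w, _ | _⟩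
    · rcases i with _ | i
      · rw [fw] at h
        refine (le_c _ _ _).2 ⟨?_, l.2⟩
        cases o <;> simp [push] <;> omega
      · exact (le_c _ _ _).2 ⟨l.1, ih i l.2 (by simpa [ar] using hi) h⟩
    · exact (le_c _ _ _).2 ⟨l.1, ih i l.2 hi h⟩

theorem le_dg (n : ℕ) (σ : Shape) (l : Le n σ) : dg σ ≤ σ.length * n := by
  induction σ with
  | nil => simp [dg]
  | cons f σ ih =>
    rw [le_c] at l
    have := ih l.2
    rw [dg, List.length_cons, Nat.succ_mul]
    omega

theorem dg_le (n : ℕ) (σ : Shape) (h : dg σ ≤ n) : Le n σ := by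
  induction σ with
  | nil => simp [Le]
  | cons f σ ih =>
    rw [dg] at h
    exact (le_c _ _ _).2 ⟨by omega, ih (by omega)⟩

theorem fin_le (k n : ℕ) : {σ : Shape | σ.length ≤ k ∧ Le n σ}.Finite := by
  induction k with
  | zero => exact (Set.finite_singleton []).subset fun σ h => List.length_eq_zero_iff.1 (by
      simpa using h.1)
  | succ k ih =>
    have e : {e : Ent | e.1.length ≤ n}.Finite :=
      ((List.finite_length_le Bool n).prod Set.finite_univ).subset fun e h => ⟨h, trivial⟩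
    refine (((e.prod ih).image fun p => p.1 :: p.2).insert []).subset fun σ h => ?_
    rcases σ with _ | ⟨f, σ⟩
    · exact .inl rfl
    · have l := (le_c _ _ _).1 h.2
      exact .inr ⟨(f, σ), ⟨l.1, by simpa using h.1, l.2⟩, rfl⟩

theorem fin_sh (k n : ℕ) : {σ : Shape | σ.length ≤ k ∧ wt σ ≤ n}.Finite :=
  (fin_le k n).subset fun σ h => ⟨h.1, dg_le _ _ (by
    have := wt_ar σ
    have := ar_le σ
    have := h.2
    omega)⟩

theorem fin_box (n : ℕ) : {b : Box | b.2.length = 3 ∧ dg b.2 ≤ n}.Finite :=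
  (Set.finite_univ.prod (fin_le 3 n)).subset fun _ h => ⟨trivial, h.1.le, dg_le _ _ h.2⟩

theorem freshS (S : Finset (Fin 40)) (L : List (Fin 40)) (h : S.card + L.length < 40) :
    ∃ i, i ∉ S ∧ i ∉ L := by
  have k : (S ∪ L.toFinset).card < (Finset.univ : Finset (Fin 40)).card := by
    have := Finset.card_union_le S L.toFinset
    have := List.toFinset_card_le L
    rw [Finset.card_univ, Fintype.card_fin]
    omega
  obtain ⟨i, -, hi⟩ := Finset.exists_mem_notMem_of_card_lt_card k
  exact ⟨i, by simpa using hi⟩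

theorem sy_dc : Sy Dc := fun a b c ⟨h1, h2, h3, h4, h5⟩ =>
  ⟨⟨ty_trans _ _ _ (ty_symm _ _ h1) h2, ty_symm _ _ h1, h5, h3.symm, h4.symm⟩,
    h2, h1, h4, h3, h5.symm⟩

end ShAx

open ShAx in
theorem shA_main : SpShA where
  comp_id := comp_id
  id_comp := id_comp
  comp_assoc := comp_assoc
  comp_len := comp_len
  comp_ar := comp_ar
  comp_dg := comp_dg
  comp_wt := comp_wt
  comp_inj := comp_inj
  comp_kid := comp_kid
  kid_eq := kid_eq
  kid_len := kid_len
  kid_ar0 := kid_ar0
  kid_ar1 := kid_ar1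
  kid_dg0 := kid_dg0
  kid_dg1 := kid_dg1
  kid_wt := kid_wt
  kid_sq := kid_sq
  adj_lt := adj_lt
  wt_ar := wt_ar
  ar_le := ar_le
  id_len := id_len
  id_ar := id_ar
  id_dg := id_dg
  id_wt := id_wt
  wt_zero := wt_zero
  parent := parent
  ty_ex := ty_ex
  fw_kid := fw_kid
  fw_le := fw_le
  deep_iff := deep_iff
  deep_comp := deep_comp
  deep_sub := deep_sub
  deep_mono := fun _ _ _ h d e he k => h.trans (d e he k)
  deep_dg := deep_dg
  deep_split := deep_split
  wf := wf
  deep_ind := deep_ind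
  deep3 := deep3
  le_kid := le_kid
  le_dg := le_dg
  dg_le := dg_le
  fin_sh := fin_sh
  fin_box := fin_box
  fresh := fun L h => (freshS ∅ L (by simpa using h)).imp fun _ k => k.2
  freshS := freshS
  ty_symm := ty_symm
  ty_trans := ty_trans
  ty_wt := ty_wt
  ty_kd := ty_kd
  ty_sb := ty_sb
  sy_dc := sy_dc
  sy_lw := fun _ a b c h => ⟨⟨(sy_dc a b c h.1).1, ty_wt _ _ h.1.1 ▸ h.2⟩, (sy_dc a b c h.1).2, h.2⟩
  sy_hi := fun _ a b c h => ⟨⟨(sy_dc a b c h.1).1, ty_wt _ _ h.1.1 ▸ h.2⟩, (sy_dc a b c h.1).2, h.2⟩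

end Pool.Agent.MP_89edc2_al.R3
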