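import Pool.Agent.MP_89edc2_al.R3.ShB0

/-!
# Row SHB: disjointness and moves
-/

namespace Pool.Agent.MP_89edc2_al.R3

namespace ShBx

theorem d_symm {a b : Box} (h : Disj a b) : Disj b a := h.imp Ne.symm (ds_symm _ _)

theorem d_irr (a : Box) : ¬ Disj a a := fun h => h.elim (fun h => h rfl) (ds_irr _)

theorem d_sb {a z : Box} {u : Shape} (l : u.length = ar a.2) (h : Disj a z) : Disj (sb a u) z :=
  h.imp id (ds_comp _ _ _ l)

theorem kd_eq (A : ShA) (a : Box) (i : ℕ) (o : Option Bool) :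
    kd a i o = sb a (kid (idS (ar a.2)) i o) := by
  unfold kd sb
  rw [← A.kid_eq]

theorem d_kd (A : ShA) {a z : Box} (i : ℕ) (o : Option Bool) (h : Disj a z) :
    Disj (kd a i o) z := by
  rw [kd_eq A]
  exact d_sb (by rw [A.kid_len, A.id_len]) h

theorem d_kids {a : Box} {i : ℕ} {o o' : Option Bool} (l : i < ar a.2) (h : o ≠ o') :
    Disj (kd a i o) (kd a i o') := Or.inr (ds_kids _ _ _ _ l h)

theorem d_par {a b : Box} {u u' : Shape} (e : ar a.2 = ar b.2) (l : u.length = ar a.2)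
    (l' : u'.length = ar a.2) (h : Disj (sb a u) (sb a u')) : Disj (sb b u) (sb b u') :=
  Or.inr ((ds_iff _ _ _ (l.trans e) (l'.trans e)).2
    ((ds_iff _ _ _ l l').1 (h.resolve_left fun h => h rfl)))

theorem t_rot (A : ShA) {a b c : Box} (h : Tri a b c) : Tri b c a :=
  ⟨A.ty_trans _ _ _ (A.ty_symm _ _ h.1) h.2.1, A.ty_symm _ _ h.1, h.2.2.2.2, d_symm h.2.2.1,
    d_symm h.2.2.2.1⟩

theorem t_swap {a b c : Box} (h : Tri a b c) : Tri a c b :=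
  ⟨h.2.1, h.1, h.2.2.2.1, h.2.2.1, d_symm h.2.2.2.2⟩

theorem m_sb (A : ShA) {g g' a a' : Box} {u : Shape} (e : ar g.2 = ar g'.2) (h : Mo g g' a a')
    (l : u.length = ar a.2) : Mo g g' (sb a u) (sb a' u) := by
  obtain ⟨v, hv, rfl, rfl⟩ := h
  have l' : u.length = ar v := l.trans (A.comp_ar _ _ hv)
  have l2 : (comp v u).length = ar g.2 := (A.comp_len _ _ l').trans hv
  exact ⟨comp v u, l2, by simp only [sb, A.comp_assoc _ _ _ hv l'],
    by simp only [sb, A.comp_assoc _ _ _ (hv.trans e) l']⟩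

theorem m_kd (A : ShA) {g g' a a' : Box} (i : ℕ) (o : Option Bool) (e : ar g.2 = ar g'.2)
    (h : Mo g g' a a') : Mo g g' (kd a i o) (kd a' i o) := by
  obtain ⟨v, hv, rfl, rfl⟩ := h
  exact ⟨kid v i o, (A.kid_len _ _ _).trans hv, by simp only [sb, kd, A.comp_kid _ _ _ _ hv],
    by simp only [sb, kd, A.comp_kid _ _ _ _ (hv.trans e)]⟩

theorem m_ty (A : ShA) {g g' a a' : Box} (t : Ty g g') (h : Mo g g' a a') : Ty a a' := by
  obtain ⟨v, hv, rfl, rfl⟩ := h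
  exact A.ty_sb _ _ _ t hv

theorem m_symm {g g' a a' : Box} (e : ar g.2 = ar g'.2) (h : Mo g g' a a') : Mo g' g a' a := by
  obtain ⟨v, hv, h1, h2⟩ := h
  exact ⟨v, hv.trans e, h2, h1⟩

theorem m_d1 {g g' a a' z : Box} (h : Mo g g' a a') (d : Disj g z) : Disj a z := by
  obtain ⟨v, hv, rfl, rfl⟩ := h
  exact d_sb hv d

theorem m_d2 {g g' a a' z : Box} (e : ar g.2 = ar g'.2) (h : Mo g g' a a') (d : Disj g' z) :
    Disj a' z := m_d1 (m_symm e h) d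

theorem v_rot {g₁ g₂ g₃ a a' : Box} (h : Mv g₁ g₂ g₃ a a') : Mv g₂ g₃ g₁ a a' := by
  rcases h with h | h | h | ⟨h, h1, h2, h3⟩
  · exact Or.inr (Or.inr (Or.inl h))
  · exact Or.inl h
  · exact Or.inr (Or.inl h)
  · exact Or.inr (Or.inr (Or.inr ⟨h, h2, h3, h1⟩))

theorem v_ty (A : ShA) {g₁ g₂ g₃ a a' : Box} (t : Tri g₁ g₂ g₃) (l : a.2.length = 3)
    (h : Mv g₁ g₂ g₃ a a') : Ty a a' := by
  rcases h with h | h | h | ⟨rfl, -⟩
  · exact m_ty A t.1 h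
  · exact m_ty A (t_rot A t).1 h
  · exact m_ty A (t_rot A (t_rot A t)).1 h
  · exact ⟨l, l, rfl, rfl⟩

theorem v_d0 (A : ShA) {g₁ g₂ g₃ a a' b b' : Box} (t : Tri g₁ g₂ g₃) (h : Mo g₁ g₂ a a')
    (k : Mv g₁ g₂ g₃ b b') (d : Disj a b) : Disj a' b' := by
  have t2 := t_rot A t
  have t3 := t_rot A t2
  rcases k with k | k | k | ⟨rfl, -, k, -⟩
  · obtain ⟨u, hu, rfl, rfl⟩ := h
    obtain ⟨v, hv, rfl, rfl⟩ := k
    exact d_par t.1.2.2.1 hu hv d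
  · exact m_d2 t.1.2.2.1 h (d_symm (m_d2 t2.1.2.2.1 k (d_symm t2.2.2.1)))
  · exact m_d2 t.1.2.2.1 h (d_symm (m_d2 t3.1.2.2.1 k t.2.2.1))
  · exact m_d2 t.1.2.2.1 h (d_symm k)

theorem v_disj (A : ShA) {g₁ g₂ g₃ a a' b b' : Box} (t : Tri g₁ g₂ g₃) (h : Mv g₁ g₂ g₃ a a')
    (k : Mv g₁ g₂ g₃ b b') (d : Disj a b) : Disj a' b' := by
  have t2 := t_rot A t
  have t3 := t_rot A t2
  rcases h with h | h | h | h
  · exact v_d0 A t h k d
  · exact v_d0 A t2 h (v_rot k) d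
  · exact v_d0 A t3 h (v_rot (v_rot k)) d
  · have h' : Mv g₁ g₂ g₃ a a' := Or.inr (Or.inr (Or.inr h))
    rcases k with k | k | k | k
    · exact d_symm (v_d0 A t k h' (d_symm d))
    · exact d_symm (v_d0 A t2 k (v_rot h') (d_symm d))
    · exact d_symm (v_d0 A t3 k (v_rot (v_rot h')) (d_symm d))
    · rw [h.1, k.1]; exact d

theorem v_f0 (A : ShA) {g₁ g₂ g₃ a a' a'' : Box} (t : Tri g₁ g₂ g₃) (h : Mo g₁ g₂ a a')
    (k : Mv g₁ g₂ g₃ a a'') : a' = a'' := by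
  rcases k with k | k | k | ⟨-, k, -⟩
  · obtain ⟨u, hu, h1, rfl⟩ := h
    obtain ⟨v, hv, h2, rfl⟩ := k
    rw [A.comp_inj _ u v hu hv (congrArg Prod.snd (h1.symm.trans h2))]
  · exact absurd (m_d1 h (d_symm (m_d1 k (d_symm t.2.2.1)))) (d_irr a)
  · exact absurd (m_d1 h (d_symm (m_d1 k (d_symm t.2.2.2.1)))) (d_irr a)
  · exact absurd (m_d1 h (d_symm k)) (d_irr a)

theorem v_fun (A : ShA) {g₁ g₂ g₃ a a' a'' : Box} (t : Tri g₁ g₂ g₃) (h : Mv g₁ g₂ g₃ a a')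
    (k : Mv g₁ g₂ g₃ a a'') : a' = a'' := by
  have t2 := t_rot A t
  have t3 := t_rot A t2
  rcases h with h | h | h | h
  · exact v_f0 A t h k
  · exact v_f0 A t2 h (v_rot k)
  · exact v_f0 A t3 h (v_rot (v_rot k))
  · have h' : Mv g₁ g₂ g₃ a a' := Or.inr (Or.inr (Or.inr h))
    rcases k with k | k | k | k
    · exact (v_f0 A t k h').symm
    · exact (v_f0 A t2 k (v_rot h')).symm
    · exact (v_f0 A t3 k (v_rot (v_rot h'))).symm
    · rw [h.1, k.1]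

theorem tri (n : ℕ) (a z : Box) (l : z.2.length = a.2.length) (d : Deep n z.2)
    (h : dg a.2 < n) : (∃ u : Shape, u.length = ar a.2 ∧ z = sb a u) ∨ Disj z a := by
  by_cases e : z.1 = a.1
  · rcases trichoS n a.2 z.2 l d h with ⟨u, hu, h1⟩ | h1
    · exact Or.inl ⟨u, hu, Prod.ext e h1⟩
    · exact Or.inr (Or.inr h1)
  · exact Or.inr (Or.inl e)

theorem m_kid (A : ShA) {g g' a a' : Box} {i : ℕ} (t : Ty g g') (l : i < ar g.2)
    (d : Deep (dg g.2 + 2) a.2) (h : Mo g g' a a') : ∃ o, Mo (kd g i o) (kd g' i o) a a' := by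
  obtain ⟨u, hu, rfl, rfl⟩ := h
  have lk : ∀ o, (kid (idS (ar g.2)) i o).length = ar g.2 := fun o => by
    rw [A.kid_len, A.id_len]
  by_contra hc
  refine ds_allkids u (ar g.2) i l fun o => ?_
  have hd : dg (kd g i o).2 < dg g.2 + 2 := by
    cases o
    · exact lt_of_eq_of_lt (A.kid_dg0 _ _) (by omega)
    · exact lt_of_eq_of_lt (A.kid_dg1 _ _ _ l) (by omega)
  rcases tri _ (kd g i o) (sb g u) ((A.comp_len _ _ hu).trans (A.kid_len _ _ _).symm) d hd with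
    ⟨v, hv, h1⟩ | h1
  · refine absurd ⟨o, v, hv, h1, ?_⟩ hc
    have lv : v.length = ar (kid (idS (ar g.2)) i o) := by
      rw [hv, kd_eq A]
      exact A.comp_ar _ _ (lk o)
    have h2 : comp g.2 u = comp g.2 (comp (kid (idS (ar g.2)) i o) v) := by
      rw [← A.comp_assoc _ _ _ (lk o) lv, ← A.kid_eq]
      exact congrArg Prod.snd h1
    rw [A.comp_inj _ _ _ hu ((A.comp_len _ _ lv).trans (lk o)) h2, kd_eq A, ← t.2.2.1]
    simp only [sb, A.comp_assoc _ _ _ ((lk o).trans t.2.2.1) lv]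
  · rw [kd_eq A] at h1
    exact (ds_iff _ _ _ hu (lk o)).1 (h1.resolve_left fun h => h rfl)

theorem k0 (A : ShA) {g₁ g₂ g₃ a a' : Box} {i : ℕ} (t : Tri g₁ g₂ g₃) (l : i < ar g₁.2)
    (d : Deep (dg g₁.2 + 2) a.2) (h : Mo g₁ g₂ a a') : ∃ o,
      Mv (kd g₁ i o) (kd g₂ i o) (kd g₃ i o) a a' ∧ ∀ o', o' ≠ o →
        Mv (kd g₁ i o') (kd g₂ i o') (kd g₃ i o') a a ∧
          Mv (kd g₁ i o') (kd g₂ i o') (kd g₃ i o') a' a' := by
  obtain ⟨o, h1⟩ := m_kid A t.1 l d h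
  have e := t.1.2.2.1
  have e' := (A.ty_kd _ _ i i o t.1 l l).2.2.1
  refine ⟨o, Or.inl h1, fun o' n => ⟨Or.inr (Or.inr (Or.inr ⟨rfl, ?_, ?_, ?_⟩)),
    Or.inr (Or.inr (Or.inr ⟨rfl, ?_, ?_, ?_⟩))⟩⟩
  · exact m_d1 h1 (d_kids l n.symm)
  · exact m_d1 h (d_symm (d_kd A i o' (d_symm t.2.2.1)))
  · exact m_d1 h (d_symm (d_kd A i o' (d_symm t.2.2.2.1)))
  · exact m_d2 e h (d_symm (d_kd A i o' t.2.2.1))
  · exact m_d2 e' h1 (d_kids (e ▸ l) n.symm)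
  · exact m_d2 e h (d_symm (d_kd A i o' (d_symm t.2.2.2.2)))

theorem k1 (A : ShA) {g₁ g₂ g₃ a a' : Box} {i : ℕ} (t : Tri g₁ g₂ g₃) (l : i < ar g₁.2)
    (d : Deep (dg g₁.2 + 2) a.2) (h : Mv g₁ g₂ g₃ a a') : ∃ o,
      Mv (kd g₁ i o) (kd g₂ i o) (kd g₃ i o) a a' ∧ ∀ o', o' ≠ o →
        Mv (kd g₁ i o') (kd g₂ i o') (kd g₃ i o') a a ∧
          Mv (kd g₁ i o') (kd g₂ i o') (kd g₃ i o') a' a' := by
  have t2 := t_rot A t
  have t3 := t_rot A t2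
  rcases h with h | h | h | ⟨rfl, h1, h2, h3⟩
  · exact k0 A t l d h
  · obtain ⟨o, h1, h2⟩ := k0 A t2 (t.1.2.2.1 ▸ l) (t.1.2.2.2 ▸ d) h
    exact ⟨o, v_rot (v_rot h1), fun o' n =>
      ⟨v_rot (v_rot (h2 o' n).1), v_rot (v_rot (h2 o' n).2)⟩⟩
  · obtain ⟨o, h1, h2⟩ := k0 A t3 (t.2.1.2.2.1 ▸ l) (t.2.1.2.2.2 ▸ d) h
    exact ⟨o, v_rot h1, fun o' n => ⟨v_rot (h2 o' n).1, v_rot (h2 o' n).2⟩⟩
  · have key : ∀ o, Mv (kd g₁ i o) (kd g₂ i o) (kd g₃ i o) a' a' := fun o =>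
      Or.inr (Or.inr (Or.inr ⟨rfl, d_symm (d_kd A i o (d_symm h1)),
        d_symm (d_kd A i o (d_symm h2)), d_symm (d_kd A i o (d_symm h3))⟩))
    exact ⟨none, key none, fun o' _ => ⟨key o', key o'⟩⟩

theorem fl_box {b z : Box} (h : Fl b.2 z.2) :
    ∃ η j o, j < ar η.2 ∧ b = kd η j o ∧ Disj η z := by
  obtain ⟨η, j, o, h1, h2, h3⟩ := h
  exact ⟨(b.1, η), j, o, h1, Prod.ext rfl h2, Or.inr h3⟩

theorem fl_ne (A : ShA) {b z : Box} (h : b.1 ≠ z.1) (w : wt b.2 ≠ 0) :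
    ∃ η j o, j < ar η.2 ∧ b = kd η j o ∧ Disj η z := by
  obtain ⟨η, j, o, h1, h2⟩ := A.parent _ w
  exact ⟨(b.1, η), j, o, h1, Prod.ext rfl h2, Or.inl h⟩

end ShBx

open ShBx

theorem shB_main : SpShB := fun A =>
  { disj_symm := fun _ _ => d_symm
    disj_irrefl := d_irr
    disj_sb := fun _ _ _ => d_sb
    disj_kd := fun _ _ i o => d_kd A i o
    disj_kids := fun _ _ _ _ => d_kids
    disj_par := fun _ _ _ _ => d_par
    sy_tri := fun _ _ _ h => ⟨t_rot A h, t_swap h⟩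
    dc_tri := fun _ _ _ h => ⟨h.1, h.2.1, Or.inl h.2.2.1, Or.inl h.2.2.2.1, Or.inl h.2.2.2.2⟩
    tri_kd := fun _ _ _ i o h l => ⟨A.ty_kd _ _ i i o h.1 l l, A.ty_kd _ _ i i o h.2.1 l l,
      d_kd A i o (d_symm (d_kd A i o (d_symm h.2.2.1))),
      d_kd A i o (d_symm (d_kd A i o (d_symm h.2.2.2.1))),
      d_kd A i o (d_symm (d_kd A i o (d_symm h.2.2.2.2)))⟩
    tri_sb := fun _ _ _ u h l => ⟨A.ty_sb _ _ u h.1 l, A.ty_sb _ _ u h.2.1 l,
      d_sb l (d_symm (d_sb (l.trans h.1.2.2.1) (d_symm h.2.2.1))),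
      d_sb l (d_symm (d_sb (l.trans h.2.1.2.2.1) (d_symm h.2.2.2.1))),
      d_sb (l.trans h.1.2.2.1) (d_symm (d_sb (l.trans h.2.1.2.2.1) (d_symm h.2.2.2.2)))⟩
    mo_self := fun g g' e => ⟨idS (ar g.2), A.id_len _, Prod.ext rfl (A.comp_id _).symm,
      by rw [e]; exact Prod.ext rfl (A.comp_id _).symm⟩
    mo_sb := fun _ _ _ _ _ => m_sb A
    mo_kd := fun _ _ _ _ i o => m_kd A i o
    mo_ty := fun _ _ _ _ => m_ty A
    mo_wt := by
      rintro g g' _ _ e ⟨u, hu, rfl, rfl⟩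
      have h1 : wt (sb g u).2 = wt g.2 + wt u := A.comp_wt _ _ hu
      have h2 : dg (sb g u).2 = dg g.2 + dg u := A.comp_dg _ _ hu
      refine ⟨by omega, by omega, fun h => ?_⟩
      have h3 := A.wt_zero u (by omega)
      rw [h3, hu]
      exact ⟨Prod.ext rfl (A.comp_id _), by rw [e]; exact Prod.ext rfl (A.comp_id _)⟩
    mv_ty := fun _ _ _ _ _ => v_ty A
    mv_disj := fun _ _ _ _ _ _ _ => v_disj A
    mv_tri := fun _ _ _ _ _ _ _ _ _ t s h => by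
      have ha := v_ty A t s.1.1 h.1
      have hb := v_ty A t s.1.2.1 h.2.1
      have hc := v_ty A t s.2.1.2.1 h.2.2
      exact ⟨A.ty_trans _ _ _ (A.ty_symm _ _ ha) (A.ty_trans _ _ _ s.1 hb),
        A.ty_trans _ _ _ (A.ty_symm _ _ ha) (A.ty_trans _ _ _ s.2.1 hc),
        v_disj A t h.1 h.2.1 s.2.2.1, v_disj A t h.1 h.2.2 s.2.2.2.1,
        v_disj A t h.2.1 h.2.2 s.2.2.2.2⟩
    mv_fun := fun _ _ _ _ _ _ => v_fun A
    mv_sb := fun _ _ _ _ _ u t h l => by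
      rcases h with h | h | h | ⟨rfl, h1, h2, h3⟩
      · exact Or.inl (m_sb A t.1.2.2.1 h l)
      · exact Or.inr (Or.inl (m_sb A (t_rot A t).1.2.2.1 h l))
      · exact Or.inr (Or.inr (Or.inl (m_sb A t.2.1.2.2.1.symm h l)))
      · exact Or.inr (Or.inr (Or.inr ⟨rfl, d_sb l h1, d_sb l h2, d_sb l h3⟩))
    mv_kd := fun _ _ _ _ _ i o t h => by
      rcases h with h | h | h | ⟨rfl, h1, h2, h3⟩
      · exact Or.inl (m_kd A i o t.1.2.2.1 h)
      · exact Or.inr (Or.inl (m_kd A i o (t_rot A t).1.2.2.1 h))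
      · exact Or.inr (Or.inr (Or.inl (m_kd A i o t.2.1.2.2.1.symm h)))
      · exact Or.inr (Or.inr (Or.inr ⟨rfl, d_kd A i o h1, d_kd A i o h2, d_kd A i o h3⟩))
    mv_inv := fun _ _ _ _ _ t h => by
      rcases h with h | h | h | ⟨rfl, h1, h2, h3⟩
      · exact Or.inr (Or.inr (Or.inl (m_symm t.1.2.2.1 h)))
      · exact Or.inr (Or.inl (m_symm (t_rot A t).1.2.2.1 h))
      · exact Or.inl (m_symm t.2.1.2.2.1.symm h)
      · exact Or.inr (Or.inr (Or.inr ⟨rfl, h1, h3, h2⟩))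
    mv_rot := fun _ _ _ _ _ => v_rot
    tricho := tri
    mv_ex := fun g₁ g₂ g₃ t => by
      refine ⟨dg g₁.2 + 1, fun a l d => ?_⟩
      have e2 := t.1.2.2.2
      have e3 := t.2.1.2.2.2
      rcases tri _ g₁ a (l.trans t.1.1.symm) d (by omega) with ⟨u, hu, h⟩ | h1
      · exact ⟨_, Or.inl ⟨u, hu, h, rfl⟩⟩
      rcases tri _ g₂ a (l.trans t.1.2.1.symm) d (by omega) with ⟨u, hu, h⟩ | h2
      · exact ⟨_, Or.inr (Or.inl ⟨u, hu, h, rfl⟩)⟩
      rcases tri _ g₃ a (l.trans t.2.1.2.1.symm) d (by omega) with ⟨u, hu, h⟩ | h3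
      · exact ⟨_, Or.inr (Or.inr (Or.inl ⟨u, hu, h, rfl⟩))⟩
      · exact ⟨a, Or.inr (Or.inr (Or.inr ⟨rfl, h1, h2, h3⟩))⟩
    mv_kid := fun g₁ g₂ g₃ i t l => by
      refine ⟨dg g₁.2 + 2, fun a a' _ d h => ?_⟩
      obtain ⟨o, h1, h2⟩ := k1 A t l d h
      rcases o with _ | _ | _
      · exact ⟨a, a, (h2 _ (by simp)).1, (h2 _ (by simp)).1, h1⟩
      · exact ⟨a, a', (h2 _ (by simp)).1, h1, (h2 _ (by simp)).2⟩
      · exact ⟨a', a', h1, (h2 _ (by simp)).2, (h2 _ (by simp)).2⟩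
    pt_disj := fun z b l h d => Or.inr (ptS z.2 b.2 l h d)
    pts := fun a b l h h' n => by
      by_cases e : a.1 = b.1
      · exact Or.inr (ptsS _ _ l h h' fun e' => n (Prod.ext e e'))
      · exact Or.inl e
    flag1 := fun b z _ _ w d =>
      d.elim (fun n => fl_ne A n (by omega)) fun d => fl_box (flag1S A _ _ w d)
    flag2 := fun b z l l' w p d => by
      by_cases e : b.1 = z.1
      · rcases flag2S A b.2 z.2 (l.trans l'.symm) w (d.resolve_left fun n => n e) with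
          h | ⟨η, j, o, o', h1, h2, h3, h4, h5⟩
        · exact Or.inl (fl_box h)
        · exact Or.inr ⟨(b.1, η), j, o, o', h1.trans l, l ▸ h2, h3, Prod.ext rfl h4,
            Prod.ext e.symm h5⟩
      · exact Or.inl (fl_ne A e (by omega))
    sib := fun l i h => by
      refine ⟨(i, [(List.replicate (l - 2) false, false), ([false], false), ([false], false)]),
        rfl, rfl, rfl, by simp only [dg, List.length_replicate, List.length_singleton]; omega,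
        fun j o o' hj n => fl_box ?_⟩
      have h0 : (wd (List.replicate (l - 2) false, false)).length ≠ 0 := by
        rw [wd_f, List.length_map, List.length_replicate]; omega
      obtain rfl | rfl | rfl : j = 0 ∨ j = 1 ∨ j = 2 := by omega
      · exact flA A _ (inc_push _ n) (by simp [wt])
      · exact flB _ h0 (Or.inl (inc_push _ n))
      · exact flB _ h0 (Or.inr (Or.inl (inc_push _ n)))
    flags := fun η₁ η₂ j₁ j₂ o₁ o₂ l₁ l₂ h => by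
      have e : η₁.1 = η₂.1 := (Prod.mk.inj h).1
      rcases flagsS _ _ _ _ _ _ l₁ l₂ (congrArg Prod.snd h) with
        ⟨a, b⟩ | ⟨ζ, i₁, i₂, a, b, c, d, f, g⟩
      · exact Or.inl ⟨Prod.ext e a, b⟩
      · exact Or.inr ⟨(η₁.1, ζ), i₁, i₂, a, b, c, Prod.ext rfl d, Prod.ext e.symm f, g⟩
    rb_root := fun _ => ⟨rfl, ref_id 3⟩
    rb_kd := fun _ o h => ⟨(A.kid_len _ _ _).trans h.1, ref_kid _ o h.2⟩
    pi_kd := fun _ e h l => ⟨(A.kid_len _ _ _).trans h.1, mx_kid _ e h.2 l, A.kid_dg1 _ _ _ l⟩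
    pi_rb := fun _ _ h => ⟨⟨h.1, (mx_ref _ h.2.1).1⟩, (mx_ref _ h.2.1).2.1⟩
    rb3 := by
      rintro ⟨i, _ | ⟨⟨w, b⟩, σ⟩⟩ ⟨l, h⟩ a
      · simp at l
      have l' : σ.length = 2 := by simpa using l
      cases b
      · have h1 : σ = idS σ.length := h
        rw [l'] at h1
        exact ⟨w, by rw [h1]; rfl⟩
      · have h1 := A.ar_le σ
        have h2 : ar σ = 3 := a
        omega
    ref_tri := fun ρ ρ' h h' t => by
      by_cases e : ρ.1 = ρ'.1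
      · exact (refS A _ _ h.2 h'.2 (h.1.trans h'.1.symm) t.2.2.1 t.2.2.2).imp (Prod.ext e) Or.inr
      · exact Or.inr (Or.inl e)
    pi_pd := fun _ => ⟨fun _ h => h.1, fun a h b h' n => by
      by_cases e : a.1 = b.1
      · exact Or.inr (mxS A _ _ h.2.1 h'.2.1 (h.1.trans h'.1.symm) (h.2.2.trans h'.2.2.symm)
          fun e' => n (Prod.ext e e'))
      · exact Or.inl e⟩
    pi_cover := fun K z h l d k => by
      obtain ⟨P, u, a, b, c, e, f⟩ := coverS A z.2 K h d k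
      exact ⟨(z.1, P), u, ⟨a.trans l, b, c⟩, e, Prod.ext rfl f⟩ }

end Pool.Agent.MP_89edc2_al.R3
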