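import Pool.Agent.MP_89edc2_al.R3.Spec

/-!
# Row SHB, first part: facts on entries and shapes
-/

namespace Pool.Agent.MP_89edc2_al.R3.ShBx

theorem wd_app (w : List Bool) (e : Ent) : wd (w ++ e.1, e.2) = w.map some ++ wd e := by
  simp [wd]

theorem wd_f (w : List Bool) : wd (w, false) = w.map some := by simp [wd]

theorem wd_push (w : List Bool) (o : Option Bool) : wd (push w o) = w.map some ++ [o] := by
  cases o <;> simp [wd, push]

theorem inc_symm {e f : Ent} (h : Inc e f) : Inc f e := ⟨h.2, h.1⟩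

theorem inc_irr (e : Ent) : ¬ Inc e e := fun h => h.1 List.prefix_rfl

theorem inc_nil (e : Ent) : ¬ Inc e ([], false) := fun h => h.2 (by simp [wd])

theorem inc_ext {w : List Bool} {f : Ent} (e : Ent) (h : Inc (w, false) f) :
    Inc (w ++ e.1, e.2) f := by
  have hp : wd (w, false) <+: wd (w ++ e.1, e.2) := by
    rw [wd_app, wd_f]; exact List.prefix_append _ _
  refine ⟨fun h1 => h.1 (hp.trans h1), fun h2 => ?_⟩
  rcases List.prefix_or_prefix_of_prefix hp h2 with h3 | h3
  · exact h.1 h3
  · exact h.2 h3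

theorem inc_cancel (w : List Bool) (e f : Ent) :
    Inc (w ++ e.1, e.2) (w ++ f.1, f.2) ↔ Inc e f := by
  simp only [Inc, wd_app, List.prefix_append_right_inj]

theorem inc_push (w : List Bool) {o o' : Option Bool} (h : o ≠ o') :
    Inc (push w o) (push w o') := by
  simp only [Inc, wd_push, List.prefix_append_right_inj]
  simp [h, h.symm]

theorem pre_t : ∀ (w w' : List Bool) (f : Bool), wd (w, true) <+: wd (w', f) → w' = w ∧ f = true
  | [], [], f, h => by cases f <;> simp_all [wd]
  | [], _ :: _, f, h => by simp [wd] at h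
  | _ :: _, [], f, h => by cases f <;> simp [wd] at h
  | x :: w, y :: w', f, h => by
    have h' : x = y ∧ wd (w, true) <+: wd (w', f) := by simpa [wd] using h
    obtain ⟨a, b⟩ := pre_t w w' f h'.2
    exact ⟨by rw [a, h'.1], b⟩

theorem pre_f : ∀ (w w' : List Bool) (f : Bool), wd (w, false) <+: wd (w', f) → ∃ s, w' = w ++ s
  | [], w', _, _ => ⟨w', rfl⟩
  | _ :: _, [], f, h => by cases f <;> simp [wd] at h
  | x :: w, y :: w', f, h => by
    have h' : x = y ∧ wd (w, false) <+: wd (w', f) := by simpa [wd] using h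
    obtain ⟨s, a⟩ := pre_f w w' f h'.2
    exact ⟨s, by rw [a, h'.1]; rfl⟩

theorem pre_len {e f : Ent} (h : wd e <+: wd f) : e.1.length ≤ f.1.length := by
  obtain ⟨w, b⟩ := e
  obtain ⟨w', b'⟩ := f
  cases b
  · obtain ⟨s, a⟩ := pre_f _ _ _ h
    simp [a]
  · simp [(pre_t _ _ _ h).1]

theorem not_inc {e f : Ent} (h : ¬ Inc e f) : wd e <+: wd f ∨ wd f <+: wd e := by
  by_contra hc
  exact h ⟨fun a => hc (Or.inl a), fun a => hc (Or.inr a)⟩

theorem inc_tt {w w' : List Bool} (h : w ≠ w') : Inc (w, true) (w', true) :=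
  ⟨fun a => h (pre_t _ _ _ a).1.symm, fun a => h (pre_t _ _ _ a).1⟩

theorem inc_ff {w w' : List Bool} (h : w ≠ w') (hl : w.length = w'.length) :
    Inc (w, false) (w', false) := by
  have key : ∀ a b : List Bool, a.length = b.length → wd (a, false) <+: wd (b, false) → a = b := by
    intro a b l p
    obtain ⟨s, hs⟩ := pre_f _ _ _ p
    have : s = [] := by
      rw [hs, List.length_append] at l
      exact List.length_eq_zero_iff.1 (by omega)
    simp [hs, this]
  exact ⟨fun a => h (key _ _ hl a), fun a => h (key _ _ hl.symm a).symm⟩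

theorem inc_tf {w w' : List Bool} (hl : w.length < w'.length) : Inc (w, true) (w', false) :=
  ⟨fun a => by simpa using (pre_t _ _ _ a).2, fun a => by have := pre_len a; simp at this; omega⟩

theorem ds_symm : ∀ σ τ : Shape, DisjS σ τ → DisjS τ σ
  | [], _, h => by simp [DisjS] at h
  | _ :: _, [], h => by simp [DisjS] at h
  | _ :: σ, _ :: τ, h => h.imp inc_symm (ds_symm σ τ)

theorem ds_irr : ∀ σ : Shape, ¬ DisjS σ σ
  | [], h => by simp [DisjS] at h
  | e :: σ, h => h.elim (inc_irr e) (ds_irr σ)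

theorem ds_comp : ∀ σ u z : Shape, u.length = ar σ → DisjS σ z → DisjS (comp σ u) z
  | [], _, _, _, h => by simp [DisjS] at h
  | _ :: _, _, [], _, h => by simp [DisjS] at h
  | (_, true) :: σ, u, _ :: z, l, h => h.imp id (ds_comp σ u z l)
  | (_, false) :: σ, [], _ :: z, l, _ => by simp [ar] at l
  | (_, false) :: σ, e :: u, _ :: z, l, h =>
    h.imp (inc_ext e) (ds_comp σ u z (by simpa [ar] using l))

theorem ds_iff : ∀ σ u u' : Shape, u.length = ar σ → u'.length = ar σ →
    (DisjS (comp σ u) (comp σ u') ↔ DisjS u u')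
  | [], u, u', l, _ => by
    have : u = [] := List.length_eq_zero_iff.1 l
    simp [this, comp, DisjS]
  | (w, true) :: σ, u, u', l, l' => by
    have := ds_iff σ u u' l l'
    simp only [comp, DisjS, inc_irr, false_or, this]
  | (_, false) :: σ, [], _, l, _ => by simp [ar] at l
  | (_, false) :: σ, _ :: _, [], _, l => by simp [ar] at l
  | (w, false) :: σ, e :: u, e' :: u', l, l' => by
    have := ds_iff σ u u' (by simpa [ar] using l) (by simpa [ar] using l')
    simp only [comp, DisjS, inc_cancel, this]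

theorem ds_kids : ∀ (σ : Shape) (i : ℕ) (o o' : Option Bool), i < ar σ → o ≠ o' →
    DisjS (kid σ i o) (kid σ i o')
  | [], _, _, _, l, _ => by simp [ar] at l
  | (_, true) :: σ, i, o, o', l, h => Or.inr (ds_kids σ i o o' l h)
  | (w, false) :: _, 0, _, _, _, h => Or.inl (inc_push w h)
  | (_, false) :: σ, i + 1, o, o', l, h =>
    Or.inr (ds_kids σ i o o' (by simpa [ar] using l) h)

theorem ids_succ (c : ℕ) : idS (c + 1) = ([], false) :: idS c := rfl

theorem ds_id : ∀ (u : Shape) (c : ℕ), ¬ DisjS u (idS c)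
  | [], _, h => by simp [DisjS] at h
  | _ :: _, 0, h => by simp [DisjS, idS] at h
  | e :: u, c + 1, h => h.elim (inc_nil e) (ds_id u c)

theorem ds_allkids : ∀ (u : Shape) (c i : ℕ), i < c → ¬ ∀ o, DisjS u (kid (idS c) i o)
  | [], _, _, _, h => by simpa [DisjS] using h none
  | _ :: _, 0, _, l, _ => by omega
  | e :: u, c + 1, 0, _, h => by
    have h1 : ∀ o, Inc e (push [] o) := fun o => (h o).resolve_right (ds_id u c)
    cases hw : wd e with
    | nil => exact (h1 none).1 (by simp [hw])
    | cons x t => exact (h1 x).2 (by simp [hw, wd_push])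
  | e :: u, c + 1, i + 1, l, h =>
    ds_allkids u c i (by omega) fun o => (h o).resolve_left (inc_nil e)

theorem trichoS (n : ℕ) : ∀ a z : Shape, z.length = a.length → Deep n z → dg a < n →
    (∃ u : Shape, u.length = ar a ∧ z = comp a u) ∨ DisjS z a
  | [], z, l, _, _ => Or.inl ⟨[], rfl, List.length_eq_zero_iff.1 l⟩
  | _ :: _, [], l, _, _ => by simp at l
  | (w, b) :: a, (w', b') :: z, l, hd, hn => by
    have hn' : w.length + dg a < n := hn
    by_cases hi : Inc (w', b') (w, b)
    · exact Or.inr (Or.inl hi)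
    have hp : wd (w, b) <+: wd (w', b') := by
      rcases not_inc hi with h | h
      · cases b'
        · have h1 := pre_len h
          have h2 := hd (w', false) List.mem_cons_self rfl
          simp only at h1 h2
          omega
        · obtain ⟨rfl, rfl⟩ := pre_t _ _ _ h
          exact List.prefix_rfl
      · exact h
    rcases trichoS n a z (by simpa using l) (fun e he => hd e (List.mem_cons_of_mem _ he))
      (by omega) with ⟨u, hu, rfl⟩ | h
    · cases b
      · obtain ⟨s, rfl⟩ := pre_f _ _ _ hp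
        exact Or.inl ⟨(s, b') :: u, by simp [ar, hu], rfl⟩
      · obtain ⟨rfl, rfl⟩ := pre_t _ _ _ hp
        exact Or.inl ⟨u, hu, rfl⟩
    · exact Or.inr (Or.inr h)

theorem ptS : ∀ z b : Shape, z.length = b.length → ar z = 0 → dg z < dg b → DisjS z b
  | [], b, l, _, h => by
    have : b = [] := List.length_eq_zero_iff.1 l.symm
    simp [this] at h
  | _ :: _, [], l, _, _ => by simp at l
  | (_, false) :: _, _ :: _, _, h, _ => by simp [ar] at h
  | (w, true) :: z, (w', b') :: b, l, h0, h => by
    by_cases hi : Inc (w, true) (w', b')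
    · exact Or.inl hi
    have h' : w.length + dg z < w'.length + dg b := h
    have hl : w'.length ≤ w.length := by
      rcases not_inc hi with p | p
      · simp [(pre_t _ _ _ p).1]
      · exact pre_len p
    exact Or.inr (ptS z b (by simpa using l) h0 (by omega))

theorem ptsS : ∀ a b : Shape, a.length = b.length → ar a = 0 → ar b = 0 → a ≠ b → DisjS a b
  | [], b, l, _, _, h => absurd (List.length_eq_zero_iff.1 l.symm).symm h
  | _ :: _, [], l, _, _, _ => by simp at l
  | (_, false) :: _, _ :: _, _, h, _, _ => by simp [ar] at h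
  | (_, true) :: _, (_, false) :: _, _, _, h, _ => by simp [ar] at h
  | (w, true) :: a, (w', true) :: b, l, h0, h1, h => by
    by_cases hw : w = w'
    · subst hw
      exact Or.inr (ptsS a b (by simpa using l) h0 h1 fun e => h (by rw [e]))
    · exact Or.inl (inc_tt hw)

theorem wt_cons (e : Ent) (σ : Shape) : wt (e :: σ) = (wd e).length + wt σ := by
  obtain ⟨w, b⟩ := e
  cases b <;> simp [wt, wd]

theorem ex_push {e : Ent} (h : (wd e).length ≠ 0) : ∃ w o, e = push w o := by
  obtain ⟨w, b⟩ := e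
  cases b
  · rcases List.eq_nil_or_concat w with rfl | ⟨w', x, rfl⟩
    · simp [wd] at h
    · exact ⟨w', some x, by simp [push]⟩
  · exact ⟨w, none, rfl⟩

theorem wd_nil {e : Ent} (h : (wd e).length = 0) : e = ([], false) := by
  obtain ⟨w, b⟩ := e
  cases b <;> simp_all [wd]

/-- a parent that is still disjoint -/
def Fl (b z : Shape) : Prop := ∃ η j o, j < ar η ∧ b = kid η j o ∧ DisjS η z

theorem kid_cons (e : Ent) {τ : Shape} {j : ℕ} (o : Option Bool) (h : j < ar τ) :
    ∃ j', j' < ar (e :: τ) ∧ e :: kid τ j o = kid (e :: τ) j' o := by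
  obtain ⟨w, b⟩ := e
  cases b
  · exact ⟨j + 1, by simpa [ar] using h, rfl⟩
  · exact ⟨j, h, rfl⟩

theorem fl_cons (e f : Ent) {b z : Shape} (h : Fl b z) : Fl (e :: b) (f :: z) := by
  obtain ⟨η, j, o, hj, rfl, hd⟩ := h
  obtain ⟨j', h1, h2⟩ := kid_cons e o hj
  exact ⟨e :: η, j', o, h1, h2, Or.inr hd⟩

theorem flA (A : ShA) {e f : Ent} {b : Shape} (z : Shape) (h : Inc e f) (hb : wt b ≠ 0) :
    Fl (e :: b) (f :: z) := by
  obtain ⟨τ, j, o, hj, rfl⟩ := A.parent b hb
  obtain ⟨j', h1, h2⟩ := kid_cons e o hj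
  exact ⟨e :: τ, j', o, h1, h2, Or.inl h⟩

theorem flB {e : Ent} (f : Ent) {b z : Shape} (h : (wd e).length ≠ 0) (hb : DisjS b z) :
    Fl (e :: b) (f :: z) := by
  obtain ⟨w, o, rfl⟩ := ex_push h
  exact ⟨(w, false) :: b, 0, o, by simp [ar], rfl, Or.inr hb⟩

theorem flC {e f : Ent} (b z : Shape) (h : Inc e f) (hl : (wd f).length < (wd e).length) :
    Fl (e :: b) (f :: z) := by
  obtain ⟨w, o, rfl⟩ := ex_push (e := e) (by omega)
  have hp : wd (w, false) <+: wd (push w o) := by
    rw [wd_push, wd_f]; exact List.prefix_append _ _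
  refine ⟨(w, false) :: b, 0, o, by simp [ar], rfl, Or.inl ⟨fun p => ?_, fun p => ?_⟩⟩
  · have h1 : (wd f).length ≤ (wd (w, false)).length := by
      rw [wd_push] at hl
      rw [wd_f]
      simp only [List.length_append, List.length_singleton] at hl
      omega
    have := p.eq_of_length_le h1
    exact h.2 (this ▸ hp)
  · exact h.2 (p.trans hp)

theorem flag1S (A : ShA) : ∀ b z : Shape, wt z < wt b → DisjS b z → Fl b z
  | [], _, _, h => by simp [DisjS] at h
  | _ :: _, [], _, h => by simp [DisjS] at h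
  | e :: b, f :: z, hw, h => by
    rw [wt_cons, wt_cons] at hw
    rcases h with h | h
    · by_cases hb : wt b = 0
      · exact flC b z h (by omega)
      · exact flA A z h hb
    · by_cases he : (wd e).length = 0
      · exact fl_cons e f (flag1S A b z (by omega) h)
      · exact flB f he h

theorem flag2S (A : ShA) : ∀ b z : Shape, b.length = z.length → wt z = wt b → DisjS b z →
    Fl b z ∨ ∃ η j o o', ar η = b.length ∧ j < b.length ∧ o ≠ o' ∧ b = kid η j o ∧
      z = kid η j o'
  | [], _, _, _, h => by simp [DisjS] at h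
  | _ :: _, [], _, _, h => by simp [DisjS] at h
  | e :: b, f :: z, l, hw, h => by
    rw [wt_cons, wt_cons] at hw
    have l' : b.length = z.length := by simpa using l
    rcases h with h | h
    · by_cases hb : wt b = 0
      swap
      · exact Or.inl (flA A z h hb)
      by_cases hl : (wd f).length < (wd e).length
      · exact Or.inl (flC b z h hl)
      have he : (wd e).length ≠ 0 := fun h0 => inc_nil f (wd_nil h0 ▸ inc_symm h)
      obtain ⟨w, o, rfl⟩ := ex_push he
      obtain ⟨w', o', rfl⟩ := ex_push (e := f) (by omega)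
      have hz : z = b := by rw [A.wt_zero z (by omega), A.wt_zero b hb, l']
      subst hz
      have hlen : w.length = w'.length := by
        simp only [wd_push, List.length_append, List.length_map, List.length_singleton] at hw
        omega
      by_cases hww : w = w'
      · subst hww
        refine Or.inr ⟨(w, false) :: z, 0, o, o', ?_, by simp, ?_, rfl, rfl⟩
        · have := A.id_ar z.length
          rw [← A.wt_zero z hb] at this
          simp [ar, this]
        · rintro rfl
          exact inc_irr _ h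
      · refine Or.inl ⟨(w, false) :: z, 0, o, by simp [ar], rfl, Or.inl ?_⟩
        have h1 := inc_ff (Ne.symm hww) hlen.symm
        cases o'
        · exact inc_symm (by simpa [push] using inc_ext ([], true) h1)
        · exact inc_symm (inc_ext ([_], false) h1)
    · by_cases he : (wd e).length = 0
      swap
      · exact Or.inl (flB f he h)
      by_cases hf : (wd f).length = 0
      swap
      · exact Or.inl (fl_cons e f (flag1S A b z (by omega) h))
      rw [wd_nil he, wd_nil hf]
      rcases flag2S A b z l' (by omega) h with h1 | ⟨η, j, o, o', h1, h2, h3, h4, h5⟩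
      · exact Or.inl (fl_cons _ _ h1)
      · exact Or.inr ⟨([], false) :: η, j + 1, o, o', by simp [ar, h1], by simpa using h2, h3,
          by rw [h4]; rfl, by rw [h5]; rfl⟩

theorem push_inj {w w' : List Bool} {o o' : Option Bool} (h : push w o = push w' o') :
    w = w' ∧ o = o' := by
  cases o <;> cases o' <;> simp_all [push]

theorem adj_zero (i : ℕ) (o : Option Bool) : adj i o 0 = 0 := by simp [adj]

theorem adj_succ (i j : ℕ) (o : Option Bool) : adj (i + 1) o (j + 1) = adj i o j + 1 := by
  unfold adj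
  by_cases h : o = none ∧ i < j
  · rw [if_pos h, if_pos ⟨h.1, by omega⟩]; omega
  · rw [if_neg h, if_neg fun a => h ⟨a.1, by omega⟩]

theorem flagsS : ∀ (η₁ η₂ : Shape) (j₁ j₂ : ℕ) (o₁ o₂ : Option Bool), j₁ < ar η₁ → j₂ < ar η₂ →
    kid η₁ j₁ o₁ = kid η₂ j₂ o₂ → (η₁ = η₂ ∧ j₁ = j₂ ∧ o₁ = o₂) ∨
      ∃ ζ i₁ i₂, i₁ < ar ζ ∧ i₂ < ar ζ ∧ i₁ ≠ i₂ ∧ η₁ = kid ζ i₂ o₂ ∧ η₂ = kid ζ i₁ o₁ ∧
        j₁ = adj i₂ o₂ i₁ ∧ j₂ = adj i₁ o₁ i₂
  | [], _, _, _, _, _, l, _, _ => by simp [ar] at l
  | _ :: _, [], _, _, _, _, _, l, _ => by simp [ar] at l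
  | (w, true) :: σ, (w', true) :: τ, j₁, j₂, o₁, o₂, l₁, l₂, h => by
    simp only [kid, List.cons.injEq, Prod.mk.injEq, and_true] at h
    obtain ⟨rfl, h⟩ := h
    rcases flagsS σ τ j₁ j₂ o₁ o₂ l₁ l₂ h with ⟨rfl, a⟩ | ⟨ζ, i₁, i₂, a, b, c, rfl, rfl, d⟩
    · exact Or.inl ⟨rfl, a⟩
    · exact Or.inr ⟨(w, true) :: ζ, i₁, i₂, a, b, c, rfl, rfl, d⟩
  | (w, true) :: σ, (w', false) :: τ, j₁, 0, o₁, o₂, l₁, _, h => by
    simp only [kid, List.cons.injEq] at h
    obtain ⟨h, rfl⟩ := h
    obtain ⟨rfl, rfl⟩ := push_inj (o := none) h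
    exact Or.inr ⟨(w, false) :: σ, j₁ + 1, 0, by simpa [ar] using l₁, by simp [ar], by omega,
      rfl, rfl, by simp [adj], by simp [adj]⟩
  | (_, true) :: _, (_, false) :: _, _, _ + 1, _, _, _, _, h => by simp [kid] at h
  | (w, false) :: σ, (w', true) :: τ, 0, j₂, o₁, o₂, _, l₂, h => by
    simp only [kid, List.cons.injEq] at h
    obtain ⟨h, rfl⟩ := h
    obtain ⟨rfl, rfl⟩ := push_inj (o' := none) h
    exact Or.inr ⟨(w, false) :: τ, 0, j₂ + 1, by simp [ar], by simpa [ar] using l₂, by omega,
      rfl, rfl, by simp [adj], by simp [adj]⟩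
  | (_, false) :: _, (_, true) :: _, _ + 1, _, _, _, _, _, h => by simp [kid] at h
  | (w, false) :: σ, (w', false) :: τ, 0, 0, o₁, o₂, _, _, h => by
    simp only [kid, List.cons.injEq] at h
    obtain ⟨h, rfl⟩ := h
    obtain ⟨rfl, rfl⟩ := push_inj h
    exact Or.inl ⟨rfl, rfl, rfl⟩
  | (w, false) :: σ, (w', false) :: τ, 0, k + 1, o₁, o₂, _, l₂, h => by
    simp only [kid, List.cons.injEq] at h
    obtain ⟨h, rfl⟩ := h
    cases o₁ with
    | none => simp [push] at h
    | some x =>
      exact Or.inr ⟨(w, false) :: τ, 0, k + 1, by simp [ar], by simpa [ar] using l₂, by omega,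
        rfl, by rw [← h]; rfl, by simp [adj], by simp [adj]⟩
  | (w, false) :: σ, (w', false) :: τ, k + 1, 0, o₁, o₂, l₁, _, h => by
    simp only [kid, List.cons.injEq] at h
    obtain ⟨h, rfl⟩ := h
    cases o₂ with
    | none => simp [push] at h
    | some x =>
      exact Or.inr ⟨(w', false) :: σ, k + 1, 0, by simpa [ar] using l₁, by simp [ar], by omega,
        by rw [h]; rfl, rfl, by simp [adj], by simp [adj]⟩
  | (w, false) :: σ, (w', false) :: τ, k₁ + 1, k₂ + 1, o₁, o₂, l₁, l₂, h => by
    simp only [kid, List.cons.injEq, Prod.mk.injEq, and_true] at h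
    obtain ⟨rfl, h⟩ := h
    rcases flagsS σ τ k₁ k₂ o₁ o₂ (by simpa [ar] using l₁) (by simpa [ar] using l₂) h with
      ⟨rfl, rfl, a⟩ | ⟨ζ, i₁, i₂, a, b, c, rfl, rfl, rfl, rfl⟩
    · exact Or.inl ⟨rfl, rfl, a⟩
    · exact Or.inr ⟨(w, false) :: ζ, i₁ + 1, i₂ + 1, by simpa [ar] using a,
        by simpa [ar] using b, by omega, rfl, rfl, (adj_succ _ _ _).symm, (adj_succ _ _ _).symm⟩

theorem ref_id : ∀ c, Ref (idS c)
  | 0 => trivial
  | c + 1 => by
    change idS c = idS (idS c).length
    simp [idS]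

theorem ref_kid : ∀ (σ : Shape) (o : Option Bool), Ref σ → Ref (kid σ 0 o)
  | [], _, h => h
  | (_, true) :: σ, o, h => ref_kid σ o h
  | (_, false) :: σ, none, h => by
    have h' : σ = idS σ.length := h
    have := ref_id σ.length
    rw [← h'] at this
    exact this
  | (_, false) :: _, some _, h => h

theorem mx_kid : ∀ (σ : Shape) (e : Bool), Ref σ → 0 < ar σ → Mx (kid σ 0 (some e))
  | [], _, _, l => by simp [ar] at l
  | (_, true) :: σ, e, h, l => mx_kid σ e h l
  | (_, false) :: _, _, h, _ => ⟨by simp, h⟩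

theorem mx_ref : ∀ σ : Shape, Mx σ → Ref σ ∧ 1 ≤ ar σ ∧ 1 ≤ dg σ
  | [], h => h.elim
  | (_, true) :: σ, h => by
    obtain ⟨a, b, c⟩ := mx_ref σ h
    exact ⟨a, b, le_add_left c⟩
  | (w, false) :: σ, h => ⟨h.2, by simp [ar], le_add_right (List.length_pos_iff.2 h.1)⟩

theorem refS (A : ShA) : ∀ σ τ : Shape, Ref σ → Ref τ → σ.length = τ.length → ar σ = ar τ →
    dg σ = dg τ → σ = τ ∨ DisjS σ τ
  | [], τ, _, _, l, _, _ => Or.inl (List.length_eq_zero_iff.1 l.symm).symm
  | _ :: _, [], _, _, l, _, _ => by simp at l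
  | (w, true) :: σ, (w', true) :: τ, h, h', l, a, d => by
    by_cases hw : w = w'
    · subst hw
      exact (refS A σ τ h h' (by simpa using l) a (by simpa [dg] using d)).imp
        (fun e => by rw [e]) Or.inr
    · exact Or.inr (Or.inl (inc_tt hw))
  | (_, true) :: σ, (_, false) :: τ, _, h', l, a, _ => by
    have h1 : τ = idS τ.length := h'
    have h2 := A.id_ar τ.length
    have h3 := A.ar_le σ
    rw [← h1] at h2
    simp only [ar, List.length_cons] at a l
    omega
  | (_, false) :: σ, (_, true) :: τ, h', _, l, a, _ => by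
    have h1 : σ = idS σ.length := h'
    have h2 := A.id_ar σ.length
    have h3 := A.ar_le τ
    rw [← h1] at h2
    simp only [ar, List.length_cons] at a l
    omega
  | (w, false) :: σ, (w', false) :: τ, h, h', l, _, d => by
    have h1 : σ = idS σ.length := h
    have h2 : τ = idS τ.length := h'
    have h3 : σ = τ := by rw [h1, h2]; congr 1; simpa using l
    subst h3
    by_cases hw : w = w'
    · exact Or.inl (by rw [hw])
    · exact Or.inr (Or.inl (inc_ff hw (by simpa [dg] using d)))

theorem mxS (A : ShA) : ∀ σ τ : Shape, Mx σ → Mx τ → σ.length = τ.length → dg σ = dg τ →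
    σ ≠ τ → DisjS σ τ
  | [], _, h, _, _, _, _ => h.elim
  | _ :: _, [], _, h, _, _, _ => h.elim
  | (w, true) :: σ, (w', true) :: τ, h, h', l, d, n => by
    by_cases hw : w = w'
    · subst hw
      exact Or.inr (mxS A σ τ h h' (by simpa using l) (by simpa [dg] using d)
        fun e => n (by rw [e]))
    · exact Or.inl (inc_tt hw)
  | (_, true) :: σ, (_, false) :: τ, h, h', _, d, _ => by
    have h2 := A.id_dg τ.length
    have h3 := (mx_ref σ h).2.2
    rw [← h'.2] at h2
    simp only [dg] at d
    exact Or.inl (inc_tf (by omega))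
  | (_, false) :: σ, (_, true) :: τ, h', h, _, d, _ => by
    have h2 := A.id_dg σ.length
    have h3 := (mx_ref τ h).2.2
    rw [← h'.2] at h2
    simp only [dg] at d
    exact Or.inl (inc_symm (inc_tf (by omega)))
  | (w, false) :: σ, (w', false) :: τ, h, h', l, d, n => by
    have h3 : σ = τ := by rw [h.2, h'.2]; congr 1; simpa using l
    subst h3
    exact Or.inl (inc_ff (fun e => n (by rw [e])) (by simpa [dg] using d))

theorem coverS (A : ShA) : ∀ (z : Shape) (K : ℕ), 1 ≤ K → Deep K z → K ≤ dg z →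
    ∃ P u : Shape, P.length = z.length ∧ Mx P ∧ dg P = K ∧ u.length = ar P ∧ z = comp P u
  | [], K, h, _, d => by simp only [dg] at d; omega
  | (w, f) :: z, K, h, hd, d => by
    by_cases hK : K ≤ w.length
    · refine ⟨(w.take K, false) :: idS z.length, (w.drop K, f) :: z, by simp [A.id_len],
        ⟨?_, by rw [A.id_len]⟩, ?_, by simp [ar, A.id_ar], ?_⟩
      · apply List.length_pos_iff.1
        rw [List.length_take]
        omega
      · simp only [dg, A.id_dg, List.length_take]
        omega
      · simp only [comp, List.take_append_drop, A.id_comp]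
    · cases f
      · exact absurd (hd (w, false) List.mem_cons_self rfl) hK
      · simp only [dg] at d
        obtain ⟨P, u, a, b, c, e, rfl⟩ := coverS A z (K - w.length) (by omega)
          (A.deep_mono _ K _ (by omega) fun e he => hd e (List.mem_cons_of_mem _ he)) (by omega)
        exact ⟨(w, true) :: P, u, by simp [a], b, by simp only [dg]; omega, e, rfl⟩

end Pool.Agent.MP_89edc2_al.R3.ShBx
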