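import Pool.Agent.MP_89edc2_al.R3.Spec

/-! Flags and reference boxes. -/

namespace Pool.Agent.MP_89edc2_al.R3.ShB2x

theorem wd_f (w : List Bool) : wd (w, false) = w.map some := by simp [wd]

theorem wd_t (w : List Bool) : wd (w, true) = w.map some ++ [none] := by simp [wd]

theorem wd_push (w : List Bool) (o : Option Bool) : wd (push w o) = w.map some ++ [o] := by
  cases o <;> simp [wd, push]

theorem ent_cases (e : Ent) : e = ([], false) ∨ ∃ w o, e = push w o := by
  rcases e with ⟨w, _ | _⟩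
  · rcases List.eq_nil_or_concat w with rfl | ⟨v, b, rfl⟩
    · exact .inl rfl
    · exact .inr ⟨v, some b, by simp [push]⟩
  · exact .inr ⟨w, none, rfl⟩

theorem map_inj {w v : List Bool} (h : w.map some = v.map some) : w = v :=
  List.map_injective_iff.2 (Option.some_injective _) h

theorem nm (w : List Bool) : none ∉ w.map some := by simp

theorem wd_inj {e e' : Ent} (h : wd e = wd e') : e = e' := by
  rcases e with ⟨w, _ | _⟩ <;> rcases e' with ⟨v, _ | _⟩ <;> simp only [wd_f, wd_t] at h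
  · rw [map_inj h]
  · exact absurd (h ▸ List.mem_append_right _ (List.mem_singleton_self _)) (nm w)
  · exact absurd (h ▸ List.mem_append_right _ (List.mem_singleton_self _)) (nm v)
  · rw [map_inj (List.append_cancel_right h)]

theorem push_inj {w v : List Bool} {o o' : Option Bool} (h : push w o = push v o') :
    w = v ∧ o = o' := by
  have e := congrArg wd h
  rw [wd_push, wd_push] at e
  obtain ⟨e1, e2⟩ := List.append_inj' e rfl
  exact ⟨map_inj e1, by simpa using e2⟩

theorem inc_len {e e' : Ent} (h : (wd e).length = (wd e').length) (n : e ≠ e') : Inc e e' :=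
  ⟨fun p => n (wd_inj (p.eq_of_length h)), fun p => n (wd_inj (p.eq_of_length h.symm)).symm⟩

theorem inc_push (w : List Bool) {o o' : Option Bool} (h : o ≠ o') :
    Inc (push w o) (push w o') :=
  inc_len (by simp [wd_push]) fun e => h (push_inj e).2

theorem pre_t {w : List Bool} {e : Ent} (h : wd (w, true) <+: wd e) : e = (w, true) := by
  rcases e with ⟨v, _ | _⟩
  · rw [wd_t, wd_f] at h
    exact absurd (h.subset (List.mem_append_right _ (List.mem_singleton_self _))) (nm v)
  · rw [wd_t, wd_t, List.prefix_concat_iff] at h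
    rcases h with h | h
    · rw [map_inj (List.append_cancel_right h)]
    · exact absurd (h.subset (List.mem_append_right _ (List.mem_singleton_self _))) (nm v)

theorem inc_tt {w v : List Bool} (h : w ≠ v) : Inc (w, true) (v, true) :=
  ⟨fun p => h (congrArg Prod.fst (pre_t p)).symm, fun p => h (congrArg Prod.fst (pre_t p))⟩

theorem inc_tf {w v : List Bool} (h : w.length < v.length) : Inc (w, true) (v, false) := by
  refine ⟨fun p => by simpa using pre_t p, fun p => ?_⟩
  have e := wd_inj (p.eq_of_length_le (by simp [wd_t, wd_f]; omega))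
  simp at e

theorem ar_app (A B : Shape) : ar (A ++ B) = ar A + ar B := by
  induction A with
  | nil => simp [ar]
  | cons e A ih => rcases e with ⟨w, _ | _⟩ <;> simp [ar, ih]; omega

theorem wt_cons (e : Ent) (A : Shape) : wt (e :: A) = (wd e).length + wt A := by
  rcases e with ⟨w, _ | _⟩ <;> simp [wt, wd]

theorem wt_app (A B : Shape) : wt (A ++ B) = wt A + wt B := by
  induction A with
  | nil => simp [wt]
  | cons e A ih => simp only [List.cons_append, wt_cons, ih]; omega

theorem kid_right (A B : Shape) (i : ℕ) (o : Option Bool) :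
    kid (A ++ B) (ar A + i) o = A ++ kid B i o := by
  induction A with
  | nil => simp [ar]
  | cons e A ih =>
    rcases e with ⟨w, _ | _⟩
    · simp only [List.cons_append, ar, Nat.add_right_comm (ar A) 1 i, kid, ih]
    · simp only [List.cons_append, ar, kid, ih]

theorem kid_left (A B : Shape) (i : ℕ) (o : Option Bool) (h : i < ar A) :
    kid (A ++ B) i o = kid A i o ++ B := by
  induction A generalizing i with
  | nil => simp [ar] at h
  | cons e A ih =>
    rcases e with ⟨w, _ | _⟩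
    · rcases i with _ | i
      · simp only [List.cons_append, kid]
      · simp only [List.cons_append, kid, ih i (by simpa [ar] using h)]
    · simp only [List.cons_append, kid, ih i h]

theorem disj_app (A A' B B' : Shape) {e e' : Ent} (h : A.length = A'.length) (i : Inc e e') :
    DisjS (A ++ e :: B) (A' ++ e' :: B') := by
  induction A generalizing A' with
  | nil =>
    obtain rfl := List.length_eq_zero_iff.1 h.symm
    exact .inl i
  | cons x A ih =>
    rcases A' with _ | ⟨x', A'⟩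
    · simp at h
    · exact .inr (ih A' (by simpa using h))

theorem disj_ex {σ τ : Shape} (h : DisjS σ τ) : ∃ A A' B B' e e', σ = A ++ e :: B ∧
    τ = A' ++ e' :: B' ∧ A.length = A'.length ∧ Inc e e' := by
  induction σ generalizing τ with
  | nil => exact h.elim
  | cons x σ ih =>
    rcases τ with _ | ⟨x', τ⟩
    · exact h.elim
    · rcases h with h | h
      · exact ⟨[], [], σ, τ, x, x', rfl, rfl, rfl, h⟩
      · obtain ⟨A, A', B, B', e, e', rfl, rfl, l, i⟩ := ih h
        exact ⟨x :: A, x' :: A', B, B', e, e', rfl, rfl, by simp [l], i⟩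

theorem flagS (h : ShA) {σ τ : Shape} (d : DisjS σ τ) :
    (∃ η j o, j < ar η ∧ σ = kid η j o ∧ DisjS η τ) ∨
      ∃ A A' B B' w o e', σ = A ++ push w o :: B ∧ τ = A' ++ e' :: B' ∧
        A.length = A'.length ∧ wt A = 0 ∧ wt B = 0 ∧ Inc (push w o) e' ∧
        w.map some <+: wd e' := by
  obtain ⟨A, A', B, B', e, e', rfl, rfl, l, i⟩ := disj_ex d
  by_cases hA : wt A = 0
  · by_cases hB : wt B = 0
    · rcases ent_cases e with rfl | ⟨w, o, rfl⟩
      · exact absurd (by simp [wd]) i.1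
      · by_cases p : w.map some <+: wd e'
        · exact .inr ⟨A, A', B, B', w, o, e', rfl, rfl, l, hA, hB, i, p⟩
        · refine .inl ⟨A ++ (w, false) :: B, ar A + 0, o, by simp [ar_app, ar],
            (kid_right A ((w, false) :: B) 0 o).symm,
            disj_app _ _ _ _ l ⟨by rwa [wd_f], fun q => i.2 ?_⟩⟩
          rw [wd_f] at q
          rw [wd_push]
          exact q.trans (List.prefix_append _ _)
    · obtain ⟨ρ, j, o, hj, rfl⟩ := h.parent B hB
      refine .inl ⟨(A ++ [e]) ++ ρ, ar (A ++ [e]) + j, o, by rw [ar_app _ ρ]; omega,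
        by rw [kid_right]; simp, ?_⟩
      rw [List.append_assoc]
      exact disj_app _ _ _ _ l i
  · obtain ⟨ρ, j, o, hj, rfl⟩ := h.parent A hA
    exact .inl ⟨ρ ++ e :: B, j, o, by rw [ar_app]; omega, (kid_left _ _ _ _ hj).symm,
      disj_app _ _ _ _ ((h.kid_len ρ j o).symm.trans l) i⟩

theorem par (h : ShA) {b z : Box} (w : wt b.2 ≠ 0) (n : b.1 ≠ z.1) :
    ∃ η j o, j < ar η.2 ∧ b = kd η j o ∧ Disj η z := by
  obtain ⟨ρ, j, o, hj, e⟩ := h.parent b.2 w
  exact ⟨(b.1, ρ), j, o, hj, Prod.ext rfl e, .inl n⟩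

theorem pre_lt {w : List Bool} {o : Option Bool} {e : Ent} (i : Inc (push w o) e)
    (p : w.map some <+: wd e) : w.length < (wd e).length := by
  by_contra n
  refine i.2 ?_
  rw [wd_push, ← p.eq_of_length_le (by simpa using n)]
  exact List.prefix_append _ _

theorem flag1 (h : ShA) : ∀ b z : Box, b.2.length = 3 → z.2.length = 3 → wt z.2 < wt b.2 →
    Disj b z → ∃ η j o, j < ar η.2 ∧ b = kd η j o ∧ Disj η z := by
  intro b z _ _ hw d
  rcases d with d | d
  · exact par h (by omega) d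
  · rcases flagS h d with ⟨η, j, o, hj, e, d'⟩ | ⟨A, A', B, B', w, o, e', e1, e2, -, a, c, i, p⟩
    · exact ⟨(b.1, η), j, o, hj, Prod.ext rfl e, .inr d'⟩
    · have := pre_lt i p
      rw [e1, e2, wt_app, wt_app, wt_cons, wt_cons, wd_push, a, c] at hw
      simp at hw
      omega

theorem flag2 (h : ShA) : ∀ b z : Box, b.2.length = 3 → z.2.length = 3 → wt z.2 = wt b.2 →
    1 ≤ wt b.2 → Disj b z → (∃ η j o, j < ar η.2 ∧ b = kd η j o ∧ Disj η z) ∨
      ∃ η j o o', ar η.2 = 3 ∧ j < 3 ∧ o ≠ o' ∧ b = kd η j o ∧ z = kd η j o' := by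
  intro b z lb lz hw h1 d
  by_cases n : b.1 = z.1
  swap
  · exact .inl (par h (by omega) n)
  rcases flagS h (d.resolve_left (not_not.2 n)) with
    ⟨η, j, o, hj, e, d'⟩ | ⟨A, A', B, B', w, o, e', e1, e2, l, a, c, i, p⟩
  · exact .inl ⟨(b.1, η), j, o, hj, Prod.ext rfl e, .inr d'⟩
  · have q := pre_lt i p
    rw [e1, e2, wt_app, wt_app, wt_cons, wt_cons, wd_push, a, c] at hw
    rw [e1] at lb
    rw [e2] at lz
    simp only [List.length_append, List.length_map, List.length_cons, List.length_nil] at hw lb lz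
    have eA : A' = A := by rw [h.wt_zero A a, h.wt_zero A' (by omega), l]
    have eB : B' = B := by
      rw [h.wt_zero B c, h.wt_zero B' (by omega), show B'.length = B.length by omega]
    obtain ⟨t, ht⟩ := p
    have lt := congrArg List.length ht
    simp only [List.length_append, List.length_map] at lt
    obtain ⟨o', rfl⟩ := List.length_eq_one_iff.1 (show t.length = 1 by omega)
    obtain rfl : e' = push w o' := wd_inj (by rw [wd_push, ht])
    have a1 : ar A = A.length := by rw [h.wt_zero A a, h.id_ar, h.id_len]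
    have a2 : ar B = B.length := by rw [h.wt_zero B c, h.id_ar, h.id_len]
    refine .inr ⟨(b.1, A ++ (w, false) :: B), ar A + 0, o, o', ?_, by omega, ?_,
      Prod.ext rfl (e1.trans (kid_right A ((w, false) :: B) 0 o).symm), Prod.ext n.symm ?_⟩
    · simp only [ar_app, ar]
      omega
    · rintro rfl
      exact i.1 List.prefix_rfl
    · rw [e2, eA, eB]
      exact (kid_right A ((w, false) :: B) 0 o').symm

theorem sib : ∀ l (i : Fin 40), 3 ≤ l → ∃ η : Box, η.1 = i ∧ η.2.length = 3 ∧ ar η.2 = 3 ∧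
    dg η.2 = l ∧ ∀ j o o', j < 3 → o ≠ o' →
      ∃ θ k o'', k < ar θ.2 ∧ kd η j o = kd θ k o'' ∧ Disj θ (kd η j o') := by
  intro l i hl
  obtain ⟨w, hw⟩ : ∃ w : List Bool, w.length + 3 = l :=
    ⟨List.replicate (l - 3) false, by simp; omega⟩
  refine ⟨(i, [(w ++ [false], false), ([false], false), ([false], false)]), rfl, rfl, rfl,
    by simp [dg]; omega, fun j o o' hj n => ?_⟩
  have k : ∀ A : Shape, ar A + 0 < ar (A ++ [([], false)]) := fun A => by simp [ar_app, ar]
  obtain rfl | rfl | rfl : j = 0 ∨ j = 1 ∨ j = 2 := by omega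
  · exact ⟨(i, [push (w ++ [false]) o, ([false], false)] ++ [([], false)]), _, some false, k _,
      Prod.ext rfl (kid_right [push (w ++ [false]) o, ([false], false)] [([], false)] 0
        (some false)).symm,
      .inr (.inl (inc_push _ n))⟩
  · exact ⟨(i, [(w ++ [false], false), push [false] o] ++ [([], false)]), _, some false, k _,
      Prod.ext rfl (kid_right [(w ++ [false], false), push [false] o] [([], false)] 0
        (some false)).symm,
      .inr (.inr (.inl (inc_push _ n)))⟩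
  · exact ⟨(i, [(w, false), ([false], false), push [false] o]), 0, some false,
      Nat.succ_pos _, rfl, .inr (.inr (.inr (.inl (inc_push _ n))))⟩

theorem kid_cases (e : Ent) (σ : Shape) (i : ℕ) (h : i < ar (e :: σ)) :
    (∃ w, e = (w, false) ∧ i = 0) ∨ ∃ i', i' < ar σ ∧ i = ar [e] + i' := by
  rcases e with ⟨w, _ | _⟩
  · rcases i with _ | i
    · exact .inl ⟨w, rfl, rfl⟩
    · exact .inr ⟨i, by simpa [ar] using h, by simp [ar]; omega⟩
  · exact .inr ⟨i, h, by simp [ar]⟩

theorem kid_c (e : Ent) (σ : Shape) (i : ℕ) (o : Option Bool) :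
    kid (e :: σ) (ar [e] + i) o = e :: kid σ i o := kid_right [e] σ i o

theorem adj_push (w : List Bool) (o : Option Bool) (j : ℕ) :
    ar [push w o] + j = adj 0 o (j + 1) := by
  cases o <;> simp [adj, push, ar]
  omega

theorem adj_add (c i j : ℕ) (o : Option Bool) : c + adj i o j = adj (c + i) o (c + j) := by
  cases o with
  | none =>
    simp only [adj, true_and]
    split_ifs <;> omega
  | some b => simp [adj]

theorem flagsS : ∀ (σ τ : Shape) i j o o', i < ar σ → j < ar τ → kid σ i o = kid τ j o' →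
    (σ = τ ∧ i = j ∧ o = o') ∨ ∃ ζ i₁ i₂, i₁ < ar ζ ∧ i₂ < ar ζ ∧ i₁ ≠ i₂ ∧ σ = kid ζ i₂ o' ∧
      τ = kid ζ i₁ o ∧ i = adj i₂ o' i₁ ∧ j = adj i₁ o i₂ := by
  intro σ
  induction σ with
  | nil => exact fun _ _ _ _ _ h => absurd h (Nat.not_lt_zero _)
  | cons e σ ih =>
    rintro (_ | ⟨e', τ⟩) i j o o' hi hj h
    · exact absurd hj (Nat.not_lt_zero _)
    have k1 := kid_cases e σ i hi
    have k2 := kid_cases e' τ j hj
    clear hi hj
    rcases k1 with ⟨w, rfl, rfl⟩ | ⟨i, hi, rfl⟩ <;> rcases k2 with ⟨w', rfl, rfl⟩ | ⟨j, hj, rfl⟩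
    · obtain ⟨h1, rfl⟩ := List.cons.inj h
      obtain ⟨rfl, rfl⟩ := push_inj h1
      exact .inl ⟨rfl, rfl, rfl⟩
    · rw [kid_c] at h
      obtain ⟨rfl, rfl⟩ := List.cons.inj h
      exact .inr ⟨(w, false) :: τ, 0, j + 1, Nat.succ_pos _, Nat.succ_lt_succ hj, by omega, rfl,
        rfl, by simp [adj], adj_push w o j⟩
    · rw [kid_c] at h
      obtain ⟨rfl, rfl⟩ := List.cons.inj h
      exact .inr ⟨(w', false) :: σ, i + 1, 0, Nat.succ_lt_succ hi, Nat.succ_pos _, by omega, rfl,
        rfl, adj_push w' o' i, by simp [adj]⟩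
    · rw [kid_c, kid_c] at h
      obtain ⟨rfl, g⟩ := List.cons.inj h
      rcases ih τ i j o o' hi hj g with ⟨rfl, rfl, rfl⟩ | ⟨ζ, a, b, ha, hb, n, rfl, rfl, rfl, rfl⟩
      · exact .inl ⟨rfl, rfl, rfl⟩
      · have := ar_app [e] ζ
        rw [List.singleton_append] at this
        exact .inr ⟨e :: ζ, ar [e] + a, ar [e] + b, by omega, by omega, by omega,
          (kid_c _ _ _ _).symm, (kid_c _ _ _ _).symm, adj_add _ _ _ _, adj_add _ _ _ _⟩

theorem flags : ∀ η₁ η₂ : Box, ∀ j₁ j₂ o₁ o₂, j₁ < ar η₁.2 → j₂ < ar η₂.2 →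
    kd η₁ j₁ o₁ = kd η₂ j₂ o₂ → (η₁ = η₂ ∧ j₁ = j₂ ∧ o₁ = o₂) ∨
      ∃ ζ i₁ i₂, i₁ < ar ζ.2 ∧ i₂ < ar ζ.2 ∧ i₁ ≠ i₂ ∧ η₁ = kd ζ i₂ o₂ ∧ η₂ = kd ζ i₁ o₁ ∧
        j₁ = adj i₂ o₂ i₁ ∧ j₂ = adj i₁ o₁ i₂ := by
  intro η₁ η₂ j₁ j₂ o₁ o₂ h₁ h₂ h
  have c : η₁.1 = η₂.1 := (congrArg Prod.fst h :)
  rcases flagsS _ _ _ _ _ _ h₁ h₂ (congrArg Prod.snd h) with
    ⟨a, b⟩ | ⟨ζ, a, b, ha, hb, n, e1, e2, r⟩
  · exact .inl ⟨Prod.ext c a, b⟩
  · exact .inr ⟨(η₁.1, ζ), a, b, ha, hb, n, Prod.ext rfl e1, Prod.ext c.symm e2, r⟩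

theorem ref_id (n : ℕ) : Ref (idS n) := by
  rcases n with _ | n
  · trivial
  · show List.replicate n _ = idS (List.replicate n _).length
    rw [List.length_replicate]
    rfl

theorem rb_root : ∀ i, RB (root i) := fun _ => ⟨rfl, ref_id 3⟩

theorem ref_kid (σ : Shape) (o : Option Bool) (h : Ref σ) : Ref (kid σ 0 o) := by
  induction σ with
  | nil => trivial
  | cons e σ ih =>
    rcases e with ⟨w, _ | _⟩
    · rcases o with _ | b
      · show Ref σ
        rw [show σ = idS σ.length from h]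
        exact ref_id _
      · exact h
    · exact ih h

theorem rb_kd (h : ShA) : ∀ ρ o, RB ρ → RB (kd ρ 0 o) := fun ρ o r =>
  ⟨(h.kid_len _ _ _).trans r.1, ref_kid ρ.2 o r.2⟩

theorem mx_kid (σ : Shape) (b : Bool) (h : Ref σ) (a : 0 < ar σ) : Mx (kid σ 0 (some b)) := by
  induction σ with
  | nil => exact absurd a (Nat.not_lt_zero _)
  | cons e σ ih =>
    rcases e with ⟨w, _ | _⟩
    · exact ⟨by simp, h⟩
    · exact ih h a

theorem pi_kd (h : ShA) : ∀ ρ e, RB ρ → 0 < ar ρ.2 → Pi (dg ρ.2 + 1) (kd ρ 0 (some e)) :=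
  fun ρ e r a => ⟨(h.kid_len _ _ _).trans r.1, mx_kid ρ.2 e r.2 a, h.kid_dg1 _ _ _ a⟩

theorem mx_ref (σ : Shape) (h : Mx σ) : Ref σ ∧ 1 ≤ ar σ ∧ 1 ≤ dg σ := by
  induction σ with
  | nil => exact h.elim
  | cons e σ ih =>
    rcases e with ⟨w, _ | _⟩
    · exact ⟨h.2, Nat.succ_pos _, (List.length_pos_iff.2 h.1).trans_le (Nat.le_add_right _ _)⟩
    · exact ⟨(ih h).1, (ih h).2.1, (ih h).2.2.trans (Nat.le_add_left _ _)⟩

theorem pi_rb : ∀ K P, Pi K P → RB P ∧ 1 ≤ ar P.2 := fun _ P p =>
  ⟨⟨p.1, (mx_ref P.2 p.2.1).1⟩, (mx_ref P.2 p.2.1).2.1⟩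

theorem rb3 (h : ShA) : ∀ ρ, RB ρ → ar ρ.2 = 3 →
    ∃ w, ρ.2 = [(w, false), ([], false), ([], false)] := by
  rintro ⟨i, _ | ⟨⟨w, _ | _⟩, σ⟩⟩ ⟨l, r⟩ a
  · simp at l
  · have e : σ = idS σ.length := r
    rw [show σ.length = 2 by simpa using l] at e
    exact ⟨w, by rw [e]; rfl⟩
  · have := h.ar_le σ
    simp only [ar, List.length_cons] at a l
    omega

theorem ff (h : ShA) {w v : List Bool} {σ τ : Shape} (r : σ = idS σ.length)
    (r' : τ = idS τ.length) (l : σ.length = τ.length)
    (d : dg ((w, false) :: σ) = dg ((v, false) :: τ)) :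
    (w, false) :: σ = (v, false) :: τ ∨ DisjS ((w, false) :: σ) ((v, false) :: τ) := by
  obtain rfl : σ = τ := by rw [r, r', l]
  by_cases e : w = v
  · exact .inl (by rw [e])
  · exact .inr (.inl (inc_len (by simpa [wd_f, dg] using d) (by simpa using e)))

theorem refS (h : ShA) : ∀ σ τ : Shape, Ref σ → Ref τ → σ.length = τ.length → ar σ = ar τ →
    dg σ = dg τ → σ = τ ∨ DisjS σ τ := by
  intro σ
  induction σ with
  | nil => exact fun τ _ _ l _ _ => .inl (List.length_eq_zero_iff.1 l.symm).symm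
  | cons e σ ih =>
    rintro (_ | ⟨e', τ⟩) r r' l a d
    · simp at l
    have l' : σ.length = τ.length := by simpa using l
    rcases e with ⟨w, _ | _⟩ <;> rcases e' with ⟨v, _ | _⟩
    · exact ff h r r' l' d
    · have := h.ar_le τ
      have e : ar σ = σ.length := by rw [show σ = idS σ.length from r, h.id_ar, h.id_len]
      simp only [ar] at a
      omega
    · have := h.ar_le σ
      have e : ar τ = τ.length := by rw [show τ = idS τ.length from r', h.id_ar, h.id_len]
      simp only [ar] at a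
      omega
    · by_cases e : w = v
      · subst e
        exact (ih τ r r' l' a (by simpa [dg] using d)).imp (congrArg _) .inr
      · exact .inr (.inl (inc_tt e))

theorem ref_tri (h : ShA) : ∀ ρ ρ', RB ρ → RB ρ' → Ty ρ ρ' → ρ = ρ' ∨ Disj ρ ρ' := by
  intro ρ ρ' r r' t
  by_cases n : ρ.1 = ρ'.1
  · exact (refS h _ _ r.2 r'.2 (r.1.trans r'.1.symm) t.2.2.1 t.2.2.2).imp (Prod.ext n) .inr
  · exact .inr (.inl n)

theorem mxS (h : ShA) : ∀ σ τ : Shape, Mx σ → Mx τ → σ.length = τ.length →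
    dg σ = dg τ → σ = τ ∨ DisjS σ τ := by
  intro σ
  induction σ with
  | nil => exact fun τ r => r.elim
  | cons e σ ih =>
    rintro (_ | ⟨e', τ⟩) r r' l d
    · simp at l
    have l' : σ.length = τ.length := by simpa using l
    rcases e with ⟨w, _ | _⟩ <;> rcases e' with ⟨v, _ | _⟩
    · exact ff h r.2 r'.2 l' d
    · have := (mx_ref τ r').2.2
      have e : dg σ = 0 := by rw [r.2, h.id_dg]
      simp only [dg] at d
      exact .inr (.inl (inc_tf (by omega)).symm)
    · have := (mx_ref σ r).2.2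
      have e : dg τ = 0 := by rw [r'.2, h.id_dg]
      simp only [dg] at d
      exact .inr (.inl (inc_tf (by omega)))
    · by_cases e : w = v
      · subst e
        exact (ih τ r r' l' (by simpa [dg] using d)).imp (congrArg _) .inr
      · exact .inr (.inl (inc_tt e))

theorem pi_pd (h : ShA) : ∀ K, PD {P | Pi K P} := by
  refine fun K => ⟨fun a p => p.1, fun a p b q n => ?_⟩
  by_cases c : a.1 = b.1
  · exact .inr ((mxS h _ _ p.2.1 q.2.1 (p.1.trans q.1.symm)
      (p.2.2.trans q.2.2.symm)).resolve_left fun e => n (Prod.ext c e))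
  · exact .inl c

theorem coverS (h : ShA) : ∀ (σ : Shape) K, 1 ≤ K → Deep K σ → K ≤ dg σ → ∃ P u : Shape,
    P.length = σ.length ∧ Mx P ∧ dg P = K ∧ u.length = ar P ∧ σ = comp P u := by
  intro σ
  induction σ with
  | nil => exact fun K a _ b => absurd (a.trans b) (by simp [dg])
  | cons e σ ih =>
    intro K a D b
    obtain ⟨w, t⟩ := e
    by_cases c : K ≤ w.length
    · have l : (w.take K).length = K := by simp [c]
      refine ⟨(w.take K, false) :: idS σ.length, (w.drop K, t) :: σ, by simp [h.id_len],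
        ⟨List.length_pos_iff.1 (by omega), by rw [h.id_len]⟩, by simp only [dg, l, h.id_dg]; rfl,
        by simp [ar, h.id_ar], ?_⟩
      simp only [comp, List.take_append_drop, h.id_comp]
    · obtain rfl : t = true := by
        by_contra n
        exact c (D (w, t) List.mem_cons_self (by simpa using n))
      simp only [dg] at b
      obtain ⟨P, u, a1, a2, a3, a4, a5⟩ := ih (K - w.length) (by omega)
        (fun e he f => (Nat.sub_le _ _).trans (D e (List.mem_cons_of_mem _ he) f)) (by omega)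
      exact ⟨(w, true) :: P, u, by simp [a1], a2, by simp only [dg]; omega, a4,
        congrArg _ a5⟩

theorem pi_cover (h : ShA) : ∀ K (z : Box), 1 ≤ K → z.2.length = 3 → Deep K z.2 → K ≤ dg z.2 →
    ∃ P, ∃ u : Shape, Pi K P ∧ u.length = ar P.2 ∧ z = sb P u := by
  intro K z a l D b
  obtain ⟨P, u, a1, a2, a3, a4, a5⟩ := coverS h z.2 K a D b
  exact ⟨(z.1, P), u, ⟨a1.trans l, a2, a3⟩, a4, Prod.ext rfl a5⟩

end Pool.Agent.MP_89edc2_al.R3.ShB2x
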