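import Pool.Agent.MP_89edc2_al.R3.Spec

/-!
# Charts and patterns
-/

namespace Pool.Agent.MP_89edc2_al.R3

namespace ShCx

/-- one if the entry is free -/
def fA (o : Option Bool) (on : Bool) : ℕ := if on = true ∧ o = none then 0 else 1

/-- one for the end mark -/
def nn (o : Option Bool) : ℕ := if o = none then 1 else 0

/-- the part of the shape that refines one entry -/
def uE (o : Option Bool) (on on' : Bool) : Shape :=
  if on = true then (if o = none then [] else [([], false)]) else [apE [] o on']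

/-- the refining shape -/
def uP (t : Pat) (A B : Fin 3 → Bool) : Shape :=
  uE (t 0) (A 0) (B 0) ++ (uE (t 1) (A 1) (B 1) ++ (uE (t 2) (A 2) (B 2) ++ []))

theorem ar_cons (w : List Bool) (o : Option Bool) (on : Bool) (σ : Shape) :
    ar (apE w o on :: σ) = ar σ + fA o on := by
  rcases o with _ | e <;> cases on <;> rfl

theorem wt_cons (w : List Bool) (o : Option Bool) (on : Bool) (σ : Shape) :
    wt (apE w o on :: σ) = w.length + (if on = true then 1 else 0) + wt σ := by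
  rcases o with _ | e <;> cases on <;> simp [apE, push, wt]

theorem kid_cons (w : List Bool) (o : Option Bool) (on : Bool) (σ : Shape) (i : ℕ)
    (o' : Option Bool) : kid (apE w o on :: σ) (i + fA o on) o' = apE w o on :: kid σ i o' := by
  rcases o with _ | e <;> cases on <;> rfl

theorem kid_zero (w : List Bool) (o : Option Bool) (σ : Shape) (o' : Option Bool) :
    kid (apE w o false :: σ) 0 o' = apE w o' true :: σ := rfl

theorem uE_len (o : Option Bool) (on on' : Bool) : (uE o on on').length = fA o on := by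
  rcases o with _ | e <;> cases on <;> rfl

theorem comp_cons (w : List Bool) (o : Option Bool) {on on' : Bool} (h : on = true → on' = true)
    (σ τ : Shape) : comp (apE w o on :: σ) (uE o on on' ++ τ) = apE w o on' :: comp σ τ := by
  cases on
  · rcases o with _ | e <;> cases on' <;> simp [apE, push, uE, comp]
  · rw [h rfl]
    rcases o with _ | e <;> simp [apE, push, uE, comp]

theorem ap_ar (χ : Chart) (t : Pat) (A : Fin 3 → Bool) :
    ar (ap χ t A).2 = fA (t 0) (A 0) + fA (t 1) (A 1) + fA (t 2) (A 2) := by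
  simp only [ap, ar_cons, ar]
  omega

theorem ap_wt (χ : Chart) (t : Pat) (A : Fin 3 → Bool) :
    wt (ap χ t A).2 = cd χ + (Finset.univ.filter fun a => A a = true).card := by
  simp only [ap, wt_cons, wt, cd, Finset.card_filter, Fin.sum_univ_three]
  omega

theorem fA_true (o : Option Bool) : fA o true + nn o = 1 := by
  rcases o with _ | e <;> rfl

theorem fA_false (o : Option Bool) : fA o false = 1 := by
  rcases o with _ | e <;> rfl

theorem some_eq (o : Option Bool) : (if o.isSome = true then 1 else 0) = fA o true := by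
  rcases o with _ | e <;> rfl

theorem cnt_sum (t : Pat) : cnt t = ∑ a, fA (t a) true := by
  simp only [cnt, Finset.card_filter, some_eq]

theorem idx_eq (t : Pat) (A : Fin 3 → Bool) : idx t A 0 = 0 ∧ idx t A 1 = fA (t 0) (A 0) ∧
    idx t A 2 = fA (t 1) (A 1) + fA (t 0) (A 0) := by
  simp only [idx, Finset.card_filter, Fin.sum_univ_three]
  generalize t 0 = x, t 1 = y, t 2 = z, A 0 = p, A 1 = q, A 2 = r
  revert x y z p q r
  decide

theorem dir_eq (t : Pat) : dir t 0 = 0 ∧ dir t 1 = fA (t 0) true ∧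
    dir t 2 = fA (t 1) true + fA (t 0) true := by
  simp only [dir, Finset.card_filter, Fin.sum_univ_three]
  generalize t 0 = x, t 1 = y, t 2 = z
  revert x y z
  decide

theorem three {P : Fin 3 → Prop} (h0 : P 0) (h1 : P 1) (h2 : P 2) (a : Fin 3) : P a := by
  fin_cases a <;> assumption

theorem ap_congr (χ : Chart) (t t' : Pat) (A : Fin 3 → Bool) (h : ∀ a, A a = true → t a = t' a) :
    ap χ t A = ap χ t' A := by
  have e : ∀ a, apE (χ.2 a) (t a) (A a) = apE (χ.2 a) (t' a) (A a) := fun a => by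
    cases hA : A a
    · rfl
    · rw [h a hA]
  simp only [ap, e]

theorem ap_kd (χ : Chart) (t : Pat) (A : Fin 3 → Bool) (a : Fin 3) (h : A a = false) :
    idx t A a < ar (ap χ t A).2 ∧ ∀ o,
      kd (ap χ t A) (idx t A a) o = ap χ (Function.update t a o) (Function.update A a true) := by
  obtain ⟨i0, i1, i2⟩ := idx_eq t A
  revert h
  refine three (P := fun a => A a = false → idx t A a < ar (ap χ t A).2 ∧ ∀ o,
    kd (ap χ t A) (idx t A a) o = ap χ (Function.update t a o) (Function.update A a true))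
    (fun h => ?_) (fun h => ?_) (fun h => ?_) a
  · refine ⟨by rw [i0, ap_ar, h, fA_false]; omega, fun o => ?_⟩
    rw [i0]
    simp only [kd, ap, h, kid_zero]
    rfl
  · refine ⟨by rw [i1, ap_ar, h, fA_false]; omega, fun o => ?_⟩
    rw [i1, ← zero_add (fA _ _)]
    simp only [kd, ap, h, kid_cons, kid_zero]
    rfl
  · refine ⟨by rw [i2, ap_ar, h, fA_false]; omega, fun o => ?_⟩
    rw [i2, ← zero_add (fA (t 1) _)]
    simp only [kd, ap, h, kid_cons, kid_zero]
    rfl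

theorem uP_len (χ : Chart) (t : Pat) (A B : Fin 3 → Bool) :
    (uP t A B).length = ar (ap χ t A).2 := by
  simp only [uP, List.length_append, uE_len, ap_ar, List.length_nil]
  omega

theorem uP_sb (χ : Chart) (t : Pat) {A B : Fin 3 → Bool} (h : ∀ a, A a = true → B a = true) :
    ap χ t B = sb (ap χ t A) (uP t A B) := by
  simp only [sb, ap, uP, comp_cons _ _ (h _), comp]

theorem mo_of (χ χ' : Chart) {t t' : Pat} {A A' B B' : Fin 3 → Bool}
    (h : ∀ a, A a = true → B a = true) (h' : ∀ a, A' a = true → B' a = true)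
    (e : uP t A B = uP t' A' B') : Mo (ap χ t A) (ap χ' t' A') (ap χ t B) (ap χ' t' B') :=
  ⟨uP t A B, uP_len χ t A B, uP_sb χ t h, by rw [e]; exact uP_sb χ' t' h'⟩

theorem wd_push (w : List Bool) (o : Option Bool) : wd (push w o) = w.map some ++ [o] := by
  rcases o with _ | e <;> simp [wd, push]

theorem inc_push (w : List Bool) {o o' : Option Bool} (h : o ≠ o') :
    Inc (apE w o true) (apE w o' true) := by
  change Inc (push w o) (push w o')
  have k : ∀ p q : Option Bool, wd (push w p) <+: wd (push w q) → p = q := by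
    rintro p q ⟨u, e⟩
    rw [wd_push, wd_push, List.append_assoc] at e
    exact (List.cons.inj (List.append_cancel_left e)).1
  exact ⟨fun e => h (k _ _ e), fun e => h (k _ _ e).symm⟩

theorem ap_disj (χ : Chart) (t t' : Pat) (A B : Fin 3 → Bool) (a : Fin 3) :
    A a = true → B a = true → t a ≠ t' a → Disj (ap χ t A) (ap χ t' B) := by
  refine three (P := fun a => A a = true → B a = true → t a ≠ t' a →
    Disj (ap χ t A) (ap χ t' B)) ?_ ?_ ?_ a <;> intro h h' e <;> right <;>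
    simp only [ap, DisjS, h, h']
  · exact .inl (inc_push _ e)
  · exact .inr (.inl (inc_push _ e))
  · exact .inr (.inr (.inl (inc_push _ e)))

theorem gd_disj (χ : Chart) (t : Pat) (z : Box) (h : Disj z (gd χ t)) :
    ∃ a, ∀ A : Fin 3 → Bool, A a = true → Disj z (ap χ t A) := by
  obtain ⟨i, σ⟩ := z
  rcases h with h | h
  · exact ⟨0, fun A _ => .inl h⟩
  rcases σ with _ | ⟨x, σ⟩
  · exact h.elim
  rcases h with h | h
  · exact ⟨0, fun A e => .inr (.inl (by rw [e]; exact h))⟩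
  rcases σ with _ | ⟨y, σ⟩
  · exact h.elim
  rcases h with h | h
  · exact ⟨1, fun A e => .inr (.inr (.inl (by rw [e]; exact h)))⟩
  rcases σ with _ | ⟨v, σ⟩
  · exact h.elim
  rcases h with h | h
  · exact ⟨2, fun A e => .inr (.inr (.inr (.inl (by rw [e]; exact h))))⟩
  · rcases σ with _ | ⟨v', σ⟩ <;> exact h.elim

theorem one_wt (χ : Chart) (t : Pat) (a : Fin 3) : wt (ap χ t (one a)).2 = cd χ + 1 := by
  rw [ap_wt]
  congr 1
  revert a
  decide

theorem fl_wt (χ : Chart) (t : Pat) (a : Fin 3) : wt (fl χ t a).2 = cd χ + 2 := by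
  rw [fl, ap_wt]
  congr 1
  revert a
  decide

theorem gd_wt (χ : Chart) (t : Pat) : wt (gd χ t).2 = cd χ + 3 ∧ ar (gd χ t).2 = cnt t :=
  ⟨by rw [gd, ap_wt]; rfl, by rw [gd, ap_ar, cnt_sum, Fin.sum_univ_three]⟩

theorem one_ar (χ : Chart) (t : Pat) (a : Fin 3) : ar (ap χ t (one a)).2 + nn (t a) = 3 := by
  rw [ap_ar]
  refine three (P := fun a => fA (t 0) (one a 0) + fA (t 1) (one a 1) + fA (t 2) (one a 2) +
    nn (t a) = 3) ?_ ?_ ?_ a <;> generalize t 0 = x, t 1 = y, t 2 = z <;> revert x y z <;> decide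

theorem fl_ar (χ : Chart) (t : Pat) (a : Fin 3) : ar (fl χ t a).2 = cnt t + nn (t a) := by
  rw [fl, ap_ar, cnt_sum, Fin.sum_univ_three]
  refine three (P := fun a => fA (t 0) (decide (0 ≠ a)) + fA (t 1) (decide (1 ≠ a)) +
    fA (t 2) (decide (2 ≠ a)) = fA (t 0) true + fA (t 1) true + fA (t 2) true + nn (t a))
    ?_ ?_ ?_ a <;> generalize t 0 = x, t 1 = y, t 2 = z <;> revert x y z <;> decide

theorem gd_kd (χ : Chart) (t : Pat) (a : Fin 3) : dir t a < ar (fl χ t a).2 ∧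
    gd χ t = kd (fl χ t a) (dir t a) (t a) ∧
    ∀ o, kd (fl χ t a) (dir t a) o = gd χ (Function.update t a o) := by
  have e : dir t a = idx t (fun a' => decide (a' ≠ a)) a := by
    refine three (P := fun a => dir t a = idx t (fun a' => decide (a' ≠ a)) a) ?_ ?_ ?_ a
    · rw [(dir_eq t).1, (idx_eq t _).1]
    · rw [(dir_eq t).2.1, (idx_eq t _).2.1]; rfl
    · rw [(dir_eq t).2.2, (idx_eq t _).2.2]; rfl
  have u : Function.update (fun a' => decide (a' ≠ a)) a true = fun _ => true := by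
    clear e
    revert a
    decide
  obtain ⟨h1, h2⟩ := ap_kd χ t (fun a' => decide (a' ≠ a)) a (by simp)
  rw [u, ← e] at h2
  refine ⟨by rw [e]; exact h1, ?_, h2⟩
  rw [fl, h2, Function.update_eq_self]
  rfl

theorem fl_eq (χ : Chart) (t : Pat) {a s s' : Fin 3} (h : a ≠ s ∧ a ≠ s' ∧ s ≠ s') :
    idx t (one a) s' < ar (ap χ t (one a)).2 ∧
      fl χ t s = kd (ap χ t (one a)) (idx t (one a) s') (t s') := by
  have u : one a s' = false ∧ Function.update (one a) s' true = fun a' => decide (a' ≠ s) := by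
    revert a s s'
    decide
  obtain ⟨h1, h2⟩ := ap_kd χ t (one a) s' u.1
  exact ⟨h1, by rw [h2, u.2, Function.update_eq_self]; rfl⟩

theorem em_nn {t t' : Pat} {a a' : Fin 3} (h : EM t a t' a') : nn (t a) = nn (t' a') := by
  rcases h.2 with ⟨h1, h2⟩ | ⟨-, h1, h2⟩
  · rw [h1, h2]
  · rw [nn, nn, if_neg h1, if_neg h2]

theorem em_cnt (t : Pat) (a : Fin 3) (t' : Pat) (a' : Fin 3) (h : EM t a t' a') :
    cnt t = cnt t' := by
  have e := em_nn h
  have e1 := fA_true (t a)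
  have e2 := fA_true (t' a')
  rw [cnt_sum, cnt_sum, Fin.sum_univ_succAbove _ a, Fin.sum_univ_succAbove _ a']
  simp only [h.1]
  omega

theorem uP_none {t : Pat} {a : Fin 3} (B : Fin 3 → Bool) : t a = none → uP t (one a) B =
    [apE [] (t (a.succAbove 0)) (B (a.succAbove 0)),
      apE [] (t (a.succAbove 1)) (B (a.succAbove 1))] := by
  refine three (P := fun a => t a = none → uP t (one a) B =
    [apE [] (t (a.succAbove 0)) (B (a.succAbove 0)),
      apE [] (t (a.succAbove 1)) (B (a.succAbove 1))]) ?_ ?_ ?_ a <;> intro h <;> rw [uP, h] <;>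
    rfl

theorem em_mo (χ χ' : Chart) (t : Pat) (a : Fin 3) (t' : Pat) (a' : Fin 3) (B B' : Fin 3 → Bool)
    (h : EM t a t' a') (hB : B a = true) (hB' : B' a' = true)
    (e : ∀ k : Fin 2, B (a.succAbove k) = B' (a'.succAbove k)) :
    Mo (ap χ t (one a)) (ap χ' t' (one a')) (ap χ t B) (ap χ' t' B') := by
  refine mo_of χ χ' (fun x hx => by rwa [of_decide_eq_true hx])
    (fun x hx => by rwa [of_decide_eq_true hx]) ?_
  rcases h.2 with ⟨h1, h2⟩ | ⟨rfl, h1, h2⟩
  · rw [uP_none B h1, uP_none B' h2, h.1, h.1, e, e]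
  · have k : ∀ x, uE (t x) (one a x) (B x) = uE (t' x) (one a x) (B' x) := fun x => by
      rcases Fin.eq_self_or_eq_succAbove a x with rfl | ⟨k, rfl⟩
      · simp [uE, one, h1, h2]
      · rw [h.1, e]
    simp only [uP, k]

theorem idx_one (t : Pat) (a : Fin 3) (k : Fin 2) : idx t (one a) (a.succAbove k) =
    if t a = none then k.val else (a.succAbove k).val := by
  simp only [idx, Finset.card_filter, Fin.sum_univ_three]
  obtain ⟨x, y, z, rfl⟩ : ∃ x y z, t = ![x, y, z] :=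
    ⟨t 0, t 1, t 2, funext (three rfl rfl rfl)⟩
  revert x y z a k
  decide

theorem em_fl (t : Pat) (a : Fin 3) (t' : Pat) (a' : Fin 3) (k : Fin 2) (h : EM t a t' a') :
    ∃ i o, ∀ χ, i < ar (ap χ t (one a)).2 ∧
      fl χ t (a.succAbove k) = kd (ap χ t (one a)) i o ∧
      fl χ t' (a'.succAbove k) = kd (ap χ t' (one a')) i o := by
  have d : ∀ (a : Fin 3) (k : Fin 2), a ≠ a.succAbove k ∧ a ≠ a.succAbove k.rev ∧
      a.succAbove k ≠ a.succAbove k.rev := by decide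
  have e : idx t (one a) (a.succAbove k.rev) = idx t' (one a') (a'.succAbove k.rev) := by
    rw [idx_one, idx_one]
    rcases h.2 with ⟨h1, h2⟩ | ⟨rfl, h1, h2⟩
    · rw [if_pos h1, if_pos h2]
    · rw [if_neg h1, if_neg h2]
  refine ⟨idx t (one a) (a.succAbove k.rev), t (a.succAbove k.rev), fun χ =>
    ⟨(fl_eq χ t (d a k)).1, (fl_eq χ t (d a k)).2, ?_⟩⟩
  rw [e, h.1]
  exact (fl_eq χ t' (d a' k)).2

/-- the distance from the base pattern -/
def rk (t : Pat) : ℕ := ∑ a, if t a = none then a.val else if t a = some true then 1 else 0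

theorem down (x y z : Option Bool) : ![x, y, z] = base (cnt ![x, y, z]) ∨
    ∃ (t : Pat) (a a' : Fin 3), EM t a ![x, y, z] a' ∧ rk t < rk ![x, y, z] := by
  have k : ![x, y, z] = base (cnt ![x, y, z]) ∨
      (EM ![some false, y, z] 0 ![x, y, z] 0 ∧ rk ![some false, y, z] < rk ![x, y, z]) ∨
      (EM ![x, some false, z] 1 ![x, y, z] 1 ∧ rk ![x, some false, z] < rk ![x, y, z]) ∨
      (EM ![x, y, some false] 2 ![x, y, z] 2 ∧ rk ![x, y, some false] < rk ![x, y, z]) ∨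
      (EM ![y, x, z] 0 ![x, y, z] 1 ∧ rk ![y, x, z] < rk ![x, y, z]) ∨
      (EM ![x, z, y] 1 ![x, y, z] 2 ∧ rk ![x, z, y] < rk ![x, y, z]) := by
    unfold EM
    revert x y z
    decide
  rcases k with k | k | k | k | k | k
  · exact .inl k
  all_goals exact .inr ⟨_, _, _, k⟩

theorem em_conn (c : ℕ) (P : Pat → Prop) (h0 : P (base c))
    (h : ∀ t a t' a', EM t a t' a' → cnt t = c → P t → P t') (t : Pat) : cnt t = c → P t := by
  induction hn : rk t using Nat.strong_induction_on generalizing t with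
  | _ n ih =>
    intro hc
    obtain ⟨x, y, z, rfl⟩ : ∃ x y z, t = ![x, y, z] :=
      ⟨t 0, t 1, t 2, funext (three rfl rfl rfl)⟩
    rcases down x y z with e | ⟨s, a, a', e, l⟩
    · rw [e, hc]
      exact h0
    · have hs := (em_cnt _ _ _ _ e).trans hc
      exact h _ _ _ _ e hs (ih _ (hn ▸ l) s rfl hs)

theorem lab_pat (r j : ℕ) (o : Option Bool) (hr : r ≤ 3) (hj : j < r) :
    ∃ t a, dir t a = j ∧ t a = o ∧ cnt t + nn o = r := by
  refine ⟨fun a => if a.val = j then o else if a.val < r then some false else none,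
    Fin.ofNat 3 j, ?_⟩
  interval_cases r <;> interval_cases j <;> revert o <;> decide

theorem joint_pat (r i₁ i₂ : ℕ) (o₁ o₂ : Option Bool) (hr : r ≤ 3) (h1 : i₁ < r) (h2 : i₂ < r)
    (h : i₁ ≠ i₂) : ∃ t a s₁ s₂, t s₁ = o₁ ∧ t s₂ = o₂ ∧ dir t s₁ = adj i₂ o₂ i₁ ∧
      dir t s₂ = adj i₁ o₁ i₂ ∧ cnt t + nn o₁ + nn o₂ = r ∧ r + nn (t a) = 3 ∧
      (a ≠ s₁ ∧ a ≠ s₂ ∧ s₁ ≠ s₂) ∧ idx t (one a) s₁ = i₁ ∧ idx t (one a) s₂ = i₂ := by
  obtain rfl | rfl : r = 2 ∨ r = 3 := by omega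
  · refine ⟨fun x => if x.val = i₁ + 1 then o₁ else if x.val = i₂ + 1 then o₂ else none, 0,
      Fin.ofNat 3 (i₁ + 1), Fin.ofNat 3 (i₂ + 1), ?_⟩
    interval_cases i₁ <;> interval_cases i₂ <;> first
      | exact absurd rfl h
      | (revert o₁ o₂; decide)
  · refine ⟨fun x => if x.val = i₁ then o₁ else if x.val = i₂ then o₂ else some false,
      Fin.ofNat 3 (3 - i₁ - i₂), Fin.ofNat 3 i₁, Fin.ofNat 3 i₂, ?_⟩
    interval_cases i₁ <;> interval_cases i₂ <;> first
      | exact absurd rfl h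
      | (revert o₁ o₂; decide)

variable (hA : ShA)
include hA

theorem ty_of {a b : Box} (h : a.2.length = 3) (h' : b.2.length = 3) (e : ar a.2 = ar b.2)
    (e' : wt a.2 = wt b.2) : Ty a b := by
  have h1 := hA.wt_ar a.2
  have h2 := hA.wt_ar b.2
  exact ⟨h, h', e, by omega⟩

theorem kid_ar (σ : Shape) (i : ℕ) (o : Option Bool) (h : i < ar σ) :
    ar (kid σ i o) + nn o = ar σ := by
  rcases o with _ | e
  · exact hA.kid_ar0 σ i h
  · exact hA.kid_ar1 σ i e

theorem em_ty (χ χ' : Chart) (t : Pat) (a : Fin 3) (t' : Pat) (a' : Fin 3) (h : EM t a t' a')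
    (e : cd χ = cd χ') : Ty (ap χ t (one a)) (ap χ' t' (one a')) := by
  have h1 := one_ar χ t a
  have h2 := one_ar χ' t' a'
  have h3 := em_nn h
  exact ty_of hA rfl rfl (by omega) (by rw [one_wt, one_wt, e])

theorem lab_ex (l : ℕ) (η : Box) (j : ℕ) (o : Option Bool) (h3 : η.2.length = 3)
    (hw : wt η.2 = l) (hj : j < ar η.2) : ∃ t a, dir t a = j ∧ t a = o ∧
      cnt t = ar (kd η j o).2 ∧ ∀ χ, cd χ + 2 = l → Ty (fl χ t a) η := by
  obtain ⟨t, a, h1, h2, h4⟩ := lab_pat (ar η.2) j o (h3 ▸ hA.ar_le η.2) hj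
  have h5 := kid_ar hA η.2 j o hj
  refine ⟨t, a, h1, h2, Nat.add_right_cancel (h4.trans h5.symm), fun χ hχ => ?_⟩
  exact ty_of hA rfl h3 (by rw [fl_ar, h2, h4]) (by rw [fl_wt, hχ, hw])

theorem joint_ex (l : ℕ) (ζ : Box) (i₁ i₂ : ℕ) (o₁ o₂ : Option Bool) (h3 : ζ.2.length = 3)
    (hw : wt ζ.2 + 1 = l) (h1 : i₁ < ar ζ.2) (h2 : i₂ < ar ζ.2) (h : i₁ ≠ i₂) :
    ∃ t a s₁ s₂, t s₁ = o₁ ∧ t s₂ = o₂ ∧ dir t s₁ = adj i₂ o₂ i₁ ∧
      dir t s₂ = adj i₁ o₁ i₂ ∧ cnt t = ar (kd (kd ζ i₂ o₂) (adj i₂ o₂ i₁) o₁).2 ∧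
      ∀ χ, cd χ + 2 = l → Ty (ap χ t (one a)) ζ ∧ fl χ t s₁ = kd (ap χ t (one a)) i₂ o₂ ∧
        fl χ t s₂ = kd (ap χ t (one a)) i₁ o₁ := by
  obtain ⟨t, a, s₁, s₂, e1, e2, d1, d2, c, r, n, j1, j2⟩ :=
    joint_pat (ar ζ.2) i₁ i₂ o₁ o₂ (h3 ▸ hA.ar_le ζ.2) h1 h2 h
  have k1 := kid_ar hA ζ.2 i₂ o₂ h2
  have k2 := kid_ar hA _ _ o₁ (hA.adj_lt ζ.2 i₂ i₁ o₂ h2 h1 h.symm)
  refine ⟨t, a, s₁, s₂, e1, e2, d1, d2, ?_, fun χ hχ => ⟨?_, ?_, ?_⟩⟩
  · change cnt t = ar (kid (kid ζ.2 i₂ o₂) (adj i₂ o₂ i₁) o₁)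
    omega
  · have := one_ar χ t a
    exact ty_of hA rfl h3 (by omega) (by rw [one_wt]; omega)
  · rw [← j2, ← e2]
    exact (fl_eq χ t n).2
  · rw [← j1, ← e1]
    exact (fl_eq χ t ⟨n.2.1, n.1, n.2.2.symm⟩).2

omit hA in
theorem chart_ex (l : ℕ) (i : Fin 40) (h : 2 ≤ l) : ∃ χ : Chart, χ.1 = i ∧ cd χ + 2 = l :=
  ⟨(i, ![List.replicate (l - 2) false, [], []]), rfl, by simp [cd]; omega⟩

theorem reach (hB : ShB) (l c : ℕ) (S : Finset (Fin 40)) (Q : Box → Prop) (hl : 3 ≤ l)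
    (hS : S.card ≤ 30) (h0 : ∀ χ : Chart, cd χ + 2 = l → χ.1 ∉ S → Q (gd χ (base c)))
    (h : ∀ g₁ g₂ g₃ b b', Lw l g₁ g₂ g₃ → g₁.1 ∉ S → g₂.1 ∉ S → g₃.1 ∉ S → Mo g₁ g₂ b b' →
      HT l c b → HT l c b' → Q b → Q b') (b : Box) (hb : HT l c b) (bS : b.1 ∉ S) : Q b := by
  have mv : ∀ g₁ g₂ b b', Ty g₁ g₂ → g₁.1 ≠ g₂.1 → wt g₁.2 ≤ l → g₁.1 ∉ S → g₂.1 ∉ S →
      Mo g₁ g₂ b b' → HT l c b → HT l c b' → Q b → Q b' := by
    intro g₁ g₂ b b' ty ne w s1 s2
    obtain ⟨j, jS, jL⟩ := hA.freshS S [g₁.1, g₂.1] (by simp only [List.length]; omega)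
    simp only [List.mem_cons, List.not_mem_nil, or_false, not_or] at jL
    exact h g₁ g₂ (j, g₁.2) b b' ⟨⟨ty, ⟨ty.1, ty.1, rfl, rfl⟩, ne, Ne.symm jL.1, Ne.symm jL.2⟩, w⟩
      s1 s2 jS
  have fr : ∀ i : Fin 40, ∃ j, j ∉ S ∧ j ≠ i := fun i => by
    obtain ⟨j, jS, jL⟩ := hA.freshS S [i] (by simp only [List.length]; omega)
    exact ⟨j, jS, by simpa using jL⟩
  have ht : ∀ χ t, cd χ + 2 = l → cnt t = c → HT l c (gd χ t) := fun χ t e e' =>
    ⟨rfl, (gd_wt χ t).2.trans e', by rw [(gd_wt χ t).1]; omega⟩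
  have all := em_conn c (fun t => ∀ χ : Chart, cd χ + 2 = l → χ.1 ∉ S → Q (gd χ t)) h0
    fun t a t' a' e hc p χ' hχ s => by
      obtain ⟨j, jS, jn⟩ := fr χ'.1
      exact mv (ap (j, χ'.2) t (one a)) (ap χ' t' (one a')) _ _ (em_ty hA _ _ _ _ _ _ e rfl) jn
        (by rw [one_wt]; change cd χ' + 1 ≤ l; omega) jS s
        (em_mo _ _ _ _ _ _ _ _ e rfl rfl fun _ => rfl) (ht _ _ hχ hc)
        (ht _ _ hχ ((em_cnt _ _ _ _ e).symm.trans hc)) (p (j, χ'.2) hχ jS)
  obtain ⟨τ, i, o, hi, e⟩ := hA.parent b.2 (by rw [hb.2.2]; omega)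
  have eb : b = kd (b.1, τ) i o := Prod.ext rfl e
  have w : wt τ = l := by
    have := hA.kid_wt τ i o hi
    rw [← e, hb.2.2] at this
    omega
  obtain ⟨t, a, d, ta, hc, ty⟩ := lab_ex hA l (b.1, τ) i o
    (by rw [← hA.kid_len τ i o, ← e]; exact hb.1) w hi
  rw [← eb, hb.2.1] at hc
  obtain ⟨j, jS, jn⟩ := fr b.1
  obtain ⟨χ, rfl, hχ⟩ := chart_ex l j (by omega)
  refine mv (fl χ t a) (b.1, τ) (gd χ t) b (ty χ hχ) jn (by rw [fl_wt, hχ]) jS bS ?_
    (ht χ t hχ hc) hb (all t hc χ hχ jS)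
  have m := hB.mo_kd _ _ _ _ i o (ty χ hχ).2.2.1 (hB.mo_self _ _ (ty χ hχ).2.2.1)
  rwa [← eb, ← d, ← ta, ← (gd_kd χ t a).2.1] at m

end ShCx

open ShCx in
theorem shC_main : SpShC := fun hA hB =>
  { ap_len := fun _ _ _ => rfl
    ap_wt := ap_wt
    ap_ty := fun χ χ' t A e => ty_of hA rfl rfl (by rw [ap_ar, ap_ar]) (by rw [ap_wt, ap_wt, e])
    ap_congr := ap_congr
    ap_kd := ap_kd
    ap_mo := fun χ χ' _ _ _ h => mo_of χ χ' h h rfl
    ap_in := fun χ t A B h => ⟨uP t A B, uP_len χ t A B, uP_sb χ t h⟩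
    ap_disj := ap_disj
    gd_disj := gd_disj
    ch_eq := fun χ _ => ap_congr χ _ _ _ fun _ h => absurd h Bool.false_ne_true
    ch_wt := fun χ => ⟨by rw [ch, ap_wt]; rfl, rfl⟩
    one_wt := one_wt
    fl_wt := fl_wt
    gd_wt := gd_wt
    gd_kd := gd_kd
    chart_ex := chart_ex
    lab_ty := fun χ χ' t t' a a' e e1 e2 =>
      ty_of hA rfl rfl (by rw [fl_ar, fl_ar, e1, e2]) (by rw [fl_wt, fl_wt, e])
    lab_ex := lab_ex hA
    joint_ex := joint_ex hA
    em_cnt := em_cnt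
    em_ty := em_ty hA
    em_mo := em_mo
    em_fl := em_fl
    base_cnt := fun c h => by interval_cases c <;> decide
    em_conn := em_conn
    reach := reach hA hB }

end Pool.Agent.MP_89edc2_al.R3
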