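import Pool.Agent.MP_89edc2_al.R3.Spec

/-! Row SMA: cells and boxes. -/

namespace Pool.Agent.MP_89edc2_al.R3

namespace SmAx

theorem ev_len : ∀ (σ : Shape) (u : List (List Bool)), u.length = ar σ →
    (ev σ u).length = σ.length
  | [], _, _ => rfl
  | (_, true) :: σ, u, h => congrArg (· + 1) (ev_len σ u h)
  | (_, false) :: _, [], h => by simp [ar] at h
  | (_, false) :: σ, _ :: u, h => congrArg (· + 1) (ev_len σ u (Nat.succ.inj h))

theorem ev_comp : ∀ (σ τ : Shape) (v : List (List Bool)), τ.length = ar σ → v.length = ar τ →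
    ev (comp σ τ) v = ev σ (ev τ v)
  | [], _, _, _, _ => rfl
  | (w, true) :: σ, τ, v, h, h' => congrArg (w :: ·) (ev_comp σ τ v h h')
  | (_, false) :: _, [], _, h, _ => by simp [ar] at h
  | (w, false) :: σ, (x, true) :: τ, v, h, h' =>
    congrArg ((w ++ x) :: ·) (ev_comp σ τ v (Nat.succ.inj h) h')
  | (_, false) :: _, (_, false) :: _, [], _, h' => by simp [ar] at h'
  | (w, false) :: σ, (x, false) :: τ, s :: v, h, h' => by
    simp only [comp, ev, List.append_assoc, ev_comp σ τ v (Nat.succ.inj h) (Nat.succ.inj h')]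

theorem ev_sum : ∀ (σ : Shape) (u : List (List Bool)), u.length = ar σ →
    ((ev σ u).map List.length).sum = dg σ + (u.map List.length).sum
  | [], [], _ => rfl
  | [], _ :: _, h => by simp [ar] at h
  | (w, true) :: σ, u, h => by
    simp only [ev, dg, List.map_cons, List.sum_cons, ev_sum σ u h, Nat.add_assoc]
  | (_, false) :: _, [], h => by simp [ar] at h
  | (w, false) :: σ, s :: u, h => by
    simp only [ev, dg, List.map_cons, List.sum_cons, ev_sum σ u (Nat.succ.inj h),
      List.length_append]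
    omega

theorem ev_inj : ∀ (σ : Shape) (u v : List (List Bool)), u.length = ar σ → v.length = ar σ →
    ev σ u = ev σ v → u = v
  | [], u, v, h, h', _ => by rw [List.length_eq_zero_iff.1 h, List.length_eq_zero_iff.1 h']
  | (_, true) :: σ, u, v, h, h', e => ev_inj σ u v h h' (List.cons.inj e).2
  | (_, false) :: _, [], _, h, _, _ => by simp [ar] at h
  | (_, false) :: _, _ :: _, [], _, h, _ => by simp [ar] at h
  | (w, false) :: σ, s :: u, t :: v, h, h', e => by
    rw [List.append_cancel_left (List.cons.inj e).1,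
      ev_inj σ u v (Nat.succ.inj h) (Nat.succ.inj h') (List.cons.inj e).2]

theorem ev_id : ∀ u : List (List Bool), ev (idS u.length) u = u
  | [] => rfl
  | s :: u => congrArg (s :: ·) (ev_id u)

theorem ar_id : ∀ c, ar (idS c) = c
  | 0 => rfl
  | c + 1 => congrArg (· + 1) (ar_id c)

theorem kids : ∀ (u : List (List Bool)) (i : ℕ), i < u.length → ∃ o v,
    v.length = ar (kid (idS u.length) i o) ∧ u = ev (kid (idS u.length) i o) v
  | [], _, h => by simp at h
  | [] :: u, 0, _ => ⟨none, u, (ar_id _).symm, congrArg ([] :: ·) (ev_id u).symm⟩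
  | (e :: s) :: u, 0, _ => ⟨some e, s :: u, congrArg (· + 1) (ar_id _).symm,
      congrArg ((e :: s) :: ·) (ev_id u).symm⟩
  | s :: u, i + 1, h => by
    obtain ⟨o, v, h1, h2⟩ := kids u i (Nat.lt_of_succ_lt_succ h)
    exact ⟨o, s :: v, congrArg (· + 1) h1, congrArg (s :: ·) h2⟩

/-- the shape of a point -/
def pt (x : List (List Bool)) : Shape := x.map fun s => (s, true)

theorem pt_spec : ∀ x : List (List Bool), ar (pt x) = 0 ∧ ev (pt x) [] = x ∧
    dg (pt x) = (x.map List.length).sum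
  | [] => ⟨rfl, rfl, rfl⟩
  | s :: x => ⟨(pt_spec x).1, congrArg (s :: ·) (pt_spec x).2.1,
      congrArg (s.length + ·) (pt_spec x).2.2⟩

theorem pt_deep (n : ℕ) (x : List (List Bool)) : Deep n (pt x) := fun e he h => by
  obtain ⟨s, -, rfl⟩ := List.mem_map.1 he
  simp at h

theorem pt_in (x : X) : In (x.1, pt x.2) x :=
  ⟨[], (pt_spec x.2).1.symm, Prod.ext rfl (pt_spec x.2).2.1.symm⟩

/-- the stack `s` lies in the entry `e` -/
def Mt (e : Ent) (s : List Bool) : Prop := wd e <+: wd (s, true)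

theorem mt1 : ∀ w s : List Bool, Mt (w, true) s ↔ s = w
  | [], [] => by simp [Mt]
  | [], _ :: _ => by simp [Mt, wd]
  | _ :: _, [] => by simp [Mt, wd]
  | a :: w, b :: s => by
    have h := mt1 w s
    simp only [Mt, wd, List.map_cons, List.cons_append, List.cons_prefix_cons, Option.some.injEq,
      List.cons.injEq] at h ⊢
    rw [h, eq_comm]

theorem mt0 : ∀ w s : List Bool, Mt (w, false) s ↔ w <+: s
  | [], _ => by simp [Mt, wd]
  | _ :: _, [] => by simp [Mt, wd]
  | a :: w, b :: s => by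
    have h := mt0 w s
    simp only [Mt, wd, List.map_cons, List.cons_append, List.cons_prefix_cons,
      Option.some.injEq] at h ⊢
    rw [h]

theorem mt_self : ∀ e : Ent, Mt e e.1
  | (_, true) => (mt1 _ _).2 rfl
  | (_, false) => (mt0 _ _).2 List.prefix_rfl

theorem inc_iff (e e' : Ent) : Inc e e' ↔ ∀ s, Mt e s → ¬ Mt e' s := by
  refine ⟨fun h s h1 h2 => (List.prefix_or_prefix_of_prefix h1 h2).elim h.1 h.2,
    fun h => ⟨fun k => h _ (k.trans (mt_self e')) (mt_self e'),
      fun k => h _ (mt_self e) (k.trans (mt_self e))⟩⟩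

theorem fa_of : ∀ (σ : Shape) (u : List (List Bool)), u.length = ar σ →
    List.Forall₂ Mt σ (ev σ u)
  | [], _, _ => .nil
  | (_, true) :: σ, u, h => .cons ((mt1 _ _).2 rfl) (fa_of σ u h)
  | (_, false) :: _, [], h => by simp [ar] at h
  | (_, false) :: σ, _ :: u, h =>
    .cons ((mt0 _ _).2 (List.prefix_append _ _)) (fa_of σ u (Nat.succ.inj h))

theorem of_fa {σ : Shape} {x : List (List Bool)} (h : List.Forall₂ Mt σ x) :
    ∃ u : List (List Bool), u.length = ar σ ∧ x = ev σ u := by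
  induction h with
  | nil => exact ⟨[], rfl, rfl⟩
  | @cons e s σ x h _ ih =>
    obtain ⟨u, h1, rfl⟩ := ih
    rcases e with ⟨w, _ | _⟩
    · obtain ⟨t, rfl⟩ := (mt0 _ _).1 h
      exact ⟨t :: u, congrArg (· + 1) h1, rfl⟩
    · obtain rfl := (mt1 _ _).1 h
      exact ⟨u, h1, rfl⟩

theorem disjS_iff : ∀ σ σ' : Shape, σ.length = σ'.length →
    (DisjS σ σ' ↔ ∀ x, List.Forall₂ Mt σ x → ¬ List.Forall₂ Mt σ' x)
  | [], [], _ => ⟨False.elim, fun h => h [] .nil .nil⟩
  | [], _ :: _, h => by simp at h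
  | _ :: _, [], h => by simp at h
  | e :: σ, e' :: σ', h => by
    rw [DisjS, inc_iff, disjS_iff σ σ' (Nat.succ.inj h)]
    constructor
    · rintro (k | k) _ (_ | ⟨h1, h2⟩) (_ | ⟨h3, h4⟩)
      exacts [k _ h1 h3, k _ h2 h4]
    · intro k
      by_contra hn
      simp only [not_or, not_forall, not_not] at hn
      obtain ⟨⟨s, h1, h2⟩, x, h3, h4⟩ := hn
      exact k _ (.cons h1 h3) (.cons h2 h4)

theorem long (c K : ℕ) : ∃ u : List (List Bool), u.length = c ∧ ∀ s ∈ u, K ≤ s.length :=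
  ⟨List.replicate c (List.replicate K false), List.length_replicate, fun s hs => by
    rw [List.eq_of_mem_replicate hs, List.length_replicate]⟩

theorem long_sum {K : ℕ} : ∀ {u : List (List Bool)}, 1 ≤ u.length → (∀ s ∈ u, K ≤ s.length) →
    K ≤ (u.map List.length).sum
  | [], h, _ => by simp at h
  | s :: _, _, h => (h s List.mem_cons_self).trans (Nat.le_add_right _ _)

theorem uniq (K : ℕ) : ∀ σ σ' : Shape, σ.length = σ'.length → ar σ = ar σ' →
    (∀ u : List (List Bool), u.length = ar σ → (∀ s ∈ u, K ≤ s.length) → ev σ u = ev σ' u) →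
    σ = σ'
  | [], [], _, _, _ => rfl
  | [], _ :: _, h, _, _ => by simp at h
  | _ :: _, [], h, _, _ => by simp at h
  | (w, true) :: σ, (w', true) :: σ', h, h', e => by
    obtain ⟨u, h1, h2⟩ := long (ar σ) K
    rw [(List.cons.inj (e u h1 h2)).1,
      uniq K σ σ' (Nat.succ.inj h) h' fun u h1 h2 => (List.cons.inj (e u h1 h2)).2]
  | (w, true) :: σ, (w', false) :: σ', _, h', e => by
    obtain ⟨u, h1, h2⟩ := long (ar σ') K
    have k := congrArg List.length (List.cons.inj (e (List.replicate (K + w.length + 1) false :: u)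
      ((congrArg (· + 1) h1).trans h'.symm)
      (List.forall_mem_cons.2 ⟨by rw [List.length_replicate]; omega, h2⟩))).1
    simp only [List.length_append, List.length_replicate] at k
    omega
  | (w, false) :: σ, (w', true) :: σ', _, _, e => by
    obtain ⟨u, h1, h2⟩ := long (ar σ) K
    have k := congrArg List.length (List.cons.inj (e (List.replicate (K + w'.length + 1) false :: u)
      (congrArg (· + 1) h1)
      (List.forall_mem_cons.2 ⟨by rw [List.length_replicate]; omega, h2⟩))).1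
    simp only [List.length_append, List.length_replicate] at k
    omega
  | (w, false) :: σ, (w', false) :: σ', h, h', e => by
    have k := fun (u : List (List Bool)) (h1 : u.length = ar σ) h2 =>
      List.cons.inj (e (List.replicate K false :: u) (congrArg (· + 1) h1)
        (List.forall_mem_cons.2 ⟨List.length_replicate.ge, h2⟩))
    obtain ⟨u, h1, h2⟩ := long (ar σ) K
    rw [List.append_cancel_right (k u h1 h2).1,
      uniq K σ σ' (Nat.succ.inj h) (Nat.succ.inj h') fun u h1 h2 => (k u h1 h2).2]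

theorem cell_sb (b : Box) (u : Shape) (v : List (List Bool)) (h : u.length = ar b.2)
    (h' : v.length = ar u) : cell (sb b u) v = cell b (ev u v) :=
  Prod.ext rfl (ev_comp _ _ _ h h')

theorem lev_cell (b : Box) (u : List (List Bool)) (h : u.length = ar b.2) :
    lev (cell b u) = dg b.2 + (u.map List.length).sum := ev_sum _ _ h

theorem lev_ty {a b : Box} (t : Ty a b) {u : List (List Bool)} (h : u.length = ar a.2) :
    lev (cell b u) = lev (cell a u) := by
  rw [lev_cell a u h, lev_cell b u (h.trans t.2.2.1), t.2.2.2]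

theorem disj_iff (a b : Box) (h : a.2.length = b.2.length) :
    Disj a b ↔ ∀ x, In a x → ¬ In b x := by
  rw [Disj, disjS_iff _ _ h]
  constructor
  · rintro (k | k) _ ⟨u, h1, rfl⟩ ⟨v, h2, e⟩
    · exact k (congrArg Prod.fst e :)
    · exact k _ (fa_of _ u h1) ((show ev a.2 u = ev b.2 v from congrArg Prod.snd e) ▸ fa_of _ v h2)
  · intro k
    refine or_iff_not_imp_left.2 fun e x h1 h2 => ?_
    obtain ⟨u, h3, h4⟩ := of_fa h1
    obtain ⟨v, h5, h6⟩ := of_fa h2
    exact k (a.1, x) ⟨u, h3, Prod.ext rfl h4⟩ ⟨v, h5, Prod.ext (not_not.1 e) h6⟩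

theorem box_uniq (K : ℕ) {a b b' : Box} (t : Ty a b) (t' : Ty a b')
    (e : ∀ u : List (List Bool), u.length = ar a.2 → (∀ s ∈ u, K ≤ s.length) →
      cell b u = cell b' u) : b = b' := by
  obtain ⟨u, h1, h2⟩ := long (ar a.2) K
  exact Prod.ext (congrArg Prod.fst (e u h1 h2) :) (uniq K _ _ (t.2.1.trans t'.2.1.symm)
    (t.2.2.1.symm.trans t'.2.2.1) fun u h1 h2 =>
      congrArg Prod.snd (e u (h1.trans t.2.2.1.symm) h2))

theorem car_uniq (g : Equiv.Perm X) (a b b' : Box) (t : Ty a b) (t' : Ty a b') (h : Car g a b)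
    (h' : Car g a b') : b = b' := box_uniq 0 t t' fun u h1 _ => (h u h1).symm.trans (h' u h1)

theorem car_in (g : Equiv.Perm X) (a b : Box) (x : X) (t : Ty a b) (h : Car g a b) :
    In b (g x) ↔ In a x :=
  ⟨fun ⟨u, h1, h2⟩ => ⟨u, h1.trans t.2.2.1.symm,
      g.injective (h2.trans (h u (h1.trans t.2.2.1.symm)).symm)⟩,
    fun ⟨u, h1, h2⟩ => ⟨u, h1.trans t.2.2.1, h2 ▸ h u h1⟩⟩

theorem car_disj (g : Equiv.Perm X) (a a' b b' : Box) (t : Ty a a') (t' : Ty b b')
    (h : Car g a a') (h' : Car g b b') (d : Disj a b) : Disj a' b' := by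
  refine (disj_iff _ _ (t.2.1.trans t'.2.1.symm)).2 fun x h1 h2 => ?_
  obtain ⟨y, rfl⟩ := g.surjective x
  exact (disj_iff _ _ (t.1.trans t'.1.symm)).1 d y ((car_in g a a' y t h).1 h1)
    ((car_in g b b' y t' h').1 h2)

theorem on_in (g : Equiv.Perm X) (a : Box) (x : X) (h : On g a) (hx : In a x) : In a (g x) := by
  by_contra k
  exact k ((g.injective (h _ k)).symm ▸ hx)

variable (F : ShapeF)
include F

theorem kd_sb (b : Box) (i : ℕ) (o : Option Bool) :
    kd b i o = sb b (kid (idS (ar b.2)) i o) ∧ (kid (idS (ar b.2)) i o).length = ar b.2 :=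
  ⟨Prod.ext rfl (F.kid_eq _ _ _), (F.kid_len _ _ _).trans (F.id_len _)⟩

theorem in_sb (b : Box) (u : Shape) (x : X) (h : u.length = ar b.2) (k : In (sb b u) x) :
    In b x := by
  obtain ⟨v, h1, rfl⟩ := k
  replace h1 : v.length = ar u := h1.trans (F.comp_ar _ _ h)
  exact ⟨ev u v, (ev_len _ _ h1).trans h, cell_sb b u v h h1⟩

theorem par (u : List (List Bool)) (i : ℕ) (h : i < u.length) : ∃ o v, ∀ b : Box,
    u.length = ar b.2 → v.length = ar (kd b i o).2 ∧ cell b u = cell (kd b i o) v := by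
  obtain ⟨o, v, h1, h2⟩ := kids u i h
  refine ⟨o, v, fun b hb => ?_⟩
  obtain ⟨k1, k2⟩ := kd_sb F b i o
  rw [hb] at h1 h2
  rw [k1, cell_sb b _ v k2 h1, ← h2]
  exact ⟨h1.trans (F.comp_ar _ _ k2).symm, rfl⟩

theorem carK_sb (K : ℕ) (g : Equiv.Perm X) (a b : Box) (u : Shape) (t : Ty a b)
    (hu : u.length = ar a.2) (h : CarK K g a b) : CarK K g (sb a u) (sb b u) := fun v hv k => by
  replace hv : v.length = ar u := hv.trans (F.comp_ar _ _ hu)
  rw [cell_sb a u v hu hv] at k ⊢
  rw [cell_sb b u v (hu.trans t.2.2.1) hv]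
  exact h _ ((ev_len _ _ hv).trans hu) k

theorem car_sb (g : Equiv.Perm X) (a b : Box) (u : Shape) (t : Ty a b)
    (hu : u.length = ar a.2) (h : Car g a b) : Car g (sb a u) (sb b u) := fun v hv => by
  replace hv : v.length = ar u := hv.trans (F.comp_ar _ _ hu)
  rw [cell_sb a u v hu hv, cell_sb b u v (hu.trans t.2.2.1) hv]
  exact h _ ((ev_len _ _ hv).trans hu)

theorem ty_sb {a b : Box} {u : Shape} (t : Ty a b) (hu : u.length = ar a.2) :
    Ty (sb a u) (sb b u) := by
  have hb := hu.trans t.2.2.1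
  refine ⟨(F.comp_len _ _ hu).trans t.1, (F.comp_len _ _ hb).trans t.2.1,
    (F.comp_ar _ _ hu).trans (F.comp_ar _ _ hb).symm, ?_⟩
  change dg (comp _ _) = dg (comp _ _)
  rw [F.comp_dg _ _ hu, F.comp_dg _ _ hb, t.2.2.2]

theorem car_mo {g : Equiv.Perm X} {p q p' q' a a' b b' : Box} (e : ar p.2 = ar q.2)
    (t : Ty p p') (t' : Ty q q') (c : Car g p p') (c' : Car g q q') (s : Ty a b) (s' : Ty a' b')
    (k : Car g a b) (k' : Car g a' b') (h : Mo p q a a') : Mo p' q' b b' := by
  obtain ⟨u, hu, rfl, rfl⟩ := h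
  exact ⟨u, hu.trans t.2.2.1, car_uniq g _ _ _ s (ty_sb F t hu) k (car_sb F g _ _ u t hu c),
    car_uniq g _ _ _ s' (ty_sb F t' (hu.trans e)) k' (car_sb F g _ _ u t' (hu.trans e) c')⟩

end SmAx

open SmAx in
theorem smA_main : SpSmA := fun F =>
  { ev_len := ev_len
    cell_sb := cell_sb
    lev_cell := lev_cell
    cell_inj := fun b u v h h' e => ev_inj b.2 u v h h' (congrArg Prod.snd e)
    in_sb := in_sb F
    in_kd := fun b i o x h => in_sb F b _ x (kd_sb F b i o).2 ((kd_sb F b i o).1 ▸ h)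
    in_kids := by
      rintro b i _ hi ⟨u, hu, rfl⟩
      obtain ⟨o, v, h⟩ := par F u i (hu ▸ hi)
      exact ⟨o, v, h b hu⟩
    in_lev := by
      rintro b _ ⟨u, hu, rfl⟩
      rw [lev_cell b u hu]
      refine ⟨Nat.le_add_right _ _, fun h => ?_⟩
      rw [List.length_eq_zero_iff.1 (hu.trans h)]
      rfl
    in_copy := by
      rintro b _ ⟨u, hu, rfl⟩
      exact ⟨rfl, ev_len _ _ hu⟩
    in_root := fun x h => ⟨x.2, h.trans (ar_id 3).symm, Prod.ext rfl (by
      change x.2 = ev (idS 3) x.2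
      rw [← h, ev_id])⟩
    in_high := fun K b h => by
      obtain ⟨u, h1, h2⟩ := long (ar b.2) (K + 1)
      refine ⟨_, ⟨u, h1, rfl⟩, ?_⟩
      have := long_sum (h1 ▸ h) h2
      rw [lev_cell b u h1]
      omega
    in_deep := fun n x h =>
      ⟨(x.1, pt x.2), (List.length_map _).trans h, pt_deep n x.2, pt_in x⟩
    in_pi := fun K x h1 h2 h3 => by
      obtain ⟨P, u, k1, k2, k3⟩ := F.pi_cover K (x.1, pt x.2) h1 ((List.length_map _).trans h2)
        (pt_deep K x.2) ((pt_spec x.2).2.2.symm ▸ h3)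
      exact ⟨P, k1, in_sb F P u x k2 (k3 ▸ pt_in x)⟩
    disj_iff := disj_iff
    car_one := fun _ _ => ⟨fun _ _ => rfl, fun _ _ _ => rfl⟩
    car_K := fun _ _ _ _ h u hu _ => h u hu
    carK_car := fun K g a b k h u hu => h u hu (by rw [lev_cell a u hu]; omega)
    car_mul := fun g h a b c t k k' u hu => by
      rw [Equiv.Perm.mul_apply, k u hu, k' u (hu.trans t.2.2.1)]
    carK_mul := fun K g h a b c t k k' u hu e => by
      rw [Equiv.Perm.mul_apply, k u hu e, k' u (hu.trans t.2.2.1) (by rwa [lev_ty t hu])]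
    car_inv := fun g a b t k u hu =>
      Equiv.Perm.inv_eq_iff_eq.2 (k u (hu.trans t.2.2.1.symm)).symm
    carK_inv := fun K g a b t k u hu e => Equiv.Perm.inv_eq_iff_eq.2
      (k u (hu.trans t.2.2.1.symm) (by rwa [← lev_ty t (hu.trans t.2.2.1.symm)])).symm
    car_sb := car_sb F
    carK_sb := carK_sb F
    car_kd := fun g a b i o t h => by
      rw [(kd_sb F a i o).1, (kd_sb F b i o).1, ← t.2.2.1]
      exact car_sb F g a b _ t (kd_sb F a i o).2 h
    carK_kd := fun K g a b i o t h => by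
      rw [(kd_sb F a i o).1, (kd_sb F b i o).1, ← t.2.2.1]
      exact carK_sb F K g a b _ t (kd_sb F a i o).2 h
    carK_kids := fun K g a b i t hi h u hu e => by
      obtain ⟨o, v, k⟩ := par F u i (hu ▸ hi)
      rw [(k a hu).2] at e ⊢
      rw [(k b (hu.trans t.2.2.1)).2]
      exact h o v (k a hu).1 e
    car_uniq := car_uniq
    carK_uniq := fun K g a b b' t t' h k k' => box_uniq (K + 1) t t' fun u h1 h2 => by
      have e : K < lev (cell a u) := by
        have := long_sum (h1 ▸ h) h2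
        rw [lev_cell a u h1]
        omega
      exact (k u h1 e).symm.trans (k' u h1 e)
    car_in := car_in
    car_disj := car_disj
    car_mv := by
      rintro g g₁ g₂ g₃ h₁ h₂ h₃ a a' b b' T t₁ t₂ t₃ c₁ c₂ c₃ s s' k k' (h | h | h | ⟨rfl, h⟩)
      · exact .inl (car_mo F T.1.2.2.1 t₁ t₂ c₁ c₂ s s' k k' h)
      · exact .inr (.inl (car_mo F (T.1.2.2.1.symm.trans T.2.1.2.2.1) t₂ t₃ c₂ c₃ s s' k k' h))
      · exact .inr (.inr (.inl (car_mo F T.2.1.2.2.1.symm t₃ t₁ c₃ c₁ s s' k k' h)))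
      · exact .inr (.inr (.inr ⟨car_uniq g _ _ _ s' s k' k, car_disj g _ _ _ _ s t₁ k c₁ h.1,
          car_disj g _ _ _ _ s t₂ k c₂ h.2.1, car_disj g _ _ _ _ s t₃ k c₃ h.2.2⟩))
    off_car := fun g b => ⟨fun h u hu => h _ ⟨u, hu, rfl⟩, by
      rintro h _ ⟨u, hu, rfl⟩
      exact h u hu⟩
    on_off := fun g a b e h d x hx => h x fun k => (disj_iff a b e).1 d x k hx
    on_in := on_in
    on_mul := fun g h a k k' x hx => by rw [Equiv.Perm.mul_apply, k' x hx, k x hx]
    on_inv := fun g a k x hx => Equiv.Perm.inv_eq_iff_eq.2 (k x hx).symm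
    on_comm := fun g h a k k' => Equiv.ext fun x => by
      rw [Equiv.Perm.mul_apply, Equiv.Perm.mul_apply]
      by_cases hx : In a x
      · rw [k' x hx, k' _ (on_in g a x k hx)]
      · rw [k x hx, k (h x) fun e => hx (h.injective (k' (h x) e) ▸ e)] }

end Pool.Agent.MP_89edc2_al.R3
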