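import Pool.Agent.MP_89edc2_al.R3.Spec

/-!
# Cycles, baker maps and restrictions
-/

namespace Pool.Agent.MP_89edc2_al.R3

open Equiv

namespace SmBx

open Classical in
/-- the map that carries each box `a k` to `b k` -/
noncomputable def fn (a b : Option Bool → Box) (x : X) : X :=
  if h : ∃ p : Option Bool × List (List Bool), p.2.length = ar (a p.1).2 ∧ x = cell (a p.1) p.2
  then cell (b h.choose.1) h.choose.2 else x

/-- pairwise disjoint families -/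
def Pw (a : Option Bool → Box) : Prop := ∀ k l x, In (a k) x → In (a l) x → k = l

theorem fn_cell (A : SmA) {a : Option Bool → Box} (b : Option Bool → Box) (ha : Pw a) (k) (u)
    (hu : u.length = ar (a k).2) : fn a b (cell (a k) u) = cell (b k) u := by
  have h : ∃ p : Option Bool × List (List Bool), p.2.length = ar (a p.1).2 ∧
      cell (a k) u = cell (a p.1) p.2 := ⟨(k, u), hu, rfl⟩
  rw [fn, dif_pos h]
  obtain ⟨h1, h2⟩ := h.choose_spec
  generalize h.choose = p at h1 h2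
  obtain ⟨l, v⟩ := p
  obtain rfl := ha k l _ ⟨u, hu, rfl⟩ ⟨v, h1, h2⟩
  rw [A.cell_inj _ u v hu h1 h2]

theorem fn_out {a : Option Bool → Box} (b : Option Bool → Box) {x : X} (h : ∀ k, ¬ In (a k) x) :
    fn a b x = x :=
  dif_neg fun ⟨p, h1, h2⟩ => h p.1 ⟨p.2, h1, h2⟩

theorem fn_inv (A : SmA) {a b : Option Bool → Box} (ha : Pw a) (hb : Pw b)
    (har : ∀ k, ar (a k).2 = ar (b k).2) (hu : ∀ x k, In (b k) x → ∃ l, In (a l) x) (x : X) :
    fn b a (fn a b x) = x := by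
  by_cases h : ∃ k, In (a k) x
  · obtain ⟨k, u, h1, rfl⟩ := h
    rw [fn_cell A b ha k u h1, fn_cell A a hb k u (h1.trans (har k))]
  · rw [fn_out b fun k hk => h ⟨k, hk⟩, fn_out a fun k hk => h (hu x k hk)]

theorem ex_perm (A : SmA) {a b : Option Bool → Box} (ha : Pw a) (hb : Pw b)
    (har : ∀ k, ar (a k).2 = ar (b k).2) (hu : ∀ x k, In (b k) x → ∃ l, In (a l) x)
    (hv : ∀ x k, In (a k) x → ∃ l, In (b l) x) :
    ∃ g : Perm X, (∀ k, Car g (a k) (b k)) ∧ ∀ x, (∀ k, ¬ In (a k) x) → g x = x :=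
  ⟨⟨fn a b, fn b a, fn_inv A ha hb har hu, fn_inv A hb ha (fun k => (har k).symm) hv⟩,
    fun k u h => fn_cell A b ha k u h, fun _ h => fn_out b h⟩

/-- three boxes as a family -/
def t3 (a b c : Box) : Option Bool → Box
  | none => a
  | some false => b
  | some true => c

theorem nin (A : SmA) {a b : Box} (h : Disj a b) (ha : a.2.length = 3) (hb : b.2.length = 3) {x}
    (h1 : In a x) (h2 : In b x) : False :=
  (A.disj_iff a b (ha.trans hb.symm)).1 h x h1 h2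

theorem pw3 (A : SmA) {a b c : Box} (h : Tri a b c) : Pw (t3 a b c) := by
  obtain ⟨t1, t2, d1, d2, d3⟩ := h
  have n1 := @nin A _ _ d1 t1.1 t1.2.1
  have n2 := @nin A _ _ d2 t1.1 t2.2.1
  have n3 := @nin A _ _ d3 t1.2.1 t2.2.1
  rintro (_ | _ | _) (_ | _ | _) x h1 h2
  exacts [rfl, (n1 h1 h2).elim, (n2 h1 h2).elim, (n1 h2 h1).elim, rfl, (n3 h1 h2).elim,
    (n2 h2 h1).elim, (n3 h2 h1).elim, rfl]

theorem tbc (S : ShapeF) {a b c : Box} (h : Tri a b c) : Ty b c :=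
  S.ty_trans _ _ _ (S.ty_symm _ _ h.1) h.2.1

theorem tca (S : ShapeF) {a b c : Box} (h : Tri a b c) : Ty c a := S.ty_symm _ _ h.2.1

theorem cyc_spec (S : ShapeF) (A : SmA) (a b c : Box) (h : Tri a b c) :
    IsCyc (cyc a b c) a b c := by
  have e : ∃ g, IsCyc g a b c := by
    obtain ⟨g, h1, h2⟩ := ex_perm A (pw3 A h) (pw3 A (S.sy_tri a b c h).1)
      (by
        rintro (_ | _ | _)
        exacts [h.1.2.2.1, (tbc S h).2.2.1, (tca S h).2.2.1])
      (by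
        rintro x (_ | _ | _) hx
        exacts [⟨some false, hx⟩, ⟨some true, hx⟩, ⟨none, hx⟩])
      (by
        rintro x (_ | _ | _) hx
        exacts [⟨some true, hx⟩, ⟨none, hx⟩, ⟨some false, hx⟩])
    refine ⟨g, h1 none, h1 (some false), h1 (some true), fun x xa xb xc => h2 x ?_⟩
    rintro (_ | _ | _)
    exacts [xa, xb, xc]
  rw [cyc, dif_pos e]
  exact e.choose_spec

theorem car_eq {g h : Perm X} {a b : Box} (h1 : Car g a b) (h2 : Car h a b) {x} (hx : In a x) :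
    g x = h x := by
  obtain ⟨u, hu, rfl⟩ := hx
  rw [h1 u hu, h2 u hu]

theorem cyc_ext (g h : Perm X) (a b c : Box) (hg : IsCyc g a b c) (hh : IsCyc h a b c) :
    g = h := by
  refine Equiv.ext fun x => ?_
  by_cases xa : In a x
  · exact car_eq hg.1 hh.1 xa
  by_cases xb : In b x
  · exact car_eq hg.2.1 hh.2.1 xb
  by_cases xc : In c x
  · exact car_eq hg.2.2.1 hh.2.2.1 xc
  rw [hg.2.2.2 x xa xb xc, hh.2.2.2 x xa xb xc]

theorem pwk (S : ShapeF) (A : SmA) {ρ : Box} {i : ℕ} (hi : i < ar ρ.2) : Pw (kd ρ i) := by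
  intro k l x h1 h2
  by_contra n
  exact (A.disj_iff _ _ ((S.kid_len _ _ _).trans (S.kid_len _ _ _).symm)).1
    (S.disj_kids ρ i k l hi n) x h1 h2

theorem tyk (S : ShapeF) {ρ : Box} {i : ℕ} (h : ρ.2.length = 3) (hi : i < ar ρ.2) (o) :
    Ty (kd ρ 0 o) (kd ρ i o) :=
  S.ty_kd ρ ρ 0 i o ⟨h, h, rfl, rfl⟩ (by omega) hi

theorem bak_spec (S : ShapeF) (A : SmA) (ρ : Box) (i : ℕ) (h : ρ.2.length = 3)
    (hi : i < ar ρ.2) : IsBak (bak ρ i) ρ i := by
  have h0 : 0 < ar ρ.2 := by omega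
  have e : ∃ g, IsBak g ρ i := by
    obtain ⟨g, h1, h2⟩ := ex_perm A (pwk S A h0) (pwk S A hi) (fun o => (tyk S h hi o).2.2.1)
      (fun x k hx => A.in_kids ρ 0 x h0 (A.in_kd ρ i k x hx))
      (fun x k hx => A.in_kids ρ i x hi (A.in_kd ρ 0 k x hx))
    exact ⟨g, h1, fun x hx => h2 x fun k hk => hx (A.in_kd ρ 0 k x hk)⟩
  rw [bak, dif_pos e]
  exact e.choose_spec

theorem bak_zero (A : SmA) (ρ : Box) (h : 0 < ar ρ.2) : bak ρ 0 = 1 := by
  rw [bak]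
  split_ifs with e
  · obtain ⟨h1, h2⟩ := e.choose_spec
    refine Equiv.ext fun x => ?_
    by_cases hx : In ρ x
    · obtain ⟨o, ho⟩ := A.in_kids ρ 0 x h hx
      exact car_eq (h1 o) (A.car_one 0 _).1 ho
    · exact h2 x hx
  · rfl

theorem mv_car (S : ShapeF) (A : SmA) (g₁ g₂ g₃ a a' : Box) (h : Tri g₁ g₂ g₃)
    (ha : a.2.length = 3) (hm : Mv g₁ g₂ g₃ a a') : Car (cyc g₁ g₂ g₃) a a' := by
  obtain ⟨c1, c2, c3, c4⟩ := cyc_spec S A _ _ _ h
  rcases hm with ⟨u, hu, rfl, rfl⟩ | ⟨u, hu, rfl, rfl⟩ | ⟨u, hu, rfl, rfl⟩ | ⟨rfl, d1, d2, d3⟩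
  · exact A.car_sb _ _ _ u h.1 hu c1
  · exact A.car_sb _ _ _ u (tbc S h) hu c2
  · exact A.car_sb _ _ _ u (tca S h) hu c3
  · exact (A.off_car _ _).1 fun x hx => c4 x (nin A d1 ha h.1.1 hx) (nin A d2 ha h.1.2.1 hx)
      (nin A d3 ha h.2.1.2.1 hx)

theorem car_conj (S : ShapeF) (A : SmA) {g c : Perm X} {a b a' b' : Box} (t1 : Ty a a')
    (t2 : Ty a b) (h1 : Car g a a') (h2 : Car c a b) (h3 : Car g b b') :
    Car (g * c * g⁻¹) a' b' := by
  have t := S.ty_symm _ _ t1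
  rw [mul_assoc]
  exact A.car_mul _ _ _ _ _ (S.ty_trans _ _ _ t t2)
    (A.car_mul _ _ _ _ _ t (A.car_inv _ _ _ t1 h1) h2) h3

theorem nin_inv (A : SmA) {g : Perm X} {a b : Box} (t : Ty a b) (h : Car g a b) {x}
    (hx : ¬ In b x) : ¬ In a (g⁻¹ x) := fun k =>
  hx (by simpa using (A.car_in g a b _ t h).2 k)

theorem cyc_nat (S : ShapeF) (A : SmA) (g : Perm X) (a b c a' b' c' : Box) (h : Tri a b c)
    (h' : Tri a' b' c') (t : Ty a a') (ca : Car g a a') (cb : Car g b b') (cc : Car g c c') :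
    g * cyc a b c * g⁻¹ = cyc a' b' c' := by
  obtain ⟨c1, c2, c3, c4⟩ := cyc_spec S A _ _ _ h
  have tb : Ty b b' := S.ty_trans _ _ _ (S.ty_symm _ _ h.1) (S.ty_trans _ _ _ t h'.1)
  have tc : Ty c c' := S.ty_trans _ _ _ (tca S h) (S.ty_trans _ _ _ t h'.2.1)
  refine cyc_ext _ _ a' b' c' ⟨car_conj S A t h.1 ca c1 cb, car_conj S A tb (tbc S h) cb c2 cc,
    car_conj S A tc (tca S h) cc c3 ca, fun x xa xb xc => ?_⟩ (cyc_spec S A _ _ _ h')
  rw [Perm.mul_apply, Perm.mul_apply,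
    c4 _ (nin_inv A t ca xa) (nin_inv A tb cb xb) (nin_inv A tc cc xc)]
  simp

theorem prod3 {g : Perm X} {c : Option Bool → Perm X} {W : Option Bool → X → Prop}
    (h1 : ∀ o x, W o x → c o x = g x) (h2 : ∀ o x, ¬ W o x → c o x = x)
    (h3 : ∀ o o' x, W o x → W o' x → o = o') (h4 : ∀ o x, W o x → W o (g x))
    (h5 : ∀ x, (∀ o, ¬ W o x) → g x = x) : g = c none * c (some false) * c (some true) := by
  refine Equiv.ext fun x => ?_
  have k : ∀ o o' y, W o y → o ≠ o' → c o' y = y := fun o o' y hy n =>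
    h2 o' y fun h => n (h3 o o' y hy h)
  rw [Perm.mul_apply, Perm.mul_apply]
  by_cases h : ∃ o, W o x
  · obtain ⟨_ | _ | _, ho⟩ := h
    · rw [k _ (some true) x ho (by simp), k _ (some false) x ho (by simp), h1 _ x ho]
    · rw [k _ (some true) x ho (by simp), h1 _ x ho, k _ none _ (h4 _ x ho) (by simp)]
    · rw [h1 _ x ho, k _ (some false) _ (h4 _ x ho) (by simp), k _ none _ (h4 _ x ho) (by simp)]
  · have n : ∀ o, ¬ W o x := fun o ho => h ⟨o, ho⟩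
    rw [h2 _ x (n _), h2 _ x (n _), h2 _ x (n _), h5 x n]

theorem split (S : ShapeF) (A : SmA) (a b c : Box) (i : ℕ) (h : Tri a b c) (hi : i < ar a.2)
    (hk : ∀ o, Tri (kd a i o) (kd b i o) (kd c i o)) :
    cyc a b c = cyc (kd a i none) (kd b i none) (kd c i none) *
      cyc (kd a i (some false)) (kd b i (some false)) (kd c i (some false)) *
      cyc (kd a i (some true)) (kd b i (some true)) (kd c i (some true)) := by
  obtain ⟨c1, c2, c3, c4⟩ := cyc_spec S A _ _ _ h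
  have k1 := fun o => A.car_kd _ _ _ i o h.1 c1
  have k2 := fun o => A.car_kd _ _ _ i o (tbc S h) c2
  have k3 := fun o => A.car_kd _ _ _ i o (tca S h) c3
  have hi' : ∀ k, i < ar (t3 a b c k).2 := by
    rintro (_ | _ | _)
    exacts [hi, h.1.2.2.1 ▸ hi, h.2.1.2.2.1 ▸ hi]
  refine prod3 (c := fun o => cyc (kd a i o) (kd b i o) (kd c i o))
    (W := fun o x => ∃ k, In (kd (t3 a b c k) i o) x) ?_ ?_ ?_ ?_ ?_
  · rintro o x ⟨_ | _ | _, hx⟩
    · exact car_eq (cyc_spec S A _ _ _ (hk o)).1 (k1 o) hx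
    · exact car_eq (cyc_spec S A _ _ _ (hk o)).2.1 (k2 o) hx
    · exact car_eq (cyc_spec S A _ _ _ (hk o)).2.2.1 (k3 o) hx
  · exact fun o x hx => (cyc_spec S A _ _ _ (hk o)).2.2.2 x (fun k => hx ⟨none, k⟩)
      (fun k => hx ⟨some false, k⟩) fun k => hx ⟨some true, k⟩
  · rintro o o' x ⟨k, h1⟩ ⟨l, h2⟩
    obtain rfl := pw3 A h k l x (A.in_kd _ _ _ _ h1) (A.in_kd _ _ _ _ h2)
    exact pwk S A (hi' k) o o' x h1 h2
  · rintro o x ⟨_ | _ | _, hx⟩
    · exact ⟨some false, (A.car_in _ _ _ x (hk o).1 (k1 o)).2 hx⟩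
    · exact ⟨some true, (A.car_in _ _ _ x (tbc S (hk o)) (k2 o)).2 hx⟩
    · exact ⟨none, (A.car_in _ _ _ x (tca S (hk o)) (k3 o)).2 hx⟩
  · intro x hx
    have n : ∀ k, ¬ In (t3 a b c k) x := fun k hk =>
      (A.in_kids _ i x (hi' k) hk).elim fun o ho => hx o ⟨k, ho⟩
    exact c4 x (n none) (n (some false)) (n (some true))

theorem fix_inv {g : Perm X} {x : X} (h : g x = x) : g⁻¹ x = x :=
  Perm.inv_eq_iff_eq.2 h.symm

theorem cyc_sys (S : ShapeF) (A : SmA) : Sys Tri cyc where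
  cyc a b c h := by
    obtain ⟨c1, c2, c3, c4⟩ := cyc_spec S A _ _ _ h
    exact cyc_ext _ _ b c a ⟨c2, c3, c1, fun x xb xc xa => c4 x xa xb xc⟩
      (cyc_spec S A _ _ _ (S.sy_tri a b c h).1)
  inv a b c h := by
    obtain ⟨c1, c2, c3, c4⟩ := cyc_spec S A _ _ _ h
    rw [cyc_ext _ (cyc a b c)⁻¹ a c b (cyc_spec S A _ _ _ (S.sy_tri a b c h).2)
      ⟨A.car_inv _ _ _ (tca S h) c3, A.car_inv _ _ _ (tbc S h) c2, A.car_inv _ _ _ h.1 c1,
        fun x xa xc xb => fix_inv (c4 x xa xb xc)⟩, inv_mul_cancel]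
  tri a b e f h1 h2 h3 := by
    obtain ⟨p1, p2, p3, p4⟩ := cyc_spec S A _ _ _ h2
    obtain ⟨q1, q2, q3, q4⟩ := cyc_spec S A _ _ _ h3
    have qb : Car (cyc a f e) b b := mv_car S A _ _ _ b b h3 h2.1.1
      (.inr (.inr (.inr ⟨rfl, S.disj_symm _ _ h1.2.2.1, h2.2.2.2.1, h2.2.2.1⟩)))
    have pa : Car (cyc b e f) a a := mv_car S A _ _ _ a a h2 h1.1.1
      (.inr (.inr (.inr ⟨rfl, h1.2.2.1, h1.2.2.2.1, h3.2.2.1⟩)))
    refine cyc_ext _ _ a b e ⟨A.car_mul _ _ _ _ _ h3.1 q1 p3,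
      A.car_mul _ _ _ _ _ ⟨h2.1.1, h2.1.1, rfl, rfl⟩ qb p1, A.car_mul _ _ _ _ _ (tca S h3) q3 pa,
      fun x xa xb xe => ?_⟩ (cyc_spec S A _ _ _ h1)
    by_cases xf : In f x
    · exact (A.off_car _ _).2 (A.car_mul _ _ _ _ _ (tbc S h3) q2 p2) x xf
    · rw [Perm.mul_apply, q4 x xa xf xe, p4 x xb xe xf]
  split := split S A
  conj g₁ g₂ g₃ a b c a' b' c' hg h h' m1 m2 m3 := by
    rw [← cyc_nat S A (cyc g₁ g₂ g₃) a b c a' b' c' h h' (S.mv_ty _ _ _ _ _ hg h.1.1 m1)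
      (mv_car S A _ _ _ _ _ hg h.1.1 m1) (mv_car S A _ _ _ _ _ hg h.1.2.1 m2)
      (mv_car S A _ _ _ _ _ hg h.2.1.2.1 m3), inv_mul_cancel_right]

/-- permutations given by three moves -/
def PW (g : Perm X) : Prop := ∃ a b : Option Bool → Box,
  (∀ k, Ty (a k) (b k) ∧ Car g (a k) (b k)) ∧ ∀ x, (∀ k, ¬ In (a k) x) → g x = x

theorem PW.inv (S : ShapeF) (A : SmA) {g : Perm X} (h : PW g) : PW g⁻¹ := by
  obtain ⟨a, b, h1, h2⟩ := h
  refine ⟨b, a, fun k => ⟨S.ty_symm _ _ (h1 k).1, A.car_inv _ _ _ (h1 k).1 (h1 k).2⟩,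
    fun x hx => ?_⟩
  have e := h2 _ fun k => nin_inv A (h1 k).1 (h1 k).2 (hx k)
  rw [← e]
  simp

theorem gam_ind (S : ShapeF) (A : SmA) {P : Perm X → Prop} (h0 : ∀ g, PW g → P g) (h1 : P 1)
    (h2 : ∀ g h, P g → P h → P (g * h)) : ∀ g ∈ Gam, P g := by
  have k : ∀ g, ((∃ a b c, Tri a b c ∧ g = cyc a b c) ∨
      ∃ ρ i, ρ.2.length = 3 ∧ i < ar ρ.2 ∧ g = bak ρ i) → PW g := by
    rintro g (⟨a, b, c, h, rfl⟩ | ⟨ρ, i, h, hi, rfl⟩)
    · obtain ⟨c1, c2, c3, c4⟩ := cyc_spec S A _ _ _ h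
      refine ⟨t3 a b c, t3 b c a, ?_, fun x n => c4 x (n none) (n (some false)) (n (some true))⟩
      rintro (_ | _ | _)
      exacts [⟨h.1, c1⟩, ⟨tbc S h, c2⟩, ⟨tca S h, c3⟩]
    · obtain ⟨c1, c2⟩ := bak_spec S A ρ i h hi
      exact ⟨kd ρ 0, kd ρ i, fun o => ⟨tyk S h hi o, c1 o⟩, fun x n => c2 x fun hx =>
        (A.in_kids ρ 0 x (by omega) hx).elim n⟩
  intro g hg
  have : P g ∧ P g⁻¹ := by
    induction hg using Subgroup.closure_induction with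
    | mem g hg => exact ⟨h0 _ (k g hg), h0 _ ((k g hg).inv S A)⟩
    | one => exact ⟨h1, by rwa [inv_one]⟩
    | mul g h _ _ pg ph => exact ⟨h2 _ _ pg.1 ph.1, by rw [mul_inv_rev]; exact h2 _ _ ph.2 pg.2⟩
    | inv g _ pg => exact ⟨pg.2, by rw [inv_inv]; exact pg.1⟩
  exact this.1

theorem gam_lev (S : ShapeF) (A : SmA) : ∀ g ∈ Gam, ∀ x, lev (g x) = lev x := by
  refine gam_ind S A (P := fun g => ∀ x, lev (g x) = lev x) ?_ (fun _ => rfl)
    fun g h pg ph x => by rw [Perm.mul_apply, pg, ph]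
  rintro g ⟨a, b, h1, h2⟩ x
  by_cases h : ∃ k, In (a k) x
  · obtain ⟨k, u, hu, rfl⟩ := h
    rw [(h1 k).2 u hu, A.lev_cell _ u hu, A.lev_cell _ u (hu.trans (h1 k).1.2.2.1),
      (h1 k).1.2.2.2]
  · rw [h2 x fun k hk => h ⟨k, hk⟩]

theorem gam_junk (S : ShapeF) (A : SmA) : ∀ g ∈ Gam, ∀ x : X, x.2.length ≠ 3 → g x = x := by
  refine gam_ind S A (P := fun g => ∀ x : X, x.2.length ≠ 3 → g x = x) ?_ (fun _ _ => rfl)
    fun g h pg ph x hx => by rw [Perm.mul_apply, ph x hx, pg x hx]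
  rintro g ⟨a, b, h1, h2⟩ x hx
  exact h2 x fun k hk => hx ((A.in_copy _ x hk).2.trans (h1 k).1.1)

theorem gam_fine (S : ShapeF) (A : SmA) : ∀ g ∈ Gam, ∃ n, ∀ b : Box, b.2.length = 3 →
    Deep n b.2 → ∃ b', Ty b b' ∧ Car g b b' := by
  refine gam_ind S A (P := fun g => ∃ n, ∀ b : Box, b.2.length = 3 →
    Deep n b.2 → ∃ b', Ty b b' ∧ Car g b b') ?_
    ⟨0, fun b hb _ => ⟨b, ⟨hb, hb, rfl, rfl⟩, (A.car_one 0 b).1⟩⟩ ?_
  · rintro g ⟨a, b, h1, h2⟩
    refine ⟨dg (a none).2 + dg (a (some false)).2 + dg (a (some true)).2 + 1, fun z hz hd => ?_⟩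
    by_cases h : ∃ k, ∃ u : Shape, u.length = ar (a k).2 ∧ z = sb (a k) u
    · obtain ⟨k, u, hu, rfl⟩ := h
      exact ⟨sb (b k) u, S.ty_sb _ _ u (h1 k).1 hu, A.car_sb _ _ _ u (h1 k).1 hu (h1 k).2⟩
    · refine ⟨z, ⟨hz, hz, rfl, rfl⟩, (A.off_car _ _).1 fun x hx => h2 x fun k hk => ?_⟩
      rcases S.tricho _ (a k) z (hz.trans (h1 k).1.1.symm) hd
        (by rcases k with _ | _ | _ <;> omega) with h' | h'
      · exact h ⟨k, h'⟩
      · exact nin A h' hz (h1 k).1.1 hx hk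
  · rintro g h ⟨n, pg⟩ ⟨m, ph⟩
    refine ⟨m + n, fun z hz hd => ?_⟩
    obtain ⟨τ, u, hu, hτ, d1, d2, e⟩ := S.deep_split m n _ hd
    obtain ⟨t, t1, t2⟩ := ph (z.1, τ) (hτ.trans hz) d1
    have ez : z = sb (z.1, τ) u := Prod.ext rfl e
    have s1 := S.ty_sb _ _ u t1 hu
    have s2 := A.car_sb _ _ _ u t1 hu t2
    rw [← ez] at s1 s2
    obtain ⟨w, w1, w2⟩ := pg (sb t u) s1.2.1 (S.deep_comp n _ u (hu.trans t1.2.2.1) d2)
    exact ⟨w, S.ty_trans _ _ _ s1 w1, A.car_mul _ _ _ _ _ s1 s2 w2⟩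

theorem res_spec (S : ShapeF) (A : SmA) (K : ℕ) (g : Perm X) (hg : g ∈ Gam) :
    IsRes K g (res K g) := by
  have k : ∀ g ∈ Gam, ∀ x, (if K < lev (if K < lev x then g x else x)
      then g⁻¹ (if K < lev x then g x else x) else if K < lev x then g x else x) = x := by
    intro g hg x
    by_cases h : K < lev x
    · simp [h, gam_lev S A g hg]
    · simp [h]
  have e : ∃ g', IsRes K g g' :=
    ⟨⟨fun x => if K < lev x then g x else x, fun x => if K < lev x then g⁻¹ x else x, k g hg,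
      k g⁻¹ (inv_mem hg)⟩, fun _ => rfl⟩
  rw [res, dif_pos e]
  exact e.choose_spec

theorem res_mul (S : ShapeF) (A : SmA) (K : ℕ) (g : Perm X) (hg : g ∈ Gam) (h : Perm X)
    (hh : h ∈ Gam) : res K (g * h) = res K g * res K h := by
  refine Equiv.ext fun x => ?_
  rw [Perm.mul_apply, res_spec S A K _ (mul_mem hg hh), res_spec S A K g hg, res_spec S A K h hh]
  by_cases k : K < lev x
  · simp [k, gam_lev S A h hh]
  · simp [k]

theorem res_one (S : ShapeF) (A : SmA) (K : ℕ) : res K 1 = 1 := by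
  refine Equiv.ext fun x => ?_
  rw [res_spec S A K 1 (one_mem _)]
  simp

end SmBx

open SmBx in
theorem smB_main : SpSmB := fun S A =>
  { cyc_spec := cyc_spec S A
    cyc_ext := cyc_ext
    cyc_mem := fun a b c h => Subgroup.subset_closure (.inl ⟨a, b, c, h, rfl⟩)
    bak_spec := bak_spec S A
    bak_mem := fun ρ i h hi => Subgroup.subset_closure (.inr ⟨ρ, i, h, hi, rfl⟩)
    bak_zero := bak_zero A
    mv_car := mv_car S A
    cyc_nat := cyc_nat S A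
    cyc_sys := cyc_sys S A
    gam_lev := gam_lev S A
    gam_junk := gam_junk S A
    gam_fine := gam_fine S A
    res_spec := res_spec S A
    res_mul := res_mul S A
    res_one := res_one S A
    res_inv := fun K g hg => eq_inv_of_mul_eq_one_left (by
      rw [← res_mul S A K _ (inv_mem hg) g hg, inv_mul_cancel, res_one S A])
    res_carK := fun K g hg a b => forall₃_congr fun u _ h => by
      rw [res_spec S A K g hg, if_pos h]
    res_on := fun K g hg a h x hx => by rw [res_spec S A K g hg, h x hx, ite_self] }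

end Pool.Agent.MP_89edc2_al.R3
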