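import Pool.Agent.MP_89edc2_al.R3.Spec

/-!
# Baker maps above a level
-/

namespace Pool.Agent.MP_89edc2_al.R3

namespace SmCx

/-- the cells of level at most `K` are fixed -/
def Lo (K : ℕ) (g : Equiv.Perm X) : Prop := ∀ x, lev x ≤ K → g x = x

variable {K : ℕ} {g h G H : Equiv.Perm X} {ρ ρ' a b : Box} {x : X}

theorem Lo.mul (h1 : Lo K g) (h2 : Lo K h) : Lo K (g * h) := fun x hx => by
  rw [Equiv.Perm.mul_apply, h2 x hx, h1 x hx]

theorem Lo.inv (h1 : Lo K g) : Lo K g⁻¹ := fun x hx =>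
  Equiv.Perm.inv_eq_iff_eq.2 (h1 x hx).symm

theorem lo_res (B : SmB) (hg : g ∈ Gam) : Lo K (res K g) := fun x hx => by
  rw [B.res_spec K g hg x, if_neg (not_lt.2 hx)]

theorem ext (l1 : Lo K g) (l2 : Lo K h) (o1 : On g ρ) (o2 : On h ρ)
    (e : ∀ x, In ρ x → K < lev x → g x = h x) : g = h := Equiv.ext fun x => by
  rcases le_or_gt (lev x) K with c | c
  · rw [l1 x c, l2 x c]
  · by_cases i : In ρ x
    · exact e x i c
    · rw [o1 x i, o2 x i]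

theorem eqv (h1 : CarK K g a b) (h2 : CarK K h a b) (i : In a x) (c : K < lev x) :
    g x = h x := by
  obtain ⟨u, hu, rfl⟩ := i
  rw [h1 u hu c, h2 u hu c]

theorem onNat (l : Lo K H) (t : Ty ρ ρ') (c : CarK K G ρ ρ') (o : On H ρ) :
    On (G * H * G⁻¹) ρ' := fun x hx => by
  have : H (G⁻¹ x) = G⁻¹ x := by
    rcases le_or_gt (lev (G⁻¹ x)) K with d | d
    · exact l _ d
    · refine o _ fun ⟨u, hu, e⟩ => hx ⟨u, hu.trans t.2.2.1, ?_⟩
      rw [← c u hu (e ▸ d), ← e]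
      simp
  rw [Equiv.Perm.mul_apply, Equiv.Perm.mul_apply, this]
  simp

theorem ty_refl (h : a.2.length = 3) : Ty a a := ⟨h, h, rfl, rfl⟩

theorem kd_pos (S : ShapeF) (h : 2 ≤ ar ρ.2) (o : Option Bool) : 0 < ar (kd ρ 0 o).2 := by
  rcases o with _ | e
  · have := S.kid_ar0 ρ.2 0 (by omega)
    show 0 < ar (kid ρ.2 0 none)
    omega
  · show 0 < ar (kid ρ.2 0 (some e))
    rw [S.kid_ar1]
    omega

theorem kd_len (S : ShapeF) (h : ρ.2.length = 3) (i : ℕ) (o : Option Bool) :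
    (kd ρ i o).2.length = 3 := (S.kid_len ρ.2 i o).trans h

theorem ty_sq (S : ShapeF) (h : ρ.2.length = 3) (h2 : 2 ≤ ar ρ.2) (o o' : Option Bool) :
    Ty (kd (kd ρ 0 o) 0 o') (kd (kd ρ 0 o') 0 o) := by
  have e : kd (kd ρ 0 o) (adj 0 o 1) o' = kd (kd ρ 1 o') 0 o :=
    Prod.ext rfl ((S.kid_sq ρ.2 0 1 o o' (by omega) (by omega) (by omega)).trans (by
      simp [adj, kd]))
  have t1 := S.ty_kd _ _ 0 (adj 0 o 1) o' (ty_refl (kd_len S h 0 o)) (kd_pos S h2 o)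
    (S.adj_lt ρ.2 0 1 o (by omega) (by omega) (by omega))
  have t2 := S.ty_kd _ _ 0 0 o (S.ty_kd ρ ρ 0 1 o' (ty_refl h) (by omega) (by omega))
    (kd_pos S h2 o') (kd_pos S h2 o')
  rw [e] at t1
  exact S.ty_trans _ _ _ t1 (S.ty_symm _ _ t2)

theorem grand (S : ShapeF) (A : SmA) (h2 : 2 ≤ ar ρ.2) (i : In ρ x) :
    ∃ o o', In (kd (kd ρ 0 o) 0 o') x := by
  obtain ⟨o, i1⟩ := A.in_kids ρ 0 x (by omega) i
  obtain ⟨o', i2⟩ := A.in_kids _ 0 x (kd_pos S h2 o) i1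
  exact ⟨o, o', i2⟩

theorem conj (S : ShapeF) (A : SmA) {a' b' : Box} (t1 : Ty a a') (t2 : Ty a b)
    (c1 : CarK K G a a') (c2 : CarK K H a b) (c3 : CarK K G b b') :
    CarK K (G * H * G⁻¹) a' b' :=
  A.carK_mul K _ _ a' a b' (S.ty_symm _ _ t1) (A.carK_inv K G a a' t1 c1)
    (A.carK_mul K _ _ a b b' t2 c2 c3)

theorem bak_car (A : SmA) (B : SmB) (h : ρ.2.length = 3) {i : ℕ} (hi : i < ar ρ.2)
    (o : Option Bool) : CarK K (res K (bak ρ i)) (kd ρ 0 o) (kd ρ i o) :=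
  (B.res_carK K _ (B.bak_mem ρ i h hi) _ _).2 (A.car_K K _ _ _ ((B.bak_spec ρ i h hi).1 o))

theorem bak_on (B : SmB) (h : ρ.2.length = 3) {i : ℕ} (hi : i < ar ρ.2) :
    On (res K (bak ρ i)) ρ := B.res_on K _ (B.bak_mem ρ i h hi) _ (B.bak_spec ρ i h hi).2

theorem p3_at (S : ShapeF) (A : SmA) {f : Option Bool → Equiv.Perm X} (h0 : 0 < ar ρ.2)
    (hf : ∀ o, On (f o) (kd ρ 0 o)) {o : Option Bool} (i : In (kd ρ 0 o) x) :
    p3 f x = f o x := by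
  have k : ∀ o', o ≠ o' → ∀ y, In (kd ρ 0 o) y → f o' y = y := fun o' n y hy =>
    hf o' y ((A.disj_iff _ _ ((S.kid_len ρ.2 0 o).trans (S.kid_len ρ.2 0 o').symm)).1
      (S.disj_kids ρ 0 o o' h0 n) y hy)
  have m := A.on_in _ _ x (hf o) i
  simp only [p3, Equiv.Perm.mul_apply]
  rcases o with _ | _ | _
  · rw [k (some true) (by simp) x i, k (some false) (by simp) x i]
  · rw [k (some true) (by simp) x i, k none (by simp) _ m]
  · rw [k (some false) (by simp) _ m, k none (by simp) _ m]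

theorem p3_on (A : SmA) {f : Option Bool → Equiv.Perm X} (hf : ∀ o, On (f o) (kd ρ 0 o)) :
    On (p3 f) ρ := by
  have k : ∀ o, On (f o) ρ := fun o x hx => hf o x fun i => hx (A.in_kd ρ 0 o x i)
  exact A.on_mul _ _ _ (A.on_mul _ _ _ (k _) (k _)) (k _)

/-- two steps -/
theorem two (S : ShapeF) (A : SmA) (B : SmB) (h : ρ.2.length = 3) {i j : ℕ} (hi : i < ar ρ.2)
    (hj : j < ar ρ.2) (n : i ≠ j) :
    Lo K (res K (bak ρ i) * p3 fun o => res K (bak (kd ρ 0 o) (adj i o j))) ∧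
    On (res K (bak ρ i) * p3 fun o => res K (bak (kd ρ 0 o) (adj i o j))) ρ ∧ ∀ o o',
      CarK K (res K (bak ρ i) * p3 fun o => res K (bak (kd ρ 0 o) (adj i o j)))
        (kd (kd ρ 0 o) 0 o') (kd (kd ρ i o) (adj i o j) o') := by
  have h0 : 0 < ar ρ.2 := by omega
  have t : ∀ o, Ty (kd ρ 0 o) (kd ρ i o) := fun o => S.ty_kd ρ ρ 0 i o (ty_refl h) h0 hi
  have l : ∀ o, adj i o j < ar (kd ρ 0 o).2 := fun o =>
    (S.adj_lt ρ.2 i j o hi hj n).trans_eq (t o).2.2.1.symm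
  have on : ∀ o, On (res K (bak (kd ρ 0 o) (adj i o j))) (kd ρ 0 o) := fun o =>
    bak_on B (kd_len S h 0 o) (l o)
  have lo : ∀ o, Lo K (res K (bak (kd ρ 0 o) (adj i o j))) := fun o =>
    lo_res B (B.bak_mem _ _ (kd_len S h 0 o) (l o))
  refine ⟨(lo_res B (B.bak_mem ρ i h hi)).mul (((lo _).mul (lo _)).mul (lo _)),
    A.on_mul _ _ _ (bak_on B h hi) (p3_on A on), fun o o' => ?_⟩
  refine A.carK_mul K _ _ _ (kd (kd ρ 0 o) (adj i o j) o') _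
    (S.ty_kd _ _ _ _ o' (ty_refl (kd_len S h 0 o)) (by have := l o; omega) (l o))
    (fun u hu c => ?_) (A.carK_kd K _ _ _ _ o' (t o) (bak_car A B h hi o))
  rw [p3_at S A h0 on (A.in_kd _ 0 o' _ ⟨u, hu, rfl⟩)]
  exact bak_car A B (kd_len S h 0 o) (l o) o' u hu c

end SmCx

open SmCx in
theorem smC_main : SpSmC := by
  intro S A B
  refine ⟨fun K g hg ρ ρ' i t hi c => ?_, fun K g hg ρ i j h hi hj n q => ?_,
    fun K g hg h hh ρ h2 q q' => ?_, fun K g ρ h h2 q => ?_,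
    fun K g hg h hh ρ ρ' t h2 c q => ?_,
    fun K g _ h hh ρ ρ' t c o => onNat (lo_res B hh) t c o, fun K g hg ρ c x i => ?_⟩
  · have hi' : i < ar ρ'.2 := hi.trans_eq t.2.2.1
    have h0 : 0 < ar ρ.2 := by omega
    have l := lo_res (K := K) B (B.bak_mem ρ i t.1 hi)
    refine ext (((lo_res B hg).mul l).mul (lo_res B hg).inv)
      (lo_res B (B.bak_mem ρ' i t.2.1 hi')) (onNat l t c (bak_on B t.1 hi))
      (bak_on B t.2.1 hi') fun x m d => ?_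
    obtain ⟨o, m⟩ := A.in_kids ρ' 0 x (by omega) m
    exact eqv (conj S A (S.ty_kd ρ ρ' 0 0 o t h0 h0) (S.ty_kd ρ ρ 0 i o (ty_refl t.1) h0 hi)
      (A.carK_kd K _ _ _ 0 o t c) (bak_car A B t.1 hi o) (A.carK_kd K _ _ _ i o t c))
      (bak_car A B t.2.1 hi' o) m d
  · have h2 : 2 ≤ ar ρ.2 := by omega
    obtain ⟨a1, a2, a3⟩ := two (K := K) S A B h hi hj n
    obtain ⟨b1, b2, b3⟩ := two (K := K) S A B h hj hi n.symm
    refine ext a1 (b1.mul (lo_res B hg)) a2 (A.on_mul _ _ _ b2 q.2) fun x m d => ?_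
    obtain ⟨o, o', m⟩ := grand S A h2 m
    have e : kd (kd ρ i o) (adj i o j) o' = kd (kd ρ j o') (adj j o' i) o :=
      Prod.ext rfl (S.kid_sq ρ.2 i j o o' hi hj n)
    exact eqv (a3 o o') (e ▸ A.carK_mul K _ _ _ _ _ (ty_sq S h h2 o o') (q.1 o o') (b3 o' o)) m d
  · refine ext (lo_res B hg) (lo_res B hh) q.2 q'.2 fun x m d => ?_
    obtain ⟨o, o', m⟩ := grand S A h2 m
    exact eqv (q.1 o o') (q'.1 o o') m d
  · exact ⟨fun o o' => A.carK_inv K g _ _ (ty_sq S h h2 o' o) (q.1 o' o), A.on_inv g ρ q.2⟩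
  · have h0 : 0 < ar ρ.2 := by omega
    have t1 : ∀ o, Ty (kd ρ 0 o) (kd ρ' 0 o) := fun o => S.ty_kd ρ ρ' 0 0 o t h0 h0
    have c2 : ∀ o o', CarK K (res K g) (kd (kd ρ 0 o) 0 o') (kd (kd ρ' 0 o) 0 o') := fun o o' =>
      A.carK_kd K _ _ _ 0 o' (t1 o) (A.carK_kd K _ _ _ 0 o t c)
    exact ⟨fun o o' => conj S A (S.ty_kd _ _ 0 0 o' (t1 o) (kd_pos S h2 o) (kd_pos S h2 o))
      (ty_sq S t.1 h2 o o') (c2 o o') (q.1 o o') (c2 o' o), onNat (lo_res B hh) t c q.2⟩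
  · rcases le_or_gt (lev x) K with d | d
    · exact lo_res B hg x d
    · obtain ⟨u, hu, rfl⟩ := i
      exact c u hu d

end Pool.Agent.MP_89edc2_al.R3
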