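import Pool.Agent.MP_89edc2_al.R3.Defs

/-!
# Statements of the steps, first part: facts on shapes, cells and trees
-/

namespace Pool.Agent.MP_89edc2_al.R3

open scoped commutatorElement

/-- algebra of shapes -/
structure ShA : Prop where
  comp_id : ∀ σ : Shape, comp σ (idS (ar σ)) = σ
  id_comp : ∀ τ : Shape, comp (idS τ.length) τ = τ
  comp_assoc : ∀ σ u v : Shape, u.length = ar σ → v.length = ar u →
    comp (comp σ u) v = comp σ (comp u v)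
  comp_len : ∀ σ u : Shape, u.length = ar σ → (comp σ u).length = σ.length
  comp_ar : ∀ σ u : Shape, u.length = ar σ → ar (comp σ u) = ar u
  comp_dg : ∀ σ u : Shape, u.length = ar σ → dg (comp σ u) = dg σ + dg u
  comp_wt : ∀ σ u : Shape, u.length = ar σ → wt (comp σ u) = wt σ + wt u
  comp_inj : ∀ σ u u' : Shape, u.length = ar σ → u'.length = ar σ → comp σ u = comp σ u' →
    u = u'
  comp_kid : ∀ (σ u : Shape) i o, u.length = ar σ → comp σ (kid u i o) = kid (comp σ u) i o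
  kid_eq : ∀ (σ : Shape) i o, kid σ i o = comp σ (kid (idS (ar σ)) i o)
  kid_len : ∀ (σ : Shape) i o, (kid σ i o).length = σ.length
  kid_ar0 : ∀ (σ : Shape) i, i < ar σ → ar (kid σ i none) + 1 = ar σ
  kid_ar1 : ∀ (σ : Shape) i e, ar (kid σ i (some e)) = ar σ
  kid_dg0 : ∀ (σ : Shape) i, dg (kid σ i none) = dg σ
  kid_dg1 : ∀ (σ : Shape) i e, i < ar σ → dg (kid σ i (some e)) = dg σ + 1
  kid_wt : ∀ (σ : Shape) i o, i < ar σ → wt (kid σ i o) = wt σ + 1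
  kid_sq : ∀ (σ : Shape) i j o o', i < ar σ → j < ar σ → i ≠ j →
    kid (kid σ i o) (adj i o j) o' = kid (kid σ j o') (adj j o' i) o
  adj_lt : ∀ (σ : Shape) i j o, i < ar σ → j < ar σ → i ≠ j → adj i o j < ar (kid σ i o)
  wt_ar : ∀ σ : Shape, wt σ + ar σ = dg σ + σ.length
  ar_le : ∀ σ : Shape, ar σ ≤ σ.length
  id_len : ∀ c, (idS c).length = c
  id_ar : ∀ c, ar (idS c) = c
  id_dg : ∀ c, dg (idS c) = 0
  id_wt : ∀ c, wt (idS c) = 0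
  wt_zero : ∀ σ : Shape, wt σ = 0 → σ = idS σ.length
  parent : ∀ σ : Shape, wt σ ≠ 0 → ∃ τ i o, i < ar τ ∧ σ = kid τ i o
  ty_ex : ∀ n c m, c ≤ n → 1 ≤ n → ∃ σ : Shape, σ.length = n ∧ ar σ = c ∧ dg σ = m
  fw_kid : ∀ (σ : Shape) i j o, i < ar σ → j < ar σ → i ≠ j →
    fw (kid σ i o) (adj i o j) = fw σ j
  fw_le : ∀ (σ : Shape) i, fw σ i ≤ dg σ
  deep_iff : ∀ n (σ : Shape), Deep n σ ↔ ∀ i, i < ar σ → n ≤ fw σ i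
  deep_comp : ∀ n (σ u : Shape), u.length = ar σ → Deep n u → Deep n (comp σ u)
  deep_sub : ∀ n (σ u : Shape), u.length = ar σ → Deep n σ → Deep n (comp σ u)
  deep_mono : ∀ n m (σ : Shape), n ≤ m → Deep m σ → Deep n σ
  deep_dg : ∀ n (σ : Shape), Deep n σ → 1 ≤ ar σ → n ≤ dg σ
  deep_split : ∀ n m (σ : Shape), Deep (n + m) σ → ∃ τ u : Shape, u.length = ar τ ∧
    τ.length = σ.length ∧ Deep n τ ∧ Deep m u ∧ σ = comp τ u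
  wf : ∀ n (P : Shape → Prop),
    (∀ σ, (∀ i o, i < ar σ → fw σ i < n → P (kid σ i o)) → P σ) → ∀ σ, P σ
  deep_ind : ∀ n (P : Shape → Prop), (∀ σ, Deep n σ → P σ) →
    (∀ σ i, i < ar σ → (∀ o, P (kid σ i o)) → P σ) → ∀ σ, P σ
  deep3 : ∀ n (P : Box → Box → Box → Prop),
    (∀ a b c, Ty a b → Ty a c → Deep n a.2 → Deep n b.2 → Deep n c.2 → P a b c) →
    (∀ a b c i, Ty a b → Ty a c → i < ar a.2 →
      (∀ o, P (kd a i o) (kd b i o) (kd c i o)) → P a b c) →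
    ∀ a b c, Ty a b → Ty a c → P a b c
  le_kid : ∀ n (σ : Shape) i o, Le n σ → i < ar σ → fw σ i < n → Le n (kid σ i o)
  le_dg : ∀ n (σ : Shape), Le n σ → dg σ ≤ σ.length * n
  dg_le : ∀ n (σ : Shape), dg σ ≤ n → Le n σ
  fin_sh : ∀ k n, {σ : Shape | σ.length ≤ k ∧ wt σ ≤ n}.Finite
  fin_box : ∀ n, {b : Box | b.2.length = 3 ∧ dg b.2 ≤ n}.Finite
  fresh : ∀ L : List (Fin 40), L.length < 40 → ∃ i, i ∉ L
  freshS : ∀ (S : Finset (Fin 40)) (L : List (Fin 40)), S.card + L.length < 40 →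
    ∃ i, i ∉ S ∧ i ∉ L
  ty_symm : ∀ a b, Ty a b → Ty b a
  ty_trans : ∀ a b c, Ty a b → Ty b c → Ty a c
  ty_wt : ∀ a b, Ty a b → wt a.2 = wt b.2
  ty_kd : ∀ a b i j o, Ty a b → i < ar a.2 → j < ar a.2 → Ty (kd a i o) (kd b j o)
  ty_sb : ∀ a b (u : Shape), Ty a b → u.length = ar a.2 → Ty (sb a u) (sb b u)
  sy_dc : Sy Dc
  sy_lw : ∀ l, Sy (Lw l)
  sy_hi : ∀ l, Sy (Hi l)

/-- disjointness and moves -/
structure ShB : Prop where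
  disj_symm : ∀ a b, Disj a b → Disj b a
  disj_irrefl : ∀ a, ¬ Disj a a
  disj_sb : ∀ a z (u : Shape), u.length = ar a.2 → Disj a z → Disj (sb a u) z
  disj_kd : ∀ a z i o, Disj a z → Disj (kd a i o) z
  disj_kids : ∀ a i o o', i < ar a.2 → o ≠ o' → Disj (kd a i o) (kd a i o')
  disj_par : ∀ a b (u u' : Shape), ar a.2 = ar b.2 → u.length = ar a.2 → u'.length = ar a.2 →
    Disj (sb a u) (sb a u') → Disj (sb b u) (sb b u')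
  sy_tri : Sy Tri
  dc_tri : ∀ a b c, Dc a b c → Tri a b c
  tri_kd : ∀ a b c i o, Tri a b c → i < ar a.2 → Tri (kd a i o) (kd b i o) (kd c i o)
  tri_sb : ∀ a b c (u : Shape), Tri a b c → u.length = ar a.2 → Tri (sb a u) (sb b u) (sb c u)
  mo_self : ∀ g g' : Box, ar g.2 = ar g'.2 → Mo g g' g g'
  mo_sb : ∀ g g' a a' (u : Shape), ar g.2 = ar g'.2 → Mo g g' a a' → u.length = ar a.2 →
    Mo g g' (sb a u) (sb a' u)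
  mo_kd : ∀ g g' a a' i o, ar g.2 = ar g'.2 → Mo g g' a a' → Mo g g' (kd a i o) (kd a' i o)
  mo_ty : ∀ g g' a a', Ty g g' → Mo g g' a a' → Ty a a'
  mo_wt : ∀ g g' a a', ar g.2 = ar g'.2 → Mo g g' a a' → wt g.2 ≤ wt a.2 ∧ dg g.2 ≤ dg a.2 ∧
    (wt a.2 = wt g.2 → a = g ∧ a' = g')
  mv_ty : ∀ g₁ g₂ g₃ a a', Tri g₁ g₂ g₃ → a.2.length = 3 → Mv g₁ g₂ g₃ a a' → Ty a a'
  mv_disj : ∀ g₁ g₂ g₃ a a' b b', Tri g₁ g₂ g₃ → Mv g₁ g₂ g₃ a a' → Mv g₁ g₂ g₃ b b' →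
    Disj a b → Disj a' b'
  mv_tri : ∀ g₁ g₂ g₃ a b c a' b' c', Tri g₁ g₂ g₃ → Tri a b c →
    Mv3 g₁ g₂ g₃ a b c a' b' c' → Tri a' b' c'
  mv_fun : ∀ g₁ g₂ g₃ a a' a'', Tri g₁ g₂ g₃ → Mv g₁ g₂ g₃ a a' → Mv g₁ g₂ g₃ a a'' → a' = a''
  mv_sb : ∀ g₁ g₂ g₃ a a' (u : Shape), Tri g₁ g₂ g₃ → Mv g₁ g₂ g₃ a a' → u.length = ar a.2 →
    Mv g₁ g₂ g₃ (sb a u) (sb a' u)
  mv_kd : ∀ g₁ g₂ g₃ a a' i o, Tri g₁ g₂ g₃ → Mv g₁ g₂ g₃ a a' →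
    Mv g₁ g₂ g₃ (kd a i o) (kd a' i o)
  mv_inv : ∀ g₁ g₂ g₃ a a', Tri g₁ g₂ g₃ → Mv g₁ g₂ g₃ a a' → Mv g₁ g₃ g₂ a' a
  mv_rot : ∀ g₁ g₂ g₃ a a', Mv g₁ g₂ g₃ a a' → Mv g₂ g₃ g₁ a a'
  tricho : ∀ n (a z : Box), z.2.length = a.2.length → Deep n z.2 → dg a.2 < n →
    (∃ u : Shape, u.length = ar a.2 ∧ z = sb a u) ∨ Disj z a
  mv_ex : ∀ g₁ g₂ g₃, Tri g₁ g₂ g₃ → ∃ n, ∀ a : Box, a.2.length = 3 → Deep n a.2 →
    ∃ a', Mv g₁ g₂ g₃ a a'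
  mv_kid : ∀ g₁ g₂ g₃ i, Tri g₁ g₂ g₃ → i < ar g₁.2 → ∃ n, ∀ a a' : Box, a.2.length = 3 →
    Deep n a.2 → Mv g₁ g₂ g₃ a a' → ∃ a₁ a₂,
      Mv (kd g₁ i (some true)) (kd g₂ i (some true)) (kd g₃ i (some true)) a a₁ ∧
      Mv (kd g₁ i (some false)) (kd g₂ i (some false)) (kd g₃ i (some false)) a₁ a₂ ∧
      Mv (kd g₁ i none) (kd g₂ i none) (kd g₃ i none) a₂ a'
  pt_disj : ∀ z b : Box, z.2.length = b.2.length → ar z.2 = 0 → dg z.2 < dg b.2 → Disj z b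
  pts : ∀ a b : Box, a.2.length = b.2.length → ar a.2 = 0 → ar b.2 = 0 → a ≠ b → Disj a b
  flag1 : ∀ b z : Box, b.2.length = 3 → z.2.length = 3 → wt z.2 < wt b.2 → Disj b z →
    ∃ η j o, j < ar η.2 ∧ b = kd η j o ∧ Disj η z
  flag2 : ∀ b z : Box, b.2.length = 3 → z.2.length = 3 → wt z.2 = wt b.2 → 1 ≤ wt b.2 →
    Disj b z → (∃ η j o, j < ar η.2 ∧ b = kd η j o ∧ Disj η z) ∨
      ∃ η j o o', ar η.2 = 3 ∧ j < 3 ∧ o ≠ o' ∧ b = kd η j o ∧ z = kd η j o'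
  sib : ∀ l (i : Fin 40), 3 ≤ l → ∃ η : Box, η.1 = i ∧ η.2.length = 3 ∧ ar η.2 = 3 ∧
    dg η.2 = l ∧ ∀ j o o', j < 3 → o ≠ o' →
      ∃ θ k o'', k < ar θ.2 ∧ kd η j o = kd θ k o'' ∧ Disj θ (kd η j o')
  flags : ∀ η₁ η₂ : Box, ∀ j₁ j₂ o₁ o₂, j₁ < ar η₁.2 → j₂ < ar η₂.2 →
    kd η₁ j₁ o₁ = kd η₂ j₂ o₂ → (η₁ = η₂ ∧ j₁ = j₂ ∧ o₁ = o₂) ∨
      ∃ ζ i₁ i₂, i₁ < ar ζ.2 ∧ i₂ < ar ζ.2 ∧ i₁ ≠ i₂ ∧ η₁ = kd ζ i₂ o₂ ∧ η₂ = kd ζ i₁ o₁ ∧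
        j₁ = adj i₂ o₂ i₁ ∧ j₂ = adj i₁ o₁ i₂
  rb_root : ∀ i, RB (root i)
  rb_kd : ∀ ρ o, RB ρ → RB (kd ρ 0 o)
  pi_kd : ∀ ρ e, RB ρ → 0 < ar ρ.2 → Pi (dg ρ.2 + 1) (kd ρ 0 (some e))
  pi_rb : ∀ K P, Pi K P → RB P ∧ 1 ≤ ar P.2
  rb3 : ∀ ρ, RB ρ → ar ρ.2 = 3 → ∃ w, ρ.2 = [(w, false), ([], false), ([], false)]
  ref_tri : ∀ ρ ρ', RB ρ → RB ρ' → Ty ρ ρ' → ρ = ρ' ∨ Disj ρ ρ'
  pi_pd : ∀ K, PD {P | Pi K P}
  pi_cover : ∀ K (z : Box), 1 ≤ K → z.2.length = 3 → Deep K z.2 → K ≤ dg z.2 →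
    ∃ P, ∃ u : Shape, Pi K P ∧ u.length = ar P.2 ∧ z = sb P u

/-- charts and patterns -/
structure ShC : Prop where
  ap_len : ∀ χ t A, (ap χ t A).2.length = 3
  ap_wt : ∀ χ t A, wt (ap χ t A).2 = cd χ + (Finset.univ.filter fun a => A a = true).card
  ap_ty : ∀ χ χ' t A, cd χ = cd χ' → Ty (ap χ t A) (ap χ' t A)
  ap_congr : ∀ χ t t' A, (∀ a, A a = true → t a = t' a) → ap χ t A = ap χ t' A
  ap_kd : ∀ χ t A a, A a = false → idx t A a < ar (ap χ t A).2 ∧ ∀ o,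
    kd (ap χ t A) (idx t A a) o = ap χ (Function.update t a o) (Function.update A a true)
  ap_mo : ∀ χ χ' t A B, (∀ a, A a = true → B a = true) →
    Mo (ap χ t A) (ap χ' t A) (ap χ t B) (ap χ' t B)
  ap_in : ∀ χ t A B, (∀ a, A a = true → B a = true) →
    ∃ u : Shape, u.length = ar (ap χ t A).2 ∧ ap χ t B = sb (ap χ t A) u
  ap_disj : ∀ χ t t' A B a, A a = true → B a = true → t a ≠ t' a →
    Disj (ap χ t A) (ap χ t' B)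
  gd_disj : ∀ χ t z, Disj z (gd χ t) → ∃ a, ∀ A : Fin 3 → Bool, A a = true → Disj z (ap χ t A)
  ch_eq : ∀ χ t, ch χ = ap χ t fun _ => false
  ch_wt : ∀ χ, wt (ch χ).2 = cd χ ∧ ar (ch χ).2 = 3
  one_wt : ∀ χ t a, wt (ap χ t (one a)).2 = cd χ + 1
  fl_wt : ∀ χ t a, wt (fl χ t a).2 = cd χ + 2
  gd_wt : ∀ χ t, wt (gd χ t).2 = cd χ + 3 ∧ ar (gd χ t).2 = cnt t
  gd_kd : ∀ χ t a, dir t a < ar (fl χ t a).2 ∧ gd χ t = kd (fl χ t a) (dir t a) (t a) ∧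
    ∀ o, kd (fl χ t a) (dir t a) o = gd χ (Function.update t a o)
  chart_ex : ∀ l (i : Fin 40), 2 ≤ l → ∃ χ : Chart, χ.1 = i ∧ cd χ + 2 = l
  lab_ty : ∀ χ χ' t t' a a', cd χ = cd χ' → cnt t = cnt t' → t a = t' a' →
    Ty (fl χ t a) (fl χ' t' a')
  lab_ex : ∀ l (η : Box) j o, η.2.length = 3 → wt η.2 = l → j < ar η.2 →
    ∃ t a, dir t a = j ∧ t a = o ∧ cnt t = ar (kd η j o).2 ∧
      ∀ χ, cd χ + 2 = l → Ty (fl χ t a) η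
  joint_ex : ∀ l (ζ : Box) i₁ i₂ o₁ o₂, ζ.2.length = 3 → wt ζ.2 + 1 = l → i₁ < ar ζ.2 →
    i₂ < ar ζ.2 → i₁ ≠ i₂ → ∃ t a s₁ s₂, t s₁ = o₁ ∧ t s₂ = o₂ ∧ dir t s₁ = adj i₂ o₂ i₁ ∧
      dir t s₂ = adj i₁ o₁ i₂ ∧ cnt t = ar (kd (kd ζ i₂ o₂) (adj i₂ o₂ i₁) o₁).2 ∧
      ∀ χ, cd χ + 2 = l → Ty (ap χ t (one a)) ζ ∧ fl χ t s₁ = kd (ap χ t (one a)) i₂ o₂ ∧
        fl χ t s₂ = kd (ap χ t (one a)) i₁ o₁
  em_cnt : ∀ t a t' a', EM t a t' a' → cnt t = cnt t'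
  em_ty : ∀ χ χ' t a t' a', EM t a t' a' → cd χ = cd χ' →
    Ty (ap χ t (one a)) (ap χ' t' (one a'))
  em_mo : ∀ χ χ' t a t' a' (B B' : Fin 3 → Bool), EM t a t' a' → B a = true → B' a' = true →
    (∀ k : Fin 2, B (a.succAbove k) = B' (a'.succAbove k)) →
    Mo (ap χ t (one a)) (ap χ' t' (one a')) (ap χ t B) (ap χ' t' B')
  em_fl : ∀ t a t' a' (k : Fin 2), EM t a t' a' → ∃ i o, ∀ χ, i < ar (ap χ t (one a)).2 ∧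
    fl χ t (a.succAbove k) = kd (ap χ t (one a)) i o ∧
    fl χ t' (a'.succAbove k) = kd (ap χ t' (one a')) i o
  base_cnt : ∀ c, c ≤ 3 → cnt (base c) = c
  em_conn : ∀ c (P : Pat → Prop), P (base c) →
    (∀ t a t' a', EM t a t' a' → cnt t = c → P t → P t') → ∀ t, cnt t = c → P t
  reach : ∀ l c (S : Finset (Fin 40)) (Q : Box → Prop), 3 ≤ l → S.card ≤ 30 →
    (∀ χ : Chart, cd χ + 2 = l → χ.1 ∉ S → Q (gd χ (base c))) →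
    (∀ g₁ g₂ g₃ b b', Lw l g₁ g₂ g₃ → g₁.1 ∉ S → g₂.1 ∉ S → g₃.1 ∉ S → Mo g₁ g₂ b b' →
      HT l c b → HT l c b' → Q b → Q b') → ∀ b, HT l c b → b.1 ∉ S → Q b

/-- all facts on shapes -/
structure ShapeF : Prop extends ShA, ShB, ShC

/-- cells and boxes -/
structure SmA : Prop where
  ev_len : ∀ (σ : Shape) u, u.length = ar σ → (ev σ u).length = σ.length
  cell_sb : ∀ b (u : Shape) v, u.length = ar b.2 → v.length = ar u →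
    cell (sb b u) v = cell b (ev u v)
  lev_cell : ∀ (b : Box) u, u.length = ar b.2 →
    lev (cell b u) = dg b.2 + (u.map List.length).sum
  cell_inj : ∀ (b : Box) u v, u.length = ar b.2 → v.length = ar b.2 → cell b u = cell b v →
    u = v
  in_sb : ∀ b (u : Shape) x, u.length = ar b.2 → In (sb b u) x → In b x
  in_kd : ∀ b i o x, In (kd b i o) x → In b x
  in_kids : ∀ b i x, i < ar b.2 → In b x → ∃ o, In (kd b i o) x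
  in_lev : ∀ b x, In b x → dg b.2 ≤ lev x ∧ (ar b.2 = 0 → lev x = dg b.2)
  in_copy : ∀ b x, In b x → x.1 = b.1 ∧ x.2.length = b.2.length
  in_root : ∀ x : X, x.2.length = 3 → In (root x.1) x
  in_high : ∀ K (b : Box), 1 ≤ ar b.2 → ∃ x, In b x ∧ K < lev x
  in_deep : ∀ n (x : X), x.2.length = 3 → ∃ b : Box, b.2.length = 3 ∧ Deep n b.2 ∧ In b x
  in_pi : ∀ K (x : X), 1 ≤ K → x.2.length = 3 → K ≤ lev x → ∃ P, Pi K P ∧ In P x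
  disj_iff : ∀ a b : Box, a.2.length = b.2.length → (Disj a b ↔ ∀ x, In a x → ¬ In b x)
  car_one : ∀ K b, Car 1 b b ∧ CarK K 1 b b
  car_K : ∀ K g a b, Car g a b → CarK K g a b
  carK_car : ∀ K g a b, K < dg a.2 → CarK K g a b → Car g a b
  car_mul : ∀ g h a b c, Ty a b → Car g a b → Car h b c → Car (h * g) a c
  carK_mul : ∀ K g h a b c, Ty a b → CarK K g a b → CarK K h b c → CarK K (h * g) a c
  car_inv : ∀ g a b, Ty a b → Car g a b → Car g⁻¹ b a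
  carK_inv : ∀ K g a b, Ty a b → CarK K g a b → CarK K g⁻¹ b a
  car_sb : ∀ g a b (u : Shape), Ty a b → u.length = ar a.2 → Car g a b →
    Car g (sb a u) (sb b u)
  carK_sb : ∀ K g a b (u : Shape), Ty a b → u.length = ar a.2 → CarK K g a b →
    CarK K g (sb a u) (sb b u)
  car_kd : ∀ g a b i o, Ty a b → Car g a b → Car g (kd a i o) (kd b i o)
  carK_kd : ∀ K g a b i o, Ty a b → CarK K g a b → CarK K g (kd a i o) (kd b i o)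
  carK_kids : ∀ K g a b i, Ty a b → i < ar a.2 → (∀ o, CarK K g (kd a i o) (kd b i o)) →
    CarK K g a b
  car_uniq : ∀ g a b b', Ty a b → Ty a b' → Car g a b → Car g a b' → b = b'
  carK_uniq : ∀ K g a b b', Ty a b → Ty a b' → 1 ≤ ar a.2 → CarK K g a b → CarK K g a b' →
    b = b'
  car_in : ∀ g a b x, Ty a b → Car g a b → (In b (g x) ↔ In a x)
  car_disj : ∀ g a a' b b', Ty a a' → Ty b b' → Car g a a' → Car g b b' → Disj a b →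
    Disj a' b'
  car_mv : ∀ g g₁ g₂ g₃ h₁ h₂ h₃ a a' b b', Tri g₁ g₂ g₃ → Ty g₁ h₁ → Ty g₂ h₂ → Ty g₃ h₃ →
    Car g g₁ h₁ → Car g g₂ h₂ → Car g g₃ h₃ → Ty a b → Ty a' b' → Car g a b → Car g a' b' →
    Mv g₁ g₂ g₃ a a' → Mv h₁ h₂ h₃ b b'
  off_car : ∀ g b, Off g b ↔ Car g b b
  on_off : ∀ g (a b : Box), a.2.length = b.2.length → On g a → Disj a b → Off g b
  on_in : ∀ g a x, On g a → In a x → In a (g x)
  on_mul : ∀ g h a, On g a → On h a → On (g * h) a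
  on_inv : ∀ g a, On g a → On g⁻¹ a
  on_comm : ∀ g h a, On g a → Off h a → Commute g h

/-- cycles, baker maps and restrictions -/
structure SmB : Prop where
  cyc_spec : ∀ a b c, Tri a b c → IsCyc (cyc a b c) a b c
  cyc_ext : ∀ g h a b c, IsCyc g a b c → IsCyc h a b c → g = h
  cyc_mem : ∀ a b c, Tri a b c → cyc a b c ∈ Gam
  bak_spec : ∀ (ρ : Box) i, ρ.2.length = 3 → i < ar ρ.2 → IsBak (bak ρ i) ρ i
  bak_mem : ∀ (ρ : Box) i, ρ.2.length = 3 → i < ar ρ.2 → bak ρ i ∈ Gam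
  bak_zero : ∀ ρ : Box, 0 < ar ρ.2 → bak ρ 0 = 1
  mv_car : ∀ g₁ g₂ g₃ a a', Tri g₁ g₂ g₃ → a.2.length = 3 → Mv g₁ g₂ g₃ a a' →
    Car (cyc g₁ g₂ g₃) a a'
  cyc_nat : ∀ g a b c a' b' c', Tri a b c → Tri a' b' c' → Ty a a' → Car g a a' → Car g b b' →
    Car g c c' → g * cyc a b c * g⁻¹ = cyc a' b' c'
  cyc_sys : Sys Tri cyc
  gam_lev : ∀ g ∈ Gam, ∀ x, lev (g x) = lev x
  gam_junk : ∀ g ∈ Gam, ∀ x : X, x.2.length ≠ 3 → g x = x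
  gam_fine : ∀ g ∈ Gam, ∃ n, ∀ b : Box, b.2.length = 3 → Deep n b.2 →
    ∃ b', Ty b b' ∧ Car g b b'
  res_spec : ∀ K, ∀ g ∈ Gam, IsRes K g (res K g)
  res_mul : ∀ K, ∀ g ∈ Gam, ∀ h ∈ Gam, res K (g * h) = res K g * res K h
  res_one : ∀ K, res K 1 = 1
  res_inv : ∀ K, ∀ g ∈ Gam, res K g⁻¹ = (res K g)⁻¹
  res_carK : ∀ K, ∀ g ∈ Gam, ∀ a b, CarK K (res K g) a b ↔ CarK K g a b
  res_on : ∀ K, ∀ g ∈ Gam, ∀ a, On g a → On (res K g) a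

/-- baker maps above a level -/
structure SmC : Prop where
  bak_nat : ∀ K, ∀ g ∈ Gam, ∀ ρ ρ' i, Ty ρ ρ' → i < ar ρ.2 → CarK K (res K g) ρ ρ' →
    res K g * res K (bak ρ i) * (res K g)⁻¹ = res K (bak ρ' i)
  bak_sq : ∀ K, ∀ g ∈ Gam, ∀ (ρ : Box) i j, ρ.2.length = 3 → i < ar ρ.2 → j < ar ρ.2 → i ≠ j →
    IsSq K (res K g) ρ →
    res K (bak ρ i) * p3 (fun o => res K (bak (kd ρ 0 o) (adj i o j))) =
      res K (bak ρ j) * p3 (fun o => res K (bak (kd ρ 0 o) (adj j o i))) * res K g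
  sq_uniq : ∀ K, ∀ g ∈ Gam, ∀ h ∈ Gam, ∀ ρ : Box, 2 ≤ ar ρ.2 → IsSq K (res K g) ρ →
    IsSq K (res K h) ρ → res K g = res K h
  sq_inv : ∀ K g (ρ : Box), ρ.2.length = 3 → 2 ≤ ar ρ.2 → IsSq K g ρ → IsSq K g⁻¹ ρ
  sq_nat : ∀ K, ∀ g ∈ Gam, ∀ h ∈ Gam, ∀ ρ ρ', Ty ρ ρ' → 2 ≤ ar ρ.2 → CarK K (res K g) ρ ρ' →
    IsSq K (res K h) ρ → IsSq K (res K g * res K h * (res K g)⁻¹) ρ'
  on_nat : ∀ K, ∀ g ∈ Gam, ∀ h ∈ Gam, ∀ ρ ρ', Ty ρ ρ' → CarK K (res K g) ρ ρ' →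
    On (res K h) ρ → On (res K g * res K h * (res K g)⁻¹) ρ'
  carK_off : ∀ K, ∀ g ∈ Gam, ∀ ρ, CarK K (res K g) ρ ρ → Off (res K g) ρ

/-- all facts on cells -/
structure SemF : Prop extends SmA, SmB, SmC

/-- combinatorics of trees -/
structure TrF : Prop where
  ok_mono : ∀ M M' ρ T, M ≤ M' → Ok M ρ T → Ok M' ρ T
  ok_ty : ∀ M ρ ρ' T, Ty ρ ρ' → Ok M ρ T → Ok M ρ' T
  flip_ok : ∀ M ρ i j U, ρ.2.length = 3 → j < ar ρ.2 → i ≠ j → Ok M ρ (fT i j U) →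
    Ok M ρ (fT j i fun o' o => U o o')
  lv_par : ∀ M T ρ b r l, Ty ρ b → Ok M ρ T → Lv T ρ b r l → ∃ u v : Shape,
    u.length = ar ρ.2 ∧ v.length = ar ρ.2 ∧ ar u = ar v ∧ dg u = dg v ∧ r = sb ρ u ∧
    l = sb b v ∧ ∀ ρ' b', Ty ρ ρ' → Ty ρ b' → Lv T ρ' b' (sb ρ' u) (sb b' v)
  lv_ty : ∀ M T ρ b r l, Ty ρ b → Ok M ρ T → Lv T ρ b r l → Ty r l
  lv_rb : ∀ T ρ b r l, RB ρ → Lv T ρ b r l → RB r
  lv_dg : ∀ M T ρ b r l, dg ρ.2 ≤ M + 1 → Ok M ρ T → Lv T ρ b r l → dg r.2 ≤ M + 1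
  lv_disj : ∀ M T ρ b r l r' l', Ty ρ b → Ok M ρ T → Lv T ρ b r l → Lv T ρ b r' l' →
    (r = r' ∧ l = l') ∨ (Disj r r' ∧ Disj l l')
  lv_fin : ∀ T ρ b, {l | ∃ r, Lv T ρ b r l}.Finite
  lv_gr : ∀ T ρ b f r l, Lv (gr T b f) ρ b r l ↔ ∃ r₀ l₀, Lv T ρ b r₀ l₀ ∧ Lv (f l₀) r₀ l₀ r l
  gr_leaf : ∀ T b, gr T b (fun _ => Tr.leaf) = T
  gr_congr : ∀ T ρ b f f', (∀ r l, Lv T ρ b r l → f l = f' l) → gr T b f = gr T b f'
  gr_ok : ∀ M T ρ b f, Ok M ρ (gr T b f) ↔ Ok M ρ T ∧ ∀ r l, Lv T ρ b r l → Ok M r (f l)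
  leaf_ex : ∀ b : Box, b.2.length = 3 →
    ∃ T r, Ok (dg b.2) (root b.1) T ∧ Lv T (root b.1) (root b.1) r b
  grid_ex : ∀ n b, ∃ T, Grid n b T
  grid_ok : ∀ n M ρ b T, Ty ρ b → Le n b.2 → 3 * n ≤ M → Grid n b T → Ok M ρ T
  gr_grid : ∀ n M T ρ b f, Ty ρ b → Ok M ρ T → M < n → (∀ l, Grid n l (f l)) →
    Grid n b (gr T b f)
  grid_lv : ∀ n T T' ρ b r l, Grid n b T → Grid n b T' → Lv T ρ b r l → ∃ r', Lv T' ρ b r' l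

/-- Row SHA. -/
def SpShA : Prop := ShA

/-- Row SHB. -/
def SpShB : Prop := ShA → ShB

/-- Row SHC. -/
def SpShC : Prop := ShA → ShB → ShC

/-- Row SMA. -/
def SpSmA : Prop := ShapeF → SmA

/-- Row SMB. -/
def SpSmB : Prop := ShapeF → SmA → SmB

/-- Row SMC. -/
def SpSmC : Prop := ShapeF → SmA → SmB → SmC

/-- Row TRC. -/
def SpTrc : Prop := ShapeF → TrF

end Pool.Agent.MP_89edc2_al.R3
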