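import Pool.Agent.MP_89edc2_al.R3.Spec

/-!
# Statements of the steps, second part: groups
-/

namespace Pool.Agent.MP_89edc2_al.R3

open scoped commutatorElement

/-- systems of elements indexed by triples of boxes -/
abbrev D3G (G : Type) : Type := Box → Box → Box → G

/-- first consequences of the relations -/
structure BasF : Prop where
  inv' : ∀ (G : Type) [Group G] A (d : D3G G), Sys A d → ∀ a b c, A a b c →
    d a c b = (d a b c)⁻¹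
  third : ∀ (G : Type) [Group G] A (d : D3G G), Sys A d → Sy A → ∀ a b f f', A a b f →
    A a b f' → A f' f b → d a b f' = d a b f * d f' f b
  two : ∀ (G : Type) [Group G] A (d : D3G G), Sys A d → Sy A → ∀ a f e g, A a f e →
    A e a g → A a f g → d a f e = d e a g * d a f g
  carm : ∀ (G : Type) [Group G] A (d : D3G G), Sys A d → Sy A → ∀ a b e f f', A a b e →
    A b e f → A a e f → A a f f' → A b f f' → A e f f' →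
    d a b e = d e f f' * d b f' f * d a f f' * d e f' f
  comm : ∀ (G : Type) [Group G] A (d : D3G G), Sys A d → ∀ g₁ g₂ g₃ a b c, A g₁ g₂ g₃ →
    A a b c → D3 a g₁ g₂ g₃ → D3 b g₁ g₂ g₃ → D3 c g₁ g₂ g₃ → Commute (d g₁ g₂ g₃) (d a b c)
  split' : ∀ (G : Type) [Group G] A (d : D3G G), Sys A d → ∀ a b c i, A a b c → Tri a b c →
    i < ar a.2 → (∀ o, A (kd a i o) (kd b i o) (kd c i o)) → ∀ o, ∃ r : G,
      d a b c = d (kd a i o) (kd b i o) (kd c i o) * r ∧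
      Commute (d (kd a i o) (kd b i o) (kd c i o)) r ∧
      ∀ y, (∀ o', o' ≠ o → Commute (d (kd a i o') (kd b i o') (kd c i o')) y) → Commute r y
  carmL : ∀ (G : Type) [Group G] l (d : D3G G), Sys (Lw l) d → ∀ a b e, Lw l a b e →
    ∀ S : List (Fin 40), S.length ≤ 30 → ∀ L : Subgroup G,
    (∀ z f f', z = a ∨ z = b ∨ z = e → Lw l z f f' → f.1 ∉ S → f'.1 ∉ S → d z f f' ∈ L) →
    d a b e ∈ L
  carmT : ∀ (G : Type) [Group G] (d : D3G G), Sys Tri d → ∀ a b e, Tri a b e →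
    ∀ S : List (Fin 40), S.length ≤ 30 → ∀ L : Subgroup G,
    (∀ z f f', z = a ∨ z = b ∨ z = e → Dc z f f' → f.1 ∉ S → f'.1 ∉ S → d z f f' ∈ L) →
    d a b e ∈ L
  six : ∀ (G : Type) [Group G] (d : D3G G), Sys Tri d → ∀ a b c, Tri a b c → d a b c ^ 6 = 1
  cube : ∀ (G : Type) [Group G] (d : D3G G), Sys Tri d → ∀ a b c a' b' c', Tri a b c →
    Tri a' b' c' → Ty a a' → d a b c ^ 3 = d a' b' c' ^ 3
  zkid : ∀ (G : Type) [Group G] (d : D3G G), Sys Tri d → ∀ a b c, Tri a b c → 0 < ar a.2 →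
    d a b c ^ 3 = d (kd a 0 none) (kd b 0 none) (kd c 0 none) ^ 3

/-- Row BAS. -/
def SpBas : Prop := ShapeF → BasF

/-- groups generated by cycles on disjoint boxes -/
structure AltF : Prop where
  rem : ∀ (G : Type) [Group G] (d : D3G G), Sys Tri d → ∀ J y, PD J → ∀ g ∈ HJ d J,
    ∃ g' ∈ HJ d (J \ {y}), g = g' ∨ ∃ k ∈ J, ∃ k' ∈ J, ∃ j, j < 6 ∧ y ∈ J ∧ Tri y k k' ∧
      g = g' * d y k k' ^ j
  fin : ∀ (G : Type) [Group G] (d : D3G G), Sys Tri d → ∀ J, PD J → J.Finite →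
    (HJ d J : Set G).Finite
  stab : ∀ (G : Type) [Group G] (d : D3G G) K (p : G →* Equiv.Perm X), Sys Tri d →
    (∀ a b c, Tri a b c → p (d a b c) = res K (cyc a b c)) → ∀ J, PD J → J.Finite →
    (∀ a ∈ J, 1 ≤ ar a.2) → (∀ a ∈ J, ∀ b ∈ J, ∀ c ∈ J, Tri a b c → d a b c ^ 3 = 1) →
    ∀ g ∈ HJ d J, g ∈ HJ d {a | a ∈ J ∧ ¬ Off (p g) a}
  dbl : ∀ (G : Type) [Group G] (d : D3G G) (π : G →* Equiv.Perm X),
    (∀ a b c, Tri a b c → π (d a b c) = cyc a b c) → ∀ J (σ τ : Box → Box), PD J → J.Finite →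
    (∀ a ∈ J, σ a ∈ J ∧ τ a ∈ J ∧ Ty a (σ a) ∧ Ty a (τ a) ∧ σ (σ a) = a ∧ τ (τ a) = a ∧
      σ (τ a) = τ (σ a) ∧ τ a ≠ a ∧ τ a ≠ σ a) →
    ∃ b ∈ HJ d J, ∀ a ∈ J, Car (π b) a (σ a)

/-- Row ALT. -/
def SpAlt : Prop := ShapeF → SemF → BasF → AltF

/-! ## Finite presentation -/

section
variable {G : Type} [Group G]

/-- the commutator formula for `D` -/
def CF (l : ℕ) (d : D3G G) (D : Pat → Chart → Chart → Chart → G) : Prop :=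
  ∀ t χ₁ χ₂ χ₃ (A B : Fin 3 → Bool) (P Q : Box), V3 l χ₁ χ₂ χ₃ → (∀ a, A a = true ∨ B a = true) →
    Lw l (ap χ₁ t A) (ap χ₂ t A) P → Lw l (ap χ₁ t B) (ap χ₃ t B) Q → P.1 ≠ χ₃.1 → P.1 ≠ Q.1 →
    Q.1 ≠ χ₂.1 → D t χ₁ χ₂ χ₃ = ⁅d (ap χ₁ t A) (ap χ₂ t A) P, d (ap χ₁ t B) (ap χ₃ t B) Q⁆

/-- the elements attached to three charts -/
structure Dsys (l : ℕ) (d : D3G G) (D : Pat → Chart → Chart → Chart → G) : Prop where
  df : CF l d D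
  cm : ∀ t χ₁ χ₂ χ₃ g₁ g₂ g₃, V3 l χ₁ χ₂ χ₃ → Lw l g₁ g₂ g₃ →
    D3 g₁ (gd χ₁ t) (gd χ₂ t) (gd χ₃ t) → D3 g₂ (gd χ₁ t) (gd χ₂ t) (gd χ₃ t) →
    D3 g₃ (gd χ₁ t) (gd χ₂ t) (gd χ₃ t) → Commute (d g₁ g₂ g₃) (D t χ₁ χ₂ χ₃)
  mv : ∀ t χ₁ χ₂ χ₃ χ₁' χ₂' χ₃' g₁ g₂ g₃, V3 l χ₁ χ₂ χ₃ → V3 l χ₁' χ₂' χ₃' → Lw l g₁ g₂ g₃ →
    Mv3 g₁ g₂ g₃ (ch χ₁) (ch χ₂) (ch χ₃) (ch χ₁') (ch χ₂') (ch χ₃') →
    d g₁ g₂ g₃ * D t χ₁ χ₂ χ₃ = D t χ₁' χ₂' χ₃' * d g₁ g₂ g₃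

/-- a family on charts for one slot; `S` are the forbidden copies -/
structure Fam (l : ℕ) (d : D3G G) (S : Finset (Fin 40)) (O : Box → Prop) (t : Pat)
    (y : Chart → G) : Prop where
  cm : ∀ χ g₁ g₂ g₃, cd χ + 2 = l → χ.1 ∉ S → Lw l g₁ g₂ g₃ → D3 (gd χ t) g₁ g₂ g₃ →
    O g₁ → O g₂ → O g₃ → Commute (d g₁ g₂ g₃) (y χ)
  mv : ∀ χ χ' z, cd χ + 2 = l → cd χ' + 2 = l → Lw l (ch χ) (ch χ') z → χ.1 ∉ S → χ'.1 ∉ S →
    z.1 ∉ S → d (ch χ) (ch χ') z * y χ = y χ' * d (ch χ) (ch χ') z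

/-- two families correspond under the moves of flags -/
def Cv (l : ℕ) (d : D3G G) (S : Finset (Fin 40)) (t : Pat) (a : Fin 3) (y : Chart → G)
    (t' : Pat) (a' : Fin 3) (y' : Chart → G) : Prop :=
  ∀ χ χ' z, cd χ + 2 = l → cd χ' + 2 = l → Lw l (fl χ t a) (fl χ' t' a') z → χ.1 ∉ S →
    χ'.1 ∉ S → z.1 ∉ S → d (fl χ t a) (fl χ' t' a') z * y χ = y' χ' * d (fl χ t a) (fl χ' t' a') z

/-- the extension to all boxes in one slot -/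
structure X1 (l : ℕ) (d : D3G G) (S : Finset (Fin 40)) (O : Box → Prop) (c : ℕ)
    (x : Box → G) : Prop where
  cm : ∀ b g₁ g₂ g₃, HT l c b → b.1 ∉ S → Lw l g₁ g₂ g₃ → D3 b g₁ g₂ g₃ →
    O g₁ → O g₂ → O g₃ → Commute (d g₁ g₂ g₃) (x b)
  mv : ∀ b b' g₁ g₂ g₃, HT l c b → Lw l g₁ g₂ g₃ → g₁.1 ∉ S → g₂.1 ∉ S → g₃.1 ∉ S →
    Mo g₁ g₂ b b' → d g₁ g₂ g₃ * x b = x b' * d g₁ g₂ g₃

/-- the extension to all triples of weight `l + 1`, moves of one slot -/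
structure HX (l : ℕ) (d : D3G G) (D : Pat → Chart → Chart → Chart → G) (x : D3G G) : Prop where
  cm : ∀ a b c g₁ g₂ g₃, Hi l a b c → Lw l g₁ g₂ g₃ → D3 a g₁ g₂ g₃ → D3 b g₁ g₂ g₃ →
    D3 c g₁ g₂ g₃ → Commute (d g₁ g₂ g₃) (x a b c)
  m1 : ∀ a a' b c g₁ g₂ g₃, Hi l a b c → Lw l g₁ g₂ g₃ → Mo g₁ g₂ a a' →
    b.1 ∉ [g₁.1, g₂.1, g₃.1] → c.1 ∉ [g₁.1, g₂.1, g₃.1] →
    d g₁ g₂ g₃ * x a b c = x a' b c * d g₁ g₂ g₃
  m2 : ∀ a b b' c g₁ g₂ g₃, Hi l a b c → Lw l g₁ g₂ g₃ → Mo g₁ g₂ b b' →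
    a.1 ∉ [g₁.1, g₂.1, g₃.1] → c.1 ∉ [g₁.1, g₂.1, g₃.1] →
    d g₁ g₂ g₃ * x a b c = x a b' c * d g₁ g₂ g₃
  m3 : ∀ a b c c' g₁ g₂ g₃, Hi l a b c → Lw l g₁ g₂ g₃ → Mo g₁ g₂ c c' →
    a.1 ∉ [g₁.1, g₂.1, g₃.1] → b.1 ∉ [g₁.1, g₂.1, g₃.1] →
    d g₁ g₂ g₃ * x a b c = x a b c' * d g₁ g₂ g₃
  bs : ∀ c χ₁ χ₂ χ₃, c ≤ 3 → V3 l χ₁ χ₂ χ₃ →
    x (gd χ₁ (base c)) (gd χ₂ (base c)) (gd χ₃ (base c)) = D (base c) χ₁ χ₂ χ₃

/-- low cycles act on the new elements -/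
def M3 (l : ℕ) (d x : D3G G) : Prop :=
  ∀ g₁ g₂ g₃ a b c a' b' c', Lw l g₁ g₂ g₃ → Hi l a b c → Hi l a' b' c' →
    Mv3 g₁ g₂ g₃ a b c a' b' c' → d g₁ g₂ g₃ * x a b c = x a' b' c' * d g₁ g₂ g₃

/-- all low moves, and the commutator formula -/
structure HM (l : ℕ) (d x : D3G G) : Prop where
  m3 : M3 l d x
  xd : CF l d fun t χ₁ χ₂ χ₃ => x (gd χ₁ t) (gd χ₂ t) (gd χ₃ t)

/-- the new elements act on each other -/
def Hh (l : ℕ) (x : D3G G) : Prop :=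
  ∀ g₁ g₂ g₃ a b c a' b' c', Hi l g₁ g₂ g₃ → Hi l a b c → Hi l a' b' c' →
    Mv3 g₁ g₂ g₃ a b c a' b' c' → x g₁ g₂ g₃ * x a b c = x a' b' c' * x g₁ g₂ g₃

end

/-- the hypotheses of the nerve argument -/
structure Nv {Y : Type} (F : Pat → Y → Prop)
    (C : Pat → Fin 3 → Y → Pat → Fin 3 → Y → Prop) : Prop where
  refl : ∀ t a y, F t y → C t a y t a y
  symm : ∀ t a y t' a' y', C t a y t' a' y' → C t' a' y' t a y
  trans : ∀ t a y t' a' y' t'' a'' y'', cnt t = cnt t' → t a = t' a' → C t a y t' a' y' →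
    C t' a' y' t'' a'' y'' → C t a y t'' a'' y''
  e2 : ∀ t a y t' a' y', F t y → F t' y' → EM t a t' a' →
    (C t (a.succAbove 0) y t' (a'.succAbove 0) y' ↔ C t (a.succAbove 1) y t' (a'.succAbove 1) y')
  exe : ∀ t a y t' a', F t y → EM t a t' a' →
    ∃ y', F t' y' ∧ C t (a.succAbove 0) y t' (a'.succAbove 0) y'

/-- the conclusion of the nerve argument -/
def NvOut {Y : Type} (F : Pat → Y → Prop) (C : Pat → Fin 3 → Y → Pat → Fin 3 → Y → Prop)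
    (c : ℕ) (Yf : Pat → Y) : Prop :=
  (∀ t, cnt t = c → F t (Yf t)) ∧ ∀ t a t' a', cnt t = c → cnt t' = c → dir t a = dir t' a' →
    t a = t' a' → C t a (Yf t) t' a' (Yf t')

/-- Row FPB. -/
def SpFpb : Prop := ShapeF → BasF → ∀ (G : Type) [Group G] (l : ℕ) (d : D3G G), 3 ≤ l →
  Sys (Lw l) d → ∃ D, Dsys l d D

/-- Row NERVE. -/
def SpNerve : Prop := ∀ (Y : Type) (F : Pat → Y → Prop)
  (C : Pat → Fin 3 → Y → Pat → Fin 3 → Y → Prop), Nv F C → ∀ c, c ≤ 3 → ∀ y₀, F (base c) y₀ →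
  ∃ Yf : Pat → Y, Yf (base c) = y₀ ∧ NvOut F C c Yf

/-- Row CV. -/
def SpCv : Prop := ShapeF → BasF → ∀ (G : Type) [Group G] (l : ℕ) (d : D3G G)
  (S : Finset (Fin 40)) (O : Box → Prop), 3 ≤ l → Sys (Lw l) d → S.card ≤ 2 →
  (∀ z : Box, z.1 ∉ S → O z) → Nv (Fam l d S O) (Cv l d S)

/-- Row FPX. -/
def SpFpx : Prop := ShapeF → BasF → ∀ (G : Type) [Group G] (l : ℕ) (d : D3G G)
  (S : Finset (Fin 40)) (O : Box → Prop) (c : ℕ) (Yf : Pat → Chart → G), 3 ≤ l → Sys (Lw l) d →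
  S.card ≤ 2 → (∀ z : Box, z.1 ∉ S → O z) → NvOut (Fam l d S O) (Cv l d S) c Yf →
  ∃ x, X1 l d S O c x ∧ ∀ t χ, cnt t = c → cd χ + 2 = l → χ.1 ∉ S → x (gd χ t) = Yf t χ

/-- the extension in one slot -/
def OneSlot : Prop := ∀ (G : Type) [Group G] (l : ℕ) (d : D3G G) (S : Finset (Fin 40))
  (O : Box → Prop) (c : ℕ) (y : Chart → G), 3 ≤ l → Sys (Lw l) d → S.card ≤ 2 →
  (∀ z : Box, z.1 ∉ S → O z) → c ≤ 3 → Fam l d S O (base c) y →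
  ∃ x, X1 l d S O c x ∧ ∀ χ, cd χ + 2 = l → χ.1 ∉ S → x (gd χ (base c)) = y χ

/-- Row RND. -/
def SpRnd : Prop := ShapeF → BasF → OneSlot → ∀ (G : Type) [Group G] (l : ℕ) (d : D3G G) D,
  3 ≤ l → Sys (Lw l) d → Dsys l d D → ∃ x, HX l d D x

/-- Row M3. -/
def SpM3 : Prop := ShapeF → BasF → ∀ (G : Type) [Group G] (l : ℕ) (d : D3G G) D x,
  3 ≤ l → Sys (Lw l) d → HX l d D x → M3 l d x

/-- Row XD. -/
def SpXd : Prop := ShapeF → BasF → ∀ (G : Type) [Group G] (l : ℕ) (d : D3G G) D x,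
  3 ≤ l → Sys (Lw l) d → Dsys l d D → HX l d D x →
  CF l d fun t χ₁ χ₂ χ₃ => x (gd χ₁ t) (gd χ₂ t) (gd χ₃ t)

/-- Row HH. -/
def SpHh : Prop := ShapeF → BasF → ∀ (G : Type) [Group G] (l : ℕ) (d x : D3G G),
  3 ≤ l → Sys (Lw l) d → HM l d x → Hh l x

/-- Row R0: the relations among the new elements. -/
def SpR0 : Prop := ShapeF → BasF → ∀ (G : Type) [Group G] (l : ℕ) (d x : D3G G),
  3 ≤ l → Sys (Lw l) d → HM l d x → Hh l x → Sys (Hi l) x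

/-- Row STEP. -/
def SpStep : Prop := ShapeF → BasF → ∀ (G : Type) [Group G] (l : ℕ) (d x : D3G G),
  3 ≤ l → Sys (Lw l) d → HM l d x → Sys (Hi l) x →
  Sys (Lw (l + 1)) fun a b c => if wt a.2 ≤ l then d a b c else x a b c

/-- one more weight -/
def Up : Prop := ∀ (G : Type) [Group G] (l : ℕ) (d : D3G G), 3 ≤ l → Sys (Lw l) d →
  ∃ d', Sys (Lw (l + 1)) d' ∧ ∀ a b c, Lw l a b c → d' a b c = d a b c

/-- from different copies to disjoint boxes -/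
def Dbl : Prop := ∀ (G : Type) [Group G] (d : D3G G), Sys Dc d →
  ∃ d', Sys Tri d' ∧ ∀ a b c, Dc a b c → d' a b c = d a b c

/-- generation by weight three -/
def Gen : Prop := ∀ (G : Type) [Group G] (d : D3G G) (L : Subgroup G), Sys Tri d →
  (∀ a b c, Lw 3 a b c → d a b c ∈ L) → ∀ a b c, Tri a b c → d a b c ∈ L

/-- Row DBL. -/
def SpDbl : Prop := ShapeF → BasF → Dbl

/-- Row GEN. -/
def SpGen : Prop := ShapeF → BasF → Gen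

/-- Row PRES. -/
def SpPres : Prop := ShapeF → Up → Dbl → Gen →
  ∃ (G : Type) (_ : Group G) (d : D3G G), Group.IsFinitelyPresented G ∧ Univ d

/-! ## The normal form -/

/-- extension of a system from deep boxes -/
def Ext : Prop := ∀ (G : Type) [Group G] (f : D3G G) (D : Box → Prop),
  (∃ n, ∀ b : Box, b.2.length = 3 → Deep n b.2 → D b) →
  (∀ b (u : Shape), D b → u.length = ar b.2 → D (sb b u)) →
  Sys (fun a b c => Tri a b c ∧ D a ∧ D b ∧ D c) f →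
  ∃ f', Sys Tri f' ∧ ∀ a b c, Tri a b c → D a → D b → D c → f' a b c = f a b c

/-- Row EXT. -/
def SpExt : Prop := ShapeF → BasF → Ext

section
variable {G H : Type} [Group G] [Group H]

/-- the action of `Gam` on the universal group -/
structure Aut1 (d : D3G G) (π : G →* Equiv.Perm X) (α : Gam →* MulAut G) : Prop where
  act : Act d π
  inn : ∀ w (h : π w ∈ Gam) x, α ⟨π w, h⟩ x = w * x * w⁻¹
  nat : ∀ (g : Gam) w, π (α g w) = g * π w * (g : Equiv.Perm X)⁻¹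
  crk : ∀ K (g : Gam) a b c a' b' c', Tri a b c → Tri a' b' c' → Ty a a' → CarK K g a a' →
    CarK K g b b' → CarK K g c c' → (d a' b' c')⁻¹ * α g (d a b c) ∈ FK d K
  fk : ∀ K (g : Gam), ∀ w ∈ FK d K, α g w ∈ FK d K

/-- the group in which the normal form is computed -/
structure NF (K : ℕ) (p : H →* Equiv.Perm X) (e : D3G H) (s : Gam →* H) (pr : H →* Gam) :
    Prop where
  full : Sys Tri e
  pd : ∀ a b c, Tri a b c → p (e a b c) = res K (cyc a b c)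
  kill : ∀ a b c, Tri a b c → ar a.2 = 0 → dg a.2 ≤ K → e a b c = 1
  cr : ∀ u a b c a' b' c', Tri a b c → Tri a' b' c' → Ty a a' → CarK K (p u) a a' →
    CarK K (p u) b b' → CarK K (p u) c c' → u * e a b c * u⁻¹ = e a' b' c'
  ps : ∀ g, p (s g) = res K g
  prs : ∀ g, pr (s g) = g
  pre : ∀ a b c, Tri a b c → pr (e a b c) = 1
  cw : ∀ u u' w, p u = p u' → pr w = 1 → u * w * u⁻¹ = u' * w * u'⁻¹
  low : ∀ u, ∃ g ∈ Gam, p u = res K g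

/-- the finite group of the reference partition -/
structure Lam (K : ℕ) (p : H →* Equiv.Perm X) (e : D3G H) (pr : H →* Gam) (Λ : Subgroup H) :
    Prop where
  inj : ∀ a ∈ Λ, p a = 1 → a = 1
  ker : ∀ a ∈ Λ, pr a = 1
  mem : ∀ a b c, Tri a b c → RB a → RB b → RB c → dg a.2 < K → e a b c ∈ Λ
  tr : ∀ ρ ρ', RB ρ → RB ρ' → Ty ρ ρ' → Disj ρ ρ' → dg ρ.2 < K → ∃ a ∈ Λ, IsTr K (p a) ρ ρ'
  e0 : ∀ a ∈ Λ, ∀ x, (∀ y, p a y = y ∨ p x y = y) → Commute a x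
  sq : ∀ ρ, RB ρ → 2 ≤ ar ρ.2 → dg ρ.2 + 2 < K → ∃ a ∈ Λ, IsSq K (p a) ρ

/-- lifts of the baker maps in the top degree -/
structure T1 (K m : ℕ) (p : H →* Equiv.Perm X) (pr : H →* Gam) (Λ : Subgroup H)
    (t : Box → ℕ → H) (E : Box → Subgroup H) : Prop where
  pt : ∀ ρ i, RT m ρ → i = 1 ∨ i = 2 → p (t ρ i) = res K (bak ρ i)
  eqv : ∀ ρ ρ' i, ∀ a ∈ Λ, RT m ρ → RT m ρ' → i = 1 ∨ i = 2 → CarK K (p a) ρ ρ' →
    a * t ρ i * a⁻¹ = t ρ' i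
  prc : ∀ ρ ρ' i j, RT m ρ → RT m ρ' → i = 1 ∨ i = 2 → j = 1 ∨ j = 2 →
    Commute (pr (t ρ i)) (pr (t ρ' j))
  mono : ∀ b b', (∀ x, In b x → In b' x) → E b ≤ E b'
  comm : ∀ b b' : Box, b.2.length = 3 → b'.2.length = 3 → Disj b b' → ∀ x ∈ E b, ∀ y ∈ E b',
    Commute x y
  pair : ∀ b ρ ρ' i, RT m ρ → RT m ρ' → i = 1 ∨ i = 2 → (∀ x, In ρ x → In b x) →
    (∀ x, In ρ' x → In b x) → t ρ i * t ρ' i ∈ E b
  cj : ∀ b, ∀ a ∈ Λ, ∀ x, On (p a) b → On (p x) b → x * a * x⁻¹ ∈ E b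

/-- the product over the two children with a letter -/
def C2 (B : Box → ℕ → H) (ρ : Box) (i : ℕ) : H :=
  B (kd ρ 0 (some false)) i * B (kd ρ 0 (some true)) i

/-- lifts of the baker maps of arity three -/
structure T2 (K M : ℕ) (p : H →* Equiv.Perm X) (s : Gam →* H) (pr : H →* Gam) (Λ : Subgroup H)
    (E : Box → Subgroup H) (B : Box → ℕ → H) (q : Box → H) : Prop where
  qm : ∀ ρ, RM M ρ → ar ρ.2 = 3 → q ρ ∈ Λ ∧ IsSq K (p (q ρ)) ρ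
  qe : ∀ ρ ρ', ∀ a ∈ Λ, RM M ρ → ar ρ.2 = 3 → RB ρ' → Ty ρ ρ' → CarK K (p a) ρ ρ' →
    a * q ρ * a⁻¹ = q ρ'
  pB : ∀ ρ i, RM (M + 1) ρ → ar ρ.2 = 3 → i = 1 ∨ i = 2 → p (B ρ i) = res K (bak ρ i)
  eqv : ∀ ρ ρ' i, ∀ a ∈ Λ, RM (M + 1) ρ → ar ρ.2 = 3 → RB ρ' → Ty ρ ρ' → i = 1 ∨ i = 2 →
    CarK K (p a) ρ ρ' → a * B ρ i * a⁻¹ = B ρ' i
  memB : ∀ ρ i, RM M ρ → ar ρ.2 = 3 → i = 1 ∨ i = 2 → B ρ i ∈ E ρ
  memC : ∀ ρ i, RM M ρ → ar ρ.2 = 3 → i = 1 ∨ i = 2 → C2 B ρ i ∈ E ρ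
  prB : ∀ ρ, RM M ρ → ar ρ.2 = 3 → pr (B ρ 2) = pr (C2 B ρ 2)
  b1 : ∀ ρ, RM M ρ → ar ρ.2 = 3 → B ρ 1 = C2 B ρ 1 * q ρ
  b2 : ∀ ρ (h : bak (kd ρ 0 none) 1 ∈ Gam), RM M ρ → ar ρ.2 = 3 →
    B ρ 2 = B ρ 1 * C2 B ρ 2 * (s ⟨_, h⟩ * q ρ * (s ⟨_, h⟩)⁻¹) * (C2 B ρ 1)⁻¹

/-- lifts of the baker maps -/
structure BH (K M : ℕ) (p : H →* Equiv.Perm X) (Λ : Subgroup H) (B : Box → ℕ → H) : Prop where
  zero : ∀ ρ, B ρ 0 = 1
  pB : ∀ ρ i, RM M ρ → i < ar ρ.2 → p (B ρ i) = res K (bak ρ i)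
  eqv : ∀ ρ ρ' i, ∀ a ∈ Λ, RM M ρ → RB ρ' → Ty ρ ρ' → i < ar ρ.2 → CarK K (p a) ρ ρ' →
    a * B ρ i * a⁻¹ = B ρ' i
  comm : ∀ ρ ρ' i j, RM M ρ → RM M ρ' → i < ar ρ.2 → j < ar ρ'.2 → Disj ρ ρ' →
    Commute (B ρ i) (B ρ' j)

/-- the square relation with holonomy `ε` -/
def Sq (K : ℕ) (p : H →* Equiv.Perm X) (Λ : Subgroup H) (B : Box → ℕ → H) (ρ : Box) (i j : ℕ)
    (ε : H) : Prop :=
  ∃ a ∈ Λ, IsSq K (p a) ρ ∧ B ρ i * p3 (fun o => B (kd ρ 0 o) (adj i o j)) =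
    B ρ j * p3 (fun o => B (kd ρ 0 o) (adj j o i)) * a * ε

/-- squares of arity three -/
def Sq3 (K M : ℕ) (p : H →* Equiv.Perm X) (Λ : Subgroup H) (B : Box → ℕ → H) : Prop :=
  ∀ ρ i j, RB ρ → ar ρ.2 = 3 → dg ρ.2 < M → i < 3 → j < 3 → i ≠ j → Sq K p Λ B ρ i j 1

/-- all squares -/
def Sqs (K M : ℕ) (p : H →* Equiv.Perm X) (Λ : Subgroup H) (B : Box → ℕ → H) : Prop :=
  ∀ ρ i j, RB ρ → dg ρ.2 + 2 ≤ M → i < ar ρ.2 → j < ar ρ.2 → i ≠ j → Sq K p Λ B ρ i j 1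

/-- central elements -/
def Cen (M : ℕ) (Λ : Subgroup H) (B : Box → ℕ → H) (ε : H) : Prop :=
  (∀ a ∈ Λ, Commute ε a) ∧ ∀ ρ i, RM M ρ → i < ar ρ.2 → Commute ε (B ρ i)

/-- the elements of trees -/
structure TreeF (K M : ℕ) (p : H →* Equiv.Perm X) (Λ : Subgroup H) (B : Box → ℕ → H) :
    Prop where
  on : ∀ ρ T, RB ρ → Ok M ρ T → On (p (bh B ρ T)) ρ
  carry : ∀ ρ T r l, RB ρ → Ok M ρ T → Lv T ρ ρ r l → CarK K (p (bh B ρ T)) r l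
  transp : ∀ ρ ρ' T, ∀ a ∈ Λ, RB ρ → RB ρ' → Ty ρ ρ' → Ok M ρ T → CarK K (p a) ρ ρ' →
    a * bh B ρ T * a⁻¹ = bh B ρ' T
  comm : ∀ ρ ρ' T T', RB ρ → RB ρ' → Ok M ρ T → Ok M ρ' T' → Disj ρ ρ' →
    Commute (bh B ρ T) (bh B ρ' T')
  flip : ∀ ρ i j U ε, RB ρ → j < ar ρ.2 → i ≠ j → Sq K p Λ B ρ i j ε → Cen M Λ B ε →
    Ok M ρ (fT i j U) →
    ∃ a ∈ Λ, bh B ρ (fT i j U) = bh B ρ (fT j i fun o' o => U o o') * a * ε
  congr : ∀ ρ i T T' (ε : Option Bool → H), RB ρ → Ok M ρ (.node i T) → Ok M ρ (.node i T') →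
    (∀ o, ∀ a ∈ Λ, Commute (ε o) a) →
    (∀ o, ∃ a ∈ Λ, bh B (kd ρ 0 o) (T o) = bh B (kd ρ 0 o) (T' o) * a * ε o) →
    ∃ a ∈ Λ, bh B ρ (.node i T) = bh B ρ (.node i T') * a * p3 ε

/-- trees of one grid agree -/
def Same (M : ℕ) (Λ : Subgroup H) (B : Box → ℕ → H) : Prop :=
  ∀ n ρ b T T', 3 * n + 2 ≤ M → RB ρ → Ty ρ b → Le n b.2 → Grid n b T → Grid n b T' →
    (bh B ρ T')⁻¹ * bh B ρ T ∈ Λ

/-- the elements of forests -/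
structure ForF (K M : ℕ) (p : H →* Equiv.Perm X) (Λ : Subgroup H) (B : Box → ℕ → H) :
    Prop where
  carry : ∀ F r l, OkF M F → LF F r l → CarK K (p (bf B F)) r l
  same : ∀ n F F', 3 * n + 2 ≤ M → (∀ i, Grid n (root i) (F i)) → (∀ i, Grid n (root i) (F' i)) →
    (bf B F')⁻¹ * bf B F ∈ Λ
  expand : ∀ F F' (f f' : Box → Tr) (R : Box → Box → Prop), ∀ a ∈ Λ, OkF M (grF F f) →
    OkF M (grF F' f') → (∀ r l, LF F r l → ∃ r' l', LF F' r' l' ∧ R l l') →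
    (∀ r' l', LF F' r' l' → ∃ r l, LF F r l ∧ R l l') →
    (∀ l l₁ l₂, R l l₁ → R l l₂ → l₁ = l₂) → (∀ l₁ l₂ l', R l₁ l' → R l₂ l' → l₁ = l₂) →
    (∀ r l r' l', LF F r l → LF F' r' l' → R l l' →
      Ty r r' ∧ CarK K (p a) r r' ∧ f l = f' l') →
    ∃ x x', bf B (grF F f) = bf B F * x ∧ bf B (grF F' f') = bf B F' * x' ∧ a * x = x' * a

/-- the data used by the normal form -/
structure Dat (d : D3G G) (π : G →* Equiv.Perm X) (K M : ℕ) (p : H →* Equiv.Perm X)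
    (Λ : Subgroup H) (B : Box → ℕ → H) (ι : G →* H) : Prop where
  fo : ForF K M p Λ B
  inj : ∀ a ∈ Λ, p a = 1 → a = 1
  pi : ∀ w, p (ι w) = res K (π w)
  rep : ∀ x a b c a' b' c', Tri a b c → RM M a → RB b → RB c → Tri a' b' c' → Ty a a' →
    CarK K (p x) a a' → CarK K (p x) b b' → CarK K (p x) c c' →
    x⁻¹ * ι (d a' b' c') * x ∈ Λ
  ker : ∀ w, ι w = 1 → w ∈ FK d K

end

/-- Row ACT1. -/
def SpAct1 : Prop := ShapeF → SemF → Ext → ∀ (G : Type) [Group G] (d : D3G G), Univ d →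
  ∃ π α, Aut1 d π α

/-- Row ACT2. -/
def SpAct2 : Prop := ShapeF → SemF → ∀ (G : Type) [Group G] (d : D3G G) π α, Univ d →
  Aut1 d π α → ∀ K, ∃ (H : Type) (_ : Group H) (p : H →* Equiv.Perm X) (s : Gam →* H)
    (pr : H →* Gam) (ι : G →* H), NF K p (fun a b c => ι (d a b c)) s pr ∧
    (∀ w, p (ι w) = res K (π w)) ∧ ∀ w, ι w = 1 → w ∈ FK d K

/-- Row LAM. -/
def SpLam : Prop := ShapeF → SemF → BasF → AltF → ∀ (H : Type) [Group H] K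
  (p : H →* Equiv.Perm X) e s pr, 1 ≤ K → NF K p e s pr → ∃ Λ, Lam K p e pr Λ

/-- Row BH1. -/
def SpBh1 : Prop := ShapeF → SemF → ∀ (H : Type) [Group H] K m (p : H →* Equiv.Perm X) e s pr Λ,
  m < K → NF K p e s pr → Lam K p e pr Λ → ∃ t E, T1 K m p pr Λ t E

/-- Row BH2. -/
def SpBh2 : Prop := ShapeF → SemF → ∀ (H : Type) [Group H] K M (p : H →* Equiv.Perm X) e s pr Λ
  t E, M + 3 ≤ K → NF K p e s pr → Lam K p e pr Λ → T1 K (M + 1) p pr Λ t E →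
  ∃ B q, T2 K M p s pr Λ E B q

/-- Row BH3. -/
def SpBh3 : Prop := ShapeF → SemF → ∀ (H : Type) [Group H] K M (p : H →* Equiv.Perm X) e s pr Λ
  t E B q, M + 3 ≤ K → NF K p e s pr → Lam K p e pr Λ → T1 K (M + 1) p pr Λ t E →
  T2 K M p s pr Λ E B q → ∃ B', BH K M p Λ B' ∧ Sq3 K M p Λ B' ∧
    ∀ σ, RM M σ → ar σ.2 = 2 → pr (B' σ 1) = 1

/-- Row TREE. -/
def SpTree : Prop := ShapeF → SemF → TrF → ∀ (H : Type) [Group H] K M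
  (p : H →* Equiv.Perm X) Λ B, BH K M p Λ B → TreeF K M p Λ B

/-- Row CUBE. -/
def SpCube : Prop := ShapeF → SemF → TrF → ∀ (H : Type) [Group H] K M
  (p : H →* Equiv.Perm X) e s pr Λ B, M + 3 ≤ K → NF K p e s pr → Lam K p e pr Λ →
  BH K M p Λ B → TreeF K M p Λ B → Sq3 K M p Λ B →
  (∀ σ, RM M σ → ar σ.2 = 2 → pr (B σ 1) = 1) → Sqs K M p Λ B

/-- Row SAME. -/
def SpSame : Prop := ShapeF → TrF → ∀ (H : Type) [Group H] K M (p : H →* Equiv.Perm X) Λ B,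
  TreeF K M p Λ B → Sqs K M p Λ B → Same M Λ B

/-- Row FOR. -/
def SpFor : Prop := ShapeF → SemF → TrF → ∀ (H : Type) [Group H] K M
  (p : H →* Equiv.Perm X) Λ B, TreeF K M p Λ B → Same M Λ B → ForF K M p Λ B

/-- Row REP. -/
def SpRep : Prop := ShapeF → SemF → TrF → ∀ (G : Type) [Group G] (d : D3G G) π, Univ d →
  Act d π → (∀ n, ∃ (H : Type) (_ : Group H) (K M : ℕ) (p : H →* Equiv.Perm X)
    (Λ : Subgroup H) (B : Box → ℕ → H) (ι : G →* H), n ≤ M ∧ Dat d π K M p Λ B ι) →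
  ∀ w, π w = 1 → ∃ K, w ∈ FK d K

/-- Row RF. -/
def SpRf : Prop := ShapeF → SemF → AltF → Ext → ∀ (G : Type) [Group G] (d : D3G G) π, Univ d →
  Act d π → (∀ w, π w = 1 → ∃ K, w ∈ FK d K) → Group.ResiduallyFinite G

/-! ## Growth -/

/-- the mechanism of slow growth -/
structure Mech {G : Type} [Group G] (N e : ℕ) (K A : Set (Fin N) → Subgroup G) (F : Subgroup G)
    (T : Finset G) (b : Fin N → Fin N → G) : Prop where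
  monoK : Monotone K
  monoA : Monotone A
  finK : (K Set.univ : Set G).Finite
  finA : (A Set.univ : Set G).Finite
  finF : (F : Set G).Finite
  cardT : T.card ≤ e
  cardA : ∀ x, (A {x} : Set G).ncard ≤ e
  remK : ∀ J x, ∀ g ∈ K J, ∃ g' ∈ K (J \ {x}), ∃ t ∈ T, g = g' * t
  remA : ∀ J x, ∀ g ∈ A J, ∃ g' ∈ A (J \ {x}), ∃ t ∈ A {x}, g = g' * t
  cKA : ∀ J J', Disjoint J J' → ∀ g ∈ K J, ∀ h ∈ A J', Commute g h
  cFK : ∀ f ∈ F, ∀ g ∈ K Set.univ, Commute f g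
  cFA : ∀ f ∈ F, ∀ g ∈ A Set.univ, Commute f g
  bm : ∀ i j, b i j ∈ K Set.univ
  bK : ∀ i j J, ∀ g ∈ K J, b i j * g * (b i j)⁻¹ ∈ K (Equiv.swap i j '' J) ∧
    (b i j)⁻¹ * g * b i j ∈ K (Equiv.swap i j '' J)
  bA : ∀ i j J, ∀ g ∈ A J, b i j * g * (b i j)⁻¹ ∈ A (Equiv.swap i j '' J) ∧
    (b i j)⁻¹ * g * b i j ∈ A (Equiv.swap i j '' J)
  top : ∀ L : Subgroup G, (∀ x, K {x} ≤ L) → (∀ x, A {x} ≤ L) → F ≤ L → L = ⊤

/-- balls are covered by a finite set times short products from a small set -/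
def Slow {G : Type} [Group G] (S : Finset G) (N e : ℕ) : Prop :=
  ∃ F E : Finset G, 1 ∈ E ∧ E.card ≤ (N + 1) * e + 1 ∧
    ∀ k : ℕ, ∀ g ∈ K76.ball S k, ∃ f ∈ F, ∃ l : List G, (∀ x ∈ l, x ∈ E) ∧
      (N - 1) * l.length ≤ 2 * k + N ^ 2 ∧ g = f * l.prod

/-- Row INV. -/
def SpInv : Prop := ∀ (G : Type) [Group G] (N e : ℕ) (K A : Set (Fin N) → Subgroup G) F T b,
  2 ≤ N → Mech N e K A F T b → ∃ Q : Finset G, Subgroup.closure (Q : Set G) = ⊤ ∧ Slow Q N e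

/-- Row CNT. -/
def SpCnt : Prop := ∀ (G : Type) [Group G] (C : ℕ),
  (∀ k, 1 ≤ k → ∃ Q : Finset G, Subgroup.closure (Q : Set G) = ⊤ ∧
    Slow Q (2 ^ k) (2 ^ (C * (k + 1) ^ 3))) →
  ∀ c : ℝ, 1 < c → ∃ Q : Finset G, Subgroup.closure (Q : Set G) = ⊤ ∧
    ∃ k : ℕ, ((K76.ball Q k).ncard : ℝ) < c ^ k

/-- labels on the reference partition -/
structure Lay (ι : Type) (K N m : ℕ) (lab : Box → Option (Fin N)) (sw : Fin N → Fin N → Box → Box)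
    (τ : Box → Box) (pv : Fin N → ι → ℕ → Box) : Prop where
  pos : 1 ≤ K
  bun : ∀ x, {P | Pi K P ∧ lab P = some x}.ncard ≤ m
  rsv : ∀ P, Pi K P → ∀ i, ∃ R, Pi K R ∧ R.1 = i ∧ Ty P R ∧ lab R = none
  swP : ∀ i j P, Pi K P → Pi K (sw i j P) ∧ Ty P (sw i j P) ∧ sw i j (sw i j P) = P ∧
    lab (sw i j P) = (lab P).map (Equiv.swap i j) ∧ sw i j (τ P) = τ (sw i j P) ∧
    τ P ≠ sw i j P
  tau : ∀ P, Pi K P → Pi K (τ P) ∧ Ty P (τ P) ∧ τ (τ P) = P ∧ τ P ≠ P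
  pvP : ∀ x n c, 1 ≤ c → c ≤ 3 → Pi K (pv x n c) ∧ ar (pv x n c).2 = c ∧
    lab (pv x n c) = some x ∧ ∀ i j, sw i j (pv x n c) = pv (Equiv.swap i j x) n c
  pvI : ∀ x n c x' n' c', 1 ≤ c → c ≤ 3 → 1 ≤ c' → c' ≤ 3 → pv x n c = pv x' n' c' →
    x = x' ∧ n = n'

/-- existence of the labels -/
def LayEx : Prop := ∀ (ι : Type) [Finite ι], ∃ C : ℕ, ∀ k, ∃ K m lab sw τ pv,
  Lay ι K (2 ^ k) m lab sw τ pv ∧
    (6 * {P | Pi K P}.ncard ^ 3 + 1) ^ m ≤ 2 ^ (C * (k + 1) ^ 3)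

/-- Row LAY. -/
def SpLay : Prop := ShapeF → LayEx

/-- generation by the reference partition, the points and the templates -/
def Top : Prop := ∀ (G : Type) [Group G] (d : D3G G) (K : ℕ) (L : Subgroup G), Univ d → 1 ≤ K →
  FK d (K - 1) ≤ L → HJ d {P | Pi K P} ≤ L →
  (∀ u₁ u₂ u₃, Tp u₁ u₂ u₃ → ∃ P₁ P₂ P₃, Pi K P₁ ∧ Pi K P₂ ∧ Pi K P₃ ∧ P₁ ≠ P₂ ∧ P₁ ≠ P₃ ∧
    P₂ ≠ P₃ ∧ ar P₁.2 = u₁.length ∧ ar P₂.2 = u₂.length ∧ ar P₃.2 = u₃.length ∧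
    d (sb P₁ u₁) (sb P₂ u₂) (sb P₃ u₃) ∈ L) → L = ⊤

/-- Row TOP. -/
def SpTop : Prop := ShapeF → BasF → Gen → Top

/-- Row MEC. -/
def SpMec : Prop := ShapeF → SemF → BasF → AltF → LayEx → Top →
  ∀ (G : Type) [Group G] (d : D3G G) π, Univ d → Act d π → ∃ C : ℕ, ∀ k,
    ∃ (K A : Set (Fin (2 ^ k)) → Subgroup G) (F : Subgroup G) (T : Finset G)
      (b : Fin (2 ^ k) → Fin (2 ^ k) → G), Mech (2 ^ k) (2 ^ (C * (k + 1) ^ 3)) K A F T b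

/-- Row EXP. -/
def SpExp : Prop := ShapeF → SemF → ∀ (G : Type) [Group G] (d : D3G G) π, Act d π →
  ∃ g : Bool → G, ∀ l l' : List Bool, l.length = l'.length →
    (l.map g).prod = (l'.map g).prod → l = l'

end Pool.Agent.MP_89edc2_al.R3
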