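import Pool.Agent.MP_89edc2_al.R3.Spec2

/-!
# Row STEP: the old and the new elements form a system of the next weight
-/

namespace Pool.Agent.MP_89edc2_al.R3

open scoped commutatorElement

namespace Step2x

variable {G : Type} [Group G] {l : ℕ} {d x : D3G G}

theorem three : ∀ a : Fin 3, ∃ a₀ k : Fin 3, k ≠ a ∧ one a₀ k = false ∧ one a₀ a = false ∧
    one k k = true ∧ (Function.update (one a₀) k true = fun a' => decide (a' ≠ a)) ∧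
    (Function.update (one a₀) a true = fun a' => decide (a' ≠ k)) ∧
    (∀ a', decide (a' ≠ k) = true ∨ one k a' = true) ∧
    (∀ a', one k a' = true → decide (a' ≠ a) = true) ∧ ∀ a', one k a' = true → a' = k := by
  decide

theorem dj (sh : ShapeF) {χ χ' : Chart} {t t' : Pat} {A B : Fin 3 → Bool} (a : Fin 3)
    (hA : A a = true) (hB : B a = true) (ht : t a ≠ t' a) (h : χ.1 = χ'.1 → χ = χ') :
    Disj (ap χ t A) (ap χ' t' B) := by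
  by_cases e : χ.1 = χ'.1
  · obtain rfl := h e
    exact sh.ap_disj _ _ _ _ _ a hA hB ht
  · exact Or.inl e

theorem dc (sh : ShapeF) {χ₁ χ₂ χ₃ : Chart} (v : V3 l χ₁ χ₂ χ₃) (t : Pat) (A : Fin 3 → Bool) :
    Dc (ap χ₁ t A) (ap χ₂ t A) (ap χ₃ t A) := by
  obtain ⟨v1, v2, v3, n1, n2, n3⟩ := v
  exact ⟨sh.ap_ty _ _ _ _ (by omega), sh.ap_ty _ _ _ _ (by omega), n1, n2, n3⟩

theorem lw1 (sh : ShapeF) {χ₁ χ₂ χ₃ : Chart} (v : V3 l χ₁ χ₂ χ₃) (t : Pat) (a : Fin 3) :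
    Lw l (ap χ₁ t (one a)) (ap χ₂ t (one a)) (ap χ₃ t (one a)) :=
  ⟨dc sh v t _, by have := v.1; rw [sh.one_wt]; omega⟩

theorem lw2 (sh : ShapeF) {χ₁ χ₂ χ₃ : Chart} (v : V3 l χ₁ χ₂ χ₃) (t : Pat) (a : Fin 3) :
    Lw l (fl χ₁ t a) (fl χ₂ t a) (fl χ₃ t a) :=
  ⟨dc sh v t _, by have := v.1; rw [sh.fl_wt]; omega⟩

theorem hi3 (sh : ShapeF) {χ₁ χ₂ χ₃ : Chart} (v : V3 l χ₁ χ₂ χ₃) (t : Pat) :
    Hi l (gd χ₁ t) (gd χ₂ t) (gd χ₃ t) :=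
  ⟨dc sh v t _, by have := v.1; rw [(sh.gd_wt _ _).1]; omega⟩

theorem alg {P₁ P₂ P₃ Q X₁ X₂ X₃ : G} (h1 : X₁ = ⁅P₁, Q⁆) (h2 : X₂ = ⁅P₂, Q⁆)
    (h3 : X₃ = ⁅P₃, Q⁆) (c12 : Commute P₁ P₂) (c13 : Commute P₁ P₃) (c23 : Commute P₂ P₃)
    (e21 : Commute P₂ X₁) (e31 : Commute P₃ X₁) (e32 : Commute P₃ X₂) :
    ⁅P₁ * P₂ * P₃, Q⁆ = X₁ * X₂ * X₃ := by
  have k : ∀ g h : G, ⁅g * h, Q⁆ = g * ⁅h, Q⁆ * g⁻¹ * ⁅g, Q⁆ := fun g h => by
    simp only [commutatorElement_def]; group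
  rw [c12.eq, ← (c23.mul_left c13).symm.eq, k, k, ← h1, ← h2, ← h3, e21.eq, mul_inv_cancel_right,
    (e31.mul_right e32).eq, mul_inv_cancel_right]

/-- the relation on charts -/
theorem chart (sh : ShapeF) (ba : BasF) (sy : Sys (Lw l) d) (hm : HM l d x) {χ₁ χ₂ χ₃ : Chart}
    (v : V3 l χ₁ χ₂ χ₃) (t : Pat) (a : Fin 3) :
    d (fl χ₁ t a) (fl χ₂ t a) (fl χ₃ t a) = p3 fun o => x (gd χ₁ (Function.update t a o))
      (gd χ₂ (Function.update t a o)) (gd χ₃ (Function.update t a o)) := by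
  obtain ⟨a₀, k, ka, o1, o2, o3, u1, u2, o4, o5, o6⟩ := three a
  obtain ⟨p, hp⟩ := sh.fresh [χ₁.1, χ₂.1, χ₃.1] (by simp)
  obtain ⟨q, hq⟩ := sh.fresh [χ₁.1, χ₂.1, χ₃.1, p] (by simp)
  simp only [List.mem_cons, List.not_mem_nil, or_false, not_or] at hp hq
  obtain ⟨p1, p2, p3'⟩ := hp
  obtain ⟨q1, q2, q3, qp⟩ := hq
  obtain ⟨v1, v2, v3, n12, n13, n23⟩ := id v
  let χp : Chart := (p, χ₁.2)
  let χq : Chart := (q, χ₁.2)
  have P1 : χp.1 ≠ χ₁.1 := p1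
  have P2 : χp.1 ≠ χ₂.1 := p2
  have P3 : χp.1 ≠ χ₃.1 := p3'
  have Q1 : χq.1 ≠ χ₁.1 := q1
  have Q2 : χq.1 ≠ χ₂.1 := q2
  have Q3 : χq.1 ≠ χ₃.1 := q3
  have QP : χq.1 ≠ χp.1 := qp
  have vp : V3 l χ₁ χ₂ χp := ⟨v1, v2, v1, n12, P1.symm, P2.symm⟩
  have vq : V3 l χ₁ χ₃ χq := ⟨v1, v3, v1, n13, Q1.symm, Q3.symm⟩
  have vr : V3 l χ₃ χ₂ χp := ⟨v3, v2, v1, n23.symm, P3.symm, P2.symm⟩
  clear_value χp χq
  have lP := lw1 sh vp t a₀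
  have lQ := lw1 sh vq t k
  have kk : ∀ χ o, kd (ap χ t (one a₀)) (idx t (one a₀) k) o = fl χ (Function.update t k o) a :=
    fun χ o => by rw [(sh.ap_kd χ t _ k o1).2, u1]; rfl
  have kb : ∀ χ o, kd (ap χ t (one a₀)) (idx t (one a₀) a) o = fl χ (Function.update t a o) k :=
    fun χ o => by rw [(sh.ap_kd χ t _ a o2).2, u2]; rfl
  have ok : decide (k ≠ a) = true := o5 k o3
  have oa : decide (a ≠ k) = true := by simpa using ka.symm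
  -- the left side is a commutator
  obtain ⟨r, e1, -, e2⟩ := ba.split' G _ d sy _ _ _ (idx t (one a₀) k) lP (sh.dc_tri _ _ _ lP.1)
    (sh.ap_kd χ₁ t _ k o1).1 (fun o => by rw [kk, kk, kk]; exact lw2 sh vp _ _) (t k)
  have cr := e2 (d (ap χ₁ t (one k)) (ap χ₃ t (one k)) (ap χq t (one k))) fun o ho => by
    rw [kk, kk, kk]
    have ht : t k ≠ Function.update t k o k := by simpa using ho.symm
    refine ba.comm G _ d sy _ _ _ _ _ _ (lw2 sh vp _ _) lQ ⟨dj sh k o3 ok ht ?_,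
      dj sh k o3 ok ht ?_, dj sh k o3 ok ht ?_⟩ ⟨dj sh k o3 ok ht ?_,
      dj sh k o3 ok ht ?_, dj sh k o3 ok ht ?_⟩ ⟨dj sh k o3 ok ht ?_,
      dj sh k o3 ok ht ?_, dj sh k o3 ok ht ?_⟩ <;>
    first
      | exact fun _ => rfl
      | exact fun h => absurd h (by assumption)
      | exact fun h => absurd h.symm (by assumption)
  simp only [kk, Function.update_eq_self] at e1
  have cj := sy.conj _ _ _ _ _ _ _ _ _ lQ (lw2 sh vp t a) (lw2 sh vr t a)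
    (Or.inl (sh.ap_mo χ₁ χ₃ t _ _ o5))
    (Or.inr (Or.inr (Or.inr ⟨rfl, Or.inl n12.symm, Or.inl n23, Or.inl Q2.symm⟩)))
    (Or.inr (Or.inr (Or.inr ⟨rfl, Or.inl P1, Or.inl P3, Or.inl QP.symm⟩)))
  have th := ba.third G _ d sy (sh.sy_lw l) _ _ _ _ (lw2 sh vp t a) (lw2 sh v t a)
    (sh.sy_lw l _ _ _ (lw2 sh vr t a)).2
  have iv := ba.inv' G _ d sy _ _ _ (lw2 sh vr t a)
  have sp := sy.split _ _ _ (idx t (one a₀) a) lP (sh.ap_kd χ₁ t _ a o2).1 fun o => by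
    rw [kb, kb, kb]; exact lw2 sh vp _ _
  simp only [kb] at sp
  have xd : ∀ o, x (gd χ₁ (Function.update t a o)) (gd χ₂ (Function.update t a o))
      (gd χ₃ (Function.update t a o)) = ⁅d (fl χ₁ (Function.update t a o) k)
        (fl χ₂ (Function.update t a o) k) (fl χp (Function.update t a o) k),
        d (ap χ₁ t (one k)) (ap χ₃ t (one k)) (ap χq t (one k))⁆ := fun o => by
    have cg : ∀ χ, ap χ t (one k) = ap χ (Function.update t a o) (one k) := fun χ =>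
      sh.ap_congr χ _ _ _ fun a' h => by rw [o6 a' h, Function.update_of_ne ka]
    rw [cg, cg, cg]
    exact hm.xd _ χ₁ χ₂ χ₃ _ _ _ _ v o4 (lw2 sh vp _ k) (lw1 sh vq _ k) P3 QP.symm Q2
  have cP : ∀ o o', o ≠ o' → Commute (d (fl χ₁ (Function.update t a o) k)
      (fl χ₂ (Function.update t a o) k) (fl χp (Function.update t a o) k))
      (d (fl χ₁ (Function.update t a o') k) (fl χ₂ (Function.update t a o') k)
        (fl χp (Function.update t a o') k)) := fun o o' ho => by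
    have ht : Function.update t a o' a ≠ Function.update t a o a := by simpa using ho.symm
    refine ba.comm G _ d sy _ _ _ _ _ _ (lw2 sh vp _ _) (lw2 sh vp _ _) ⟨dj sh a oa oa ht ?_,
      dj sh a oa oa ht ?_, dj sh a oa oa ht ?_⟩ ⟨dj sh a oa oa ht ?_,
      dj sh a oa oa ht ?_, dj sh a oa oa ht ?_⟩ ⟨dj sh a oa oa ht ?_,
      dj sh a oa oa ht ?_, dj sh a oa oa ht ?_⟩ <;>
    first
      | exact fun _ => rfl
      | exact fun h => absurd h (by assumption)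
      | exact fun h => absurd h.symm (by assumption)
  have cX : ∀ o o', o ≠ o' → Commute (d (fl χ₁ (Function.update t a o) k)
      (fl χ₂ (Function.update t a o) k) (fl χp (Function.update t a o) k))
      (x (gd χ₁ (Function.update t a o')) (gd χ₂ (Function.update t a o'))
        (gd χ₃ (Function.update t a o'))) := fun o o' ho => by
    have ht : Function.update t a o' a ≠ Function.update t a o a := by simpa using ho.symm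
    refine hm.m3 _ _ _ _ _ _ _ _ _ (lw2 sh vp _ _) (hi3 sh v _) (hi3 sh v _)
      ⟨Or.inr (Or.inr (Or.inr ⟨rfl, dj sh a rfl oa ht ?_, dj sh a rfl oa ht ?_,
        dj sh a rfl oa ht ?_⟩)), Or.inr (Or.inr (Or.inr ⟨rfl, dj sh a rfl oa ht ?_,
        dj sh a rfl oa ht ?_, dj sh a rfl oa ht ?_⟩)), Or.inr (Or.inr (Or.inr ⟨rfl,
        dj sh a rfl oa ht ?_, dj sh a rfl oa ht ?_, dj sh a rfl oa ht ?_⟩))⟩ <;>
    first
      | exact fun _ => rfl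
      | exact fun h => absurd h (by assumption)
      | exact fun h => absurd h.symm (by assumption)
  have fin := alg (xd none) (xd (some false)) (xd (some true)) (cP _ _ (by simp))
    (cP _ _ (by simp)) (cP _ _ (by simp)) (cX _ _ (by simp)) (cX _ _ (by simp)) (cX _ _ (by simp))
  rw [← sp, e1] at fin
  refine Eq.trans ?_ fin
  rw [th, iv, commutatorElement_def, mul_assoc _ r, cr.eq, eq_mul_inv_of_mul_eq cj.symm]
  group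

/-- the splitting relation from weight `l` to weight `l + 1` -/
def R1 (d x : D3G G) (i : ℕ) (a b c : Box) : Prop :=
  d a b c = p3 fun o => x (kd a i o) (kd b i o) (kd c i o)

theorem hik (sh : ShapeF) {a b c : Box} {i : ℕ} (h : Dc a b c) (w : wt a.2 = l)
    (hi : i < ar a.2) (o : Option Bool) : Hi l (kd a i o) (kd b i o) (kd c i o) :=
  ⟨⟨sh.ty_kd _ _ _ _ _ h.1 hi hi, sh.ty_kd _ _ _ _ _ h.2.1 hi hi, h.2.2⟩,
    (sh.kid_wt _ _ _ hi).trans (by rw [w])⟩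

theorem move (sh : ShapeF) (sy : Sys (Lw l) d) (hm : HM l d x) {g₁ g₂ g₃ a b c a' b' c' : Box}
    {i : ℕ} (hg : Lw l g₁ g₂ g₃) (h : Dc a b c) (h' : Dc a' b' c') (w : wt a.2 = l)
    (hi : i < ar a.2) (m : Mv3 g₁ g₂ g₃ a b c a' b' c') (r : R1 d x i a' b' c') :
    R1 d x i a b c := by
  have tg := sh.dc_tri _ _ _ hg.1
  have ty := sh.mv_ty _ _ _ _ _ tg h.1.1 m.1
  have w' : wt a'.2 = l := (sh.ty_wt _ _ ty).symm.trans w
  have c := sy.conj _ _ _ _ _ _ _ _ _ hg ⟨h, w.le⟩ ⟨h', w'.le⟩ m.1 m.2.1 m.2.2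
  have k := fun o => hm.m3 _ _ _ _ _ _ _ _ _ hg (hik sh h w hi o)
    (hik sh h' w' (ty.2.2.1 ▸ hi) o) ⟨sh.mv_kd _ _ _ _ _ i o tg m.1,
      sh.mv_kd _ _ _ _ _ i o tg m.2.1, sh.mv_kd _ _ _ _ _ i o tg m.2.2⟩
  refine mul_left_cancel (a := d g₁ g₂ g₃) ?_
  rw [c, r, p3, p3, ← mul_assoc, ← mul_assoc, k, mul_assoc _ (d g₁ g₂ g₃), k, ← mul_assoc,
    mul_assoc _ (d g₁ g₂ g₃), k, ← mul_assoc]

theorem r1 (sh : ShapeF) (ba : BasF) (hl : 3 ≤ l) (sy : Sys (Lw l) d) (hm : HM l d x)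
    {a b c : Box} {i : ℕ} (h : Dc a b c) (w : wt a.2 = l) (hi : i < ar a.2) : R1 d x i a b c := by
  obtain ⟨t, s, e, -, -, ty⟩ := sh.lab_ex l a i none h.1.1 w hi
  obtain ⟨j₁, h1⟩ := sh.fresh [a.1, b.1, c.1] (by simp)
  obtain ⟨j₂, h2⟩ := sh.fresh [a.1, b.1, c.1, j₁] (by simp)
  obtain ⟨j₃, h3⟩ := sh.fresh [a.1, b.1, c.1, j₁, j₂] (by simp)
  obtain ⟨z, h4⟩ := sh.fresh [a.1, b.1, c.1, j₁, j₂, j₃] (by simp)
  simp only [List.mem_cons, List.not_mem_nil, or_false, not_or] at h1 h2 h3 h4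
  obtain ⟨χ₁, rfl, c1⟩ := sh.chart_ex l j₁ (by omega)
  obtain ⟨χ₂, rfl, c2⟩ := sh.chart_ex l j₂ (by omega)
  obtain ⟨χ₃, rfl, c3⟩ := sh.chart_ex l j₃ (by omega)
  obtain ⟨tb, tc, ab, ac, bc⟩ := id h
  obtain ⟨a1, b1, d1⟩ := h1
  obtain ⟨a2, b2, d2, n21⟩ := h2
  obtain ⟨a3, b3, d3, n31, n32⟩ := h3
  obtain ⟨za, zb, zc, z1, z2, z3⟩ := h4
  have v : V3 l χ₁ χ₂ χ₃ := ⟨c1, c2, c3, Ne.symm n21, Ne.symm n31, Ne.symm n32⟩
  have t1 := ty χ₁ c1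
  have t2 := ty χ₂ c2
  have t3 := ty χ₃ c3
  have tz : Ty a (z, a.2) := ⟨tb.1, tb.1, rfl, rfl⟩
  have tr := sh.ty_trans
  have sm := sh.ty_symm
  have w1 : wt (fl χ₁ t s).2 = l := (sh.ty_wt _ _ t1).trans w
  have i1 : i < ar (fl χ₁ t s).2 := t1.2.2.1 ▸ hi
  have D1 : Dc (fl χ₁ t s) b c := ⟨tr _ _ _ t1 tb, tr _ _ _ t1 tc, b1, d1, bc⟩
  have D2 : Dc (fl χ₁ t s) (fl χ₂ t s) c :=
    ⟨tr _ _ _ t1 (sm _ _ t2), tr _ _ _ t1 tc, Ne.symm n21, d1, d2⟩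
  refine move sh sy hm (g₁ := a) (g₂ := fl χ₁ t s) (g₃ := (z, a.2))
    ⟨⟨sm _ _ t1, tz, Ne.symm a1, Ne.symm za, Ne.symm z1⟩, w.le⟩ h D1 w hi
    ⟨Or.inl (sh.mo_self _ _ t1.2.2.1.symm),
      Or.inr (Or.inr (Or.inr ⟨rfl, Or.inl ab.symm, Or.inl (Ne.symm b1), Or.inl (Ne.symm zb)⟩)),
      Or.inr (Or.inr (Or.inr ⟨rfl, Or.inl ac.symm, Or.inl (Ne.symm d1), Or.inl (Ne.symm zc)⟩))⟩ ?_
  have tb2 := tr _ _ _ (sm _ _ tb) (sm _ _ t2)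
  refine move sh sy hm (g₁ := b) (g₂ := fl χ₂ t s) (g₃ := (z, a.2))
    ⟨⟨tb2, tr _ _ _ (sm _ _ tb) tz, Ne.symm b2, Ne.symm zb, Ne.symm z2⟩,
      ((sh.ty_wt _ _ tb).symm.trans w).le⟩ D1 D2 w1 i1
    ⟨Or.inr (Or.inr (Or.inr ⟨rfl, Or.inl b1, Or.inl (Ne.symm n21), Or.inl (Ne.symm z1)⟩)),
      Or.inl (sh.mo_self _ _ tb2.2.2.1),
      Or.inr (Or.inr (Or.inr ⟨rfl, Or.inl bc.symm, Or.inl (Ne.symm d2), Or.inl (Ne.symm zc)⟩))⟩ ?_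
  have tc3 := tr _ _ _ (sm _ _ tc) (sm _ _ t3)
  refine move sh sy hm (g₁ := c) (g₂ := fl χ₃ t s) (g₃ := (z, a.2))
    ⟨⟨tc3, tr _ _ _ (sm _ _ tc) tz, Ne.symm d3, Ne.symm zc, Ne.symm z3⟩,
      ((sh.ty_wt _ _ tc).symm.trans w).le⟩ D2 (lw2 sh v t s).1 w1 i1
    ⟨Or.inr (Or.inr (Or.inr ⟨rfl, Or.inl d1, Or.inl (Ne.symm n31), Or.inl (Ne.symm z1)⟩)),
      Or.inr (Or.inr (Or.inr ⟨rfl, Or.inl d2, Or.inl (Ne.symm n32), Or.inl (Ne.symm z2)⟩)),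
      Or.inl (sh.mo_self _ _ tc3.2.2.1)⟩ ?_
  subst e
  simp only [R1, (sh.gd_kd _ t s).2.2]
  exact chart sh ba sy hm v t s

theorem fix (sh : ShapeF) {g₁ g₂ g₃ a a' : Box} (hg : Hi l g₁ g₂ g₃) (w : wt a.2 ≤ l)
    (m : Mv g₁ g₂ g₃ a a') : a' = a ∧ Disj g₁ a ∧ Disj g₂ a ∧ Disj g₃ a := by
  obtain ⟨⟨t2, t3, -⟩, wg⟩ := hg
  have w2 := sh.ty_wt _ _ t2
  have w3 := sh.ty_wt _ _ t3
  rcases m with m | m | m | ⟨e, m1, m2, m3⟩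
  · have := (sh.mo_wt _ _ _ _ t2.2.2.1 m).1; omega
  · have := (sh.mo_wt _ _ _ _ (t2.2.2.1.symm.trans t3.2.2.1) m).1; omega
  · have := (sh.mo_wt _ _ _ _ t3.2.2.1.symm m).1; omega
  · exact ⟨e, sh.disj_symm _ _ m1, sh.disj_symm _ _ m2, sh.disj_symm _ _ m3⟩

end Step2x

open Step2x in
theorem step2_main : SpStep := by
  intro sh ba G _ l d x hl sy hm sx
  have hi : ∀ {a b c}, Lw (l + 1) a b c → ¬ wt a.2 ≤ l → Hi l a b c := fun h w =>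
    ⟨h.1, by have := h.2; omega⟩
  refine ⟨fun a b c h => ?_, fun a b c h => ?_, fun a b e f h1 h2 h3 => ?_,
    fun a b c i h hi' hk => ?_, fun g₁ g₂ g₃ a b c a' b' c' hg h h' m1 m2 m3 => ?_⟩
  · rw [← sh.ty_wt _ _ h.1.1]
    split_ifs with w
    · exact sy.cyc _ _ _ ⟨h.1, w⟩
    · exact sx.cyc _ _ _ (hi h w)
  · split_ifs with w
    · exact sy.inv _ _ _ ⟨h.1, w⟩
    · exact sx.inv _ _ _ (hi h w)
  · have wb := sh.ty_wt _ _ h1.1.1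
    rw [← wb]
    split_ifs with w
    · exact sy.tri _ _ _ _ ⟨h1.1, w⟩ ⟨h2.1, wb ▸ w⟩ ⟨h3.1, w⟩
    · exact sx.tri _ _ _ _ (hi h1 w) (hi h2 (wb ▸ w)) (hi h3 w)
  · have wk : ∀ o, wt (kd a i o).2 = wt a.2 + 1 := fun o => sh.kid_wt _ _ _ hi'
    have w : wt a.2 ≤ l := by have := (hk none).2; rw [wk] at this; omega
    simp only [wk, if_pos w]
    split_ifs with w'
    · exact sy.split _ _ _ _ ⟨h.1, w⟩ hi' fun o => ⟨(hk o).1, (wk o).le.trans w'⟩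
    · exact r1 sh ba hl sy hm h.1 (by omega) hi'
  · have wa := sh.ty_wt _ _ (sh.mv_ty _ _ _ _ _ (sh.dc_tri _ _ _ hg.1) h.1.1.1 m1)
    rw [← wa]
    split_ifs with wg w w
    · exact sy.conj _ _ _ _ _ _ _ _ _ ⟨hg.1, wg⟩ ⟨h.1, w⟩ ⟨h'.1, wa ▸ w⟩ m1 m2 m3
    · exact hm.m3 _ _ _ _ _ _ _ _ _ ⟨hg.1, wg⟩ (hi h w) (hi h' (wa ▸ w)) ⟨m1, m2, m3⟩
    · obtain ⟨rfl, a1, a2, a3⟩ := fix sh (hi hg wg) w m1
      obtain ⟨rfl, b1, b2, b3⟩ := fix sh (hi hg wg) ((sh.ty_wt _ _ h.1.1) ▸ w) m2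
      obtain ⟨rfl, c1, c2, c3⟩ := fix sh (hi hg wg) ((sh.ty_wt _ _ h.1.2.1) ▸ w) m3
      exact (hm.m3 _ _ _ _ _ _ _ _ _ ⟨h.1, w⟩ (hi hg wg) (hi hg wg)
        ⟨Or.inr (Or.inr (Or.inr ⟨rfl, a1, b1, c1⟩)), Or.inr (Or.inr (Or.inr ⟨rfl, a2, b2, c2⟩)),
          Or.inr (Or.inr (Or.inr ⟨rfl, a3, b3, c3⟩))⟩).symm
    · exact sx.conj _ _ _ _ _ _ _ _ _ (hi hg wg) (hi h w) (hi h' (wa ▸ w)) m1 m2 m3

end Pool.Agent.MP_89edc2_al.R3
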