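import Pool.Agent.MP_89edc2_al.R3.Spec2

/-! The extension by one weight satisfies all relations. -/

namespace Pool.Agent.MP_89edc2_al.R3

open scoped commutatorElement

namespace Step3x

variable {G : Type} [Group G] {l : ℕ} {d x : D3G G}

theorem dj {a b : Box} (h : a.1 ≠ b.1) : Disj a b := Or.inl h

theorem fix {g₁ g₂ g₃ b : Box} (h1 : b.1 ≠ g₁.1) (h2 : b.1 ≠ g₂.1) (h3 : b.1 ≠ g₃.1) :
    Mv g₁ g₂ g₃ b b := Or.inr (Or.inr (Or.inr ⟨rfl, dj h1, dj h2, dj h3⟩))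

theorem dcA (sh : ShapeF) (t : Pat) (A : Fin 3 → Bool) {χ χ' χ'' : Chart} (e1 : cd χ = cd χ')
    (e2 : cd χ = cd χ'') (n1 : χ.1 ≠ χ'.1) (n2 : χ.1 ≠ χ''.1) (n3 : χ'.1 ≠ χ''.1) :
    Dc (ap χ t A) (ap χ' t A) (ap χ'' t A) :=
  ⟨sh.ap_ty _ _ t A e1, sh.ap_ty _ _ t A e2, n1, n2, n3⟩

theorem alg {P Q x r y : G} (hP : P = x * r) (hr : Commute r Q) (hy : Q * x⁻¹ = y * Q) :
    ⁅P, Q⁆ = x * y := by
  have h1 : r * Q * r⁻¹ = Q := by rw [hr.eq, mul_inv_cancel_right]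
  have h2 : y = Q * x⁻¹ * Q⁻¹ := by rw [hy, mul_inv_cancel_right]
  calc ⁅P, Q⁆ = x * (r * Q * r⁻¹) * x⁻¹ * Q⁻¹ := by rw [hP, commutatorElement_def]; group
    _ = x * y := by rw [h1, h2]; group

theorem alg2 {u v Q : G} (h : Commute u ⁅v, Q⁆) : ⁅u * v, Q⁆ = ⁅v, Q⁆ * ⁅u, Q⁆ := by
  calc ⁅u * v, Q⁆ = u * ⁅v, Q⁆ * u⁻¹ * ⁅u, Q⁆ := by simp only [commutatorElement_def]; group
    _ = ⁅v, Q⁆ * ⁅u, Q⁆ := by rw [h.eq, mul_inv_cancel_right]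

theorem alg3 {u v w Q : G} (c1 : Commute u v) (c2 : Commute u w) (c3 : Commute v w)
    (h1 : Commute v ⁅u, Q⁆) (h2 : Commute w ⁅u, Q⁆) (h3 : Commute w ⁅v, Q⁆) :
    ⁅u * v * w, Q⁆ = ⁅u, Q⁆ * ⁅v, Q⁆ * ⁅w, Q⁆ := by
  have e : u * v * w = w * (v * u) := by rw [c1.eq, ((c3.symm.mul_right c2.symm).eq)]
  have e2 : ⁅v * u, Q⁆ = ⁅u, Q⁆ * ⁅v, Q⁆ := alg2 h1
  rw [e, alg2 (by rw [e2]; exact h2.mul_right h3), e2]

theorem sets (a : Fin 3) : ∃ a₀ k : Fin 3, one a₀ k = false ∧ one a₀ a = false ∧ k ≠ a ∧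
    (Function.update (one a₀) k true = fun s => decide (s ≠ a)) ∧
    (∀ s, Function.update (one a₀) a true s = true ∨ one k s = true) ∧
    idx = idx ∧ (∀ s, one k s = true → s = k) ∧
    (Finset.univ.filter fun s => Function.update (one a₀) a true s = true).card = 2 := by
  refine ⟨a.succAbove 0, a.succAbove 1, ?_, ?_, ?_, ?_, ?_, rfl, ?_, ?_⟩ <;>
    revert a <;> decide

theorem r1c (sh : ShapeF) (bs : BasF) (hS : Sys (Lw l) d) (hm : HM l d x) (t : Pat) (a : Fin 3)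
    (χ₁ χ₂ χ₃ : Chart) (hV : V3 l χ₁ χ₂ χ₃) :
    d (fl χ₁ t a) (fl χ₂ t a) (fl χ₃ t a) = p3 fun o =>
      x (gd χ₁ (Function.update t a o)) (gd χ₂ (Function.update t a o))
        (gd χ₃ (Function.update t a o)) := by
  obtain ⟨a₀, k, s1, s2, s3, s4, s5, -, s6, s7⟩ := sets a
  have hV' := hV
  obtain ⟨c1, c2, c3, n12, n13, n23⟩ := hV
  obtain ⟨p, hp⟩ := sh.fresh [χ₁.1, χ₂.1, χ₃.1] (by simp)
  obtain ⟨q, hq⟩ := sh.fresh [χ₁.1, χ₂.1, χ₃.1, p] (by simp)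
  simp only [List.mem_cons, List.not_mem_nil, or_false, not_or] at hp hq
  obtain ⟨p1, p2, p3'⟩ := hp
  obtain ⟨q1, q2, q3, qp⟩ := hq
  obtain ⟨χp, hp1, hp2⟩ : ∃ χ : Chart, χ.1 = p ∧ cd χ = cd χ₁ := ⟨(p, χ₁.2), rfl, rfl⟩
  obtain ⟨χq, hq1, hq2⟩ : ∃ χ : Chart, χ.1 = q ∧ cd χ = cd χ₁ := ⟨(q, χ₁.2), rfl, rfl⟩
  subst hp1 hq1
  have e12 : cd χ₁ = cd χ₂ := by omega
  have e13 : cd χ₁ = cd χ₃ := by omega
  have d12p : ∀ t A, Dc (ap χ₁ t A) (ap χ₂ t A) (ap χp t A) := fun t A =>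
    dcA sh t _ e12 hp2.symm n12 (Ne.symm p1) (Ne.symm p2)
  have lP : Lw l (ap χ₁ t (one a₀)) (ap χ₂ t (one a₀)) (ap χp t (one a₀)) :=
    ⟨d12p _ _, by rw [sh.one_wt]; omega⟩
  have lQ : Lw l (ap χ₁ t (one k)) (ap χ₃ t (one k)) (ap χq t (one k)) :=
    ⟨dcA sh t _ e13 hq2.symm n13 (Ne.symm q1) (Ne.symm q3), by rw [sh.one_wt]; omega⟩
  have lfl : ∀ t', Lw l (ap χ₁ t' fun s => decide (s ≠ a)) (ap χ₂ t' fun s => decide (s ≠ a))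
      (ap χp t' fun s => decide (s ≠ a)) := fun t' =>
    ⟨d12p _ _, by have := sh.fl_wt χ₁ t' a; unfold fl at this; omega⟩
  -- first splitting
  obtain ⟨i1, u1⟩ := sh.ap_kd χ₁ t (one a₀) k s1
  obtain ⟨-, u2⟩ := sh.ap_kd χ₂ t (one a₀) k s1
  obtain ⟨-, up⟩ := sh.ap_kd χp t (one a₀) k s1
  rw [s4] at u1 u2 up
  obtain ⟨r, hr, -, hc⟩ := bs.split' G _ d hS _ _ _ (idx t (one a₀) k) lP
    (sh.dc_tri _ _ _ lP.1) i1 (fun o => by rw [u1, u2, up]; exact lfl _) (t k)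
  rw [u1, u2, up, Function.update_eq_self] at hr
  have cr : Commute r (d (ap χ₁ t (one k)) (ap χ₃ t (one k)) (ap χq t (one k))) := by
    refine hc _ fun o' ho => ?_
    rw [u1, u2, up]
    refine bs.comm G _ d hS _ _ _ _ _ _ (lfl _) lQ ⟨?_, dj n12, dj (Ne.symm p1)⟩
      ⟨dj (Ne.symm n13), dj (Ne.symm n23), dj (Ne.symm p3')⟩ ⟨dj q1, dj q2, dj qp⟩
    refine sh.ap_disj χ₁ t _ _ _ k (by simp [one]) (by simpa using s3) ?_
    rw [Function.update_self]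
    exact Ne.symm ho
  have w : ∀ χ : Chart, cd χ + 2 = l → wt (fl χ t a).2 ≤ l := fun χ h => by
    rw [sh.fl_wt]; omega
  have t12p : Lw l (fl χ₁ t a) (fl χ₂ t a) (fl χp t a) := lfl t
  have t1p2 : Lw l (fl χ₁ t a) (fl χp t a) (fl χ₂ t a) := (sh.sy_lw l _ _ _ t12p).2
  have t3p2 : Lw l (fl χ₃ t a) (fl χp t a) (fl χ₂ t a) :=
    ⟨dcA sh t _ (by omega) (by omega) (Ne.symm p3') (Ne.symm n23) p2, w _ c3⟩
  have t312 : Lw l (fl χ₃ t a) (fl χ₁ t a) (fl χ₂ t a) :=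
    ⟨dcA sh t _ (by omega) (by omega) (Ne.symm n13) (Ne.symm n23) n12, w _ c3⟩
  have hy := hS.conj _ _ _ _ _ _ _ _ _ lQ t1p2 t3p2
    (Or.inl (sh.ap_mo χ₁ χ₃ t (one k) (fun s => decide (s ≠ a)) fun s hs => by
      rw [s6 s hs]; simpa using s3))
    (fix p1 p3' (Ne.symm qp)) (fix (Ne.symm n12) n23 (Ne.symm q2))
  rw [bs.inv' G _ d hS _ _ _ t12p] at hy
  have h := alg hr cr hy
  have h' : d (fl χ₁ t a) (fl χ₂ t a) (fl χp t a) * d (fl χ₃ t a) (fl χp t a) (fl χ₂ t a) =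
      d (fl χ₁ t a) (fl χ₂ t a) (fl χ₃ t a) := by
    rw [hS.tri _ _ _ _ t312 t12p t3p2, hS.cyc _ _ _ t312]
  rw [← h']
  refine h.symm.trans ?_
  -- second splitting
  obtain ⟨j1, v1⟩ := sh.ap_kd χ₁ t (one a₀) a s2
  obtain ⟨-, v2⟩ := sh.ap_kd χ₂ t (one a₀) a s2
  obtain ⟨-, vp⟩ := sh.ap_kd χp t (one a₀) a s2
  generalize hA : Function.update (one a₀) a true = A at v1 v2 vp s5 s7
  have hAa : A a = true := by rw [← hA, Function.update_self]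
  have lA : ∀ t', Lw l (ap χ₁ t' A) (ap χ₂ t' A) (ap χp t' A) := fun t' =>
    ⟨d12p _ _, by rw [sh.ap_wt, s7]; omega⟩
  have sp := hS.split _ _ _ _ lP j1 (fun o => by rw [v1, v2, vp]; exact lA _)
  simp only [v1, v2, vp] at sp
  have ek : ∀ (χ : Chart) o, ap χ (Function.update t a o) (one k) = ap χ t (one k) :=
    fun χ o => sh.ap_congr _ _ _ _ fun s hs => by
      rw [s6 s hs, Function.update_of_ne s3]
  have xd : ∀ o, x (gd χ₁ (Function.update t a o)) (gd χ₂ (Function.update t a o))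
      (gd χ₃ (Function.update t a o)) =
      ⁅d (ap χ₁ (Function.update t a o) A) (ap χ₂ (Function.update t a o) A)
        (ap χp (Function.update t a o) A),
        d (ap χ₁ t (one k)) (ap χ₃ t (one k)) (ap χq t (one k))⁆ := fun o => by
    have := hm.xd (Function.update t a o) χ₁ χ₂ χ₃ A (one k) (ap χp (Function.update t a o) A)
      (ap χq t (one k)) hV' s5 (lA _) (by rw [ek, ek]; exact lQ) p3' (Ne.symm qp) q2
    rw [ek, ek] at this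
    exact this
  have dd : ∀ (χ : Chart) o o' B, o ≠ o' → B a = true →
      Disj (ap χ (Function.update t a o) B) (ap χ (Function.update t a o') A) :=
    fun χ o o' B h hB => sh.ap_disj χ _ _ _ _ a hB hAa (by
      rw [Function.update_self, Function.update_self]; exact h)
  have cP : ∀ o o', o ≠ o' → Commute
      (d (ap χ₁ (Function.update t a o') A) (ap χ₂ (Function.update t a o') A)
        (ap χp (Function.update t a o') A))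
      (d (ap χ₁ (Function.update t a o) A) (ap χ₂ (Function.update t a o) A)
        (ap χp (Function.update t a o) A)) := fun o o' h =>
    bs.comm G _ d hS _ _ _ _ _ _ (lA _) (lA _) ⟨dd _ _ _ _ h hAa, dj n12, dj (Ne.symm p1)⟩
      ⟨dj (Ne.symm n12), dd _ _ _ _ h hAa, dj (Ne.symm p2)⟩ ⟨dj p1, dj p2, dd _ _ _ _ h hAa⟩
  have cX : ∀ o o', o ≠ o' → Commute
      (d (ap χ₁ (Function.update t a o') A) (ap χ₂ (Function.update t a o') A)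
        (ap χp (Function.update t a o') A))
      (x (gd χ₁ (Function.update t a o)) (gd χ₂ (Function.update t a o))
        (gd χ₃ (Function.update t a o))) := fun o o' h => by
    have hi : Hi l (gd χ₁ (Function.update t a o)) (gd χ₂ (Function.update t a o))
        (gd χ₃ (Function.update t a o)) :=
      ⟨dcA sh _ _ e12 e13 n12 n13 n23, by rw [(sh.gd_wt _ _).1]; omega⟩
    exact hm.m3 _ _ _ _ _ _ _ _ _ (lA _) hi hi
      ⟨Or.inr (Or.inr (Or.inr ⟨rfl, dd _ _ _ _ h rfl, dj n12, dj (Ne.symm p1)⟩)),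
        Or.inr (Or.inr (Or.inr ⟨rfl, dj (Ne.symm n12), dd _ _ _ _ h rfl, dj (Ne.symm p2)⟩)),
        fix (Ne.symm n13) (Ne.symm n23) (Ne.symm p3')⟩
  rw [sp, p3, xd, xd, xd]
  refine alg3 (cP _ _ (by simp)) (cP _ _ (by simp)) (cP _ _ (by simp)) ?_ ?_ ?_ <;>
    rw [← xd] <;> exact cX _ _ (by simp)

/-- the splitting relation in weight `l` -/
def R1 (d x : D3G G) (i : ℕ) (a b c : Box) : Prop :=
  d a b c = p3 fun o => x (kd a i o) (kd b i o) (kd c i o)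

theorem hiK (sh : ShapeF) {a b c : Box} {i : ℕ} (h : Dc a b c) (hw : wt a.2 = l)
    (hi : i < ar a.2) (o : Option Bool) : Hi l (kd a i o) (kd b i o) (kd c i o) :=
  ⟨⟨sh.ty_kd _ _ _ _ o h.1 hi hi, sh.ty_kd _ _ _ _ o h.2.1 hi hi, h.2.2.1, h.2.2.2.1,
    h.2.2.2.2⟩, by rw [← hw]; exact sh.kid_wt _ _ o hi⟩

theorem r1mv (sh : ShapeF) (hS : Sys (Lw l) d) (hm : HM l d x) {i : ℕ}
    {g₁ g₂ g₃ a b c a' b' c' : Box} (hg : Lw l g₁ g₂ g₃) (h : Dc a b c) (h' : Dc a' b' c')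
    (hw : wt a.2 = l) (hi : i < ar a.2) (mv : Mv3 g₁ g₂ g₃ a b c a' b' c')
    (r : R1 d x i a b c) : R1 d x i a' b' c' := by
  have tg := sh.dc_tri _ _ _ hg.1
  have ty := sh.mv_ty _ _ _ _ _ tg h.1.1 mv.1
  have hw' : wt a'.2 = l := by rw [← sh.ty_wt _ _ ty, hw]
  have hi' : i < ar a'.2 := by rw [← ty.2.2.1]; exact hi
  have e := hS.conj _ _ _ _ _ _ _ _ _ hg ⟨h, hw.le⟩ ⟨h', hw'.le⟩ mv.1 mv.2.1 mv.2.2
  have k := fun o => hm.m3 _ _ _ _ _ _ _ _ _ hg (hiK sh h hw hi o) (hiK sh h' hw' hi' o)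
    ⟨sh.mv_kd _ _ _ _ _ i o tg mv.1, sh.mv_kd _ _ _ _ _ i o tg mv.2.1,
      sh.mv_kd _ _ _ _ _ i o tg mv.2.2⟩
  unfold R1 p3 at r ⊢
  refine mul_right_cancel (b := d g₁ g₂ g₃) ?_
  rw [← e, r, ← mul_assoc, ← mul_assoc, k, mul_assoc _ (d _ _ _), k, ← mul_assoc,
    mul_assoc _ (d _ _ _), k, ← mul_assoc]

theorem r1 (sh : ShapeF) (bs : BasF) (hl : 3 ≤ l) (hS : Sys (Lw l) d) (hm : HM l d x) {i : ℕ}
    {a b c : Box} (h : Dc a b c) (hw : wt a.2 = l) (hi : i < ar a.2) : R1 d x i a b c := by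
  obtain ⟨t, s, hd, -, -, hty⟩ := sh.lab_ex l a i none h.1.1 hw hi
  obtain ⟨tb, tc, nab, nac, nbc⟩ := h
  obtain ⟨p, hp⟩ := sh.fresh [a.1, b.1, c.1] (by simp)
  obtain ⟨q, hq⟩ := sh.fresh [a.1, b.1, c.1, p] (by simp)
  obtain ⟨r, hr⟩ := sh.fresh [a.1, b.1, c.1, p, q] (by simp)
  obtain ⟨z, hz⟩ := sh.fresh [a.1, b.1, c.1, p, q, r] (by simp)
  simp only [List.mem_cons, List.not_mem_nil, or_false, not_or] at hp hq hr hz
  obtain ⟨p1, p2, p3'⟩ := hp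
  obtain ⟨q1, q2, q3, qp⟩ := hq
  obtain ⟨r1, r2, r3, rp, rq⟩ := hr
  obtain ⟨z1, z2, z3, zp, zq, zr⟩ := hz
  obtain ⟨χ₁, rfl, c1⟩ := sh.chart_ex l p (by omega)
  obtain ⟨χ₂, rfl, c2⟩ := sh.chart_ex l q (by omega)
  obtain ⟨χ₃, rfl, c3⟩ := sh.chart_ex l r (by omega)
  have b0 : R1 d x i (fl χ₁ t s) (fl χ₂ t s) (fl χ₃ t s) := by
    unfold R1
    rw [r1c sh bs hS hm t s χ₁ χ₂ χ₃ ⟨c1, c2, c3, Ne.symm qp, Ne.symm rp, Ne.symm rq⟩, ← hd]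
    simp only [(sh.gd_kd _ t s).2.2]
  have y1 := hty _ c1
  have y2 := hty _ c2
  have y3 := hty _ c3
  have T := sh.ty_trans
  have S := sh.ty_symm
  have tz : Ty a (z, a.2) := ⟨tb.1, tb.1, rfl, rfl⟩
  have w : ∀ u, Ty u a → wt u.2 = l := fun u hu => by rw [sh.ty_wt _ _ hu, hw]
  have b1 : R1 d x i a (fl χ₂ t s) (fl χ₃ t s) :=
    r1mv sh hS hm (g₃ := (z, a.2)) ⟨⟨y1, T _ _ _ y1 tz, p1, Ne.symm zp, Ne.symm z1⟩, (w _ y1).le⟩
      ⟨T _ _ _ y1 (S _ _ y2), T _ _ _ y1 (S _ _ y3), Ne.symm qp, Ne.symm rp, Ne.symm rq⟩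
      ⟨S _ _ y2, S _ _ y3, Ne.symm q1, Ne.symm r1, Ne.symm rq⟩ (w _ y1)
      (by rw [y1.2.2.1]; exact hi)
      ⟨Or.inl (sh.mo_self _ _ y1.2.2.1), fix qp q1 (Ne.symm zq), fix rp r1 (Ne.symm zr)⟩ b0
  have y2b := T _ _ _ y2 tb
  have y3c := T _ _ _ y3 tc
  have b2 : R1 d x i a b (fl χ₃ t s) :=
    r1mv sh hS hm (g₃ := (z, a.2)) ⟨⟨y2b, T _ _ _ y2 tz, q2, Ne.symm zq, Ne.symm z2⟩, (w _ y2).le⟩
      ⟨S _ _ y2, S _ _ y3, Ne.symm q1, Ne.symm r1, Ne.symm rq⟩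
      ⟨tb, S _ _ y3, nab, Ne.symm r1, Ne.symm r2⟩ hw hi
      ⟨fix (Ne.symm q1) nab (Ne.symm z1), Or.inl (sh.mo_self _ _ y2b.2.2.1),
        fix rq r2 (Ne.symm zr)⟩ b1
  exact r1mv sh hS hm (g₃ := (z, a.2))
    ⟨⟨y3c, T _ _ _ y3 tz, r3, Ne.symm zr, Ne.symm z3⟩, (w _ y3).le⟩
    ⟨tb, S _ _ y3, nab, Ne.symm r1, Ne.symm r2⟩ ⟨tb, tc, nab, nac, nbc⟩ hw hi
    ⟨fix (Ne.symm r1) nac (Ne.symm z1), fix (Ne.symm r2) nbc (Ne.symm z2),
      Or.inl (sh.mo_self _ _ y3c.2.2.1)⟩ b2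

theorem still (sh : ShapeF) {g₁ g₂ g₃ a a' : Box} (hg : Hi l g₁ g₂ g₃) (hw : wt a.2 ≤ l)
    (mv : Mv g₁ g₂ g₃ a a') : a' = a ∧ D3 a g₁ g₂ g₃ := by
  obtain ⟨⟨t2, t3, -⟩, w1⟩ := hg
  have w2 := sh.ty_wt _ _ t2
  have w3 := sh.ty_wt _ _ t3
  rcases mv with h | h | h | h
  · have := (sh.mo_wt _ _ _ _ t2.2.2.1 h).1
    omega
  · have := (sh.mo_wt _ _ _ _ (t2.2.2.1.symm.trans t3.2.2.1) h).1
    omega
  · have := (sh.mo_wt _ _ _ _ t3.2.2.1.symm h).1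
    omega
  · exact h

end Step3x

open Step3x in
theorem step3_main : SpStep := by
  intro sh bs G _ l d x hl hS hm hX
  have cs : ∀ {a b c}, Lw (l + 1) a b c → Lw l a b c ∨ Hi l a b c := fun h => by
    rcases Nat.lt_or_ge l (wt _) with h' | h'
    · exact Or.inr ⟨h.1, le_antisymm h.2 h'⟩
    · exact Or.inl ⟨h.1, h'⟩
  have lo : ∀ {a b c}, Lw l a b c → (if wt a.2 ≤ l then d a b c else x a b c) = d a b c :=
    fun h => if_pos h.2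
  have hi : ∀ {a b c}, Hi l a b c → (if wt a.2 ≤ l then d a b c else x a b c) = x a b c :=
    fun h => if_neg (by have := h.2; omega)
  refine ⟨fun a b c h => ?_, fun a b c h => ?_, fun a b e f h1 h2 h3 => ?_,
    fun a b c i h hi' hk => ?_, fun g₁ g₂ g₃ a b c a' b' c' hg h h' m1 m2 m3 => ?_⟩
  · rcases cs h with h | h
    · rw [lo h, lo (sh.sy_lw l _ _ _ h).1, hS.cyc _ _ _ h]
    · rw [hi h, hi (sh.sy_hi l _ _ _ h).1, hX.cyc _ _ _ h]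
  · rcases cs h with h | h
    · rw [lo h, lo (sh.sy_lw l _ _ _ h).2, hS.inv _ _ _ h]
    · rw [hi h, hi (sh.sy_hi l _ _ _ h).2, hX.inv _ _ _ h]
  · have w := sh.ty_wt _ _ h1.1.1
    rcases cs h1 with h | h
    · have h2' : Lw l b e f := ⟨h2.1, w ▸ h.2⟩
      have h3' : Lw l a f e := ⟨h3.1, h.2⟩
      rw [lo h, lo h2', lo h3', hS.tri _ _ _ _ h h2' h3']
    · have h2' : Hi l b e f := ⟨h2.1, w ▸ h.2⟩
      have h3' : Hi l a f e := ⟨h3.1, h.2⟩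
      rw [hi h, hi h2', hi h3', hX.tri _ _ _ _ h h2' h3']
  · have w : ∀ o, wt (kd a i o).2 = wt a.2 + 1 := fun o => sh.kid_wt _ _ o hi'
    have w0 : wt a.2 ≤ l := by have := (hk none).2; rw [w] at this; omega
    have h0 : Lw l a b c := ⟨h.1, w0⟩
    rcases Nat.lt_or_ge (wt a.2) l with h' | h'
    · have k : ∀ o, Lw l (kd a i o) (kd b i o) (kd c i o) := fun o =>
        ⟨(hk o).1, by rw [w]; omega⟩
      rw [lo h0, lo (k _), lo (k _), lo (k _)]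
      exact hS.split _ _ _ _ h0 hi' k
    · have k := hiK sh h.1 (le_antisymm w0 h') hi'
      rw [lo h0, hi (k _), hi (k _), hi (k _)]
      exact r1 sh bs hl hS hm h.1 (le_antisymm w0 h') hi'
  · have w := sh.ty_wt _ _ (sh.mv_ty _ _ _ _ _ (sh.dc_tri _ _ _ hg.1) h.1.1.1 m1)
    rcases cs h with k | k
    · have k' : Lw l a' b' c' := ⟨h'.1, w ▸ k.2⟩
      rw [lo k, lo k']
      rcases cs hg with g | g
      · rw [lo g]
        exact hS.conj _ _ _ _ _ _ _ _ _ g k k' m1 m2 m3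
      · obtain ⟨rfl, a1, a2, a3⟩ := still sh g k.2 m1
        obtain ⟨rfl, b1, b2, b3⟩ := still sh g (sh.ty_wt _ _ k.1.1 ▸ k.2) m2
        obtain ⟨rfl, c1, c2, c3⟩ := still sh g (sh.ty_wt _ _ k.1.2.1 ▸ k.2) m3
        have S := sh.disj_symm
        rw [hi g]
        exact (hm.m3 _ _ _ _ _ _ _ _ _ k g g
          ⟨Or.inr (Or.inr (Or.inr ⟨rfl, S _ _ a1, S _ _ b1, S _ _ c1⟩)),
            Or.inr (Or.inr (Or.inr ⟨rfl, S _ _ a2, S _ _ b2, S _ _ c2⟩)),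
            Or.inr (Or.inr (Or.inr ⟨rfl, S _ _ a3, S _ _ b3, S _ _ c3⟩))⟩).symm
    · have k' : Hi l a' b' c' := ⟨h'.1, w ▸ k.2⟩
      rw [hi k, hi k']
      rcases cs hg with g | g
      · rw [lo g]
        exact hm.m3 _ _ _ _ _ _ _ _ _ g k k' ⟨m1, m2, m3⟩
      · rw [hi g]
        exact hX.conj _ _ _ _ _ _ _ _ _ g k k' m1 m2 m3

end Pool.Agent.MP_89edc2_al.R3
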