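import Pool.Agent.MP_89edc2_al.R3.Spec2

/-!
# Generation by the reference partition, the points and the templates
-/

namespace Pool.Agent.MP_89edc2_al.R3

namespace Topx

variable {G : Type} [Group G] {d : D3G G} {K : ℕ} {L : Subgroup G}

theorem cj (S : Sys Tri d) {g₁ g₂ g₃ a b c a' b' c' : Box} (tg : Tri g₁ g₂ g₃) (t : Tri a b c)
    (t' : Tri a' b' c') (m1 : Mv g₁ g₂ g₃ a a') (m2 : Mv g₁ g₂ g₃ b b') (m3 : Mv g₁ g₂ g₃ c c')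
    (hg : d g₁ g₂ g₃ ∈ L) : d a b c ∈ L ↔ d a' b' c' ∈ L := by
  rw [← L.mul_mem_cancel_left hg, S.conj _ _ _ _ _ _ _ _ _ tg t t' m1 m2 m3,
    L.mul_mem_cancel_right hg]

/-- three sub-boxes of one type in different boxes of the reference partition -/
structure Ok3 (K : ℕ) (P₁ : Box) (u₁ : Shape) (P₂ : Box) (u₂ : Shape) (P₃ : Box) (u₃ : Shape) :
    Prop where
  p1 : Pi K P₁
  p2 : Pi K P₂
  p3 : Pi K P₃
  n12 : P₁ ≠ P₂
  n13 : P₁ ≠ P₃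
  n23 : P₂ ≠ P₃
  l1 : u₁.length = ar P₁.2
  l2 : u₂.length = ar P₂.2
  l3 : u₃.length = ar P₃.2
  a2 : ar u₁ = ar u₂
  a3 : ar u₁ = ar u₃
  d2 : dg u₁ = dg u₂
  d3 : dg u₁ = dg u₃

theorem pty (F : ShapeF) {P Q : Box} {u v : Shape} (p : Pi K P) (q : Pi K Q)
    (l : u.length = ar P.2) (l' : v.length = ar Q.2) (a : ar u = ar v) (e : dg u = dg v) :
    Ty (sb P u) (sb Q v) :=
  ⟨(F.comp_len _ _ l).trans p.1, (F.comp_len _ _ l').trans q.1,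
    (F.comp_ar _ _ l).trans (a.trans (F.comp_ar _ _ l').symm), by
      change dg (comp P.2 u) = dg (comp Q.2 v)
      rw [F.comp_dg _ _ l, F.comp_dg _ _ l', p.2.2, q.2.2, e]⟩

theorem dj1 (F : ShapeF) {P Q : Box} {u : Shape} (p : Pi K P) (q : Pi K Q) (n : P ≠ Q)
    (l : u.length = ar P.2) : Disj (sb P u) Q :=
  F.disj_sb _ _ _ l ((F.pi_pd K).2 P p Q q n)

theorem dj2 (F : ShapeF) {P Q : Box} {u v : Shape} (p : Pi K P) (q : Pi K Q) (n : P ≠ Q)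
    (l : u.length = ar P.2) (l' : v.length = ar Q.2) : Disj (sb P u) (sb Q v) :=
  F.disj_sb _ _ _ l (F.disj_symm _ _ (dj1 F q p n.symm l'))

theorem Ok3.tri (F : ShapeF) {P₁ P₂ P₃ : Box} {u₁ u₂ u₃ : Shape} (o : Ok3 K P₁ u₁ P₂ u₂ P₃ u₃) :
    Tri (sb P₁ u₁) (sb P₂ u₂) (sb P₃ u₃) :=
  ⟨pty F o.p1 o.p2 o.l1 o.l2 o.a2 o.d2, pty F o.p1 o.p3 o.l1 o.l3 o.a3 o.d3,
    dj2 F o.p1 o.p2 o.n12 o.l1 o.l2, dj2 F o.p1 o.p3 o.n13 o.l1 o.l3,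
    dj2 F o.p2 o.p3 o.n23 o.l2 o.l3⟩

/-- move the first slot and rotate -/
theorem mv (F : ShapeF) (S : Sys Tri d) (hJ : HJ d {P | Pi K P} ≤ L) {P₁ P₂ P₃ R : Box}
    {u₁ u₂ u₃ : Shape} (o : Ok3 K P₁ u₁ P₂ u₂ P₃ u₃ ∧ d (sb P₁ u₁) (sb P₂ u₂) (sb P₃ u₃) ∈ L)
    (r : Pi K R) (l : u₁.length = ar R.2) (n2 : R ≠ P₂) (n3 : R ≠ P₃) :
    Ok3 K P₂ u₂ P₃ u₃ R u₁ ∧ d (sb P₂ u₂) (sb P₃ u₃) (sb R u₁) ∈ L := by
  obtain ⟨o, h⟩ := o
  have o' : Ok3 K R u₁ P₂ u₂ P₃ u₃ := { o with p1 := r, n12 := n2, n13 := n3, l1 := l }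
  refine ⟨⟨o.p2, o.p3, r, o.n23, n2.symm, n3.symm, o.l2, o.l3, l, o.a2.symm.trans o.a3, o.a2.symm,
    o.d2.symm.trans o.d3, o.d2.symm⟩, S.cyc _ _ _ (o'.tri F) ▸ ?_⟩
  by_cases e : P₁ = R
  · exact e ▸ h
  obtain ⟨i, hi⟩ := F.fresh [P₁.1, R.1, P₂.1, P₃.1] (by simp)
  simp only [List.mem_cons, List.not_mem_nil, or_false, not_or] at hi
  have g : Pi K (i, P₁.2) := o.p1
  have t : Tri P₁ R (i, P₁.2) := ⟨⟨o.p1.1, r.1, o.l1.symm.trans l, o.p1.2.2.trans r.2.2.symm⟩,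
    ⟨o.p1.1, o.p1.1, rfl, rfl⟩, (F.pi_pd K).2 _ o.p1 _ r e, Or.inl (Ne.symm hi.1),
    Or.inl (Ne.symm hi.2.1)⟩
  refine (cj S t (o.tri F) (o'.tri F) (Or.inl ⟨u₁, o.l1, rfl, rfl⟩) ?_ ?_
    (hJ (Subgroup.subset_closure ⟨_, o.p1, _, r, _, g, t, rfl⟩))).1 h
  · exact Or.inr (Or.inr (Or.inr ⟨rfl, dj1 F o.p2 o.p1 o.n12.symm o.l2, dj1 F o.p2 r n2.symm o.l2,
      Or.inl (Ne.symm hi.2.2.1)⟩))
  · exact Or.inr (Or.inr (Or.inr ⟨rfl, dj1 F o.p3 o.p1 o.n13.symm o.l3, dj1 F o.p3 r n3.symm o.l3,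
      Or.inl (Ne.symm hi.2.2.2)⟩))

/-- the templates in every position -/
theorem all (F : ShapeF) (S : Sys Tri d) (hJ : HJ d {P | Pi K P} ≤ L) {P₁ P₂ P₃ R₁ R₂ R₃ : Box}
    {u₁ u₂ u₃ : Shape} (o : Ok3 K P₁ u₁ P₂ u₂ P₃ u₃) (h : d (sb P₁ u₁) (sb P₂ u₂) (sb P₃ u₃) ∈ L)
    (r : Ok3 K R₁ u₁ R₂ u₂ R₃ u₃) : d (sb R₁ u₁) (sb R₂ u₂) (sb R₃ u₃) ∈ L := by
  obtain ⟨i, hi⟩ := F.fresh [P₂.1, P₃.1] (by simp)
  obtain ⟨j, hj⟩ := F.fresh [i, P₃.1, R₁.1] (by simp)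
  obtain ⟨k, hk⟩ := F.fresh [i, j, R₁.1, R₂.1] (by simp)
  simp only [List.mem_cons, List.not_mem_nil, or_false, not_or] at hi hj hk
  have ne : ∀ {a b : Box}, a.1 ≠ b.1 → a ≠ b := fun h e => h (congrArg _ e)
  have s1 := mv F S hJ (R := (i, P₁.2)) ⟨o, h⟩ o.p1 o.l1 (ne hi.1) (ne hi.2)
  have s2 := mv F S hJ (R := (j, P₂.2)) s1 o.p2 o.l2 (ne hj.2.1) (ne hj.1)
  have s3 := mv F S hJ (R := (k, P₃.2)) s2 o.p3 o.l3 (ne hk.1) (ne hk.2.1)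
  have s4 := mv F S hJ s3 r.p1 r.l1 (ne (Ne.symm hj.2.2)) (ne (Ne.symm hk.2.2.1))
  have s5 := mv F S hJ s4 r.p2 r.l2 (ne (Ne.symm hk.2.2.2)) r.n12.symm
  exact (mv F S hJ s5 r.p3 r.l3 r.n13.symm r.n23.symm).2

/-- a shape of arity three in the reference partition -/
def sh (K : ℕ) : Shape := [(List.replicate K false, false), ([], false), ([], false)]

/-- the embedding of all copies -/
def ph (K : ℕ) (b : Box) : Box := sb (b.1, sh K) b.2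

theorem sh_ar : ar (sh K) = 3 := rfl

theorem sh_pi (k : 1 ≤ K) (i : Fin 40) : Pi K (i, sh K) :=
  ⟨rfl, ⟨fun e => by
    have := congrArg List.length e
    simp only [List.length_replicate, List.length_nil] at this
    omega, rfl⟩, by simp [sh, dg]⟩

theorem ph_disj (F : ShapeF) {a b : Box} (la : a.2.length = 3) (lb : b.2.length = 3)
    (h : Disj a b) : Disj (ph K a) (ph K b) := by
  by_cases e : a.1 = b.1
  · have e1 : ∀ x : Box, x.2.length = 3 → sb (root x.1) x.2 = x := fun x hx =>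
      Prod.ext rfl (by
        have k := F.id_comp x.2
        rw [hx] at k
        exact k)
    have r : ar (root a.1).2 = 3 := F.id_ar 3
    have k := F.disj_par (root a.1) (a.1, sh K) a.2 b.2 r (la.trans r.symm) (lb.trans r.symm)
      (by rw [e1 a la, e, e1 b lb]; exact h)
    rw [ph, ph, ← e]
    exact k
  · exact Or.inl e

theorem ph_ty (F : ShapeF) (k : 1 ≤ K) {a b : Box} (h : Ty a b) : Ty (ph K a) (ph K b) :=
  pty F (sh_pi k _) (sh_pi k _) h.1 h.2.1 h.2.2.1 h.2.2.2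

theorem ph_tri (F : ShapeF) (k : 1 ≤ K) {a b c : Box} (h : Tri a b c) :
    Tri (ph K a) (ph K b) (ph K c) :=
  ⟨ph_ty F k h.1, ph_ty F k h.2.1, ph_disj F h.1.1 h.1.2.1 h.2.2.1,
    ph_disj F h.1.1 h.2.1.2.1 h.2.2.2.1, ph_disj F h.1.2.1 h.2.1.2.1 h.2.2.2.2⟩

theorem ph_sb (F : ShapeF) {a : Box} {u : Shape} (la : a.2.length = 3) (l : u.length = ar a.2) :
    ph K (sb a u) = sb (ph K a) u := Prod.ext rfl (F.comp_assoc _ _ _ la l).symm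

theorem ph_mo (F : ShapeF) {g g' a a' : Box} (t : Ty g g') (h : Mo g g' a a') :
    Mo (ph K g) (ph K g') (ph K a) (ph K a') := by
  obtain ⟨u, l, rfl, rfl⟩ := h
  exact ⟨u, l.trans (F.comp_ar (sh K) _ t.1).symm, ph_sb F t.1 l,
    ph_sb F t.2.1 (l.trans t.2.2.1)⟩

theorem ph_mv (F : ShapeF) {g₁ g₂ g₃ a a' : Box} (t : Tri g₁ g₂ g₃) (la : a.2.length = 3)
    (h : Mv g₁ g₂ g₃ a a') : Mv (ph K g₁) (ph K g₂) (ph K g₃) (ph K a) (ph K a') := by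
  rcases h with h | h | h | ⟨rfl, h1, h2, h3⟩
  · exact Or.inl (ph_mo F t.1 h)
  · exact Or.inr (Or.inl (ph_mo F (F.ty_trans _ _ _ (F.ty_symm _ _ t.1) t.2.1) h))
  · exact Or.inr (Or.inr (Or.inl (ph_mo F (F.ty_symm _ _ t.2.1) h)))
  · exact Or.inr (Or.inr (Or.inr ⟨rfl, ph_disj F la t.1.1 h1, ph_disj F la t.1.2.1 h2,
      ph_disj F la t.2.1.2.1 h3⟩))

theorem ph_sys (F : ShapeF) (k : 1 ≤ K) (S : Sys Tri d) :
    Sys Tri fun a b c => d (ph K a) (ph K b) (ph K c) where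
  cyc _ _ _ h := S.cyc _ _ _ (ph_tri F k h)
  inv _ _ _ h := S.inv _ _ _ (ph_tri F k h)
  tri _ _ _ _ h1 h2 h3 := S.tri _ _ _ _ (ph_tri F k h1) (ph_tri F k h2) (ph_tri F k h3)
  split a b c i h hi _ := by
    have e : ∀ (x : Box) o, x.2.length = 3 → ph K (kd x i o) = kd (ph K x) i o := fun x o hx =>
      Prod.ext rfl (F.comp_kid (sh K) _ _ _ hx)
    have hi' : i < ar (ph K a).2 := hi.trans_eq (F.comp_ar (sh K) _ h.1.1).symm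
    simp only [e a _ h.1.1, e b _ h.1.2.1, e c _ h.2.1.2.1]
    exact S.split _ _ _ i (ph_tri F k h) hi' fun o => F.tri_kd _ _ _ _ _ (ph_tri F k h) hi'
  conj _ _ _ _ _ _ _ _ _ g h h' m1 m2 m3 := S.conj _ _ _ _ _ _ _ _ _ (ph_tri F k g) (ph_tri F k h)
    (ph_tri F k h') (ph_mv F g h.1.1 m1) (ph_mv F g h.1.2.1 m2) (ph_mv F g h.2.1.2.1 m3)

/-- one deep slot and two embedded slots -/
theorem slot (F : ShapeF) (k : 1 ≤ K) (S : Sys Tri d)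
    (hT : ∀ P₁ P₂ P₃ u₁ u₂ u₃, Tp u₁ u₂ u₃ → Ok3 K P₁ u₁ P₂ u₂ P₃ u₃ →
      d (sb P₁ u₁) (sb P₂ u₂) (sb P₃ u₃) ∈ L)
    (hp : ∀ a b c, Tri a b c → d (ph K a) (ph K b) (ph K c) ∈ L) {z : Box} {σ : Shape}
    {i i' : Fin 40} (lz : z.2.length = 3) (dz : Deep K z.2) (ls : σ.length = 3)
    (as : ar z.2 = ar σ) (ds : dg z.2 = K + dg σ) (n : i ≠ i') (n1 : z.1 ≠ i) (n2 : z.1 ≠ i') :
    Tri z (ph K (i, σ)) (ph K (i', σ)) ∧ d z (ph K (i, σ)) (ph K (i', σ)) ∈ L := by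
  obtain ⟨P, u, p, l, rfl⟩ := F.pi_cover K z k lz dz (by omega)
  have au : ar u = ar σ := (F.comp_ar _ _ l).symm.trans as
  have du : dg u = dg σ := by
    have e : dg (comp P.2 u) = K + dg σ := ds
    rw [F.comp_dg _ _ l, p.2.2] at e
    omega
  have t : Tri (sb P u) (ph K (i, σ)) (ph K (i', σ)) :=
    ⟨pty F p (sh_pi k _) l ls au du, pty F p (sh_pi k _) l ls au du, Or.inl n1, Or.inl n2,
      Or.inl n⟩
  refine ⟨t, ?_⟩
  have c1 : 1 ≤ ar P.2 := (F.pi_rb K P p).2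
  have c3 : ar P.2 ≤ 3 := (F.ar_le _).trans_eq p.1
  obtain ⟨v, lv, av, dv⟩ := F.ty_ex 3 (ar P.2) 0 c3 (by omega)
  obtain ⟨j, hj⟩ := F.fresh [P.1, i, i'] (by simp)
  obtain ⟨j', hj'⟩ := F.fresh [P.1, i, i', j] (by simp)
  simp only [List.mem_cons, List.not_mem_nil, or_false, not_or] at hj hj'
  have ne : ∀ {a b : Box}, a.1 ≠ b.1 → a ≠ b := fun h e => h (congrArg _ e)
  have o : Ok3 K P (idS (ar P.2)) (j, sh K) v (j', sh K) v :=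
    ⟨p, sh_pi k _, sh_pi k _, ne (Ne.symm hj.1), ne (Ne.symm hj'.1), ne (Ne.symm hj'.2.2.2),
      F.id_len _, lv, lv, (F.id_ar _).trans av.symm, (F.id_ar _).trans av.symm,
      (F.id_dg _).trans dv.symm, (F.id_dg _).trans dv.symm⟩
  have wv := F.wt_ar v
  have hg := hT _ _ _ _ _ _ ⟨by
    simp only [List.mem_cons, List.not_mem_nil, or_false, or_self]
    rintro x (rfl | rfl)
    · rw [F.id_len, F.id_wt]
      omega
    · omega, o.a2, o.a3, o.d2, o.d3⟩ o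
  have tg := o.tri F
  have e : sb P (idS (ar P.2)) = P := Prod.ext rfl (F.comp_id _)
  rw [e] at hg tg
  have lu : u.length = ar v := l.trans av.symm
  have ty : ∀ x : Fin 40, Ty (j, comp v u) (x, σ) := fun _ =>
    ⟨(F.comp_len _ _ lu).trans lv, ls, (F.comp_ar _ _ lu).trans au, by
      change dg (comp v u) = dg σ
      rw [F.comp_dg _ _ lu, dv, du, zero_add]⟩
  have t0 : Tri (j, comp v u) (i, σ) (i', σ) :=
    ⟨ty i, ty i', Or.inl hj.2.1, Or.inl hj.2.2, Or.inl n⟩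
  refine (cj S tg t (ph_tri F k t0) (Or.inl ⟨u, l, rfl, ph_sb F (a := (j, v)) lv lu⟩) ?_ ?_ hg).2
    (hp _ _ _ t0)
  · exact Or.inr (Or.inr (Or.inr ⟨rfl, Or.inl (Ne.symm n1), Or.inl (Ne.symm hj.2.1),
      Or.inl (Ne.symm hj'.2.1)⟩))
  · exact Or.inr (Or.inr (Or.inr ⟨rfl, Or.inl (Ne.symm n2), Or.inl (Ne.symm hj.2.2),
      Or.inl (Ne.symm hj'.2.2.1)⟩))

end Topx

open Topx in
theorem top_main : SpTop := by
  intro F B gen G _ d K L U k hF hJ h0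
  have S := U.full
  have hT : ∀ P₁ P₂ P₃ u₁ u₂ u₃, Tp u₁ u₂ u₃ → Ok3 K P₁ u₁ P₂ u₂ P₃ u₃ →
      d (sb P₁ u₁) (sb P₂ u₂) (sb P₃ u₃) ∈ L := fun _ _ _ u₁ u₂ u₃ t o => by
    obtain ⟨P₁, P₂, P₃, p1, p2, p3, n1, n2, n3, l1, l2, l3, h⟩ := h0 u₁ u₂ u₃ t
    exact all F S hJ ⟨p1, p2, p3, n1, n2, n3, l1.symm, l2.symm, l3.symm, o.a2, o.a3, o.d2, o.d3⟩
      h o
  have ne : ∀ {a b : Box}, a.1 ≠ b.1 → a ≠ b := fun h e => h (congrArg _ e)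
  have hp : ∀ a b c, Tri a b c → d (ph K a) (ph K b) (ph K c) ∈ L :=
    gen G _ L (ph_sys F k S) fun a b c ⟨⟨t1, t2, n1, n2, n3⟩, w⟩ => by
      have w1 := F.ty_wt _ _ t1
      have w2 := F.ty_wt _ _ t2
      have l1 := t1.1
      have l2 := t1.2.1
      have l3 := t2.2.1
      refine hT _ _ _ _ _ _ ⟨?_, t1.2.2.1, t2.2.2.1, t1.2.2.2, t2.2.2.2⟩
        ⟨sh_pi k _, sh_pi k _, sh_pi k _, ne n1, ne n2, ne n3, l1, l2, l3, t1.2.2.1, t2.2.2.1,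
          t1.2.2.2, t2.2.2.2⟩
      simp only [List.mem_cons, List.not_mem_nil, or_false]
      rintro x (rfl | rfl | rfl) <;> omega
  have main := F.deep3 K (fun a b c => Tri a b c → d a b c ∈ L)
    (fun a b c t1 t2 d1 d2 d3 t => ?_) fun a b c i _ _ hi ih t => ?_
  · exact U.gen L fun a b c h => main a b c h.1.1 h.1.2.1 (F.dc_tri _ _ _ h.1)
  · by_cases hk : K ≤ dg a.2
    · obtain ⟨σ, ls, as, ds⟩ := F.ty_ex 3 (ar a.2) (dg a.2 - K) ((F.ar_le _).trans_eq t1.1)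
        (by omega)
      obtain ⟨i, hi⟩ := F.fresh [a.1, b.1, c.1] (by simp)
      obtain ⟨j, hj⟩ := F.fresh [a.1, b.1, c.1, i] (by simp)
      simp only [List.mem_cons, List.not_mem_nil, or_false, not_or] at hi hj
      have e1 := t1.2.2.2
      have e2 := t2.2.2.2
      have ka := slot F k S hT hp t1.1 d1 ls as.symm (by omega) (Ne.symm hj.2.2.2) (Ne.symm hi.1)
        (Ne.symm hj.1)
      have kb := slot F k S hT hp t1.2.1 d2 ls (t1.2.2.1.symm.trans as.symm) (by omega)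
        (Ne.symm hj.2.2.2) (Ne.symm hi.2.1) (Ne.symm hj.2.1)
      have kc := slot F k S hT hp t2.2.1 d3 ls (t2.2.2.1.symm.trans as.symm) (by omega)
        (Ne.symm hj.2.2.2) (Ne.symm hi.2.2) (Ne.symm hj.2.2.1)
      rw [B.carm G Tri d S F.sy_tri a b c _ _ t
        ⟨F.ty_trans _ _ _ (F.ty_symm _ _ t1) t2, kb.1.1, t.2.2.2.2, kb.1.2.2.1, kc.1.2.2.1⟩
        ⟨t2, ka.1.1, t.2.2.2.1, ka.1.2.2.1, kc.1.2.2.1⟩ ka.1 kb.1 kc.1,
        B.inv' G Tri d S _ _ _ kb.1, B.inv' G Tri d S _ _ _ kc.1]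
      exact L.mul_mem (L.mul_mem (L.mul_mem kc.2 (L.inv_mem kb.2)) ka.2) (L.inv_mem kc.2)
    · refine hF (Subgroup.subset_closure ⟨a, b, c, t, ?_, by omega, rfl⟩)
      by_contra h
      exact hk (F.deep_dg K _ d1 (by omega))
  · have tk := fun o => F.tri_kd _ _ _ i o t hi
    rw [S.split a b c i t hi tk]
    exact L.mul_mem (L.mul_mem (ih _ (tk _)) (ih _ (tk _))) (ih _ (tk _))

end Pool.Agent.MP_89edc2_al.R3
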