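import Pool.Agent.MP_89edc2_al.R3.Spec

/-!
# Combinatorics of trees of subdivisions
-/

namespace Pool.Agent.MP_89edc2_al.R3

namespace Trcx

theorem ok_mono (M M' : ℕ) (hM : M ≤ M') (T : Tr) : ∀ ρ, Ok M ρ T → Ok M' ρ T := by
  induction T with
  | leaf => intro ρ _; trivial
  | node i T ih =>
    rintro ρ ⟨h1, h2, h3⟩
    exact ⟨h1, h2.trans hM, fun o => ih o _ (h3 o)⟩

theorem ok_ty (S : ShA) (M : ℕ) (T : Tr) : ∀ ρ ρ', Ty ρ ρ' → Ok M ρ T → Ok M ρ' T := by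
  induction T with
  | leaf => intro ρ ρ' _ _; trivial
  | node i T ih =>
    rintro ρ ρ' ht ⟨h1, h2, h3⟩
    have h0 : 0 < ar ρ.2 := by omega
    refine ⟨ht.2.2.1 ▸ h1, ht.2.2.2 ▸ h2, fun o => ih o _ _ (S.ty_kd ρ ρ' 0 0 o ht h0 h0) (h3 o)⟩

theorem kd_sq (S : ShA) (b : Box) (i j : ℕ) (o o' : Option Bool) (hi : i < ar b.2)
    (hj : j < ar b.2) (hij : i ≠ j) :
    kd (kd b i o) (adj i o j) o' = kd (kd b j o') (adj j o' i) o := by
  unfold kd
  rw [S.kid_sq b.2 i j o o' hi hj hij]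

theorem ty_refl (ρ : Box) (h : ρ.2.length = 3) : Ty ρ ρ := ⟨h, h, rfl, rfl⟩

theorem ty_two (S : ShA) (ρ : Box) (i j : ℕ) (o o' : Option Bool) (h : ρ.2.length = 3)
    (hi : i < ar ρ.2) (hj : j < ar ρ.2) (hij : i ≠ j) :
    adj i o j < ar (kd ρ 0 o).2 ∧
      Ty (kd (kd ρ 0 o) 0 o') (kd (kd ρ i o) (adj i o j) o') := by
  have h0 : 0 < ar ρ.2 := by omega
  have t1 : Ty (kd ρ 0 o) (kd ρ i o) := S.ty_kd ρ ρ 0 i o (ty_refl ρ h) h0 hi
  have a1 : adj i o j < ar (kd ρ i o).2 := S.adj_lt ρ.2 i j o hi hj hij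
  have a2 : adj i o j < ar (kd ρ 0 o).2 := t1.2.2.1 ▸ a1
  exact ⟨a2, S.ty_kd _ _ 0 (adj i o j) o' t1 (by omega) a2⟩

theorem flip_ok (S : ShA) (M : ℕ) (ρ : Box) (i j : ℕ) (U : Option Bool → Option Bool → Tr)
    (h : ρ.2.length = 3) (hj : j < ar ρ.2) (hij : i ≠ j) (hk : Ok M ρ (fT i j U)) :
    Ok M ρ (fT j i fun o' o => U o o') := by
  obtain ⟨hi, h2, h3⟩ := hk
  refine ⟨hj, h2, fun o' => ⟨(ty_two S ρ j i o' none h hj hi hij.symm).1, (h3 o').2.1, ?_⟩⟩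
  intro o
  have t1 := (ty_two S ρ i j o o' h hi hj hij).2
  have t2 := (ty_two S ρ j i o' o h hj hi hij.symm).2
  rw [kd_sq S ρ i j o o' hi hj hij] at t1
  exact ok_ty S M _ _ _ (S.ty_trans _ _ _ t1 (S.ty_symm _ _ t2)) ((h3 o).2.2 o')

theorem step_ar (S : ShA) (σ : Shape) (j : ℕ) (o : Option Bool) :
    ar (kid (idS (ar σ)) j o) = ar (kid σ j o) := by
  have hl : (kid (idS (ar σ)) j o).length = ar σ := by rw [S.kid_len, S.id_len]
  rw [S.kid_eq σ j o, S.comp_ar σ _ hl]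

theorem step_sb (S : ShA) (a : Box) (j : ℕ) (o : Option Bool) (w : Shape)
    (hw : w.length = ar (kd a j o).2) :
    sb (kd a j o) w = sb a (comp (kid (idS (ar a.2)) j o) w) := by
  have hl : (kid (idS (ar a.2)) j o).length = ar a.2 := by rw [S.kid_len, S.id_len]
  have hw' : w.length = ar (kid (idS (ar a.2)) j o) := by rw [step_ar S]; exact hw
  unfold sb kd
  rw [← S.comp_assoc a.2 _ w hl hw', ← S.kid_eq]

theorem step_dg (S : ShA) (σ : Shape) (i j : ℕ) (o : Option Bool) (hi : i < ar σ)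
    (hj : j < ar σ) : dg (kid σ i o) = dg (kid σ j o) := by
  cases o with
  | none => rw [S.kid_dg0, S.kid_dg0]
  | some e => rw [S.kid_dg1 σ i e hi, S.kid_dg1 σ j e hj]

theorem sb_id (S : ShA) (a : Box) (c : ℕ) (h : ar a.2 = c) : sb a (idS c) = a := by
  subst h
  unfold sb
  rw [S.comp_id]

theorem lv_par (S : ShA) (M : ℕ) (T : Tr) : ∀ ρ b r l, Ty ρ b → Ok M ρ T → Lv T ρ b r l →
    ∃ u v : Shape, u.length = ar ρ.2 ∧ v.length = ar ρ.2 ∧ ar u = ar v ∧ dg u = dg v ∧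
      r = sb ρ u ∧ l = sb b v ∧
      ∀ ρ' b', Ty ρ ρ' → Ty ρ b' → Lv T ρ' b' (sb ρ' u) (sb b' v) := by
  induction T with
  | leaf =>
    rintro ρ b r l ht _ ⟨h1, h2⟩
    refine ⟨idS (ar ρ.2), idS (ar ρ.2), S.id_len _, S.id_len _, rfl, rfl, ?_, ?_, ?_⟩
    · rw [h1, sb_id S ρ _ rfl]
    · rw [h2, sb_id S b _ ht.2.2.1.symm]
    · intro ρ' b' t1 t2
      exact ⟨sb_id S ρ' _ t1.2.2.1.symm, sb_id S b' _ t2.2.2.1.symm⟩
  | node i T ih =>
    rintro ρ b r l ht ⟨h1, _, h3⟩ ⟨o, h4⟩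
    have h0 : 0 < ar ρ.2 := by omega
    have t1 : Ty (kd ρ 0 o) (kd b i o) := S.ty_kd ρ b 0 i o ht h0 h1
    obtain ⟨u, v, hu, hv, ha, hd, hr, hl, hp⟩ := ih o _ _ r l t1 (h3 o) h4
    have t0 : Ty (kd ρ 0 o) (kd ρ i o) := S.ty_kd ρ ρ 0 i o (ty_refl ρ ht.1) h0 h1
    have hu' : u.length = ar (kid (idS (ar ρ.2)) 0 o) := by rw [step_ar S]; exact hu
    have hv' : v.length = ar (kid (idS (ar ρ.2)) i o) := by
      rw [step_ar S]; exact hv.trans t0.2.2.1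
    refine ⟨comp (kid (idS (ar ρ.2)) 0 o) u, comp (kid (idS (ar ρ.2)) i o) v, ?_, ?_, ?_, ?_,
      ?_, ?_, ?_⟩
    · rw [S.comp_len _ _ hu', S.kid_len, S.id_len]
    · rw [S.comp_len _ _ hv', S.kid_len, S.id_len]
    · rw [S.comp_ar _ _ hu', S.comp_ar _ _ hv', ha]
    · rw [S.comp_dg _ _ hu', S.comp_dg _ _ hv', hd,
        step_dg S (idS (ar ρ.2)) 0 i o (by rw [S.id_ar]; exact h0) (by rw [S.id_ar]; exact h1)]
    · rw [hr, step_sb S ρ 0 o u hu]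
    · rw [hl, step_sb S b i o v (hv.trans t1.2.2.1), ht.2.2.1]
    · intro ρ' b' s1 s2
      have q1 : Ty (kd ρ 0 o) (kd ρ' 0 o) := S.ty_kd ρ ρ' 0 0 o s1 h0 h0
      have q2 : Ty (kd ρ 0 o) (kd b' i o) := S.ty_kd ρ b' 0 i o s2 h0 h1
      refine ⟨o, ?_⟩
      have q3 := hp _ _ q1 q2
      rw [step_sb S ρ' 0 o u (hu.trans q1.2.2.1), step_sb S b' i o v (hv.trans q2.2.2.1),
        ← s1.2.2.1, ← s2.2.2.1] at q3
      exact q3

theorem lv_ty (S : ShA) (M : ℕ) (T : Tr) :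
    ∀ ρ b r l, Ty ρ b → Ok M ρ T → Lv T ρ b r l → Ty r l := by
  induction T with
  | leaf =>
    rintro ρ b r l ht _ ⟨h1, h2⟩
    rw [h1, h2]; exact ht
  | node i T ih =>
    rintro ρ b r l ht ⟨h1, _, h3⟩ ⟨o, h4⟩
    exact ih o _ _ r l (S.ty_kd ρ b 0 i o ht (by omega) h1) (h3 o) h4

theorem lv_rb (S : ShB) (T : Tr) : ∀ ρ b r l, RB ρ → Lv T ρ b r l → RB r := by
  induction T with
  | leaf =>
    rintro ρ b r l h ⟨h1, _⟩
    rw [h1]; exact h
  | node i T ih =>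
    rintro ρ b r l h ⟨o, h4⟩
    exact ih o _ _ r l (S.rb_kd ρ o h) h4

theorem kid_dg_le (S : ShA) (σ : Shape) (i : ℕ) (o : Option Bool) (hi : i < ar σ) :
    dg σ ≤ dg (kid σ i o) ∧ dg (kid σ i o) ≤ dg σ + 1 := by
  cases o with
  | none => rw [S.kid_dg0]; omega
  | some e => rw [S.kid_dg1 σ i e hi]; omega

theorem lv_dg (S : ShA) (M : ℕ) (T : Tr) :
    ∀ ρ b r l, dg ρ.2 ≤ M + 1 → Ok M ρ T → Lv T ρ b r l → dg r.2 ≤ M + 1 := by
  induction T with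
  | leaf =>
    rintro ρ b r l h _ ⟨h1, _⟩
    rw [h1]; exact h
  | node i T ih =>
    rintro ρ b r l _ ⟨h1, h2, h3⟩ ⟨o, h4⟩
    refine ih o _ _ r l ?_ (h3 o) h4
    have := (kid_dg_le S ρ.2 0 o (by omega)).2
    exact this.trans (by omega)

theorem disj_sub (S : ShB) (a a' : Box) (u u' : Shape) (hu : u.length = ar a.2)
    (hu' : u'.length = ar a'.2) (h : Disj a a') : Disj (sb a u) (sb a' u') :=
  S.disj_symm _ _ (S.disj_sb a' _ u' hu' (S.disj_symm _ _ (S.disj_sb a a' u hu h)))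

theorem lv_disj (S : ShA) (S' : ShB) (M : ℕ) (T : Tr) : ∀ ρ b r l r' l', Ty ρ b → Ok M ρ T →
    Lv T ρ b r l → Lv T ρ b r' l' → (r = r' ∧ l = l') ∨ (Disj r r' ∧ Disj l l') := by
  induction T with
  | leaf =>
    rintro ρ b r l r' l' _ _ ⟨h1, h2⟩ ⟨h3, h4⟩
    exact Or.inl ⟨h1.trans h3.symm, h2.trans h4.symm⟩
  | node i T ih =>
    rintro ρ b r l r' l' ht ⟨h1, _, h3⟩ ⟨o, h4⟩ ⟨o', h5⟩
    have h0 : 0 < ar ρ.2 := by omega
    have t1 : Ty (kd ρ 0 o) (kd b i o) := S.ty_kd ρ b 0 i o ht h0 h1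
    have t2 : Ty (kd ρ 0 o') (kd b i o') := S.ty_kd ρ b 0 i o' ht h0 h1
    by_cases ho : o = o'
    · subst ho
      exact ih o _ _ r l r' l' t1 (h3 o) h4 h5
    · obtain ⟨u, v, hu, hv, _, _, hr, hl, _⟩ := lv_par S M _ _ _ r l t1 (h3 o) h4
      obtain ⟨u', v', hu', hv', _, _, hr', hl', _⟩ := lv_par S M _ _ _ r' l' t2 (h3 o') h5
      refine Or.inr ⟨?_, ?_⟩
      · rw [hr, hr']
        exact disj_sub S' _ _ u u' hu hu' (S'.disj_kids ρ 0 o o' h0 ho)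
      · rw [hl, hl']
        exact disj_sub S' _ _ v v' (hv.trans t1.2.2.1) (hv'.trans t2.2.2.1)
          (S'.disj_kids b i o o' (ht.2.2.1 ▸ h1) ho)

theorem lv_fin (T : Tr) : ∀ ρ b, {l | ∃ r, Lv T ρ b r l}.Finite := by
  induction T with
  | leaf =>
    intro ρ b
    refine (Set.finite_singleton b).subset ?_
    rintro l ⟨r, _, h⟩
    exact h
  | node i T ih =>
    intro ρ b
    refine (Set.finite_iUnion fun o => ih o (kd ρ 0 o) (kd b i o)).subset ?_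
    rintro l ⟨r, o, h⟩
    exact Set.mem_iUnion.2 ⟨o, r, h⟩

theorem lv_gr (f : Box → Tr) (r l : Box) (T : Tr) : ∀ ρ b,
    Lv (gr T b f) ρ b r l ↔ ∃ r₀ l₀, Lv T ρ b r₀ l₀ ∧ Lv (f l₀) r₀ l₀ r l := by
  induction T with
  | leaf =>
    intro ρ b
    constructor
    · intro h
      exact ⟨ρ, b, ⟨rfl, rfl⟩, h⟩
    · rintro ⟨r₀, l₀, ⟨h1, h2⟩, h⟩
      subst h1 h2
      exact h
  | node i T ih =>
    intro ρ b
    constructor
    · rintro ⟨o, h⟩
      obtain ⟨r₀, l₀, h1, h2⟩ := (ih o _ _).1 h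
      exact ⟨r₀, l₀, ⟨o, h1⟩, h2⟩
    · rintro ⟨r₀, l₀, ⟨o, h1⟩, h2⟩
      exact ⟨o, (ih o _ _).2 ⟨r₀, l₀, h1, h2⟩⟩

theorem gr_leaf (T : Tr) : ∀ b, gr T b (fun _ => Tr.leaf) = T := by
  induction T with
  | leaf => intro b; rfl
  | node i T ih =>
    intro b
    change Tr.node i (fun o => gr (T o) (kd b i o) fun _ => Tr.leaf) = Tr.node i T
    rw [funext fun o => ih o (kd b i o)]

theorem gr_congr (f f' : Box → Tr) (T : Tr) :
    ∀ ρ b, (∀ r l, Lv T ρ b r l → f l = f' l) → gr T b f = gr T b f' := by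
  induction T with
  | leaf => intro ρ b h; exact h ρ b ⟨rfl, rfl⟩
  | node i T ih =>
    intro ρ b h
    change Tr.node i (fun o => gr (T o) (kd b i o) f) =
      Tr.node i (fun o => gr (T o) (kd b i o) f')
    rw [funext fun o => ih o (kd ρ 0 o) (kd b i o) fun r l hl => h r l ⟨o, hl⟩]

theorem gr_ok (M : ℕ) (f : Box → Tr) (T : Tr) : ∀ ρ b,
    Ok M ρ (gr T b f) ↔ Ok M ρ T ∧ ∀ r l, Lv T ρ b r l → Ok M r (f l) := by
  induction T with
  | leaf =>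
    intro ρ b
    constructor
    · intro h
      refine ⟨trivial, ?_⟩
      rintro r l ⟨h1, h2⟩
      subst h1 h2
      exact h
    · intro h
      exact h.2 ρ b ⟨rfl, rfl⟩
  | node i T ih =>
    intro ρ b
    constructor
    · rintro ⟨h1, h2, h3⟩
      refine ⟨⟨h1, h2, fun o => ((ih o _ _).1 (h3 o)).1⟩, ?_⟩
      rintro r l ⟨o, h⟩
      exact ((ih o _ _).1 (h3 o)).2 r l h
    · rintro ⟨⟨h1, h2, h3⟩, h4⟩
      exact ⟨h1, h2, fun o => (ih o _ _).2 ⟨h3 o, fun r l h => h4 r l ⟨o, h⟩⟩⟩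

theorem leaf_ex (S : ShA) (k : Fin 40) (n : ℕ) : ∀ σ : Shape, wt σ = n → σ.length = 3 →
    ∃ T r, Ok (dg σ) (root k) T ∧ Lv T (root k) (root k) r (k, σ) := by
  classical
  induction n with
  | zero =>
    intro σ hw hl
    refine ⟨Tr.leaf, root k, trivial, rfl, ?_⟩
    have := S.wt_zero σ hw
    rw [hl] at this
    rw [this]
    rfl
  | succ n ih =>
    intro σ hw hl
    obtain ⟨τ, i, o, hi, hσ⟩ := S.parent σ (by omega)
    have hw' : wt τ = n := by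
      have := S.kid_wt τ i o hi
      rw [← hσ] at this
      omega
    have hl' : τ.length = 3 := by rw [← S.kid_len τ i o, ← hσ]; exact hl
    have hd : dg τ ≤ dg σ := by rw [hσ]; exact (kid_dg_le S τ i o hi).1
    obtain ⟨T, r, h1, h2⟩ := ih τ hw' hl'
    have t0 : Ty (root k) (root k) := ty_refl _ (S.id_len 3)
    refine ⟨gr T (root k) fun l => if l = (k, τ) then Tr.node i fun _ => Tr.leaf else Tr.leaf,
      kd r 0 o, (gr_ok _ _ T _ _).2 ⟨ok_mono _ _ hd T _ h1, ?_⟩, (lv_gr _ _ _ T _ _).2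
        ⟨r, (k, τ), h2, ?_⟩⟩
    · intro r' l' h
      by_cases e : l' = (k, τ)
      · rw [if_pos e]
        have t := lv_ty S _ T _ _ r' l' t0 h1 h
        rw [e] at t
        exact ⟨t.2.2.1 ▸ hi, t.2.2.2.le.trans hd, fun _ => trivial⟩
      · rw [if_neg e]
        trivial
    · rw [if_pos rfl]
      exact ⟨o, rfl, by rw [hσ]; rfl⟩

theorem grid_ex (S : ShA) (n : ℕ) (k : Fin 40) : ∀ σ : Shape, ∃ T, Grid n (k, σ) T := by
  refine S.wf n (fun σ => ∃ T, Grid n (k, σ) T) ?_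
  intro σ ih
  by_cases h : Deep n σ
  · exact ⟨Tr.leaf, h⟩
  · rw [S.deep_iff] at h
    obtain ⟨i, hi⟩ := not_forall.1 h
    obtain ⟨h1, h2⟩ := Classical.not_imp.1 hi
    have h3 : fw σ i < n := by omega
    choose T hT using fun o => ih i o h1 h3
    exact ⟨Tr.node i T, h1, h3, hT⟩

theorem grid_ok (S : ShA) (n M : ℕ) (hM : 3 * n ≤ M) (T : Tr) :
    ∀ ρ b, Ty ρ b → Le n b.2 → Grid n b T → Ok M ρ T := by
  induction T with
  | leaf => intro ρ b _ _ _; trivial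
  | node i T ih =>
    rintro ρ b ht hl ⟨h1, h2, h3⟩
    have h4 : i < ar ρ.2 := ht.2.2.1 ▸ h1
    refine ⟨h4, ?_, fun o => ih o _ _ (S.ty_kd ρ b 0 i o ht (by omega) h4)
      (S.le_kid n b.2 i o hl h1 h2) (h3 o)⟩
    have := S.le_dg n b.2 hl
    rw [ht.2.1] at this
    rw [ht.2.2.2]
    omega

theorem gr_grid (S : ShA) (n M : ℕ) (f : Box → Tr) (hM : M < n) (hf : ∀ l, Grid n l (f l))
    (T : Tr) : ∀ ρ b, Ty ρ b → Ok M ρ T → Grid n b (gr T b f) := by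
  induction T with
  | leaf => intro ρ b _ _; exact hf b
  | node i T ih =>
    rintro ρ b ht ⟨h1, h2, h3⟩
    refine ⟨ht.2.2.1 ▸ h1, ?_, fun o => ih o _ _ (S.ty_kd ρ b 0 i o ht (by omega) h1) (h3 o)⟩
    have := S.fw_le b.2 i
    rw [← ht.2.2.2] at this
    omega

theorem lv_any (T : Tr) : ∀ ρ ρ' b r l, Lv T ρ b r l → ∃ r', Lv T ρ' b r' l := by
  induction T with
  | leaf =>
    rintro ρ ρ' b r l ⟨_, h⟩
    exact ⟨ρ', rfl, h⟩
  | node i T ih =>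
    rintro ρ ρ' b r l ⟨o, h⟩
    obtain ⟨r', h'⟩ := ih o _ (kd ρ' 0 o) _ r l h
    exact ⟨r', o, h'⟩

theorem grid_lv (S : ShA) (n : ℕ) (k : Fin 40) (l : Box) : ∀ σ : Shape, ∀ T T' ρ r,
    Grid n (k, σ) T → Grid n (k, σ) T' → Lv T ρ (k, σ) r l → ∃ r', Lv T' ρ (k, σ) r' l := by
  refine S.wf n (fun σ => ∀ T T' ρ r,
    Grid n (k, σ) T → Grid n (k, σ) T' → Lv T ρ (k, σ) r l → ∃ r', Lv T' ρ (k, σ) r' l) ?_
  intro σ ih T T' ρ r g g' h
  cases T with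
  | leaf =>
    cases T' with
    | leaf => exact ⟨r, h⟩
    | node j T' => exact absurd ((S.deep_iff n σ).1 g j g'.1) (not_le.2 g'.2.1)
  | node i T =>
    cases T' with
    | leaf => exact absurd ((S.deep_iff n σ).1 g' i g.1) (not_le.2 g.2.1)
    | node j T' =>
      obtain ⟨hi, fi, gi⟩ := g
      obtain ⟨hj, fj, gj⟩ := g'
      obtain ⟨o, h⟩ := h
      by_cases hij : i = j
      · subst hij
        obtain ⟨r', h'⟩ := ih i o hi fi (T o) (T' o) _ r (gi o) (gj o) h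
        exact ⟨r', o, h'⟩
      · choose U hU using fun p p' : Option Bool =>
          grid_ex S n k (kid (kid σ i p) (adj i p j) p')
        have gA : Grid n (k, kid σ i o) (Tr.node (adj i o j) fun p' => U o p') :=
          ⟨S.adj_lt σ i j o hi hj hij, (S.fw_kid σ i j o hi hj hij).trans_lt fj,
            fun p' => hU o p'⟩
        obtain ⟨r₁, o', h₁⟩ := ih i o hi fi (T o) _ _ r (gi o) gA h
        have gB : Grid n (k, kid σ j o') (Tr.node (adj j o' i) fun p => U p o') := by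
          refine ⟨S.adj_lt σ j i o' hj hi (Ne.symm hij),
            (S.fw_kid σ j i o' hj hi (Ne.symm hij)).trans_lt fi, fun p => ?_⟩
          have := hU p o'
          rw [S.kid_sq σ i j p o' hi hj hij] at this
          exact this
        obtain ⟨r₂, h₂⟩ := lv_any _ _ (kd (kd ρ 0 o') 0 o) _ _ _ h₁
        have e : kd (k, kid σ i o) (adj i o j) o' = kd (k, kid σ j o') (adj j o' i) o :=
          kd_sq S (k, σ) i j o o' hi hj hij
        rw [e] at h₂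
        obtain ⟨r₃, h₃⟩ := ih j o' hj fj _ (T' o') (kd ρ 0 o') r₂ gB (gj o') ⟨o, h₂⟩
        exact ⟨r₃, o', h₃⟩

end Trcx

/-- Row TRC. -/
theorem trc_main : SpTrc := fun S =>
  { ok_mono := fun M M' ρ T h => Trcx.ok_mono M M' h T ρ
    ok_ty := fun M ρ ρ' T => Trcx.ok_ty S.toShA M T ρ ρ'
    flip_ok := Trcx.flip_ok S.toShA
    lv_par := fun M T => Trcx.lv_par S.toShA M T
    lv_ty := fun M T => Trcx.lv_ty S.toShA M T
    lv_rb := fun T => Trcx.lv_rb S.toShB T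
    lv_dg := fun M T => Trcx.lv_dg S.toShA M T
    lv_disj := fun M T => Trcx.lv_disj S.toShA S.toShB M T
    lv_fin := Trcx.lv_fin
    lv_gr := fun T ρ b f r l => Trcx.lv_gr f r l T ρ b
    gr_leaf := Trcx.gr_leaf
    gr_congr := fun T ρ b f f' => Trcx.gr_congr f f' T ρ b
    gr_ok := fun M T ρ b f => Trcx.gr_ok M f T ρ b
    leaf_ex := fun b h => Trcx.leaf_ex S.toShA b.1 _ b.2 rfl h
    grid_ex := fun n b => Trcx.grid_ex S.toShA n b.1 b.2
    grid_ok := fun n M ρ b T ht hl hM => Trcx.grid_ok S.toShA n M hM T ρ b ht hl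
    gr_grid := fun n M T ρ b f ht ho hM hf => Trcx.gr_grid S.toShA n M f hM hf T ρ b ht ho
    grid_lv := fun n T T' ρ b r l => Trcx.grid_lv S.toShA n b.1 l b.2 T T' ρ r }

end Pool.Agent.MP_89edc2_al.R3
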