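import Pool.Agent.MP_89edc2_al.R3.Spec2

/-! Row TREE: the elements of trees. -/

namespace Pool.Agent.MP_89edc2_al.R3

namespace Treex

section
variable {H : Type} [Group H]

theorem p3_mul (b P : Option Bool → H) (h : ∀ o o', o ≠ o' → Commute (P o) (b o')) :
    p3 (fun o => b o * P o) = p3 b * p3 P := by
  have h01 := h none (some false) (by simp)
  have h02 := h none (some true) (by simp)
  have h12 := h (some false) (some true) (by simp)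
  simp only [p3, mul_assoc]
  rw [h12.left_comm, h01.left_comm, h02.left_comm]

theorem p3_swap (c : Option Bool → Option Bool → H)
    (h : ∀ a b a' b', a ≠ a' → Commute (c a b) (c a' b')) :
    p3 (fun o => p3 fun o' => c o' o) = p3 fun o' => p3 fun o => c o' o := by
  have e1 := p3_mul (fun o => c none o * c (some false) o) (c (some true)) fun o o' _ =>
    (h _ _ _ _ (by simp)).mul_right (h _ _ _ _ (by simp))
  have e2 := p3_mul (c none) (c (some false)) fun o o' _ => h _ _ _ _ (by simp)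
  exact e1.trans (congrArg (· * p3 (c (some true))) e2)

theorem p3_comm (x : H) (f : Option Bool → H) (h : ∀ o, Commute x (f o)) : Commute x (p3 f) :=
  ((h _).mul_right (h _)).mul_right (h _)

theorem p3_conj (a : H) (f g : Option Bool → H) (h : ∀ o, a * f o * a⁻¹ = g o) :
    a * p3 f * a⁻¹ = p3 g := by
  simp only [p3, ← h]
  group

theorem bh_node (B : Box → ℕ → H) (ρ : Box) (i : ℕ) (T : Option Bool → Tr) :
    bh B ρ (.node i T) = B ρ i * p3 fun o => bh B (kd ρ 0 o) (T o) := rfl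

end

theorem p3_car (sh : ShapeF) (se : SemF) (K : ℕ) (f : Option Bool → Equiv.Perm X) (a b : Box)
    (o : Option Bool) (hT : Ty a b) (h : CarK K (f o) a b)
    (h' : ∀ o', o' ≠ o → CarK K (f o') a a ∧ CarK K (f o') b b) : CarK K (p3 f) a b := by
  have ha : Ty a a := sh.ty_trans _ _ _ hT (sh.ty_symm _ _ hT)
  have hb : Ty b b := sh.ty_trans _ _ _ (sh.ty_symm _ _ hT) hT
  rcases o with _ | _ | _
  · rw [p3, mul_assoc]
    exact se.carK_mul K _ _ a a b ha (se.carK_mul K _ _ a a a ha (h' _ (by simp)).1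
      (h' _ (by simp)).1) h
  · exact se.carK_mul K _ _ a a b ha (h' _ (by simp)).1
      (se.carK_mul K _ _ a b b hT h (h' _ (by simp)).2)
  · exact se.carK_mul K _ _ a b b hT h
      (se.carK_mul K _ _ b b b hb (h' _ (by simp)).2 (h' _ (by simp)).2)

theorem ty_self {ρ : Box} (h : RB ρ) : Ty ρ ρ := ⟨h.1, h.1, rfl, rfl⟩

theorem ty_sq (sh : ShapeF) {ρ : Box} (h : RB ρ) (h2 : 2 ≤ ar ρ.2) (o o' : Option Bool) :
    Ty (kd (kd ρ 0 o) 0 o') (kd (kd ρ 0 o') 0 o) := by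
  have h0 : 0 < ar ρ.2 := by omega
  have h1 : 1 < ar ρ.2 := by omega
  have a1 := sh.adj_lt ρ.2 0 1 o h0 h1 (by omega)
  have a2 := sh.adj_lt ρ.2 1 0 o' h1 h0 (by omega)
  have t1 := sh.ty_kd (kd ρ 0 o) (kd ρ 0 o) 0 (adj 0 o 1) o' (ty_self (sh.rb_kd ρ o h))
    (lt_of_le_of_lt (Nat.zero_le _) a1) a1
  have t2 := sh.ty_kd (kd ρ 1 o') (kd ρ 0 o') (adj 1 o' 0) 0 o
    (sh.ty_kd ρ ρ 1 0 o' (ty_self h) h1 h0) a2 (lt_of_le_of_lt (Nat.zero_le _) a2)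
  have e : kd (kd ρ 0 o) (adj 0 o 1) o' = kd (kd ρ 1 o') (adj 1 o' 0) o :=
    congrArg (Prod.mk ρ.1) (sh.kid_sq ρ.2 0 1 o o' h0 h1 (by omega))
  rw [e] at t1
  exact sh.ty_trans _ _ _ t1 t2

section
variable {H : Type} [Group H] {K M : ℕ} {p : H →* Equiv.Perm X} {Λ : Subgroup H}
  {B : Box → ℕ → H}

theorem comm1 (sh : ShapeF) (hB : BH K M p Λ B) {ρ : Box} {i : ℕ} (hρ : RM M ρ)
    (hi : i < ar ρ.2) (T : Tr) : ∀ ρ', RB ρ' → Ok M ρ' T → Disj ρ ρ' →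
    Commute (B ρ i) (bh B ρ' T) := by
  induction T with
  | leaf => exact fun _ _ _ _ => Commute.one_right _
  | node j T ih =>
    intro ρ' hr hk hd
    rw [bh_node]
    refine (hB.comm ρ ρ' i j hρ ⟨hr, hk.2.1⟩ hi hk.1 hd).mul_right (p3_comm _ _ fun o => ?_)
    exact ih o _ (sh.rb_kd _ o hr) (hk.2.2 o)
      (sh.disj_symm _ _ (sh.disj_kd _ _ 0 o (sh.disj_symm _ _ hd)))

theorem comm (sh : ShapeF) (hB : BH K M p Λ B) {ρ' : Box} {T' : Tr} (hr' : RB ρ')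
    (hk' : Ok M ρ' T') (T : Tr) : ∀ ρ, RB ρ → Ok M ρ T → Disj ρ ρ' →
    Commute (bh B ρ T) (bh B ρ' T') := by
  induction T with
  | leaf => exact fun _ _ _ _ => Commute.one_left _
  | node j T ih =>
    intro ρ hr hk hd
    rw [bh_node]
    refine (comm1 sh hB ⟨hr, hk.2.1⟩ hk.1 T' ρ' hr' hk' hd).mul_left
      (p3_comm _ _ fun o => ?_).symm
    exact (ih o _ (sh.rb_kd _ o hr) (hk.2.2 o) (sh.disj_kd _ _ 0 o hd)).symm

theorem cen (sh : ShapeF) {ε : H} (hε : Cen M Λ B ε) (T : Tr) : ∀ ρ, RB ρ → Ok M ρ T →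
    Commute ε (bh B ρ T) := by
  induction T with
  | leaf => exact fun _ _ _ => Commute.one_right _
  | node j T ih =>
    intro ρ hr hk
    rw [bh_node]
    exact (hε.2 ρ j ⟨hr, hk.2.1⟩ hk.1).mul_right
      (p3_comm _ _ fun o => ih o _ (sh.rb_kd _ o hr) (hk.2.2 o))

theorem on (sh : ShapeF) (se : SemF) (hB : BH K M p Λ B) (T : Tr) : ∀ ρ, RB ρ → Ok M ρ T →
    On (p (bh B ρ T)) ρ := by
  induction T with
  | leaf =>
    intro ρ _ _ x _
    simp [bh]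
  | node j T ih =>
    intro ρ hr hk
    have hc : ∀ o, On (p (bh B (kd ρ 0 o) (T o))) ρ := fun o x hx =>
      ih o _ (sh.rb_kd _ o hr) (hk.2.2 o) x fun h' => hx (se.in_kd _ _ _ _ h')
    rw [bh_node, p3, map_mul, map_mul, map_mul, hB.pB ρ j ⟨hr, hk.2.1⟩ hk.1]
    exact se.on_mul _ _ _ (se.res_on K _ (se.bak_mem ρ j hr.1 hk.1) ρ
      (se.bak_spec ρ j hr.1 hk.1).2) (se.on_mul _ _ _ (se.on_mul _ _ _ (hc _) (hc _)) (hc _))

theorem transp (sh : ShapeF) (se : SemF) (hB : BH K M p Λ B) {a : H} (ha : a ∈ Λ) (T : Tr) :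
    ∀ ρ ρ', RB ρ → RB ρ' → Ty ρ ρ' → Ok M ρ T → CarK K (p a) ρ ρ' →
    a * bh B ρ T * a⁻¹ = bh B ρ' T := by
  induction T with
  | leaf =>
    intro ρ ρ' _ _ _ _ _
    simp [bh]
  | node j T ih =>
    intro ρ ρ' hr hr' ht hk hc
    have h0 : 0 < ar ρ.2 := lt_of_le_of_lt (Nat.zero_le _) hk.1
    have e1 := hB.eqv ρ ρ' j a ha ⟨hr, hk.2.1⟩ hr' ht hk.1 hc
    have e2 := p3_conj a (fun o => bh B (kd ρ 0 o) (T o)) (fun o => bh B (kd ρ' 0 o) (T o))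
      fun o => ih o _ _ (sh.rb_kd _ o hr) (sh.rb_kd _ o hr') (sh.ty_kd ρ ρ' 0 0 o ht h0 h0)
        (hk.2.2 o) (se.carK_kd K _ ρ ρ' 0 o ht hc)
    rw [bh_node, bh_node, ← e1, ← e2]
    group

theorem carry (sh : ShapeF) (se : SemF) (tr : TrF) (hB : BH K M p Λ B) (T : Tr) :
    ∀ ρ r l, RB ρ → Ok M ρ T → Lv T ρ ρ r l → CarK K (p (bh B ρ T)) r l := by
  induction T with
  | leaf =>
    rintro ρ r l _ _ ⟨rfl, rfl⟩
    simpa [bh] using (se.car_one K _).2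
  | node j T ih =>
    rintro ρ r l hr hk ⟨o, hl⟩
    have h0 : 0 < ar ρ.2 := lt_of_le_of_lt (Nat.zero_le _) hk.1
    have hrk := sh.rb_kd ρ o hr
    have tk := sh.ty_kd ρ ρ 0 j o (ty_self hr) h0 hk.1
    obtain ⟨u, v, hu, hv, -, -, rfl, rfl, hp⟩ := tr.lv_par M _ _ _ r l tk (hk.2.2 o) hl
    have hl' := hp _ _ (ty_self hrk) (ty_self hrk)
    have ty := tr.lv_ty M _ _ _ _ _ (ty_self hrk) (hk.2.2 o) hl'
    have fix : ∀ o', o' ≠ o → ∀ w : Shape, w.length = ar (kd ρ 0 o).2 →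
        (sb (kd ρ 0 o) w).2.length = 3 →
        CarK K (p (bh B (kd ρ 0 o') (T o'))) (sb (kd ρ 0 o) w) (sb (kd ρ 0 o) w) := by
      intro o' ho w hw h3
      have hr' := sh.rb_kd ρ o' hr
      refine se.car_K K _ _ _ ((se.off_car _ _).1 (se.on_off _ (kd ρ 0 o') _
        (hr'.1.trans h3.symm) (on sh se hB _ _ hr' (hk.2.2 o')) ?_))
      exact sh.disj_symm _ _ (sh.disj_sb _ _ w hw (sh.disj_kids ρ 0 o o' h0 ho.symm))
    have c1 := p3_car sh se K (fun o' => p (bh B (kd ρ 0 o') (T o'))) _ _ o ty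
      (ih o _ _ _ hrk (hk.2.2 o) hl') fun o' ho => ⟨fix o' ho u hu ty.1, fix o' ho v hv ty.2.1⟩
    have c2 : CarK K (res K (bak ρ j)) (kd ρ 0 o) (kd ρ j o) :=
      (se.res_carK K _ (se.bak_mem ρ j hr.1 hk.1) _ _).2
        (se.car_K K _ _ _ ((se.bak_spec ρ j hr.1 hk.1).1 o))
    have c3 := se.carK_mul K _ _ _ _ _ ty c1 (se.carK_sb K _ _ _ v tk hv c2)
    rw [bh_node, p3, map_mul, map_mul, map_mul, hB.pB ρ j ⟨hr, hk.2.1⟩ hk.1]
    exact c3

theorem two (sh : ShapeF) (hB : BH K M p Λ B) {ρ : Box} {i j : ℕ}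
    {U : Option Bool → Option Bool → Tr} (hr : RB ρ) (hk : Ok M ρ (fT i j U)) :
    bh B ρ (fT i j U) = B ρ i * p3 (fun o => B (kd ρ 0 o) (adj i o j)) *
      p3 fun o => p3 fun o' => bh B (kd (kd ρ 0 o) 0 o') (U o o') := by
  have h0 : 0 < ar ρ.2 := lt_of_le_of_lt (Nat.zero_le _) hk.1
  have e := p3_mul (fun o => B (kd ρ 0 o) (adj i o j))
    (fun o => p3 fun o' => bh B (kd (kd ρ 0 o) 0 o') (U o o')) fun o o' ho => by
      refine (p3_comm _ _ fun o'' => ?_).symm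
      have k := hk.2.2 o'
      refine comm1 sh hB ⟨sh.rb_kd ρ o' hr, k.2.1⟩ k.1 _ _
        (sh.rb_kd _ o'' (sh.rb_kd ρ o hr)) ((hk.2.2 o).2.2 o'') ?_
      exact sh.disj_symm _ _ (sh.disj_kd _ _ 0 o'' (sh.disj_kids ρ 0 o o' h0 ho))
  rw [mul_assoc, ← e]
  rfl

theorem flip (sh : ShapeF) (se : SemF) (tr : TrF) (hB : BH K M p Λ B) (ρ : Box) (i j : ℕ)
    (U : Option Bool → Option Bool → Tr) (ε : H) (hr : RB ρ) (hj : j < ar ρ.2) (hij : i ≠ j)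
    (hs : Sq K p Λ B ρ i j ε) (hε : Cen M Λ B ε) (hk : Ok M ρ (fT i j U)) :
    ∃ a ∈ Λ, bh B ρ (fT i j U) = bh B ρ (fT j i fun o' o => U o o') * a * ε := by
  obtain ⟨a, ha, hq, e⟩ := hs
  have hi : i < ar ρ.2 := hk.1
  have h0 : 0 < ar ρ.2 := by omega
  have hk' := tr.flip_ok M ρ i j U hr.1 hj hij hk
  have rb : ∀ o o', RB (kd (kd ρ 0 o) 0 o') := fun o o' => sh.rb_kd _ o' (sh.rb_kd ρ o hr)
  have e1 : Commute ε (p3 fun o => p3 fun o' => bh B (kd (kd ρ 0 o) 0 o') (U o o')) :=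
    p3_comm _ _ fun o => p3_comm _ _ fun o' => cen sh hε _ _ (rb o o') ((hk.2.2 o).2.2 o')
  have e2 := p3_conj a (fun o => p3 fun o' => bh B (kd (kd ρ 0 o) 0 o') (U o o'))
    (fun o => p3 fun o' => bh B (kd (kd ρ 0 o') 0 o) (U o o')) fun o =>
    p3_conj a _ _ fun o' => transp sh se hB ha _ _ _ (rb o o') (rb o' o)
      (ty_sq sh hr (by omega) o o') ((hk.2.2 o).2.2 o') (hq.1 o o')
  have e3 := p3_swap (fun o' o => bh B (kd (kd ρ 0 o') 0 o) (U o o')) fun a b a' b' h =>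
    comm sh hB (rb a' b') ((hk'.2.2 a').2.2 b') _ _ (rb a b) ((hk'.2.2 a).2.2 b)
      (sh.disj_kd _ _ 0 b (sh.disj_symm _ _ (sh.disj_kd _ _ 0 b'
        (sh.disj_kids ρ 0 a' a h0 h.symm))))
  refine ⟨a, ha, ?_⟩
  rw [two sh hB hr hk, two sh hB hr hk', e, mul_assoc _ ε, e1.eq, ← e3, ← e2]
  group

theorem congr (sh : ShapeF) (hB : BH K M p Λ B) (ρ : Box) (i : ℕ) (T T' : Option Bool → Tr)
    (ε : Option Bool → H) (hr : RB ρ) (hk : Ok M ρ (.node i T)) (hk' : Ok M ρ (.node i T'))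
    (hε : ∀ o, ∀ a ∈ Λ, Commute (ε o) a)
    (h : ∀ o, ∃ a ∈ Λ, bh B (kd ρ 0 o) (T o) = bh B (kd ρ 0 o) (T' o) * a * ε o) :
    ∃ a ∈ Λ, bh B ρ (.node i T) = bh B ρ (.node i T') * a * p3 ε := by
  choose a ha e using h
  have h0 : 0 < ar ρ.2 := lt_of_le_of_lt (Nat.zero_le _) hk.1
  have e1 := p3_mul (fun o => bh B (kd ρ 0 o) (T' o)) (fun o => a o * ε o) fun o o' ho => by
    have ex : a o * ε o = (bh B (kd ρ 0 o) (T' o))⁻¹ * bh B (kd ρ 0 o) (T o) := by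
      rw [e o]
      group
    have hd := sh.disj_kids ρ 0 o o' h0 ho
    rw [ex]
    exact (comm sh hB (sh.rb_kd ρ o' hr) (hk'.2.2 o') _ _ (sh.rb_kd ρ o hr) (hk'.2.2 o)
      hd).inv_left.mul_left
      (comm sh hB (sh.rb_kd ρ o' hr) (hk'.2.2 o') _ _ (sh.rb_kd ρ o hr) (hk.2.2 o) hd)
  have e2 := p3_mul a ε fun o o' _ => hε o _ (ha o')
  have e3 : (fun o => bh B (kd ρ 0 o) (T o)) =
      fun o => bh B (kd ρ 0 o) (T' o) * (a o * ε o) := funext fun o => by rw [e o, mul_assoc]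
  refine ⟨p3 a, Λ.mul_mem (Λ.mul_mem (ha _) (ha _)) (ha _), ?_⟩
  rw [bh_node, bh_node, e3, e1, e2]
  group

end

end Treex

theorem tree_main : SpTree := fun sh se tr _ _ _ _ _ _ _ hB =>
  { on := fun ρ T => Treex.on sh se hB T ρ
    carry := fun ρ T r l => Treex.carry sh se tr hB T ρ r l
    transp := fun ρ ρ' T _ ha => Treex.transp sh se hB ha T ρ ρ'
    comm := fun ρ _ T _ hr hr' hk hk' => Treex.comm sh hB hr' hk' T ρ hr hk
    flip := Treex.flip sh se tr hB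
    congr := Treex.congr sh hB }

end Pool.Agent.MP_89edc2_al.R3
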