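import Pool.Agent.MP_89edc2_al.R3.Spec2

/-!
# Row XD: the new elements satisfy the commutator formula
-/

namespace Pool.Agent.MP_89edc2_al.R3

open scoped commutatorElement

namespace Xdx

theorem nm3 {b x y z : Fin 40} (h1 : b ≠ x) (h2 : b ≠ y) (h3 : b ≠ z) : b ∉ [x, y, z] := by
  simp [h1, h2, h3]

theorem mvs {g₁ g₂ g₃ b : Box} (h : b.1 ∉ [g₁.1, g₂.1, g₃.1]) : Mv g₁ g₂ g₃ b b := by
  simp only [List.mem_cons, List.not_mem_nil, or_false, not_or] at h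
  exact Or.inr (Or.inr (Or.inr ⟨rfl, Or.inl h.1, Or.inl h.2.1, Or.inl h.2.2⟩))

theorem dc_of (hS : ShapeF) {a b c R : Box} (ha : Ty a R) (hb : Ty b R) (hc : Ty c R)
    (ab : a.1 ≠ b.1) (ac : a.1 ≠ c.1) (bc : b.1 ≠ c.1) : Dc a b c :=
  ⟨hS.ty_trans _ _ _ ha (hS.ty_symm _ _ hb), hS.ty_trans _ _ _ ha (hS.ty_symm _ _ hc), ab, ac, bc⟩

theorem lw_of (hS : ShapeF) {l : ℕ} {a b c R : Box} (hw : wt R.2 ≤ l) (ha : Ty a R) (hb : Ty b R)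
    (hc : Ty c R) (ab : a.1 ≠ b.1) (ac : a.1 ≠ c.1) (bc : b.1 ≠ c.1) : Lw l a b c :=
  ⟨dc_of hS ha hb hc ab ac bc, (hS.ty_wt _ _ ha).le.trans hw⟩

theorem hi_of (hS : ShapeF) {l : ℕ} {a b c R : Box} (hw : wt R.2 = l + 1) (ha : Ty a R)
    (hb : Ty b R) (hc : Ty c R) (ab : a.1 ≠ b.1) (ac : a.1 ≠ c.1) (bc : b.1 ≠ c.1) :
    Hi l a b c :=
  ⟨dc_of hS ha hb hc ab ac bc, (hS.ty_wt _ _ ha).trans hw⟩

theorem cmv {G : Type} [Group G] {h α α' β β' y y' : G} (h1 : h * α = α' * h)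
    (h2 : h * β = β' * h) (h3 : h * y = y' * h) (e : y = ⁅α, β⁆) : y' = ⁅α', β'⁆ := by
  have e1 : α' = h * α * h⁻¹ := by rw [h1]; group
  have e2 : β' = h * β * h⁻¹ := by rw [h2]; group
  have e3 : y' = h * y * h⁻¹ := by rw [h3]; group
  rw [e1, e2, e3, e, commutatorElement_def, commutatorElement_def]
  group

theorem cover : ∀ a s : Fin 3,
    decide (s ≠ a.succAbove 1) = true ∨ decide (s ≠ a.succAbove 0) = true := by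
  decide

theorem self_in : ∀ (a : Fin 3) (m : Fin 2), decide (a ≠ a.succAbove m) = true := by
  decide

theorem same_in : ∀ (a a' : Fin 3) (m k : Fin 2), decide (a.succAbove k ≠ a.succAbove m) =
    decide (a'.succAbove k ≠ a'.succAbove m) := by
  decide

theorem mo_fl (hS : ShapeF) {t t' : Pat} {a a' : Fin 3} (h : EM t a t' a') (χ χ' : Chart)
    (m : Fin 2) : Mo (ap χ t (one a)) (ap χ' t' (one a')) (fl χ t (a.succAbove m))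
      (fl χ' t' (a'.succAbove m)) :=
  hS.em_mo χ χ' t a t' a' _ _ h (self_in a m) (self_in a' m) fun k => same_in a a' m k

theorem mo_gd (hS : ShapeF) {t t' : Pat} {a a' : Fin 3} (h : EM t a t' a') (χ χ' : Chart) :
    Mo (ap χ t (one a)) (ap χ' t' (one a')) (gd χ t) (gd χ' t') :=
  hS.em_mo χ χ' t a t' a' _ _ h rfl rfl fun _ => rfl

theorem step (hS : ShapeF) {G : Type} [Group G] {l : ℕ} {d x : D3G G}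
    {D : Pat → Chart → Chart → Chart → G} (hd : Sys (Lw l) d) (hD : CF l d D) (hx : HX l d D x)
    {t t' : Pat} {a a' : Fin 3} (h : EM t a t' a')
    (ih : ∀ χ₁ χ₂ χ₃, V3 l χ₁ χ₂ χ₃ → x (gd χ₁ t) (gd χ₂ t) (gd χ₃ t) = D t χ₁ χ₂ χ₃)
    (χ₁ χ₂ χ₃ : Chart) (hV : V3 l χ₁ χ₂ χ₃) :
    x (gd χ₁ t') (gd χ₂ t') (gd χ₃ t') = D t' χ₁ χ₂ χ₃ := by
  obtain ⟨j₁, w₁⟩ := χ₁
  obtain ⟨j₂, w₂⟩ := χ₂
  obtain ⟨j₃, w₃⟩ := χ₃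
  obtain ⟨c₁, c₂, c₃, j12, j13, j23⟩ := id hV
  obtain ⟨i₁, hi₁⟩ := hS.fresh [j₁, j₂, j₃] (by simp)
  obtain ⟨i₂, hi₂⟩ := hS.fresh [i₁, j₁, j₂, j₃] (by simp)
  obtain ⟨i₃, hi₃⟩ := hS.fresh [i₂, i₁, j₁, j₂, j₃] (by simp)
  obtain ⟨k, hk⟩ := hS.fresh [i₃, i₂, i₁, j₁, j₂, j₃] (by simp)
  obtain ⟨p, hp⟩ := hS.fresh [k, i₃, i₂, i₁, j₁, j₂, j₃] (by simp)
  obtain ⟨q, hq⟩ := hS.fresh [p, k, i₃, i₂, i₁, j₁, j₂, j₃] (by simp)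
  simp only [List.mem_cons, List.not_mem_nil, or_false, not_or] at hi₁ hi₂ hi₃ hk hp hq
  obtain ⟨a1, -, -⟩ := hi₁
  obtain ⟨b0, b1, b2, -⟩ := hi₂
  obtain ⟨e2, e1, f1, f2, f3⟩ := hi₃
  obtain ⟨k3, k2, k1, l1, l2, l3⟩ := hk
  obtain ⟨pk, p3, p2, p1, r1, r2, r3⟩ := hp
  obtain ⟨qp, qk, q3, q2, q1, s1, s2, s3⟩ := hq
  have hV' : V3 l (i₁, w₁) (i₂, w₂) (i₃, w₃) :=
    ⟨c₁, c₂, c₃, Ne.symm b0, Ne.symm e1, Ne.symm e2⟩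
  have d2 : cd (i₂, w₂) = cd (i₁, w₁) := by
    have : cd (j₂, w₂) = cd (j₁, w₁) := by omega
    exact this
  have d3 : cd (i₃, w₃) = cd (i₁, w₁) := by
    have : cd (j₃, w₃) = cd (j₁, w₁) := by omega
    exact this
  have d1 : cd (i₁, w₁) + 2 = l := c₁
  -- the model boxes
  obtain ⟨z, hz⟩ : ∃ z : Box, z = (k, (ap (i₁, w₁) t (one a)).2) := ⟨_, rfl⟩
  obtain ⟨P, hP⟩ : ∃ z : Box, z = (p, (fl (i₁, w₁) t (a.succAbove 1)).2) := ⟨_, rfl⟩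
  obtain ⟨Q, hQ⟩ : ∃ z : Box, z = (q, (fl (i₁, w₁) t (a.succAbove 0)).2) := ⟨_, rfl⟩
  obtain ⟨R, hR⟩ : ∃ z : Box, z = gd (i₁, w₁) t := ⟨_, rfl⟩
  have wz : wt z.2 ≤ l := by rw [hz, hS.one_wt]; omega
  have wP : wt P.2 ≤ l := by rw [hP, hS.fl_wt]; omega
  have wQ : wt Q.2 ≤ l := by rw [hQ, hS.fl_wt]; omega
  have wR : wt R.2 = l + 1 := by rw [hR, (hS.gd_wt _ _).1]; omega
  have tz : ∀ χ, cd χ = cd (i₁, w₁) → Ty (ap χ t (one a)) z := fun χ e => by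
    rw [hz]; exact hS.ap_ty _ _ t _ e
  have tP : ∀ χ, cd χ = cd (i₁, w₁) → Ty (fl χ t (a.succAbove 1)) P := fun χ e => by
    rw [hP]; exact hS.ap_ty _ _ t _ e
  have tQ : ∀ χ, cd χ = cd (i₁, w₁) → Ty (fl χ t (a.succAbove 0)) Q := fun χ e => by
    rw [hQ]; exact hS.ap_ty _ _ t _ e
  have tR : ∀ χ, cd χ = cd (i₁, w₁) → Ty (gd χ t) R := fun χ e => by
    rw [hR]; exact hS.ap_ty _ _ t _ e
  have tg : ∀ χ, Ty (ap χ t (one a)) (ap χ t' (one a')) := fun χ => hS.em_ty _ _ _ _ _ _ h rfl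
  have tz' : ∀ χ, cd χ = cd (i₁, w₁) → Ty (ap χ t' (one a')) z := fun χ e =>
    hS.ty_trans _ _ _ (hS.ty_symm _ _ (tg χ)) (tz χ e)
  have tP' : ∀ χ, cd χ = cd (i₁, w₁) → Ty (fl χ t' (a'.succAbove 1)) P := fun χ e =>
    hS.ty_trans _ _ _ (hS.ty_symm _ _ (hS.mo_ty _ _ _ _ (tg χ) (mo_fl hS h χ χ 1))) (tP χ e)
  have tQ' : ∀ χ, cd χ = cd (i₁, w₁) → Ty (fl χ t' (a'.succAbove 0)) Q := fun χ e =>
    hS.ty_trans _ _ _ (hS.ty_symm _ _ (hS.mo_ty _ _ _ _ (tg χ) (mo_fl hS h χ χ 0))) (tQ χ e)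
  have tR' : ∀ χ, cd χ = cd (i₁, w₁) → Ty (gd χ t') R := fun χ e =>
    hS.ty_trans _ _ _ (hS.ty_symm _ _ (hS.mo_ty _ _ _ _ (tg χ) (mo_gd hS h χ χ))) (tR χ e)
  have zz : Ty z z := hS.ty_trans _ _ _ (hS.ty_symm _ _ (tz _ rfl)) (tz _ rfl)
  have PP : Ty P P := hS.ty_trans _ _ _ (hS.ty_symm _ _ (tP _ rfl)) (tP _ rfl)
  have QQ : Ty Q Q := hS.ty_trans _ _ _ (hS.ty_symm _ _ (tQ _ rfl)) (tQ _ rfl)
  have z1 : z.1 = k := by rw [hz]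
  have P1 : P.1 = p := by rw [hP]
  have Q1 : Q.1 = q := by rw [hQ]
  clear hz hP hQ hR
  subst z1 P1 Q1
  -- the three moving cycles
  have g1 : Lw l (ap (i₁, w₁) t (one a)) (ap (j₁, w₁) t' (one a')) z :=
    lw_of hS wz (tz _ rfl) (tz' _ rfl) zz a1 (Ne.symm k1) (Ne.symm l1)
  have g2 : Lw l (ap (i₂, w₂) t (one a)) (ap (j₂, w₂) t' (one a')) z :=
    lw_of hS wz (tz _ d2) (tz' _ d2) zz b2 (Ne.symm k2) (Ne.symm l2)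
  have g3 : Lw l (ap (i₃, w₃) t (one a)) (ap (j₃, w₃) t' (one a')) z :=
    lw_of hS wz (tz _ d3) (tz' _ d3) zz f3 (Ne.symm k3) (Ne.symm l3)
  -- the first entries
  have u0 : Lw l (fl (i₁, w₁) t (a.succAbove 1)) (fl (i₂, w₂) t (a.succAbove 1)) P :=
    lw_of hS wP (tP _ rfl) (tP _ d2) PP (Ne.symm b0) (Ne.symm p1) (Ne.symm p2)
  have u1 : Lw l (fl (j₁, w₁) t' (a'.succAbove 1)) (fl (i₂, w₂) t (a.succAbove 1)) P :=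
    lw_of hS wP (tP' _ rfl) (tP _ d2) PP (Ne.symm b1) (Ne.symm r1) (Ne.symm p2)
  have u2 : Lw l (fl (j₁, w₁) t' (a'.succAbove 1)) (fl (j₂, w₂) t' (a'.succAbove 1)) P :=
    lw_of hS wP (tP' _ rfl) (tP' _ d2) PP j12 (Ne.symm r1) (Ne.symm r2)
  -- the second entries
  have v0 : Lw l (fl (i₁, w₁) t (a.succAbove 0)) (fl (i₃, w₃) t (a.succAbove 0)) Q :=
    lw_of hS wQ (tQ _ rfl) (tQ _ d3) QQ (Ne.symm e1) (Ne.symm q1) (Ne.symm q3)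
  have v1 : Lw l (fl (j₁, w₁) t' (a'.succAbove 0)) (fl (i₃, w₃) t (a.succAbove 0)) Q :=
    lw_of hS wQ (tQ' _ rfl) (tQ _ d3) QQ (Ne.symm f1) (Ne.symm s1) (Ne.symm q3)
  have v3 : Lw l (fl (j₁, w₁) t' (a'.succAbove 0)) (fl (j₃, w₃) t' (a'.succAbove 0)) Q :=
    lw_of hS wQ (tQ' _ rfl) (tQ' _ d3) QQ j13 (Ne.symm s1) (Ne.symm s3)
  -- the high triples
  have y0 : Hi l (gd (i₁, w₁) t) (gd (i₂, w₂) t) (gd (i₃, w₃) t) :=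
    hi_of hS wR (tR _ rfl) (tR _ d2) (tR _ d3) (Ne.symm b0) (Ne.symm e1) (Ne.symm e2)
  have y1 : Hi l (gd (j₁, w₁) t') (gd (i₂, w₂) t) (gd (i₃, w₃) t) :=
    hi_of hS wR (tR' _ rfl) (tR _ d2) (tR _ d3) (Ne.symm b1) (Ne.symm f1) (Ne.symm e2)
  have y2 : Hi l (gd (j₁, w₁) t') (gd (j₂, w₂) t') (gd (i₃, w₃) t) :=
    hi_of hS wR (tR' _ rfl) (tR' _ d2) (tR _ d3) j12 (Ne.symm f1) (Ne.symm f2)
  -- copies outside the moving cycles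
  have o12 : i₂ ∉ [i₁, j₁, z.1] := nm3 b0 b1 (Ne.symm k2)
  have o13 : i₃ ∉ [i₁, j₁, z.1] := nm3 e1 f1 (Ne.symm k3)
  have o1p : P.1 ∉ [i₁, j₁, z.1] := nm3 p1 r1 pk
  have o1q : Q.1 ∉ [i₁, j₁, z.1] := nm3 q1 s1 qk
  have o21 : j₁ ∉ [i₂, j₂, z.1] := nm3 (Ne.symm b1) j12 (Ne.symm l1)
  have o23 : i₃ ∉ [i₂, j₂, z.1] := nm3 e2 f2 (Ne.symm k3)
  have o2p : P.1 ∉ [i₂, j₂, z.1] := nm3 p2 r2 pk
  have o2q : Q.1 ∉ [i₂, j₂, z.1] := nm3 q2 s2 qk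
  have o31 : j₁ ∉ [i₃, j₃, z.1] := nm3 (Ne.symm f1) j13 (Ne.symm l1)
  have o32 : j₂ ∉ [i₃, j₃, z.1] := nm3 (Ne.symm f2) j23 (Ne.symm l2)
  have o3p : P.1 ∉ [i₃, j₃, z.1] := nm3 p3 r3 pk
  have o3q : Q.1 ∉ [i₃, j₃, z.1] := nm3 q3 s3 qk
  -- the formula before the moves
  have E0 := (ih _ _ _ hV').trans (hD t _ _ _ _ _ P Q hV' (cover a) u0 v0 p3 (Ne.symm qp) q2)
  have E1 := cmv
    (hd.conj _ _ _ _ _ _ _ _ _ g1 u0 u1 (Or.inl (mo_fl hS h _ _ 1)) (mvs o12) (mvs o1p))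
    (hd.conj _ _ _ _ _ _ _ _ _ g1 v0 v1 (Or.inl (mo_fl hS h _ _ 0)) (mvs o13) (mvs o1q))
    (hx.m1 _ _ _ _ _ _ _ y0 g1 (mo_gd hS h _ _) o12 o13) E0
  have E2 := cmv
    (hd.conj _ _ _ _ _ _ _ _ _ g2 u1 u2 (mvs o21) (Or.inl (mo_fl hS h _ _ 1)) (mvs o2p))
    (hd.conj _ _ _ _ _ _ _ _ _ g2 v1 v1 (mvs o21) (mvs o23) (mvs o2q))
    (hx.m2 _ _ _ _ _ _ _ y1 g2 (mo_gd hS h _ _) o21 o23) E1
  have E3 := cmv
    (hd.conj _ _ _ _ _ _ _ _ _ g3 u2 u2 (mvs o31) (mvs o32) (mvs o3p))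
    (hd.conj _ _ _ _ _ _ _ _ _ g3 v1 v3 (mvs o31) (Or.inl (mo_fl hS h _ _ 0)) (mvs o3q))
    (hx.m3 _ _ _ _ _ _ _ y2 g3 (mo_gd hS h _ _) o31 o32) E2
  exact E3.trans (hD t' _ _ _ _ _ P Q hV (cover a') u2 v3 r3 (Ne.symm qp) s2).symm

theorem all (hS : ShapeF) {G : Type} [Group G] {l : ℕ} {d x : D3G G}
    {D : Pat → Chart → Chart → Chart → G} (hd : Sys (Lw l) d) (hD : CF l d D) (hx : HX l d D x)
    (t : Pat) :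
    ∀ χ₁ χ₂ χ₃, V3 l χ₁ χ₂ χ₃ → x (gd χ₁ t) (gd χ₂ t) (gd χ₃ t) = D t χ₁ χ₂ χ₃ := by
  have hc : cnt t ≤ 3 := by
    have h1 := (hS.gd_wt (0, fun _ => []) t).2
    have h2 := hS.ar_le (gd (0, fun _ => []) t).2
    have h3 : (gd (0, fun _ => []) t).2.length = 3 := hS.ap_len _ _ _
    omega
  exact hS.em_conn (cnt t)
    (fun s => ∀ χ₁ χ₂ χ₃, V3 l χ₁ χ₂ χ₃ → x (gd χ₁ s) (gd χ₂ s) (gd χ₃ s) = D s χ₁ χ₂ χ₃)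
    (fun χ₁ χ₂ χ₃ hV => hx.bs _ χ₁ χ₂ χ₃ hc hV)
    (fun s a s' a' h _ ih => step hS hd hD hx h ih) t rfl

end Xdx

theorem xd_main : SpXd := by
  intro hS _ G _ l d D x _ hd hD hx t χ₁ χ₂ χ₃ A B P Q hV hAB h1 h2 n1 n2 n3
  exact (Xdx.all hS hd hD.df hx t χ₁ χ₂ χ₃ hV).trans
    (hD.df t χ₁ χ₂ χ₃ A B P Q hV hAB h1 h2 n1 n2 n3)

end Pool.Agent.MP_89edc2_al.R3
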